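import Pool.Agent.Lib.MP_6a3dac_ag.QWGens
import Pool.Agent.Lib.MP_6a3dac_ag.Mg.G003

/-!
# The order of a product of ideals, with an involution
-/

set_option autoImplicit false
set_option linter.unusedSectionVars false
set_option linter.unusedVariables false

namespace Pool.Agent.Lib.MP_6a3dac_ag.QD

open Pool.Agent.Lib.MP_6a3dac_ag

section Order

variable {R O L M I : Type} [CommRing R] [CommRing O] [Algebra R O] [Field L] [Algebra R L]
  [Algebra O L] [IsScalarTower R O L] [CommRing M] [Algebra L M] [Algebra R M]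
  [IsScalarTower R L M] (ℳ : ℕ → Submodule L M) [GradedAlgebra ℳ]

/-- The hypotheses on the generators of the ideals at one prime. -/
structure Cent (x : I → M) (τ : M →+* M) (p : Ideal R) [p.IsPrime] (ϖ : O) (δ r : ℕ)
    (B : ℕ → Set M) : Prop where
  ϖ0 : ϖ ≠ 0
  δpos : 1 ≤ δ
  fin : ∀ j, (B j).Finite
  deg : ∀ j, ∀ b ∈ B j, b ∈ ℳ δ
  pow : ∀ j i, oM O L M ϖ ^ j * x i ^ δ ∈ B j
  η : ∃ η ∈ lamP O L M p, τ (oM O L M ϖ) = η * oM O L M ϖ
  star : ∀ j, ∀ b ∈ B j, ∃ c ∈ lamP O L M p, ∃ b' ∈ B j, τ b = c * b'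

variable (x : I → M) (τ : M →+* M) (B : ℕ → Set M) (C₀ : Set O) (ϖ : O) (r : ℕ)

/-- The generators of the order. -/
def gens : Set M :=
  oM O L M '' C₀ ∪ (DNF.WSet x B r ∪ DNF.W1Set x (oM O L M ϖ) r)

/-- The order. -/
def ordAlg (R : Type) [CommRing R] [Algebra R M] : Subalgebra R M :=
  Algebra.adjoin R (gens (L := L) x B C₀ ϖ r ∪ τ '' gens (L := L) x B C₀ ϖ r)

end Order

section OrderHyp

variable {R O L M I : Type} [CommRing R] [CommRing O] [Algebra R O] [Field L] [Algebra R L]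
  [Algebra O L] [IsScalarTower R O L] [CommRing M] [Algebra L M] [Algebra R M]
  [IsScalarTower R L M] {ℳ : ℕ → Submodule L M} [GradedAlgebra ℳ]
  {σ : O →+* O} (h : QuadExt R O σ) (hRL : Function.Injective (algebraMap R L))
  {x : I → M} {τ : M →+* M} {B : ℕ → Set M} {C₀ : Set O} {ϖ : O} {δ r : ℕ}
  (hτO : ∀ c, τ (oM O L M c) = oM O L M (σ c)) (hτ : ∀ m, τ (τ m) = m)
  (hτgr : ∀ n m, m ∈ ℳ n → τ m ∈ ℳ n)
  (hxdeg : ∀ i, x i ∈ ℳ 1) (hstar : ∀ l, ∃ l', τ (x l) = x l')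
  (hC₀ : Algebra.adjoin R C₀ = ⊤) (p : Ideal R) [hp : p.IsPrime]
  (hB : Cent ℳ x τ p ϖ δ r B)

include hstar hB in
theorem map_WSet {w : M} (hw : w ∈ DNF.WSet x B r) :
    ∃ c ∈ lamP O L M p, ∃ w' ∈ DNF.WSet x B r, τ w = c * w' := by
  obtain ⟨i, q, ⟨β, hβ, rfl⟩, rfl⟩ := hw
  obtain ⟨i', hi'⟩ := hstar i
  choose! c hc b' hb' hcb using fun j (hj : j ∈ Finset.Icc 1 r) => hB.star j _ (hβ j hj)
  refine ⟨∏ j ∈ Finset.Icc 1 r, c j, Subring.prod_mem _ hc, x i' * ∏ j ∈ Finset.Icc 1 r, b' j,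
    ⟨i', _, ⟨b', hb', rfl⟩, rfl⟩, ?_⟩
  rw [map_mul, map_prod, hi', Finset.prod_congr rfl hcb, Finset.prod_mul_distrib]
  ring

include hstar hB in
theorem map_W1Set {w : M} (hw : w ∈ DNF.W1Set x (oM O L M ϖ) r) :
    ∃ c ∈ lamP O L M p, ∃ w' ∈ DNF.W1Set x (oM O L M ϖ) r, τ w = c * w' := by
  obtain ⟨i, rfl⟩ := hw
  obtain ⟨i', hi'⟩ := hstar i
  obtain ⟨η, hη1, hη2⟩ := hB.η
  refine ⟨∏ j ∈ Finset.Icc 1 r, η ^ j, Subring.prod_mem _ fun j _ => Subring.pow_mem _ hη1 j, _,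
    ⟨i', rfl⟩, ?_⟩
  rw [map_mul, map_prod, hi', ← mul_assoc, ← Finset.prod_mul_distrib]
  congr 1
  refine Finset.prod_congr rfl fun j _ => ?_
  rw [map_pow, hη2, mul_pow]

omit [IsScalarTower R O L] [Algebra R O] [Algebra R L] [IsScalarTower R L M] [Algebra R M]
  [CommRing R] in
include hxdeg hτgr in
theorem gens_homog (hdeg : ∀ j, ∀ b ∈ B j, b ∈ ℳ δ) {m : M}
    (hm : m ∈ gens (L := L) x B C₀ ϖ r ∪ τ '' gens (L := L) x B C₀ ϖ r) : ∃ i, m ∈ ℳ i := by
  have key : ∀ m ∈ gens (L := L) x B C₀ ϖ r, ∃ i, m ∈ ℳ i := by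
    rintro m (⟨c, -, rfl⟩ | hm | hm)
    · exact ⟨0, oM_deg ℳ c⟩
    · obtain ⟨i, q, ⟨β, hβ, rfl⟩, rfl⟩ := hm
      refine ⟨1 + ∑ j ∈ Finset.Icc 1 r, δ, SetLike.mul_mem_graded (hxdeg i) ?_⟩
      exact SetLike.prod_mem_graded _ _ _ fun j hj => hdeg j _ (hβ j hj)
    · obtain ⟨i, rfl⟩ := hm
      refine ⟨(∑ j ∈ Finset.Icc 1 r, j • 0) + 1, SetLike.mul_mem_graded
        (SetLike.prod_mem_graded _ _ _ fun j _ => SetLike.pow_mem_graded j
          (oM_deg (M := M) ℳ ϖ)) (hxdeg i)⟩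
  rcases hm with hm | ⟨m, hm, rfl⟩
  · exact key m hm
  · obtain ⟨i, hi⟩ := key m hm
    exact ⟨i, hτgr i m hi⟩

include hC₀ in
theorem oM_mem_ordAlg (c : O) : oM O L M c ∈ ordAlg (L := L) x τ B C₀ ϖ r R := by
  have hc : c ∈ Algebra.adjoin R C₀ := by rw [hC₀]; exact Algebra.mem_top
  induction hc using Algebra.adjoin_induction with
  | mem c hc => exact Algebra.subset_adjoin (Or.inl (Or.inl ⟨c, hc, rfl⟩))
  | algebraMap r => rw [oM_algebraMap]; exact Subalgebra.algebraMap_mem _ _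
  | add a b _ _ ha hb => rw [map_add]; exact Subalgebra.add_mem _ ha hb
  | mul a b _ _ ha hb => rw [map_mul]; exact Subalgebra.mul_mem _ ha hb

/-- The order is stable under the involution. -/
theorem map_ordAlg (hτR : ∀ a : R, τ (algebraMap R M a) = algebraMap R M a)
    (hτ : ∀ m, τ (τ m) = m) {t : M} (ht : t ∈ ordAlg (L := L) x τ B C₀ ϖ r R) :
    τ t ∈ ordAlg (L := L) x τ B C₀ ϖ r R := by
  unfold ordAlg at ht
  induction ht using Algebra.adjoin_induction with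
  | mem m hm =>
    rcases hm with hm | ⟨m, hm, rfl⟩
    · exact Algebra.subset_adjoin (Or.inr ⟨m, hm, rfl⟩)
    · rw [hτ]
      exact Algebra.subset_adjoin (Or.inl hm)
  | algebraMap r => rw [hτR]; exact Subalgebra.algebraMap_mem _ _
  | add a b _ _ ha hb => rw [map_add]; exact Subalgebra.add_mem _ ha hb
  | mul a b _ _ ha hb => rw [map_mul]; exact Subalgebra.mul_mem _ ha hb

theorem finite_gens [Finite I] (hfin : ∀ j, (B j).Finite) (hC : C₀.Finite) :
    (gens (L := L) x B C₀ ϖ r).Finite :=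
  (hC.image _).union ((DNF.finite_WSet hfin r).union (DNF.finite_W1Set r))

include h hRL hτO hτ hτgr hxdeg hstar hC₀ hB in
/-- The localized order satisfies the hypotheses of the local theory. -/
theorem orderHyp_locSub : DNF.OrderHyp ℳ x B δ (oM O L M ϖ) (lamP O L M p) r
    (locSub p (ordAlg (L := L) x τ B C₀ ϖ r R)) where
  xdeg := hxdeg
  δpos := hB.δpos
  B_deg := hB.deg
  B_pow := hB.pow
  Λdeg c hc := lamP_deg p hc
  ϖΛ := oM_mem_lamP p ϖ
  hom := isHomog_locSub ℳ p (isHomog_adjoin ℳ fun m hm => gens_homog hτgr hxdeg hB.deg hm)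
  Λ_le c hc := by
    obtain ⟨n, hn, c', hc', -⟩ := hc
    refine ⟨n, hn, ?_⟩
    rw [Algebra.smul_def, hc']
    exact oM_mem_ordAlg hC₀ c'
  W_le c hc := le_locSub _ _ (Algebra.subset_adjoin (Or.inl (Or.inr (Or.inl hc))))
  W1_le c hc := le_locSub _ _ (Algebra.subset_adjoin (Or.inl (Or.inr (Or.inr hc))))
  gen N hN1 hN2 hN3 t ht := by
    have hgen : ∀ m ∈ gens (L := L) x B C₀ ϖ r ∪ τ '' gens (L := L) x B C₀ ϖ r, m ∈ N := by
      rintro m ((⟨c, -, rfl⟩ | hm | hm) | ⟨m, (⟨c, -, rfl⟩ | hm | hm), rfl⟩)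
      · exact hN1 _ (oM_mem_lamP p c)
      · exact hN2 _ hm
      · exact hN3 _ hm
      · rw [hτO]
        exact hN1 _ (oM_mem_lamP p _)
      · obtain ⟨c, hc, w', hw', hcw⟩ := map_WSet hstar p hB hm
        rw [hcw]
        exact N.mul_mem (hN1 c hc) (hN2 w' hw')
      · obtain ⟨c, hc, w', hw', hcw⟩ := map_W1Set hstar p hB hm
        rw [hcw]
        exact N.mul_mem (hN1 c hc) (hN3 w' hw')
    have hadj : ∀ m ∈ ordAlg (L := L) x τ B C₀ ϖ r R, m ∈ N := by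
      intro m hm
      unfold ordAlg at hm
      induction hm using Algebra.adjoin_induction with
      | mem m hm => exact hgen m hm
      | algebraMap a =>
        rw [← oM_algebraMap (O := O) (L := L)]
        exact hN1 _ (oM_mem_lamP p _)
      | add a b _ _ ha hb => exact N.add_mem ha hb
      | mul a b _ _ ha hb => exact N.mul_mem ha hb
    obtain ⟨n, hn, hnt⟩ := ht
    obtain ⟨l, hl⟩ := exists_inv (L := L) (M := M) hRL hn
    have h1 : t = algebraMap L M l * (n • t) := by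
      rw [Algebra.smul_def, ← mul_assoc, mul_comm (algebraMap L M l), hl, one_mul]
    rw [h1]
    refine N.mul_mem (hN1 _ ⟨n, hn, 1, ?_, l, rfl⟩) (hadj _ hnt)
    rw [hl, map_one]

include hxdeg hτgr hτO h in
/-- The invariants of degree zero. -/
theorem degree_zero_ordAlg (hδ : 1 ≤ δ) (hdeg : ∀ j, ∀ b ∈ B j, b ∈ ℳ δ)
    (hMinj : Function.Injective (algebraMap L M))
    (hOinj : Function.Injective (algebraMap O L)) {t : M}
    (ht : t ∈ ordAlg (L := L) x τ B C₀ ϖ r R) (ht0 : t ∈ ℳ 0) (htτ : τ t = t) :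
    ∃ a : R, algebraMap R M a = t := by
  have hpos : ∀ m ∈ gens (L := L) x B C₀ ϖ r ∪ τ '' gens (L := L) x B C₀ ϖ r,
      (∃ c, oM O L M c = m) ∨ ∃ i, 0 < i ∧ m ∈ ℳ i := by
    have key : ∀ m ∈ gens (L := L) x B C₀ ϖ r, (∃ c, oM O L M c = m) ∨
        ∃ i, 0 < i ∧ m ∈ ℳ i := by
      rintro m (⟨c, -, rfl⟩ | hm | hm)
      · exact Or.inl ⟨c, rfl⟩
      · right
        obtain ⟨i, q, ⟨β, hβ, rfl⟩, rfl⟩ := hm
        exact ⟨1 + ∑ j ∈ Finset.Icc 1 r, δ, by omega, SetLike.mul_mem_graded (hxdeg i)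
          (SetLike.prod_mem_graded _ _ _ fun j hj => hdeg j _ (hβ j hj))⟩
      · right
        obtain ⟨i, rfl⟩ := hm
        exact ⟨(∑ j ∈ Finset.Icc 1 r, j • 0) + 1, by omega, SetLike.mul_mem_graded
          (SetLike.prod_mem_graded _ _ _ fun j _ => SetLike.pow_mem_graded j
            (oM_deg (M := M) ℳ ϖ)) (hxdeg i)⟩
    rintro m (hm | ⟨m, hm, rfl⟩)
    · exact key m hm
    · rcases key m hm with ⟨c, rfl⟩ | ⟨i, hi, hmi⟩
      · exact Or.inl ⟨σ c, (hτO c).symm⟩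
      · exact Or.inr ⟨i, hi, hτgr i m hmi⟩
  have key : ∀ t ∈ ordAlg (L := L) x τ B C₀ ϖ r R, ∃ c : O,
      oM O L M c = GradedRing.projZeroRingHom ℳ t := by
    intro t ht
    unfold ordAlg at ht
    induction ht using Algebra.adjoin_induction with
    | mem m hm =>
      rcases hpos m hm with ⟨c, rfl⟩ | ⟨i, hi, hmi⟩
      · refine ⟨c, ?_⟩
        rw [GradedRing.projZeroRingHom_apply, DirectSum.decompose_of_mem_same ℳ (oM_deg ℳ c)]
      · refine ⟨0, ?_⟩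
        rw [map_zero, GradedRing.projZeroRingHom_apply, DirectSum.decompose_of_mem_ne ℳ hmi hi.ne']
    | algebraMap a =>
      refine ⟨algebraMap R O a, ?_⟩
      rw [← oM_algebraMap (O := O) (L := L) (M := M) a, GradedRing.projZeroRingHom_apply,
        DirectSum.decompose_of_mem_same ℳ (oM_deg ℳ _)]
    | add a b _ _ ha hb =>
      obtain ⟨c, hc⟩ := ha
      obtain ⟨d, hd⟩ := hb
      exact ⟨c + d, by rw [map_add, map_add, hc, hd]⟩
    | mul a b _ _ ha hb =>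
      obtain ⟨c, hc⟩ := ha
      obtain ⟨d, hd⟩ := hb
      exact ⟨c * d, by rw [map_mul, map_mul, hc, hd]⟩
  obtain ⟨c, hc⟩ := key t ht
  rw [GradedRing.projZeroRingHom_apply, DirectSum.decompose_of_mem_same ℳ ht0] at hc
  have h1 : σ c = c := by
    apply hOinj
    apply hMinj
    change oM O L M (σ c) = oM O L M c
    rw [← hτO, hc, htτ]
  obtain ⟨a, ha⟩ := h.fixed c h1
  exact ⟨a, by rw [← oM_algebraMap (O := O) (L := L), ha, hc]⟩

include h hRL hC₀ in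
/-- The order spans the algebra. -/
theorem full_ordAlg [IsDomain R] (hdom : ∀ c : O, c ≠ 0 → c * σ c ≠ 0)
    (hfrac : ∀ l : L, ∃ a b : O, b ≠ 0 ∧ algebraMap O L b * l = algebraMap O L a)
    (hgen : Algebra.adjoin L (Set.range x) = ⊤) (hϖ : ϖ ≠ 0) (hO : IsDomain O) (m : M) :
    ∃ n : R, n ≠ 0 ∧ n • m ∈ ordAlg (L := L) x τ B C₀ ϖ r R := by
  have hU : ∀ m : M, m ∈ locSub (⊥ : Ideal R) (ordAlg (L := L) x τ B C₀ ϖ r R) := by
    intro m
    have hm : m ∈ Algebra.adjoin L (Set.range x) := by rw [hgen]; exact Algebra.mem_top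
    have hnorm : ∀ (c : O) (m' : M), c ≠ 0 → oM O L M c * m' ∈ locSub (⊥ : Ideal R)
        (ordAlg (L := L) x τ B C₀ ϖ r R) → m' ∈ locSub (⊥ : Ideal R)
        (ordAlg (L := L) x τ B C₀ ϖ r R) := by
      intro c m' hc hm'
      obtain ⟨n, hn⟩ := h.exists_norm c
      have hn0 : n ≠ 0 := by
        rintro rfl
        rw [map_zero] at hn
        exact hdom c hc hn.symm
      refine mem_locSub_of_smul _ _ (r := n) (by simpa using hn0) ?_
      have h1 : n • m' = oM O L M (σ c) * (oM O L M c * m') := by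
        rw [Algebra.smul_def, ← oM_algebraMap (O := O) (L := L), hn, map_mul]
        ring
      rw [h1]
      exact Subalgebra.mul_mem _ (le_locSub _ _ (oM_mem_ordAlg hC₀ _)) hm'
    induction hm using Algebra.adjoin_induction with
    | mem m hm =>
      obtain ⟨i, rfl⟩ := hm
      apply hnorm (∏ j ∈ Finset.Icc 1 r, ϖ ^ j) _ (Finset.prod_ne_zero_iff.mpr fun j _ =>
        pow_ne_zero _ hϖ)
      refine le_locSub _ _ (Algebra.subset_adjoin (Or.inl (Or.inr (Or.inr ⟨i, ?_⟩))))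
      rw [map_prod]
      simp only [map_pow]
    | algebraMap l =>
      obtain ⟨a, b, hb, hab⟩ := hfrac l
      apply hnorm b _ hb
      have h1 : oM O L M b * algebraMap L M l = oM O L M a := by
        rw [oM, RingHom.comp_apply, ← map_mul, hab]; rfl
      rw [h1]
      exact le_locSub _ _ (oM_mem_ordAlg hC₀ _)
    | add a b _ _ ha hb => exact Subalgebra.add_mem _ ha hb
    | mul a b _ _ ha hb => exact Subalgebra.mul_mem _ ha hb
  obtain ⟨n, hn, hnm⟩ := hU m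
  exact ⟨n, by simpa using hn, hnm⟩

end OrderHyp

end Pool.Agent.Lib.MP_6a3dac_ag.QD
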