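import Pool.Agent.Lib.MP_6a3dac_ag.QD.Gens
import Pool.Agent.Lib.MP_6a3dac_ag.QWAbs

/-!
# Regular models of the rings of invariants: the abstract theorem for general centres
-/

set_option autoImplicit false
set_option linter.unusedSectionVars false
set_option linter.unusedVariables false

namespace Pool.Agent.Lib.MP_6a3dac_ag.QD

open Pool.Agent.Lib.MP_6a3dac_ag
open CategoryTheory Limits AlgebraicGeometry IsDedekindDomain

/-- A local ring `D` of the model, in a chart. -/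
structure LocSit {M F I : Type} [CommRing M] [Field F] (ι : M →+* F) (x : I → M)
    (B : ℕ → Set M) (Λ : Subring M) (r : ℕ) (D : Subring F) (i : I) (β : ℕ → M) : Prop where
  loc : IsLocalRing D
  lam : ∀ c ∈ Λ, ι c ∈ D
  ne : ι (x i) ≠ 0
  coord : ∀ k, ι (x k) / ι (x i) ∈ D
  β_mem : ∀ j ∈ Finset.Icc 1 r, β j ∈ B j
  β_ne : ∀ j ∈ Finset.Icc 1 r, ι (β j) ≠ 0
  ratio : ∀ j ∈ Finset.Icc 1 r, ∀ b ∈ B j, ι b / ι (β j) ∈ D
  gen : ∀ R' : Subring F, R' ≤ D → (∀ a ∈ R', ∀ b ∈ D, a * b = 1 → b ∈ R') →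
    (∀ c ∈ Λ, ι c ∈ R') → (∀ k, ι (x k) / ι (x i) ∈ R') →
    (∀ j ∈ Finset.Icc 1 r, ∀ b ∈ B j, ι b / ι (β j) ∈ R') → D ≤ R'

section Model

variable {R K O L A M F I : Type} [CommRing R] [IsDedekindDomain R] [Field K] [Algebra R K]
  [IsFractionRing R K] [CommRing O] [IsDedekindDomain O] [Algebra R O] [Module.Finite R O]
  [Field L] [Algebra R L] [Algebra O L] [IsScalarTower R O L] [IsFractionRing O L]
  [CommRing A] [Algebra K A] [Algebra R A] [IsScalarTower R K A]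
  (𝒜 : ℕ → Submodule K A) [GradedAlgebra 𝒜]
  [CommRing M] [IsDomain M] [Algebra L M] [Algebra R M] [IsScalarTower R L M]
  (ℳ : ℕ → Submodule L M) [GradedAlgebra ℳ] [Field F] [Finite I]

/-- **Regular models of rings of invariants.** -/
theorem exists_model_of_local (hRf : ¬ IsField R) {σ : O →+* O} (h : QuadExt R O σ)
    (j : A →ₐ[R] M) (hj : Function.Injective j) (hgr : ∀ n a, a ∈ 𝒜 n ↔ j a ∈ ℳ n)
    (τ : M →+* M) (hτ : ∀ m, τ (τ m) = m) (hτgr : ∀ n m, m ∈ ℳ n → τ m ∈ ℳ n)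
    (hfix : ∀ m, τ m = m → ∃ a, j a = m) (hfix' : ∀ a, τ (j a) = j a)
    (hτO : ∀ c, τ (oM O L M c) = oM O L M (σ c))
    (ι : M →+* F) (hι : Function.Injective ι) (τF : F →+* F)
    (hτF : ∀ m, τF (ι m) = ι (τ m)) (hτF2 : ∀ z, τF (τF z) = z)
    (x : I → M) (hxdeg : ∀ i, x i ∈ ℳ 1) (hstar : ∀ l, ∃ l', τ (x l) = x l')
    (hgen : Algebra.adjoin L (Set.range x) = ⊤)
    (hU : ∀ p : HeightOneSpectrum R, UnramAt σ p.asIdeal → ∀ (B : ℕ → Set M) (D : Subring F)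
      (i : I) (β : ℕ → M), LocSit ι x B (lamP O L M p.asIdeal) 0 D i β → IsRegularLocalRing D)
    (hR : ∀ p : HeightOneSpectrum R, ¬ UnramAt σ p.asIdeal → ∃ (ϖ : O) (δ r : ℕ) (B : ℕ → Set M),
      Cent ℳ x τ p.asIdeal ϖ δ r B ∧ ∀ (D : Subring F) (i : I) (β : ℕ → M),
        LocSit ι x B (lamP O L M p.asIdeal) r D i β → IsRegularLocalRing D ∧
          ((∀ z ∈ D, τF z ∈ D) → Principal τF D)) :
    ∃ (Y : Scheme.{0}) (g : Y ⟶ Spec (CommRingCat.of R)),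
      IsProper g ∧ Flat g ∧ (∀ y : Y, IsRegularLocalRing (Y.presheaf.stalk y)) ∧
      ∃ e : pullback g (Spec.map (CommRingCat.ofHom (algebraMap R K))) ≅ Proj 𝒜,
        e.hom ≫ projTo K 𝒜 =
          pullback.snd g (Spec.map (CommRingCat.ofHom (algebraMap R K))) := by
  classical
  have hOL : Function.Injective (algebraMap O L) := IsFractionRing.injective O L
  have hRL : Function.Injective (algebraMap R L) := by
    rw [IsScalarTower.algebraMap_eq R O L]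
    exact hOL.comp h.inj
  have hLM : Function.Injective (algebraMap L M) := (algebraMap L M).injective
  have hA : Nontrivial A := by
    refine ⟨0, 1, fun h0 => ?_⟩
    have := congrArg j h0
    rw [map_zero, map_one] at this
    exact zero_ne_one this
  have hτR : ∀ a : R, τ (algebraMap R M a) = algebraMap R M a := by
    intro a
    rw [← oM_algebraMap (O := O) (L := L), hτO, h.fix]
  -- the standard generators
  let B₀ : ℕ → Set M := fun _ => Set.range x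
  have hB₀ : ∀ p : HeightOneSpectrum R, Cent ℳ x τ p.asIdeal (1 : O) (L := L) 1 0 B₀ := by
    intro p
    refine ⟨one_ne_zero, le_rfl, fun _ => Set.finite_range x, ?_, ?_, ?_, ?_⟩
    · rintro _ _ ⟨i, rfl⟩
      exact hxdeg i
    · intro j i
      refine ⟨i, ?_⟩
      rw [map_one, one_pow, one_mul, pow_one]
    · exact ⟨1, Subring.one_mem _, by simp⟩
    · rintro _ _ ⟨i, rfl⟩
      obtain ⟨i', hi'⟩ := hstar i
      exact ⟨1, Subring.one_mem _, x i', ⟨i', rfl⟩, by rw [hi', one_mul]⟩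
  -- the parameters at the primes
  have hpar : ∀ p : HeightOneSpectrum R, ∃ (ϖ : O) (δ r : ℕ) (B : ℕ → Set M),
      Cent ℳ x τ p.asIdeal ϖ δ r B ∧
      (UnramAt σ p.asIdeal → ϖ = 1 ∧ r = 0 ∧ B = B₀) ∧
      ∀ (D : Subring F) (i : I) (β : ℕ → M),
        LocSit ι x B (lamP O L M p.asIdeal) r D i β → IsRegularLocalRing D ∧
          ((∀ z ∈ D, τF z ∈ D) → Principal τF D) := by
    intro p
    by_cases hUp : UnramAt σ p.asIdeal
    · refine ⟨1, 1, 0, B₀, hB₀ p, fun _ => ⟨rfl, rfl, rfl⟩, fun D i β hD => ⟨hU p hUp B₀ D i β hD,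
        fun hτD => ?_⟩⟩
      obtain ⟨-, -, h3⟩ := arithHyp_unram (L := L) (M := M) h hRL hτO p.asIdeal hUp
      rcases h3 with ⟨-, c, hc, d, hd, hcd⟩ | ⟨h4, -⟩
      · refine principal_of_unit τF hτD (hD.lam c hc) (hD.lam d hd) ?_
        rw [hτF, ← map_sub, ← map_mul, hcd, map_one]
      · omega
    · obtain ⟨ϖ, δ, r, B, h1, h2⟩ := hR p hUp
      exact ⟨ϖ, δ, r, B, h1, fun hU' => absurd hU' hUp, h2⟩
  choose ϖ δ r B hpar1 hpar2 hpar3 using hpar
  -- finitely many generators of `O`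
  obtain ⟨C₀, hC₀⟩ : (⊤ : Subalgebra R O).FG := by
    have : Algebra.FiniteType R O := inferInstance
    exact this.out
  let T₁ : (ℕ → Set M) → O → ℕ → Subalgebra R M := fun B ϖ r =>
    ordAlg (L := L) x τ B (C₀ : Set O) ϖ r R
  have hT₁τ : ∀ B ϖ r, ∀ t ∈ T₁ B ϖ r, τ t ∈ T₁ B ϖ r := fun B ϖ r t ht => map_ordAlg hτR hτ ht
  let S₁ : (ℕ → Set M) → O → ℕ → Subalgebra R A := fun B ϖ r => (T₁ B ϖ r).comap j
  have hjdec : ∀ a i, j (DirectSum.decompose 𝒜 a i : A) = DirectSum.decompose ℳ (j a) i := by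
    intro a i
    conv_rhs => rw [← DirectSum.sum_support_decompose 𝒜 a, map_sum, DirectSum.decompose_sum,
      DFinsupp.finsetSum_apply, AddSubmonoidClass.coe_finsetSum]
    have h1 : ∀ k ∈ (DirectSum.decompose 𝒜 a).support, (DirectSum.decompose ℳ
        (j (DirectSum.decompose 𝒜 a k : A)) i : M) = if k = i then
          j (DirectSum.decompose 𝒜 a i : A) else 0 := by
      intro k _
      have hk := (hgr k _).mp (DirectSum.decompose 𝒜 a k).2
      split_ifs with hki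
      · subst hki
        rw [DirectSum.decompose_of_mem_same ℳ hk]
      · rw [DirectSum.decompose_of_mem_ne ℳ hk hki]
    rw [Finset.sum_congr rfl h1, Finset.sum_ite_eq']
    split_ifs with h2
    · rfl
    · rw [DFinsupp.notMem_support_iff] at h2
      rw [h2]
      simp
  have hgood : ∀ (B : ℕ → Set M) (ϖ : O) (δ r : ℕ), 1 ≤ δ → (∀ j, (B j).Finite) →
      (∀ j, ∀ b ∈ B j, b ∈ ℳ δ) → GoodGens 𝒜 (S₁ B ϖ r) (gensOf 𝒜 (S₁ B ϖ r)) := by
    intro B ϖ δ r hδ hfin hdeg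
    have hT₁FG : (T₁ B ϖ r).FG := by
      have h1 : (gens (L := L) x B (C₀ : Set O) ϖ r).Finite :=
        finite_gens hfin C₀.finite_toSet
      exact ⟨(h1.union (h1.image _)).toFinset, by rw [Set.Finite.coe_toFinset]; rfl⟩
    have hS₁FG : (S₁ B ϖ r).FG :=
      fg_comap_of_involution j hj τ hτ hfix (T₁ B ϖ r) (hT₁τ B ϖ r) hT₁FG
    have hT₁h : IsHomog ℳ (T₁ B ϖ r) :=
      isHomog_adjoin ℳ fun m hm => gens_homog hτgr hxdeg hdeg hm
    have hS₁h : IsHomog 𝒜 (S₁ B ϖ r) := by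
      intro s hs i
      change j _ ∈ T₁ B ϖ r
      rw [hjdec]
      exact hT₁h _ hs i
    have hS₁0 : ∀ s ∈ S₁ B ϖ r, s ∈ 𝒜 0 → ∃ a : R, algebraMap R A a = s := by
      intro s hs hs0
      obtain ⟨a, ha⟩ := degree_zero_ordAlg (ℳ := ℳ) h hτO hτgr hxdeg hδ hdeg hLM hOL
        (t := j s) hs ((hgr 0 s).mp hs0) (hfix' s)
      refine ⟨a, hj ?_⟩
      rw [← ha]
      exact j.commutes a
    exact goodGens_gensOf 𝒜 (exists_goodGens 𝒜 hS₁h hS₁FG hS₁0)
  have hgens : ∀ p, GoodGens 𝒜 (S₁ (B p) (ϖ p) (r p)) (gensOf 𝒜 (S₁ (B p) (ϖ p) (r p))) :=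
    fun p => hgood _ _ _ _ (hpar1 p).δpos (hpar1 p).fin (hpar1 p).deg
  have hgens₀ : GoodGens 𝒜 (S₁ B₀ 1 0) (gensOf 𝒜 (S₁ B₀ 1 0)) := by
    refine hgood _ _ 1 _ le_rfl (fun _ => Set.finite_range x) ?_
    rintro _ _ ⟨i, rfl⟩
    exact hxdeg i
  have hfull : ∀ (B : ℕ → Set M) (ϖ : O) (r : ℕ), GoodGens 𝒜 (S₁ B ϖ r) (gensOf 𝒜 (S₁ B ϖ r)) →
      ϖ ≠ 0 → ∀ a : A, ∃ n : R, n ≠ 0 ∧ n • a ∈ Algebra.adjoin R (gensOf 𝒜 (S₁ B ϖ r)) := by
    intro B ϖ r hg hϖ a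
    obtain ⟨n, hn, hna⟩ := full_ordAlg (R := R) (O := O) (L := L) (x := x) (τ := τ) (B := B)
      (C₀ := (C₀ : Set O)) (ϖ := ϖ) (r := r) h hRL hC₀ (fun c hc => by
        refine mul_ne_zero hc fun h0 => hc ?_
        rw [← h.invol c, h0, map_zero]) (fun l => by
        obtain ⟨⟨a, b⟩, hab⟩ := IsLocalization.surj (nonZeroDivisors O) l
        exact ⟨a, b, nonZeroDivisors.coe_ne_zero b, by rw [mul_comm]; exact hab⟩) hgen hϖ
      inferInstance (j a)
    refine ⟨n, hn, ?_⟩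
    rw [hg.2.2]
    change j (n • a) ∈ T₁ B ϖ r
    rw [map_smul]
    exact hna
  have hLG : LocalGens 𝒜 (fun p => gensOf 𝒜 (S₁ (B p) (ϖ p) (r p))) (gensOf 𝒜 (S₁ B₀ 1 0)) :=
    { finite := fun p => (hgens p).1
      finite₀ := hgens₀.1
      ae := by
        obtain ⟨d, hd0, hd⟩ := h.exists_disc
        refine (finite_mem_prime hd0).subset ?_
        intro p hp
        by_contra hdp
        apply hp
        obtain ⟨h1, h2, h3⟩ := hpar2 p (hd p.asIdeal hdp)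
        change gensOf 𝒜 (S₁ (B p) (ϖ p) (r p)) = _
        rw [h1, h2, h3]
      homog := fun p => (hgens p).2.1
      full := fun p => hfull _ _ _ (hgens p) (hpar1 p).ϖ0
      full₀ := hfull _ _ _ hgens₀ one_ne_zero }
  refine exists_model 𝒜 hLG hRf fun p => ?_
  have hOH : DNF.OrderHyp ℳ x (B p) (δ p) (oM O L M (ϖ p)) (lamP O L M p.asIdeal) (r p)
      (locSub p.asIdeal (T₁ (B p) (ϖ p) (r p))) :=
    orderHyp_locSub h hRL hτO hτ hτgr hxdeg hstar hC₀ p.asIdeal (hpar1 p)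
  refine regAt_of_involution 𝒜 ℳ (j : A →+* M) ι (localOrder _ p)
    (locSub p.asIdeal (T₁ (B p) (ϖ p) (r p))) hj hι hgr τ hτ hτgr hfix hfix' ?_ ?_ τF hτF hτF2 ?_
  · intro a
    change a ∈ locSub p.asIdeal (Algebra.adjoin R (gensOf 𝒜 (S₁ (B p) (ϖ p) (r p)))) ↔ _
    rw [(hgens p).2.2]
    constructor
    · rintro ⟨n, hn, hna⟩
      refine ⟨n, hn, ?_⟩
      have hna' : j (n • a) ∈ T₁ (B p) (ϖ p) (r p) := hna
      rw [map_smul] at hna'
      exact hna'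
    · rintro ⟨n, hn, hna⟩
      refine ⟨n, hn, ?_⟩
      change j (n • a) ∈ T₁ (B p) (ϖ p) (r p)
      rw [map_smul]
      exact hna
  · rintro t ⟨n, hn, hnt⟩
    refine ⟨n, hn, ?_⟩
    have := hT₁τ _ _ _ _ hnt
    rwa [Algebra.smul_def, map_mul, hτR, ← Algebra.smul_def] at this
  · intro Q hQ hrel
    obtain ⟨i, β, hβ, hf, hfQ⟩ := hOH.exists_notMem Q hrel
    obtain ⟨hx0, hβ0⟩ := DNF.OrderHyp.chart_ne_zero (x := x) ι hι Q hf hfQ
    exact hpar3 p _ i β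
      { loc := isLocalRing_homLoc ℳ ι _ Q hι
        lam := fun c hc => hOH.const_mem ι hι Q hβ hf hfQ hc
        ne := hx0
        coord := fun k => hOH.coord_mem ι hι Q hβ hf hfQ k
        β_mem := hβ
        β_ne := hβ0
        ratio := fun j hj b hb => hOH.ratio_mem ι hι Q hβ hf hfQ hj hb
        gen := fun R' h1 h2 h3 h4 h5 => hOH.eq_top ι hι Q hβ hf hfQ R' h1 h2 h3 h4 h5 }

end Model

end Pool.Agent.Lib.MP_6a3dac_ag.QD
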