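import Pool.Agent.Lib.MP_6a3dac_ag.QD.ChDcl
import Pool.Agent.Lib.MP_6a3dac_ag.Mg.G005

/-!
# Involutions of regular local rings with 2 invertible
-/

set_option autoImplicit false
set_option linter.unusedSectionVars false
set_option linter.unusedVariables false

namespace Pool.Agent.Lib.MP_6a3dac_ag.QD

open IsLocalRing

section Par

variable {A : Type} [CommRing A] [IsRegularLocalRing A]

-- BEGIN L1
/-- TASK L1. A regular system of parameters inside a set of generators of the maximal ideal: the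
images of `X` span the cotangent space, take a subset whose images form a basis (finite, with
`spanFinrank (maximalIdeal A) = ringKrullDim A` elements), Nakayama. (Alternatively: among the finite
subsets of `X` generating the maximal ideal take one of minimal cardinality; see also QWPar.lean.) -/
theorem exists_par_subset {X : Set A} (hX : Ideal.span X = maximalIdeal A) :
    ∃ s : Finset A, (s : Set A) ⊆ X ∧ Ideal.span (s : Set A) = maximalIdeal A ∧
      ((s.card : ℕ) : WithBot ℕ∞) ≤ ringKrullDim A := by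
  classical
  have hfg : (Ideal.span X).FG := by
    rw [hX]
    exact Ideal.fg_of_isNoetherianRing _
  obtain ⟨Z, hZX, hZ⟩ := (Submodule.fg_span_iff_fg_span_finset_subset X).1 hfg
  have hZm : Ideal.span (Z : Set A) = maximalIdeal A := by
    rw [← hX]
    exact hZ.symm
  have hreg : IsRegularLocalRing (A ⧸ Ideal.span (Z : Set A)) := by
    have hmax : (Ideal.span (Z : Set A)).IsMaximal := by
      rw [hZm]
      infer_instance
    let _ : Field (A ⧸ Ideal.span (Z : Set A)) := Ideal.Quotient.field _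
    infer_instance
  obtain ⟨Z₀, hZ₀, s, h1, h2, h3⟩ := exists_par _ A le_rfl Z (fun z hz => by
    rw [← hZm]
    exact Ideal.subset_span hz) hreg
  refine ⟨Z₀, fun x hx => hZX (hZ₀ hx), h1.trans hZm, ?_⟩
  rw [← IsRegularLocalRing.spanFinrank_maximalIdeal (R := A)]
  exact_mod_cast (Nat.le_add_right _ _).trans h3
-- END L1

variable {τ : A →+* A}

-- BEGIN L2
private theorem l2_span (hτ : ∀ a, τ (τ a) = a) (h2 : IsUnit (2 : A))
    (htriv : ∀ a, τ a - a ∈ maximalIdeal A) :
    Ideal.span ({y | y ∈ maximalIdeal A ∧ τ y = -y} ∪ {y | y ∈ maximalIdeal A ∧ τ y = y}) =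
      maximalIdeal A := by
  apply le_antisymm
  · rw [Ideal.span_le]
    rintro y (hy | hy)
    · exact hy.1
    · exact hy.1
  · intro a ha
    have hta : τ a ∈ maximalIdeal A := by
      have h1 := (maximalIdeal A).add_mem (htriv a) ha
      rwa [sub_add_cancel] at h1
    obtain ⟨v, hv⟩ := h2
    have h3 : a = (↑v⁻¹ : A) * ((a + τ a) + (a - τ a)) := by
      have h4 : (a + τ a) + (a - τ a) = (v : A) * a := by
        rw [hv]
        ring
      rw [h4, ← mul_assoc, Units.inv_mul, one_mul]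
    rw [h3]
    apply Ideal.mul_mem_left
    apply Ideal.add_mem
    · apply Ideal.subset_span
      right
      refine ⟨(maximalIdeal A).add_mem ha hta, ?_⟩
      rw [map_add, hτ, add_comm]
    · apply Ideal.subset_span
      left
      refine ⟨(maximalIdeal A).sub_mem ha hta, ?_⟩
      rw [map_sub, hτ, neg_sub]

private theorem l2_max (htriv : ∀ a, τ a - a ∈ maximalIdeal A) {a : A}
    (ha : a ∈ maximalIdeal A) : τ a ∈ maximalIdeal A := by
  have h1 := (maximalIdeal A).add_mem (htriv a) ha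
  rwa [sub_add_cancel] at h1

private theorem l2_one (htriv : ∀ a, τ a - a ∈ maximalIdeal A) {s t : Set A}
    (hs : ∀ y ∈ s, τ y = -y) (ht : ∀ y ∈ t, τ y = y) (hst : Ideal.span (s ∪ t) = maximalIdeal A)
    {b : A} (hb : b ∈ maximalIdeal A) : τ b - b ∈ maximalIdeal A ^ 2 ⊔ Ideal.span s := by
  have key : ∀ b ∈ Ideal.span (s ∪ t), τ b - b ∈ maximalIdeal A ^ 2 ⊔ Ideal.span s := by
    intro b hb
    induction hb using Submodule.span_induction with
    | mem y hy =>
      rcases hy with hy | hy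
      · apply Ideal.mem_sup_right
        rw [hs y hy]
        have h1 : y ∈ Ideal.span s := Ideal.subset_span hy
        exact Ideal.sub_mem _ (neg_mem h1) h1
      · rw [ht y hy, sub_self]
        exact Ideal.zero_mem _
    | zero =>
      rw [map_zero, sub_self]
      exact Ideal.zero_mem _
    | add x y _ _ hx hy =>
      have e : τ (x + y) - (x + y) = (τ x - x) + (τ y - y) := by
        rw [map_add]
        ring
      rw [e]
      exact Ideal.add_mem _ hx hy
    | smul r y hy' hy =>
      have e : τ (r • y) - r • y = (τ r - r) * τ y + r * (τ y - y) := by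
        rw [smul_eq_mul, map_mul]
        ring
      rw [e]
      have hym : y ∈ maximalIdeal A := by
        rw [← hst]
        exact hy'
      refine Ideal.add_mem _ (Ideal.mem_sup_left ?_) (Ideal.mul_mem_left _ _ hy)
      rw [pow_two]
      exact Ideal.mul_mem_mul (htriv r) (l2_max htriv hym)
  exact key b (by rw [hst]; exact hb)

private theorem l2_pow (htriv : ∀ a, τ a - a ∈ maximalIdeal A) {s t : Set A}
    (hs : ∀ y ∈ s, τ y = -y) (ht : ∀ y ∈ t, τ y = y) (hst : Ideal.span (s ∪ t) = maximalIdeal A)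
    (k : ℕ) : ∀ h ∈ maximalIdeal A ^ k, τ h - h ∈ maximalIdeal A ^ (k + 1) ⊔ Ideal.span s := by
  induction k with
  | zero =>
    intro h _
    apply Ideal.mem_sup_left
    rw [zero_add, pow_one]
    exact htriv h
  | succ k ih =>
    intro h hh
    rw [pow_succ] at hh
    induction hh using Submodule.mul_induction_on' with
    | mem_mul_mem a ha b hb =>
      have e : τ (a * b) - a * b = (τ a - a) * τ b + a * (τ b - b) := by
        rw [map_mul]
        ring
      rw [e]
      apply Ideal.add_mem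
      · obtain ⟨u, hu, v, hv, huv⟩ := Submodule.mem_sup.1 (ih a ha)
        rw [← huv, add_mul]
        apply Ideal.add_mem
        · apply Ideal.mem_sup_left
          rw [pow_succ]
          exact Ideal.mul_mem_mul hu (l2_max htriv hb)
        · apply Ideal.mem_sup_right
          exact Ideal.mul_mem_right _ _ hv
      · obtain ⟨u, hu, v, hv, huv⟩ := Submodule.mem_sup.1 (l2_one htriv hs ht hst hb)
        rw [← huv, mul_add]
        apply Ideal.add_mem
        · apply Ideal.mem_sup_left
          rw [show k + 1 + 1 = k + 2 from rfl, pow_add]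
          exact Ideal.mul_mem_mul ha hu
        · apply Ideal.mem_sup_right
          exact Ideal.mul_mem_left _ _ hv
    | add x hx y hy hx' hy' =>
      have e : τ (x + y) - (x + y) = (τ x - x) + (τ y - y) := by
        rw [map_add]
        ring
      rw [e]
      exact Ideal.add_mem _ hx' hy'

private theorem l2_J {s : Set A} (hs : ∀ y ∈ s, τ y = -y) : ∀ j ∈ Ideal.span s,
    τ j ∈ Ideal.span s := by
  intro j hj
  induction hj using Submodule.span_induction with
  | mem y hy =>
    rw [hs y hy]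
    exact neg_mem (Ideal.subset_span hy)
  | zero =>
    rw [map_zero]
    exact Ideal.zero_mem _
  | add x y _ _ hx hy =>
    rw [map_add]
    exact Ideal.add_mem _ hx hy
  | smul r y _ hy =>
    rw [smul_eq_mul, map_mul]
    exact Ideal.mul_mem_left _ _ hy

private theorem l2_anti (h2 : IsUnit (2 : A)) (htriv : ∀ a, τ a - a ∈ maximalIdeal A) {s t : Set A}
    (hs : ∀ y ∈ s, τ y = -y) (ht : ∀ y ∈ t, τ y = y) (hst : Ideal.span (s ∪ t) = maximalIdeal A)
    {g : A} (hg : τ g = -g) (k : ℕ) : g ∈ maximalIdeal A ^ k ⊔ Ideal.span s := by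
  induction k with
  | zero =>
    apply Ideal.mem_sup_left
    rw [pow_zero, Ideal.one_eq_top]
    exact Submodule.mem_top
  | succ k ih =>
    obtain ⟨u, hu, v, hv, huv⟩ := Submodule.mem_sup.1 ih
    have h3 : τ g - g ∈ maximalIdeal A ^ (k + 1) ⊔ Ideal.span s := by
      have e : τ g - g = (τ u - u) + (τ v - v) := by
        rw [← huv, map_add]
        ring
      rw [e]
      apply Ideal.add_mem
      · exact l2_pow htriv hs ht hst k u hu
      · exact Ideal.mem_sup_right (Ideal.sub_mem _ (l2_J hs v hv) hv)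
    obtain ⟨w, hw⟩ := h2
    have h4 : g = -(↑w⁻¹ : A) * (τ g - g) := by
      have h5 : τ g - g = -((w : A) * g) := by
        rw [hg, hw]
        ring
      rw [h5, neg_mul_neg, ← mul_assoc, Units.inv_mul, one_mul]
    rw [h4]
    exact Ideal.mul_mem_left _ _ h3

private theorem l2_krull {J : Ideal A} {g : A} (h : ∀ k : ℕ, g ∈ maximalIdeal A ^ k ⊔ J) :
    g ∈ J := by
  have h1 := Ideal.iInf_pow_smul_eq_bot_of_isLocalRing (M := A ⧸ J) (maximalIdeal A)
    (Ideal.IsPrime.ne_top')
  have h2 : (Ideal.Quotient.mk J g : A ⧸ J) ∈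
      (⨅ i : ℕ, maximalIdeal A ^ i • (⊤ : Submodule A (A ⧸ J))) := by
    rw [Submodule.mem_iInf]
    intro i
    obtain ⟨u, hu, v, hv, huv⟩ := Submodule.mem_sup.1 (h i)
    have h3 : (Ideal.Quotient.mk J g : A ⧸ J) = u • (1 : A ⧸ J) := by
      rw [← huv, map_add, Ideal.Quotient.eq_zero_iff_mem.2 hv, add_zero, Algebra.smul_def, mul_one]
      rfl
    rw [h3]
    exact Submodule.smul_mem_smul hu Submodule.mem_top
  rw [h1, Submodule.mem_bot] at h2
  exact Ideal.Quotient.eq_zero_iff_mem.1 h2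

/-- TASK L2. Eigenparameters. The invariant and the anti-invariant elements of the maximal ideal
generate it (`2 a = (a + τ a) + (a - τ a)`), so by `exists_par_subset` there are parameters `s ∪ t`,
`s` anti-invariant, `t` invariant (not in `s`). Let `J = (s)`. Claim: `τ h - h ∈ 𝔪 ^ (k + 1) ⊔ J` for
`h ∈ 𝔪 ^ k` (induction on `k`: `k = 0` is `htriv`; `τ (a b) - a b = (τ a - a) τ b + a (τ b - b)`,
and `τ a - a ∈ 𝔪 ^ 2 ⊔ J` for `a ∈ 𝔪 = (s ∪ t)`). So if `g` is anti-invariant and
`g ∈ 𝔪 ^ k ⊔ J`, then `2 g = - (τ g - g) ∈ 𝔪 ^ (k + 1) ⊔ J`; hence `g = τ a - a` lies in all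
`𝔪 ^ k ⊔ J`, so in `J` by Krull's intersection theorem (`Ideal.iInf_pow_eq_bot_of_isLocalRing` in
`A ⧸ J`, or the version for modules). -/
theorem exists_tame_par [DecidableEq A] (hτ : ∀ a, τ (τ a) = a) (h2 : IsUnit (2 : A))
    (htriv : ∀ a, τ a - a ∈ maximalIdeal A) :
    ∃ s t : Finset A, (∀ y ∈ s, τ y = -y) ∧ (∀ y ∈ t, τ y = y) ∧
      Ideal.span ((s ∪ t : Finset A) : Set A) = maximalIdeal A ∧
      (((s ∪ t).card : ℕ) : WithBot ℕ∞) ≤ ringKrullDim A ∧
      ∀ a, τ a - a ∈ Ideal.span (s : Set A) := by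
  obtain ⟨u, hu, hu1, hu2⟩ := exists_par_subset (l2_span hτ h2 htriv)
  have hun : u.filter (fun y => τ y = -y) ∪ u.filter (fun y => ¬ τ y = -y) = u :=
    Finset.filter_union_filter_not_eq _ _
  have hs : ∀ y ∈ u.filter (fun y => τ y = -y), τ y = -y := fun y hy =>
    (Finset.mem_filter.1 hy).2
  have ht : ∀ y ∈ u.filter (fun y => ¬ τ y = -y), τ y = y := by
    intro y hy
    obtain ⟨h3, h4⟩ := Finset.mem_filter.1 hy
    rcases hu h3 with h5 | h5
    · exact absurd h5.2 h4
    · exact h5.2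
  refine ⟨u.filter (fun y => τ y = -y), u.filter (fun y => ¬ τ y = -y), hs, ht, ?_, ?_, ?_⟩
  · rw [hun]
    exact hu1
  · rw [hun]
    exact hu2
  · intro a
    have hst : Ideal.span (((u.filter (fun y => τ y = -y) : Finset A) : Set A) ∪
        ((u.filter (fun y => ¬ τ y = -y) : Finset A) : Set A)) = maximalIdeal A := by
      rw [← Finset.coe_union, hun]
      exact hu1
    refine l2_krull fun k => ?_
    refine l2_anti h2 htriv (fun y hy => hs y (Finset.mem_coe.1 hy))
      (fun y hy => ht y (Finset.mem_coe.1 hy)) hst ?_ k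
    rw [map_sub, hτ, neg_sub]
-- END L2

end Par

section Local

variable {D : Type} [CommRing D] [IsDomain D] [IsLocalRing D] {A : Subring D}
  [IsRegularLocalRing A] {τA : A →+* A}

-- BEGIN L3
/-- TASK L3. **Blowing up the fixed locus.** Let `s`, `t` be as in `exists_tame_par`. The ideal
`I = (τ a - a)` is generated by `s` (`y = - (τ y - y) / 2`). By `exists_gen` (`p = 1`, `g` the elements
of `s`) some `y₁ ∈ s` divides all `y ∈ s` in `D`, `y₁ ≠ 0`. With `RSP A (s ∪ t)` (images in `D`;
`RSP.of_span` in QWStruct.lean is a model) and `exists_pow_steps_dcl` (`k = 1`, `a = y₁`,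
`us = s.erase y₁`) get `RSP (dcl (A ∪ {y / y₁})) s'`, and this ring is `⊤` by `hgen`
(`Pr R I y₁`, `Pr.mem`). Involution: `y = y₁`, `τ y₁ - y₁ = - 2 y₁`, the `y / y₁` are invariant,
`τ a - a ∈ (s) ⊆ y₁ D` for `a ∈ A`; `diff_of_dcl`. -/
theorem local_tame_type (hdom : Dom A) (hτ : ∀ a, τA (τA a) = a) (h2 : IsUnit (2 : A))
    (htriv : ∀ a, τA a - a ∈ maximalIdeal A) (b : A) (hb0 : (b : D) ≠ 0)
    (hbm : b ∈ Ideal.span (Set.range fun a => τA a - a))
    (hbd : ∀ y ∈ Ideal.span (Set.range fun a => τA a - a), (b : D) ∣ y)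
    (hgen : ∀ R' : Subring D, Dom R' → A ≤ R' →
      (∀ y ∈ Ideal.span (Set.range fun a => τA a - a), ∀ q : D, (b : D) * q = y → q ∈ R') →
      R' = ⊤) :
    IsRegularLocalRing D ∧ ∀ τ : D →+* D, (∀ d, τ (τ d) = d) → (∀ a : A, τ a = τA a) →
      ∃ y, τ y - y ≠ 0 ∧ ∀ w, ∃ c, τ w - w = c * (τ y - y) := by
  classical
  obtain ⟨s, t, hs, ht, hspan, hcard, hdiff⟩ := exists_tame_par hτ h2 htriv
  obtain ⟨h2', hh2⟩ := h2.exists_right_inv
  set J : Ideal A := Ideal.span (Set.range fun a => τA a - a) with hJ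
  -- the ideal is generated by `s`
  have hsJ : ∀ y ∈ s, y ∈ J := by
    intro y hy
    have h1 : τA y - y ∈ J := Ideal.subset_span ⟨y, rfl⟩
    have h3 : y = (-h2') * (τA y - y) := by
      rw [hs y hy]
      linear_combination -y * hh2
    rw [h3]
    exact Ideal.mul_mem_left _ _ h1
  have hJs : ∀ y ∈ J, y ∈ Ideal.span (s : Set A) := by
    have h1 : J ≤ Ideal.span (s : Set A) := by
      rw [hJ, Ideal.span_le]
      rintro _ ⟨a, rfl⟩
      exact hdiff a
    exact fun y hy => h1 hy
  -- a generator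
  obtain ⟨⟨y₁, hy₁⟩, hy₁0, hy₁d⟩ := exists_gen (A := A) (I := J) (p := 1)
    (κ := {x // x ∈ s}) (g := fun x => ((x : A) : D)) (by
      intro y hy
      obtain ⟨c, -, hc⟩ := Submodule.mem_span_finset.mp (hJs y hy)
      refine ⟨fun x => ((c x : A) : D), ?_⟩
      rw [one_mul, ← hc]
      have e : (∑ x : {x // x ∈ s}, ((c x : A) : D) * ((x : A) : D)) =
          ∑ x ∈ s, ((c x : A) : D) * (x : D) :=
        Finset.sum_coe_sort s (fun x => ((c x : A) : D) * (x : D))
      rw [e]
      push_cast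
      rfl) (by
      intro i
      rw [one_mul]
      exact Ideal.mem_map_of_mem A.subtype (hsJ i i.2)) hb0 hbm hbd
  have hy₁0' : (y₁ : D) ≠ 0 := hy₁0
  have hy₁d' : ∀ y ∈ s, (y₁ : D) ∣ (y : D) := fun y hy => hy₁d ⟨y, hy⟩
  -- the parameters
  have hfr : (s ∪ t).card ≤ (maximalIdeal A).spanFinrank := by
    have h1 := (isRegularLocalRing_iff A).mp inferInstance
    rw [← h1] at hcard
    exact_mod_cast hcard
  have hRSP : RSP A ((s ∪ t).image Subtype.val) :=
    RSP.of_span hdom inferInstance (s ∪ t) hspan hfr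
  let w : D → D := fun u => if h : (y₁ : D) ∣ u then h.choose else 0
  have hw : ∀ u : D, (y₁ : D) ∣ u → (y₁ : D) * w u = u := by
    intro u hu
    show (y₁ : D) * (if h : (y₁ : D) ∣ u then h.choose else 0) = u
    rw [dif_pos hu]
    exact hu.choose_spec.symm
  let us : Finset D := (s.erase y₁).image Subtype.val
  have hus : ∀ u ∈ us, ∃ y ∈ s, y ≠ y₁ ∧ (y : D) = u := by
    intro u hu
    obtain ⟨y, hy, hyu⟩ := Finset.mem_image.mp hu
    exact ⟨y, Finset.mem_of_mem_erase hy, Finset.ne_of_mem_erase hy, hyu⟩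
  obtain ⟨s', hs', -⟩ := exists_pow_steps_dcl 1 le_rfl (y₁ : D) w us hRSP
    (Finset.mem_image.mpr ⟨y₁, Finset.mem_union_left _ hy₁, rfl⟩) (by
      intro h
      obtain ⟨y, hy, hne, hyu⟩ := hus _ h
      exact hne (Subtype.ext hyu)) (by
      intro u hu
      obtain ⟨y, hy, hne, hyu⟩ := hus _ hu
      exact Finset.mem_image.mpr ⟨y, Finset.mem_union_left _ hy, hyu⟩) (by
      intro u hu
      obtain ⟨y, hy, hne, hyu⟩ := hus _ hu
      rw [pow_one]
      exact hw u (hyu ▸ hy₁d' y hy))
  set R' : Subring D := dcl ((A : Set D) ∪ w '' us) with hR'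
  have hAR : A ≤ R' := fun z hz => subset_dcl _ (Or.inl hz)
  have hwR : ∀ y ∈ s, ∃ q ∈ R', (y : D) = y₁ * q := by
    intro y hy
    by_cases hyy : y = y₁
    · exact ⟨1, R'.one_mem, by rw [hyy, mul_one]⟩
    · refine ⟨w y, subset_dcl _ (Or.inr ⟨(y : D), ?_, rfl⟩), (hw _ (hy₁d' y hy)).symm⟩
      exact Finset.mem_coe.mpr (Finset.mem_image.mpr ⟨y, Finset.mem_erase.mpr ⟨hyy, hy⟩, rfl⟩)
  have hPr : Pr R' J (y₁ : D) := by
    refine ⟨?_, Ideal.mem_map_of_mem A.subtype (hsJ y₁ hy₁)⟩
    have h1 : J ≤ mulId R' hAR (y₁ : D) := by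
      have h3 : Ideal.span (s : Set A) ≤ mulId R' hAR (y₁ : D) := by
        rw [Ideal.span_le]
        intro y hy
        exact hwR y hy
      exact fun y hy => h3 (hJs y hy)
    exact fun y hy => h1 hy
  have htop : R' = ⊤ :=
    hgen R' (dom_dcl _) hAR (fun y hy q hq => hPr.mem (dom_dcl _) hb0 hbm hbd hy hq)
  constructor
  · have h1 := hs'.isRegularLocalRing
    rw [htop] at h1
    exact IsRegularLocalRing.of_ringEquiv (Subring.topEquiv (R := D))
  · intro τ hττ hτA
    have hτs : ∀ y ∈ s, τ (y : D) = -(y : D) := by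
      intro y hy
      rw [hτA y, hs y hy]
      rfl
    have h2D : (2 : D) * (h2' : D) = 1 := by
      have := congrArg (fun z : A => (z : D)) hh2
      exact this
    have hall : ∀ z : D, ∃ a, τ z - z = a * (y₁ : D) := by
      have h1 : ∀ z ∈ (A : Set D) ∪ w '' us, ∃ a, τ z - z = a * (y₁ : D) := by
        rintro z (hz | ⟨u, hu, rfl⟩)
        · have h3 : τA ⟨z, hz⟩ - ⟨z, hz⟩ ∈ J := Ideal.subset_span ⟨_, rfl⟩
          obtain ⟨q, -, hq⟩ := hPr.1 _ h3
          refine ⟨q, ?_⟩
          have h4 : τ z = (τA ⟨z, hz⟩ : A) := hτA ⟨z, hz⟩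
          rw [h4, mul_comm, ← hq]
          rfl
        · obtain ⟨y, hy, hne, hyu⟩ := hus u hu
          have h3 : (y₁ : D) * w u = u := hw u (hyu ▸ hy₁d' y hy)
          have h4 := congrArg τ h3
          rw [map_mul, hτs y₁ hy₁, ← hyu, hτs y hy, hyu] at h4
          refine ⟨0, ?_⟩
          rw [zero_mul]
          have h5 : (y₁ : D) * (τ (w u) - w u) = 0 := by
            linear_combination -h4 - h3
          exact (mul_eq_zero.mp h5).resolve_left hy₁0'
      intro z
      have hz : z ∈ R' := by rw [htop]; trivial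
      exact diff_of_dcl h1 z hz
    refine ⟨(y₁ : D), ?_, ?_⟩
    · intro h
      rw [hτs y₁ hy₁] at h
      apply hy₁0'
      linear_combination -(y₁ : D) * h2D - (h2' : D) * h
    · intro z
      obtain ⟨a, ha⟩ := hall z
      refine ⟨-(a * h2'), ?_⟩
      rw [ha, hτs y₁ hy₁]
      linear_combination -(a * (y₁ : D)) * h2D
-- END L3

end Local

end Pool.Agent.Lib.MP_6a3dac_ag.QD
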