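import Pool.Agent.Lib.MP_6a3dac_ag.QD.Abs
import Pool.Agent.Lib.MP_6a3dac_ag.QD.Tame

/-!
# The local rings of the original scheme below the local rings of the model
-/

set_option autoImplicit false
set_option linter.unusedSectionVars false
set_option linter.unusedVariables false

namespace Pool.Agent.Lib.MP_6a3dac_ag.QD

open Pool.Agent.Lib.MP_6a3dac_ag

/-- `A` is the (regular) local ring of the original scheme at the centre of `D`. -/
structure Around {M F I : Type} [CommRing M] [Field F] (ι : M →+* F) (x : I → M)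
    (Λ : Subring M) (D : Subring F) (i : I) (A : Subring F) : Prop where
  le : A ≤ D
  dom : ∀ a ∈ A, ∀ b ∈ D, a * b = 1 → b ∈ A
  reg : IsRegularLocalRing A
  lam : ∀ c ∈ Λ, ι c ∈ A
  coord : ∀ k, ι (x k) / ι (x i) ∈ A
  min : ∀ N : Subring F, N ≤ A → (∀ a ∈ N, ∀ b ∈ A, a * b = 1 → b ∈ N) →
    (∀ c ∈ Λ, ι c ∈ N) → (∀ k, ι (x k) / ι (x i) ∈ N) → A ≤ N

section

variable {M F I : Type} [CommRing M] [Field F] {ι : M →+* F} (hι : Function.Injective ι)
  {x : I → M} {B : ℕ → Set M} {Λ : Subring M} {r : ℕ} {D A : Subring F} {i : I} {β : ℕ → M}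
  {τ : M →+* M} {τF : F →+* F} (hτ : ∀ m, τ (τ m) = m) (hτF : ∀ m, τF (ι m) = ι (τ m))
  (hτF2 : ∀ z, τF (τF z) = z) (hstar : ∀ l, ∃ l', τ (x l) = x l')

-- BEGIN L4
/-- TASK L4. If the ideals are trivial at the centre, nothing happens: `hD.gen` with `R' = A`.
`a = ι (β j) / ι (x i) ^ δ ∈ A` is a unit of `D` (its inverse is `(ι b / ι (β j)) w`), so its inverse
lies in `A`, and `ι b' / ι (β j) = (ι b' / ι (x i) ^ δ) a⁻¹ ∈ A`. -/
theorem eq_of_units (hD : LocSit ι x B Λ r D i β) (hA : Around ι x Λ D i A) {δ : ℕ}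
    (hBA : ∀ j ∈ Finset.Icc 1 r, ∀ b ∈ B j, ι b / ι (x i) ^ δ ∈ A)
    (hu : ∀ j ∈ Finset.Icc 1 r, ∃ b ∈ B j, ∃ w ∈ D, ι b / ι (x i) ^ δ * w = 1) : D = A := by
  apply le_antisymm _ hA.le
  refine hD.gen A hA.le hA.dom hA.lam hA.coord ?_
  intro j hj b' hb'
  obtain ⟨b, hb, w, hw, hbw⟩ := hu j hj
  have hxi := hD.ne
  have hβ := hD.β_ne j hj
  have ha := hBA j hj (β j) (hD.β_mem j hj)
  have hc : ι b / ι (β j) * w ∈ D := D.mul_mem (hD.ratio j hj b hb) hw
  have hac : ι (β j) / ι (x i) ^ δ * (ι b / ι (β j) * w) = 1 := by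
    rw [← hbw]
    field_simp
  have hcA := hA.dom _ ha _ hc hac
  have h1 : ι b' / ι (β j) = ι b' / ι (x i) ^ δ * (ι b / ι (β j) * w) := by
    have h2 : ι b * w = ι (x i) ^ δ := by
      have h3 : ι b * w / ι (x i) ^ δ = 1 := by
        rw [← hbw]
        ring
      rwa [div_eq_one_iff_eq (pow_ne_zero _ hxi)] at h3
    have h4 : ι b' / ι (x i) ^ δ * (ι b / ι (β j) * w) =
        ι b' * (ι b * w) / (ι (x i) ^ δ * ι (β j)) := by ring
    rw [h4, h2]
    field_simp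
  rw [h1]
  exact A.mul_mem (hBA j hj b' hb') hcA
-- END L4

-- BEGIN L5
include hι hτ hτF hτF2 hstar in
/-- TASK L5. Away from the fixed points the augmentation ideal is the unit ideal. The proof is the end of
the proof of `OrderHyp.main` in QWMain.lean (`principal_of_unit`): if `ϖ` is a unit use `y = ι ϖ`,
otherwise one of the two differences `τF (ι (x l) / ι (x i)) - …`, `τF (ι (x k) / ι (x i)) - …` is
a unit. -/
theorem principal_of_not_fixed (hD : LocSit ι x B Λ r D i β) {ϖ ε ε' : M} {s : ℕ}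
    (hϖ : ϖ ∈ Λ) (hε' : ε' ∈ Λ) (hϖτ : τ ϖ - ϖ = ε * ϖ ^ s) (hεε : ε * ε' = 1)
    (hfix : (∃ w ∈ D, ι ϖ * w = 1) ∨
      ∃ k l, ∃ w ∈ D, ι (uEl x τ k l) / (ι (x i) * ι (x i)) * w = 1)
    (hDτ : ∀ z ∈ D, τF z ∈ D) : Principal τF D := by
  have hloc := hD.loc
  have hxi0 := hD.ne
  have hcoord := hD.coord
  have hunitD : ∀ z : D, (∃ w ∈ D, (z : F) * w = 1) ↔ IsUnit z := by
    intro z
    constructor
    · rintro ⟨w, hw, hzw⟩
      exact IsUnit.of_mul_eq_one ⟨w, hw⟩ (Subtype.ext hzw)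
    · intro hz
      obtain ⟨w, hw⟩ := hz.exists_right_inv
      exact ⟨w, w.2, congrArg Subtype.val hw⟩
  rcases hfix with ⟨w, hw, h4⟩ | ⟨k, l, w, hw, h4⟩
  · refine principal_of_unit τF hDτ (hD.lam ϖ hϖ) (D.mul_mem (hD.lam ε' hε')
      (D.pow_mem hw s)) ?_
    rw [hτF, ← map_sub, hϖτ, map_mul, map_pow]
    have h5 : ι ε * ι ε' = 1 := by rw [← map_mul, hεε, map_one]
    have h6 : ι ϖ ^ s * w ^ s = 1 := by rw [← mul_pow, h4, one_pow]
    linear_combination (ι ϖ ^ s * w ^ s) * h5 + h6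
  · obtain ⟨i', hi'⟩ := hstar i
    have hxi'0 : ι (x i') ≠ 0 := by
      rw [← hi', ← hτF]
      exact (map_ne_zero τF).mpr hxi0
    obtain ⟨u, hu⟩ : ∃ u : F, u = ι (x i') / ι (x i) *
      (ι (x k) / ι (x i) * (τF (ι (x l) / ι (x i)) - ι (x l) / ι (x i))) := ⟨_, rfl⟩
    obtain ⟨v, hv⟩ : ∃ v : F, v = ι (x i') / ι (x i) *
      (ι (x l) / ι (x i) * (τF (ι (x k) / ι (x i)) - ι (x k) / ι (x i))) := ⟨_, rfl⟩
    have huD : u ∈ D := by
      rw [hu]
      exact D.mul_mem (hcoord i') (D.mul_mem (hcoord k)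
        (D.sub_mem (hDτ _ (hcoord l)) (hcoord l)))
    have hvD : v ∈ D := by
      rw [hv]
      exact D.mul_mem (hcoord i') (D.mul_mem (hcoord l)
        (D.sub_mem (hDτ _ (hcoord k)) (hcoord k)))
    have huv : u - v = ι (uEl x τ k l) / (ι (x i) * ι (x i)) := by
      rw [hu, hv, map_div₀, map_div₀, hτF, hτF, hτF, hi', uEl, map_sub, map_mul, map_mul]
      field_simp
      ring
    have huvu : (u - v) * w = 1 := by rw [huv]; exact h4
    have hor : IsUnit (⟨u, huD⟩ : D) ∨ IsUnit (⟨v, hvD⟩ : D) := by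
      by_contra hcon
      push Not at hcon
      have h5 := Ideal.sub_mem (IsLocalRing.maximalIdeal D)
        ((IsLocalRing.mem_maximalIdeal _).mpr hcon.1)
        ((IsLocalRing.mem_maximalIdeal _).mpr hcon.2)
      rw [IsLocalRing.mem_maximalIdeal, mem_nonunits_iff, ← hunitD] at h5
      exact h5 ⟨w, hw, huvu⟩
    rcases hor with h5 | h5
    · obtain ⟨w', hw', h6⟩ := (hunitD _).mpr h5
      refine principal_of_unit τF hDτ (hcoord l) (w := ι (x i') / ι (x i) *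
        (ι (x k) / ι (x i)) * w') (D.mul_mem (D.mul_mem (hcoord i')
          (hcoord k)) hw') ?_
      change u * w' = 1 at h6
      rw [← h6, hu]
      ring
    · obtain ⟨w', hw', h6⟩ := (hunitD _).mpr h5
      refine principal_of_unit τF hDτ (hcoord k) (w := ι (x i') / ι (x i) *
        (ι (x l) / ι (x i)) * w') (D.mul_mem (D.mul_mem (hcoord i')
          (hcoord l)) hw') ?_
      change v * w' = 1 at h6
      rw [← h6, hv]
      ring
-- END L5

-- BEGIN L6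
/-- The elements of a local subring whose differences lie in the maximal ideal. -/
def l6_N (A : Subring F) [IsLocalRing A] (τF : F →+* F) : Subring F where
  carrier := {z | ∃ (hz : z ∈ A) (hτz : τF z ∈ A),
    (⟨τF z, hτz⟩ : A) - ⟨z, hz⟩ ∈ IsLocalRing.maximalIdeal A}
  mul_mem' := by
    rintro a b ⟨ha, hτa, h1⟩ ⟨hb, hτb, h2⟩
    refine ⟨A.mul_mem ha hb, by rw [map_mul]; exact A.mul_mem hτa hτb, ?_⟩
    have h3 : (⟨τF (a * b), by rw [map_mul]; exact A.mul_mem hτa hτb⟩ : A) -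
        ⟨a * b, A.mul_mem ha hb⟩ =
        ((⟨τF a, hτa⟩ : A) - ⟨a, ha⟩) * ⟨τF b, hτb⟩ + ⟨a, ha⟩ * ((⟨τF b, hτb⟩ : A) - ⟨b, hb⟩) := by
      apply Subtype.ext
      change τF (a * b) - a * b = (τF a - a) * τF b + a * (τF b - b)
      rw [map_mul]
      ring
    rw [h3]
    exact Ideal.add_mem _ (Ideal.mul_mem_right _ _ h1) (Ideal.mul_mem_left _ _ h2)
  one_mem' := by
    refine ⟨A.one_mem, by rw [map_one]; exact A.one_mem, ?_⟩
    have h3 : (⟨τF 1, by rw [map_one]; exact A.one_mem⟩ : A) - ⟨1, A.one_mem⟩ = 0 := by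
      apply Subtype.ext
      change τF 1 - 1 = 0
      rw [map_one, sub_self]
    rw [h3]
    exact Ideal.zero_mem _
  add_mem' := by
    rintro a b ⟨ha, hτa, h1⟩ ⟨hb, hτb, h2⟩
    refine ⟨A.add_mem ha hb, by rw [map_add]; exact A.add_mem hτa hτb, ?_⟩
    have h3 : (⟨τF (a + b), by rw [map_add]; exact A.add_mem hτa hτb⟩ : A) -
        ⟨a + b, A.add_mem ha hb⟩ =
        ((⟨τF a, hτa⟩ : A) - ⟨a, ha⟩) + ((⟨τF b, hτb⟩ : A) - ⟨b, hb⟩) := by
      apply Subtype.ext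
      change τF (a + b) - (a + b) = (τF a - a) + (τF b - b)
      rw [map_add]
      ring
    rw [h3]
    exact Ideal.add_mem _ h1 h2
  zero_mem' := by
    refine ⟨A.zero_mem, by rw [map_zero]; exact A.zero_mem, ?_⟩
    have h3 : (⟨τF 0, by rw [map_zero]; exact A.zero_mem⟩ : A) - ⟨0, A.zero_mem⟩ = 0 := by
      apply Subtype.ext
      change τF 0 - 0 = 0
      rw [map_zero, sub_self]
    rw [h3]
    exact Ideal.zero_mem _
  neg_mem' := by
    rintro a ⟨ha, hτa, h1⟩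
    refine ⟨A.neg_mem ha, by rw [map_neg]; exact A.neg_mem hτa, ?_⟩
    have h3 : (⟨τF (-a), by rw [map_neg]; exact A.neg_mem hτa⟩ : A) - ⟨-a, A.neg_mem ha⟩ =
        -((⟨τF a, hτa⟩ : A) - ⟨a, ha⟩) := by
      apply Subtype.ext
      change τF (-a) - (-a) = -(τF a - a)
      rw [map_neg]
      ring
    rw [h3]
    exact Ideal.neg_mem_iff _ |>.2 h1

include hι hτ hτF hτF2 hstar in
/-- TASK L6. At a fixed point the local ring is stable, with trivial action on the residue field.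
`hA.min` for the ring `N` of the `z ∈ A` with `τF z ∈ A` and `τF z - z` in the maximal ideal of `A`
(local by `hA.reg`; an element of `A` is a unit of `A` iff it is a unit of `D`, `hA.dom`). For
`c ∈ Λ`: `hΛ`. For the coordinates: `τ (x i) = x i'`, `ρ = ι (x i') / ι (x i) ∈ A`, and
`ι (uEl x τ i i') / (ι (x i) ι (x i)) = 1 - ρ ^ 2` is not a unit, so `ρ` is a unit of `A`; and
`τF (ι (x k) / ι (x i)) - ι (x k) / ι (x i) = ρ⁻¹ (ι (uEl x τ i k) / (ι (x i) ι (x i)))`,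
`τF (ι (x k) / ι (x i)) = (ι (x k') / ι (x i)) ρ⁻¹`. -/
theorem stable_of_fixed (hD : LocSit ι x B Λ r D i β) (hA : Around ι x Λ D i A) {ϖ : M}
    (hϖ : ϖ ∈ Λ) (hΛ : ∀ c ∈ Λ, ∃ d ∈ Λ, τ c - c = d * ϖ)
    (hϖD : ∀ w ∈ D, ι ϖ * w ≠ 1)
    (hu : ∀ k l, ∀ w ∈ D, ι (uEl x τ k l) / (ι (x i) * ι (x i)) * w ≠ 1) :
    (∀ a ∈ A, τF a ∈ A) ∧ ∀ a ∈ A, ∀ w ∈ A, (τF a - a) * w ≠ 1 := by
  have hreg := hA.reg
  have hxi0 := hD.ne
  have hnon : ∀ a : A, (∀ w ∈ D, (a : F) * w ≠ 1) → a ∈ IsLocalRing.maximalIdeal A := by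
    intro a ha
    rw [IsLocalRing.mem_maximalIdeal, mem_nonunits_iff]
    intro hu'
    obtain ⟨w, hw⟩ := hu'.exists_right_inv
    exact ha w (hA.le w.2) (congrArg Subtype.val hw)
  have hunit : ∀ a b : A, a - b ∈ IsLocalRing.maximalIdeal A → IsUnit b → IsUnit a := by
    intro a b hab hb
    by_contra hcon
    have h1 := Ideal.sub_mem _ ((IsLocalRing.mem_maximalIdeal _).mpr hcon) hab
    rw [sub_sub_cancel, IsLocalRing.mem_maximalIdeal] at h1
    exact h1 hb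
  obtain ⟨i', hi'⟩ := hstar i
  have hττ : τ (x i') = x i := by rw [← hi', hτ]
  have hxi'0 : ι (x i') ≠ 0 := by
    rw [← hi', ← hτF]
    exact (map_ne_zero τF).mpr hxi0
  -- the unit ρ
  have hρ : IsUnit (⟨ι (x i') / ι (x i), hA.coord i'⟩ : A) := by
    have h1 : (⟨1 - (ι (x i') / ι (x i)) ^ 2,
        A.sub_mem A.one_mem (A.pow_mem (hA.coord i') 2)⟩ : A) ∈ IsLocalRing.maximalIdeal A := by
      apply hnon
      intro w hw h2
      apply hu i i' w hw
      rw [← h2]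
      congr 1
      change _ = 1 - (ι (x i') / ι (x i)) ^ 2
      rw [uEl, hττ, hi', map_sub, map_mul, map_mul]
      field_simp
    have h2 : IsUnit ((⟨ι (x i') / ι (x i), hA.coord i'⟩ : A) ^ 2) := by
      refine hunit _ 1 ?_ isUnit_one
      have h3 : (⟨ι (x i') / ι (x i), hA.coord i'⟩ : A) ^ 2 - 1 =
          -(⟨1 - (ι (x i') / ι (x i)) ^ 2,
            A.sub_mem A.one_mem (A.pow_mem (hA.coord i') 2)⟩ : A) := by
        apply Subtype.ext
        change (ι (x i') / ι (x i)) ^ 2 - 1 = -(1 - (ι (x i') / ι (x i)) ^ 2)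
        ring
      rw [h3]
      exact (Ideal.neg_mem_iff _).2 h1
    rwa [isUnit_pow_iff two_ne_zero] at h2
  have hρ' : ι (x i) / ι (x i') ∈ A := by
    obtain ⟨w, hw⟩ := hρ.exists_right_inv
    have h1 : ι (x i') / ι (x i) * (w : F) = 1 := congrArg Subtype.val hw
    have h2 : ι (x i) / ι (x i') = w := by
      field_simp at h1 ⊢
      exact h1.symm
    rw [h2]
    exact w.2
  have hN : A ≤ l6_N A τF := by
    refine hA.min _ ?_ ?_ ?_ ?_
    · rintro z ⟨hz, -⟩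
      exact hz
    · rintro a ⟨ha, hτa, h1⟩ b hb hab
      have hau : IsUnit (⟨a, ha⟩ : A) := IsUnit.of_mul_eq_one ⟨b, hb⟩ (Subtype.ext hab)
      have hτau : IsUnit (⟨τF a, hτa⟩ : A) := hunit _ _ h1 hau
      obtain ⟨w, hw⟩ := hτau.exists_right_inv
      have hw' : τF a * (w : F) = 1 := congrArg Subtype.val hw
      have hτab : τF a * τF b = 1 := by rw [← map_mul, hab, map_one]
      have hwb : τF b = w := by
        have ha0 : τF a ≠ 0 := left_ne_zero_of_mul_eq_one hw'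
        exact mul_left_cancel₀ ha0 (by rw [hτab, hw'])
      have hτb : τF b ∈ A := by
        rw [hwb]
        exact w.2
      refine ⟨hb, hτb, ?_⟩
      have h3 : (⟨τF b, hτb⟩ : A) - ⟨b, hb⟩ =
          -(⟨b, hb⟩ * ⟨τF b, hτb⟩) * ((⟨τF a, hτa⟩ : A) - ⟨a, ha⟩) := by
        apply Subtype.ext
        change τF b - b = -(b * τF b) * (τF a - a)
        linear_combination b * hτab - τF b * hab
      rw [h3]
      exact Ideal.mul_mem_left _ _ h1
    · intro c hc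
      obtain ⟨d, hd, hcd⟩ := hΛ c hc
      have h1 : τF (ι c) = ι c + ι d * ι ϖ := by
        rw [hτF, ← map_mul, ← hcd, map_sub]
        ring
      have hϖA : ι ϖ ∈ A := hA.lam ϖ hϖ
      have h2 : τF (ι c) ∈ A := by
        rw [h1]
        exact A.add_mem (hA.lam c hc) (A.mul_mem (hA.lam d hd) hϖA)
      refine ⟨hA.lam c hc, h2, ?_⟩
      have h3 : (⟨τF (ι c), h2⟩ : A) - ⟨ι c, hA.lam c hc⟩ =
          ⟨ι d, hA.lam d hd⟩ * ⟨ι ϖ, hϖA⟩ := by
        apply Subtype.ext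
        change τF (ι c) - ι c = ι d * ι ϖ
        rw [h1]
        ring
      rw [h3]
      exact Ideal.mul_mem_left _ _ (hnon _ hϖD)
    · intro k
      obtain ⟨k', hk'⟩ := hstar k
      have h1 : τF (ι (x k) / ι (x i)) = ι (x k') / ι (x i) * (ι (x i) / ι (x i')) := by
        rw [map_div₀, hτF, hτF, hk', hi']
        field_simp
      have h2 : τF (ι (x k) / ι (x i)) ∈ A := by
        rw [h1]
        exact A.mul_mem (hA.coord k') hρ'
      have h4 : ι (uEl x τ i k) / (ι (x i) * ι (x i)) =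
          ι (x k') / ι (x i) - ι (x k) / ι (x i) * (ι (x i') / ι (x i)) := by
        rw [uEl, hk', hi', map_sub, map_mul, map_mul]
        field_simp
      have h5 : ι (uEl x τ i k) / (ι (x i) * ι (x i)) ∈ A := by
        rw [h4]
        exact A.sub_mem (hA.coord k') (A.mul_mem (hA.coord k) (hA.coord i'))
      refine ⟨hA.coord k, h2, ?_⟩
      have h3 : (⟨τF (ι (x k) / ι (x i)), h2⟩ : A) - ⟨ι (x k) / ι (x i), hA.coord k⟩ =
          ⟨ι (x i) / ι (x i'), hρ'⟩ * ⟨ι (uEl x τ i k) / (ι (x i) * ι (x i)), h5⟩ := by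
        apply Subtype.ext
        change τF (ι (x k) / ι (x i)) - ι (x k) / ι (x i) =
          ι (x i) / ι (x i') * (ι (uEl x τ i k) / (ι (x i) * ι (x i)))
        rw [h1, h4]
        field_simp
      rw [h3]
      exact Ideal.mul_mem_left _ _ (hnon _ (hu i k))
  refine ⟨fun a ha => (hN ha).2.1, fun a ha w hw h1 => ?_⟩
  obtain ⟨ha', hτa, h2⟩ := hN ha
  rw [IsLocalRing.mem_maximalIdeal] at h2
  exact h2 (IsUnit.of_mul_eq_one ⟨w, hw⟩ (Subtype.ext h1))
-- END L6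

-- BEGIN L7
include hι hτ hτF hτF2 hstar in
/-- TASK L7. **The local theorem at a tamely ramified prime.** If `ϖ` or some
`ι (uEl x τ k l) / (ι (x i) ι (x i))` is a unit of `D`, use `eq_of_units` (`δ = 2`, `hA.reg`) and
`principal_of_not_fixed`. Otherwise `stable_of_fixed`: `τF` restricts to an involution `τA` of `A`,
trivial on the residue field. Let `I` be the ideal of `A` generated by the `τF a - a`. It is generated
by the `ι b / ι (x i) ^ 2`, `b ∈ B 1 = {ϖ x_k x_l} ∪ {u_kl}`: (⊇) `ϖ = ε' (τ ϖ - ϖ)`; with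
`ρ = ι (x i') / ι (x i)` (`τ (x i) = x i'`), `f_k = ι (x k) / ι (x i)`:
`ι (u_kl) / ι (x i) ^ 2 = ρ (f_k (τF f_l - f_l) - f_l (τF f_k - f_k))`; (⊆) the `z ∈ A` with `τF z - z`
in the ideal generated by these form a ring as in `hA.min` containing `Λ` (`hΛ`) and the `f_k`
(`τF f_k - f_k = ρ⁻¹ ι (u_ik) / ι (x i) ^ 2`). Now apply `local_tame_type` to the local domain `D`
and its subring `A' = A.comap D.subtype` (isomorphic to `A`), `b = ι (β 1) / ι (x i) ^ 2`; `hgen` from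
`hD.gen`. -/
theorem local_tame {ϖ ε ε' : M}
    (hD : LocSit ι x (BSet x τ ϖ) Λ 1 D i β) (hA : Around ι x Λ D i A)
    (hϖ : ϖ ∈ Λ) (hΛ : ∀ c ∈ Λ, ∃ d ∈ Λ, τ c - c = d * ϖ)
    (hε : ε ∈ Λ) (hε' : ε' ∈ Λ) (hϖτ : τ ϖ - ϖ = ε * ϖ) (hεε : ε * ε' = 1)
    (h2 : ∃ c ∈ Λ, (2 : M) * c = 1) :
    IsRegularLocalRing D ∧ ((∀ z ∈ D, τF z ∈ D) → Principal τF D) := by
  classical
  have hloc := hD.loc
  have hxi0 := hD.ne
  have hϖτ' : τ ϖ - ϖ = ε * ϖ ^ 1 := by rw [pow_one]; exact hϖτ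
  -- the elements of `A`
  have hBA : ∀ j ∈ Finset.Icc 1 1, ∀ b ∈ BSet x τ ϖ j, ι b / ι (x i) ^ 2 ∈ A := by
    rintro j - b ⟨k, l, rfl | rfl⟩
    · have h1 : ι (ϖ ^ j * (x k * x l)) / ι (x i) ^ 2 =
          ι ϖ ^ j * (ι (x k) / ι (x i) * (ι (x l) / ι (x i))) := by
        rw [map_mul, map_mul, map_pow]
        field_simp
      rw [h1]
      exact A.mul_mem (A.pow_mem (hA.lam ϖ hϖ) j) (A.mul_mem (hA.coord k) (hA.coord l))
    · obtain ⟨k', hk'⟩ := hstar k
      obtain ⟨l', hl'⟩ := hstar l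
      have h1 : ι (uEl x τ k l) / ι (x i) ^ 2 =
          ι (x k) / ι (x i) * (ι (x l') / ι (x i)) - ι (x l) / ι (x i) * (ι (x k') / ι (x i)) := by
        rw [uEl, hk', hl', map_sub, map_mul, map_mul]
        field_simp
      rw [h1]
      exact A.sub_mem (A.mul_mem (hA.coord k) (hA.coord l'))
        (A.mul_mem (hA.coord l) (hA.coord k'))
  by_cases hfix : (∃ w ∈ D, ι ϖ * w = 1) ∨
      ∃ k l, ∃ w ∈ D, ι (uEl x τ k l) / (ι (x i) * ι (x i)) * w = 1
  · refine ⟨?_, fun hDτ => principal_of_not_fixed hι hτ hτF hτF2 hstar hD hϖ hε' hϖτ' hεε hfix hDτ⟩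
    have hDA : D = A := by
      refine eq_of_units hD hA hBA ?_
      intro j hj
      have hj1 : j = 1 := by
        rw [Finset.mem_Icc] at hj
        omega
      subst hj1
      rcases hfix with ⟨w, hw, h4⟩ | ⟨k, l, w, hw, h4⟩
      · refine ⟨ϖ ^ 1 * (x i * x i), ⟨i, i, Or.inl rfl⟩, w, hw, ?_⟩
        rw [← h4, map_mul, map_mul, map_pow]
        field_simp
      · refine ⟨uEl x τ k l, ⟨k, l, Or.inr rfl⟩, w, hw, ?_⟩
        rw [← h4]
        congr 2
        ring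
    rw [hDA]
    exact hA.reg
  -- the fixed points
  push Not at hfix
  obtain ⟨hϖD, hu⟩ := hfix
  obtain ⟨hst, hnu⟩ := stable_of_fixed hι hτ hτF hτF2 hstar hD hA hϖ hΛ hϖD hu
  -- the subring `A'` of `D`
  obtain ⟨A', hA'⟩ : ∃ A' : Subring D, A' = A.comap D.subtype := ⟨_, rfl⟩
  have hmem : ∀ z : D, z ∈ A' ↔ (z : F) ∈ A := by
    intro z
    rw [hA']
    rfl
  have hregA := hA.reg
  have hregA' : IsRegularLocalRing A' := by
    let Φ : A' →+* A := (D.subtype.comp A'.subtype).codRestrict A fun z => (hmem z).1 z.2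
    have hΦ : ∀ z, ((Φ z : A) : F) = ((z : D) : F) := fun _ => rfl
    have hinj : Function.Injective Φ := fun a b hab => by
      apply Subtype.ext
      apply Subtype.ext
      rw [← hΦ, ← hΦ, hab]
    have hsurj : Function.Surjective Φ := fun a =>
      ⟨⟨⟨a, hA.le a.2⟩, (hmem _).2 a.2⟩, Subtype.ext rfl⟩
    exact IsRegularLocalRing.of_ringEquiv (RingEquiv.ofBijective Φ ⟨hinj, hsurj⟩).symm
  obtain ⟨mk, hmk⟩ : ∃ mk : ∀ a ∈ A, A', ∀ a ha, (((mk a ha : A') : D) : F) = a :=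
    ⟨fun a ha => ⟨⟨a, hA.le ha⟩, (hmem _).2 ha⟩, fun _ _ => rfl⟩
  have hext : ∀ a b : A', (((a : A') : D) : F) = ((b : D) : F) → a = b := fun a b hab =>
    Subtype.ext (Subtype.ext hab)
  let τA : A' →+* A' := RingHom.codRestrict (RingHom.codRestrict
    (τF.comp (D.subtype.comp A'.subtype)) D fun z => hA.le (hst _ ((hmem z).1 z.2))) A'
    fun z => (hmem _).2 (hst _ ((hmem z).1 z.2))
  have hτA : ∀ z : A', (((τA z : A') : D) : F) = τF ((z : D) : F) := fun _ => rfl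
  have hdom : Dom A' := by
    intro a ha b hab
    rw [hmem] at ha ⊢
    exact hA.dom _ ha _ b.2 (congrArg Subtype.val hab)
  have hβB := hD.β_mem 1 (by simp)
  have hβ0 := hD.β_ne 1 (by simp)
  have hratio := hD.ratio 1 (by simp)
  have hbA : ι (β 1) / ι (x i) ^ 2 ∈ A := hBA 1 (by simp) _ hβB
  obtain ⟨b, hb⟩ : ∃ b : A', ((b : D) : F) = ι (β 1) / ι (x i) ^ 2 := ⟨mk _ hbA, hmk _ _⟩
  -- the ideal
  obtain ⟨J, hJ⟩ : ∃ J : Ideal A', J = Ideal.span (Set.range fun a => τA a - a) := ⟨_, rfl⟩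
  have hJmem : ∀ a : A', τA a - a ∈ J := fun a => hJ ▸ Ideal.subset_span ⟨a, rfl⟩
  obtain ⟨i', hi'⟩ := hstar i
  have hxi'0 : ι (x i') ≠ 0 := by
    rw [← hi', ← hτF]
    exact (map_ne_zero τF).mpr hxi0
  have hεε' : ι ε * ι ε' = 1 := by rw [← map_mul, hεε, map_one]
  have hsup : ∀ b' ∈ BSet x τ ϖ 1, ∀ y : A', ((y : D) : F) = ι b' / ι (x i) ^ 2 → y ∈ J := by
    rintro b' ⟨k, l, rfl | rfl⟩ y hy
    · have h1 : y = mk (ι ε') (hA.lam ε' hε') * (mk _ (hA.coord k) * mk _ (hA.coord l)) *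
          (τA (mk (ι ϖ) (hA.lam ϖ hϖ)) - mk (ι ϖ) (hA.lam ϖ hϖ)) := by
        apply hext
        rw [hy]
        push_cast
        rw [hτA, hmk, hmk, hmk, hmk, hτF, ← map_sub, hϖτ, map_mul, map_mul, map_mul, map_pow,
          pow_one]
        field_simp
        linear_combination -(ι ϖ * ι (x k) * ι (x l)) * hεε'
      rw [h1]
      exact Ideal.mul_mem_left _ _ (hJmem _)
    · have h1 : y = mk _ (hA.coord i') * (mk _ (hA.coord k) *
            (τA (mk _ (hA.coord l)) - mk _ (hA.coord l)) -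
          mk _ (hA.coord l) * (τA (mk _ (hA.coord k)) - mk _ (hA.coord k))) := by
        apply hext
        rw [hy]
        push_cast
        rw [hτA, hτA, hmk, hmk, hmk, map_div₀, map_div₀, hτF, hτF, hτF, hi', uEl, map_sub,
          map_mul, map_mul]
        field_simp
        ring
      rw [h1]
      exact Ideal.mul_mem_left _ _ (Ideal.sub_mem _ (Ideal.mul_mem_left _ _ (hJmem _))
        (Ideal.mul_mem_left _ _ (hJmem _)))
  have hρ' : ι (x i) / ι (x i') ∈ A := by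
    have h1 := hst _ (hA.coord i')
    have h3 : τF (ι (x i') / ι (x i)) = ι (x i) / ι (x i') := by
      rw [map_div₀, hτF, hτF, hi', ← hi', hτ]
    rwa [h3] at h1
  obtain ⟨Nn, hNn⟩ : ∃ N : Subring F, ∀ z, z ∈ N ↔ (z ∈ A ∧ ∃ q ∈ D,
      τF z - z = ι (β 1) / ι (x i) ^ 2 * q) := by
    refine ⟨{ carrier := {z | z ∈ A ∧ ∃ q ∈ D, τF z - z = ι (β 1) / ι (x i) ^ 2 * q}
              mul_mem' := ?_
              one_mem' := ⟨A.one_mem, 0, D.zero_mem, by rw [map_one]; ring⟩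
              add_mem' := ?_
              zero_mem' := ⟨A.zero_mem, 0, D.zero_mem, by rw [map_zero]; ring⟩
              neg_mem' := ?_ }, fun z => Iff.rfl⟩
    · rintro a c ⟨ha, q, hq, h1⟩ ⟨hc, q', hq', h3⟩
      refine ⟨A.mul_mem ha hc, q * τF c + a * q', D.add_mem (D.mul_mem hq (hA.le (hst _ hc)))
        (D.mul_mem (hA.le ha) hq'), ?_⟩
      rw [map_mul]
      linear_combination τF c * h1 + a * h3
    · rintro a c ⟨ha, q, hq, h1⟩ ⟨hc, q', hq', h3⟩
      refine ⟨A.add_mem ha hc, q + q', D.add_mem hq hq', ?_⟩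
      rw [map_add]
      linear_combination h1 + h3
    · rintro a ⟨ha, q, hq, h1⟩
      refine ⟨A.neg_mem ha, -q, D.neg_mem hq, ?_⟩
      rw [map_neg]
      linear_combination -h1
  have hNle : A ≤ Nn := by
    refine hA.min _ (fun z hz => ((hNn z).1 hz).1) ?_ ?_ ?_
    · intro a ha c hc hac
      obtain ⟨ha', q, hq, h1⟩ := (hNn a).1 ha
      have h3 : τF a * τF c = 1 := by rw [← map_mul, hac, map_one]
      refine (hNn c).2 ⟨hc, -(c * τF c * q), D.neg_mem (D.mul_mem (D.mul_mem (hA.le hc)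
        (hA.le (hst _ hc))) hq), ?_⟩
      linear_combination -(c * τF c) * h1 + c * h3 - τF c * hac
    · intro c hc
      obtain ⟨d, hd, hcd⟩ := hΛ c hc
      refine (hNn _).2 ⟨hA.lam c hc, ι d * (ι (ϖ ^ 1 * (x i * x i)) / ι (β 1)),
        D.mul_mem (hD.lam d hd) (hratio _ ⟨i, i, Or.inl rfl⟩), ?_⟩
      rw [hτF, ← map_sub, hcd, map_mul, map_mul, map_mul, map_pow]
      field_simp
    · intro k
      refine (hNn _).2 ⟨hA.coord k, ι (x i) / ι (x i') * (ι (uEl x τ i k) / ι (β 1)),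
        D.mul_mem (hA.le hρ') (hratio _ ⟨i, k, Or.inr rfl⟩), ?_⟩
      obtain ⟨k', hk'⟩ := hstar k
      rw [map_div₀, hτF, hτF, hk', hi', uEl, hk', hi', map_sub, map_mul, map_mul]
      field_simp
  have hmain := local_tame_type (D := D) (A := A') (τA := τA) hdom ?_ ?_ ?_ b ?_ ?_ ?_ ?_
  · obtain ⟨hm1, hm2⟩ := hmain
    refine ⟨hm1, fun hDτ => ?_⟩
    let τD : D →+* D := (τF.comp D.subtype).codRestrict D fun z => hDτ z z.2
    obtain ⟨y, hy1, hy2⟩ := hm2 τD (fun z => Subtype.ext (hτF2 _)) (fun a => Subtype.ext rfl)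
    refine ⟨y, y.2, fun h0 => hy1 (Subtype.ext h0), fun z hz => ?_⟩
    obtain ⟨c, hc⟩ := hy2 ⟨z, hz⟩
    exact ⟨c, c.2, congrArg Subtype.val hc⟩
  · intro a
    apply hext
    rw [hτA, hτA, hτF2]
  · obtain ⟨c, hc, h3⟩ := h2
    refine IsUnit.of_mul_eq_one (mk (ι c) (hA.lam c hc)) (hext _ _ ?_)
    have h4 : ((2 : A') : D) = 2 := rfl
    have h5 : ((2 : D) : F) = 2 := rfl
    have h6 : (2 : F) * ι c = 1 := by
      rw [← map_one ι, ← h3, map_mul, map_ofNat]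
    push_cast
    rw [hmk]
    exact h6
  · intro a
    rw [IsLocalRing.mem_maximalIdeal, mem_nonunits_iff]
    intro hau
    obtain ⟨w, hw⟩ := hau.exists_right_inv
    exact hnu _ ((hmem a).1 a.2) _ ((hmem w).1 w.2)
      (congrArg (fun t : A' => ((t : D) : F)) hw)
  · intro h0
    have h1 := congrArg Subtype.val h0
    rw [hb] at h1
    exact div_ne_zero hβ0 (pow_ne_zero 2 hxi0) h1
  · rw [← hJ]
    exact hsup _ hβB b hb
  · rw [← hJ]
    intro y hy
    have hle : J ≤ (Ideal.span {(b : D)}).comap A'.subtype := by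
      rw [hJ, Ideal.span_le]
      rintro _ ⟨a, rfl⟩
      obtain ⟨-, q, hq, h1⟩ := (hNn _).1 (hNle ((hmem a).1 a.2))
      rw [SetLike.mem_coe, Ideal.mem_comap, Ideal.mem_span_singleton]
      refine ⟨⟨q, hq⟩, Subtype.ext ?_⟩
      change τF _ - _ = ((b : D) : F) * q
      rw [hb]
      exact h1
    exact Ideal.mem_span_singleton.1 (hle hy)
  · rw [← hJ]
    intro R' hRdom hAR hR
    rw [eq_top_iff]
    rintro ⟨z, hz⟩ -
    have h4 := hD.gen (R'.map D.subtype) ?_ ?_ ?_ ?_ ?_ hz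
    · obtain ⟨w, hw, hwz⟩ := h4
      have h5 : w = ⟨z, hz⟩ := Subtype.ext hwz
      rwa [← h5]
    · rintro _ ⟨w, -, rfl⟩
      exact w.2
    · rintro _ ⟨a, ha, rfl⟩ c hc hac
      exact ⟨⟨c, hc⟩, hRdom a ha ⟨c, hc⟩ (Subtype.ext hac), rfl⟩
    · intro c hc
      exact ⟨⟨ι c, hD.lam c hc⟩, hAR ((hmem _).2 (hA.lam c hc)), rfl⟩
    · intro k
      exact ⟨⟨_, hD.coord k⟩, hAR ((hmem _).2 (hA.coord k)), rfl⟩
    · intro j hj b' hb'
      have hj1 : j = 1 := by
        rw [Finset.mem_Icc] at hj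
        omega
      subst hj1
      refine ⟨⟨_, hratio b' hb'⟩, ?_, rfl⟩
      refine hR (mk _ (hBA 1 (by simp) b' hb')) (hsup b' hb' _ (hmk _ _)) _ (Subtype.ext ?_)
      change ((b : D) : F) * (ι b' / ι (β 1)) = ((mk _ (hBA 1 (by simp) b' hb') : A') : D)
      rw [hb, hmk]
      field_simp
-- END L7

end

end Pool.Agent.Lib.MP_6a3dac_ag.QD
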