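import Pool.Agent.Lib.MP_6a3dac_ag.QWAbs

/-!
# The arithmetic of a ramified prime
-/

set_option autoImplicit false
set_option linter.unusedSectionVars false

namespace Pool.Agent.Lib.MP_6a3dac_ag.QD

open Pool.Agent.Lib.MP_6a3dac_ag

variable {R O L M : Type} [CommRing R] [CommRing O] [Algebra R O] [Field L] [Algebra R L]
  [Algebra O L] [IsScalarTower R O L] [CommRing M] [Algebra L M] [Algebra R M]
  [IsScalarTower R L M]

/-- The arithmetic of a ramified prime: `Λ = lamP O L M p` is a discrete valuation ring with the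
uniformizer `ϖ`, and `s` is the exponent of the different. -/
structure Ram (O L M : Type) [CommRing O] [Algebra R O] [Field L] [Algebra R L]
    [Algebra O L] [IsScalarTower R O L] [CommRing M] [Algebra L M] [Algebra R M]
    [IsScalarTower R L M] (τ : M →+* M) (p : Ideal R) [p.IsPrime] (ϖ : O) (s : ℕ) : Prop where
  ϖ0 : ϖ ≠ 0
  pos : 1 ≤ s
  eps : ∃ ε ∈ lamP O L M p, ∃ ε' ∈ lamP O L M p,
    τ (oM O L M ϖ) - oM O L M ϖ = ε * oM O L M ϖ ^ s ∧ ε * ε' = 1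
  diff : ∀ c ∈ lamP O L M p, ∃ d ∈ lamP O L M p, τ c - c = d * oM O L M ϖ ^ s
  dvr : ∀ c ∈ lamP O L M p, (∃ c' ∈ lamP O L M p, c * c' = 1) ∨
    ∃ c' ∈ lamP O L M p, c = oM O L M ϖ * c'
  nonunit : ∀ c ∈ lamP O L M p, oM O L M ϖ * c ≠ 1

section Exists

variable {σ : O →+* O} (h : QuadExt R O σ) (hRL : Function.Injective (algebraMap R L))
  {τ : M →+* M} (hτO : ∀ c, τ (oM O L M c) = oM O L M (σ c)) (p : Ideal R) [hpm : p.IsMaximal]

-- BEGIN R1
/-- The elements of `𝔓` are divisible by the uniformizer up to units. -/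
theorem r1_unif [IsDedekindDomain O] {𝔓 : Ideal O} [h𝔓 : 𝔓.IsPrime] {ϖ : O}
    (hirr : Irreducible (algebraMap O (Localization.AtPrime 𝔓) ϖ)) {c : O} (hc : c ∈ 𝔓) :
    ∃ t, t ∉ 𝔓 ∧ ∃ d, t * c = d * ϖ := by
  have h0 : 𝔓 ≠ ⊥ := by
    intro h0
    have hnz : algebraMap O (Localization.AtPrime 𝔓) ϖ ≠ 0 := hirr.ne_zero
    have h1 : ϖ ∉ 𝔓 := by
      intro h1
      rw [h0, Ideal.mem_bot] at h1
      rw [h1, map_zero] at hnz
      exact hnz rfl
    exact hirr.not_isUnit (IsLocalization.map_units (Localization.AtPrime 𝔓)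
      (⟨ϖ, h1⟩ : 𝔓.primeCompl))
  have hd : IsDiscreteValuationRing (Localization.AtPrime 𝔓) :=
    IsLocalization.AtPrime.isDiscreteValuationRing_of_dedekind_domain O h0 _
  have h1 : algebraMap O (Localization.AtPrime 𝔓) c ∈
      IsLocalRing.maximalIdeal (Localization.AtPrime 𝔓) :=
    (IsLocalization.AtPrime.to_map_mem_maximal_iff (Localization.AtPrime 𝔓) 𝔓 c).mpr hc
  rw [hirr.maximalIdeal_eq, Ideal.mem_span_singleton] at h1
  obtain ⟨z, hz⟩ := h1
  obtain ⟨⟨d, t⟩, hdt⟩ := IsLocalization.surj 𝔓.primeCompl z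
  refine ⟨t, t.2, d, ?_⟩
  apply IsLocalization.injective (Localization.AtPrime 𝔓) (Ideal.primeCompl_le_nonZeroDivisors 𝔓)
  rw [map_mul, map_mul, hz]
  simp only at hdt
  linear_combination algebraMap O (Localization.AtPrime 𝔓) ϖ * hdt

include h hRL hτO in
/-- TASK R1. `h.exists_uniformizer` gives `ϖ` and `s`. `eps`, `ϖ0`, `pos`: as in `arithHyp_ram` (QWAbs.lean).
`diff`: for `c` in `lamP`, `n c = oM c'`; multiply the relation for `c'` by the inverse of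
`n * n'` (`exists_inv_lamP'`); `τ (algebraMap R M n) = algebraMap R M n`. `dvr`: `n c = oM c'`; if
`c' ∉ 𝔓`: `m = c' σ c'`, `m ∉ p` (`h.exists_dvd`), the inverse of `c` is `n * oM (σ c') / m`. If
`c' ∈ 𝔓` then `algebraMap c'` is in the maximal ideal of `Localization.AtPrime 𝔓`, spanned by `ϖ`
(a discrete valuation ring, `Irreducible.maximalIdeal_eq`), so `t * c' = ϖ * d` with `t ∉ 𝔓`, and
`m = t σ t`, `m ∉ p`: `c = ϖ * (oM (d σ t) / (n m))`. `nonunit`: `ϖ c = 1`, `n c = oM c'` gives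
`ϖ c' = n` in `O`, `ϖ ∈ 𝔓`, `n ∉ p = 𝔓 ∩ R`. (`oM` is injective.) -/
theorem exists_ram [IsDedekindDomain O] [Nontrivial M] (hOL : Function.Injective (algebraMap O L))
    [Finite (R ⧸ p)] (hp0 : p ≠ ⊥) (hU : ¬ UnramAt σ p) {𝔓 : Ideal O} [h𝔓 : 𝔓.IsPrime]
    (hp : 𝔓.comap (algebraMap R O) = p) : ∃ (ϖ : O) (s : ℕ), Ram O L M τ p ϖ s ∧
      Irreducible (algebraMap O (Localization.AtPrime 𝔓) ϖ) := by
  have hσ := h.sub_mem_of_not_unram hU hp
  obtain ⟨ϖ, s, hs, hirr, h1, h2⟩ := h.exists_uniformizer hp0 hU hp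
  have hoM : Function.Injective (oM O L M) := (algebraMap L M).injective.comp hOL
  have hϖ0 : ϖ ≠ 0 := by
    rintro rfl
    exact hirr.ne_zero (map_zero _)
  have hϖ𝔓 : ϖ ∈ 𝔓 := by
    have h5 : ¬ IsUnit (algebraMap O (Localization.AtPrime 𝔓) ϖ) := hirr.not_isUnit
    rw [IsLocalization.AtPrime.isUnit_to_map_iff (Localization.AtPrime 𝔓) 𝔓 ϖ] at h5
    exact not_not.1 h5
  refine ⟨ϖ, s, ⟨hϖ0, hs, ?_, ?_, ?_, ?_⟩, hirr⟩
  · obtain ⟨-, -, ⟨h3, -⟩ | ⟨-, ε, hε, ε', hε', e, he, h4, h5, h6⟩⟩ :=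
      arithHyp_ram (L := L) (M := M) h hRL hτO p hp hσ hϖ0 hs h1 h2
    · omega
    · exact ⟨ε, hε, ε', hε', h4, h5⟩
  · rintro c ⟨n, hn, c', hc', -⟩
    obtain ⟨y, n', hn', hy⟩ := h2 c'
    obtain ⟨u, hu, hu1, hu2⟩ := exists_inv_lamP' (M := M) h hRL hτO p hn
    obtain ⟨v, hv, hv1, -⟩ := exists_inv_lamP' (M := M) h hRL hτO p hn'
    refine ⟨oM O L M y * u * v, Subring.mul_mem _ (Subring.mul_mem _ (oM_mem_lamP p _) hu) hv, ?_⟩
    have h3 : c = oM O L M c' * u := by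
      linear_combination u * hc' - c * hu1
    have h4 := congrArg (oM O L M) hy
    rw [map_mul, oM_algebraMap, map_sub, map_mul, map_pow] at h4
    rw [h3, map_mul, hτO, hu2]
    linear_combination (u * v) * h4 - (u * (oM O L M (σ c') - oM O L M c')) * hv1
  · rintro c ⟨n, hn, c', hc', -⟩
    obtain ⟨u, hu, hu1, -⟩ := exists_inv_lamP' (M := M) h hRL hτO p hn
    by_cases hc𝔓 : c' ∈ 𝔓
    · right
      obtain ⟨t, ht, d, htd⟩ := r1_unif hirr hc𝔓
      obtain ⟨m, hm, hm2⟩ := h.exists_dvd hp hσ ht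
      obtain ⟨w, hw, hw1, -⟩ := exists_inv_lamP' (M := M) h hRL hτO p hm
      refine ⟨oM O L M d * oM O L M (σ t) * w * u, Subring.mul_mem _ (Subring.mul_mem _
        (Subring.mul_mem _ (oM_mem_lamP p _) (oM_mem_lamP p _)) hw) hu, ?_⟩
      have h3 := congrArg (oM O L M) htd
      rw [map_mul, map_mul] at h3
      have h4 := congrArg (oM O L M) hm2
      rw [oM_algebraMap, map_mul] at h4
      linear_combination u * hc' - c * hu1 - (oM O L M c' * u) * hw1 + (oM O L M c' * u * w) * h4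
        + (oM O L M (σ t) * w * u) * h3
    · left
      obtain ⟨m, hm, hm2⟩ := h.exists_dvd hp hσ hc𝔓
      obtain ⟨w, hw, hw1, -⟩ := exists_inv_lamP' (M := M) h hRL hτO p hm
      refine ⟨algebraMap R M n * oM O L M (σ c') * w, Subring.mul_mem _ (Subring.mul_mem _ ?_
        (oM_mem_lamP p _)) hw, ?_⟩
      · rw [← oM_algebraMap (O := O) (L := L)]
        exact oM_mem_lamP p _
      · have h4 := congrArg (oM O L M) hm2
        rw [oM_algebraMap, map_mul] at h4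
        linear_combination (oM O L M (σ c') * w) * hc' - w * h4 + hw1
  · rintro c ⟨n, hn, c', hc', -⟩ h3
    apply hn
    rw [← hp, Ideal.mem_comap]
    have h4 : algebraMap R O n = ϖ * c' := by
      apply hoM
      rw [oM_algebraMap, map_mul]
      linear_combination oM O L M ϖ * hc' - algebraMap R M n * h3
    rw [h4]
    exact 𝔓.mul_mem_right _ hϖ𝔓
-- END R1

end Exists

section Use

variable {τ : M →+* M} (hτ : ∀ m, τ (τ m) = m) {p : Ideal R} [hp : p.IsPrime] {ϖ : O} {s : ℕ}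

-- BEGIN R2
/-- TASK R2. -/
theorem Ram.map_mem (h : Ram O L M τ p ϖ s) {c : M} (hc : c ∈ lamP O L M p) :
    τ c ∈ lamP O L M p := by
  obtain ⟨d, hd, h1⟩ := h.diff c hc
  have h2 : τ c = c + d * oM O L M ϖ ^ s := by rw [← h1]; ring
  rw [h2]
  exact Subring.add_mem _ hc (Subring.mul_mem _ hd (Subring.pow_mem _ (oM_mem_lamP p _) _))

include hτ in
/-- TASK R2. The norms of uniformizers divide the invariant nonunits. By `dvr`, `c = ϖ c₁`. If
`c₁ c₁' = 1` then `ϖ = c c₁'`, `τ ϖ - ϖ = c (τ c₁' - c₁') = ϖ c₁ d ϖ ^ s`, so `ε = ϖ c₁ d` (cancel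
`ϖ ^ s`), contradiction to `nonunit`. So `c = ϖ ^ 2 c₂`. `η = 1 + ε ϖ ^ (s - 1)`, `τ ϖ = η ϖ`,
`η τ η = 1` (apply `τ`, cancel `ϖ`), `c' = τ η * c₂`; `τ c' = c'` by cancelling `ϖ τ ϖ`. -/
theorem Ram.fixed_dvd [IsDomain M] (h : Ram O L M τ p ϖ s) (hϖ : oM O L M ϖ ≠ 0) {c : M}
    (hc : c ∈ lamP O L M p) (hτc : τ c = c) (hcn : ∀ c' ∈ lamP O L M p, c * c' ≠ 1) :
    ∃ c' ∈ lamP O L M p, τ c' = c' ∧ c = oM O L M ϖ * τ (oM O L M ϖ) * c' := by
  obtain ⟨w, hw⟩ : ∃ w, w = oM O L M ϖ := ⟨_, rfl⟩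
  have hwm : w ∈ lamP O L M p := by rw [hw]; exact oM_mem_lamP p _
  have hw0 : w ≠ 0 := by rw [hw]; exact hϖ
  obtain ⟨ε, hε, ε', hε', h1, h2⟩ := h.eps
  rw [← hw] at h1
  obtain ⟨c₁, hc₁, hcc⟩ : ∃ c₁ ∈ lamP O L M p, c = w * c₁ := by
    rcases h.dvr c hc with ⟨c', hc', h3⟩ | ⟨c', hc', h3⟩
    · exact absurd h3 (hcn c' hc')
    · exact ⟨c', hc', by rw [hw]; exact h3⟩
  obtain ⟨c₂, hc₂, hcc₂⟩ : ∃ c₂ ∈ lamP O L M p, c₁ = w * c₂ := by
    rcases h.dvr c₁ hc₁ with ⟨c', hc', h3⟩ | ⟨c', hc', h3⟩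
    · exfalso
      obtain ⟨d, hd, h4⟩ := h.diff c' hc'
      rw [← hw] at h4
      have h5 : w = c * c' := by rw [hcc, mul_assoc, h3, mul_one]
      have h6 : τ w = c * τ c' := by
        conv_lhs => rw [h5, map_mul, hτc]
      have h7 : w ^ s * ε = w ^ s * (w * c₁ * d) := by
        have h8 : τ w - w = c * (τ c' - c') := by
          rw [h6]
          conv_lhs => rw [h5]
          ring
        rw [h1, h4, hcc] at h8
        linear_combination h8
      have h9 : ε = w * c₁ * d := mul_left_cancel₀ (pow_ne_zero _ hw0) h7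
      refine h.nonunit (c₁ * d * ε') (Subring.mul_mem _ (Subring.mul_mem _ hc₁ hd) hε') ?_
      rw [← hw]
      linear_combination h2 - ε' * h9
    · exact ⟨c', hc', by rw [hw]; exact h3⟩
  obtain ⟨η, hη⟩ : ∃ η, η = 1 + ε * w ^ (s - 1) := ⟨_, rfl⟩
  have hηm : η ∈ lamP O L M p := by
    rw [hη]
    exact Subring.add_mem _ (Subring.one_mem _) (Subring.mul_mem _ hε (Subring.pow_mem _ hwm _))
  have hτw : τ w = η * w := by
    obtain ⟨k, hk⟩ : ∃ k, s = k + 1 := ⟨s - 1, by have := h.pos; omega⟩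
    have e1 : s - 1 = k := by omega
    rw [hη, e1]
    rw [hk] at h1
    linear_combination h1
  have hηη : τ η * η = 1 := by
    have h3 : τ (τ w) = w := hτ w
    rw [hτw, map_mul, hτw] at h3
    have h4 : (τ η * η) * w = 1 * w := by rw [one_mul]; linear_combination h3
    exact mul_right_cancel₀ hw0 h4
  have hη0 : η ≠ 0 := by
    rintro rfl
    rw [mul_zero] at hηη
    exact zero_ne_one hηη
  have hfin : c = w * τ w * (τ η * c₂) := by
    rw [hτw, hcc, hcc₂]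
    linear_combination -(w * w * c₂) * hηη
  refine ⟨τ η * c₂, Subring.mul_mem _ (h.map_mem hηm) hc₂, ?_, by rw [← hw]; exact hfin⟩
  have h5 : τ c = τ w * w * τ (τ η * c₂) := by
    conv_lhs => rw [hfin, map_mul, map_mul, hτ w]
  rw [hτc] at h5
  have h6 : (w * τ w) * τ (τ η * c₂) = (w * τ w) * (τ η * c₂) := by
    rw [← hfin]
    linear_combination -h5
  exact mul_left_cancel₀ (mul_ne_zero hw0 (by rw [hτw]; exact mul_ne_zero hη0 hw0)) h6
-- END R2

-- BEGIN R3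
include hτ in
/-- TASK R3. If `2` is invertible then `s = 1`. Let `t = ϖ + τ ϖ = 2 ϖ + ε ϖ ^ s`, `τ t = t`. If `s ≥ 2`
then `t = ϖ (2 + ε ϖ ^ (s - 1))` is not a unit (`nonunit`), so `Ram.fixed_dvd` gives
`t = ϖ τ ϖ c' = ϖ ^ 2 η c'`; cancelling `ϖ`, `2 = ϖ (η c' - ε ϖ ^ (s - 2))`, contradiction to
`nonunit`. -/
theorem Ram.eq_one [IsDomain M] (h : Ram O L M τ p ϖ s) (hϖ : oM O L M ϖ ≠ 0)
    (h2 : ∃ c ∈ lamP O L M p, (2 : M) * c = 1) : s = 1 := by
  by_contra hs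
  obtain ⟨r, rfl⟩ : ∃ r, s = r + 2 := ⟨s - 2, by have := h.pos; omega⟩
  obtain ⟨ε, hε, ε', hε', hτϖ, hεε⟩ := h.eps
  obtain ⟨u, hu, hu1⟩ := h2
  have hx : oM O L M ϖ ∈ lamP O L M p := oM_mem_lamP p ϖ
  set x := oM O L M ϖ with hxdef
  have e1 : τ x = x + ε * x ^ (r + 2) := by
    rw [← hτϖ]
    ring
  have e2 : x + τ x = x * (2 + ε * x ^ (r + 1)) := by
    rw [e1]
    ring
  have htw : (2 : M) ∈ lamP O L M p := by
    have := Subring.add_mem (lamP O L M p) (Subring.one_mem _) (Subring.one_mem _)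
    rwa [one_add_one_eq_two] at this
  have hy : 2 + ε * x ^ (r + 1) ∈ lamP O L M p :=
    Subring.add_mem _ htw (Subring.mul_mem _ hε (Subring.pow_mem _ hx _))
  have hc : x + τ x ∈ lamP O L M p := by
    rw [e2]
    exact Subring.mul_mem _ hx hy
  have hτc : τ (x + τ x) = x + τ x := by
    rw [map_add, hτ, add_comm]
  have hcn : ∀ c' ∈ lamP O L M p, (x + τ x) * c' ≠ 1 := by
    intro c' hc' h1
    rw [e2, mul_assoc] at h1
    exact h.nonunit _ (Subring.mul_mem _ hy hc') h1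
  obtain ⟨c', hc', -, h3⟩ := Ram.fixed_dvd hτ h hϖ hc hτc hcn
  rw [e2] at h3
  have h4 : x * (2 + ε * x ^ (r + 1)) = x * (x * (1 + ε * x ^ (r + 1)) * c') := by
    rw [h3, ← hxdef, e1]
    ring
  have h5 := mul_left_cancel₀ hϖ h4
  have h6 : x * (((1 + ε * x ^ (r + 1)) * c' - ε * x ^ r) * u) = 1 := by
    have h7 : x * (((1 + ε * x ^ (r + 1)) * c' - ε * x ^ r) * u) =
        (x * (1 + ε * x ^ (r + 1)) * c' - ε * x ^ (r + 1)) * u := by ring
    rw [h7, ← h5, add_sub_cancel_right, hu1]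
  refine h.nonunit _ ?_ h6
  refine Subring.mul_mem _ (Subring.sub_mem _ (Subring.mul_mem _ (Subring.add_mem _
    (Subring.one_mem _) (Subring.mul_mem _ hε (Subring.pow_mem _ hx _))) hc')
    (Subring.mul_mem _ hε (Subring.pow_mem _ hx _))) hu

include hτ in
/-- TASK R3. If `2` is not invertible then `2 ≤ s`. Suppose `s = 1`: `τ ϖ = η ϖ`, `η = 1 + ε`, `η τ η = 1`,
`τ η = η + d ϖ`, so `η ^ 2 = 1 - η d ϖ`, `(η - 1) ^ 2 = η ^ 2 - 2 η + 1 = 2 - 2 η - η d ϖ`,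
divisible by `ϖ` (`dvr` for `2`), so `ε ^ 2` is divisible by `ϖ`: contradiction (`ε ε' = 1`,
`nonunit`). -/
theorem Ram.two_le [IsDomain M] (h : Ram O L M τ p ϖ s) (hϖ : oM O L M ϖ ≠ 0)
    (h2 : ∀ c ∈ lamP O L M p, (2 : M) * c ≠ 1) : 2 ≤ s := by
  by_contra hs
  obtain rfl : s = 1 := by have := h.pos; omega
  obtain ⟨ε, hε, ε', hε', hτϖ, hεε⟩ := h.eps
  have hx : oM O L M ϖ ∈ lamP O L M p := oM_mem_lamP p ϖ
  have htw : (2 : M) ∈ lamP O L M p := by
    have := Subring.add_mem (lamP O L M p) (Subring.one_mem _) (Subring.one_mem _)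
    rwa [one_add_one_eq_two] at this
  obtain ⟨d, hd, hd1⟩ := h.diff (1 + ε) (Subring.add_mem _ (Subring.one_mem _) hε)
  rcases h.dvr 2 htw with ⟨c', hc', h3⟩ | ⟨c', hc', h3⟩
  · exact h2 c' hc' h3
  · set x := oM O L M ϖ with hxdef
    have e1 : τ x = (1 + ε) * x := by
      have h4 : τ x = (τ x - x) + x := by ring
      rw [h4, hτϖ]
      ring
    have e2 : τ (1 + ε) * (1 + ε) = 1 := by
      have h4 : τ (τ x) = x := hτ x
      rw [e1, map_mul, e1, ← mul_assoc] at h4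
      have h5 : (τ (1 + ε) * (1 + ε)) * x = 1 * x := by
        rw [h4, one_mul]
      exact mul_right_cancel₀ hϖ h5
    have e3 : τ (1 + ε) = (1 + ε) + d * x := by
      have h4 : τ (1 + ε) = (τ (1 + ε) - (1 + ε)) + (1 + ε) := by ring
      rw [h4, hd1, pow_one]
      ring
    rw [e3] at e2
    have e4 : x * (c' - c' * (1 + ε) - (1 + ε) * d) = ε * ε := by
      have h5 : ε * ε = ((1 + ε) + d * x) * (1 + ε) - 2 * (1 + ε) + 1 - (1 + ε) * d * x := by ring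
      rw [h5, e2]
      have h6 : (1 : M) - 2 * (1 + ε) + 1 - (1 + ε) * d * x = 2 - 2 * (1 + ε) - (1 + ε) * d * x := by
        ring
      rw [h6, h3]
      ring
    refine h.nonunit ((c' - c' * (1 + ε) - (1 + ε) * d) * (ε' * ε')) ?_ ?_
    · exact Subring.mul_mem _ (Subring.sub_mem _ (Subring.sub_mem _ hc' (Subring.mul_mem _ hc'
        (Subring.add_mem _ (Subring.one_mem _) hε))) (Subring.mul_mem _ (Subring.add_mem _
        (Subring.one_mem _) hε) hd)) (Subring.mul_mem _ hε' hε')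
    · rw [← mul_assoc, ← hxdef, e4]
      have h7 : ε * ε * (ε' * ε') = (ε * ε') * (ε * ε') := by ring
      rw [h7, hεε, one_mul]
-- END R3

end Use

end Pool.Agent.Lib.MP_6a3dac_ag.QD
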