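import Pool.Agent.Lib.MP_6a3dac_ag.QD.Pt

/-!
# Homogeneous generators of the centres
-/

set_option autoImplicit false
set_option linter.unusedSectionVars false

namespace Pool.Agent.Lib.MP_6a3dac_ag.QD

open MvPolynomial CategoryTheory Limits AlgebraicGeometry IsLocalRing
open Pool.Agent.Lib.MP_6a3dac_ag Pool.Agent.Lib.MP_6a3dac_ag.DNF Pool.Agent.Lib.MP_6a3dac_ag.Bert

variable {O : Type} [CommRing O] {n : ℕ} {I : HomIdeal O (n + 1)} {F : Type} [Field F]
  {κ : MvPolynomial (Fin (n + 1)) O →+* F}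

-- BEGIN Q1
/-- TASK Q1. Write `f = ∑ c_g * g` (`Submodule.span_induction`, or `mem_ideal_span_iff`..) and apply
`q ↦ dehF κ i (dehom i q)`, a ring homomorphism with values in `locY I κ y` (its values on constants
and variables are in `locY`: `C_mem_locY`, `div_mem_locY`): by `kap_eq` it maps `f` to
`κ f / κ (X i) ^ k` and `g` to `κ g / κ (X i) ^ d g`. (`κ (X i) ≠ 0` as `X i ∉ ptIdeal I y ≥ I.ideal`.)
Prove by induction, for every `q ∈ Ideal.span T`: `dehF κ i (dehom i q)` is the image of an element of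
the ideal. -/
theorem frac_mem_span (hκ : ∀ G, κ G = 0 ↔ G ∈ I.ideal) {T : Set (MvPolynomial (Fin (n + 1)) O)}
    {d : MvPolynomial (Fin (n + 1)) O → ℕ} (hT : ∀ g ∈ T, g.IsHomogeneous (d g))
    {f : MvPolynomial (Fin (n + 1)) O} {k : ℕ} (hf : f.IsHomogeneous k)
    (hfT : f ∈ Ideal.span T) {y : hProj I} {i : Fin (n + 1)} (hi : X i ∉ ptIdeal I y) :
    ∃ a ∈ Ideal.span {a : locY I κ y | ∃ g ∈ T, (a : F) = κ g / κ (X i) ^ d g},
      (a : F) = κ f / κ (X i) ^ k := by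
  have hi0 : κ (X i) ≠ 0 := fun h => hi ((ptIdeal_spec I y).2.1 ((hκ _).1 h))
  let φ : MvPolynomial (Fin (n + 1)) O →+* F := (dehF κ i).comp (dehom i : _ →ₐ[O] _).toRingHom
  have hφ : ∀ q, φ q = dehF κ i (dehom i q) := fun q => rfl
  have hφh : ∀ {m : ℕ} {g : MvPolynomial (Fin (n + 1)) O}, g.IsHomogeneous m →
      φ g = κ g / κ (X i) ^ m := by
    intro m g hg
    rw [eq_div_iff (pow_ne_zero _ hi0), mul_comm, hφ]
    exact (kap_eq κ hi0 hg).symm
  have hmem : ∀ q, φ q ∈ locY I κ y := by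
    intro q
    induction q using MvPolynomial.induction_on with
    | C a =>
      rw [hφh (isHomogeneous_C _ a), pow_zero, div_one]
      exact C_mem_locY y a
    | add a b ha hb => rw [map_add]; exact (locY I κ y).add_mem ha hb
    | mul_X a l ha =>
      rw [map_mul]
      refine (locY I κ y).mul_mem ha ?_
      rw [hφh (isHomogeneous_X O l), pow_one]
      exact div_mem_locY hκ (isHomogeneous_X O l) (isHomogeneous_X O i) hi
  let ψ : MvPolynomial (Fin (n + 1)) O →+* locY I κ y := φ.codRestrict (locY I κ y) hmem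
  have hψ : ∀ q, (ψ q : F) = φ q := fun q => rfl
  refine ⟨ψ f, ?_, by rw [hψ, hφh hf]⟩
  have h1 : ψ f ∈ (Ideal.span T).map ψ := Ideal.mem_map_of_mem ψ hfT
  rw [Ideal.map_span] at h1
  refine Ideal.span_mono ?_ h1
  rintro _ ⟨g, hg, rfl⟩
  exact ⟨g, hg, by rw [hψ, hφh (hT g hg)]⟩
-- END Q1

variable [hloc : ∀ y : hProj I, IsLocalRing (locY I κ y)]

-- BEGIN Q2
/-- TASK Q2. If `G` is homogeneous of degree `k` and in `ptIdeal I y'` then `κ G / κ (X i) ^ k` is in the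
maximal ideal of `locY I κ y'` (`div_mem_locY`, `isUnit_locY_iff`). -/
theorem frac_mem_max (hκ : ∀ G, κ G = 0 ↔ G ∈ I.ideal) {y : hProj I} {i : Fin (n + 1)}
    (hi : X i ∉ ptIdeal I y) {k : ℕ} {G : MvPolynomial (Fin (n + 1)) O} (hG : G.IsHomogeneous k)
    (hGy : G ∈ ptIdeal I y) :
    ∃ a ∈ maximalIdeal (locY I κ y), (a : F) = κ G / κ (X i) ^ k := by
  have hi0 : κ (X i) ≠ 0 := fun h => hi ((ptIdeal_spec I y).2.1 ((hκ _).1 h))
  have hXk : (X i ^ k : MvPolynomial (Fin (n + 1)) O).IsHomogeneous k := by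
    simpa using (isHomogeneous_X O i).pow k
  have hXy : (X i ^ k : MvPolynomial (Fin (n + 1)) O) ∉ ptIdeal I y :=
    fun h => hi ((ptIdeal_spec I y).1.mem_of_pow_mem _ h)
  have hm : κ G / κ (X i) ^ k ∈ locY I κ y := by
    rw [← map_pow]
    exact div_mem_locY hκ hG hXk hXy
  refine ⟨⟨_, hm⟩, ?_, rfl⟩
  rw [mem_maximalIdeal, mem_nonunits_iff]
  intro hu
  obtain ⟨b, hb⟩ := hu.exists_right_inv
  have h1 := (isUnit_locY_iff hκ hG hXk hXy (z := κ G / κ (X i) ^ k) (by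
    rw [map_pow]
    exact div_mul_cancel₀ _ (pow_ne_zero _ hi0))).1 ⟨b, b.2, congrArg Subtype.val hb⟩
  exact h1 hGy

/-- TASK Q2. The same for a homogeneous polynomial not in `ptIdeal I y`: a unit. -/
theorem frac_isUnit (hκ : ∀ G, κ G = 0 ↔ G ∈ I.ideal) {y : hProj I} {i : Fin (n + 1)}
    (hi : X i ∉ ptIdeal I y) {k : ℕ} {G : MvPolynomial (Fin (n + 1)) O} (hG : G.IsHomogeneous k)
    (hGy : G ∉ ptIdeal I y) :
    ∃ a : locY I κ y, IsUnit a ∧ (a : F) = κ G / κ (X i) ^ k := by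
  have hi0 : κ (X i) ≠ 0 := fun h => hi ((ptIdeal_spec I y).2.1 ((hκ _).1 h))
  have hXk : (X i ^ k : MvPolynomial (Fin (n + 1)) O).IsHomogeneous k := by
    simpa using (isHomogeneous_X O i).pow k
  have hXy : (X i ^ k : MvPolynomial (Fin (n + 1)) O) ∉ ptIdeal I y :=
    fun h => hi ((ptIdeal_spec I y).1.mem_of_pow_mem _ h)
  have hm : κ G / κ (X i) ^ k ∈ locY I κ y := by
    rw [← map_pow]
    exact div_mem_locY hκ hG hXk hXy
  refine ⟨⟨_, hm⟩, ?_, rfl⟩
  obtain ⟨w, hw, hw1⟩ := (isUnit_locY_iff hκ hG hXk hXy (z := κ G / κ (X i) ^ k) (by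
    rw [map_pow]
    exact div_mul_cancel₀ _ (pow_ne_zero _ hi0))).2 hGy
  exact IsUnit.of_mul_eq_one ⟨w, hw⟩ (Subtype.ext hw1)

private theorem q2_frac (hκ : ∀ G, κ G = 0 ↔ G ∈ I.ideal) {y : hProj I} {i : Fin (n + 1)}
    (hi : X i ∉ ptIdeal I y) {k : ℕ} {G : MvPolynomial (Fin (n + 1)) O} (hG : G.IsHomogeneous k) :
    ∃ a : locY I κ y, (a : F) = κ G / κ (X i) ^ k := by
  have hXk : (X i ^ k : MvPolynomial (Fin (n + 1)) O).IsHomogeneous k := by
    simpa using (isHomogeneous_X O i).pow k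
  have hXy : (X i ^ k : MvPolynomial (Fin (n + 1)) O) ∉ ptIdeal I y :=
    fun h => hi ((ptIdeal_spec I y).1.mem_of_pow_mem _ h)
  have hm : κ G / κ (X i) ^ k ∈ locY I κ y := by
    rw [← map_pow]
    exact div_mem_locY hκ hG hXk hXy
  exact ⟨⟨_, hm⟩, rfl⟩

/-- TASK Q2. A polynomial which is in the `N`-th powers of the maximal ideals at finitely many closed
points different from `y` and does not vanish at `y`: the product of the `N`-th powers of the
polynomials of `exists_separating` (Bert/Pts.lean), induction on the finite set; `frac_mem_max`. -/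
theorem exists_sep_pow (hκ : ∀ G, κ G = 0 ↔ G ∈ I.ideal) {S : Set (hProj I)} (hS : S.Finite)
    (hcl : S ⊆ closedPoints (hProj I)) {y : hProj I} (hy : y ∉ S) (N : ℕ) :
    ∃ (t : ℕ) (T : MvPolynomial (Fin (n + 1)) O), T.IsHomogeneous t ∧ T ∉ ptIdeal I y ∧
      ∀ y' ∈ S, ∀ i, X i ∉ ptIdeal I y' → ∃ a ∈ maximalIdeal (locY I κ y') ^ N,
        (a : F) = κ T / κ (X i) ^ t := by
  revert hcl hy
  induction S, hS using Set.Finite.induction_on with
  | empty =>
    intro _ _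
    exact ⟨0, 1, isHomogeneous_one _ _,
      fun h => (ptIdeal_spec I y).1.ne_top ((Ideal.eq_top_iff_one _).mpr h),
      fun y' hy' => absurd hy' (Set.notMem_empty _)⟩
  | @insert y₀ S hy₀ hS ih =>
    intro hcl hy
    obtain ⟨t, T, hT, hTy, hTS⟩ := ih (fun z hz => hcl (Set.mem_insert_of_mem _ hz))
      (fun h => hy (Set.mem_insert_of_mem _ h))
    have hne : y ≠ y₀ := fun h => hy (h ▸ Set.mem_insert _ _)
    obtain ⟨k, G, hG, hGy₀, hGy⟩ := exists_separating I (hcl (Set.mem_insert _ _)) hne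
    have hp := (ptIdeal_spec I y).1
    refine ⟨t + k * N, T * G ^ N, hT.mul (hG.pow N), fun h => ?_, ?_⟩
    · rcases hp.mem_or_mem h with h | h
      · exact hTy h
      · exact hGy (hp.mem_of_pow_mem _ h)
    · intro y' hy' i hi
      have hi0 : κ (X i) ≠ 0 := fun h => hi ((ptIdeal_spec I y').2.1 ((hκ _).1 h))
      rcases Set.mem_insert_iff.1 hy' with rfl | hy'
      · obtain ⟨a, ha, ha'⟩ := frac_mem_max hκ hi hG hGy₀
        obtain ⟨b, hb⟩ := q2_frac hκ hi hT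
        refine ⟨b * a ^ N, Ideal.mul_mem_left _ _ (Ideal.pow_mem_pow ha N), ?_⟩
        push_cast
        rw [ha', hb, map_mul, map_pow, div_pow, ← pow_mul, div_mul_div_comm, ← pow_add]
      · obtain ⟨a, ha, ha'⟩ := hTS y' hy' i hi
        obtain ⟨b, hb⟩ := q2_frac hκ hi (hG.pow N)
        refine ⟨b * a, Ideal.mul_mem_left _ _ ha, ?_⟩
        push_cast
        rw [ha', hb, map_mul, mul_comm (κ T), div_mul_div_comm, ← pow_add, add_comm t]
-- END Q2

-- BEGIN Q3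
/-- TASK Q3. **Homogeneous generators.** Let `U` be the set of the polynomials `f` such that for some `k`
`f` is homogeneous of degree `k` and for all `y ∈ S`, `X i ∉ ptIdeal I y` the fraction
`κ f / κ (X i) ^ k` is (the image of an element) in `𝔠 y`. As `O[x]` is noetherian there is a finite
`T ⊆ U` with `Ideal.span T = Ideal.span U` (`Submodule.fg_span_iff_fg_span_finset_subset` or
`Ideal.fg_of_isNoetherianRing` and `Submodule.exists_finset_span_eq..`); `d g` = the degree chosen.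
* `y ∈ S`, `a ∈ 𝔠 y`: `a * κ H = κ G`, `G, H` homogeneous of degree `k`, `H ∉ ptIdeal I y`
  (`mem_locY`). Take `T'` of degree `t` for `S \ {y}` and `N` (`exists_sep_pow`). `f = G * T' ∈ U`: at
  `y' ≠ y` its fraction is in `maximalIdeal ^ N ≤ 𝔠 y'`; at `y` it is
  `a * (κ H / κ (X i) ^ k) * (κ T' / κ (X i) ^ t) ∈ 𝔠 y`. By `frac_mem_span` it is in the ideal spanned by the
  fractions of `T`, and `a` is its product with a unit (`frac_isUnit`).
* `y ∉ S`: `T'` of `exists_sep_pow` is in `U`, so in `Ideal.span T`; if `T ⊆ ptIdeal I y` then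
  `T' ∈ ptIdeal I y`. -/
theorem exists_gens_cen [IsNoetherianRing O] (hκ : ∀ G, κ G = 0 ↔ G ∈ I.ideal)
    {S : Set (hProj I)} (hS : S.Finite) (hcl : S ⊆ closedPoints (hProj I))
    (𝔠 : ∀ y : hProj I, Ideal (locY I κ y)) {N : ℕ}
    (hN : ∀ y ∈ S, maximalIdeal (locY I κ y) ^ N ≤ 𝔠 y) :
    ∃ (T : Finset (MvPolynomial (Fin (n + 1)) O)) (d : MvPolynomial (Fin (n + 1)) O → ℕ),
      (∀ g ∈ T, g.IsHomogeneous (d g)) ∧
      (∀ y ∈ S, ∀ i, X i ∉ ptIdeal I y →
        𝔠 y = Ideal.span {a : locY I κ y | ∃ g ∈ T, (a : F) = κ g / κ (X i) ^ d g}) ∧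
      ∀ y ∉ S, ∃ g ∈ T, g ∉ ptIdeal I y := by
  classical
  let P : MvPolynomial (Fin (n + 1)) O → ℕ → Prop := fun f k =>
    f.IsHomogeneous k ∧ ∀ y ∈ S, ∀ i, X i ∉ ptIdeal I y →
      ∃ a ∈ 𝔠 y, (a : F) = κ f / κ (X i) ^ k
  let U : Set (MvPolynomial (Fin (n + 1)) O) := {f | ∃ k, P f k}
  have hfg : (Submodule.span (MvPolynomial (Fin (n + 1)) O) U).FG := IsNoetherian.noetherian _
  obtain ⟨T, hTU, hspan⟩ := (Submodule.fg_span_iff_fg_span_finset_subset U).mp hfg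
  have hU : ∀ g ∈ U, ∃ k, P g k := fun g hg => hg
  choose! d hd using hU
  have hTd : ∀ g ∈ T, P g (d g) := fun g hg => hd g (hTU hg)
  have hspan' : ∀ f ∈ U, f ∈ Ideal.span (T : Set (MvPolynomial (Fin (n + 1)) O)) := by
    intro f hf
    have h1 : f ∈ Submodule.span (MvPolynomial (Fin (n + 1)) O) U := Submodule.subset_span hf
    rw [hspan] at h1
    exact h1
  refine ⟨T, d, fun g hg => (hTd g hg).1, ?_, ?_⟩
  · intro y hy i hi
    apply le_antisymm
    · intro a ha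
      obtain ⟨k, G, H, hG, hH, hHy, haG⟩ := (mem_locY I κ).mp a.2
      obtain ⟨t, T', hT', hT'y, hT's⟩ := exists_sep_pow (κ := κ) hκ
        (S := S \ {y}) (hS.subset Set.sdiff_subset) (Set.sdiff_subset.trans hcl)
        (y := y) (fun h => h.2 rfl) N
      have hf : P (G * T') (k + t) := by
        refine ⟨hG.mul hT', ?_⟩
        intro y' hy' i' hi'
        have hX : κ (X i') ≠ 0 := fun h => hi' ((ptIdeal_spec I y').2.1 ((hκ _).mp h))
        by_cases hyy : y' = y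
        · subst hyy
          obtain ⟨u1, -, hu1⟩ := frac_isUnit (κ := κ) hκ hi' hH hHy
          obtain ⟨u2, -, hu2⟩ := frac_isUnit (κ := κ) hκ hi' hT' hT'y
          refine ⟨a * u1 * u2, Ideal.mul_mem_right _ _ (Ideal.mul_mem_right _ _ ha), ?_⟩
          rw [Subring.coe_mul, Subring.coe_mul, hu1, hu2, map_mul, ← haG, pow_add]
          field_simp
        · obtain ⟨b, hb, hb'⟩ := hT's y' ⟨hy', hyy⟩ i' hi'
          have hc : κ G / κ (X i' ^ k) ∈ locY I κ y' :=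
            div_mem_locY hκ hG (isHomogeneous_X_pow i' k) (fun h =>
              hi' ((ptIdeal_spec I y').1.mem_of_pow_mem k h))
          refine ⟨⟨_, hc⟩ * b, Ideal.mul_mem_left _ _ (hN y' hy' hb), ?_⟩
          show κ G / κ (X i' ^ k) * (b : F) = κ (G * T') / κ (X i') ^ (k + t)
          rw [hb', map_mul, pow_add, map_pow]
          field_simp
      obtain ⟨a', ha', ha''⟩ := frac_mem_span (κ := κ) hκ
        (T := (T : Set (MvPolynomial (Fin (n + 1)) O))) (d := d)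
        (fun g hg => (hTd g hg).1) hf.1 (hspan' _ ⟨_, hf⟩) hi
      obtain ⟨u1, hu1u, hu1⟩ := frac_isUnit (κ := κ) hκ hi hH hHy
      obtain ⟨u2, hu2u, hu2⟩ := frac_isUnit (κ := κ) hκ hi hT' hT'y
      have hX : κ (X i) ≠ 0 := fun h => hi ((ptIdeal_spec I y).2.1 ((hκ _).mp h))
      have e : a * (u1 * u2) = a' := by
        apply Subtype.ext
        rw [Subring.coe_mul, Subring.coe_mul, hu1, hu2, ha'', map_mul, ← haG, pow_add]
        field_simp
      obtain ⟨v, hv⟩ := (hu1u.mul hu2u).exists_right_inv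
      have e2 : a = a' * v := by rw [← e, mul_assoc, hv, mul_one]
      rw [e2]
      exact Ideal.mul_mem_right _ _ ha'
    · rw [Ideal.span_le]
      rintro a ⟨g, hg, hag⟩
      obtain ⟨a', ha', ha''⟩ := (hTd g hg).2 y hy i hi
      have : a = a' := Subtype.ext (hag.trans ha''.symm)
      rw [this]
      exact ha'
  · intro y hy
    by_contra hcon
    push Not at hcon
    obtain ⟨t, T', hT', hT'y, hT's⟩ := exists_sep_pow (κ := κ) hκ hS hcl hy N
    have hf : P T' t := ⟨hT', fun y' hy' i' hi' => by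
      obtain ⟨b, hb, hb'⟩ := hT's y' hy' i' hi'
      exact ⟨b, hN y' hy' hb, hb'⟩⟩
    have h1 := hspan' T' ⟨t, hf⟩
    have h2 : Ideal.span (T : Set (MvPolynomial (Fin (n + 1)) O)) ≤ ptIdeal I y := by
      rw [Ideal.span_le]
      exact fun g hg => hcon g hg
    exact hT'y (h2 h1)
-- END Q3

-- BEGIN Q4
/-- TASK Q4. Equal degrees. `T j`, `d j` from `exists_gens_cen` for `j ∈ Icc 1 r` (empty otherwise),
`δ = 1 + ∑ j, ∑ g ∈ T j, d j g`, `G j = {X l ^ (δ - d j g) * g | g ∈ T j}`. The fraction of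
`X l ^ (δ - d) * g` is `(κ (X l) / κ (X i)) ^ (δ - d)` (in `locY`, `div_mem_locY`; `1` for `l = i`) times the
fraction of `g`. For `y ∉ S` take `l` with `X l ∉ ptIdeal I y` (`ptIdeal_spec`, as in
`exists_atPt`). -/
theorem exists_centre3 [IsNoetherianRing O] (hκ : ∀ G, κ G = 0 ↔ G ∈ I.ideal)
    {S : Set (hProj I)} (hS : S.Finite) (hcl : S ⊆ closedPoints (hProj I)) {r N : ℕ}
    (𝔠 : ℕ → ∀ y : hProj I, Ideal (locY I κ y))
    (hN : ∀ j ∈ Finset.Icc 1 r, ∀ y ∈ S, maximalIdeal (locY I κ y) ^ N ≤ 𝔠 j y) :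
    ∃ (δ : ℕ) (G : ℕ → Finset (MvPolynomial (Fin (n + 1)) O)), 1 ≤ δ ∧
      (∀ j, ∀ g ∈ G j, g.IsHomogeneous δ) ∧
      (∀ j ∈ Finset.Icc 1 r, ∀ y ∈ S, ∀ i, X i ∉ ptIdeal I y →
        𝔠 j y = Ideal.span {a : locY I κ y | ∃ g ∈ G j, (a : F) = κ g / κ (X i) ^ δ}) ∧
      ∀ j ∈ Finset.Icc 1 r, ∀ y ∉ S, ∃ g ∈ G j, g ∉ ptIdeal I y := by
  classical
  have hex : ∀ j : ℕ, ∃ (T : Finset (MvPolynomial (Fin (n + 1)) O))
      (d : MvPolynomial (Fin (n + 1)) O → ℕ), (j ∉ Finset.Icc 1 r → T = ∅) ∧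
      (j ∈ Finset.Icc 1 r → (∀ g ∈ T, g.IsHomogeneous (d g)) ∧
      (∀ y ∈ S, ∀ i, X i ∉ ptIdeal I y →
        𝔠 j y = Ideal.span {a : locY I κ y | ∃ g ∈ T, (a : F) = κ g / κ (X i) ^ d g}) ∧
      ∀ y ∉ S, ∃ g ∈ T, g ∉ ptIdeal I y) := by
    intro j
    by_cases hj : j ∈ Finset.Icc 1 r
    · obtain ⟨T, d, h1, h2, h3⟩ := exists_gens_cen hκ hS hcl (𝔠 j) (hN j hj)
      exact ⟨T, d, fun h => absurd hj h, fun _ => ⟨h1, h2, h3⟩⟩
    · exact ⟨∅, fun _ => 0, fun _ => rfl, fun h => absurd h hj⟩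
  choose T d hempty hT using hex
  obtain ⟨δ, hδ⟩ : ∃ δ : ℕ, δ = 1 + ∑ j ∈ Finset.Icc 1 r, ∑ g ∈ T j, d j g := ⟨_, rfl⟩
  have hdle : ∀ j ∈ Finset.Icc 1 r, ∀ g ∈ T j, d j g ≤ δ := by
    intro j hj g hg
    have h1 : d j g ≤ ∑ g ∈ T j, d j g :=
      Finset.single_le_sum (f := fun g => d j g) (fun _ _ => Nat.zero_le _) hg
    have h2 : ∑ g ∈ T j, d j g ≤ ∑ j ∈ Finset.Icc 1 r, ∑ g ∈ T j, d j g :=
      Finset.single_le_sum (f := fun j => ∑ g ∈ T j, d j g) (fun _ _ => Nat.zero_le _) hj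
    omega
  let G : ℕ → Finset (MvPolynomial (Fin (n + 1)) O) := fun j =>
    (T j ×ˢ (Finset.univ : Finset (Fin (n + 1)))).image fun p => X p.2 ^ (δ - d j p.1) * p.1
  have hG : ∀ j f, f ∈ G j ↔ ∃ g ∈ T j, ∃ l : Fin (n + 1), X l ^ (δ - d j g) * g = f := by
    intro j f
    constructor
    · intro h
      obtain ⟨p, hp, hpf⟩ := Finset.mem_image.mp h
      exact ⟨p.1, (Finset.mem_product.mp hp).1, p.2, hpf⟩
    · rintro ⟨g, hg, l, hl⟩
      exact Finset.mem_image.mpr ⟨(g, l), Finset.mem_product.mpr ⟨hg, Finset.mem_univ _⟩, hl⟩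
  refine ⟨δ, G, by omega, ?_, ?_, ?_⟩
  · intro j f hf
    obtain ⟨g, hg, l, rfl⟩ := (hG j f).mp hf
    by_cases hj : j ∈ Finset.Icc 1 r
    · have h1 := (isHomogeneous_X_pow (R := O) l (δ - d j g)).mul ((hT j hj).1 g hg)
      rwa [Nat.sub_add_cancel (hdle j hj g hg)] at h1
    · rw [hempty j hj] at hg
      exact absurd hg (Finset.notMem_empty g)
  · intro j hj y hy i hi
    have hX : κ (X i) ≠ 0 := fun h => hi ((ptIdeal_spec I y).2.1 ((hκ _).mp h))
    rw [(hT j hj).2.1 y hy i hi]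
    apply le_antisymm
    · rw [Ideal.span_le]
      rintro a ⟨g, hg, hag⟩
      apply Ideal.subset_span
      refine ⟨X i ^ (δ - d j g) * g, (hG j _).mpr ⟨g, hg, i, rfl⟩, ?_⟩
      rw [hag, map_mul, map_pow]
      have e : κ (X i) ^ δ = κ (X i) ^ (δ - d j g) * κ (X i) ^ (d j g) := by
        rw [← pow_add, Nat.sub_add_cancel (hdle j hj g hg)]
      rw [e]
      field_simp
    · rw [Ideal.span_le]
      rintro a ⟨f, hf, haf⟩
      obtain ⟨g, hg, l, rfl⟩ := (hG j f).mp hf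
      have hpX : ∀ k : ℕ, X i ^ k ∉ ptIdeal I y := fun k h =>
        hi ((ptIdeal_spec I y).1.mem_of_pow_mem k h)
      have hc : κ g / κ (X i ^ (d j g)) ∈ locY I κ y :=
        div_mem_locY hκ ((hT j hj).1 g hg) (isHomogeneous_X_pow i _) (hpX _)
      have hc' : κ (X l ^ (δ - d j g)) / κ (X i ^ (δ - d j g)) ∈ locY I κ y :=
        div_mem_locY hκ (isHomogeneous_X_pow l _) (isHomogeneous_X_pow i _) (hpX _)
      have e : κ (X i) ^ δ = κ (X i) ^ (δ - d j g) * κ (X i) ^ (d j g) := by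
        rw [← pow_add, Nat.sub_add_cancel (hdle j hj g hg)]
      have ha : a = ⟨_, hc'⟩ * ⟨_, hc⟩ := by
        apply Subtype.ext
        show (a : F) = κ (X l ^ (δ - d j g)) / κ (X i ^ (δ - d j g)) * (κ g / κ (X i ^ (d j g)))
        rw [haf, map_mul, map_pow, map_pow, map_pow, e]
        field_simp
      rw [ha]
      refine Ideal.mul_mem_left _ _ (Ideal.subset_span ⟨g, hg, ?_⟩)
      show κ g / κ (X i ^ (d j g)) = κ g / κ (X i) ^ (d j g)
      rw [map_pow]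
  · intro j hj y hy
    obtain ⟨g, hg, hgy⟩ := (hT j hj).2.2 y hy
    obtain ⟨l, hl⟩ := (ptIdeal_spec I y).2.2.2
    refine ⟨X l ^ (δ - d j g) * g, (hG j _).mpr ⟨g, hg, l, rfl⟩, ?_⟩
    exact (ptIdeal_spec I y).1.mul_notMem
      (fun h => hl ((ptIdeal_spec I y).1.mem_of_pow_mem _ h)) hgy
-- END Q4

end Pool.Agent.Lib.MP_6a3dac_ag.QD
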