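import Pool.Agent.Lib.MP_6a3dac_ag.QD.ChNF

/-!
# The first kind of charts: `ϖ ^ n` divides the parameters
-/

set_option autoImplicit false
set_option linter.unusedSectionVars false

namespace Pool.Agent.Lib.MP_6a3dac_ag.QD

open IsLocalRing

section CaseI

variable {D : Type} [CommRing D] [IsDomain D] [IsLocalRing D] {A : Subring D}
  [IsRegularLocalRing A] {ι : Type} [Fintype ι] [DecidableEq ι] {ϖ ε : A} {n : ℕ}
  {x z : ι → A} {M : ι → ι → A} {α e : ι → A} {x' T c : ι → D}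

/-- The data of the first case: `x = ϖ ^ n x'`, and `x + z = (τ ϖ) ^ n (x' + ϖ ^ n T)`. -/
structure IHyp (h : NFHyp A ϖ ε n x z M α e) (x' T c : ι → D) : Prop where
  hx : ∀ i, (ϖ : D) ^ n * x' i = x i
  mem : ∀ i, T i ∈ R₁ A x'
  memc : ∀ i, c i ∈ R₁ A x'
  eq : ∀ i, (x i : D) + z i = ((ϖ : D) + ε * (ϖ : D) ^ (n + 1)) ^ n * (x' i + (ϖ : D) ^ n * T i)
  eqT : ∀ i, T i = ∑ l, (M i l : D) * x' l ^ 2 + ε * x' i + α i + ϖ * c i

-- BEGIN D1
theorem d1_err (h : NFHyp A ϖ ε n x z M α e) (hx : ∀ i, (ϖ : D) ^ n * x' i = x i) (i : ι) :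
    ∃ c ∈ R₁ A x', (e i : D) = (ϖ : D) ^ (2 * n + 1) * c := by
  have hA : A ≤ R₁ A x' := le_R₁ x'
  have hpos := h.pos
  have hX : Ideal.span (Set.range x) ≤ mulId (R₁ A x') hA ((ϖ : D) ^ n) := by
    rw [Ideal.span_le]
    rintro _ ⟨i, rfl⟩
    exact ⟨x' i, mem_R₁ x' i, (hx i).symm⟩
  have hϖ1 : ∀ k, Ideal.span {ϖ ^ k} ≤ mulId (R₁ A x') hA ((ϖ : D) ^ k) := by
    intro k
    rw [Ideal.span_le, Set.singleton_subset_iff]
    exact ⟨1, Subring.one_mem _, by simp⟩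
  have herr : Err ϖ n x ≤ mulId (R₁ A x') hA ((ϖ : D) ^ (2 * n + 1)) := by
    unfold Err
    refine sup_le (sup_le ?_ ?_) ?_
    · have h1 := mul_le_mulId (hϖ1 1) (pow_le_mulId hX 2)
      have e1 : (ϖ : D) ^ 1 * ((ϖ : D) ^ n) ^ 2 = (ϖ : D) ^ (2 * n + 1) := by
        rw [← pow_mul, ← pow_add]
        congr 1
        ring
      rw [e1, pow_one] at h1
      exact h1
    · refine (pow_le_mulId hX 3).trans (mulId_mono (c := (ϖ : D) ^ (n - 1))
        (Subring.pow_mem _ (hA ϖ.2) _) ?_)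
      rw [← pow_mul, ← pow_add]
      congr 1
      omega
    · have h1 := mul_le_mulId (hϖ1 (n + 1)) hX
      have e1 : (ϖ : D) ^ (n + 1) * (ϖ : D) ^ n = (ϖ : D) ^ (2 * n + 1) := by
        rw [← pow_add]
        congr 1
        ring
      rw [e1] at h1
      exact h1
  obtain ⟨q, hq, h1⟩ := herr (h.err i)
  exact ⟨q, hq, h1⟩

/-- TASK D1. The elements `T`. With `η = 1 + ε ϖ ^ n`, `η ^ n = 1 + ϖ ^ n ζ`, `2 = u ϖ ^ n`, `x = ϖ ^ n x'`:
`x + z - η ^ n x = ∑ M x² - (u + ζ) ϖ ^ n x + α ϖ ^ (2 n) + e = ϖ ^ (2 n) s`, where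
`s = ∑ M x'² - (u + ζ) x' + α + ϖ c'`, since `Err` lies in `mulId R₁ (ϖ ^ (2 n + 1))`. Put
`T = s / η ^ n` (`η` is a unit of `A`), `η ^ n ≡ 1` modulo `ϖ`. Finally
`u + ζ = (2 n + 1) ε + m + ϖ b = - ε + 2 (n + 1) ε + m + ϖ b`, and `m` is a combination of `ϖ` and
the `x i = ϖ ^ n x' i` (`NFHyp.exists_coeff`), `2 = u ϖ ^ n`. -/
theorem exists_iHyp (h : NFHyp A ϖ ε n x z M α e) (hx : ∀ i, (ϖ : D) ^ n * x' i = x i) :
    ∃ T c : ι → D, IHyp h x' T c := by
  classical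
  have hA : A ≤ R₁ A x' := le_R₁ x'
  have hpos := h.pos
  obtain ⟨k, hk⟩ : ∃ k, n = k + 1 := ⟨n - 1, by omega⟩
  choose c' hc' hec using d1_err h hx
  obtain ⟨ζ, b, hζ, hζb⟩ := h.exists_zeta n
  obtain ⟨u, m, h2, hum, hm⟩ := h.exists_two
  obtain ⟨c₀, d, hmd⟩ := h.exists_coeff hm
  obtain ⟨η', hη'⟩ := h.isUnit_eta.exists_right_inv
  -- everything in `D`
  have Dζ : ((1 : D) + ε * (ϖ : D) ^ n) ^ n = 1 + (ϖ : D) ^ n * ζ := by
    have := congrArg (fun a : A => (a : D)) hζ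
    simpa using this
  have Dζb : (ζ : D) = n * ε + ϖ * b := by
    have := congrArg (fun a : A => (a : D)) hζb
    simpa using this
  have D2 : (2 : D) = u * (ϖ : D) ^ n := by
    have := congrArg (fun a : A => (a : D)) h2
    have e2 : ((2 : A) : D) = 2 := rfl
    simpa [e2] using this
  have Du : (u : D) = (n + 1) * ε + m := by
    have := congrArg (fun a : A => (a : D)) hum
    simpa using this
  have Dm : (m : D) = c₀ * ϖ + ∑ i, (d i : D) * x i := by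
    have := congrArg A.subtype hmd
    rw [map_add, map_sum] at this
    simpa using this
  have Dη : ((1 : D) + ε * (ϖ : D) ^ n) * η' = 1 := by
    have := congrArg (fun a : A => (a : D)) hη'
    simpa using this
  have Dz : ∀ i, (z i : D) = ∑ l, (M i l : D) * (x l : D) ^ 2 - 2 * x i +
      α i * (ϖ : D) ^ (2 * n) + e i := by
    intro i
    have := congrArg (fun a : A => (a : D)) (h.eq i)
    have e2 : ((2 : A) : D) = 2 := rfl
    simpa [e2] using this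
  -- the element `κ`
  obtain ⟨κ, hκ⟩ : ∃ κ : D, κ = u * (ϖ : D) ^ k * (n + 1) * ε + c₀ +
      ∑ i, d i * ((ϖ : D) ^ k * x' i) + b := ⟨_, rfl⟩
  have hκR : κ ∈ R₁ A x' := by
    rw [hκ]
    refine Subring.add_mem _ (Subring.add_mem _ (Subring.add_mem _ ?_ (hA c₀.2)) ?_) (hA b.2)
    · refine Subring.mul_mem _ (Subring.mul_mem _ (Subring.mul_mem _ (hA u.2)
        (Subring.pow_mem _ (hA ϖ.2) _)) ?_) (hA ε.2)
      exact Subring.add_mem _ (natCast_mem _ n) (Subring.one_mem _)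
    · exact Subring.sum_mem _ fun i _ => Subring.mul_mem _ (hA (d i).2)
        (Subring.mul_mem _ (Subring.pow_mem _ (hA ϖ.2) _) (mem_R₁ x' i))
  have huz : (u : D) + ζ = -ε + ϖ * κ := by
    have hsum : ∑ i, (d i : D) * x i = ϖ * ∑ i, (d i : D) * ((ϖ : D) ^ k * x' i) := by
      rw [Finset.mul_sum]
      refine Finset.sum_congr rfl fun i _ => ?_
      rw [← hx i, hk, pow_succ]
      ring
    have h4 : (ϖ : D) ^ n = (ϖ : D) ^ k * ϖ := by rw [hk, pow_succ]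
    have h2ε : (2 : D) * ((n + 1) * ε) = u * (ϖ : D) ^ k * ϖ * ((n + 1) * ε) := by
      calc (2 : D) * ((n + 1) * ε) = (u * (ϖ : D) ^ n) * ((n + 1) * ε) := by rw [← D2]
        _ = _ := by rw [h4]; ring
    rw [hκ]
    linear_combination Du + Dζb + Dm + hsum + h2ε
  -- the element `s`
  obtain ⟨s, hs⟩ : ∃ s : ι → D, s = fun i => ∑ l, (M i l : D) * x' l ^ 2 + ε * x' i + α i +
      ϖ * (c' i - κ * x' i) := ⟨_, rfl⟩
  have hsR : ∀ i, s i ∈ R₁ A x' := by
    intro i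
    rw [hs]
    refine Subring.add_mem _ (Subring.add_mem _ (Subring.add_mem _ ?_ ?_) (hA (α i).2)) ?_
    · exact Subring.sum_mem _ fun l _ => Subring.mul_mem _ (hA (M i l).2)
        (Subring.pow_mem _ (mem_R₁ x' l) _)
    · exact Subring.mul_mem _ (hA ε.2) (mem_R₁ x' i)
    · exact Subring.mul_mem _ (hA ϖ.2) (Subring.sub_mem _ (hc' i)
        (Subring.mul_mem _ hκR (mem_R₁ x' i)))
  have hseq : ∀ i, (z i : D) - (ϖ : D) ^ n * ζ * x i = (ϖ : D) ^ (2 * n) * s i := by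
    intro i
    have hsum : ∑ l, (M i l : D) * (x l : D) ^ 2 =
        (ϖ : D) ^ (2 * n) * ∑ l, (M i l : D) * x' l ^ 2 := by
      rw [Finset.mul_sum]
      refine Finset.sum_congr rfl fun l _ => ?_
      rw [← hx l]
      ring
    have h2x : (2 : D) * x i = (ϖ : D) ^ (2 * n) * (u * x' i) := by
      conv_lhs => rw [D2, ← hx i]
      ring
    have hzx : (ϖ : D) ^ n * ζ * x i = (ϖ : D) ^ (2 * n) * (ζ * x' i) := by
      rw [← hx i]
      ring
    rw [Dz i, hzx, hsum, h2x, hec i, hs]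
    simp only
    rw [pow_succ (ϖ : D) (2 * n)]
    linear_combination -((ϖ : D) ^ (2 * n) * x' i) * huz
  -- inverse of `η ^ n`
  have hη'n : ((1 : D) + ε * (ϖ : D) ^ n) ^ n * (η' : D) ^ n = 1 := by
    rw [← mul_pow, Dη, one_pow]
  have hη'1 : (η' : D) ^ n = 1 + ϖ * (-((η' : D) ^ n * (ϖ : D) ^ k * ζ)) := by
    have h3 : (1 + (ϖ : D) ^ n * ζ) * (η' : D) ^ n = 1 := by rw [← Dζ]; exact hη'n
    have h4 : (ϖ : D) ^ n = (ϖ : D) ^ k * ϖ := by rw [hk, pow_succ]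
    have h5 : (1 + (ϖ : D) ^ k * ϖ * ζ) * (η' : D) ^ n = 1 := by rw [← h4]; exact h3
    linear_combination h5
  refine ⟨fun i => s i * (η' : D) ^ n, fun i => (c' i - κ * x' i) +
    (-((η' : D) ^ n * (ϖ : D) ^ k * ζ)) * s i, ⟨hx, ?_, ?_, ?_, ?_⟩⟩
  · intro i
    exact Subring.mul_mem _ (hsR i) (Subring.pow_mem _ (hA η'.2) _)
  · intro i
    refine Subring.add_mem _ (Subring.sub_mem _ (hc' i) (Subring.mul_mem _ hκR (mem_R₁ x' i)))
      (Subring.mul_mem _ (Subring.neg_mem _ (Subring.mul_mem _ (Subring.mul_mem _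
        (Subring.pow_mem _ (hA η'.2) _) (Subring.pow_mem _ (hA ϖ.2) _)) (hA ζ.2))) (hsR i))
  · intro i
    have e1 : ((ϖ : D) + ε * (ϖ : D) ^ (n + 1)) ^ n =
        (ϖ : D) ^ n * ((1 : D) + ε * (ϖ : D) ^ n) ^ n := by
      rw [← mul_pow]
      congr 1
      ring
    have h6 := hseq i
    rw [e1]
    have h7 : (ϖ : D) ^ n * ((1 : D) + ε * (ϖ : D) ^ n) ^ n * (x' i + (ϖ : D) ^ n *
        (s i * (η' : D) ^ n)) = ((1 : D) + ε * (ϖ : D) ^ n) ^ n * ((ϖ : D) ^ n * x' i) +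
        (ϖ : D) ^ (2 * n) * s i * (((1 : D) + ε * (ϖ : D) ^ n) ^ n * (η' : D) ^ n) := by
      ring
    rw [h7, hη'n, hx i, Dζ, mul_one, ← h6]
    ring
  · intro i
    conv_lhs => rw [hη'1]
    have h8 : s i * (1 + ϖ * (-((η' : D) ^ n * (ϖ : D) ^ k * ζ))) =
        s i + ϖ * ((-((η' : D) ^ n * (ϖ : D) ^ k * ζ)) * s i) := by ring
    rw [h8]
    conv_lhs => rw [hs]
    simp only
    rw [hs]
    simp only
    ring
-- END D1

variable {h : NFHyp A ϖ ε n x z M α e}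

theorem IHyp.exists_eq (hI : IHyp h x' T c) {k : ℕ} (hk : k ≤ n) (i : ι) :
    ∃ q ∈ R₁ A x', (x i : D) = (ϖ : D) ^ k * q := by
  refine ⟨(ϖ : D) ^ (n - k) * x' i, Subring.mul_mem _ (Subring.pow_mem _ (le_R₁ x' ϖ.2) _)
    (mem_R₁ x' i), ?_⟩
  rw [← hI.hx, ← mul_assoc, ← pow_add, Nat.add_sub_cancel' hk]

/-- The generators of the maximal ideal. -/
def gI (ϖ : A) (T : ι → D) (o : Option ι) : D := o.elim (ϖ : D) T

theorem IHyp.gI_mem (hI : IHyp h x' T c) (o : Option ι) : gI ϖ T o ∈ R₁ A x' := by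
  rcases o with _ | i
  · exact le_R₁ x' ϖ.2
  · exact hI.mem i

-- BEGIN D2
theorem d2_gen (hI : IHyp h x' T c) (i : ι) :
    ((z i - ((1 + ε * ϖ ^ n) ^ n - 1) * x i : A) : D) =
      (((1 + ε * ϖ ^ n) ^ n : A) : D) * ((ϖ : D) ^ (2 * n) * T i) := by
  have h1 := hI.eq i
  have h2 : ((ϖ : D) + ε * (ϖ : D) ^ (n + 1)) = (ϖ : D) * (((1 + ε * ϖ ^ n : A)) : D) := by
    push_cast
    ring
  rw [h2, mul_pow] at h1
  have h3 := hI.hx i
  push_cast at h1 ⊢
  rw [two_mul, pow_add]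
  linear_combination h1 + ((1 + (ε : D) * (ϖ : D) ^ n) ^ n) * h3

/-- TASK D2 (two statements). The last ideal. The generators are `z - (η ^ n - 1) x = ϖ ^ (2 n) η ^ n T` and
`ϖ ^ (2 n + 1)`. -/
theorem IHyp.lId_eq (hI : IHyp h x' T c) {y : A} (hy : y ∈ lId ϖ ε n x z) :
    ∃ a : Option ι → D, (∀ o, a o ∈ R₁ A x') ∧ (y : D) = (ϖ : D) ^ (2 * n) * ∑ o, a o * gI ϖ T o := by
  rw [lId, Ideal.mem_span_insert] at hy
  obtain ⟨c0, y', hy', rfl⟩ := hy
  obtain ⟨d, rfl⟩ := (Ideal.mem_span_range_iff_exists_fun).mp hy'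
  refine ⟨fun o => o.elim (c0 : D) fun i => ((d i * (1 + ε * ϖ ^ n) ^ n : A) : D), ?_, ?_⟩
  · rintro (_ | i)
    · exact le_R₁ x' c0.2
    · exact le_R₁ x' (d i * (1 + ε * ϖ ^ n) ^ n : A).2
  · rw [Fintype.sum_option]
    have hsum : ((∑ i, d i * (z i - ((1 + ε * ϖ ^ n) ^ n - 1) * x i) : A) : D) =
        ∑ i, (d i : D) * ((((1 + ε * ϖ ^ n) ^ n : A) : D) * ((ϖ : D) ^ (2 * n) * T i)) := by
      rw [AddSubmonoidClass.coe_finsetSum]
      refine Finset.sum_congr rfl fun i _ => ?_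
      rw [Subring.coe_mul, d2_gen hI i]
    rw [Subring.coe_add, hsum, mul_add, Finset.mul_sum]
    congr 1
    · change ((c0 * ϖ ^ (2 * n + 1) : A) : D) = (ϖ : D) ^ (2 * n) * ((c0 : D) * (ϖ : D))
      push_cast
      ring
    · refine Finset.sum_congr rfl fun i _ => ?_
      change _ = (ϖ : D) ^ (2 * n) * (((d i * (1 + ε * ϖ ^ n) ^ n : A) : D) * T i)
      rw [Subring.coe_mul]
      ring

theorem IHyp.mem_lId (hI : IHyp h x' T c) (o : Option ι) :
    (ϖ : D) ^ (2 * n) * gI ϖ T o ∈ (lId ϖ ε n x z).map A.subtype := by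
  rcases o with _ | i
  · have h1 : (ϖ : D) ^ (2 * n) * gI ϖ T none = A.subtype (ϖ ^ (2 * n + 1)) := by
      rw [pow_succ, map_mul, map_pow]
      rfl
    rw [h1]
    exact Ideal.mem_map_of_mem _ (Ideal.subset_span (Set.mem_insert _ _))
  · obtain ⟨η', hη'⟩ := (h.isUnit_eta.pow n).exists_left_inv
    have h1 : (ϖ : D) ^ (2 * n) * gI ϖ T (some i) =
        (η' : D) * A.subtype (z i - ((1 + ε * ϖ ^ n) ^ n - 1) * x i) := by
      change (ϖ : D) ^ (2 * n) * T i = (η' : D) *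
        ((z i - ((1 + ε * ϖ ^ n) ^ n - 1) * x i : A) : D)
      rw [d2_gen hI i, ← mul_assoc, ← Subring.coe_mul, hη', Subring.coe_one, one_mul]
    rw [h1]
    exact Ideal.mul_mem_left _ _ (Ideal.mem_map_of_mem _
      (Ideal.subset_span (Set.mem_insert_of_mem _ ⟨i, rfl⟩)))
-- END D2

-- BEGIN D3
/-- TASK D3. The `T i` and `ϖ` generate the maximal ideal of `R₁` if they lie in the maximal ideal of `D`:
`maximalIdeal_le_of_sq` for the ideal `N` generated by the `gI`. The ring `sqRing` contains `A`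
(`h.perf`, and the maximal ideal of `A` lies in `N`, as `x = ϖ ^ n x'`, `n ≥ 1`), and
`x' i = ε⁻¹ (T i - ∑ M x'² - α - ϖ c)`. `R₁` is noetherian by `NFHyp.tower₁`. -/
theorem IHyp.exists_max (hI : IHyp h x' T c) (hT : ∀ i, T i ∈ maximalIdeal D) {y : D}
    (hy : y ∈ R₁ A x') (hym : y ∈ maximalIdeal D) :
    ∃ a : Option ι → D, (∀ o, a o ∈ R₁ A x') ∧ y = ∑ o, a o * gI ϖ T o := by
  classical
  have hdom : Dom (R₁ A x') := dom_dcl _
  obtain ⟨s, hs⟩ := h.tower₁ hI.hx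
  have hno : IsNoetherianRing (R₁ A x') := hs.noeth
  have hloc : IsLocalRing (R₁ A x') := hdom.isLocalRing
  obtain ⟨g, hg⟩ : ∃ g : Option ι → R₁ A x', ∀ o, (g o : D) = gI ϖ T o :=
    ⟨fun o => ⟨gI ϖ T o, hI.gI_mem o⟩, fun _ => rfl⟩
  obtain ⟨N, hN⟩ : ∃ N : Ideal (R₁ A x'), N = Ideal.span (Set.range g) := ⟨_, rfl⟩
  have hgN : ∀ o, g o ∈ N := fun o => by rw [hN]; exact Ideal.subset_span ⟨o, rfl⟩
  have hpos := h.pos
  obtain ⟨j, hj⟩ : ∃ j : A → R₁ A x', ∀ a, ((j a : R₁ A x') : D) = a :=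
    ⟨fun a => ⟨a, le_R₁ x' a.2⟩, fun _ => rfl⟩
  obtain ⟨X, hX⟩ : ∃ X : ι → R₁ A x', ∀ i, (X i : D) = x' i :=
    ⟨fun i => ⟨x' i, mem_R₁ x' i⟩, fun _ => rfl⟩
  obtain ⟨C, hC⟩ : ∃ C : ι → R₁ A x', ∀ i, (C i : D) = c i :=
    ⟨fun i => ⟨c i, hI.memc i⟩, fun _ => rfl⟩
  -- multiples of `ϖ`
  have hϖN : ∀ b : R₁ A x', j ϖ * b ∈ N := by
    intro b
    have e : j ϖ = g none := Subtype.ext (by rw [hj, hg]; rfl)
    rw [e]
    exact N.mul_mem_right _ (hgN none)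
  have h2N : (2 : R₁ A x') ∈ N := by
    obtain ⟨u, m, hu, -, -⟩ := h.exists_two
    obtain ⟨n', rfl⟩ : ∃ n', n = n' + 1 := ⟨n - 1, by omega⟩
    have e : (2 : R₁ A x') = j ϖ * (j u * j ϖ ^ n') := by
      apply Subtype.ext
      have e2 : ((2 : R₁ A x') : D) = ((2 : A) : D) := rfl
      rw [e2, hu]
      push_cast
      rw [hj, hj]; ring
    rw [e]
    exact hϖN _
  have hmN : ∀ a : A, a ∈ maximalIdeal A → j a ∈ N := by
    intro a ha
    obtain ⟨c', d, rfl⟩ := h.exists_coeff ha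
    obtain ⟨n', hn'⟩ : ∃ n', n = n' + 1 := ⟨n - 1, by omega⟩
    have e : j (c' * ϖ + ∑ i, d i * x i) = j ϖ * (j c' + ∑ i, j (d i) * (j ϖ ^ n' * X i)) := by
      apply Subtype.ext
      push_cast
      simp only [hj, hX]
      push_cast
      rw [mul_add, Finset.mul_sum, mul_comm (c' : D)]
      congr 1
      refine Finset.sum_congr rfl fun i _ => ?_
      rw [← hI.hx i, hn', pow_succ]; ring
    rw [e]
    exact hϖN _
  have hNle : N ≤ maximalIdeal (R₁ A x') := by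
    rw [hN, Ideal.span_le]
    rintro _ ⟨o, rfl⟩
    refine (hdom.mem_maximalIdeal _).2 ?_
    rw [hg]
    rcases o with _ | i
    · exact h.unif_mem
    · exact hT i
  have hNsq : ∀ b : R₁ A x', b ∈ N → (b : D) ∈ sqRing hdom N h2N := by
    intro b hb
    refine ⟨b.2, 0, ?_⟩
    have e : (⟨(b : D), b.2⟩ : R₁ A x') - 0 ^ 2 = b := by
      apply Subtype.ext; simp
    rw [e]
    exact hb
  have hAsq : ∀ a : A, (a : D) ∈ sqRing hdom N h2N := by
    intro a
    obtain ⟨c', hc'⟩ := h.perf a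
    refine ⟨le_R₁ x' a.2, j c', ?_⟩
    have e : (⟨(a : D), le_R₁ x' a.2⟩ : R₁ A x') - j c' ^ 2 = j (a - c' ^ 2) := by
      apply Subtype.ext
      push_cast
      simp only [hj]
      push_cast
      rfl
    rw [e]
    exact hmN _ hc'
  have hX2 : ∀ i, x' i ^ 2 ∈ sqRing hdom N h2N := by
    intro i
    refine ⟨Subring.pow_mem _ (mem_R₁ x' i) 2, X i, ?_⟩
    have e : (⟨x' i ^ 2, Subring.pow_mem _ (mem_R₁ x' i) 2⟩ : R₁ A x') - X i ^ 2 = 0 := by
      apply Subtype.ext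
      push_cast
      rw [hX]
      simp
    rw [e]
    exact N.zero_mem
  obtain ⟨ε', hε'⟩ := h.unit.exists_right_inv
  have hε'D : (ε : D) * ε' = 1 := by exact_mod_cast congrArg (fun z : A => (z : D)) hε'
  have hXsq : ∀ i, x' i ∈ sqRing hdom N h2N := by
    intro i
    have e : x' i = ε' * (T i - ∑ l, (M i l : D) * x' l ^ 2 - α i - ϖ * c i) := by
      have := hI.eqT i
      rw [this]
      linear_combination (-(x' i)) * hε'D
    rw [e]
    refine Subring.mul_mem _ (hAsq ε') ?_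
    refine Subring.sub_mem _ (Subring.sub_mem _ (Subring.sub_mem _ ?_ ?_) (hAsq _)) ?_
    · have := hNsq _ (hgN (some i))
      rw [hg] at this
      exact this
    · exact Subring.sum_mem _ fun l _ => Subring.mul_mem _ (hAsq _) (hX2 l)
    · have := hNsq _ (hϖN (C i))
      push_cast at this
      rwa [hj, hC] at this
  have hsq : R₁ A x' ≤ sqRing hdom N h2N := by
    refine dcl_le (dom_sqRing hdom N h2N) ?_
    rintro z (hz | ⟨i, rfl⟩)
    · exact hAsq ⟨z, hz⟩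
    · exact hXsq i
  have hmax := maximalIdeal_le_of_sq hdom hNle hsq
  have hyN : (⟨y, hy⟩ : R₁ A x') ∈ Ideal.span (Set.range g) := by
    rw [← hN]
    exact hmax ((hdom.mem_maximalIdeal _).2 hym)
  obtain ⟨a, ha⟩ := (Ideal.mem_span_range_iff_exists_fun).mp hyN
  refine ⟨fun o => a o, fun o => (a o).2, ?_⟩
  have := congrArg (fun z : R₁ A x' => (z : D)) ha
  simp only at this
  rw [← this]
  push_cast
  refine Finset.sum_congr rfl fun o _ => ?_
  rw [hg]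
-- END D3

-- BEGIN D4
theorem d4_zeta (h : NFHyp A ϖ ε n x z M α e) : ∃ ζ b : A,
    (1 + (ε : D) * (ϖ : D) ^ n) ^ n = 1 + (ϖ : D) ^ n * ζ ∧ (ζ : D) = n * ε + ϖ * b := by
  obtain ⟨ζ, b, h1, h2⟩ := h.exists_zeta n
  refine ⟨ζ, b, ?_, ?_⟩
  · have := congrArg (fun z : A => (z : D)) h1
    push_cast at this
    exact this
  · have := congrArg (fun z : A => (z : D)) h2
    push_cast at this
    exact this

theorem d4_pow (ϖ ε : D) (n : ℕ) : (ϖ + ε * ϖ ^ (n + 1)) ^ n = ϖ ^ n * (1 + ε * ϖ ^ n) ^ n := by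
  rw [← mul_pow]; congr 1; ring

/-- TASK D4 (two statements). The involution on `x'`: apply `τ` to `ϖ ^ n x' = x` and use
`hI.eq`. -/
theorem IHyp.tau_x (hI : IHyp h x' T c) {τ : D →+* D} (hτ : ∀ d, τ (τ d) = d)
    (hϖ : τ ϖ = ϖ + ε * ϖ ^ (n + 1)) (hx : ∀ i, τ (x i) = x i + z i) (i : ι) :
    τ (x' i) - x' i = (ϖ : D) ^ n * T i := by
  have hu : (1 + (ε : D) * (ϖ : D) ^ n) ≠ 0 := by
    have h1 := (h.isUnit_eta.map A.subtype).ne_zero
    have h2 : A.subtype (1 + ε * ϖ ^ n) = 1 + (ε : D) * (ϖ : D) ^ n := by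
      push_cast [Subring.coe_subtype]; rfl
    rwa [h2] at h1
  have h0 : ((ϖ : D) + ε * (ϖ : D) ^ (n + 1)) ^ n ≠ 0 := by
    rw [d4_pow]
    exact mul_ne_zero (pow_ne_zero _ h.unif_ne_zero) (pow_ne_zero _ hu)
  have h1 := congrArg τ (hI.hx i)
  rw [map_mul, map_pow, hϖ, hx, hI.eq] at h1
  have h2 := mul_left_cancel₀ h0 h1
  rw [h2]; ring

/-- `τ T = - T / η ^ n` (apply `τ` to `τ x' = x' + ϖ ^ n T`), and `- 1 / η ^ n = 1 + ϖ ^ n l` with `l = - (u + ζ) / η ^ n`,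
`u + ζ ≡ - ε` modulo `ϖ D`. -/
theorem IHyp.tau_T (hI : IHyp h x' T c) {τ : D →+* D} (hτ : ∀ d, τ (τ d) = d)
    (hϖ : τ ϖ = ϖ + ε * ϖ ^ (n + 1)) (hx : ∀ i, τ (x i) = x i + z i) :
    ∃ l : D, (∃ b, l = ε + ϖ * b) ∧ ∀ i, τ (T i) = T i * (1 + (ϖ : D) ^ n * l) := by
  obtain ⟨ζ, b, hζ, hζ2⟩ := d4_zeta h
  obtain ⟨u, m, hu, hum, hm⟩ := h.exists_two
  obtain ⟨c', d, hmc⟩ := h.exists_coeff hm
  have hpos := h.pos
  obtain ⟨n', hn'⟩ : ∃ n', n = n' + 1 := ⟨n - 1, by omega⟩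
  -- `m` is a multiple of `ϖ`
  obtain ⟨m', hm'⟩ : ∃ m' : D, (m : D) = ϖ * m' := by
    refine ⟨c' + ∑ i, (d i : D) * ((ϖ : D) ^ n' * x' i), ?_⟩
    rw [hmc]
    push_cast
    rw [mul_add, Finset.mul_sum, mul_comm (c' : D)]
    congr 1
    refine Finset.sum_congr rfl fun i _ => ?_
    rw [← hI.hx i, hn', pow_succ]; ring
  have huD : (2 : D) = u * (ϖ : D) ^ n := by
    have := congrArg (fun z : A => (z : D)) hu
    push_cast at this
    exact this
  have humD : (u : D) = (n + 1) * ε + m := by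
    have := congrArg (fun z : A => (z : D)) hum
    push_cast at this
    exact this
  -- the unit
  have hηu : IsUnit ((1 + (ε : D) * (ϖ : D) ^ n) ^ n) := by
    have h1 := (h.isUnit_eta.map A.subtype)
    have h2 : A.subtype (1 + ε * ϖ ^ n) = 1 + (ε : D) * (ϖ : D) ^ n := by
      push_cast [Subring.coe_subtype]; rfl
    rw [h2] at h1
    exact h1.pow n
  obtain ⟨ρ, hρ⟩ := hηu.exists_right_inv
  have hρ1 : ρ = 1 - (ϖ : D) ^ n * ζ * ρ := by
    rw [hζ] at hρ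
    linear_combination hρ
  have hϖn : (ϖ : D) ^ n = ϖ * (ϖ : D) ^ n' := by rw [hn', pow_succ]; ring
  refine ⟨-(u + ζ) * ρ, ?_, ?_⟩
  · -- `- (u + ζ) = ε + ϖ b₁`
    obtain ⟨b₁, hb₁⟩ : ∃ b₁ : D, -((u : D) + ζ) = ε + ϖ * b₁ := by
      refine ⟨-((n + 1) * ε * u * (ϖ : D) ^ n') - m' - b, ?_⟩
      rw [humD, hζ2, hm']
      rw [humD, hm'] at huD
      rw [hϖn] at huD
      linear_combination (-((n : D) + 1) * ε) * huD
    obtain ⟨b₂, hb₂⟩ : ∃ b₂ : D, ρ = 1 + ϖ * b₂ := by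
      refine ⟨-((ϖ : D) ^ n' * ζ * ρ), ?_⟩
      conv_lhs => rw [hρ1]
      rw [hϖn]; ring
    refine ⟨ε * b₂ + b₁ * ρ, ?_⟩
    rw [hb₁]
    linear_combination (ε : D) * hb₂
  · intro i
    have h1 := hI.tau_x hτ hϖ hx i
    have h2 := congrArg τ h1
    rw [map_sub, hτ, map_mul, map_pow, hϖ, d4_pow] at h2
    have h3 : (ϖ : D) ^ n * ((1 + (ε : D) * (ϖ : D) ^ n) ^ n * τ (T i)) = (ϖ : D) ^ n * (-(T i)) := by
      linear_combination -h2 - h1
    have h4 := mul_left_cancel₀ (pow_ne_zero n h.unif_ne_zero) h3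
    have h5 : τ (T i) = -(T i) * ρ := by
      linear_combination ρ * h4 - τ (T i) * hρ
    rw [h5]
    have h6 : (1 + (ε : D) * (ϖ : D) ^ n) ^ n * ρ = 1 := hρ
    rw [hζ] at h6
    linear_combination (T i) * h6 - (T i) * ρ * huD
-- END D4

-- BEGIN D5
/-- TASK D5. The differences of the elements of `A`: `z = (η ^ n - 1) x + ϖ ^ (2 n) η ^ n T` is a multiple of
`ϖ ^ (2 n)`, and `2 n ≥ n + 1`. -/
theorem IHyp.tau_A (hI : IHyp h x' T c) {τ : D →+* D}
    (hA : ∀ a : A, τ a - a ∈ (Ideal.span (insert (ϖ ^ (n + 1)) (Set.range z))).map A.subtype)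
    (a : D) (ha : a ∈ A) : ∃ b, τ a - a = b * (ϖ : D) ^ (n + 1) := by
  have hpos := h.pos
  have h1 : (Ideal.span (insert (ϖ ^ (n + 1)) (Set.range z))).map A.subtype ≤
      Ideal.span {(ϖ : D) ^ (n + 1)} := by
    rw [Ideal.map_le_iff_le_comap, Ideal.span_le]
    rintro y (rfl | ⟨i, rfl⟩)
    · change ((ϖ ^ (n + 1) : A) : D) ∈ Ideal.span {(ϖ : D) ^ (n + 1)}
      push_cast
      exact Ideal.mem_span_singleton_self _
    · change (z i : D) ∈ Ideal.span {(ϖ : D) ^ (n + 1)}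
      obtain ⟨ζ, b, hζ, -⟩ := h.exists_zeta n
      have hζD : (1 + (ε : D) * (ϖ : D) ^ n) ^ n = 1 + (ϖ : D) ^ n * ζ := by
        have := congrArg (fun z : A => (z : D)) hζ
        push_cast at this
        exact this
      have h2 := hI.eq i
      have h3 : ((ϖ : D) + ε * (ϖ : D) ^ (n + 1)) ^ n =
          (ϖ : D) ^ n * (1 + (ϖ : D) ^ n * ζ) := by
        rw [← hζD, ← mul_pow]; congr 1; ring
      rw [h3] at h2
      obtain ⟨k, hk⟩ : ∃ k, n = k + 1 := ⟨n - 1, by omega⟩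
      refine Ideal.mem_span_singleton'.2
        ⟨(ϖ : D) ^ k * (ζ * x' i + T i * (1 + (ϖ : D) ^ n * ζ)), ?_⟩
      have h4 : (ϖ : D) ^ k * (ϖ : D) ^ (n + 1) = (ϖ : D) ^ n * (ϖ : D) ^ n := by
        rw [← pow_add, ← pow_add]; congr 1; omega
      have h5 := hI.hx i
      linear_combination (ζ * x' i + T i * (1 + (ϖ : D) ^ n * ζ)) * h4 - h2 - h5
  obtain ⟨b, hb⟩ := Ideal.mem_span_singleton'.1 (h1 (hA ⟨a, ha⟩))
  exact ⟨b, hb.symm⟩
-- END D5

/-- **The first case.** -/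
theorem wild_local₁ (h : NFHyp A ϖ ε n x z M α e) (b : ℕ → A)
    (hb0 : ∀ j ≤ 2 * n, (b j : D) ≠ 0) (hbm : ∀ j ≤ 2 * n, b j ∈ cen ϖ ε n x z j)
    (hbd : ∀ j ≤ 2 * n, ∀ y ∈ cen ϖ ε n x z j, (b j : D) ∣ y)
    (hgen : ∀ R' : Subring D, Dom R' → A ≤ R' →
      (∀ j ≤ 2 * n, ∀ y ∈ cen ϖ ε n x z j, ∀ q : D, (b j : D) * q = y → q ∈ R') → R' = ⊤)
    (hdiv : ∀ i, ∃ q, (ϖ : D) ^ n * q = x i) :
    IsRegularLocalRing D ∧ ∀ τ : D →+* D, (∀ d, τ (τ d) = d) →
      τ ϖ = ϖ + ε * ϖ ^ (n + 1) → (∀ i, τ (x i) = x i + z i) →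
      (∀ a : A, τ a - a ∈ (Ideal.span (insert (ϖ ^ (n + 1)) (Set.range z))).map A.subtype) →
      ∃ y, τ y - y ≠ 0 ∧ ∀ w, ∃ c, τ w - w = c * (τ y - y) := by
  classical
  choose x' hx' using hdiv
  obtain ⟨T, c, hI⟩ := exists_iHyp h hx'
  have hϖ0 := h.unif_ne_zero
  have hϖm := h.unif_mem
  have hpos := h.pos
  -- the last ideal has a generator among the `gI`
  have hc2 : cen ϖ ε n x z (2 * n) = lId ϖ ε n x z := by
    rw [cen, if_neg (by omega), if_neg (by omega)]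
  obtain ⟨o, ho0, ho⟩ := exists_gen (I := lId ϖ ε n x z) (p := (ϖ : D) ^ (2 * n)) (g := gI ϖ T)
    (fun y hy => by
      obtain ⟨a, -, ha⟩ := hI.lId_eq hy
      exact ⟨a, ha⟩) hI.mem_lId (hb0 (2 * n) le_rfl) (hc2 ▸ hbm (2 * n) le_rfl)
    (hc2 ▸ hbd (2 * n) le_rfl)
  choose q hq using ho
  -- the ring generated by the quotients
  obtain ⟨R, hR⟩ : ∃ R, R = dcl ((R₁ A x' : Set D) ∪ Set.range q) := ⟨_, rfl⟩
  have hRdom : Dom R := hR ▸ dom_dcl _
  have hR₁R : R₁ A x' ≤ R := by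
    rw [hR]
    exact fun _ hz => subset_dcl _ (Or.inl hz)
  have hqR : ∀ i, q i ∈ R := by
    rw [hR]
    exact fun i => subset_dcl _ (Or.inr ⟨i, rfl⟩)
  have hAR : A ≤ R := (le_R₁ x').trans hR₁R
  have hxR : ∀ {k : ℕ}, k ≤ n → ∀ i, ∃ q ∈ R, (x i : D) = (ϖ : D) ^ k * q := by
    intro k hk i
    obtain ⟨q, hq, h1⟩ := hI.exists_eq hk i
    exact ⟨q, hR₁R hq, h1⟩
  have htop : R = ⊤ := by
    refine hgen R hRdom hAR ?_
    intro j hj
    by_cases hj1 : j < n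
    · have hc : cen ϖ ε n x z j = aId ϖ x (j + 1) := by rw [cen, if_pos hj1]
      intro y hy q hq
      exact (h.pr_aId hAR (hxR (k := j + 1) (by omega))).mem hRdom (hb0 j hj)
        (hc ▸ hbm j hj) (hc ▸ hbd j hj) (hc ▸ hy) hq
    · by_cases hj2 : j < 2 * n
      · have hc : cen ϖ ε n x z j = kId ϖ x z (j - n + 1) := by rw [cen, if_neg hj1, if_pos hj2]
        intro y hy q hq
        exact (h.pr_kId hAR (k := j - n + 1) (by omega) (by omega)
          (hxR (k := j - n + 1) (by omega))).mem hRdom (hb0 j hj)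
          (hc ▸ hbm j hj) (hc ▸ hbd j hj) (hc ▸ hy) hq
      · have hj3 : j = 2 * n := by omega
        subst hj3
        intro y hy q' hq'
        have hpr : Pr R (lId ϖ ε n x z) ((ϖ : D) ^ (2 * n) * gI ϖ T o) := by
          refine ⟨fun y hy => ?_, hI.mem_lId o⟩
          obtain ⟨a, haR, ha⟩ := hI.lId_eq hy
          have hsum : ∑ i, a i * gI ϖ T i = gI ϖ T o * ∑ i, a i * q i := by
            rw [Finset.mul_sum]
            refine Finset.sum_congr rfl fun i _ => ?_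
            rw [hq i]; ring
          refine ⟨∑ i, a i * q i, Subring.sum_mem _ fun i _ => Subring.mul_mem _ (hR₁R (haR i))
            (hqR i), ?_⟩
          rw [ha, hsum, mul_assoc]
        exact hpr.mem hRdom (hb0 _ le_rfl) (hc2 ▸ hbm _ le_rfl) (hc2 ▸ hbd _ le_rfl) (hc2 ▸ hy) hq'
  by_cases hTm : ∀ i, T i ∈ maximalIdeal D
  · -- the exceptional point
    constructor
    · obtain ⟨s, hs⟩ := h.tower₁ hI.hx
      obtain ⟨s', hs'⟩ := exists_blow_dcl (R := R₁ A x') hs (gI ϖ T) q hI.gI_mem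
        (fun o => by
          rcases o with _ | i
          · exact hϖm
          · exact hTm i)
        (fun y hy hym => hI.exists_max hTm hy hym) ho0 (fun i => (hq i).symm)
      exact isRegularLocalRing_of_top hs' (by rw [← hR, htop])
    · intro τ hτ hτϖ hτx hτA
      obtain ⟨l, ⟨b, hl⟩, hlT⟩ := hI.tau_T hτ hτϖ hτx
      have hεu : IsUnit (ε : D) := h.unit.map A.subtype
      have hlu : IsUnit l := by
        by_contra hcon
        have h1 : (ε : D) ∈ maximalIdeal D := by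
          have h2 : (ε : D) = l - ϖ * b := by rw [hl]; ring
          rw [h2]
          exact Ideal.sub_mem _ ((IsLocalRing.mem_maximalIdeal _).mpr hcon)
            (Ideal.mul_mem_right _ _ hϖm)
        rw [IsLocalRing.mem_maximalIdeal, mem_nonunits_iff] at h1
        exact h1 hεu
      refine principal_of_eigen hτ (R := R₁ A x') (g := gI ϖ T) (q := q)
        (l := fun o => o.elim (ε : D) fun _ => l) (c := (ϖ : D) ^ n) (i₀ := o)
        (pow_ne_zero _ hϖ0) ho0 (fun i => (hq i).symm) ?_ ?_ ?_ ?_ (by rw [← hR, htop])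
      · rintro (_ | i)
        · change τ ϖ = ϖ * (1 + (ϖ : D) ^ n * ε)
          rw [hτϖ]; ring
        · exact hlT i
      · rcases o with _ | i
        · exact hεu
        · exact hlu
      · have h1 : ∀ i, gI ϖ T o ∣ (ϖ : D) * i := fun i => ⟨q none * i, by
          have := hq none
          change (ϖ : D) = gI ϖ T o * q none at this
          rw [← mul_assoc, ← this]⟩
        rintro (_ | i) <;> rcases o with _ | i'
        · exact ⟨0, by simp⟩
        · change gI ϖ T (some i') ∣ (ε : D) - l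
          have : (ε : D) - l = ϖ * (-b) := by rw [hl]; ring
          rw [this]
          exact h1 _
        · change gI ϖ T none ∣ l - (ε : D)
          have : l - (ε : D) = ϖ * b := by rw [hl]; ring
          rw [this]
          exact h1 _
        · exact ⟨0, by simp⟩
      · refine diff_of_dcl (τ := τ) ?_
        rintro y (hy | ⟨i, rfl⟩)
        · obtain ⟨b', hb'⟩ := hI.tau_A hτA y hy
          refine ⟨b' * q none, ?_⟩
          have := hq none
          change (ϖ : D) = gI ϖ T o * q none at this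
          rw [hb', pow_succ]
          linear_combination (b' * (ϖ : D) ^ n) * this
        · refine ⟨q (some i), ?_⟩
          rw [hI.tau_x hτ hτϖ hτx i]
          have := hq (some i)
          change T i = gI ϖ T o * q (some i) at this
          linear_combination ((ϖ : D) ^ n) * this
  · -- the other points
    push Not at hTm
    obtain ⟨i, hi⟩ := hTm
    rw [IsLocalRing.mem_maximalIdeal, mem_nonunits_iff, not_not] at hi
    have hR₁ : R₁ A x' = ⊤ := by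
      -- `gI o` is a unit
      have hou : IsUnit (gI ϖ T o) := by
        have := hq (some i)
        change T i = gI ϖ T o * q (some i) at this
        rw [this] at hi
        exact isUnit_of_mul_isUnit_left hi
      obtain ⟨g', hg'⟩ := hou.exists_right_inv
      have hg'R : g' ∈ R₁ A x' := dom_dcl _ _ (hI.gI_mem o) g' hg'
      rw [eq_top_iff, ← htop, hR]
      refine dcl_le (dom_dcl _) ?_
      rintro y (hy | ⟨j, rfl⟩)
      · exact hy
      · have : q j = gI ϖ T j * g' := by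
          rw [hq j]
          linear_combination -(q j) * hg'
        rw [this]
        exact Subring.mul_mem _ (hI.gI_mem j) hg'R
    constructor
    · obtain ⟨s, hs⟩ := h.tower₁ hI.hx
      exact isRegularLocalRing_of_top hs hR₁
    · intro τ hτ hτϖ hτx hτA
      refine principal_of_top (R := R₁ A x') (c := (ϖ : D) ^ n) (v := x' i) (t := T i)
        (pow_ne_zero _ hϖ0) hi (hI.tau_x hτ hτϖ hτx i) ?_ hR₁
      refine diff_of_dcl (τ := τ) ?_
      rintro y (hy | ⟨j, rfl⟩)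
      · obtain ⟨b', hb'⟩ := hI.tau_A hτA y hy
        exact ⟨b' * ϖ, by rw [hb', pow_succ]; ring⟩
      · exact ⟨T j, by rw [hI.tau_x hτ hτϖ hτx j]; ring⟩

end CaseI

end Pool.Agent.Lib.MP_6a3dac_ag.QD
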