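import Pool.Agent.Lib.MP_6a3dac_ag.QD.ChNF

/-!
# The second kind of charts: the parameter `x o` divides the others at the stage `k < n`
-/

set_option autoImplicit false
set_option linter.unusedSectionVars false

namespace Pool.Agent.Lib.MP_6a3dac_ag.QD

open IsLocalRing

section CaseII

variable {D : Type} [CommRing D] [IsDomain D] [IsLocalRing D] {A : Subring D}
  [IsRegularLocalRing A] {ι : Type} [Fintype ι] [DecidableEq ι] {ϖ ε : A} {n : ℕ}
  {x z : ι → A} {M : ι → ι → A} {α e : ι → A} {o : ι} {k : ℕ} {v G T : ι → D} {x₁ w : D}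

/-- The data of the second case. -/
structure IIHyp (h : NFHyp A ϖ ε n x z M α e) (o : ι) (k : ℕ) (v : ι → D) (x₁ w : D) :
    Prop where
  lt : k < n
  hv : ∀ l, (x o : D) * v l = x l
  hx : (ϖ : D) ^ k * x₁ = x o
  hw : x₁ * w = ϖ
  mem : w ∈ maximalIdeal D

/-- The data `G` and `T`: `z = (x o) ^ 2 G`, and `x + z = (x o + z o) (v + (x o) T)`. -/
structure GTHyp {h : NFHyp A ϖ ε n x z M α e} (hII : IIHyp h o k v x₁ w) (G T : ι → D) :
    Prop where
  memG : ∀ i, G i ∈ R₂ A x₁ w v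
  memT : ∀ i, T i ∈ R₂ A x₁ w v
  eqz : ∀ i, (z i : D) = (x o : D) ^ 2 * G i
  eqG : ∀ i, ∃ a ∈ R₂ A x₁ w v, ∃ b ∈ R₂ A x₁ w v,
    G i = ∑ l, (M i l : D) * v l ^ 2 + (x o : D) * a + w * b
  eqT : ∀ i, G i - v i * G o = (1 + (x o : D) * G o) * T i

variable {h : NFHyp A ϖ ε n x z M α e}

theorem IIHyp.v_self (hII : IIHyp h o k v x₁ w) : v o = 1 := by
  have h1 := hII.hv o
  have h2 := h.x_ne_zero o
  exact mul_left_cancel₀ h2 (by rw [h1, mul_one])

/-- `x o * w = ϖ ^ (k + 1)`. -/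
theorem IIHyp.x_mul_w (hII : IIHyp h o k v x₁ w) : (x o : D) * w = (ϖ : D) ^ (k + 1) := by
  rw [← hII.hx, pow_succ, ← hII.hw]; ring

/-- `ϖ ^ n = x o * (ϖ ^ (n - k - 1) w)`. -/
theorem IIHyp.pow_eq (hII : IIHyp h o k v x₁ w) :
    (ϖ : D) ^ n = (x o : D) * ((ϖ : D) ^ (n - k - 1) * w) := by
  have h1 := hII.x_mul_w
  have h2 := hII.lt
  have h3 : n = (k + 1) + (n - k - 1) := by omega
  conv_lhs => rw [h3, pow_add, ← h1]
  ring

-- BEGIN E1
theorem e1_unit {t : D} (ht : t ∈ maximalIdeal D) : IsUnit (1 + t) := by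
  by_contra hcon
  have h1 : 1 + t ∈ maximalIdeal D := (IsLocalRing.mem_maximalIdeal _).mpr hcon
  have h2 : (1 : D) ∈ maximalIdeal D := by
    have h3 := Ideal.sub_mem _ h1 ht
    rwa [add_sub_cancel_right] at h3
  exact (Ideal.ne_top_iff_one _).1 (IsLocalRing.maximalIdeal.isMaximal D).ne_top h2

theorem e1_range_le (hII : IIHyp h o k v x₁ w) :
    Ideal.span (Set.range x) ≤ mulId (R₂ A x₁ w v) (le_R₂ x₁ w v) (x o : D) := by
  rw [Ideal.span_le]
  rintro _ ⟨i, rfl⟩
  exact ⟨v i, mem_R₂_v x₁ w v i, (hII.hv i).symm⟩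

theorem e1_err (hII : IIHyp h o k v x₁ w) {y : A} (hy : y ∈ Err ϖ n x) :
    ∃ a ∈ R₂ A x₁ w v, ∃ b ∈ R₂ A x₁ w v,
      (y : D) = (x o : D) ^ 2 * ((x o : D) * a + w * b) := by
  have hle : Err ϖ n x ≤ mulId (R₂ A x₁ w v) (le_R₂ x₁ w v) ((x o : D) ^ 3) ⊔
      mulId (R₂ A x₁ w v) (le_R₂ x₁ w v) ((x o : D) ^ 2 * w) := by
    refine sup_le (sup_le ?_ ?_) ?_
    · refine le_trans ?_ le_sup_right
      have h1 : Ideal.span {ϖ} ≤ mulId (R₂ A x₁ w v) (le_R₂ x₁ w v) w := by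
        rw [Ideal.span_le]
        rintro _ rfl
        exact ⟨x₁, mem_R₂_x x₁ w v, by rw [mul_comm]; exact hII.hw.symm⟩
      refine (mul_le_mulId h1 (pow_le_mulId (e1_range_le hII) 2)).trans ?_
      exact mulId_mono (Subring.one_mem _) (by ring)
    · exact le_trans (pow_le_mulId (e1_range_le hII) 3) le_sup_left
    · refine le_trans ?_ le_sup_right
      have h1 : Ideal.span {ϖ ^ (n + 1)} ≤
          mulId (R₂ A x₁ w v) (le_R₂ x₁ w v) ((x o : D) * w) := by
        rw [Ideal.span_le]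
        rintro _ rfl
        refine ⟨(ϖ : D) ^ (n - k - 1) * ϖ, Subring.mul_mem _ (Subring.pow_mem _
          (le_R₂ x₁ w v ϖ.2) _) (le_R₂ x₁ w v ϖ.2), ?_⟩
        have h2 := hII.pow_eq
        have h3 : ((ϖ ^ (n + 1) : A) : D) = (ϖ : D) ^ n * ϖ := by
          push_cast
          rw [pow_succ]
        rw [h3, h2]
        ring
      refine (mul_le_mulId h1 (e1_range_le hII)).trans ?_
      exact mulId_mono (Subring.one_mem _) (by ring)
  obtain ⟨y₁, ⟨a, ha, h1⟩, y₂, ⟨b, hb, h2⟩, rfl⟩ := Submodule.mem_sup.1 (hle hy)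
  refine ⟨a, ha, b, hb, ?_⟩
  rw [Subring.coe_add, h1, h2]
  ring

/-- TASK E1. The elements `G` and `T`: `z = ∑ M x² - 2 x + α ϖ ^ (2 n) + e`, with `x = (x o) v`,
`2 = u ϖ ^ n`, `ϖ ^ n = (x o) (ϖ ^ (n - k - 1) w)`, `ϖ = x₁ w`; `Err` lies in the ideal of the
elements `(x o) ^ 2 (x o a + w b)` (`a`, `b` in `R₂`). `T = (G - v (G o)) / (1 + x o G o)`, where
`1 + x o G o` is a unit of `D` in `R₂` (`x o` is in the maximal ideal of `D`). -/
theorem IIHyp.exists_gt (hII : IIHyp h o k v x₁ w) : ∃ G T : ι → D, GTHyp hII G T := by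
  have hA := le_R₂ (A := A) x₁ w v
  have hϖR : (ϖ : D) ∈ R₂ A x₁ w v := hA ϖ.2
  have hwR := mem_R₂_w (A := A) x₁ w v
  have hvR := mem_R₂_v (A := A) x₁ w v
  obtain ⟨u, m, hu, -, -⟩ := h.exists_two
  have hu2 : (2 : D) = u * (ϖ : D) ^ n := by
    have h1 := congrArg (fun t : A => (t : D)) hu
    have h2 : ((2 : A) : D) = 2 := rfl
    rw [h2] at h1
    simpa using h1
  have hpow := hII.pow_eq
  choose a haR b hbR hab using fun i => e1_err hII (h.err i)
  obtain ⟨ω, hω⟩ : ∃ ω, ω = (ϖ : D) ^ (n - k - 1) := ⟨_, rfl⟩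
  have hωR : ω ∈ R₂ A x₁ w v := hω ▸ Subring.pow_mem _ hϖR _
  rw [← hω] at hpow
  obtain ⟨B, hB⟩ : ∃ B : ι → D, B = fun i => - u * ω * v i + α i * ω * (ω * w) + b i := ⟨_, rfl⟩
  have hBR : ∀ i, B i ∈ R₂ A x₁ w v := by
    intro i
    rw [hB]
    exact Subring.add_mem _ (Subring.add_mem _ (Subring.mul_mem _ (Subring.mul_mem _
      (Subring.neg_mem _ (hA u.2)) hωR) (hvR i)) (Subring.mul_mem _ (Subring.mul_mem _ (hA (α i).2)
      hωR) (Subring.mul_mem _ hωR hwR))) (hbR i)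
  obtain ⟨G, hG⟩ : ∃ G : ι → D, G = fun i => ∑ l, (M i l : D) * v l ^ 2 + (x o : D) * a i +
    w * B i := ⟨_, rfl⟩
  have hxoR : (x o : D) ∈ R₂ A x₁ w v := hA (x o).2
  have hGR : ∀ i, G i ∈ R₂ A x₁ w v := by
    intro i
    rw [hG]
    exact Subring.add_mem _ (Subring.add_mem _ (Subring.sum_mem _ fun l _ => Subring.mul_mem _
      (hA (M i l).2) (Subring.pow_mem _ (hvR l) 2)) (Subring.mul_mem _ hxoR (haR i)))
      (Subring.mul_mem _ hwR (hBR i))
  have hun : IsUnit (1 + (x o : D) * G o) := e1_unit (Ideal.mul_mem_right _ _ (h.x_mem o))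
  obtain ⟨c, hc⟩ := hun.exists_right_inv
  have hcR : c ∈ R₂ A x₁ w v := dom_dcl _ _ (Subring.add_mem _ (Subring.one_mem _)
    (Subring.mul_mem _ hxoR (hGR o))) c hc
  refine ⟨G, fun i => (G i - v i * G o) * c, hGR, ?_, ?_, ?_, ?_⟩
  · intro i
    exact Subring.mul_mem _ (Subring.sub_mem _ (hGR i) (Subring.mul_mem _ (hvR i) (hGR o))) hcR
  · intro i
    have h1 : (z i : D) = ∑ l, (M i l : D) * (x l : D) ^ 2 - 2 * (x i : D) +
        (α i : D) * (ϖ : D) ^ (2 * n) + (e i : D) := by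
      have h2 := congrArg (fun t : A => (t : D)) (h.eq i)
      have h3 : ((2 : A) : D) = 2 := rfl
      simpa [h3] using h2
    have h4 : ∑ l, (M i l : D) * (x l : D) ^ 2 = (x o : D) ^ 2 * ∑ l, (M i l : D) * v l ^ 2 := by
      rw [Finset.mul_sum]
      refine Finset.sum_congr rfl fun l _ => ?_
      rw [← hII.hv l]
      ring
    have h5 : (ϖ : D) ^ (2 * n) = (x o : D) ^ 2 * (ω * w) ^ 2 := by
      rw [mul_comm 2 n, pow_mul, hpow]
      ring
    rw [h1, h4, h5, hab i, ← hII.hv i, hu2, hpow]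
    simp only [hG, hB]
    ring
  · intro i
    refine ⟨a i, haR i, B i, hBR i, ?_⟩
    rw [hG]
  · intro i
    linear_combination - (G i - v i * G o) * hc
-- END E1

-- BEGIN E2
/-- TASK E2 (two statements). `x o` divides the parameters and `ϖ ^ (k + 1)`. -/
theorem IIHyp.pr_aId (hII : IIHyp h o k v x₁ w) {R : Subring D} (hR : R₂ A x₁ w v ≤ R) {j : ℕ}
    (hj : k < j) : Pr R (aId ϖ x j) (x o : D) := by
  have hA : A ≤ R := (le_R₂ x₁ w v).trans hR
  constructor
  · have hle : aId ϖ x j ≤ mulId R hA (x o : D) := by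
      rw [aId, Ideal.span_le]
      rintro _ (rfl | ⟨i, rfl⟩)
      · refine ⟨w * (ϖ : D) ^ (j - (k + 1)), R.mul_mem (hR (mem_R₂_w x₁ w v))
          (R.pow_mem (hA ϖ.2) _), ?_⟩
        have h1 := hII.x_mul_w
        have h2 : j = (k + 1) + (j - (k + 1)) := by omega
        have h3 : ((ϖ ^ j : A) : D) = (ϖ : D) ^ (k + 1) * (ϖ : D) ^ (j - (k + 1)) := by
          rw [← pow_add, ← h2]
          push_cast
          rfl
        rw [h3, ← h1]
        ring
      · exact ⟨v i, hR (mem_R₂_v x₁ w v i), (hII.hv i).symm⟩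
    exact fun y hy => hle hy
  · exact Ideal.mem_map_of_mem A.subtype (x := x o)
      (Ideal.subset_span (Set.mem_insert_of_mem _ ⟨o, rfl⟩))

theorem IIHyp.exists_eq (hII : IIHyp h o k v x₁ w) {R : Subring D} (hR : R₂ A x₁ w v ≤ R)
    {j : ℕ} (hj : j ≤ k) (i : ι) : ∃ q ∈ R, (x i : D) = (ϖ : D) ^ j * q := by
  have hA : A ≤ R := (le_R₂ x₁ w v).trans hR
  refine ⟨(ϖ : D) ^ (k - j) * x₁ * v i, R.mul_mem (R.mul_mem (R.pow_mem (hA ϖ.2) _)
    (hR (mem_R₂_x x₁ w v))) (hR (mem_R₂_v x₁ w v i)), ?_⟩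
  have h1 := hII.hv i
  have h2 := hII.hx
  have h3 : (ϖ : D) ^ k = (ϖ : D) ^ j * (ϖ : D) ^ (k - j) := by
    rw [← pow_add]
    congr 1
    omega
  rw [h3] at h2
  rw [← h1, ← h2]
  ring
-- END E2

-- BEGIN E3
theorem e3_aId_le (hII : IIHyp h o k v x₁ w) {R : Subring D} (hR : R₂ A x₁ w v ≤ R) {j : ℕ}
    (hj : k < j) (hA : A ≤ R) : aId ϖ x j ≤ mulId R hA (x o : D) :=
  fun y hy => (hII.pr_aId hR hj).1 y hy

theorem e3_x_mem (j : ℕ) : x o ∈ aId ϖ x j :=
  Ideal.subset_span (Set.mem_insert_of_mem _ ⟨o, rfl⟩)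

/-- TASK E3. The ideals `kId j` for `k + 2 ≤ j`: `x i z l - x l z i ∈ (x o) ^ 3 R`, and `ϖ ^ (k + 1)` is
a multiple of `x o`. -/
theorem GTHyp.pr_kId {hII : IIHyp h o k v x₁ w} (hG : GTHyp hII G T) {R : Subring D}
    (hR : R₂ A x₁ w v ≤ R) {j : ℕ} (hj : k + 2 ≤ j) :
    Pr R (kId ϖ x z j) ((x o : D) ^ 4) := by
  have hA : A ≤ R := (le_R₂ x₁ w v).trans hR
  have ha := e3_aId_le hII hR (j := j) (by omega) hA
  have hwR : w ∈ R := hR (mem_R₂_w x₁ w v)
  have hϖR : (ϖ : D) ∈ R := hA ϖ.2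
  have hxw := hII.x_mul_w
  have hpw : ∀ i, (k + 1) ≤ i → Ideal.span {ϖ ^ i} ≤ mulId R hA (x o : D) := by
    intro i hi
    rw [Ideal.span_le]
    rintro _ rfl
    refine ⟨w * (ϖ : D) ^ (i - (k + 1)), R.mul_mem hwR (R.pow_mem hϖR _), ?_⟩
    have h2 : i = (k + 1) + (i - (k + 1)) := by omega
    have h3 : ((ϖ ^ i : A) : D) = (ϖ : D) ^ (k + 1) * (ϖ : D) ^ (i - (k + 1)) := by
      rw [← pow_add, ← h2]
      push_cast
      rfl
    rw [h3, ← hxw]
    ring
  constructor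
  · have hle : kId ϖ x z j ≤ mulId R hA ((x o : D) ^ 4) := by
      refine sup_le (sup_le ?_ ?_) ?_
      · exact pow_le_mulId ha 4
      · have h1 : Ideal.span {ϖ ^ (2 * j - 1)} ≤ mulId R hA ((x o : D) * (x o : D)) := by
          rw [Ideal.span_le]
          rintro _ rfl
          refine ⟨w * w * (ϖ : D) ^ (2 * j - 1 - (2 * (k + 1))),
            R.mul_mem (R.mul_mem hwR hwR) (R.pow_mem hϖR _), ?_⟩
          have h2 : 2 * j - 1 = (k + 1) + (k + 1) + (2 * j - 1 - (2 * (k + 1))) := by omega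
          have h3 : ((ϖ ^ (2 * j - 1) : A) : D) = (ϖ : D) ^ (k + 1) * (ϖ : D) ^ (k + 1) *
              (ϖ : D) ^ (2 * j - 1 - (2 * (k + 1))) := by
            rw [← pow_add, ← pow_add, ← h2]
            push_cast
            rfl
          rw [h3, ← hxw]
          ring
        refine (mul_le_mulId h1 (pow_le_mulId ha 2)).trans ?_
        exact mulId_mono R.one_mem (by ring)
      · have h1 : Ideal.span (Set.range fun p : ι × ι => x p.1 * z p.2 - x p.2 * z p.1) ≤
            mulId R hA ((x o : D) ^ 3) := by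
          rw [Ideal.span_le]
          rintro _ ⟨p, rfl⟩
          refine ⟨v p.1 * G p.2 - v p.2 * G p.1, R.sub_mem
            (R.mul_mem (hR (mem_R₂_v x₁ w v _)) (hR (hG.memG _)))
            (R.mul_mem (hR (mem_R₂_v x₁ w v _)) (hR (hG.memG _))), ?_⟩
          push_cast
          rw [hG.eqz p.1, hG.eqz p.2, ← hII.hv p.1, ← hII.hv p.2]
          ring
        refine (mul_le_mulId (hpw (j - 1) (by omega)) h1).trans ?_
        exact mulId_mono R.one_mem (by ring)
    exact fun y hy => hle hy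
  · have h1 : x o ^ 4 ∈ kId ϖ x z j :=
      Ideal.mem_sup_left (Ideal.mem_sup_left (Ideal.pow_mem_pow (e3_x_mem j) 4))
    have h2 := Ideal.mem_map_of_mem A.subtype h1
    rwa [map_pow] at h2
-- END E3

/-- The generators of the maximal ideal. -/
def gII (x₁ w : D) (T : ι → D) (i : Option (Option ι)) : D :=
  i.elim x₁ fun i => i.elim w T

theorem GTHyp.gII_mem {hII : IIHyp h o k v x₁ w} (hG : GTHyp hII G T)
    (i : Option (Option ι)) : gII x₁ w T i ∈ R₂ A x₁ w v := by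
  rcases i with _ | _ | i
  · exact mem_R₂_x x₁ w v
  · exact mem_R₂_w x₁ w v
  · exact hG.memT i

-- BEGIN E4
/-- The elements of `A` which are `p` times a combination of the `g i`. -/
def e4_sumId {κ : Type} [Fintype κ] (R : Subring D) (hA : A ≤ R) (p : D) (g : κ → D) :
    Ideal A where
  carrier := {y | ∃ a : κ → D, (∀ i, a i ∈ R) ∧ (y : D) = p * ∑ i, a i * g i}
  add_mem' := by
    rintro y y' ⟨a, ha, h1⟩ ⟨a', ha', h2⟩
    refine ⟨fun i => a i + a' i, fun i => R.add_mem (ha i) (ha' i), ?_⟩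
    rw [Subring.coe_add, h1, h2, ← mul_add, ← Finset.sum_add_distrib]
    congr 1
    refine Finset.sum_congr rfl fun i _ => ?_
    ring
  zero_mem' := ⟨fun _ => 0, fun _ => R.zero_mem, by simp⟩
  smul_mem' := by
    rintro c y ⟨a, ha, h1⟩
    refine ⟨fun i => c * a i, fun i => R.mul_mem (hA c.2) (ha i), ?_⟩
    rw [smul_eq_mul, Subring.coe_mul, h1, Finset.mul_sum, Finset.mul_sum, Finset.mul_sum]
    refine Finset.sum_congr rfl fun i _ => ?_
    ring

theorem e4_single {κ : Type} [Fintype κ] [DecidableEq κ] {R : Subring D} {hA : A ≤ R} {p : D}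
    {g : κ → D} {y : A} (i : κ) {c : D} (hc : c ∈ R) (hy : (y : D) = p * (c * g i)) :
    y ∈ e4_sumId R hA p g := by
  refine ⟨fun l => if l = i then c else 0, fun l => ?_, ?_⟩
  · dsimp only
    split_ifs
    · exact hc
    · exact R.zero_mem
  · rw [hy]
    simp

theorem e4_sub {κ : Type} [Fintype κ] [DecidableEq κ] {R : Subring D} {hA : A ≤ R} {p : D}
    {g : κ → D} {y : A} (i i' : κ) {c c' : D} (hc : c ∈ R) (hc' : c' ∈ R)
    (hy : (y : D) = p * (c * g i - c' * g i')) :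
    y ∈ e4_sumId R hA p g := by
  refine ⟨fun l => (if l = i then c else 0) - (if l = i' then c' else 0), fun l => ?_, ?_⟩
  · dsimp only
    refine R.sub_mem ?_ ?_
    · split_ifs
      · exact hc
      · exact R.zero_mem
    · split_ifs
      · exact hc'
      · exact R.zero_mem
  · rw [hy]
    simp [sub_mul]

theorem e4_pair {hII : IIHyp h o k v x₁ w} (hG : GTHyp hII G T) (i l : ι) :
    (x i : D) * z l - x l * z i =
      (x o : D) ^ 3 * ((1 + (x o : D) * G o) * (v i * T l - v l * T i)) := by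
  have h1 := hG.eqT i
  have h2 := hG.eqT l
  rw [hG.eqz i, hG.eqz l, ← hII.hv i, ← hII.hv l]
  linear_combination (x o : D) ^ 3 * v i * h2 - (x o : D) ^ 3 * v l * h1

/-- TASK E4 (two statements). The ideal `kId (k + 1)`: its generators are combinations of `(x o) ^ 4 = (x o) ^ 3 ϖ ^ k x₁`,
`ϖ ^ (2 k + 1) (x o) ^ 2 = (x o) ^ 3 ϖ ^ k w`, and
`ϖ ^ k (x i z l - x l z i) = (x o) ^ 3 ϖ ^ k (1 + x o G o) (v i T l - v l T i)`. -/
theorem GTHyp.kId_eq {hII : IIHyp h o k v x₁ w} (hG : GTHyp hII G T) {y : A}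
    (hy : y ∈ kId ϖ x z (k + 1)) :
    ∃ a : Option (Option ι) → D, (∀ i, a i ∈ R₂ A x₁ w v) ∧
      (y : D) = (x o : D) ^ 3 * (ϖ : D) ^ k * ∑ i, a i * gII x₁ w T i := by
  have hA : A ≤ R₂ A x₁ w v := le_R₂ x₁ w v
  have hxo : x o ∈ aId ϖ x (k + 1) := Ideal.subset_span (Set.mem_insert_of_mem _ ⟨o, rfl⟩)
  have ha : aId ϖ x (k + 1) ≤ mulId (R₂ A x₁ w v) hA (x o : D) :=
    fun y hy => (hII.pr_aId le_rfl (j := k + 1) (by omega)).1 y hy
  have hle : kId ϖ x z (k + 1) ≤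
      e4_sumId (R₂ A x₁ w v) hA ((x o : D) ^ 3 * (ϖ : D) ^ k) (gII x₁ w T) := by
    refine sup_le (sup_le ?_ ?_) ?_
    · intro y hy
      obtain ⟨q, hq, h1⟩ := pow_le_mulId ha 4 hy
      refine e4_single none hq ?_
      change (y : D) = (x o : D) ^ 3 * (ϖ : D) ^ k * (q * x₁)
      have h2 := hII.hx
      rw [h1]
      linear_combination - (x o : D) ^ 3 * q * h2
    · intro y hy
      have h3 : Ideal.span {ϖ ^ (2 * (k + 1) - 1)} ≤
          mulId (R₂ A x₁ w v) hA ((ϖ : D) ^ k * (ϖ : D) ^ (k + 1)) := by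
        rw [Ideal.span_le]
        rintro _ rfl
        refine ⟨1, Subring.one_mem _, ?_⟩
        rw [mul_one, ← pow_add]
        have h4 : k + (k + 1) = 2 * (k + 1) - 1 := by omega
        rw [h4]
        push_cast
        rfl
      obtain ⟨q, hq, h1⟩ := mul_le_mulId h3 (pow_le_mulId ha 2) hy
      refine e4_single (some none) hq ?_
      change (y : D) = (x o : D) ^ 3 * (ϖ : D) ^ k * (q * w)
      have h2 := hII.x_mul_w
      rw [h1]
      linear_combination - (x o : D) ^ 2 * (ϖ : D) ^ k * q * h2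
    · rw [Ideal.span_mul_span', Ideal.span_le]
      rintro _ ⟨_, rfl, _, ⟨p, rfl⟩, rfl⟩
      have hvR := mem_R₂_v (A := A) x₁ w v
      have hun : 1 + (x o : D) * G o ∈ R₂ A x₁ w v := Subring.add_mem _ (Subring.one_mem _)
        (Subring.mul_mem _ (hA (x o).2) (hG.memG o))
      refine e4_sub (some (some p.2)) (some (some p.1))
        (c := (1 + (x o : D) * G o) * v p.1) (c' := (1 + (x o : D) * G o) * v p.2)
        (Subring.mul_mem _ hun (hvR _)) (Subring.mul_mem _ hun (hvR _)) ?_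
      change _ = (x o : D) ^ 3 * (ϖ : D) ^ k * ((1 + (x o : D) * G o) * v p.1 * T p.2 -
        (1 + (x o : D) * G o) * v p.2 * T p.1)
      have h1 := e4_pair hG p.1 p.2
      have h2 : k + 1 - 1 = k := by omega
      simp only [h2]
      push_cast
      linear_combination (ϖ : D) ^ k * h1
  exact hle hy

/-- The converse (`v o = 1`, `T o = 0`, and `1 + x o G o` is a unit of `D`). -/
theorem GTHyp.mem_kId {hII : IIHyp h o k v x₁ w} (hG : GTHyp hII G T)
    (i : Option (Option ι)) :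
    (x o : D) ^ 3 * (ϖ : D) ^ k * gII x₁ w T i ∈ (kId ϖ x z (k + 1)).map A.subtype := by
  have hxo : x o ∈ aId ϖ x (k + 1) := Ideal.subset_span (Set.mem_insert_of_mem _ ⟨o, rfl⟩)
  have hun : IsUnit (1 + (x o : D) * G o) := by
    by_contra hcon
    have h1 : 1 + (x o : D) * G o ∈ maximalIdeal D := (IsLocalRing.mem_maximalIdeal _).mpr hcon
    have h2 : (1 : D) ∈ maximalIdeal D := by
      have h3 := Ideal.sub_mem _ h1 (Ideal.mul_mem_right (G o) _ (h.x_mem o))
      rwa [add_sub_cancel_right] at h3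
    exact (Ideal.ne_top_iff_one _).1 (IsLocalRing.maximalIdeal.isMaximal D).ne_top h2
  rcases i with _ | _ | i
  · have h1 : x o ^ 4 ∈ kId ϖ x z (k + 1) :=
      Ideal.mem_sup_left (Ideal.mem_sup_left (Ideal.pow_mem_pow hxo 4))
    have h2 := Ideal.mem_map_of_mem A.subtype h1
    have h3 : (x o : D) ^ 3 * (ϖ : D) ^ k * gII x₁ w T none = A.subtype (x o ^ 4) := by
      change (x o : D) ^ 3 * (ϖ : D) ^ k * x₁ = _
      rw [map_pow]
      change _ = (x o : D) ^ 4
      linear_combination (x o : D) ^ 3 * hII.hx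
    rw [h3]
    exact h2
  · have h1 : ϖ ^ (2 * (k + 1) - 1) * x o ^ 2 ∈ kId ϖ x z (k + 1) :=
      Ideal.mem_sup_left (Ideal.mem_sup_right (Ideal.mul_mem_mul
        (Ideal.mem_span_singleton_self _) (Ideal.pow_mem_pow hxo 2)))
    have h2 := Ideal.mem_map_of_mem A.subtype h1
    have h3 : (x o : D) ^ 3 * (ϖ : D) ^ k * gII x₁ w T (some none) =
        A.subtype (ϖ ^ (2 * (k + 1) - 1) * x o ^ 2) := by
      change (x o : D) ^ 3 * (ϖ : D) ^ k * w = _
      rw [map_mul, map_pow, map_pow]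
      change _ = (ϖ : D) ^ (2 * (k + 1) - 1) * (x o : D) ^ 2
      have h4 : 2 * (k + 1) - 1 = k + (k + 1) := by omega
      rw [h4, pow_add]
      linear_combination (x o : D) ^ 2 * (ϖ : D) ^ k * hII.x_mul_w
    rw [h3]
    exact h2
  · obtain ⟨c, hc⟩ := hun.exists_right_inv
    have h1 : ϖ ^ (k + 1 - 1) * (x o * z i - x i * z o) ∈ kId ϖ x z (k + 1) :=
      Ideal.mem_sup_right (Ideal.mul_mem_mul (Ideal.mem_span_singleton_self _)
        (Ideal.subset_span ⟨(o, i), rfl⟩))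
    have h2 := Ideal.mul_mem_left _ c (Ideal.mem_map_of_mem A.subtype h1)
    have hTo : T o = 0 := by
      have h5 := hG.eqT o
      rw [hII.v_self, one_mul, sub_self] at h5
      rcases mul_eq_zero.1 h5.symm with h6 | h6
      · exact absurd h6 hun.ne_zero
      · exact h6
    have h3 : (x o : D) ^ 3 * (ϖ : D) ^ k * gII x₁ w T (some (some i)) =
        c * A.subtype (ϖ ^ (k + 1 - 1) * (x o * z i - x i * z o)) := by
      change (x o : D) ^ 3 * (ϖ : D) ^ k * T i = _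
      rw [Nat.add_sub_cancel, map_mul, map_pow, map_sub, map_mul, map_mul]
      change _ = c * ((ϖ : D) ^ k * ((x o : D) * (z i : D) - (x i : D) * (z o : D)))
      rw [e4_pair hG o i, hTo, hII.v_self]
      linear_combination - (x o : D) ^ 3 * (ϖ : D) ^ k * T i * hc
    rw [h3]
    exact h2
-- END E4

-- BEGIN E5
/-- TASK E5 (two statements). Some `G i` is a unit: otherwise all `∑ M v²` lie in the maximal ideal (`x o` and `w` do), but
`M` is invertible and `v o = 1`. -/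
theorem GTHyp.exists_unit {hII : IIHyp h o k v x₁ w} (hG : GTHyp hII G T) :
    ∃ i, IsUnit (G i) := by
  by_contra hcon
  push Not at hcon
  have hsum : ∀ i, ∑ l, (M i l : D) * v l ^ 2 ∈ maximalIdeal D := by
    intro i
    obtain ⟨a, -, b, -, hab⟩ := hG.eqG i
    have e1 : ∑ l, (M i l : D) * v l ^ 2 = G i - (x o : D) * a - w * b := by
      rw [hab]; ring
    rw [e1]
    exact Ideal.sub_mem _ (Ideal.sub_mem _ ((IsLocalRing.mem_maximalIdeal _).mpr (hcon i))
      (Ideal.mul_mem_right _ _ (h.x_mem o))) (Ideal.mul_mem_right _ _ hII.mem)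
  have hinv := Matrix.nonsing_inv_mul (Matrix.of M) h.det
  have hent : ∀ l, ∑ i, ((Matrix.of M)⁻¹ o i : D) * (M i l : D) = if o = l then 1 else 0 := by
    intro l
    have h1 := congrFun (congrFun hinv o) l
    rw [Matrix.mul_apply, Matrix.one_apply] at h1
    have h2 := congrArg (fun a : A => (a : D)) h1
    simp only [Matrix.of_apply] at h2
    rw [AddSubmonoidClass.coe_finsetSum] at h2
    rw [← Finset.sum_congr rfl fun i _ => (Subring.coe_mul _ _ _)]
    rw [h2]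
    split_ifs <;> rfl
  have hone : ∑ i, ((Matrix.of M)⁻¹ o i : D) * ∑ l, (M i l : D) * v l ^ 2 = 1 := by
    have e1 : ∑ i, ((Matrix.of M)⁻¹ o i : D) * ∑ l, (M i l : D) * v l ^ 2 =
        ∑ l, (∑ i, ((Matrix.of M)⁻¹ o i : D) * (M i l : D)) * v l ^ 2 := by
      simp_rw [Finset.mul_sum, Finset.sum_mul]
      rw [Finset.sum_comm]
      refine Finset.sum_congr rfl fun i _ => Finset.sum_congr rfl fun l _ => ?_
      ring
    rw [e1]
    simp_rw [hent]
    simp [hII.v_self]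
  have hmem : (1 : D) ∈ maximalIdeal D := by
    rw [← hone]
    exact Ideal.sum_mem _ fun i _ => Ideal.mul_mem_left _ _ (hsum i)
  exact (Ideal.ne_top_iff_one _).1 (maximalIdeal.isMaximal D).ne_top hmem

/-- If all `T i` lie in the maximal ideal, then `G o` is a unit (`G i ≡ v i G o`). -/
theorem GTHyp.isUnit_o {hII : IIHyp h o k v x₁ w} (hG : GTHyp hII G T)
    (hT : ∀ i, T i ∈ maximalIdeal D) : IsUnit (G o) := by
  by_contra hcon
  obtain ⟨i, hi⟩ := hG.exists_unit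
  have h1 : G o ∈ maximalIdeal D := (IsLocalRing.mem_maximalIdeal _).mpr hcon
  have h2 : G i = v i * G o + (1 + (x o : D) * G o) * T i := by
    rw [← hG.eqT i]; ring
  have h3 : G i ∈ maximalIdeal D := by
    rw [h2]
    exact Ideal.add_mem _ (Ideal.mul_mem_left _ _ h1) (Ideal.mul_mem_left _ _ (hT i))
  rw [IsLocalRing.mem_maximalIdeal, mem_nonunits_iff] at h3
  exact h3 hi
-- END E5

-- BEGIN E6
/-- TASK E6. The last ideal: `ϖ ^ (2 n + 1)` and `z i - (η ^ n - 1) x i = (x o) ^ 2 (G i - ω ζ v i)`, where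
`ϖ ^ n = (x o) ω`, `ω = ϖ ^ (n - k - 1) w`, `η ^ n = 1 + ϖ ^ n ζ`. One of the `G i` is a unit. -/
theorem GTHyp.pr_lId {hII : IIHyp h o k v x₁ w} (hG : GTHyp hII G T) {R : Subring D}
    (hR : R₂ A x₁ w v ≤ R) : Pr R (lId ϖ ε n x z) ((x o : D) ^ 2) := by
  have hA : A ≤ R := (le_R₂ x₁ w v).trans hR
  have hpos := h.pos
  have hlt := hII.lt
  obtain ⟨ζ, b, hζ, -⟩ := h.exists_zeta n
  have hζD : (1 + (ε : D) * (ϖ : D) ^ n) ^ n = 1 + (ϖ : D) ^ n * ζ := by
    have := congrArg (fun z : A => (z : D)) hζ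
    push_cast at this
    exact this
  obtain ⟨ω, hω⟩ : ∃ ω : D, ω = (ϖ : D) ^ (n - k - 1) * w := ⟨_, rfl⟩
  have hpow : (ϖ : D) ^ n = (x o : D) * ω := by rw [hω]; exact hII.pow_eq
  have hωR : ω ∈ R := by
    rw [hω]
    exact R.mul_mem (R.pow_mem (hA ϖ.2) _) (hR (mem_R₂_w x₁ w v))
  have hωm : ω ∈ maximalIdeal D := by
    rw [hω]; exact Ideal.mul_mem_left _ _ hII.mem
  -- the generators
  have hgen : ∀ i, ((z i - ((1 + ε * ϖ ^ n) ^ n - 1) * x i : A) : D) =
      (x o : D) ^ 2 * (G i - ω * ζ * v i) := by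
    intro i
    push_cast
    rw [hζD, hG.eqz i, ← hII.hv i, hpow]
    ring
  constructor
  · have hle : lId ϖ ε n x z ≤ mulId R hA ((x o : D) ^ 2) := by
      unfold lId
      rw [Ideal.span_le]
      rintro y (rfl | ⟨i, rfl⟩)
      · refine ⟨ω ^ 2 * ϖ, R.mul_mem (R.pow_mem hωR 2) (hA ϖ.2), ?_⟩
        push_cast
        rw [pow_succ, mul_comm 2 n, pow_mul, hpow]
        ring
      · refine ⟨G i - ω * ζ * v i, R.sub_mem (hR (hG.memG i)) (R.mul_mem (R.mul_mem hωR (hA ζ.2))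
          (hR (mem_R₂_v x₁ w v i))), ?_⟩
        exact hgen i
    exact fun y hy => hle hy
  · obtain ⟨i, hi⟩ := hG.exists_unit
    have hu : IsUnit (G i - ω * ζ * v i) := by
      by_contra hcon
      have h1 : G i ∈ maximalIdeal D := by
        have h2 : G i = (G i - ω * ζ * v i) + ω * ζ * v i := by ring
        rw [h2]
        exact Ideal.add_mem _ ((IsLocalRing.mem_maximalIdeal _).mpr hcon)
          (Ideal.mul_mem_right _ _ (Ideal.mul_mem_right _ _ hωm))
      rw [IsLocalRing.mem_maximalIdeal, mem_nonunits_iff] at h1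
      exact h1 hi
    obtain ⟨ρ, hρ⟩ := hu.exists_right_inv
    have h3' : z i - ((1 + ε * ϖ ^ n) ^ n - 1) * x i ∈ lId ϖ ε n x z := by
      unfold lId
      exact Ideal.subset_span (Set.mem_insert_of_mem _ ⟨i, rfl⟩)
    have h3 : ((z i - ((1 + ε * ϖ ^ n) ^ n - 1) * x i : A) : D) ∈
        (lId ϖ ε n x z).map A.subtype := Ideal.mem_map_of_mem A.subtype h3'
    have h4 : (x o : D) ^ 2 = ((z i - ((1 + ε * ϖ ^ n) ^ n - 1) * x i : A) : D) * ρ := by
      rw [hgen i, mul_assoc, hρ, mul_one]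
    rw [h4]
    exact Ideal.mul_mem_right _ _ h3
-- END E6

-- BEGIN E7
/-- TASK E7. `x₁`, `w` and the `T i` generate the maximal ideal of `R₂` if they lie in the maximal ideal of
`D`: `maximalIdeal_le_of_sq` for the ideal `N` generated by the `gII`. The ring `sqRing` contains
`A` (`h.perf`; the maximal ideal of `A` lies in `N` since `ϖ = x₁ w`, `x i = ϖ ^ k x₁ v i`), the
`G i` (by `eqG`), and `v i = (G i - (1 + x o G o) T i) / G o`. `R₂` is noetherian by
`NFHyp.tower₂`. -/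
theorem GTHyp.exists_max {hII : IIHyp h o k v x₁ w} (hG : GTHyp hII G T)
    (hx : x₁ ∈ maximalIdeal D) (hT : ∀ i, T i ∈ maximalIdeal D) {y : D}
    (hy : y ∈ R₂ A x₁ w v) (hym : y ∈ maximalIdeal D) :
    ∃ a : Option (Option ι) → D, (∀ i, a i ∈ R₂ A x₁ w v) ∧ y = ∑ i, a i * gII x₁ w T i := by
  classical
  have hdom : Dom (R₂ A x₁ w v) := dom_dcl _
  obtain ⟨s, hs⟩ := h.tower₂ hII.hv hII.hx hII.hw
  have hno : IsNoetherianRing (R₂ A x₁ w v) := hs.noeth
  have hloc : IsLocalRing (R₂ A x₁ w v) := hdom.isLocalRing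
  obtain ⟨g, hg⟩ : ∃ g : Option (Option ι) → R₂ A x₁ w v, ∀ i, (g i : D) = gII x₁ w T i :=
    ⟨fun i => ⟨gII x₁ w T i, hG.gII_mem i⟩, fun _ => rfl⟩
  obtain ⟨N, hN⟩ : ∃ N : Ideal (R₂ A x₁ w v), N = Ideal.span (Set.range g) := ⟨_, rfl⟩
  have hgN : ∀ i, g i ∈ N := fun i => by rw [hN]; exact Ideal.subset_span ⟨i, rfl⟩
  have hpos := h.pos
  obtain ⟨j, hj⟩ : ∃ j : A → R₂ A x₁ w v, ∀ a, ((j a : R₂ A x₁ w v) : D) = a :=
    ⟨fun a => ⟨a, le_R₂ x₁ w v a.2⟩, fun _ => rfl⟩
  obtain ⟨V, hV⟩ : ∃ V : ι → R₂ A x₁ w v, ∀ i, (V i : D) = v i :=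
    ⟨fun i => ⟨v i, mem_R₂_v x₁ w v i⟩, fun _ => rfl⟩
  -- multiples of `x₁`
  have hxN : ∀ b : R₂ A x₁ w v, g none * b ∈ N := fun b => N.mul_mem_right _ (hgN none)
  have hwN : ∀ b : R₂ A x₁ w v, g (some none) * b ∈ N :=
    fun b => N.mul_mem_right _ (hgN (some none))
  have hϖj : j ϖ = g none * g (some none) := by
    apply Subtype.ext
    push_cast
    rw [hj, hg, hg]
    exact hII.hw.symm
  have hxj : ∀ i, j (x i) = g none * (j ϖ ^ k * V i) := by
    intro i
    apply Subtype.ext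
    push_cast
    rw [hj, hj, hg, hV, ← hII.hv i, ← hII.hx]
    change _ = x₁ * _
    ring
  have h2N : (2 : R₂ A x₁ w v) ∈ N := by
    obtain ⟨u, m, hu, -, -⟩ := h.exists_two
    obtain ⟨n', rfl⟩ : ∃ n', n = n' + 1 := ⟨n - 1, by omega⟩
    have e : (2 : R₂ A x₁ w v) = g none * (g (some none) * (j u * j ϖ ^ n')) := by
      apply Subtype.ext
      have e2 : ((2 : R₂ A x₁ w v) : D) = ((2 : A) : D) := rfl
      rw [e2, hu, ← mul_assoc, ← hϖj]
      push_cast
      rw [hj, hj]; ring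
    rw [e]
    exact hxN _
  have hmN : ∀ a : A, a ∈ maximalIdeal A → j a ∈ N := by
    intro a ha
    obtain ⟨c', d, rfl⟩ := h.exists_coeff ha
    have e : j (c' * ϖ + ∑ i, d i * x i) =
        g none * (g (some none) * j c' + ∑ i, j (d i) * (j ϖ ^ k * V i)) := by
      have e1 : g none * (g (some none) * j c' + ∑ i, j (d i) * (j ϖ ^ k * V i)) =
          j ϖ * j c' + ∑ i, j (d i) * j (x i) := by
        rw [mul_add, ← mul_assoc, ← hϖj, Finset.mul_sum]
        congr 1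
        refine Finset.sum_congr rfl fun i _ => ?_
        rw [hxj i]; ring
      rw [e1]
      apply Subtype.ext
      push_cast
      simp only [hj]
      push_cast
      rw [mul_comm (c' : D)]
    rw [e]
    exact hxN _
  have hNle : N ≤ maximalIdeal (R₂ A x₁ w v) := by
    rw [hN, Ideal.span_le]
    rintro _ ⟨i, rfl⟩
    refine (hdom.mem_maximalIdeal _).2 ?_
    rw [hg]
    rcases i with _ | _ | i
    · exact hx
    · exact hII.mem
    · exact hT i
  have hNsq : ∀ b : R₂ A x₁ w v, b ∈ N → (b : D) ∈ sqRing hdom N h2N := by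
    intro b hb
    refine ⟨b.2, 0, ?_⟩
    have e : (⟨(b : D), b.2⟩ : R₂ A x₁ w v) - 0 ^ 2 = b := by
      apply Subtype.ext; simp
    rw [e]
    exact hb
  have hAsq : ∀ a : A, (a : D) ∈ sqRing hdom N h2N := by
    intro a
    obtain ⟨c', hc'⟩ := h.perf a
    refine ⟨le_R₂ x₁ w v a.2, j c', ?_⟩
    have e : (⟨(a : D), le_R₂ x₁ w v a.2⟩ : R₂ A x₁ w v) - j c' ^ 2 = j (a - c' ^ 2) := by
      apply Subtype.ext
      push_cast
      simp only [hj]
      push_cast
      rfl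
    rw [e]
    exact hmN _ hc'
  have hV2 : ∀ i, v i ^ 2 ∈ sqRing hdom N h2N := by
    intro i
    refine ⟨Subring.pow_mem _ (mem_R₂_v x₁ w v i) 2, V i, ?_⟩
    have e : (⟨v i ^ 2, Subring.pow_mem _ (mem_R₂_v x₁ w v i) 2⟩ : R₂ A x₁ w v) - V i ^ 2 = 0 := by
      apply Subtype.ext
      push_cast
      rw [hV]
      simp
    rw [e]
    exact N.zero_mem
  -- multiples of `x₁`, `w`, `T i` in `R₂`
  have hxsq : ∀ b ∈ R₂ A x₁ w v, x₁ * b ∈ sqRing hdom N h2N := by
    intro b hb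
    have := hNsq _ (hxN ⟨b, hb⟩)
    push_cast at this
    rw [hg] at this
    exact this
  have hwsq : ∀ b ∈ R₂ A x₁ w v, w * b ∈ sqRing hdom N h2N := by
    intro b hb
    have := hNsq _ (hwN ⟨b, hb⟩)
    push_cast at this
    rw [hg] at this
    exact this
  have hTsq : ∀ i, ∀ b ∈ R₂ A x₁ w v, b * T i ∈ sqRing hdom N h2N := by
    intro i b hb
    have h1 : (⟨b, hb⟩ : R₂ A x₁ w v) * g (some (some i)) ∈ N :=
      N.mul_mem_left _ (hgN (some (some i)))
    have := hNsq _ h1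
    push_cast at this
    rw [hg] at this
    exact this
  have hϖR : (ϖ : D) ∈ R₂ A x₁ w v := le_R₂ x₁ w v ϖ.2
  have hGsq : ∀ i, G i ∈ sqRing hdom N h2N := by
    intro i
    obtain ⟨a, ha, b, hb, hab⟩ := hG.eqG i
    rw [hab]
    refine Subring.add_mem _ (Subring.add_mem _ ?_ ?_) (hwsq b hb)
    · exact Subring.sum_mem _ fun l _ => Subring.mul_mem _ (hAsq _) (hV2 l)
    · have e : (x o : D) * a = x₁ * ((ϖ : D) ^ k * a) := by rw [← hII.hx]; ring
      rw [e]
      exact hxsq _ (Subring.mul_mem _ (Subring.pow_mem _ hϖR _) ha)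
  have hGo := hG.isUnit_o hT
  obtain ⟨ρ, hρ⟩ := hGo.exists_right_inv
  have hρsq : ρ ∈ sqRing hdom N h2N := dom_sqRing hdom N h2N _ (hGsq o) _ hρ
  have hVsq : ∀ i, v i ∈ sqRing hdom N h2N := by
    intro i
    have e : v i = ρ * (G i - (1 + (x o : D) * G o) * T i) := by
      have := hG.eqT i
      linear_combination (-(v i)) * hρ + (-ρ) * this
    rw [e]
    refine Subring.mul_mem _ hρsq (Subring.sub_mem _ (hGsq i) (hTsq i _ ?_))
    exact Subring.add_mem _ (Subring.one_mem _) (Subring.mul_mem _ (le_R₂ x₁ w v (x o).2)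
      (hG.memG o))
  have hsq : R₂ A x₁ w v ≤ sqRing hdom N h2N := by
    refine dcl_le (dom_sqRing hdom N h2N) ?_
    rintro z (hz | (rfl | rfl) | ⟨i, rfl⟩)
    · exact hAsq ⟨z, hz⟩
    · have := hxsq 1 (Subring.one_mem _)
      rwa [mul_one] at this
    · have := hwsq 1 (Subring.one_mem _)
      rwa [mul_one] at this
    · exact hVsq i
  have hmax := maximalIdeal_le_of_sq hdom hNle hsq
  have hyN : (⟨y, hy⟩ : R₂ A x₁ w v) ∈ Ideal.span (Set.range g) := by
    rw [← hN]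
    exact hmax ((hdom.mem_maximalIdeal _).2 hym)
  obtain ⟨a, ha⟩ := (Ideal.mem_span_range_iff_exists_fun).mp hyN
  refine ⟨fun i => a i, fun i => (a i).2, ?_⟩
  have := congrArg (fun z : R₂ A x₁ w v => (z : D)) ha
  simp only at this
  rw [← this]
  push_cast
  refine Finset.sum_congr rfl fun i _ => ?_
  rw [hg]
-- END E7

-- BEGIN E8
theorem e8_unit {t : D} (ht : t ∈ maximalIdeal D) : IsUnit (1 + t) := by
  by_contra hcon
  have h1 : 1 + t ∈ maximalIdeal D := (IsLocalRing.mem_maximalIdeal _).mpr hcon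
  have h2 : (1 : D) ∈ maximalIdeal D := by
    have h3 := Ideal.sub_mem _ h1 ht
    rwa [add_sub_cancel_right] at h3
  exact (Ideal.ne_top_iff_one _).1 (IsLocalRing.maximalIdeal.isMaximal D).ne_top h2

theorem e8_tau_xo {hII : IIHyp h o k v x₁ w} (hG : GTHyp hII G T) {τ : D →+* D}
    (hx : ∀ i, τ (x i) = x i + z i) : τ (x o) = (x o : D) * (1 + (x o : D) * G o) := by
  rw [hx o, hG.eqz o]
  ring

/-- TASK E8 (two statements). The involution on `v`: `τ (x i) = x i + z i = (x o) (v i + x o G i)` and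
`τ (x o) = (x o) (1 + x o G o)`. -/
theorem GTHyp.tau_v {hII : IIHyp h o k v x₁ w} (hG : GTHyp hII G T) {τ : D →+* D}
    (hx : ∀ i, τ (x i) = x i + z i) (i : ι) : τ (v i) - v i = (x o : D) * T i := by
  have hx0 : (x o : D) ≠ 0 := h.x_ne_zero o
  have hu : IsUnit (1 + (x o : D) * G o) := e8_unit (Ideal.mul_mem_right _ _ (h.x_mem o))
  have h1 : τ (x o) * τ (v i) = x i + z i := by
    rw [← map_mul, hII.hv i, hx i]
  rw [e8_tau_xo hG hx, ← hII.hv i, hG.eqz i] at h1
  have h2 : (1 + (x o : D) * G o) * τ (v i) = v i + (x o : D) * G i := by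
    apply mul_left_cancel₀ hx0
    linear_combination h1
  apply mul_left_cancel₀ hu.ne_zero
  linear_combination h2 + (x o : D) * hG.eqT i

/-- The eigenvalues: `τ x₁ = x₁ (1 + x o G o) / η ^ k`, `τ w = w η ^ (k + 1) / (1 + x o G o)`,
`τ T = - T / (1 + x o G o)` (apply `τ` to `τ v = v + (x o) T`). With `ϖ ^ n = (x o) ω`,
`ω = ϖ ^ (n - k - 1) w` (`IIHyp.pow_eq`), `η ^ k = 1 + ϖ ^ n ζ_k`, `2 = u ϖ ^ n`:
`l₁ = (G o - ω ζ_k) / η ^ k`, `l₂ = (ω ζ_(k+1) - G o) / (1 + x o G o)`,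
`l₃ = - (u ω + G o) / (1 + x o G o)`, all congruent to `G o` modulo `(x o, w) D`
(`- G o = G o - 2 G o`, `2 = u (x o) ω`). -/
theorem GTHyp.tau_gII {hII : IIHyp h o k v x₁ w} (hG : GTHyp hII G T) {τ : D →+* D}
    (hτ : ∀ d, τ (τ d) = d) (hϖ : τ ϖ = ϖ + ε * ϖ ^ (n + 1))
    (hx : ∀ i, τ (x i) = x i + z i) :
    ∃ l : Option (Option ι) → D, (∀ i, ∃ a b, l i = G o + (x o : D) * a + w * b) ∧
      ∀ i, τ (gII x₁ w T i) = gII x₁ w T i * (1 + (x o : D) * l i) := by
  have hx0 : (x o : D) ≠ 0 := h.x_ne_zero o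
  have hϖ0 : (ϖ : D) ≠ 0 := h.unif_ne_zero
  have hu : IsUnit (1 + (x o : D) * G o) := e8_unit (Ideal.mul_mem_right _ _ (h.x_mem o))
  obtain ⟨a', ha'⟩ := hu.exists_right_inv
  have hη : IsUnit (1 + (ε : D) * (ϖ : D) ^ n) := by
    have h1 := (h.isUnit_eta).map A.subtype
    simpa using h1
  obtain ⟨η', hη'⟩ := (hη.pow k).exists_right_inv
  obtain ⟨ζ₁, b₁, hζ₁, -⟩ := h.exists_zeta k
  obtain ⟨ζ₂, b₂, hζ₂, -⟩ := h.exists_zeta (k + 1)
  obtain ⟨u, m, hu2, -, -⟩ := h.exists_two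
  have hζ₁' : (1 + (ε : D) * (ϖ : D) ^ n) ^ k = 1 + (ϖ : D) ^ n * ζ₁ := by
    have h1 := congrArg (fun t : A => (t : D)) hζ₁
    simpa using h1
  have hζ₂' : (1 + (ε : D) * (ϖ : D) ^ n) ^ (k + 1) = 1 + (ϖ : D) ^ n * ζ₂ := by
    have h1 := congrArg (fun t : A => (t : D)) hζ₂
    simpa using h1
  have hu2' : (2 : D) = u * (ϖ : D) ^ n := by
    have h1 := congrArg (fun t : A => (t : D)) hu2
    have h2 : ((2 : A) : D) = 2 := rfl
    rw [h2] at h1
    simpa using h1
  have hpow := hII.pow_eq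
  have hϖ' : τ ϖ = (1 + (ε : D) * (ϖ : D) ^ n) * ϖ := by
    rw [hϖ, pow_succ]
    ring
  have hxo := e8_tau_xo hG hx
  -- the element x₁
  have hx₁ : (1 + (ε : D) * (ϖ : D) ^ n) ^ k * τ x₁ = x₁ * (1 + (x o : D) * G o) := by
    have h1 : τ ϖ ^ k * τ x₁ = (x o : D) * (1 + (x o : D) * G o) := by
      rw [← hxo, ← hII.hx, map_mul, map_pow]
    rw [hϖ', mul_pow] at h1
    have h2 := hII.hx
    apply mul_left_cancel₀ (pow_ne_zero k hϖ0)
    linear_combination h1 - (1 + (x o : D) * G o) * h2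
  have hx₁0 : x₁ ≠ 0 := by
    intro h0
    have h2 := hII.hx
    rw [h0, mul_zero] at h2
    exact hx0 h2.symm
  -- the element w
  have hw : (1 + (x o : D) * G o) * τ w = (1 + (ε : D) * (ϖ : D) ^ n) ^ (k + 1) * w := by
    have h1 : τ x₁ * τ w = (1 + (ε : D) * (ϖ : D) ^ n) * ϖ := by
      rw [← hϖ', ← map_mul, hII.hw]
    have h2 := hII.hw
    apply mul_left_cancel₀ hx₁0
    rw [pow_succ]
    linear_combination (1 + (ε : D) * (ϖ : D) ^ n) ^ k * h1 - τ w * hx₁ -
      (1 + (ε : D) * (ϖ : D) ^ n) ^ k * (1 + (ε : D) * (ϖ : D) ^ n) * h2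
  -- the elements T
  have hT : ∀ i, (1 + (x o : D) * G o) * τ (T i) = - T i := by
    intro i
    have h1 : τ (v i) = v i + (x o : D) * T i := by
      rw [← hG.tau_v hx i]
      ring
    have h2 : τ (τ (v i)) = τ (v i) + τ (x o) * τ (T i) := by
      conv_lhs => rw [h1, map_add, map_mul]
    rw [hτ, h1, hxo] at h2
    apply mul_left_cancel₀ hx0
    linear_combination -h2
  refine ⟨fun i => i.elim ((G o - (ϖ : D) ^ (n - k - 1) * w * ζ₁) * η')
    (fun i => i.elim (((ϖ : D) ^ (n - k - 1) * w * ζ₂ - G o) * a')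
      (fun _ => -(u * ((ϖ : D) ^ (n - k - 1) * w) + G o) * a')), ?_, ?_⟩
  · rintro (_ | _ | i)
    · refine ⟨- G o * ((ϖ : D) ^ (n - k - 1) * w) * ζ₁ * η', - (ϖ : D) ^ (n - k - 1) * ζ₁ * η', ?_⟩
      change (G o - (ϖ : D) ^ (n - k - 1) * w * ζ₁) * η' = _
      rw [hζ₁', hpow] at hη'
      linear_combination G o * hη'
    · refine ⟨G o ^ 2 * a' - u * ((ϖ : D) ^ (n - k - 1) * w) * G o,
        (ϖ : D) ^ (n - k - 1) * ζ₂ * a', ?_⟩
      change ((ϖ : D) ^ (n - k - 1) * w * ζ₂ - G o) * a' = _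
      rw [hpow] at hu2'
      linear_combination - G o * ha' - G o * hu2'
    · refine ⟨G o ^ 2 * a' - u * ((ϖ : D) ^ (n - k - 1) * w) * G o,
        - u * (ϖ : D) ^ (n - k - 1) * a', ?_⟩
      change -(u * ((ϖ : D) ^ (n - k - 1) * w) + G o) * a' = _
      rw [hpow] at hu2'
      linear_combination - G o * ha' - G o * hu2'
  · rintro (_ | _ | i)
    · change τ x₁ = x₁ * (1 + (x o : D) * ((G o - (ϖ : D) ^ (n - k - 1) * w * ζ₁) * η'))
      have h1 : τ x₁ = η' * (x₁ * (1 + (x o : D) * G o)) := by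
        rw [← hx₁]
        linear_combination - τ x₁ * hη'
      rw [h1]
      rw [hζ₁', hpow] at hη'
      linear_combination x₁ * hη'
    · change τ w = w * (1 + (x o : D) * (((ϖ : D) ^ (n - k - 1) * w * ζ₂ - G o) * a'))
      have h1 : τ w = a' * ((1 + (ε : D) * (ϖ : D) ^ n) ^ (k + 1) * w) := by
        rw [← hw]
        linear_combination - τ w * ha'
      rw [h1, hζ₂', hpow]
      linear_combination w * ha'
    · change τ (T i) = T i * (1 + (x o : D) * (-(u * ((ϖ : D) ^ (n - k - 1) * w) + G o) * a'))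
      have h1 : τ (T i) = a' * (- T i) := by
        rw [← hT i]
        linear_combination - τ (T i) * ha'
      rw [h1]
      rw [hpow] at hu2'
      linear_combination T i * ha' - T i * a' * hu2'
-- END E8

-- BEGIN E9
/-- TASK E9. The differences of the elements of `A`: `ϖ ^ (n + 1)` and `z i = (x o) ^ 2 G i` are multiples
of `(x o) x₁`. -/
theorem GTHyp.tau_A {hII : IIHyp h o k v x₁ w} (hG : GTHyp hII G T) {τ : D →+* D}
    (hA : ∀ a : A, τ a - a ∈ (Ideal.span (insert (ϖ ^ (n + 1)) (Set.range z))).map A.subtype)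
    (a : D) (ha : a ∈ A) : ∃ b, τ a - a = b * ((x o : D) * x₁) := by
  have hle : (Ideal.span (insert (ϖ ^ (n + 1)) (Set.range z))).map A.subtype ≤
      Ideal.span {(x o : D) * x₁} := by
    rw [Ideal.map_le_iff_le_comap, Ideal.span_le]
    rintro y (rfl | ⟨i, rfl⟩)
    · rw [SetLike.mem_coe, Ideal.mem_comap, Ideal.mem_span_singleton]
      refine ⟨(ϖ : D) ^ (n - k - 1) * w * w, ?_⟩
      have h1 := hII.pow_eq
      have h2 := hII.hw
      have h3 : A.subtype (ϖ ^ (n + 1)) = (ϖ : D) ^ n * (ϖ : D) := by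
        rw [map_pow, pow_succ]
        rfl
      rw [h3]
      linear_combination (ϖ : D) * h1 - (x o : D) * ((ϖ : D) ^ (n - k - 1) * w) * h2
    · rw [SetLike.mem_coe, Ideal.mem_comap, Ideal.mem_span_singleton]
      refine ⟨(ϖ : D) ^ k * G i, ?_⟩
      have h1 := hG.eqz i
      have h2 := hII.hx
      have h3 : A.subtype (z i) = (z i : D) := rfl
      rw [h3]
      linear_combination h1 - (x o : D) * G i * h2
  have h1 := hle (hA ⟨a, ha⟩)
  rw [Ideal.mem_span_singleton] at h1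
  obtain ⟨b, hb⟩ := h1
  refine ⟨b, ?_⟩
  have hb' : τ a - a = (x o : D) * x₁ * b := hb
  rw [hb']
  ring
-- END E9

/-- **The second case.** -/
theorem wild_local₂ (hII : IIHyp h o k v x₁ w) (b : ℕ → A)
    (hb0 : ∀ j ≤ 2 * n, (b j : D) ≠ 0) (hbm : ∀ j ≤ 2 * n, b j ∈ cen ϖ ε n x z j)
    (hbd : ∀ j ≤ 2 * n, ∀ y ∈ cen ϖ ε n x z j, (b j : D) ∣ y)
    (hgen : ∀ R' : Subring D, Dom R' → A ≤ R' →
      (∀ j ≤ 2 * n, ∀ y ∈ cen ϖ ε n x z j, ∀ q : D, (b j : D) * q = y → q ∈ R') → R' = ⊤) :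
    IsRegularLocalRing D ∧ ∀ τ : D →+* D, (∀ d, τ (τ d) = d) →
      τ ϖ = ϖ + ε * ϖ ^ (n + 1) → (∀ i, τ (x i) = x i + z i) →
      (∀ a : A, τ a - a ∈ (Ideal.span (insert (ϖ ^ (n + 1)) (Set.range z))).map A.subtype) →
      ∃ y, τ y - y ≠ 0 ∧ ∀ w, ∃ c, τ w - w = c * (τ y - y) := by
  classical
  obtain ⟨G, T, hG⟩ := hII.exists_gt
  have hx0 := h.x_ne_zero o
  have hxm := h.x_mem o
  have hk := hII.lt
  -- the exceptional ideal has a generator among the `gII`
  have hck : cen ϖ ε n x z (n + k) = kId ϖ x z (k + 1) := by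
    rw [cen, if_neg (by omega), if_pos (by omega)]
    congr 1
    omega
  have hnk : n + k ≤ 2 * n := by omega
  obtain ⟨o', ho0, ho⟩ := exists_gen (I := kId ϖ x z (k + 1)) (p := (x o : D) ^ 3 * (ϖ : D) ^ k)
    (g := gII x₁ w T) (fun y hy => by
      obtain ⟨a, -, ha⟩ := hG.kId_eq hy
      exact ⟨a, ha⟩) hG.mem_kId (hb0 (n + k) hnk) (hck ▸ hbm (n + k) hnk)
    (hck ▸ hbd (n + k) hnk)
  choose q hq using ho
  obtain ⟨R, hR⟩ : ∃ R, R = dcl ((R₂ A x₁ w v : Set D) ∪ Set.range q) := ⟨_, rfl⟩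
  have hRdom : Dom R := hR ▸ dom_dcl _
  have hR₂R : R₂ A x₁ w v ≤ R := by
    rw [hR]
    exact fun _ hz => subset_dcl _ (Or.inl hz)
  have hqR : ∀ i, q i ∈ R := by
    rw [hR]
    exact fun i => subset_dcl _ (Or.inr ⟨i, rfl⟩)
  have hAR : A ≤ R := (le_R₂ x₁ w v).trans hR₂R
  have htop : R = ⊤ := by
    refine hgen R hRdom hAR ?_
    intro j hj
    by_cases hj1 : j < n
    · have hc : cen ϖ ε n x z j = aId ϖ x (j + 1) := by rw [cen, if_pos hj1]
      intro y hy q hq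
      by_cases hjk : j < k
      · exact (h.pr_aId hAR (hII.exists_eq hR₂R (j := j + 1) (by omega))).mem hRdom (hb0 j hj)
          (hc ▸ hbm j hj) (hc ▸ hbd j hj) (hc ▸ hy) hq
      · exact (hII.pr_aId hR₂R (j := j + 1) (by omega)).mem hRdom (hb0 j hj)
          (hc ▸ hbm j hj) (hc ▸ hbd j hj) (hc ▸ hy) hq
    · by_cases hj2 : j < 2 * n
      · have hc : cen ϖ ε n x z j = kId ϖ x z (j - n + 1) := by rw [cen, if_neg hj1, if_pos hj2]
        intro y hy q' hq'
        by_cases hjk : j < n + k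
        · exact (h.pr_kId hAR (k := j - n + 1) (by omega) (by omega)
            (hII.exists_eq hR₂R (j := j - n + 1) (by omega))).mem hRdom (hb0 j hj)
            (hc ▸ hbm j hj) (hc ▸ hbd j hj) (hc ▸ hy) hq'
        · by_cases hjk' : j = n + k
          · subst hjk'
            have hpr : Pr R (kId ϖ x z (k + 1)) ((x o : D) ^ 3 * (ϖ : D) ^ k * gII x₁ w T o') := by
              refine ⟨fun y hy => ?_, hG.mem_kId o'⟩
              obtain ⟨a, haR, ha⟩ := hG.kId_eq hy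
              have hsum : ∑ i, a i * gII x₁ w T i = gII x₁ w T o' * ∑ i, a i * q i := by
                rw [Finset.mul_sum]
                refine Finset.sum_congr rfl fun i _ => ?_
                rw [hq i]; ring
              refine ⟨∑ i, a i * q i, Subring.sum_mem _ fun i _ => Subring.mul_mem _
                (hR₂R (haR i)) (hqR i), ?_⟩
              rw [ha, hsum]
              ring
            exact hpr.mem hRdom (hb0 _ hj) (hck ▸ hbm _ hj) (hck ▸ hbd _ hj) (hck ▸ hy) hq'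
          · exact (hG.pr_kId hR₂R (j := j - n + 1) (by omega)).mem hRdom (hb0 j hj)
              (hc ▸ hbm j hj) (hc ▸ hbd j hj) (hc ▸ hy) hq'
      · have hj3 : j = 2 * n := by omega
        subst hj3
        have hc2 : cen ϖ ε n x z (2 * n) = lId ϖ ε n x z := by
          rw [cen, if_neg (by omega), if_neg (by omega)]
        intro y hy q' hq'
        exact (hG.pr_lId hR₂R).mem hRdom (hb0 _ le_rfl) (hc2 ▸ hbm _ le_rfl)
          (hc2 ▸ hbd _ le_rfl) (hc2 ▸ hy) hq'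
  -- if `gII o'` is a unit, then `R₂ = ⊤`
  have hunit : IsUnit (gII x₁ w T o') → R₂ A x₁ w v = ⊤ := by
    intro hou
    obtain ⟨g', hg'⟩ := hou.exists_right_inv
    have hg'R : g' ∈ R₂ A x₁ w v := dom_dcl _ _ (hG.gII_mem o') g' hg'
    rw [eq_top_iff, ← htop, hR]
    refine dcl_le (dom_dcl _) ?_
    rintro y (hy | ⟨j, rfl⟩)
    · exact hy
    · have : q j = gII x₁ w T j * g' := by
        rw [hq j]
        linear_combination -(q j) * hg'
      rw [this]
      exact Subring.mul_mem _ (hG.gII_mem j) hg'R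
  constructor
  · obtain ⟨s, hs⟩ := h.tower₂ hII.hv hII.hx hII.hw
    by_cases hou : IsUnit (gII x₁ w T o')
    · exact isRegularLocalRing_of_top hs (hunit hou)
    · have hgm : ∀ i, gII x₁ w T i ∈ maximalIdeal D := by
        intro i
        rw [hq i]
        exact Ideal.mul_mem_right _ _ ((IsLocalRing.mem_maximalIdeal _).mpr hou)
      obtain ⟨s', hs'⟩ := exists_blow_dcl (R := R₂ A x₁ w v) hs (gII x₁ w T) q hG.gII_mem hgm
        (fun y hy hym => hG.exists_max (hgm none) (fun i => hgm (some (some i))) hy hym) ho0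
        (fun i => (hq i).symm)
      exact isRegularLocalRing_of_top hs' (by rw [← hR, htop])
  · intro τ hτ hτϖ hτx hτA
    obtain ⟨l, hl, hlg⟩ := hG.tau_gII hτ hτϖ hτx
    by_cases hTm : ∀ i, T i ∈ maximalIdeal D
    · have hGu := hG.isUnit_o hTm
      have hlu : ∀ i, IsUnit (l i) := by
        intro i
        by_contra hcon
        obtain ⟨a, b, hab⟩ := hl i
        have h1 : G o ∈ maximalIdeal D := by
          have h2 : G o = l i - (x o : D) * a - w * b := by rw [hab]; ring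
          rw [h2]
          exact Ideal.sub_mem _ (Ideal.sub_mem _ ((IsLocalRing.mem_maximalIdeal _).mpr hcon)
            (Ideal.mul_mem_right _ _ hxm)) (Ideal.mul_mem_right _ _ hII.mem)
        rw [IsLocalRing.mem_maximalIdeal, mem_nonunits_iff] at h1
        exact h1 hGu
      have hqx : x₁ = gII x₁ w T o' * q none := hq none
      have hqw : w = gII x₁ w T o' * q (some none) := hq (some none)
      have hxo : (x o : D) = gII x₁ w T o' * ((ϖ : D) ^ k * q none) := by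
        rw [← hII.hx]
        linear_combination ((ϖ : D) ^ k) * hqx
      refine principal_of_eigen hτ (R := R₂ A x₁ w v) (g := gII x₁ w T) (q := q) (l := l)
        (c := (x o : D)) (i₀ := o') hx0 ho0 (fun i => (hq i).symm) hlg (hlu o') ?_ ?_
        (by rw [← hR, htop])
      · intro i
        obtain ⟨a, b, hab⟩ := hl i
        obtain ⟨a', b', hab'⟩ := hl o'
        refine ⟨((ϖ : D) ^ k * q none) * (a - a') + q (some none) * (b - b'), ?_⟩
        rw [hab, hab']
        linear_combination (a - a') * hxo + (b - b') * hqw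
      · refine diff_of_dcl (τ := τ) ?_
        rintro y (hy | (rfl | rfl) | ⟨i, rfl⟩)
        · obtain ⟨b', hb'⟩ := hG.tau_A hτA y hy
          refine ⟨b' * q none, ?_⟩
          rw [hb']
          linear_combination (b' * (x o : D)) * hqx
        · have h1 : τ y = y * (1 + (x o : D) * l none) := hlg none
          refine ⟨q none * l none, ?_⟩
          rw [h1]
          linear_combination ((x o : D) * l none) * hqx
        · have h1 : τ y = y * (1 + (x o : D) * l (some none)) := hlg (some none)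
          refine ⟨q (some none) * l (some none), ?_⟩
          rw [h1]
          linear_combination ((x o : D) * l (some none)) * hqw
        · refine ⟨q (some (some i)), ?_⟩
          rw [hG.tau_v hτx i]
          have : T i = gII x₁ w T o' * q (some (some i)) := hq (some (some i))
          linear_combination ((x o : D)) * this
    · push Not at hTm
      obtain ⟨i, hi⟩ := hTm
      rw [IsLocalRing.mem_maximalIdeal, mem_nonunits_iff, not_not] at hi
      have hou : IsUnit (gII x₁ w T o') := by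
        have : T i = gII x₁ w T o' * q (some (some i)) := hq (some (some i))
        rw [this] at hi
        exact isUnit_of_mul_isUnit_left hi
      refine principal_of_top (R := R₂ A x₁ w v) (c := (x o : D)) (v := v i) (t := T i)
        hx0 hi (hG.tau_v hτx i) ?_ (hunit hou)
      refine diff_of_dcl (τ := τ) ?_
      rintro y (hy | (rfl | rfl) | ⟨j, rfl⟩)
      · obtain ⟨b', hb'⟩ := hG.tau_A hτA y hy
        exact ⟨b' * x₁, by rw [hb']; ring⟩
      · have h1 : τ y = y * (1 + (x o : D) * l none) := hlg none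
        exact ⟨y * l none, by rw [h1]; ring⟩
      · have h1 : τ y = y * (1 + (x o : D) * l (some none)) := hlg (some none)
        exact ⟨y * l (some none), by rw [h1]; ring⟩
      · exact ⟨T j, by rw [hG.tau_v hτx j]; ring⟩

end CaseII

end Pool.Agent.Lib.MP_6a3dac_ag.QD
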