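import Pool.Agent.Lib.MP_6a3dac_ag.Mg.G002
import Pool.Agent.Lib.MP_6a3dac_ag.Mg.G005

/-!
# The smallest dominated subring containing a set
-/

set_option autoImplicit false
set_option linter.unusedSectionVars false

namespace Pool.Agent.Lib.MP_6a3dac_ag.QD

open IsLocalRing

section Dcl

variable {D : Type} [CommRing D] [IsDomain D] [IsLocalRing D]

/-- The smallest dominated subring containing the set `S`. -/
def dcl (S : Set D) : Subring D := locIn (Subring.closure S).subtype

theorem dom_dcl (S : Set D) : Dom (dcl S) := dom_locIn _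

theorem subset_dcl (S : Set D) : S ⊆ dcl S := fun z hz =>
  map_mem_locIn (Subring.closure S).subtype ⟨z, Subring.subset_closure hz⟩

theorem dcl_le {S : Set D} {R' : Subring D} (h : Dom R') (hS : S ⊆ R') : dcl S ≤ R' :=
  locIn_le h fun a => (Subring.closure_le.mpr hS) a.2

theorem dcl_mono {S S' : Set D} (h : S ⊆ S') : dcl S ≤ dcl S' :=
  dcl_le (dom_dcl S') (h.trans (subset_dcl S'))

theorem dcl_eq {S : Set D} {R' : Subring D} (h : Dom R') (hS : S ⊆ R') (hR : R' ≤ dcl S) :
    dcl S = R' := le_antisymm (dcl_le h hS) hR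

/-- Iterated closures. -/
theorem dcl_union_dcl {S S' : Set D} : dcl ((dcl S : Set D) ∪ S') = dcl (S ∪ S') := by
  apply le_antisymm
  · refine dcl_le (dom_dcl _) ?_
    rintro z (hz | hz)
    · exact dcl_mono Set.subset_union_left hz
    · exact subset_dcl _ (Or.inr hz)
  · refine dcl_mono ?_
    rintro z (hz | hz)
    · exact Or.inl (subset_dcl _ hz)
    · exact Or.inr hz

theorem dcl_of_dom {R : Subring D} (h : Dom R) : dcl (R : Set D) = R :=
  le_antisymm (dcl_le h le_rfl) (subset_dcl _)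

end Dcl

section PowStep

variable {D : Type} [CommRing D] [IsDomain D] [IsLocalRing D]

-- BEGIN C1
open Polynomial in
set_option linter.unusedVariables false in
theorem c1_step_aux {R : Subring D} {s : Finset D} (hs : RSP R s) {a b w : D} (ha : a ∈ s) (hb : b ∈ s)
    (hab : a ≠ b) (hw : a * w = b) (P : Type) [CommRing P] [Algebra R[X] P]
    [IsLocalization.AtPrime P (primeW R w)] :
    ∃ (R' : Subring D) (s' : Finset D), R ≤ R' ∧ w ∈ R' ∧ RSP R' s' ∧
      (∀ x ∈ s, x ≠ b → x ∈ s') ∧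
      (w ∈ maximalIdeal D → w ∈ s' ∧ ∀ x ∈ s, x ≠ b → x ≠ w) ∧
      (∀ R'' : Subring D, Dom R'' → R ≤ R'' → w ∈ R'' → R' ≤ R'') := by
  classical
  have hloc := hs.dom.isLocalRing
  have hN := hs.noeth
  obtain ⟨gs, hgs1, hgs2, hgs3, hgs4, hgs5⟩ := exists_gen_primeW (w := w) hs
  have hht := card_add_card_le_height hs hgs1 hgs4
  have ha0 := hs.ne_zero ha
  have hsR : ∀ x ∈ s, x ∈ R := fun x hx => (hs.mem x hx).1
  have hlocP : IsLocalRing P := IsLocalization.AtPrime.isLocalRing P (primeW R w)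
  have hNP : IsNoetherianRing P :=
    IsLocalization.isNoetherianRing (primeW R w).primeCompl P inferInstance
  have hunit : ∀ q : (primeW R w).primeCompl, IsUnit (evW R w q) := by
    intro q
    by_contra hcon
    exact q.2 ((IsLocalRing.mem_maximalIdeal _).mpr hcon)
  let δ : P →+* D := IsLocalization.lift (M := (primeW R w).primeCompl) (g := evW R w) hunit
  have hδ : ∀ p : R[X], δ (algebraMap R[X] P p) = evW R w p := fun p => IsLocalization.lift_eq _ _
  have hmemP : ∀ x : P, x ∈ maximalIdeal P → δ x ∈ maximalIdeal D := by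
    intro x hx
    rw [← IsLocalization.AtPrime.map_eq_maximalIdeal (primeW R w) P] at hx
    have h1 : Ideal.map (algebraMap R[X] P) (primeW R w) ≤ (maximalIdeal D).comap δ := by
      rw [Ideal.map_le_iff_le_comap]
      intro p hp
      rw [Ideal.mem_comap, Ideal.mem_comap, hδ]
      exact hp
    exact h1 hx
  have hmemP' : ∀ x : P, δ x ∈ maximalIdeal D → x ∈ maximalIdeal P := by
    intro x hx
    rw [IsLocalRing.mem_maximalIdeal, mem_nonunits_iff] at hx ⊢
    exact fun h => hx (h.map δ)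
  -- generators of the maximal ideal of `P`
  have hprime : primeW R w = Ideal.span (cR R '' (s : Set D) ∪ gs) := by
    apply le_antisymm hgs3
    rw [Ideal.span_le]
    rintro _ (⟨x, hx, rfl⟩ | hg)
    · rw [SetLike.mem_coe, mem_primeW, evW_cR (hs.mem x hx).1]
      exact (hs.mem x hx).2
    · exact hgs2 _ hg
  -- the equation
  let f : R[X] := cR R a * X - cR R b
  have hf : evW R w f = 0 := by
    simp only [f, map_sub, map_mul, evW_X, evW_cR (hsR a ha), evW_cR (hsR b hb), hw, sub_self]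
  let f' : P := algebraMap R[X] P f
  have hf'm : f' ∈ maximalIdeal P := hmemP' _ (by rw [hδ, hf]; exact Ideal.zero_mem _)
  let T : Finset R[X] := (s.erase b).image (cR R) ∪ gs
  have hTcard : T.card ≤ (s.card - 1) + gs.card := by
    refine (Finset.card_union_le _ _).trans ?_
    refine add_le_add_left ?_ _
    exact Finset.card_image_le.trans (Finset.card_erase_of_mem hb).le
  have hmaxT : maximalIdeal P ≤ Ideal.span {f'} ⊔
      Ideal.span (algebraMap R[X] P '' (T : Set R[X])) := by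
    rw [← IsLocalization.AtPrime.map_eq_maximalIdeal (primeW R w) P, Ideal.map_le_iff_le_comap]
    intro q hq
    rw [hprime] at hq
    refine Submodule.span_induction (p := fun q _ => q ∈ Ideal.comap (algebraMap R[X] P)
      (Ideal.span {f'} ⊔ Ideal.span (algebraMap R[X] P '' (T : Set R[X])))) ?_ ?_ ?_ ?_ hq
    · rintro _ (⟨x, hx, rfl⟩ | hg)
      · by_cases hxb : x = b
        · subst hxb
          have h1 : cR R x = cR R a * X - f := by simp only [f]; ring
          rw [h1, Ideal.mem_comap, map_sub, map_mul]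
          refine Ideal.sub_mem _ ?_ ?_
          · apply Ideal.mul_mem_right
            apply Ideal.mem_sup_right
            apply Ideal.subset_span
            refine ⟨_, ?_, rfl⟩
            simp only [T, Finset.coe_union, Finset.coe_image]
            exact Or.inl ⟨a, by simpa [hab] using ha, rfl⟩
          · exact Ideal.mem_sup_left (Ideal.mem_span_singleton_self _)
        · rw [Ideal.mem_comap]
          apply Ideal.mem_sup_right
          apply Ideal.subset_span
          refine ⟨_, ?_, rfl⟩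
          simp only [T, Finset.coe_union, Finset.coe_image]
          exact Or.inl ⟨x, by simpa [hxb] using hx, rfl⟩
      · rw [Ideal.mem_comap]
        apply Ideal.mem_sup_right
        apply Ideal.subset_span
        refine ⟨_, ?_, rfl⟩
        simp only [T, Finset.coe_union]
        exact Or.inr hg
    · exact Ideal.zero_mem _
    · exact fun x y _ _ hx hy => Ideal.add_mem _ hx hy
    · exact fun c x _ hx => Ideal.mul_mem_left _ c hx
  -- the quotient is regular
  have hlocO := isLocalRing_quotient hf'm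
  let O := P ⧸ Ideal.span {f'}
  have hmaxO : maximalIdeal O = Ideal.span ((Ideal.Quotient.mk (Ideal.span {f'})) ''
      (algebraMap R[X] P '' (T : Set R[X]))) := by
    have h1 : (maximalIdeal P).map (Ideal.Quotient.mk (Ideal.span {f'})) = maximalIdeal O := by
      apply IsLocalRing.eq_maximalIdeal
      refine (Ideal.map_eq_top_or_isMaximal_of_surjective _
        Ideal.Quotient.mk_surjective (maximalIdeal.isMaximal P)).resolve_left ?_
      intro htop
      have h2 : RingHom.ker (Ideal.Quotient.mk (Ideal.span {f'})) ≤ maximalIdeal P := by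
        rw [Ideal.mk_ker, Ideal.span_le]; simpa using hf'm
      have := congrArg (Ideal.comap (Ideal.Quotient.mk (Ideal.span {f'}))) htop
      rw [Ideal.comap_map_of_surjective' _ Ideal.Quotient.mk_surjective, Ideal.comap_top,
        sup_eq_left.mpr h2] at this
      exact (maximalIdeal.isMaximal P).ne_top this
    apply le_antisymm
    · rw [← h1]
      refine (Ideal.map_mono hmaxT).trans ?_
      rw [Ideal.map_sup, Ideal.map_span, Ideal.map_span, Set.image_singleton]
      have : (Ideal.Quotient.mk (Ideal.span {f'})) f' = 0 := by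
        rw [Ideal.Quotient.eq_zero_iff_mem]; exact Ideal.mem_span_singleton_self f'
      rw [this, Ideal.span_singleton_eq_bot.mpr rfl, bot_sup_eq]
    · rw [← h1, Ideal.span_le]
      rintro _ ⟨_, ⟨q, hq, rfl⟩, rfl⟩
      apply Ideal.mem_map_of_mem
      apply hmemP'
      rw [hδ]
      have hq2 : q ∈ primeW R w := by
        rw [hprime]
        apply Ideal.subset_span
        simp only [T, Finset.coe_union, Finset.coe_image] at hq
        rcases hq with ⟨x, hx, rfl⟩ | hq
        · exact Or.inl ⟨x, Finset.mem_of_mem_erase hx, rfl⟩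
        · exact Or.inr hq
      exact hq2
  have hdimP : ((s.card + gs.card : ℕ) : WithBot ℕ∞) ≤ ringKrullDim P := by
    rw [IsLocalization.AtPrime.ringKrullDim_eq_height (primeW R w) P]
    exact_mod_cast hht
  have hspos : 1 ≤ s.card := Finset.card_pos.mpr ⟨b, hb⟩
  have hdimO : ((s.card - 1 + gs.card : ℕ) : WithBot ℕ∞) ≤ ringKrullDim O := by
    apply le_of_add_one_le_add_one'
    have h1 : ringKrullDim P ≤ ringKrullDim O + 1 := by
      rw [← maximalIdeal_height_eq_ringKrullDim]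
      exact Ideal.height_le_ringKrullDim_quotient_add_one hf'm
    refine le_trans ?_ (hdimP.trans h1)
    have h2 : s.card - 1 + gs.card + 1 = s.card + gs.card := by omega
    exact_mod_cast h2.le
  have hspanO : (maximalIdeal O).spanFinrank ≤ T.card := by
    rw [hmaxO]
    refine (Submodule.spanFinrank_span_le_ncard_of_finite (Set.toFinite _)).trans ?_
    refine (Set.ncard_image_le (Set.toFinite _)).trans ?_
    refine (Set.ncard_image_le (Set.toFinite _)).trans ?_
    rw [Set.ncard_coe_finset]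
  have hregO : IsRegularLocalRing O := by
    apply IsRegularLocalRing.of_spanFinrank_maximalIdeal_le
    refine le_trans ?_ hdimO
    exact_mod_cast hspanO.trans hTcard
  have hdomO : IsDomain O := isDomain_aux _ O le_rfl
  -- the comparison map
  let Φ : O →+* D := Ideal.Quotient.lift _ δ (by
    intro x hx
    have hle : Ideal.span {f'} ≤ RingHom.ker δ := by
      rw [Ideal.span_le, Set.singleton_subset_iff]
      change δ f' = 0
      rw [hδ, hf]
    exact hle hx)
  have hΦmk : ∀ x, Φ (Ideal.Quotient.mk _ x) = δ x := fun x => Ideal.Quotient.lift_mk _ _ _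
  have hΦ : ∀ p, Φ (Ideal.Quotient.mk _ (algebraMap R[X] P p)) = evW R w p := by
    intro p
    rw [hΦmk, hδ]
  -- elimination
  have helim : ∀ p : R[X], evW R w p = 0 →
      Ideal.Quotient.mk (Ideal.span {f'}) (algebraMap R[X] P p) = 0 := by
    intro p hp
    let ψ : R[X] →+* O := (Ideal.Quotient.mk (Ideal.span {f'})).comp (algebraMap R[X] P)
    have hψf : ψ f = 0 := by
      change Ideal.Quotient.mk _ f' = 0
      rw [Ideal.Quotient.eq_zero_iff_mem]
      exact Ideal.mem_span_singleton_self f'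
    have hψ : ψ (cR R a) * ψ X = ψ (cR R b) := by
      rw [← map_mul, ← sub_eq_zero, ← map_sub]
      exact hψf
    change ψ p = 0
    have key : ∀ n : ℕ, ∀ p : R[X], p.natDegree ≤ n → ∃ r : R, ψ (cR R a) ^ n * ψ p = ψ (C r) ∧
        a ^ n * evW R w p = r := by
      intro n
      induction n with
      | zero =>
        intro p hp
        obtain ⟨r, rfl⟩ : ∃ r, p = C r := ⟨_, Polynomial.eq_C_of_natDegree_le_zero hp⟩
        exact ⟨r, by simp, by simp⟩
      | succ n ih =>
        intro p hp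
        obtain ⟨r, hr1, hr2⟩ := ih p.divX (by
          rw [Polynomial.natDegree_divX_eq_natDegree_tsub_one]; omega)
        have e1 : ψ p = ψ p.divX * ψ X + ψ (C (p.coeff 0)) := by
          conv_lhs => rw [← Polynomial.divX_mul_X_add p]
          rw [map_add, map_mul]
        have e2 : evW R w p = evW R w p.divX * w + p.coeff 0 := by
          conv_lhs => rw [← Polynomial.divX_mul_X_add p]
          rw [map_add, map_mul, evW_X, evW_C]
        refine ⟨⟨b, hsR b hb⟩ * r + ⟨a, hsR a ha⟩ ^ (n + 1) * p.coeff 0, ?_, ?_⟩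
        · have h3 : ψ (cR R a) ^ (n + 1) * ψ p = (ψ (cR R a) ^ n * ψ p.divX) *
              (ψ (cR R a) * ψ X) + ψ (cR R a) ^ (n + 1) * ψ (C (p.coeff 0)) := by
            rw [e1]; ring
          rw [h3, hr1, hψ, cR_of_mem (hsR a ha), cR_of_mem (hsR b hb)]
          simp only [map_add, map_mul, map_pow]
          ring
        · have h3 : a ^ (n + 1) * evW R w p = (a ^ n * evW R w p.divX) * (a * w) +
              a ^ (n + 1) * p.coeff 0 := by
            rw [e2]; ring
          rw [h3, hr2, hw]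
          push_cast
          ring
    obtain ⟨r, hr1, hr2⟩ := key _ p le_rfl
    rw [hp, mul_zero] at hr2
    have hr0 : r = 0 := Subtype.ext hr2.symm
    rw [hr0, C_0, map_zero] at hr1
    refine (mul_eq_zero.mp hr1).resolve_left (pow_ne_zero _ ?_)
    intro h0
    apply ha0
    have h4 := hΦ (cR R a)
    change Φ (ψ (cR R a)) = _ at h4
    rw [h0, map_zero, evW_cR (hsR a ha)] at h4
    exact h4.symm
  have hinj : Function.Injective Φ := by
    rw [injective_iff_map_eq_zero]
    intro x hx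
    obtain ⟨x, rfl⟩ := Ideal.Quotient.mk_surjective x
    obtain ⟨p, q, rfl⟩ := IsLocalization.exists_mk'_eq (primeW R w).primeCompl x
    have h1 : Ideal.Quotient.mk (Ideal.span {f'}) (IsLocalization.mk' P p q) *
        Ideal.Quotient.mk (Ideal.span {f'}) (algebraMap R[X] P q) =
        Ideal.Quotient.mk (Ideal.span {f'}) (algebraMap R[X] P p) := by
      rw [← map_mul, IsLocalization.mk'_spec]
    have hp : evW R w p = 0 := by
      rw [← hΦ, ← h1, map_mul, hx, zero_mul]
    rw [helim p hp] at h1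
    refine (mul_eq_zero.mp h1).resolve_right ?_
    intro h6
    have h7 := hΦ q
    rw [h6, map_zero] at h7
    have h8 := hunit q
    rw [← h7] at h8
    exact not_isUnit_zero h8
  let R' : Subring D := Φ.range
  let e : O ≃+* R' := RingEquiv.ofBijective Φ.rangeRestrict
    ⟨fun x y hxy => hinj (congrArg Subtype.val hxy), Φ.rangeRestrict_surjective⟩
  have hmemR' : ∀ z ∈ R', ∃ x : P, δ x = z := by
    rintro _ ⟨x, rfl⟩
    obtain ⟨x, rfl⟩ := Ideal.Quotient.mk_surjective x
    exact ⟨x, (hΦmk x).symm⟩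
  have hmemR'' : ∀ x : P, δ x ∈ R' := fun x => ⟨Ideal.Quotient.mk _ x, hΦmk x⟩
  have hdom' : Dom R' := by
    intro z hz y hzy
    obtain ⟨x, rfl⟩ := hmemR' z hz
    have hx : IsUnit x := by
      by_contra hcon
      have h1 := hmemP x ((IsLocalRing.mem_maximalIdeal _).mpr hcon)
      rw [IsLocalRing.mem_maximalIdeal, mem_nonunits_iff] at h1
      exact h1 (IsUnit.of_mul_eq_one _ hzy)
    obtain ⟨x', hx'⟩ := hx.exists_right_inv
    have h2 : δ x * δ x' = 1 := by rw [← map_mul, hx', map_one]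
    have h3 : y = δ x' := by
      calc y = y * (δ x * δ x') := by rw [h2, mul_one]
        _ = (δ x * y) * δ x' := by ring
        _ = δ x' := by rw [hzy, one_mul]
    rw [h3]
    exact hmemR'' x'
  let s' : Finset D := (s.erase b) ∪ gs.image (evW R w)
  have hs'card : s'.card ≤ (s.card - 1) + gs.card := by
    refine (Finset.card_union_le _ _).trans ?_
    exact add_le_add (Finset.card_erase_of_mem hb).le Finset.card_image_le
  have hRR' : R ≤ R' := by
    intro r hr
    have := hmemR'' (algebraMap R[X] P (C ⟨r, hr⟩))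
    rwa [hδ, evW_C] at this
  have hdimR' : ringKrullDim R' = ringKrullDim O := (ringKrullDim_eq_of_ringEquiv e).symm
  have hmem' : ∀ x ∈ s', x ∈ R' ∧ x ∈ maximalIdeal D := by
    intro x hx
    rcases Finset.mem_union.mp hx with hx | hx
    · exact ⟨hRR' (hsR x (Finset.mem_of_mem_erase hx)), (hs.mem x (Finset.mem_of_mem_erase hx)).2⟩
    · obtain ⟨g, hg, rfl⟩ := Finset.mem_image.mp hx
      refine ⟨?_, hgs2 g hg⟩
      rw [← hδ]
      exact hmemR'' _
  have hgen' : ∀ z ∈ R', z ∈ maximalIdeal D → ∃ c : D → D, (∀ x ∈ s', c x ∈ R') ∧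
      z = ∑ x ∈ s', c x * x := by
    intro z hz hzm
    obtain ⟨x, rfl⟩ := hmemR' z hz
    have hx := hmaxT (hmemP' x hzm)
    -- the ideal of `R'` generated by `s'`
    let J : Ideal R' := Ideal.span (Set.range fun x : {x // x ∈ s'} =>
      (⟨x, (hmem' x x.2).1⟩ : R'))
    have hJ : ∀ x (hx : x ∈ s'), (⟨x, (hmem' x hx).1⟩ : R') ∈ J := fun x hx =>
      Ideal.subset_span ⟨⟨x, hx⟩, rfl⟩
    let δ' : P →+* R' := δ.codRestrict R' hmemR''
    have hle : Ideal.span {f'} ⊔ Ideal.span (algebraMap R[X] P '' (T : Set R[X])) ≤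
        J.comap δ' := by
      rw [sup_le_iff, Ideal.span_le, Ideal.span_le]
      constructor
      · rw [Set.singleton_subset_iff]
        change δ' f' ∈ J
        have : δ' f' = 0 := by
          apply Subtype.ext
          change δ f' = 0
          rw [hδ, hf]
        rw [this]
        exact J.zero_mem
      · rintro _ ⟨q, hq, rfl⟩
        simp only [T, Finset.coe_union, Finset.coe_image] at hq
        rcases hq with ⟨x, hx, rfl⟩ | hq
        · have hxs : x ∈ s := Finset.mem_of_mem_erase hx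
          have hx' : x ∈ s' := Finset.mem_union_left _ hx
          have : δ' (algebraMap R[X] P (cR R x)) = ⟨x, (hmem' x hx').1⟩ := by
            apply Subtype.ext
            change δ (algebraMap R[X] P (cR R x)) = x
            rw [hδ, evW_cR (hsR x hxs)]
          change δ' (algebraMap R[X] P (cR R x)) ∈ J
          rw [this]
          exact hJ x hx'
        · have hx' : evW R w q ∈ s' := Finset.mem_union_right _ (Finset.mem_image_of_mem _ hq)
          have : δ' (algebraMap R[X] P q) = ⟨evW R w q, (hmem' _ hx').1⟩ := by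
            apply Subtype.ext
            change δ (algebraMap R[X] P q) = _
            rw [hδ]
          change δ' (algebraMap R[X] P q) ∈ J
          rw [this]
          exact hJ _ hx'
    have h1 : δ' x ∈ J := hle hx
    obtain ⟨c, hc⟩ := (Ideal.mem_span_range_iff_exists_fun).mp h1
    refine ⟨fun y => if h : y ∈ s' then c ⟨y, h⟩ else 0, ?_, ?_⟩
    · intro y hy
      simp only [dif_pos hy]
      exact (c ⟨y, hy⟩).2
    · have h2 := congrArg (fun z : R' => (z : D)) hc
      rw [← Finset.sum_coe_sort]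
      simp only [Subtype.coe_eta]
      have h3 : ((δ' x : R') : D) = δ x := rfl
      rw [← h3, ← h2]
      simp
  have hrsp : RSP R' s' := by
    refine ⟨hdom', ?_, hmem', hgen', ?_⟩
    · exact isNoetherianRing_of_ringEquiv O e
    · rw [hdimR']
      refine le_trans ?_ hdimO
      exact_mod_cast hs'card
  have hsmall : ∀ R'' : Subring D, Dom R'' → R ≤ R'' → w ∈ R'' → R' ≤ R'' := by
    intro R'' hd hR hwR z hz
    obtain ⟨x, rfl⟩ := hmemR' z hz
    obtain ⟨p, q, rfl⟩ := IsLocalization.exists_mk'_eq (primeW R w).primeCompl x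
    have hev : ∀ p : R[X], evW R w p ∈ R'' := by
      intro p
      induction p using Polynomial.induction_on' with
      | add p q hp hq => rw [map_add]; exact R''.add_mem hp hq
      | monomial n r =>
        rw [← C_mul_X_pow_eq_monomial, map_mul, map_pow, evW_C, evW_X]
        exact R''.mul_mem (hR r.2) (R''.pow_mem hwR n)
    have h1 : δ (IsLocalization.mk' P p q) * evW R w q = evW R w p := by
      rw [← hδ, ← hδ, ← map_mul, IsLocalization.mk'_spec]
    obtain ⟨t, ht⟩ := (hunit q).exists_right_inv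
    have h2 : δ (IsLocalization.mk' P p q) = evW R w p * t := by
      rw [← h1, mul_assoc, ht, mul_one]
    rw [h2]
    exact R''.mul_mem (hev p) (hd _ (hev q) t ht)
  refine ⟨R', s', hRR', ?_, hrsp, ?_, ?_, hsmall⟩
  · have := hmemR'' (algebraMap R[X] P X)
    rwa [hδ, evW_X] at this
  · intro x hx hxb
    exact Finset.mem_union_left _ (Finset.mem_erase.mpr ⟨hxb, hx⟩)
  · intro hwm
    have hgs := hgs5 hwm
    have hws' : w ∈ s' := by
      apply Finset.mem_union_right
      rw [hgs]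
      simp
    refine ⟨hws', ?_⟩
    rintro x hx hxb rfl
    have h1 : s' = s.erase b := by
      simp only [s', hgs, Finset.image_singleton, evW_X]
      rw [Finset.union_eq_left, Finset.singleton_subset_iff]
      exact Finset.mem_erase.mpr ⟨hxb, hx⟩
    have := hrsp.isRegularLocalRing
    have h2 : ((s.card : ℕ) : WithBot ℕ∞) ≤ ringKrullDim R' := by
      rw [hdimR']
      refine le_trans ?_ hdimO
      rw [hgs, Finset.card_singleton]
      have : s.card ≤ s.card - 1 + 1 := by omega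
      exact_mod_cast this
    have h3 := spanFinrank_le_of_gen hdom' hmem' hgen'
    have h4 : ((s.card : ℕ) : WithBot ℕ∞) ≤ ((s'.card : ℕ) : WithBot ℕ∞) := by
      refine (h2.trans (ringKrullDim_le_spanFinrank_maximalIdeal R')).trans ?_
      exact_mod_cast h3
    have h5 : s.card ≤ s'.card := by exact_mod_cast h4
    rw [h1, Finset.card_erase_of_mem hb] at h5
    omega

/-- TASK C1. Elementary transforms, with the description of the ring. Proof: the ring `R'` found by
`exists_step_aux` (QWStep.lean) is `Φ.range`; all its elements are `δ (mk' p q) = evW p / evW q` with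
`p q : R[X]`, `evW q` a unit of `D`, so they lie in every dominated `R''` containing `R` and `w`. So
copy the proof of `exists_step_aux` (as a private lemma `c1_...`) with the additional conclusion
`∀ R'' : Subring D, Dom R'' → R ≤ R'' → w ∈ R'' → R' ≤ R''`; then `R' = dcl (R ∪ {w})` by
`dcl_eq`. (Alternative without copying: apply `exists_step` inside the local domain
`D' = dcl (R ∪ {w})`; the ring found there is everything.) -/
theorem exists_step_dcl {R : Subring D} {s : Finset D} (hs : RSP R s) {a b w : D} (ha : a ∈ s)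
    (hb : b ∈ s) (hab : a ≠ b) (hw : a * w = b) :
    ∃ s' : Finset D, RSP (dcl ((R : Set D) ∪ {w})) s' ∧ (∀ x ∈ s, x ≠ b → x ∈ s') ∧
      (w ∈ maximalIdeal D → w ∈ s' ∧ ∀ x ∈ s, x ≠ b → x ≠ w) := by
  obtain ⟨R', s', h1, h2, h3, h4, h5, h6⟩ :=
    c1_step_aux hs ha hb hab hw (Localization.AtPrime (primeW R w))
  have h7 : dcl ((R : Set D) ∪ {w}) = R' := by
    refine dcl_eq h3.dom ?_ ?_
    · rintro z (hz | hz)
      · exact h1 hz
      · rw [Set.mem_singleton_iff] at hz
        rw [hz]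
        exact h2
    · refine h6 _ (dom_dcl _) ?_ ?_
      · intro z hz
        exact subset_dcl _ (Or.inl hz)
      · exact subset_dcl _ (Or.inr rfl)
  rw [h7]
  exact ⟨s', h3, h4, h5⟩
-- END C1

-- BEGIN C2
theorem c2_absorb {S T : Set D} (h : T ⊆ dcl S) : dcl (S ∪ T) = dcl S :=
  le_antisymm (dcl_le (dom_dcl _) (Set.union_subset (subset_dcl _) h))
    (dcl_mono Set.subset_union_left)

theorem c2_self {R : Subring D} (hR : Dom R) {T : Set D} (h : T ⊆ R) :
    dcl ((R : Set D) ∪ T) = R := by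
  rw [c2_absorb, dcl_of_dom hR]
  rw [dcl_of_dom hR]
  exact h

/-- TASK C2 (three statements). The same for a power of `a` (`exists_pow_step` in QWTower.lean is
the model; `dcl (dcl (R ∪ {a ^ k w}) ∪ {w}) = dcl (R ∪ {w})` since `a ∈ R`). -/
theorem exists_pow_step_dcl (k : ℕ) (hk : 1 ≤ k) {R : Subring D} {s : Finset D} (hs : RSP R s)
    {a u w : D} (ha : a ∈ s) (hu : u ∈ s) (hau : a ≠ u) (hw : a ^ k * w = u) :
    ∃ s' : Finset D, RSP (dcl ((R : Set D) ∪ {w})) s' ∧ (∀ x ∈ s, x ≠ u → x ∈ s') ∧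
      (w ∈ maximalIdeal D → w ∈ s' ∧ ∀ x ∈ s, x ≠ u → x ≠ w) := by
  induction k, hk using Nat.le_induction generalizing R s a u w with
  | base =>
    rw [pow_one] at hw
    exact exists_step_dcl hs ha hu hau hw
  | succ k hk ih =>
    obtain ⟨w₁, hw₁⟩ : ∃ w₁, w₁ = a ^ k * w := ⟨_, rfl⟩
    have h1 : a * w₁ = u := by rw [hw₁, ← hw]; ring
    obtain ⟨s₁, h4, h5, h6⟩ := exists_step_dcl hs ha hu hau h1
    have ham : a ∈ maximalIdeal D := (hs.mem a ha).2
    have hw₁m : w₁ ∈ maximalIdeal D := by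
      rw [hw₁]
      exact Ideal.mul_mem_right _ _ (Ideal.pow_mem_of_mem _ ham _ (by omega))
    obtain ⟨h7, h8⟩ := h6 hw₁m
    obtain ⟨s', g3, g4, g5⟩ := ih h4 (h5 a ha hau) h7 (h8 a ha hau) hw₁.symm
    have e : dcl (((dcl ((R : Set D) ∪ {w₁}) : Subring D) : Set D) ∪ {w}) =
        dcl ((R : Set D) ∪ {w}) := by
      rw [dcl_union_dcl, Set.union_right_comm]
      refine c2_absorb ?_
      rw [Set.singleton_subset_iff, hw₁]
      refine (dcl ((R : Set D) ∪ {w})).mul_mem ?_ ?_
      · exact (dcl ((R : Set D) ∪ {w})).pow_mem (subset_dcl _ (Or.inl (hs.mem a ha).1)) _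
      · exact subset_dcl _ (Or.inr rfl)
    rw [e] at g3
    refine ⟨s', g3, ?_, ?_⟩
    · intro x hx hxu
      exact g4 x (h5 x hx hxu) (h8 x hx hxu)
    · intro hwm
      obtain ⟨g6, g7⟩ := g5 hwm
      exact ⟨g6, fun x hx hxu => g7 x (h5 x hx hxu) (h8 x hx hxu)⟩

/-- Several elements (`exists_pow_steps` in QWTower.lean is the model). -/
theorem exists_pow_steps_dcl (k : ℕ) (hk : 1 ≤ k) (a : D) (w : D → D) (us : Finset D) :
    ∀ {R : Subring D} {s : Finset D}, RSP R s → a ∈ s → a ∉ us → us ⊆ s →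
    (∀ u ∈ us, a ^ k * w u = u) →
    ∃ s' : Finset D, RSP (dcl ((R : Set D) ∪ w '' us)) s' ∧ (∀ x ∈ s, x ∉ us → x ∈ s') := by
  classical
  induction us using Finset.induction_on with
  | empty =>
    intro R s hs _ _ _ _
    refine ⟨s, ?_, fun x hx _ => hx⟩
    rw [c2_self hs.dom (by simp)]
    exact hs
  | insert u us hu ih =>
    intro R s hs ha hau hsub hw
    rw [Finset.mem_insert, not_or] at hau
    obtain ⟨s₁, h4, h5, -⟩ := exists_pow_step_dcl k hk hs ha
      (hsub (Finset.mem_insert_self _ _)) hau.1 (hw u (Finset.mem_insert_self _ _))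
    obtain ⟨s', g3, g4⟩ := ih h4 (h5 a ha hau.1) hau.2 (by
        intro x hx
        refine h5 x (hsub (Finset.mem_insert_of_mem hx)) ?_
        rintro rfl
        exact hu hx)
      (fun x hx => hw x (Finset.mem_insert_of_mem hx))
    refine ⟨s', ?_, ?_⟩
    · have e : dcl (((dcl ((R : Set D) ∪ {w u}) : Subring D) : Set D) ∪ w '' us) =
          dcl ((R : Set D) ∪ w '' (insert u us : Finset D)) := by
        rw [dcl_union_dcl, Set.union_assoc, Finset.coe_insert, Set.image_insert_eq,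
          Set.insert_eq]
      rw [e] at g3
      exact g3
    · intro x hx hxu
      rw [Finset.mem_insert, not_or] at hxu
      exact g4 x (h5 x hx hxu.1) hxu.2

/-- The second kind of chart (`isRegularLocalRing_of_tower₂` in QWTower.lean is the model). -/
theorem exists_tower_dcl {R : Subring D} {s : Finset D} (hs : RSP R s) {a u₁ : D} (ha : a ∈ s)
    (hu₁ : u₁ ∈ s) (hau₁ : a ≠ u₁) (k : ℕ) {v t : D} (hv : a ^ k * v = u₁) (ht : v * t = a)
    (w : D → D) (us : Finset D) (hau : a ∉ us) (hu₁u : u₁ ∉ us) (hus : us ⊆ s)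
    (hw : ∀ u ∈ us, u₁ * w u = u) :
    ∃ s' : Finset D, RSP (dcl ((R : Set D) ∪ ({v, t} ∪ w '' us))) s' := by
  obtain ⟨s₁, h3, h4⟩ := exists_pow_steps_dcl 1 le_rfl u₁ w us hs hu₁ hu₁u hus
    (by simpa using hw)
  have ha₁ := h4 a ha hau
  have hu₁₁ := h4 u₁ hu₁ hu₁u
  obtain ⟨R₁, hR₁⟩ : ∃ R₁, R₁ = dcl ((R : Set D) ∪ w '' us) := ⟨_, rfl⟩
  rw [← hR₁] at h3
  -- adjoin `v`
  obtain ⟨s₂, g3, g4, g5⟩ : ∃ s₂ : Finset D, RSP (dcl ((R₁ : Set D) ∪ {v})) s₂ ∧ a ∈ s₂ ∧
      (v ∈ maximalIdeal D → v ∈ s₂ ∧ v ≠ a) := by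
    rcases Nat.eq_zero_or_pos k with rfl | hk
    · rw [pow_zero, one_mul] at hv
      subst hv
      refine ⟨s₁, ?_, ha₁, fun _ => ⟨hu₁₁, hau₁.symm⟩⟩
      rw [c2_self h3.dom (Set.singleton_subset_iff.2 (h3.mem _ hu₁₁).1)]
      exact h3
    · obtain ⟨s₂, g3, g4, g5⟩ := exists_pow_step_dcl k hk h3 ha₁ hu₁₁ hau₁ hv
      refine ⟨s₂, g3, g4 a ha₁ hau₁, fun hvm => ?_⟩
      obtain ⟨g6, g7⟩ := g5 hvm
      exact ⟨g6, (g7 a ha₁ hau₁).symm⟩
  obtain ⟨R₂, hR₂⟩ : ∃ R₂, R₂ = dcl ((R₁ : Set D) ∪ {v}) := ⟨_, rfl⟩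
  rw [← hR₂] at g3
  have g2 : v ∈ R₂ := by rw [hR₂]; exact subset_dcl _ (Or.inr rfl)
  -- adjoin `t`
  obtain ⟨s₃, f3⟩ : ∃ s₃ : Finset D, RSP (dcl ((R₂ : Set D) ∪ {t})) s₃ := by
    by_cases hvm : v ∈ maximalIdeal D
    · obtain ⟨g6, g7⟩ := g5 hvm
      obtain ⟨s₃, f3, -⟩ := exists_step_dcl g3 g6 g4 g7 ht
      exact ⟨s₃, f3⟩
    · rw [IsLocalRing.mem_maximalIdeal, mem_nonunits_iff, not_not] at hvm
      obtain ⟨v', hv'⟩ := hvm.exists_right_inv
      refine ⟨s₂, ?_⟩
      rw [c2_self g3.dom]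
      · exact g3
      have h5 : t = a * v' := by
        calc t = (v * v') * t := by rw [hv', one_mul]
          _ = (v * t) * v' := by ring
          _ = a * v' := by rw [ht]
      rw [Set.singleton_subset_iff, h5]
      exact R₂.mul_mem (g3.mem a g4).1 (g3.dom v g2 v' hv')
  refine ⟨s₃, ?_⟩
  have e : dcl ((R₂ : Set D) ∪ {t}) = dcl ((R : Set D) ∪ ({v, t} ∪ w '' us)) := by
    rw [hR₂, hR₁, dcl_union_dcl, Set.union_assoc, dcl_union_dcl]
    congr 1
    ext z
    simp only [Set.mem_union, Set.mem_insert_iff, Set.mem_singleton_iff]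
    tauto
  rw [e] at f3
  exact f3
-- END C2

-- BEGIN C3
/-- TASK C3. Blowing up the maximal ideal. The `g i` generate the maximal ideal of `R`, and `g i₀`
divides all `g i` in `D`. Some `a ∈ s` is associated to `g i₀` in `D` (otherwise `g i₀ = ∑ c_a a` with all
`a / g i₀` in the maximal ideal of `D` gives a contradiction); apply `exists_pow_steps_dcl` with
`k = 1`, this `a` and `us = s.erase a`; both closures coincide. -/
theorem exists_blow_dcl {R : Subring D} {s : Finset D} (hs : RSP R s) {κ : Type} [Fintype κ]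
    (g q : κ → D) (hgR : ∀ i, g i ∈ R) (hgm : ∀ i, g i ∈ maximalIdeal D)
    (hmax : ∀ z ∈ R, z ∈ maximalIdeal D → ∃ c : κ → D, (∀ i, c i ∈ R) ∧ z = ∑ i, c i * g i)
    {i₀ : κ} (h0 : g i₀ ≠ 0) (hq : ∀ i, g i₀ * q i = g i) :
    ∃ s' : Finset D, RSP (dcl ((R : Set D) ∪ Set.range q)) s' := by
  classical
  obtain ⟨T, hT⟩ : ∃ T, T = dcl ((R : Set D) ∪ Set.range q) := ⟨_, rfl⟩
  rw [← hT]
  have hTdom : Dom T := by rw [hT]; exact dom_dcl _
  have hRT : ∀ z ∈ R, z ∈ T := fun z hz => by rw [hT]; exact subset_dcl _ (Or.inl hz)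
  have hqT : ∀ i, q i ∈ T := fun i => by rw [hT]; exact subset_dcl _ (Or.inr ⟨i, rfl⟩)
  have hr : ∀ a ∈ s, ∃ r ∈ T, g i₀ * r = a := by
    intro a ha
    obtain ⟨c, hc, hac⟩ := hmax a (hs.mem a ha).1 (hs.mem a ha).2
    refine ⟨∑ i, c i * q i, T.sum_mem fun i _ => T.mul_mem (hRT _ (hc i)) (hqT i), ?_⟩
    rw [hac, Finset.mul_sum]
    refine Finset.sum_congr rfl fun i _ => ?_
    rw [← hq i]; ring
  choose! r hrT hr using hr
  obtain ⟨d, hd, hgd⟩ := hs.gen (g i₀) (hgR i₀) (hgm i₀)
  have h1 : ∑ x ∈ s, d x * r x = 1 := by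
    apply mul_left_cancel₀ h0
    rw [mul_one, Finset.mul_sum]
    conv_rhs => rw [hgd]
    refine Finset.sum_congr rfl fun x hx => ?_
    calc g i₀ * (d x * r x) = d x * (g i₀ * r x) := by ring
      _ = d x * x := by rw [hr x hx]
  obtain ⟨a, ha, hau⟩ : ∃ a ∈ s, IsUnit (r a) := by
    by_contra hcon
    push Not at hcon
    have h2 : (1 : D) ∈ maximalIdeal D := by
      rw [← h1]
      exact Ideal.sum_mem _ fun x hx => Ideal.mul_mem_left _ _
        ((IsLocalRing.mem_maximalIdeal _).2 (hcon x hx))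
    exact (Ideal.ne_top_iff_one _).1 (maximalIdeal.isMaximal D).ne_top h2
  obtain ⟨ρ, hρ⟩ := hau.exists_right_inv
  obtain ⟨w, hw⟩ : ∃ w : D → D, ∀ u, w u = ρ * r u := ⟨_, fun _ => rfl⟩
  have haw : ∀ u ∈ s.erase a, a ^ 1 * w u = u := by
    intro u hu
    have h3 := hr u (Finset.mem_of_mem_erase hu)
    rw [pow_one, hw]
    calc a * (ρ * r u) = g i₀ * r a * (ρ * r u) := by rw [hr a ha]
      _ = g i₀ * r u * (r a * ρ) := by ring
      _ = u := by rw [hρ, mul_one, h3]
  obtain ⟨s', h2, -⟩ := exists_pow_steps_dcl 1 le_rfl a w (s.erase a) hs ha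
    (Finset.notMem_erase a s) (Finset.erase_subset a s) haw
  refine ⟨s', ?_⟩
  obtain ⟨T', hT'⟩ : ∃ T', T' = dcl ((R : Set D) ∪ w '' (s.erase a : Finset D)) := ⟨_, rfl⟩
  rw [← hT'] at h2
  have hT'dom : Dom T' := by rw [hT']; exact dom_dcl _
  have hRT' : ∀ z ∈ R, z ∈ T' := fun z hz => by rw [hT']; exact subset_dcl _ (Or.inl hz)
  have hwT' : ∀ u ∈ s.erase a, w u ∈ T' := fun u hu => by
    rw [hT']; exact subset_dcl _ (Or.inr ⟨u, hu, rfl⟩)
  have hle1 : T' ≤ T := by
    rw [hT']
    refine dcl_le hTdom ?_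
    rintro z (hz | ⟨u, hu, rfl⟩)
    · exact hRT z hz
    · change w u ∈ T
      rw [hw]
      exact T.mul_mem (hTdom _ (hrT a ha) _ hρ) (hrT u (Finset.mem_of_mem_erase hu))
  -- elements of `R` in the maximal ideal are multiples of `a` in `T'`
  have hdiv : ∀ z ∈ R, z ∈ maximalIdeal D → ∃ h ∈ T', z = a * h := by
    intro z hz hzm
    obtain ⟨c, hc, hzc⟩ := hs.gen z hz hzm
    refine ⟨c a + ∑ u ∈ s.erase a, c u * w u, T'.add_mem (hRT' _ (hc a ha))
      (T'.sum_mem fun u hu => T'.mul_mem (hRT' _ (hc u (Finset.mem_of_mem_erase hu)))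
        (hwT' u hu)), ?_⟩
    rw [hzc, ← Finset.add_sum_erase s _ ha, mul_add, Finset.mul_sum]
    congr 1
    · ring
    · refine Finset.sum_congr rfl fun u hu => ?_
      have h4 := haw u hu
      rw [pow_one] at h4
      calc c u * u = c u * (a * w u) := by rw [h4]
        _ = a * (c u * w u) := by ring
  obtain ⟨h₀, hh₀, hgh₀⟩ := hdiv (g i₀) (hgR i₀) (hgm i₀)
  have hra : h₀ * r a = 1 := by
    apply mul_left_cancel₀ h0
    calc g i₀ * (h₀ * r a) = (g i₀ * r a) * h₀ := by ring
      _ = a * h₀ := by rw [hr a ha]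
      _ = g i₀ * 1 := by rw [← hgh₀, mul_one]
  have hraT' : r a ∈ T' := hT'dom _ hh₀ _ hra
  have hle2 : T ≤ T' := by
    rw [hT]
    refine dcl_le hT'dom ?_
    rintro z (hz | ⟨i, rfl⟩)
    · exact hRT' z hz
    · change q i ∈ T'
      obtain ⟨h, hh, hgh⟩ := hdiv (g i) (hgR i) (hgm i)
      have h5 : q i = r a * h := by
        apply mul_left_cancel₀ h0
        calc g i₀ * q i = a * h := by rw [hq i, hgh]
          _ = (g i₀ * r a) * h := by rw [hr a ha]
          _ = g i₀ * (r a * h) := by ring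
      rw [h5]
      exact T'.mul_mem hraT' hh
  rw [le_antisymm hle2 hle1]
  exact h2
-- END C3

end PowStep

section Pr

variable {D : Type} [CommRing D] [IsDomain D] [IsLocalRing D] {A : Subring D}

/-- The ideal `I` of `A` becomes principal in `R`, generated by `p`. -/
def Pr (R : Subring D) (I : Ideal A) (p : D) : Prop :=
  (∀ y ∈ I, ∃ q ∈ R, (y : D) = p * q) ∧ p ∈ I.map A.subtype

-- BEGIN C4
theorem c4_dvd {I : Ideal A} {b : A} (hbd : ∀ y ∈ I, (b : D) ∣ y) {p : D}
    (hp : p ∈ I.map A.subtype) : (b : D) ∣ p := by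
  have h1 : I.map A.subtype ≤ Ideal.span {(b : D)} := by
    rw [Ideal.map_le_iff_le_comap]
    intro y hy
    exact Ideal.mem_span_singleton.2 (hbd y hy)
  exact Ideal.mem_span_singleton.1 (h1 hp)

/-- TASK C4 (two statements). The quotients of the elements of the ideal lie in `R`: `b = p u` with `u ∈ R`, and `b ∣ p` in
`D` since `p ∈ I D`, so `u` is a unit of `D` and its inverse lies in `R`. -/
theorem Pr.mem {R : Subring D} (hR : Dom R) {I : Ideal A} {p : D} (h : Pr R I p) {b : A}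
    (hb0 : (b : D) ≠ 0) (hbm : b ∈ I) (hbd : ∀ y ∈ I, (b : D) ∣ y) {y : A} (hy : y ∈ I) {q : D}
    (hq : (b : D) * q = y) : q ∈ R := by
  obtain ⟨h1, h2⟩ := h
  obtain ⟨u, hu, hbu⟩ := h1 b hbm
  obtain ⟨q', hq', hyq'⟩ := h1 y hy
  obtain ⟨v, hv⟩ := c4_dvd hbd h2
  have h3 : u * v = 1 := by
    apply mul_left_cancel₀ hb0
    calc (b : D) * (u * v) = (b * v) * u := by ring
      _ = p * u := by rw [← hv]
      _ = b * 1 := by rw [← hbu, mul_one]
  have h4 : q = v * q' := by
    apply mul_left_cancel₀ hb0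
    calc (b : D) * q = p * q' := by rw [hq, hyq']
      _ = (b * v) * q' := by rw [← hv]
      _ = b * (v * q') := by ring
  rw [h4]
  exact R.mul_mem (hR u hu v h3) hq'

/-- One of the generators of a principal ideal is a generator. Since `I.map A.subtype` is generated
by multiples of `b`, `p g i = b d i`; with `b = p ∑ c i g i` get `b = b ∑ c i d i`, so
`∑ c i d i = 1` and some `d i₀` is a unit (D is local): `p g i = p g i₀ (d i₀)⁻¹ d i`. -/
theorem exists_gen {I : Ideal A} {p : D} {κ : Type} [Fintype κ] {g : κ → D}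
    (h1 : ∀ y ∈ I, ∃ c : κ → D, (y : D) = p * ∑ i, c i * g i)
    (h2 : ∀ i, p * g i ∈ I.map A.subtype) {b : A}
    (hb0 : (b : D) ≠ 0) (hbm : b ∈ I) (hbd : ∀ y ∈ I, (b : D) ∣ y) :
    ∃ i₀, g i₀ ≠ 0 ∧ ∀ i, g i₀ ∣ g i := by
  have h3 : ∀ i, ∃ d, p * g i = b * d := fun i => c4_dvd hbd (h2 i)
  choose d hd using h3
  obtain ⟨c, hc⟩ := h1 b hbm
  have h4 : ∑ i, c i * d i = 1 := by
    apply mul_left_cancel₀ hb0
    rw [mul_one]
    conv_rhs => rw [hc]
    rw [Finset.mul_sum, Finset.mul_sum]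
    refine Finset.sum_congr rfl fun i _ => ?_
    calc (b : D) * (c i * d i) = c i * (b * d i) := by ring
      _ = c i * (p * g i) := by rw [hd i]
      _ = p * (c i * g i) := by ring
  obtain ⟨i₀, hi₀⟩ : ∃ i₀, IsUnit (d i₀) := by
    by_contra hcon
    push Not at hcon
    have h5 : (1 : D) ∈ maximalIdeal D := by
      rw [← h4]
      exact Ideal.sum_mem _ fun x _ => Ideal.mul_mem_left _ _
        ((IsLocalRing.mem_maximalIdeal _).2 (hcon x))
    exact (Ideal.ne_top_iff_one _).1 (maximalIdeal.isMaximal D).ne_top h5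
  obtain ⟨ρ, hρ⟩ := hi₀.exists_right_inv
  have h6 : p * g i₀ ≠ 0 := by
    rw [hd i₀]
    exact mul_ne_zero hb0 hi₀.ne_zero
  refine ⟨i₀, right_ne_zero_of_mul h6, fun i => ⟨ρ * d i, ?_⟩⟩
  apply mul_left_cancel₀ (left_ne_zero_of_mul h6)
  calc p * g i = b * d i := hd i
    _ = b * (d i₀ * ρ) * d i := by rw [hρ, mul_one]
    _ = (b * d i₀) * (ρ * d i) := by ring
    _ = (p * g i₀) * (ρ * d i) := by rw [hd i₀]
    _ = p * (g i₀ * (ρ * d i)) := by ring
-- END C4

/-- The elements of `A` which are multiples of `p` in `R`. -/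
def mulId (R : Subring D) (hA : A ≤ R) (p : D) : Ideal A where
  carrier := {y | ∃ q ∈ R, (y : D) = p * q}
  add_mem' := by
    rintro a b ⟨q, hq, h1⟩ ⟨q', hq', h2⟩
    exact ⟨q + q', R.add_mem hq hq', by rw [Subring.coe_add, h1, h2]; ring⟩
  zero_mem' := ⟨0, R.zero_mem, by simp⟩
  smul_mem' := by
    rintro c a ⟨q, hq, h1⟩
    exact ⟨c * q, R.mul_mem (hA c.2) hq, by rw [smul_eq_mul, Subring.coe_mul, h1]; ring⟩

theorem mem_mulId {R : Subring D} {hA : A ≤ R} {p : D} {y : A} :
    y ∈ mulId R hA p ↔ ∃ q ∈ R, (y : D) = p * q := Iff.rfl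

theorem mul_le_mulId {R : Subring D} {hA : A ≤ R} {p p' : D} {I J : Ideal A}
    (hI : I ≤ mulId R hA p) (hJ : J ≤ mulId R hA p') : I * J ≤ mulId R hA (p * p') := by
  rw [Ideal.mul_le]
  intro a ha b hb
  obtain ⟨q, hq, h1⟩ := hI ha
  obtain ⟨q', hq', h2⟩ := hJ hb
  exact ⟨q * q', R.mul_mem hq hq', by rw [Subring.coe_mul, h1, h2]; ring⟩

theorem pow_le_mulId {R : Subring D} {hA : A ≤ R} {p : D} {I : Ideal A}
    (hI : I ≤ mulId R hA p) (k : ℕ) : I ^ k ≤ mulId R hA (p ^ k) := by
  induction k with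
  | zero =>
    rintro y -
    exact ⟨y, hA y.2, by simp⟩
  | succ k ih =>
    rw [pow_succ, pow_succ]
    exact mul_le_mulId ih hI

theorem mulId_mono {R : Subring D} {hA : A ≤ R} {p p' c : D} (hc : c ∈ R) (h : p = p' * c) :
    mulId R hA p ≤ mulId R hA p' := by
  rintro y ⟨q, hq, h1⟩
  exact ⟨c * q, R.mul_mem hc hq, by rw [h1, h]; ring⟩

end Pr

section Sq

variable {D : Type} [CommRing D] [IsDomain D] [IsLocalRing D]

/-- The elements of `R` which are squares modulo the ideal `N`. -/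
def sqRing {R : Subring D} (hR : Dom R) (N : Ideal R) (h2 : (2 : R) ∈ N) : Subring D where
  carrier := {z | ∃ (hz : z ∈ R) (b : R), (⟨z, hz⟩ : R) - b ^ 2 ∈ N}
  mul_mem' := by
    rintro z w ⟨hz, b, hb⟩ ⟨hw, c, hc⟩
    refine ⟨R.mul_mem hz hw, b * c, ?_⟩
    have : (⟨z * w, R.mul_mem hz hw⟩ : R) - (b * c) ^ 2 =
        (⟨z, hz⟩ - b ^ 2) * ⟨w, hw⟩ + b ^ 2 * (⟨w, hw⟩ - c ^ 2) := by
      apply Subtype.ext
      push_cast
      ring
    rw [this]
    exact N.add_mem (N.mul_mem_right _ hb) (N.mul_mem_left _ hc)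
  one_mem' := ⟨R.one_mem, 1, by
    have : (⟨1, R.one_mem⟩ : R) - 1 ^ 2 = 0 := by apply Subtype.ext; simp
    rw [this]; exact N.zero_mem⟩
  add_mem' := by
    rintro z w ⟨hz, b, hb⟩ ⟨hw, c, hc⟩
    refine ⟨R.add_mem hz hw, b + c, ?_⟩
    have : (⟨z + w, R.add_mem hz hw⟩ : R) - (b + c) ^ 2 =
        (⟨z, hz⟩ - b ^ 2) + (⟨w, hw⟩ - c ^ 2) - (b * c) * 2 := by
      have e2 : ((2 : R) : D) = 2 := rfl
      apply Subtype.ext
      push_cast
      rw [e2]
      ring
    rw [this]
    exact N.sub_mem (N.add_mem hb hc) (N.mul_mem_left _ h2)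
  zero_mem' := ⟨R.zero_mem, 0, by
    have : (⟨0, R.zero_mem⟩ : R) - 0 ^ 2 = 0 := by apply Subtype.ext; simp
    rw [this]; exact N.zero_mem⟩
  neg_mem' := by
    rintro z ⟨hz, b, hb⟩
    refine ⟨R.neg_mem hz, b, ?_⟩
    have : (⟨-z, R.neg_mem hz⟩ : R) - b ^ 2 = -(⟨z, hz⟩ - b ^ 2) - b ^ 2 * 2 := by
      have e2 : ((2 : R) : D) = 2 := rfl
      apply Subtype.ext
      push_cast
      rw [e2]
      ring
    rw [this]
    exact N.sub_mem (N.neg_mem hb) (N.mul_mem_left _ h2)

theorem mem_sqRing {R : Subring D} {hR : Dom R} {N : Ideal R} {h2 : (2 : R) ∈ N} {z : D} :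
    z ∈ sqRing hR N h2 ↔ ∃ (hz : z ∈ R) (b : R), (⟨z, hz⟩ : R) - b ^ 2 ∈ N := Iff.rfl

theorem dom_sqRing {R : Subring D} (hR : Dom R) (N : Ideal R) (h2 : (2 : R) ∈ N) :
    Dom (sqRing hR N h2) := by
  rintro a ⟨ha, b, hb⟩ c hac
  have hc := hR a ha c hac
  refine ⟨hc, ⟨c, hc⟩ * b, ?_⟩
  have : (⟨c, hc⟩ : R) - (⟨c, hc⟩ * b) ^ 2 = ⟨c, hc⟩ ^ 2 * (⟨a, ha⟩ - b ^ 2) := by
    apply Subtype.ext
    push_cast
    linear_combination -(c * hac)
  rw [this]
  exact N.mul_mem_left _ hb

-- BEGIN C5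
/-- TASK C5. If all elements of `R` are squares modulo `N`, then `N` is the maximal ideal: for `z` in the
maximal ideal, `z - b ^ 2 ∈ N` gives `b` in the maximal ideal, so `𝔪 ≤ N ⊔ 𝔪 ^ 2`, Nakayama. -/
theorem maximalIdeal_le_of_sq {R : Subring D} (hR : Dom R) [IsNoetherianRing R] [IsLocalRing R]
    {N : Ideal R} {h2 : (2 : R) ∈ N} (hN : N ≤ maximalIdeal R) (hsq : R ≤ sqRing hR N h2) :
    maximalIdeal R ≤ N := by
  apply Submodule.le_of_le_smul_of_le_jacobson_bot (I := maximalIdeal R)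
    (N := N) (N' := maximalIdeal R) (Ideal.fg_of_isNoetherianRing _)
    (IsLocalRing.maximalIdeal_le_jacobson _)
  intro z hz
  obtain ⟨hzR, b, hb⟩ := hsq z.2
  have hb' : z - b ^ 2 ∈ N := hb
  have hb2 : b ^ 2 ∈ maximalIdeal R := by
    have h1 := Ideal.sub_mem _ hz (hN hb')
    rwa [sub_sub_cancel] at h1
  have hbm : b ∈ maximalIdeal R := (maximalIdeal.isMaximal R).isPrime.mem_of_pow_mem 2 hb2
  have e : z = (z - b ^ 2) + b ^ 2 := by ring
  rw [e]
  refine Submodule.add_mem _ (Submodule.mem_sup_left hb') (Submodule.mem_sup_right ?_)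
  rw [smul_eq_mul, pow_two]
  exact Ideal.mul_mem_mul hbm hbm
-- END C5

end Sq

section Principal

variable {D : Type} [CommRing D] [IsDomain D] [IsLocalRing D] {τ : D →+* D}

-- BEGIN C6
/-- TASK C6. **The augmentation ideal at the exceptional points**: all `g i` are eigenvectors with nearly
the same eigenvalue. Take `y = g i₀`; `diffRing τ (c * g i₀)` (QWTau.lean) contains `R` and the
`q i`: `τ (q i) - q i = q i * c * (l i - l i₀) / (1 + c * l i₀)` (`1 + c * l i₀` is a unit since
`τ (τ (g i₀)) = g i₀`). -/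
theorem principal_of_eigen (hτ : ∀ d, τ (τ d) = d) {R : Subring D} {κ : Type} {g q l : κ → D}
    {c : D} {i₀ : κ} (hc : c ≠ 0) (h0 : g i₀ ≠ 0) (hq : ∀ i, g i₀ * q i = g i)
    (hg : ∀ i, τ (g i) = g i * (1 + c * l i)) (hu : IsUnit (l i₀))
    (hl : ∀ i, g i₀ ∣ l i - l i₀) (hR : ∀ z ∈ R, ∃ a, τ z - z = a * (c * g i₀))
    (htop : dcl ((R : Set D) ∪ Set.range q) = ⊤) :
    ∃ y, τ y - y ≠ 0 ∧ ∀ w, ∃ a, τ w - w = a * (τ y - y) := by
  have hL : (1 + c * l i₀) * τ (1 + c * l i₀) = 1 := by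
    apply mul_left_cancel₀ h0
    have h1 : τ (τ (g i₀)) = g i₀ * (1 + c * l i₀) * τ (1 + c * l i₀) := by
      rw [hg i₀, map_mul, hg i₀]
    rw [hτ] at h1
    rw [mul_one, ← mul_assoc, ← h1]
  obtain ⟨L, hLdef⟩ : ∃ L, L = 1 + c * l i₀ := ⟨_, rfl⟩
  rw [← hLdef] at hL
  obtain ⟨u, hu'⟩ := hu.exists_right_inv
  have hdiff : ∀ w : D, ∃ a, τ w - w = a * (c * g i₀) := by
    intro w
    have hle : dcl ((R : Set D) ∪ Set.range q) ≤ diffRing τ (c * g i₀) := by
      refine dcl_le (dom_diffRing _) ?_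
      rintro z (hz | ⟨i, rfl⟩)
      · exact hR z hz
      · obtain ⟨m, hm⟩ := hl i
        refine ⟨τ L * (q i * m), ?_⟩
        have h2 : L * τ (q i) = q i * (1 + c * l i) := by
          apply mul_left_cancel₀ h0
          have h3 : τ (g i₀ * q i) = τ (g i) := by rw [hq i]
          rw [map_mul, hg i₀, hg i, ← hLdef, ← hq i] at h3
          linear_combination h3
        have h4 : τ (q i) = τ L * (L * τ (q i)) := by
          rw [← mul_assoc, mul_comm (τ L) L, hL, one_mul]
        have h5 : τ (q i) - q i = τ L * (L * τ (q i) - L * q i) := by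
          linear_combination h4 + q i * hL
        rw [h5, h2]
        linear_combination (τ L * q i * c) * hm - (τ L * q i) * hLdef
    exact hle (by rw [htop]; trivial)
  refine ⟨g i₀, ?_, fun w => ?_⟩
  · have : τ (g i₀) - g i₀ = g i₀ * (c * l i₀) := by rw [hg i₀]; ring
    rw [this]
    exact mul_ne_zero h0 (mul_ne_zero hc hu.ne_zero)
  · obtain ⟨a, ha⟩ := hdiff w
    refine ⟨a * u, ?_⟩
    rw [ha, hg i₀]
    linear_combination -(a * c * g i₀) * hu'

/-- The augmentation ideal at the other points. -/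
theorem principal_of_top {R : Subring D} {c v t : D} (hc : c ≠ 0)
    (ht : IsUnit t) (hv : τ v - v = c * t) (hR : ∀ z ∈ R, ∃ a, τ z - z = a * c) (htop : R = ⊤) :
    ∃ y, τ y - y ≠ 0 ∧ ∀ w, ∃ a, τ w - w = a * (τ y - y) := by
  obtain ⟨t', ht'⟩ := ht.exists_right_inv
  refine ⟨v, by rw [hv]; exact mul_ne_zero hc ht.ne_zero, fun w => ?_⟩
  obtain ⟨a, ha⟩ := hR w (by rw [htop]; trivial)
  refine ⟨a * t', ?_⟩
  rw [ha, hv]
  linear_combination -(a * c) * ht'
-- END C6

/-- The elements whose difference with their conjugate is divisible by `h`, on a closure. -/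
theorem diff_of_dcl {S : Set D} {h : D} (hS : ∀ z ∈ S, ∃ a, τ z - z = a * h) :
    ∀ z ∈ dcl S, ∃ a, τ z - z = a * h :=
  fun _ hz => dcl_le (R' := diffRing τ h) (dom_diffRing h) hS hz

end Principal

end Pool.Agent.Lib.MP_6a3dac_ag.QD
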