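import Pool.Agent.Lib.MP_6a3dac_ag.QD.ChA
import Pool.Agent.Lib.MP_6a3dac_ag.QD.ChB

/-!
# The local theorem at a wild ordinary fixed point
-/

set_option autoImplicit false
set_option linter.unusedSectionVars false

namespace Pool.Agent.Lib.MP_6a3dac_ag.QD

open IsLocalRing

variable {D : Type} [CommRing D] [IsDomain D] [IsLocalRing D] {A : Subring D}
  [IsRegularLocalRing A] {ι : Type} [Fintype ι] [DecidableEq ι] {ϖ ε : A} {n : ℕ}
  {x z : ι → A} {M : ι → ι → A} {α e : ι → A}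

-- BEGIN E10
/-- TASK E10. The case distinction. Let `k + 1` be the least `j ≤ n` such that `ϖ ^ j` does not divide all
`x i` in `D`. The ideal `aId (k + 1)` is principal in `D`, so by `exists_gen` (with `p = 1`) one of
`ϖ ^ (k + 1)`, `x i` divides all the others in `D`; it is not `ϖ ^ (k + 1)`. -/
theorem NFHyp.cases (h : NFHyp A ϖ ε n x z M α e) (b : ℕ → A)
    (hb0 : ∀ j < n, (b j : D) ≠ 0) (hbm : ∀ j < n, b j ∈ aId ϖ x (j + 1))
    (hbd : ∀ j < n, ∀ y ∈ aId ϖ x (j + 1), (b j : D) ∣ y) :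
    (∀ i, ∃ q, (ϖ : D) ^ n * q = x i) ∨
      ∃ (o : ι) (k : ℕ) (v : ι → D) (x₁ w : D), IIHyp h o k v x₁ w := by
  classical
  by_cases hn : ∀ i, ∃ q, (ϖ : D) ^ n * q = x i
  · exact Or.inl hn
  right
  -- the largest `k` such that `ϖ ^ k` divides all `x i`
  obtain ⟨k, hkn, hk, hk1⟩ : ∃ k < n, (∀ i, ∃ q, (ϖ : D) ^ k * q = x i) ∧
      ¬ ∀ i, ∃ q, (ϖ : D) ^ (k + 1) * q = x i := by
    by_contra hcon
    have hall : ∀ j ≤ n, ∀ i, ∃ q, (ϖ : D) ^ j * q = x i := by
      intro j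
      induction j with
      | zero =>
        intro _ i
        exact ⟨x i, by rw [pow_zero, one_mul]⟩
      | succ j ih =>
        intro hj
        by_contra hcon'
        exact hcon ⟨j, by omega, ih (by omega), hcon'⟩
    exact hn (hall n le_rfl)
  have hgen := exists_gen (D := D) (A := A) (I := aId ϖ x (k + 1)) (p := 1) (κ := Option ι)
    (g := fun i => i.elim ((ϖ : D) ^ (k + 1)) fun l => (x l : D)) (b := b k) ?_ ?_
    (hb0 k hkn) (hbm k hkn) (hbd k hkn)
  · obtain ⟨i₀, -, hi₀⟩ := hgen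
    rcases i₀ with _ | o
    · exfalso
      apply hk1
      intro i
      obtain ⟨c, hc⟩ := hi₀ (some i)
      exact ⟨c, hc.symm⟩
    · have hv : ∀ l, ∃ v, (x o : D) * v = x l := by
        intro l
        obtain ⟨c, hc⟩ := hi₀ (some l)
        exact ⟨c, hc.symm⟩
      choose v hv using hv
      obtain ⟨x₁, hx₁⟩ := hk o
      obtain ⟨w, hw⟩ := hi₀ none
      have hw' : (ϖ : D) ^ (k + 1) = (x o : D) * w := hw
      have hϖ0 : (ϖ : D) ≠ 0 := h.unif_ne_zero
      have hw1 : x₁ * w = ϖ := by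
        apply mul_left_cancel₀ (pow_ne_zero k hϖ0)
        rw [pow_succ] at hw'
        linear_combination w * hx₁ - hw'
      refine ⟨o, k, v, x₁, w, ⟨hkn, hv, hx₁, hw1, ?_⟩⟩
      by_contra hcon
      rw [IsLocalRing.mem_maximalIdeal, mem_nonunits_iff, not_not] at hcon
      obtain ⟨w', hww'⟩ := hcon.exists_right_inv
      apply hk1
      intro l
      refine ⟨w' * v l, ?_⟩
      have h1 := hv l
      linear_combination w' * v l * hw' + (x o : D) * v l * hww' + h1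
  · intro y hy
    rw [aId, Ideal.mem_span_insert] at hy
    obtain ⟨c, y', hy', rfl⟩ := hy
    obtain ⟨d, hd⟩ := (Ideal.mem_span_range_iff_exists_fun).mp hy'
    refine ⟨fun i => i.elim (c : D) fun l => (d l : D), ?_⟩
    rw [Fintype.sum_option, one_mul, ← hd]
    simp
  · rintro (_ | l)
    · rw [one_mul]
      have h1 : (ϖ : D) ^ (k + 1) = A.subtype (ϖ ^ (k + 1)) := by
        rw [map_pow]
        rfl
      change (ϖ : D) ^ (k + 1) ∈ _
      rw [h1]
      exact Ideal.mem_map_of_mem _ (Ideal.subset_span (Set.mem_insert _ _))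
    · rw [one_mul]
      change A.subtype (x l) ∈ _
      exact Ideal.mem_map_of_mem _ (Ideal.subset_span (Set.mem_insert_of_mem _ ⟨l, rfl⟩))
-- END E10

/-- **The local theorem at a wild ordinary fixed point.** -/
theorem wild_local_main (h : NFHyp A ϖ ε n x z M α e) (b : ℕ → A)
    (hb0 : ∀ j ≤ 2 * n, (b j : D) ≠ 0) (hbm : ∀ j ≤ 2 * n, b j ∈ cen ϖ ε n x z j)
    (hbd : ∀ j ≤ 2 * n, ∀ y ∈ cen ϖ ε n x z j, (b j : D) ∣ y)
    (hgen : ∀ R' : Subring D, Dom R' → A ≤ R' →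
      (∀ j ≤ 2 * n, ∀ y ∈ cen ϖ ε n x z j, ∀ q : D, (b j : D) * q = y → q ∈ R') → R' = ⊤) :
    IsRegularLocalRing D ∧ ∀ τ : D →+* D, (∀ d, τ (τ d) = d) →
      τ ϖ = ϖ + ε * ϖ ^ (n + 1) → (∀ i, τ (x i) = x i + z i) →
      (∀ a : A, τ a - a ∈ (Ideal.span (insert (ϖ ^ (n + 1)) (Set.range z))).map A.subtype) →
      ∃ y, τ y - y ≠ 0 ∧ ∀ w, ∃ c, τ w - w = c * (τ y - y) := by
  have hc : ∀ j < n, cen ϖ ε n x z j = aId ϖ x (j + 1) := fun j hj => by rw [cen, if_pos hj]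
  rcases h.cases b (fun j hj => hb0 j (by omega)) (fun j hj => hc j hj ▸ hbm j (by omega))
    (fun j hj => hc j hj ▸ hbd j (by omega)) with hdiv | ⟨o, k, v, x₁, w, hII⟩
  · exact wild_local₁ h b hb0 hbm hbd hgen hdiv
  · exact wild_local₂ hII b hb0 hbm hbd hgen

end Pool.Agent.Lib.MP_6a3dac_ag.QD
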