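import Pool.Agent.Lib.MP_6a3dac_ag.QD.Iface
import Pool.Agent.Lib.MP_6a3dac_ag.QD.ChDcl

/-!
# First consequences of the normal form
-/

set_option autoImplicit false
set_option linter.unusedSectionVars false

namespace Pool.Agent.Lib.MP_6a3dac_ag.QD

open IsLocalRing

section NF

variable {D : Type} [CommRing D] [IsDomain D] [IsLocalRing D] {A : Subring D}
  [IsRegularLocalRing A] {ι : Type} [Fintype ι] [DecidableEq ι] {ϖ ε : A} {n : ℕ}
  {x z : ι → A} {M : ι → ι → A} {α e : ι → A}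

-- BEGIN C7
theorem c7_card [DecidableEq A] (h : NFHyp A ϖ ε n x z M α e) :
    Fintype.card ι + 1 ≤ (insert ϖ (Finset.univ.image x)).card := by
  have h1 := h.par.dim
  have h2 := ringKrullDim_le_spanFinrank_maximalIdeal A
  have h3 : (maximalIdeal A).spanFinrank ≤ (insert ϖ (Finset.univ.image x)).card := by
    have h4 : maximalIdeal A =
        Ideal.span ((insert ϖ (Finset.univ.image x) : Finset A) : Set A) := by
      rw [h.par.span]
      congr 1
      simp
    rw [h4]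
    refine (Submodule.spanFinrank_span_le_ncard_of_finite (Finset.finite_toSet _)).trans ?_
    rw [Set.ncard_coe_finset]
  have h5 := h1.trans h2
  have h6 : Fintype.card ι + 1 ≤ (maximalIdeal A).spanFinrank := by exact_mod_cast h5
  exact h6.trans h3

/-- TASK C7 (three statements). The parameters form a regular system of parameters in the sense of
`RSP` (QWDom.lean): `h.dom`, noetherian, `h.par.span` (coefficients as a function `D → D` supported
on the finite set: `Submodule.mem_span_finset` or as in `RSP.of_span` in QWStruct.lean), and the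
cardinality is at most `card ι + 1 ≤ ringKrullDim A` by `h.par.dim`. -/
theorem NFHyp.rsp [DecidableEq D] (h : NFHyp A ϖ ε n x z M α e) :
    RSP A (insert (ϖ : D) (Finset.univ.image fun i => (x i : D))) := by
  have h1 := RSP.of_span h.dom inferInstance (insert ϖ (Finset.univ.image x)) (by
    rw [h.par.span]
    congr 1
    simp) (by
    have h2 := h.par.dim
    have h3 := ringKrullDim_le_spanFinrank_maximalIdeal A
    have h4 : Fintype.card ι + 1 ≤ (maximalIdeal A).spanFinrank := by exact_mod_cast h2.trans h3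
    refine le_trans (Finset.card_insert_le _ _) (le_trans (Nat.add_le_add_right ?_ 1) h4)
    exact Finset.card_image_le.trans (le_of_eq Finset.card_univ))
  have h2 : ((insert ϖ (Finset.univ.image x)).image Subtype.val : Finset D) =
      insert (ϖ : D) (Finset.univ.image fun i => (x i : D)) := by
    rw [Finset.image_insert, Finset.image_image]
    rfl
  rw [← h2]
  exact h1

/-- The parameters are distinct: otherwise the maximal ideal of `A` is generated by fewer elements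
than the dimension (`RSP.card_le`). -/
theorem NFHyp.injective (h : NFHyp A ϖ ε n x z M α e) : Function.Injective x := by
  classical
  have h1 := c7_card h
  have h2 := Finset.card_insert_le ϖ (Finset.univ.image x)
  have h3 : (Finset.univ.image x).card ≤ Fintype.card ι :=
    Finset.card_image_le.trans (le_of_eq Finset.card_univ)
  have h4 : (Finset.univ.image x).card = (Finset.univ : Finset ι).card := by
    rw [Finset.card_univ]
    omega
  have h5 := Finset.card_image_iff.1 h4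
  intro i j hij
  exact h5 (Finset.mem_coe.2 (Finset.mem_univ i)) (Finset.mem_coe.2 (Finset.mem_univ j)) hij

theorem NFHyp.ne_unif (h : NFHyp A ϖ ε n x z M α e) (i : ι) : x i ≠ ϖ := by
  classical
  intro hi
  have h1 := c7_card h
  have h2 : insert ϖ (Finset.univ.image x) = Finset.univ.image x := by
    apply Finset.insert_eq_of_mem
    rw [← hi]
    exact Finset.mem_image_of_mem _ (Finset.mem_univ i)
  rw [h2] at h1
  have h3 : (Finset.univ.image x).card ≤ Fintype.card ι :=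
    Finset.card_image_le.trans (le_of_eq Finset.card_univ)
  omega
-- END C7

theorem NFHyp.unif_ne_zero (h : NFHyp A ϖ ε n x z M α e) : (ϖ : D) ≠ 0 := by
  classical
  exact h.rsp.ne_zero (Finset.mem_insert_self _ _)

theorem NFHyp.x_ne_zero (h : NFHyp A ϖ ε n x z M α e) (i : ι) : (x i : D) ≠ 0 := by
  classical
  exact h.rsp.ne_zero (Finset.mem_insert_of_mem (Finset.mem_image_of_mem _ (Finset.mem_univ i)))

theorem NFHyp.unif_mem (h : NFHyp A ϖ ε n x z M α e) : (ϖ : D) ∈ maximalIdeal D :=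
  (h.dom.mem_maximalIdeal ϖ).mp h.par.mem

theorem NFHyp.x_mem (h : NFHyp A ϖ ε n x z M α e) (i : ι) : (x i : D) ∈ maximalIdeal D :=
  (h.dom.mem_maximalIdeal (x i)).mp (h.par.mem_x i)

/-- Elements of the maximal ideal of `A`. -/
theorem NFHyp.exists_coeff (h : NFHyp A ϖ ε n x z M α e) {a : A} (ha : a ∈ maximalIdeal A) :
    ∃ (c : A) (d : ι → A), a = c * ϖ + ∑ i, d i * x i := by
  rw [h.par.span, Ideal.mem_span_insert] at ha
  obtain ⟨c, y, hy, rfl⟩ := ha
  obtain ⟨d, hd⟩ := (Ideal.mem_span_range_iff_exists_fun).mp hy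
  exact ⟨c, d, by rw [hd]⟩

-- BEGIN C8
theorem c8_inj (h : NFHyp A ϖ ε n x z M α e) : Function.Injective fun i => (x i : D) :=
  fun _ _ hij => h.injective (Subtype.ext hij)

/-- TASK C8 (two statements). The ring of the first case (`exists_pow_steps_dcl` with `a = ϖ` and `us` the `x i`). -/
theorem NFHyp.tower₁ (h : NFHyp A ϖ ε n x z M α e) {x' : ι → D}
    (hx' : ∀ i, (ϖ : D) ^ n * x' i = x i) :
    ∃ s : Finset D, RSP (dcl ((A : Set D) ∪ Set.range x')) s := by
  classical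
  have hW : ∀ i, Function.extend (fun i => (x i : D)) x' 0 (x i : D) = x' i := fun i =>
    (c8_inj h).extend_apply x' 0 i
  obtain ⟨s', hs', _⟩ := exists_pow_steps_dcl n h.pos (ϖ : D)
    (Function.extend (fun i => (x i : D)) x' 0) (Finset.univ.image fun i => (x i : D)) h.rsp
    (Finset.mem_insert_self _ _) (by
      intro hmem
      obtain ⟨i, _, hi⟩ := Finset.mem_image.1 hmem
      exact h.ne_unif i (Subtype.ext hi)) (Finset.subset_insert _ _) (by
      intro u hu
      obtain ⟨i, _, rfl⟩ := Finset.mem_image.1 hu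
      rw [hW i]
      exact hx' i)
  have h1 : Function.extend (fun i => (x i : D)) x' 0 ''
      ((Finset.univ.image fun i => (x i : D) : Finset D) : Set D) = Set.range x' := by
    rw [Finset.coe_image, Finset.coe_univ, Set.image_univ, ← Set.range_comp]
    congr 1
    funext i
    exact hW i
  rw [h1] at hs'
  exact ⟨s', hs'⟩

/-- The ring of the second case (`exists_tower_dcl` with `a = ϖ`, `u₁ = x o` and `us` the `x l`
with `l ≠ o`; note `v o = 1`). -/
theorem NFHyp.tower₂ (h : NFHyp A ϖ ε n x z M α e) {o : ι} {k : ℕ} {v : ι → D} {x₁ w : D}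
    (hv : ∀ l, (x o : D) * v l = x l) (hx : (ϖ : D) ^ k * x₁ = x o) (hw : x₁ * w = ϖ) :
    ∃ s : Finset D, RSP (dcl ((A : Set D) ∪ ({x₁, w} ∪ Set.range v))) s := by
  classical
  have hW : ∀ i, Function.extend (fun i => (x i : D)) v 0 (x i : D) = v i := fun i =>
    (c8_inj h).extend_apply v 0 i
  have hvo : v o = 1 := by
    have h1 := hv o
    have h2 : (x o : D) * v o = (x o : D) * 1 := by rw [mul_one]; exact h1
    exact mul_left_cancel₀ (h.x_ne_zero o) h2
  have hmem : ∀ i, (x i : D) ∈ insert (ϖ : D) (Finset.univ.image fun i => (x i : D)) := fun i =>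
    Finset.mem_insert_of_mem (Finset.mem_image_of_mem (fun i => (x i : D)) (Finset.mem_univ i))
  obtain ⟨s', hs'⟩ := exists_tower_dcl h.rsp (a := (ϖ : D)) (u₁ := (x o : D))
    (Finset.mem_insert_self _ _) (hmem o) (fun h' => h.ne_unif o (Subtype.ext h'.symm)) k hx hw
    (Function.extend (fun i => (x i : D)) v 0)
    ((Finset.univ.erase o).image fun i => (x i : D)) (by
      intro hm
      obtain ⟨i, _, hi⟩ := Finset.mem_image.1 hm
      exact h.ne_unif i (Subtype.ext hi)) (by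
      intro hm
      obtain ⟨i, hi, hio⟩ := Finset.mem_image.1 hm
      exact (Finset.mem_erase.1 hi).1 (c8_inj h hio)) (by
      intro u hu
      obtain ⟨i, _, rfl⟩ := Finset.mem_image.1 hu
      exact hmem i) (by
      intro u hu
      obtain ⟨i, _, rfl⟩ := Finset.mem_image.1 hu
      rw [hW i]
      exact hv i)
  have h1 : dcl ((A : Set D) ∪ ({x₁, w} ∪ Function.extend (fun i => (x i : D)) v 0 ''
      (((Finset.univ.erase o).image fun i => (x i : D) : Finset D) : Set D))) =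
      dcl ((A : Set D) ∪ ({x₁, w} ∪ Set.range v)) := by
    apply le_antisymm
    · refine dcl_mono ?_
      apply Set.union_subset_union_right
      apply Set.union_subset_union_right
      rintro _ ⟨u, hu, rfl⟩
      obtain ⟨i, _, rfl⟩ := Finset.mem_image.1 (Finset.mem_coe.1 hu)
      exact ⟨i, (hW i).symm⟩
    · refine dcl_le (dom_dcl _) ?_
      rintro y (hy | hy | ⟨l, rfl⟩)
      · exact subset_dcl _ (Or.inl hy)
      · exact subset_dcl _ (Or.inr (Or.inl hy))
      · by_cases hl : l = o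
        · rw [hl, hvo]
          exact Subring.one_mem _
        · refine subset_dcl _ (Or.inr (Or.inr ⟨(x l : D), ?_, hW l⟩))
          exact Finset.mem_coe.2 (Finset.mem_image_of_mem (fun i => (x i : D))
            (Finset.mem_erase.2 ⟨hl, Finset.mem_univ l⟩))
  rw [h1] at hs'
  exact ⟨s', hs'⟩
-- END C8

-- BEGIN C9
/-- TASK C9 (two statements). The expansion of `(1 + ε ϖ ^ n) ^ k`, by induction on `k` (`1 ≤ n`,
`h.pos`). -/
theorem NFHyp.exists_zeta (h : NFHyp A ϖ ε n x z M α e) (k : ℕ) :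
    ∃ ζ b : A, (1 + ε * ϖ ^ n) ^ k = 1 + ϖ ^ n * ζ ∧ ζ = k * ε + ϖ * b := by
  obtain ⟨m, hm⟩ : ∃ m, n = m + 1 := ⟨n - 1, by have := h.pos; omega⟩
  induction k with
  | zero => exact ⟨0, 0, by simp, by simp⟩
  | succ k ih =>
    obtain ⟨ζ, b, h1, h2⟩ := ih
    refine ⟨ζ + ε + ζ * ε * ϖ ^ n, b + ζ * ε * ϖ ^ m, ?_, ?_⟩
    · rw [pow_succ, h1]
      ring
    · have h3 : ϖ ^ n = ϖ * ϖ ^ m := by rw [hm, pow_succ, mul_comm]
      rw [h3]
      push_cast
      linear_combination h2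

theorem NFHyp.isUnit_eta (h : NFHyp A ϖ ε n x z M α e) : IsUnit (1 + ε * ϖ ^ n) := by
  by_contra hcon
  have h1 : (1 + ε * ϖ ^ n) ∈ maximalIdeal A := (IsLocalRing.mem_maximalIdeal _).2 hcon
  have h2 : ε * ϖ ^ n ∈ maximalIdeal A := by
    apply Ideal.mul_mem_left
    exact Ideal.pow_mem_of_mem _ h.par.mem n (lt_of_lt_of_le one_pos h.pos)
  have h3 : (1 : A) ∈ maximalIdeal A := by
    have h4 := Ideal.sub_mem _ h1 h2
    rwa [add_sub_cancel_right] at h4
  exact (Ideal.ne_top_iff_one _).1 (IsLocalRing.maximalIdeal.isMaximal A).ne_top h3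

/-- `2` is divisible by `ϖ ^ n`, with the coefficient congruent to `(n + 1) ε`. -/
theorem NFHyp.exists_two (h : NFHyp A ϖ ε n x z M α e) :
    ∃ u m : A, (2 : A) = u * ϖ ^ n ∧ u = (n + 1) * ε + m ∧ m ∈ maximalIdeal A := by
  obtain ⟨u, hu, hm⟩ := h.two
  exact ⟨u, u - (n + 1) * ε, hu, by ring, hm⟩
-- END C9

-- BEGIN C10
theorem c10_unif {R : Subring D} (hA : A ≤ R) (ϖ : A) (j : ℕ) : (ϖ : D) ^ j ∈ R :=
  R.pow_mem (hA ϖ.2) j

theorem c10_span {R : Subring D} (hA : A ≤ R) (ϖ : A) (j : ℕ) :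
    Ideal.span {ϖ ^ j} ≤ mulId R hA ((ϖ : D) ^ j) := by
  rw [Ideal.span_le, Set.singleton_subset_iff]
  exact ⟨1, R.one_mem, by simp⟩

theorem c10_X {R : Subring D} (hA : A ≤ R) {k : ℕ}
    (hx : ∀ i, ∃ q ∈ R, (x i : D) = (ϖ : D) ^ k * q) :
    Ideal.span (Set.range x) ≤ mulId R hA ((ϖ : D) ^ k) := by
  rw [Ideal.span_le]
  rintro _ ⟨i, rfl⟩
  exact hx i

theorem c10_aId {R : Subring D} (hA : A ≤ R) {k : ℕ}
    (hx : ∀ i, ∃ q ∈ R, (x i : D) = (ϖ : D) ^ k * q) :
    aId ϖ x k ≤ mulId R hA ((ϖ : D) ^ k) := by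
  unfold aId
  rw [Ideal.span_le]
  rintro y (rfl | ⟨i, rfl⟩)
  · exact ⟨1, R.one_mem, by simp⟩
  · exact hx i

/-- TASK C10 (two statements; `mulId` in ChDcl.lean is useful). The ideals `aId k` and `kId k` are
principal if `ϖ ^ k` divides the parameters. For `kId`: put
`y i = z i + 2 x i = ∑ M x² + α ϖ ^ (2 n) + e`; then `x i * z l - x l * z i = x i * y l - x l * y i`
and `y i ∈ ϖ ^ (2 k) R` (`Err ≤ mulId R (ϖ ^ (2 k))` as `k ≤ n`), so the products lie in
`ϖ ^ (3 k) R`. And `ϖ ^ (4 k - 1) = ϖ ^ (2 k - 1) (ϖ ^ k) ^ 2`. -/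
theorem NFHyp.pr_aId (h : NFHyp A ϖ ε n x z M α e) {R : Subring D} (hA : A ≤ R) {k : ℕ}
    (hx : ∀ i, ∃ q ∈ R, (x i : D) = (ϖ : D) ^ k * q) : Pr R (aId ϖ x k) ((ϖ : D) ^ k) := by
  refine ⟨fun y hy => c10_aId hA hx hy, ?_⟩
  have h1 : ϖ ^ k ∈ aId ϖ x k := Ideal.subset_span (Set.mem_insert _ _)
  have h2 := Ideal.mem_map_of_mem A.subtype h1
  rw [map_pow] at h2
  exact h2

theorem c10_err {R : Subring D} (hA : A ≤ R) {k : ℕ} (hk : k ≤ n)
    (hx : ∀ i, ∃ q ∈ R, (x i : D) = (ϖ : D) ^ k * q) :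
    Err ϖ n x ≤ mulId R hA ((ϖ : D) ^ (2 * k)) := by
  have hX := c10_X hA hx
  unfold Err
  refine sup_le (sup_le ?_ ?_) ?_
  · have h1 : Ideal.span {ϖ} ≤ mulId R hA ((ϖ : D) ^ 1) := by
      have := c10_span hA ϖ 1
      rwa [pow_one] at this
    refine (mul_le_mulId h1 (pow_le_mulId hX 2)).trans (mulId_mono (c10_unif hA ϖ 1) ?_)
    ring
  · refine (pow_le_mulId hX 3).trans (mulId_mono (c10_unif hA ϖ k) ?_)
    ring
  · refine (mul_le_mulId (c10_span hA ϖ (n + 1)) hX).trans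
      (mulId_mono (c10_unif hA ϖ (n + 1 - k)) ?_)
    rw [← pow_add, ← pow_add]
    congr 1
    omega

theorem NFHyp.pr_kId (h : NFHyp A ϖ ε n x z M α e) {R : Subring D} (hA : A ≤ R) {k : ℕ}
    (hk1 : 1 ≤ k) (hk : k ≤ n) (hx : ∀ i, ∃ q ∈ R, (x i : D) = (ϖ : D) ^ k * q) :
    Pr R (kId ϖ x z k) ((ϖ : D) ^ (4 * k - 1)) := by
  have hX := c10_X hA hx
  have haI := c10_aId hA hx
  have hxm : ∀ i, x i ∈ mulId R hA ((ϖ : D) ^ k) := hx
  have hy : ∀ i, z i + 2 * x i ∈ mulId R hA ((ϖ : D) ^ (2 * k)) := by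
    intro i
    have h1 : z i + 2 * x i = ∑ l, M i l * x l ^ 2 + α i * ϖ ^ (2 * n) + e i := by
      rw [h.eq i]
      ring
    rw [h1]
    refine Ideal.add_mem _ (Ideal.add_mem _ (Ideal.sum_mem _ fun l _ => ?_) ?_) ?_
    · apply Ideal.mul_mem_left
      obtain ⟨q, hq, h2⟩ := hx l
      refine ⟨q ^ 2, R.pow_mem hq 2, ?_⟩
      rw [Subring.coe_pow, h2]
      ring
    · apply Ideal.mul_mem_left
      refine ⟨(ϖ : D) ^ (2 * n - 2 * k), c10_unif hA ϖ _, ?_⟩
      rw [Subring.coe_pow, ← pow_add]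
      congr 1
      omega
    · exact c10_err hA hk hx (h.err i)
  have hmul : ∀ i l, x i * (z l + 2 * x l) ∈ mulId R hA ((ϖ : D) ^ k * (ϖ : D) ^ (2 * k)) := by
    intro i l
    obtain ⟨q, hq, h1⟩ := hxm i
    obtain ⟨q', hq', h2⟩ := hy l
    refine ⟨q * q', R.mul_mem hq hq', ?_⟩
    rw [Subring.coe_mul, h1, h2]
    ring
  have hJ : Ideal.span (Set.range fun p : ι × ι => x p.1 * z p.2 - x p.2 * z p.1) ≤
      mulId R hA ((ϖ : D) ^ k * (ϖ : D) ^ (2 * k)) := by
    rw [Ideal.span_le]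
    rintro _ ⟨p, rfl⟩
    have h1 : x p.1 * z p.2 - x p.2 * z p.1 =
        x p.1 * (z p.2 + 2 * x p.2) - x p.2 * (z p.1 + 2 * x p.1) := by ring
    show x p.1 * z p.2 - x p.2 * z p.1 ∈ mulId R hA ((ϖ : D) ^ k * (ϖ : D) ^ (2 * k))
    rw [h1]
    exact Ideal.sub_mem _ (hmul _ _) (hmul _ _)
  constructor
  · intro y hyk
    have h1 : kId ϖ x z k ≤ mulId R hA ((ϖ : D) ^ (4 * k - 1)) := by
      unfold kId
      refine sup_le (sup_le ?_ ?_) ?_
      · refine (pow_le_mulId haI 4).trans (mulId_mono (c10_unif hA ϖ 1) ?_)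
        rw [← pow_mul, ← pow_add]
        congr 1
        omega
      · refine (mul_le_mulId (c10_span hA ϖ (2 * k - 1)) (pow_le_mulId haI 2)).trans
          (mulId_mono R.one_mem ?_)
        rw [← pow_mul, ← pow_add, mul_one]
        congr 1
        omega
      · refine (mul_le_mulId (c10_span hA ϖ (k - 1)) hJ).trans (mulId_mono R.one_mem ?_)
        rw [← pow_add, ← pow_add, mul_one]
        congr 1
        omega
    exact h1 hyk
  · have h1 : ϖ ^ k ∈ aId ϖ x k := Ideal.subset_span (Set.mem_insert _ _)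
    have h2 : ϖ ^ (2 * k - 1) * (ϖ ^ k) ^ 2 ∈ kId ϖ x z k := by
      unfold kId
      apply Submodule.mem_sup_left
      apply Submodule.mem_sup_right
      exact Ideal.mul_mem_mul (Ideal.mem_span_singleton_self _) (Ideal.pow_mem_pow h1 2)
    have h3 : ϖ ^ (2 * k - 1) * (ϖ ^ k) ^ 2 = ϖ ^ (4 * k - 1) := by
      rw [← pow_mul, ← pow_add]
      congr 1
      omega
    rw [h3] at h2
    have h4 := Ideal.mem_map_of_mem A.subtype h2
    rw [map_pow] at h4
    exact h4
-- END C10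

/-- The ring of the first case. -/
def R₁ (A : Subring D) (x' : ι → D) : Subring D := dcl ((A : Set D) ∪ Set.range x')

/-- The ring of the second case. -/
def R₂ (A : Subring D) (x₁ w : D) (v : ι → D) : Subring D :=
  dcl ((A : Set D) ∪ ({x₁, w} ∪ Set.range v))

theorem le_R₁ (x' : ι → D) : A ≤ R₁ A x' := fun _ hz => subset_dcl _ (Or.inl hz)

theorem mem_R₁ (x' : ι → D) (i : ι) : x' i ∈ R₁ A x' := subset_dcl _ (Or.inr ⟨i, rfl⟩)

theorem le_R₂ (x₁ w : D) (v : ι → D) : A ≤ R₂ A x₁ w v := fun _ hz => subset_dcl _ (Or.inl hz)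

theorem mem_R₂_x (x₁ w : D) (v : ι → D) : x₁ ∈ R₂ A x₁ w v :=
  subset_dcl _ (Or.inr (Or.inl (Set.mem_insert _ _)))

theorem mem_R₂_w (x₁ w : D) (v : ι → D) : w ∈ R₂ A x₁ w v :=
  subset_dcl _ (Or.inr (Or.inl (Set.mem_insert_of_mem _ rfl)))

theorem mem_R₂_v (x₁ w : D) (v : ι → D) (l : ι) : v l ∈ R₂ A x₁ w v :=
  subset_dcl _ (Or.inr (Or.inr ⟨l, rfl⟩))

end NF

end Pool.Agent.Lib.MP_6a3dac_ag.QD
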