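import Pool.Agent.Lib.MP_6a3dac_ag.QD.Inv

/-!
# Coefficient rings
-/

set_option autoImplicit false
set_option linter.unusedSectionVars false

namespace Pool.Agent.Lib.MP_6a3dac_ag.QD

open IsLocalRing MvPolynomial

variable {D : Type} [CommRing D] [IsRegularLocalRing D]

/-- `W` is a coefficient ring of invariants, up to order `N`. -/
structure Coef (τ : D →+* D) (ϖ : D) (n N : ℕ) (W : Subring D) : Prop where
  fix : ∀ w ∈ W, τ w = w
  surj : ∀ a, ∃ w ∈ W, a - w ∈ maximalIdeal D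
  norm : ϖ * τ ϖ ∈ W
  small : ∀ w ∈ W, w ∈ maximalIdeal D → ∃ w' ∈ W, w - ϖ * τ ϖ * w' ∈ maximalIdeal D ^ N
  two : ∃ c ∈ W, (2 : D) = c * (ϖ * τ ϖ) ^ ((n + 1) / 2)
  tr : ∃ c ∈ W, ϖ + τ ϖ = c * (ϖ * τ ϖ) ^ ((n + 2) / 2)

variable {τ : D →+* D} {ϖ ε : D} {n : ℕ} {ι : Type} [Fintype ι] [DecidableEq ι]

-- BEGIN N25
theorem n25_two_mem (h : Inv τ ϖ ε n) (hϖ : ϖ ∈ maximalIdeal D) : (2 : D) ∈ maximalIdeal D := by
  have := h.charP hϖ
  rw [← residue_eq_zero_iff, map_ofNat]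
  exact_mod_cast CharP.cast_eq_zero (ResidueField D) 2

theorem n25_pow (h2 : (2 : D) ∈ maximalIdeal D) {q k : ℕ} (hq : 2 ∣ q) (hk : 1 ≤ k) {u v : D}
    (huv : u - v ∈ maximalIdeal D ^ k) : u ^ q - v ^ q ∈ maximalIdeal D ^ (k + 1) := by
  obtain ⟨q', rfl⟩ := hq
  have h1 : u - v ∈ maximalIdeal D := Ideal.pow_le_self (by omega) huv
  have h3 : u ^ 2 - v ^ 2 ∈ maximalIdeal D ^ (k + 1) := by
    have e : u ^ 2 - v ^ 2 = (u - v) * ((u - v) + 2 * v) := by ring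
    rw [e, pow_succ]
    exact Ideal.mul_mem_mul huv (Ideal.add_mem _ h1 (Ideal.mul_mem_right _ _ h2))
  rw [pow_mul, pow_mul]
  obtain ⟨c, hc⟩ := sub_dvd_pow_sub_pow (u ^ 2) (v ^ 2) q'
  rw [hc]
  exact Ideal.mul_mem_right _ _ h3

theorem n25_eta (h : Inv τ ϖ ε n) (hϖ : ϖ ∈ maximalIdeal D) :
    ∃ η, IsUnit η ∧ τ ϖ = ϖ * η := by
  refine ⟨1 + ε * ϖ ^ n, ?_, ?_⟩
  · have hm : ε * ϖ ^ n ∈ maximalIdeal D :=
      Ideal.mul_mem_left _ _ (Ideal.pow_mem_of_mem _ hϖ n h.pos)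
    by_contra hu
    have h1 : (1 + ε * ϖ ^ n) ∈ maximalIdeal D := (mem_maximalIdeal _).2 hu
    have h2 : (1 : D) ∈ maximalIdeal D := by
      have := Ideal.sub_mem _ h1 hm
      rwa [add_sub_cancel_right] at this
    exact (Ideal.ne_top_iff_one _).1 (maximalIdeal.isMaximal D).ne_top h2
  · rw [h.unif]
    ring

/-- TASK N25. Invariant approximate Teichmüller representatives. `q = Nat.card (ResidueField D)` is
even (`Inv.charP`), `y₀` invariant with `a - y₀ ∈ m` (`Inv.exists_fixed`), `θ = y₀ ^ (q ^ N)`. If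
`u - v ∈ m ^ k`, `k ≥ 1`, then `u ^ q - v ^ q ∈ m ^ (k + 1)` (`u ^ 2 - v ^ 2 = (u - v) (u - v + 2 v)`,
`2 ∈ m`, `q = 2 q'`). As `y₀ ^ q - y₀ ∈ m` (`FiniteField.pow_card`), `θ ^ q - θ ∈ m ^ (N + 1)`. -/
theorem exists_teich [Finite (ResidueField D)] (h : Inv τ ϖ ε n) (hϖ : ϖ ∈ maximalIdeal D)
    (N : ℕ) (a : D) : ∃ θ, τ θ = θ ∧ a - θ ∈ maximalIdeal D ∧
      θ ^ Nat.card (ResidueField D) - θ ∈ maximalIdeal D ^ N := by
  have h2 := n25_two_mem h hϖ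
  have hch := h.charP hϖ
  have hft : Fintype (ResidueField D) := Fintype.ofFinite _
  set q := Nat.card (ResidueField D) with hqdef
  have hqc : q = Fintype.card (ResidueField D) := Nat.card_eq_fintype_card
  have hq : 2 ∣ q := by
    obtain ⟨m, -, hm⟩ := FiniteField.card (ResidueField D) 2
    rw [hqc, hm]
    exact dvd_pow_self 2 m.pos.ne'
  obtain ⟨y, hy, hay⟩ := h.exists_fixed a
  have hres : ∀ z : ResidueField D, z ^ q = z := fun z => by
    rw [hqc]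
    exact FiniteField.pow_card z
  have key : ∀ k, y ^ q ^ (k + 1) - y ^ q ^ k ∈ maximalIdeal D ^ (k + 1) := by
    intro k
    induction k with
    | zero =>
      rw [zero_add, pow_one, pow_one, pow_zero, pow_one, ← residue_eq_zero_iff, map_sub, map_pow,
        hres, sub_self]
    | succ k ih =>
      have := n25_pow h2 hq (by omega) ih
      rwa [← pow_mul, ← pow_mul, ← pow_succ, ← pow_succ] at this
  refine ⟨y ^ q ^ N, by rw [map_pow, hy], ?_, ?_⟩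
  · have e : ∀ k, residue D (y ^ q ^ k) = residue D y := by
      intro k
      induction k with
      | zero => rw [pow_zero, pow_one]
      | succ k ih => rw [pow_succ, pow_mul, map_pow, ih, hres]
    rw [← residue_eq_zero_iff, map_sub, e, ← map_sub, residue_eq_zero_iff]
    exact hay
  · rw [← pow_mul, ← pow_succ]
    exact Ideal.pow_le_pow_right (Nat.le_succ N) (key N)

/-- TASK N25. Divisibility by powers of `ϖ` in the base ring. Strong induction on `k`. `k = 0`: `r`.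
`k ≥ 1`: `ρ r ∈ m`, `ρ r = ϖ τ ϖ ρ r₁ = ϖ ^ 2 (1 + ε ϖ ^ n) ρ r₁` with `1 + ε ϖ ^ n` a unit; `k = 1`:
`r' = r₁`; `k ≥ 2`: `ϖ ^ (k - 2) ∣ ρ r₁`. (`ϖ ∈ m` since it is prime.) -/
theorem base_dvd {R : Type} [CommRing R] (ρ : R →+* D) (h : Inv τ ϖ ε n)
    (hϖ : Prime ϖ) (h1 : ∀ r, ρ r ∈ maximalIdeal D → ∃ r', ρ r = ϖ * τ ϖ * ρ r')
    (k : ℕ) (r : R) (hk : ϖ ^ k ∣ ρ r) : ∃ r', ρ r = ρ r' * (ϖ * τ ϖ) ^ ((k + 1) / 2) := by
  have hdom : IsDomain D := isDomain_aux _ D le_rfl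
  have hϖm : ϖ ∈ maximalIdeal D := (mem_maximalIdeal _).2 hϖ.not_isUnit
  obtain ⟨η, hη, hτ⟩ := n25_eta h hϖm
  induction k using Nat.strong_induction_on generalizing r with
  | _ k ih =>
    rcases Nat.eq_zero_or_pos k with rfl | hkpos
    · exact ⟨r, by simp⟩
    · have hr : ρ r ∈ maximalIdeal D := by
        obtain ⟨c, hc⟩ := hk
        rw [hc]
        exact Ideal.mul_mem_right _ _ (Ideal.pow_mem_of_mem _ hϖm k hkpos)
      obtain ⟨r₁, hr₁⟩ := h1 r hr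
      rcases Nat.lt_or_ge k 2 with hk2 | hk2
      · have hk1 : k = 1 := by omega
        subst hk1
        exact ⟨r₁, by rw [hr₁]; ring⟩
      · obtain ⟨l, rfl⟩ : ∃ l, k = l + 2 := ⟨k - 2, by omega⟩
        have hdv : ϖ ^ l ∣ ρ r₁ := by
          have h3 : ϖ ^ 2 * ϖ ^ l ∣ ϖ ^ 2 * (η * ρ r₁) := by
            have e1 : ϖ ^ 2 * ϖ ^ l = ϖ ^ (l + 2) := by ring
            have e2 : ϖ ^ 2 * (η * ρ r₁) = ρ r := by
              rw [hr₁, hτ]
              ring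
            rw [e1, e2]
            exact hk
          have h4 := (mul_dvd_mul_iff_left (pow_ne_zero 2 hϖ.ne_zero)).1 h3
          exact (hη.dvd_mul_left).1 h4
        obtain ⟨r', hr'⟩ := ih l (by omega) r₁ hdv
        refine ⟨r', ?_⟩
        have e3 : (l + 2 + 1) / 2 = (l + 1) / 2 + 1 := by omega
        rw [e3, pow_succ, hr₁, hr']
        ring
-- END N25

-- BEGIN N26
theorem n26_pow_two {W : Subring D} {a b : D} (ha : a ∈ W) (hb : b ∈ W) (f : ℕ) :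
    ∃ c ∈ W, (a + b) ^ 2 ^ f = a ^ 2 ^ f + b ^ 2 ^ f + 2 * c := by
  induction f with
  | zero => exact ⟨0, W.zero_mem, by simp⟩
  | succ f ih =>
    obtain ⟨c, hc, h⟩ := ih
    have hA : a ^ 2 ^ f ∈ W := W.pow_mem ha _
    have hB : b ^ 2 ^ f ∈ W := W.pow_mem hb _
    have h2 : (2 : D) ∈ W := ofNat_mem W 2
    refine ⟨2 * c ^ 2 + a ^ 2 ^ f * b ^ 2 ^ f + 2 * (a ^ 2 ^ f) * c + 2 * (b ^ 2 ^ f) * c, ?_, ?_⟩
    · exact W.add_mem (W.add_mem (W.add_mem (W.mul_mem h2 (W.pow_mem hc 2)) (W.mul_mem hA hB))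
        (W.mul_mem (W.mul_mem h2 hA) hc)) (W.mul_mem (W.mul_mem h2 hB) hc)
    · rw [pow_succ 2 f, pow_mul, h, pow_mul, pow_mul]
      ring

/-- The elements of `W` which are multiples of `π` up to order `N`. -/
def n26_I (π : D) (N : ℕ) (W : Subring D) (w : D) : Prop :=
  ∃ w' ∈ W, w - π * w' ∈ maximalIdeal D ^ N

theorem n26_I_add {π : D} {N : ℕ} {W : Subring D} {a b : D} (ha : n26_I π N W a)
    (hb : n26_I π N W b) : n26_I π N W (a + b) := by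
  obtain ⟨a', ha', h1⟩ := ha
  obtain ⟨b', hb', h2⟩ := hb
  refine ⟨a' + b', W.add_mem ha' hb', ?_⟩
  have h3 := Ideal.add_mem _ h1 h2
  have e : a - π * a' + (b - π * b') = a + b - π * (a' + b') := by ring
  rwa [e] at h3

theorem n26_I_mul {π : D} {N : ℕ} {W : Subring D} {a b : D} (ha : a ∈ W)
    (hb : n26_I π N W b) : n26_I π N W (a * b) := by
  obtain ⟨b', hb', h2⟩ := hb
  refine ⟨a * b', W.mul_mem ha hb', ?_⟩
  have h3 := Ideal.mul_mem_left _ a h2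
  have e : a * (b - π * b') = a * b - π * (a * b') := by ring
  rwa [e] at h3

theorem n26_I_pow {π : D} {N : ℕ} {W : Subring D} {a : D} (ha : a ∈ maximalIdeal D ^ N) :
    n26_I π N W a := ⟨0, W.zero_mem, by rwa [mul_zero, sub_zero]⟩

theorem n26_pow_card [Finite (ResidueField D)] (a : D) :
    a ^ Nat.card (ResidueField D) - a ∈ maximalIdeal D := by
  have := Fintype.ofFinite (ResidueField D)
  rw [← residue_eq_zero_iff, map_sub, map_pow, Nat.card_eq_fintype_card, FiniteField.pow_card,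
    sub_self]

/-- TASK N26. Write `q = Nat.card (ResidueField D)`, `π = ϖ τ ϖ`, `T = {θ | τ θ = θ ∧ θ ^ q - θ ∈ m ^ N}`,
`W = Subring.closure (range ρ ∪ T)`. `fix`: closure induction. `surj`: `exists_teich`. `norm`: `h0`.
`two`: `base_dvd` for `ρ 2 = u ϖ ^ n`. `tr`: `ϖ + τ ϖ = 2 ϖ + ε ϖ ^ (n + 1)` is divisible by
`ϖ ^ (n + 1)`; `base_dvd`. `small`: `I = {w ∈ W | ∃ w' ∈ W, w - π w' ∈ m ^ N}` is closed under addition
and multiplication by `W`, contains `2` (`h1`) and `W ∩ m ^ N`. `w ^ q - w ∈ I` for all `w ∈ W` by closure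
induction: `T` clear; `ρ r ^ q - ρ r = ρ (r ^ q - r) ∈ m` so `h1`; sums (`q` is a power of `2`, so
`(a + b) ^ q - a ^ q - b ^ q ∈ 2 W`: `q = 2 ^ f`, `add_pow_char_pow` in `W ⧸ (2)`, or induction on `f`),
products, negatives. So `w - w ^ (q ^ N) ∈ I`, and for `w ∈ m`, `w ^ (q ^ N) ∈ m ^ N`, so `w ∈ I`. -/
theorem exists_coef {R : Type} [CommRing R] (ρ : R →+* D) [Finite (ResidueField D)]
    (h : Inv τ ϖ ε n) (hϖ : Prime ϖ) (hϖm : ϖ ∈ maximalIdeal D) (hρ : ∀ r, τ (ρ r) = ρ r)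
    (h0 : ∃ r, ρ r = ϖ * τ ϖ) (ht : ∃ r, ρ r = ϖ + τ ϖ)
    (h1 : ∀ r, ρ r ∈ maximalIdeal D → ∃ r', ρ r = ϖ * τ ϖ * ρ r') (N : ℕ) :
    ∃ W, Coef τ ϖ n N W := by
  -- the cardinality of the residue field
  obtain ⟨f, hf0, hq⟩ : ∃ f, f ≠ 0 ∧ Nat.card (ResidueField D) = 2 ^ f := by
    have hchar := h.charP hϖm
    have := Fintype.ofFinite (ResidueField D)
    obtain ⟨k, -, hk⟩ := FiniteField.card (ResidueField D) 2
    exact ⟨k, k.ne_zero, by rw [Nat.card_eq_fintype_card]; exact hk⟩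
  set q := Nat.card (ResidueField D) with hqdef
  have hq0 : q ≠ 0 := by rw [hq]; exact pow_ne_zero _ two_ne_zero
  have hq2 : 2 ≤ q := by
    rw [hq]
    calc 2 = 2 ^ 1 := (pow_one 2).symm
      _ ≤ 2 ^ f := Nat.pow_le_pow_right (by norm_num) (Nat.one_le_iff_ne_zero.2 hf0)
  have hqe : Even q := by
    rw [hq]
    exact (Nat.even_pow.2 ⟨even_two, hf0⟩)
  set T : Set D := {θ | τ θ = θ ∧ θ ^ q - θ ∈ maximalIdeal D ^ N} with hT
  set W := Subring.closure (Set.range ρ ∪ T) with hW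
  have hρW : ∀ r, ρ r ∈ W := fun r => Subring.subset_closure (Or.inl ⟨r, rfl⟩)
  have hTW : ∀ θ ∈ T, θ ∈ W := fun θ hθ => Subring.subset_closure (Or.inr hθ)
  obtain ⟨u, hu⟩ := h.two
  have h2m : (2 : D) ∈ maximalIdeal D := by
    rw [hu]
    exact Ideal.mul_mem_left _ _ (Ideal.pow_mem_of_mem _ hϖm _ h.pos)
  have h2W : (2 : D) ∈ W := ofNat_mem W 2
  have hI2 : n26_I (ϖ * τ ϖ) N W 2 := by
    have e : ρ 2 = 2 := map_ofNat ρ 2
    obtain ⟨r', hr'⟩ := h1 2 (by rw [e]; exact h2m)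
    rw [e] at hr'
    refine ⟨ρ r', hρW r', ?_⟩
    rw [hr', sub_self]
    exact Ideal.zero_mem _
  have hI0 : n26_I (ϖ * τ ϖ) N W 0 := n26_I_pow (Ideal.zero_mem _)
  -- Frobenius
  have hfrob : ∀ w ∈ W, n26_I (ϖ * τ ϖ) N W (w ^ q - w) := by
    intro w hw
    have key : w ∈ W ∧ n26_I (ϖ * τ ϖ) N W (w ^ q - w) := by
      rw [hW] at hw
      induction hw using Subring.closure_induction with
      | mem x hx =>
        refine ⟨Subring.subset_closure hx, ?_⟩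
        rcases hx with ⟨r, rfl⟩ | hx
        · have h5 := n26_pow_card (ρ r)
          have e : ρ r ^ q - ρ r = ρ (r ^ q - r) := by rw [map_sub, map_pow]
          rw [← hqdef, e] at h5
          obtain ⟨r', hr'⟩ := h1 _ h5
          rw [e, hr']
          refine ⟨ρ r', hρW r', ?_⟩
          rw [sub_self]
          exact Ideal.zero_mem _
        · exact n26_I_pow hx.2
      | zero =>
        refine ⟨W.zero_mem, ?_⟩
        rw [zero_pow hq0, sub_zero]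
        exact hI0
      | one =>
        refine ⟨W.one_mem, ?_⟩
        rw [one_pow, sub_self]
        exact hI0
      | add a b _ _ ha hb =>
        obtain ⟨ha, ha'⟩ := ha
        obtain ⟨hb, hb'⟩ := hb
        refine ⟨W.add_mem ha hb, ?_⟩
        obtain ⟨c, hc, hcc⟩ := n26_pow_two ha hb f
        rw [← hq] at hcc
        have e : (a + b) ^ q - (a + b) = (a ^ q - a) + (b ^ q - b) + c * 2 := by
          rw [hcc]
          ring
        rw [e]
        exact n26_I_add (n26_I_add ha' hb') (n26_I_mul hc hI2)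
      | neg a _ ha =>
        obtain ⟨ha, ha'⟩ := ha
        refine ⟨W.neg_mem ha, ?_⟩
        have e : (-a) ^ q - (-a) = (a ^ q - a) + a * 2 := by
          rw [hqe.neg_pow]
          ring
        rw [e]
        exact n26_I_add ha' (n26_I_mul ha hI2)
      | mul a b _ _ ha hb =>
        obtain ⟨ha, ha'⟩ := ha
        obtain ⟨hb, hb'⟩ := hb
        refine ⟨W.mul_mem ha hb, ?_⟩
        have e : (a * b) ^ q - a * b = a ^ q * (b ^ q - b) + b * (a ^ q - a) := by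
          rw [mul_pow]
          ring
        rw [e]
        exact n26_I_add (n26_I_mul (W.pow_mem ha q) hb') (n26_I_mul hb ha')
    exact key.2
  have hiter : ∀ k, ∀ w ∈ W, n26_I (ϖ * τ ϖ) N W (w ^ q ^ k - w) := by
    intro k
    induction k with
    | zero =>
      intro w _
      rw [pow_zero, pow_one, sub_self]
      exact hI0
    | succ k ih =>
      intro w hw
      have e : w ^ q ^ (k + 1) - w = ((w ^ q ^ k) ^ q - w ^ q ^ k) + (w ^ q ^ k - w) := by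
        rw [pow_succ q k, pow_mul]
        ring
      rw [e]
      exact n26_I_add (hfrob _ (W.pow_mem hw _)) (ih w hw)
  refine ⟨W, ?_, ?_, ?_, ?_, ?_, ?_⟩
  · intro w hw
    rw [hW] at hw
    induction hw using Subring.closure_induction with
    | mem x hx =>
      rcases hx with ⟨r, rfl⟩ | hx
      · exact hρ r
      · exact hx.1
    | zero => exact map_zero τ
    | one => exact map_one τ
    | add a b _ _ ha hb => rw [map_add, ha, hb]
    | neg a _ ha => rw [map_neg, ha]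
    | mul a b _ _ ha hb => rw [map_mul, ha, hb]
  · intro a
    obtain ⟨θ, hθ1, hθ2, hθ3⟩ := exists_teich h hϖm N a
    exact ⟨θ, hTW θ ⟨hθ1, hθ3⟩, hθ2⟩
  · obtain ⟨r, hr⟩ := h0
    rw [← hr]
    exact hρW r
  · intro w hw hwm
    have h5 : w ^ q ^ N ∈ maximalIdeal D ^ N := by
      have h6 : N ≤ q ^ N := (Nat.lt_pow_self (by omega)).le
      exact Ideal.pow_le_pow_right h6 (Ideal.pow_mem_pow hwm _)
    have h7 : n26_I (ϖ * τ ϖ) N W (w ^ q ^ N) := n26_I_pow h5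
    have h8 := n26_I_mul (W.neg_mem W.one_mem) (hiter N w hw)
    have h9 := n26_I_add h8 h7
    have e : -1 * (w ^ q ^ N - w) + w ^ q ^ N = w := by ring
    rw [e] at h9
    exact h9
  · have e : ρ 2 = 2 := map_ofNat ρ 2
    obtain ⟨r', hr'⟩ := base_dvd ρ h hϖ h1 n 2 (by rw [e, hu]; exact Dvd.intro_left u rfl)
    rw [e] at hr'
    exact ⟨ρ r', hρW r', hr'⟩
  · obtain ⟨r, hr⟩ := ht
    obtain ⟨r', hr'⟩ := base_dvd ρ h hϖ h1 (n + 1) r (by
      rw [hr, h.unif]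
      refine ⟨u + ε, ?_⟩
      have e : ϖ + (ϖ + ε * ϖ ^ (n + 1)) = 2 * ϖ + ε * ϖ ^ (n + 1) := by ring
      rw [e]
      conv_lhs => rw [hu]
      ring)
    rw [hr] at hr'
    exact ⟨ρ r', hρW r', hr'⟩
-- END N26

-- BEGIN N27
/-- The multiples of `p ^ e` with coefficients in `W`. -/
def n27_mul (W : Subring D) (p : D) (e : ℕ) (z : D) : Prop := ∃ c ∈ W, z = p ^ e * c

theorem n27_add {W : Subring D} {p : D} {e : ℕ} {y z : D} (hy : n27_mul W p e y)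
    (hz : n27_mul W p e z) : n27_mul W p e (y + z) := by
  obtain ⟨a, ha, rfl⟩ := hy
  obtain ⟨b, hb, rfl⟩ := hz
  exact ⟨a + b, W.add_mem ha hb, by ring⟩

theorem n27_neg {W : Subring D} {p : D} {e : ℕ} {y : D} (hy : n27_mul W p e y) :
    n27_mul W p e (-y) := by
  obtain ⟨a, ha, rfl⟩ := hy
  exact ⟨-a, W.neg_mem ha, by ring⟩

theorem n27_smul {W : Subring D} {p : D} {e : ℕ} {y : D} {a : D} (ha : a ∈ W)
    (hy : n27_mul W p e y) : n27_mul W p e (a * y) := by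
  obtain ⟨b, hb, rfl⟩ := hy
  exact ⟨a * b, W.mul_mem ha hb, by ring⟩

theorem n27_pow {W : Subring D} {p : D} {e k : ℕ} {y : D} (hy : n27_mul W p e y) :
    n27_mul W p (k + e) (p ^ k * y) := by
  obtain ⟨b, hb, rfl⟩ := hy
  exact ⟨b, hb, by rw [pow_add]; ring⟩

theorem n27_mono {W : Subring D} {p : D} (hp : p ∈ W) {e e' : ℕ} (he : e ≤ e') {y : D}
    (hy : n27_mul W p e' y) : n27_mul W p e y := by
  obtain ⟨b, hb, rfl⟩ := hy
  refine ⟨p ^ (e' - e) * b, W.mul_mem (W.pow_mem hp _) hb, ?_⟩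
  rw [← mul_assoc, ← pow_add, Nat.add_sub_cancel' he]

theorem n27_sum {κ : Type} {W : Subring D} {p : D} {e : ℕ} (s : Finset κ) {y : κ → D}
    (hy : ∀ i ∈ s, n27_mul W p e (y i)) : n27_mul W p e (∑ i ∈ s, y i) := by
  classical
  induction s using Finset.induction_on with
  | empty => exact ⟨0, W.zero_mem, by simp⟩
  | insert a s ha ih =>
    rw [Finset.sum_insert ha]
    exact n27_add (hy a (Finset.mem_insert_self a s))
      (ih fun i hi => hy i (Finset.mem_insert_of_mem hi))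

/-- Solving `w i + ∑ l, M i l * β l ^ 2 ∈ m`. -/
theorem n27_solve (h : Inv τ ϖ ε n) {N : ℕ} {W : Subring D}
    (hW : Coef τ ϖ n N W) {M : ι → ι → D} (hdet : IsUnit (Matrix.of M).det) (w : ι → D) :
    ∃ β : ι → D, (∀ l, β l ∈ W) ∧ ∀ i, w i + ∑ l, M i l * β l ^ 2 ∈ maximalIdeal D := by
  have hsol : ∀ l, ∃ b ∈ W, - ((Matrix.of M)⁻¹.mulVec w) l - b ^ 2 ∈ maximalIdeal D := by
    intro l
    obtain ⟨c, hc⟩ := h.perf (- ((Matrix.of M)⁻¹.mulVec w) l)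
    obtain ⟨b, hb, hcb⟩ := hW.surj c
    refine ⟨b, hb, ?_⟩
    have : - ((Matrix.of M)⁻¹.mulVec w) l - b ^ 2
        = (- ((Matrix.of M)⁻¹.mulVec w) l - c ^ 2) + (c + b) * (c - b) := by ring
    rw [this]
    exact (maximalIdeal D).add_mem hc ((maximalIdeal D).mul_mem_left _ hcb)
  choose β hβ hβ2 using hsol
  refine ⟨β, hβ, fun i => ?_⟩
  have h1 : ∑ l, M i l * ((Matrix.of M)⁻¹.mulVec w) l = w i := by
    have h2 : (Matrix.of M).mulVec ((Matrix.of M)⁻¹.mulVec w) = w := by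
      rw [Matrix.mulVec_mulVec, Matrix.mul_nonsing_inv _ hdet, Matrix.one_mulVec]
    have h3 := congrFun h2 i
    exact h3
  have h4 : w i + ∑ l, M i l * β l ^ 2
      = - ∑ l, M i l * (- ((Matrix.of M)⁻¹.mulVec w) l - β l ^ 2) := by
    conv_lhs => rw [← h1]
    rw [← Finset.sum_neg_distrib, ← Finset.sum_add_distrib]
    refine Finset.sum_congr rfl fun l _ => ?_
    ring
  rw [h4]
  refine (maximalIdeal D).neg_mem ((maximalIdeal D).sum_mem fun l _ => ?_)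
  exact (maximalIdeal D).mul_mem_left _ (hβ2 l)

/-- The end of the step. -/
theorem n27_finish {N : ℕ} {W : Subring D}
    (hW : Coef τ ϖ n N W) {j : ℕ} {w y E E' r : ι → D} (hw : ∀ i, w i + y i ∈ W)
    (hy : ∀ i, w i + y i ∈ maximalIdeal D)
    (he : ∀ i, E i - (ϖ * τ ϖ) ^ j * w i ∈ maximalIdeal D ^ N)
    (hr : ∀ i, n27_mul W (ϖ * τ ϖ) (j + 1) (r i))
    (hE : ∀ i, E' i = E i + (ϖ * τ ϖ) ^ j * y i + r i) :
    ∃ w' : ι → D, (∀ i, w' i ∈ W) ∧ ∀ i, E' i - (ϖ * τ ϖ) ^ (j + 1) * w' i ∈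
      maximalIdeal D ^ N := by
  have hs : ∀ i, ∃ y' ∈ W, w i + y i - ϖ * τ ϖ * y' ∈ maximalIdeal D ^ N :=
    fun i => hW.small _ (hw i) (hy i)
  choose y' hy' hy2 using hs
  choose ρ hρ hρ2 using hr
  refine ⟨fun i => y' i + ρ i, fun i => W.add_mem (hy' i) (hρ i), fun i => ?_⟩
  have : E' i - (ϖ * τ ϖ) ^ (j + 1) * (y' i + ρ i)
      = (E i - (ϖ * τ ϖ) ^ j * w i) + (ϖ * τ ϖ) ^ j * (w i + y i - ϖ * τ ϖ * y' i) := by
    rw [hE, hρ2]
    ring
  rw [this]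
  exact Ideal.add_mem _ (he i) (Ideal.mul_mem_left _ _ (hy2 i))

/-- TASK N27. One step of the reduction of the constants. Write `π = ϖ τ ϖ`,
`Tr d = d + τ d`. Claim: there is `β : ι → D` in `W` with `w i + ∑ l, M i l * β l ^ 2 ∈ m` (solve
`β l ^ 2 ≡ - (M⁻¹ w) l` modulo `m` by `h.perf`, lift to `W` by `hW.surj`).
* `j = 2 k`: `d' = d + π ^ k β`, `u' = u + π ^ (k - 1) β`, `v' = v`. As `τ β = β`,
`d' τ d' = d τ d + π ^ k β Tr d + π ^ (2 k) β ^ 2`, `Tr d' = Tr d + 2 π ^ k β`. Here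
`Tr (d l) = 2 π u l + v l (ϖ + τ ϖ)` is `π ^ ((n + 2) / 2)` times an element of `W` and
`2 = c π ^ ((n + 1) / 2)`, so `π ^ k β Tr d` and `2 π ^ k β` are `π ^ (j + 1)` times elements of `W`
(`j < n`). The new expression is
`π ^ j (w i + ∑ l, M i l * β l ^ 2) + π ^ (j + 1) * (element of W)` modulo `m ^ N`; use `hW.small`.
* `j = 2 k + 1`: `d' = d + π ^ k β ϖ`, `v' = v + π ^ k β`, `u' = u`.
`d' τ d' = d τ d + π ^ k β (d τ ϖ + ϖ τ d) + π ^ (2 k + 1) β ^ 2`,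
`d τ ϖ + ϖ τ d = π u (ϖ + τ ϖ) + 2 v π`, `Tr d' = Tr d + π ^ k β (ϖ + τ ϖ)`: the same estimates. -/
theorem exists_shift_step (h : Inv τ ϖ ε n) (hϖ : ϖ ∈ maximalIdeal D) {N : ℕ} {W : Subring D}
    (hW : Coef τ ϖ n N W) {M : ι → ι → D} (hM : ∀ i l, M i l ∈ W)
    (hdet : IsUnit (Matrix.of M).det) {j : ℕ} (hj : 1 ≤ j) (hjn : j < n) {c u v w : ι → D}
    (hc : ∀ i, c i ∈ W) (hu : ∀ i, u i ∈ W) (hv : ∀ i, v i ∈ W) (hw : ∀ i, w i ∈ W)
    {d : ι → D} (hd : ∀ i, d i = ϖ * τ ϖ * u i + v i * ϖ)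
    (he : ∀ i, ϖ * τ ϖ * c i + ∑ l, M i l * (d l * τ (d l)) - (d i + τ (d i)) -
      (ϖ * τ ϖ) ^ j * w i ∈ maximalIdeal D ^ N) :
    ∃ d' u' v' w' : ι → D, (∀ i, u' i ∈ W) ∧ (∀ i, v' i ∈ W) ∧ (∀ i, w' i ∈ W) ∧
      (∀ i, d' i = ϖ * τ ϖ * u' i + v' i * ϖ) ∧
      ∀ i, ϖ * τ ϖ * c i + ∑ l, M i l * (d' l * τ (d' l)) - (d' i + τ (d' i)) -
        (ϖ * τ ϖ) ^ (j + 1) * w' i ∈ maximalIdeal D ^ N := by
  obtain ⟨β, hβ, hβ2⟩ := n27_solve h hW hdet w
  have hp : ϖ * τ ϖ ∈ W := hW.norm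
  have hτp : τ (ϖ * τ ϖ) = ϖ * τ ϖ := hW.fix _ hp
  have hτd : ∀ i, τ (d i) = ϖ * τ ϖ * u i + v i * τ ϖ := by
    intro i
    rw [hd, map_add, map_mul τ (ϖ * τ ϖ) (u i), map_mul τ (v i) ϖ, hτp, hW.fix _ (hu i),
      hW.fix _ (hv i)]
  have htr : ∀ i, d i + τ (d i) = 2 * (ϖ * τ ϖ) * u i + v i * (ϖ + τ ϖ) := by
    intro i
    rw [hτd, hd]
    ring
  have h2 : n27_mul W (ϖ * τ ϖ) ((n + 1) / 2) (2 : D) := by
    obtain ⟨a, ha, h2⟩ := hW.two
    exact ⟨a, ha, by rw [h2]; ring⟩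
  have hT : n27_mul W (ϖ * τ ϖ) ((n + 2) / 2) (ϖ + τ ϖ) := by
    obtain ⟨a, ha, h2⟩ := hW.tr
    exact ⟨a, ha, by rw [h2]; ring⟩
  have hy : ∀ i, w i + ∑ l, M i l * β l ^ 2 ∈ W := fun i =>
    W.add_mem (hw i) (W.sum_mem fun l _ => W.mul_mem (hM i l) (W.pow_mem (hβ l) 2))
  rcases Nat.even_or_odd' j with ⟨k, hk | hk⟩
  · -- even case
    obtain ⟨k', rfl⟩ : ∃ k', k = k' + 1 := ⟨k - 1, by omega⟩
    have hτ' : ∀ i, τ (d i + (ϖ * τ ϖ) ^ (k' + 1) * β i)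
        = τ (d i) + (ϖ * τ ϖ) ^ (k' + 1) * β i := by
      intro i
      rw [map_add, map_mul, map_pow, hτp, hW.fix _ (hβ i)]
    have hr : ∀ i, n27_mul W (ϖ * τ ϖ) (j + 1)
        (∑ l, M i l * (β l * ((ϖ * τ ϖ) ^ (k' + 1) * (d l + τ (d l))))
          + -(β i * ((ϖ * τ ϖ) ^ (k' + 1) * 2))) := by
      intro i
      refine n27_add (n27_sum _ fun l _ => n27_smul (hM i l) (n27_smul (hβ l) ?_))
        (n27_neg (n27_smul (hβ i) ?_))
      · have h3 : n27_mul W (ϖ * τ ϖ) ((n + 2) / 2) (d l + τ (d l)) := by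
          rw [htr]
          refine n27_add ?_ (n27_smul (hv l) hT)
          have h4 : n27_mul W (ϖ * τ ϖ) (1 + (n + 1) / 2) ((ϖ * τ ϖ) ^ 1 * 2) := n27_pow h2
          have h5 : n27_mul W (ϖ * τ ϖ) ((n + 2) / 2) ((ϖ * τ ϖ) ^ 1 * 2) :=
            n27_mono hp (by omega) h4
          have h6 := n27_smul (hu l) h5
          have e : u l * ((ϖ * τ ϖ) ^ 1 * 2) = 2 * (ϖ * τ ϖ) * u l := by ring
          rwa [e] at h6
        exact n27_mono hp (by omega) (n27_pow (k := k' + 1) h3)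
      · exact n27_mono hp (by omega) (n27_pow (k := k' + 1) h2)
    obtain ⟨w', hw', hw2⟩ := n27_finish hW (j := j) (w := w)
      (y := fun i => ∑ l, M i l * β l ^ 2)
      (E := fun i => ϖ * τ ϖ * c i + ∑ l, M i l * (d l * τ (d l)) - (d i + τ (d i)))
      (E' := fun i => ϖ * τ ϖ * c i + ∑ l, M i l * ((d l + (ϖ * τ ϖ) ^ (k' + 1) * β l)
        * τ (d l + (ϖ * τ ϖ) ^ (k' + 1) * β l))
        - ((d i + (ϖ * τ ϖ) ^ (k' + 1) * β i) + τ (d i + (ϖ * τ ϖ) ^ (k' + 1) * β i)))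
      (r := fun i => ∑ l, M i l * (β l * ((ϖ * τ ϖ) ^ (k' + 1) * (d l + τ (d l))))
          + -(β i * ((ϖ * τ ϖ) ^ (k' + 1) * 2)))
      hy hβ2 he hr (by
        intro i
        simp only [hτ']
        have e1 : ∑ l, M i l * ((d l + (ϖ * τ ϖ) ^ (k' + 1) * β l)
            * (τ (d l) + (ϖ * τ ϖ) ^ (k' + 1) * β l))
            = ∑ l, M i l * (d l * τ (d l))
              + ∑ l, M i l * (β l * ((ϖ * τ ϖ) ^ (k' + 1) * (d l + τ (d l))))
              + (ϖ * τ ϖ) ^ j * ∑ l, M i l * β l ^ 2 := by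
          rw [Finset.mul_sum, ← Finset.sum_add_distrib, ← Finset.sum_add_distrib]
          refine Finset.sum_congr rfl fun l _ => ?_
          rw [hk, two_mul, pow_add (ϖ * τ ϖ) (k' + 1) (k' + 1)]
          ring
        rw [e1]
        ring)
    refine ⟨fun i => d i + (ϖ * τ ϖ) ^ (k' + 1) * β i, fun i => u i + (ϖ * τ ϖ) ^ k' * β i, v, w',
      fun i => W.add_mem (hu i) (W.mul_mem (W.pow_mem hp _) (hβ i)), hv, hw', fun i => ?_, hw2⟩
    simp only [hd]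
    ring
  · -- odd case
    have hτ' : ∀ i, τ (d i + (ϖ * τ ϖ) ^ k * β i * ϖ)
        = τ (d i) + (ϖ * τ ϖ) ^ k * β i * τ ϖ := by
      intro i
      rw [map_add, map_mul, map_mul, map_pow, hτp, hW.fix _ (hβ i)]
    have hr : ∀ i, n27_mul W (ϖ * τ ϖ) (j + 1)
        (∑ l, M i l * (β l * ((ϖ * τ ϖ) ^ (k + 1) * (u l * (ϖ + τ ϖ) + v l * 2)))
          + -(β i * ((ϖ * τ ϖ) ^ k * (ϖ + τ ϖ)))) := by
      intro i
      refine n27_add (n27_sum _ fun l _ => n27_smul (hM i l) (n27_smul (hβ l) ?_))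
        (n27_neg (n27_smul (hβ i) ?_))
      · have h3 : n27_mul W (ϖ * τ ϖ) ((n + 1) / 2) (u l * (ϖ + τ ϖ) + v l * 2) :=
          n27_add (n27_smul (hu l) (n27_mono hp (by omega) hT)) (n27_smul (hv l) h2)
        exact n27_mono hp (by omega) (n27_pow (k := k + 1) h3)
      · exact n27_mono hp (by omega) (n27_pow (k := k) hT)
    obtain ⟨w', hw', hw2⟩ := n27_finish hW (j := j) (w := w)
      (y := fun i => ∑ l, M i l * β l ^ 2)
      (E := fun i => ϖ * τ ϖ * c i + ∑ l, M i l * (d l * τ (d l)) - (d i + τ (d i)))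
      (E' := fun i => ϖ * τ ϖ * c i + ∑ l, M i l * ((d l + (ϖ * τ ϖ) ^ k * β l * ϖ)
        * τ (d l + (ϖ * τ ϖ) ^ k * β l * ϖ))
        - ((d i + (ϖ * τ ϖ) ^ k * β i * ϖ) + τ (d i + (ϖ * τ ϖ) ^ k * β i * ϖ)))
      (r := fun i => ∑ l, M i l * (β l * ((ϖ * τ ϖ) ^ (k + 1) * (u l * (ϖ + τ ϖ) + v l * 2)))
          + -(β i * ((ϖ * τ ϖ) ^ k * (ϖ + τ ϖ))))
      hy hβ2 he hr (by
        intro i
        simp only [hτ']
        have e1 : ∑ l, M i l * ((d l + (ϖ * τ ϖ) ^ k * β l * ϖ)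
            * (τ (d l) + (ϖ * τ ϖ) ^ k * β l * τ ϖ))
            = ∑ l, M i l * (d l * τ (d l))
              + ∑ l, M i l * (β l * ((ϖ * τ ϖ) ^ (k + 1) * (u l * (ϖ + τ ϖ) + v l * 2)))
              + (ϖ * τ ϖ) ^ j * ∑ l, M i l * β l ^ 2 := by
          rw [Finset.mul_sum, ← Finset.sum_add_distrib, ← Finset.sum_add_distrib]
          refine Finset.sum_congr rfl fun l _ => ?_
          have e2 : d l * τ ϖ + ϖ * τ (d l) = ϖ * τ ϖ * (u l * (ϖ + τ ϖ) + v l * 2) := by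
            rw [hτd, hd]
            ring
          have e3 : (ϖ * τ ϖ) ^ j = (ϖ * τ ϖ) ^ k * (ϖ * τ ϖ) ^ k * (ϖ * τ ϖ) := by
            rw [hk, pow_succ, two_mul, pow_add]
          rw [e3, pow_succ (ϖ * τ ϖ) k]
          linear_combination (M i l * β l * (ϖ * τ ϖ) ^ k) * e2
        rw [e1]
        ring)
    refine ⟨fun i => d i + (ϖ * τ ϖ) ^ k * β i * ϖ, u, fun i => v i + (ϖ * τ ϖ) ^ k * β i, w',
      hu, fun i => W.add_mem (hv i) (W.mul_mem (W.pow_mem hp _) (hβ i)), hw', fun i => ?_, hw2⟩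
    simp only [hd]
    ring
-- END N27

/-- The reduction of the constants. -/
theorem exists_shift (h : Inv τ ϖ ε n) (hϖ : ϖ ∈ maximalIdeal D) {N : ℕ} {W : Subring D}
    (hW : Coef τ ϖ n N W) {M : ι → ι → D} (hM : ∀ i l, M i l ∈ W)
    (hdet : IsUnit (Matrix.of M).det) {c : ι → D} (hc : ∀ i, c i ∈ W) :
    ∃ d u v w : ι → D, (∀ i, u i ∈ W) ∧ (∀ i, v i ∈ W) ∧ (∀ i, w i ∈ W) ∧
      (∀ i, d i = ϖ * τ ϖ * u i + v i * ϖ) ∧
      ∀ i, ϖ * τ ϖ * c i + ∑ l, M i l * (d l * τ (d l)) - (d i + τ (d i)) -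
        (ϖ * τ ϖ) ^ n * w i ∈ maximalIdeal D ^ N := by
  obtain ⟨m, hm⟩ : ∃ m, m = n - 1 := ⟨_, rfl⟩
  have hpos := h.pos
  have key : ∀ k, k ≤ m → ∃ d u v w : ι → D, (∀ i, u i ∈ W) ∧ (∀ i, v i ∈ W) ∧
      (∀ i, w i ∈ W) ∧ (∀ i, d i = ϖ * τ ϖ * u i + v i * ϖ) ∧
      ∀ i, ϖ * τ ϖ * c i + ∑ l, M i l * (d l * τ (d l)) - (d i + τ (d i)) -
        (ϖ * τ ϖ) ^ (k + 1) * w i ∈ maximalIdeal D ^ N := by
    intro k
    induction k with
    | zero =>
      intro _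
      refine ⟨fun _ => 0, fun _ => 0, fun _ => 0, c, fun _ => W.zero_mem, fun _ => W.zero_mem, hc,
        fun _ => by ring, fun i => ?_⟩
      simp
    | succ k ih =>
      intro hk
      obtain ⟨d, u, v, w, hu, hv, hw, hd, he⟩ := ih (by omega)
      obtain ⟨d', u', v', w', h1, h2, h3, h4, h5⟩ := exists_shift_step h hϖ hW hM hdet
        (j := k + 1) (by omega) (by omega) hc hu hv hw hd he
      exact ⟨d', u', v', w', h1, h2, h3, h4, h5⟩
  obtain ⟨d, u, v, w, h1, h2, h3, h4, h5⟩ := key m le_rfl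
  refine ⟨d, u, v, w, h1, h2, h3, h4, ?_⟩
  rwa [hm, Nat.sub_add_cancel hpos] at h5

end Pool.Agent.Lib.MP_6a3dac_ag.QD
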