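import Pool.Agent.Lib.MP_6a3dac_ag.QD.PresB

/-!
# Descent of projective schemes along quadratic extensions: the schemes

The definitions used in the statement of the theorem on quadratic descent, second part.
-/

set_option autoImplicit false

namespace Pool.Agent.Lib.MP_6a3dac_ag.QD

open MvPolynomial CategoryTheory Limits AlgebraicGeometry
open Pool.Agent.Lib.MP_6a3dac_ag

section Fixed

variable {O : Type} [CommRing O] {n : ℕ}

/-- The homogeneous ideal of the fibre over `𝔓` of the projective scheme defined by `I`. -/
noncomputable def fibIdeal (I : HomIdeal O n) (𝔓 : Ideal O) : HomIdeal O n where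
  ideal := fibSpan I 𝔓
  homog := id (fibSpan_homog I 𝔓)

/-- The homogeneous ideal of the locus in the fibre over `𝔓` of the projective scheme defined by `I`
where the points `(x_1 : ... : x_n)` and `(x_ρ(1) : ... : x_ρ(n))` coincide. -/
noncomputable def fixIdeal (ρ : Equiv.Perm (Fin n)) (I : HomIdeal O n) (𝔓 : Ideal O) :
    HomIdeal O n where
  ideal := fixSpan ρ I 𝔓
  homog := id (fixSpan_homog ρ I 𝔓)

/-- The homogeneous prime ideal of the polynomials which vanish at the point `y`. -/
noncomputable def primeAt (I : HomIdeal O n) (y : hProj I) : Ideal (MvPolynomial (Fin n) O) :=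
  (show ProjectiveSpectrum (hGr I) from y).asHomogeneousIdeal.toIdeal.comap (hMk I)

/-- The polynomials `x_k x_ρ(l) - x_l x_ρ(k)` vanish at the point `y`. -/
def FixedAt (ρ : Equiv.Perm (Fin n)) (I : HomIdeal O n) (y : hProj I) : Prop :=
  ∀ k l, X k * X (ρ l) - X l * X (ρ k) ∈ primeAt I y

/-- The fibre over `𝔓` is regular at its points at which the points `(x_1 : ... : x_n)` and
`(x_ρ(1) : ... : x_ρ(n))` coincide. -/
def RegularFix (ρ : Equiv.Perm (Fin n)) (I : HomIdeal O n) (𝔓 : Ideal O) : Prop :=
  ∀ y : hProj (fibIdeal I 𝔓), FixedAt ρ (fibIdeal I 𝔓) y → RegularPt y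

/-- In all local rings of the locus of fixed points in the fibre over `𝔓` the squares of the
elements of the maximal ideal are zero. -/
def OrdinaryFix (ρ : Equiv.Perm (Fin n)) (I : HomIdeal O n) (𝔓 : Ideal O) : Prop :=
  ∀ y : hProj (fixIdeal ρ I 𝔓), OrdinaryPt y

/-- The condition on the fixed points at the dyadic ramified primes: for all prime ideals `𝔓` which
contain `2` and such that `σ` acts trivially on `O / 𝔓`, the fibre over `𝔓` is regular at its fixed
points, which are ordinary. -/
def DyadicCondition (σ : O →+* O) (ρ : Equiv.Perm (Fin n)) (I : HomIdeal O n) : Prop :=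
  ∀ 𝔓 : Ideal O, 𝔓.IsPrime → (2 : O) ∈ 𝔓 → (∀ c, σ c - c ∈ 𝔓) →
    RegularFix ρ I 𝔓 ∧ OrdinaryFix ρ I 𝔓

end Fixed

section Desc

variable {K O L : Type} [Field K] [Field L] [Algebra K L] [CommRing O] [Algebra O L] {n : ℕ}
  (σ : L ≃ₐ[K] L) (ρ : Equiv.Perm (Fin n)) (I : HomIdeal O n)

/-- The graded algebra structure (its decomposition map is determined by the grading). -/
noncomputable instance dGradedAlgebra : GradedAlgebra (dGr σ ρ I) :=
  gradedAlgebraOf (dGr σ ρ I) (id (isInternal_dGr σ ρ I)) (id (gradedMonoid_dGr σ ρ I))

attribute [local irreducible] dCommRing dAlgebra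

/-- The projective scheme over `K` which is obtained by descent from the projective scheme over `L`
defined by `I` and the semilinear automorphism which permutes the coordinates. -/
noncomputable def descProj : Scheme.{0} := Proj (dGr σ ρ I)

/-- The structure morphism. -/
noncomputable def descTo : descProj σ ρ I ⟶ Spec (CommRingCat.of K) := projTo K (dGr σ ρ I)

end Desc

end Pool.Agent.Lib.MP_6a3dac_ag.QD
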