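import Pool.Agent.Lib.MP_6a3dac_ag.QD.Main
import Pool.Agent.Lib.MP_6a3dac_ag.QD.Pres
import Pool.Agent.Lib.MP_6a3dac_ag.QWNumber

/-!
# Quadratic descent of regular models
-/

set_option autoImplicit false
set_option linter.unusedSectionVars false
set_option linter.unusedVariables false

namespace Pool.Agent.Lib.MP_6a3dac_ag.QD

open MvPolynomial CategoryTheory Limits AlgebraicGeometry IsLocalRing NumberField IsDedekindDomain
open Pool.Agent.Lib.MP_6a3dac_ag Pool.Agent.Lib.MP_6a3dac_ag.DNF Pool.Agent.Lib.MP_6a3dac_ag.Bert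

section Gen

variable {O L : Type} [CommRing O] [IsDomain O] [Field L] [Algebra O L] [IsFractionRing O L]

attribute [local instance] MvPolynomial.algebraMvPolynomial in
theorem map_mem_genIdeal {n : ℕ} {I : HomIdeal O n} (hI : I.ideal.IsPrime)
    (hc : ∀ c, C c ∈ I.ideal → c = 0) {f : MvPolynomial (Fin n) O} :
    MvPolynomial.map (algebraMap O L) f ∈ genIdeal L I ↔ f ∈ I.ideal := by
  constructor
  · intro h
    have h1 : algebraMap (MvPolynomial (Fin n) O) (MvPolynomial (Fin n) L) f ∈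
        I.ideal.map (algebraMap (MvPolynomial (Fin n) O) (MvPolynomial (Fin n) L)) := h
    rw [IsLocalization.algebraMap_mem_map_algebraMap_iff
      ((nonZeroDivisors O).map (C (σ := Fin n)))] at h1
    obtain ⟨_, ⟨r, hr, rfl⟩, h2⟩ := h1
    exact (hI.mem_or_mem h2).resolve_left fun h3 => nonZeroDivisors.ne_zero hr (hc r h3)
  · intro h
    exact Ideal.mem_map_of_mem _ h

attribute [local instance] MvPolynomial.algebraMvPolynomial in
theorem genIdeal_isPrime {n : ℕ} {I : HomIdeal O n} (hI : I.ideal.IsPrime)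
    (hc : ∀ c, C c ∈ I.ideal → c = 0) : (genIdeal L I).IsPrime := by
  have h1 : (I.ideal.map (algebraMap (MvPolynomial (Fin n) O)
      (MvPolynomial (Fin n) L))).IsPrime :=
    IsLocalization.isPrime_of_isPrime_disjoint ((nonZeroDivisors O).map (C (σ := Fin n))) _ _ hI
      (by
        rw [Set.disjoint_left]
        rintro _ ⟨r, hr, rfl⟩ h3
        exact nonZeroDivisors.ne_zero hr (hc r h3))
  exact h1

variable (L) in
/-- The homogeneous ideal over the field of fractions. -/
noncomputable def genHom {n : ℕ} (I : HomIdeal O n) : HomIdeal L n :=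
  ⟨genIdeal L I, p2_homog I⟩

end Gen

section Tau

variable {K O L : Type} [Field K] [Field L] [Algebra K L] [CommRing O] [Algebra O L] {n : ℕ}
  (σ : L ≃ₐ[K] L) (ρ : Equiv.Perm (Fin n)) (I : HomIdeal O n) {σO : O →+* O}
  (hσO : ∀ c, algebraMap O L (σO c) = σ (algebraMap O L c))
  (hinv : ∀ f ∈ I.ideal, twHom σO ρ f ∈ I.ideal)

include hσO in
theorem twAlg_map (f : MvPolynomial (Fin n) O) :
    twAlg σ ρ (MvPolynomial.map (algebraMap O L) f) =
      MvPolynomial.map (algebraMap O L) (twHom σO ρ f) := by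
  have h : ((twAlg σ ρ : MvPolynomial (Fin n) L →ₐ[K] _) : MvPolynomial (Fin n) L →+* _).comp
      (MvPolynomial.map (algebraMap O L)) =
      (MvPolynomial.map (algebraMap O L)).comp (twHom σO ρ) := by
    apply MvPolynomial.ringHom_ext
    · intro r
      simp only [RingHom.comp_apply, twHom, coe_eval₂Hom, eval₂_C, map_C, twAlg,
        RingHom.coe_coe, aevalTower_C, hσO]
      rfl
    · intro i
      simp [twHom, twAlg]
  exact congrArg (fun g : MvPolynomial (Fin n) O →+* _ => g f) h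

theorem twAlg_twAlg (hσ2 : ∀ c, σ (σ c) = c) (hρ : ∀ k, ρ (ρ k) = k)
    (f : MvPolynomial (Fin n) L) : twAlg σ ρ (twAlg σ ρ f) = f := by
  have h : ((twAlg σ ρ : MvPolynomial (Fin n) L →ₐ[K] _) : MvPolynomial (Fin n) L →+* _).comp
      ((twAlg σ ρ : MvPolynomial (Fin n) L →ₐ[K] _) : MvPolynomial (Fin n) L →+* _) =
      RingHom.id _ := by
    apply MvPolynomial.ringHom_ext
    · intro r
      have h1 : ∀ c : L, twAlg σ ρ (C c) = C (σ c) := fun c => by
        simp only [twAlg, aevalTower_C]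
        rfl
      simp only [RingHom.comp_apply, RingHom.coe_coe, h1, hσ2, RingHom.id_apply]
    · intro i
      simp [twAlg, hρ]
  exact congrArg (fun g : MvPolynomial (Fin n) L →+* _ => g f) h

include hσO hinv in
theorem genIdeal_le_comap : genIdeal L I ≤ (genIdeal L I).comap
    ((twAlg σ ρ : MvPolynomial (Fin n) L →ₐ[K] _) : MvPolynomial (Fin n) L →+* _) := by
  rw [genIdeal, Ideal.map_le_iff_le_comap]
  intro f hf
  rw [Ideal.mem_comap, Ideal.mem_comap]
  change twAlg σ ρ (MvPolynomial.map (algebraMap O L) f) ∈ _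
  rw [twAlg_map σ ρ hσO]
  exact Ideal.mem_map_of_mem _ (hinv f hf)

/-- The semilinear involution of the homogeneous coordinate ring. -/
noncomputable def tauG : GCoord L I →+* GCoord L I :=
  Ideal.quotientMap (genIdeal L I)
    ((twAlg σ ρ : MvPolynomial (Fin n) L →ₐ[K] _) : MvPolynomial (Fin n) L →+* _)
    (genIdeal_le_comap σ ρ I hσO hinv)

theorem tauG_mk (f : MvPolynomial (Fin n) L) :
    tauG σ ρ I hσO hinv (Ideal.Quotient.mk (genIdeal L I) f) =
      Ideal.Quotient.mk (genIdeal L I) (twAlg σ ρ f) :=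
  Ideal.quotientMap_mk

end Tau

/-- **Quadratic descent of regular models.** -/
theorem hasRegularModel_desc (E L : Type) [Field E] [NumberField E] [Field L] [NumberField L]
    [Algebra E L] (h2 : Module.finrank E L = 2) (σ : L ≃ₐ[E] L) (hσ : σ ≠ 1) (n : ℕ)
    (I : HomIdeal (𝓞 L) (n + 1)) (hI : PrimeFlat I) (hreg : RegularScheme (hProj I))
    (ρ : Equiv.Perm (Fin (n + 1)))
    (hinv : Invariant (RingOfIntegers.mapRingHom (σ : L →+* L)) ρ I)
    (hw : DyadicCondition (RingOfIntegers.mapRingHom (σ : L →+* L)) ρ I) :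
    HasRegularModel E (descTo σ ρ I) := by
  obtain ⟨hI, hc⟩ := hI
  obtain ⟨hρ, hinv⟩ := hinv
  obtain ⟨σO, hσO⟩ : ∃ σO, σO = RingOfIntegers.mapRingHom (σ : L →+* L) := ⟨_, rfl⟩
  rw [← hσO] at hinv hw
  have hσO' : ∀ c, algebraMap (𝓞 L) L (σO c) = σ (algebraMap (𝓞 L) L c) := by
    intro c
    rw [hσO]
    rfl
  have hσ2 : ∀ c : L, σ (σ c) = c := involution_of_finrank h2 σ
  have hquad : QuadExt (𝓞 E) (𝓞 L) σO := hσO ▸ quadExt_of_finrank h2 σ hσ
  have hprime : (genIdeal L I).IsPrime := genIdeal_isPrime hI hc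
  let M := GCoord L I
  have hdom : IsDomain M := Ideal.Quotient.isDomain (genIdeal L I)
  let : Algebra (𝓞 E) M := ((algebraMap L M).comp (algebraMap (𝓞 E) L)).toAlgebra
  have : IsScalarTower (𝓞 E) L M := IsScalarTower.of_algebraMap_eq fun _ => rfl
  have hKLM : ∀ a : E, algebraMap E M a = algebraMap L M (algebraMap E L a) := fun a => rfl
  have : IsScalarTower E L M := IsScalarTower.of_algebraMap_eq hKLM
  let A := DCoord σ ρ I
  let : Algebra (𝓞 E) A := ((algebraMap E A).comp (algebraMap (𝓞 E) E)).toAlgebra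
  have : IsScalarTower (𝓞 E) E A := IsScalarTower.of_algebraMap_eq fun _ => rfl
  let τ : M →+* M := tauG σ ρ I hσO' hinv
  let ℳ : ℕ → Submodule L M := hGr (genHom L I)
  let : GradedAlgebra ℳ := hGradedAlgebra (genHom L I)
  have hmem : ∀ (k : ℕ) (m : M), m ∈ ℳ k ↔ ∃ Q : MvPolynomial (Fin (n + 1)) L,
      Q.IsHomogeneous k ∧ Ideal.Quotient.mk (genIdeal L I) Q = m := fun k m => Iff.rfl
  have hmk : Function.Surjective (Ideal.Quotient.mk (genIdeal L I)) := Ideal.Quotient.mk_surjective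
  have hτmk : ∀ f, τ (Ideal.Quotient.mk (genIdeal L I) f) =
      Ideal.Quotient.mk (genIdeal L I) (twAlg σ ρ f) := tauG_mk σ ρ I hσO' hinv
  have hτ : ∀ m, τ (τ m) = m := by
    intro m
    obtain ⟨f, rfl⟩ := hmk m
    rw [hτmk, hτmk, twAlg_twAlg σ ρ hσ2 hρ]
  have hτgr : ∀ k m, m ∈ ℳ k → τ m ∈ ℳ k := by
    intro k m hm
    obtain ⟨Q, hQ, rfl⟩ := (hmem k m).mp hm
    exact (hmem k _).mpr ⟨_, p2_isHomogeneous σ ρ hQ, (hτmk Q).symm⟩
  let F := FractionRing M
  let ι : M →+* F := algebraMap M F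
  have hι : Function.Injective ι := IsFractionRing.injective M F
  let τe : M ≃+* M := { τ with invFun := τ, left_inv := hτ, right_inv := hτ }
  let τF : F →+* F := (IsFractionRing.ringEquivOfRingEquiv (K := F) (L := F) τe : F ≃+* F)
  have hτFι : ∀ m, τF (ι m) = ι (τ m) := fun m =>
    IsFractionRing.ringEquivOfRingEquiv_algebraMap τe m
  have hτF2 : ∀ z, τF (τF z) = z := by
    intro z
    obtain ⟨a, b, hb, rfl⟩ := IsFractionRing.div_surjective (A := M) z
    rw [map_div₀, map_div₀]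
    change τF (τF (ι a)) / τF (τF (ι b)) = ι a / ι b
    rw [hτFι, hτFι, hτFι, hτFι, hτ, hτ]
  let pM : MvPolynomial (Fin (n + 1)) (𝓞 L) →+* M :=
    (Ideal.Quotient.mk (genIdeal L I)).comp (MvPolynomial.map (algebraMap (𝓞 L) L))
  have hpM : ∀ f, pM f = Ideal.Quotient.mk (genIdeal L I)
      (MvPolynomial.map (algebraMap (𝓞 L) L) f) := fun _ => rfl
  have halg : ∀ c : L, algebraMap L M c = Ideal.Quotient.mk (genIdeal L I) (C c) := fun _ => rfl
  have hoM : ∀ c : 𝓞 L, oM (𝓞 L) L M c = Ideal.Quotient.mk (genIdeal L I)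
      (C (algebraMap (𝓞 L) L c)) := fun _ => rfl
  have hS : Setting (𝓞 E) I ρ σO ℳ τ ι τF pM :=
    { quad := hquad
      RL := by
        rw [IsScalarTower.algebraMap_eq (𝓞 E) (𝓞 L) L]
        exact (IsFractionRing.injective (𝓞 L) L).comp hquad.inj
      OL := IsFractionRing.injective (𝓞 L) L
      τO := fun c => by
        rw [hoM, hoM, hτmk, hσO']
        congr 1
        simp only [twAlg, aevalTower_C]
        rfl
      τ2 := hτ
      τgr := hτgr
      inj := hι
      τFι := hτFι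
      τFτF := hτF2
      ρρ := hρ
      pC := fun c => by rw [hpM, map_C, hoM]
      pgr := fun k G hG => (hmem k _).mpr ⟨_, hG.map _, rfl⟩
      pτ := fun G => by rw [hpM, hpM, hτmk, twAlg_map σ ρ hσO']
      pker := fun G => Ideal.Quotient.eq_zero_iff_mem.trans (map_mem_genIdeal hI hc)
      reg := hreg }
  have hfin : ∀ y : hProj I, y ∈ closedPoints (hProj I) →
      ∀ [IsLocalRing (locY I (ι.comp pM) y)], Finite (ResidueField (locY I (ι.comp pM) y)) :=
    fun y hy _ => finite_residueField_locY hS.hκ hI hy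
  let j : A →ₐ[𝓞 E] M :=
    { (dIncl σ ρ I : A →+* M) with
      commutes' := fun r => by
        change dIncl σ ρ I (algebraMap E A (algebraMap (𝓞 E) E r)) =
          algebraMap L M (algebraMap (𝓞 E) L r)
        rw [AlgHom.commutes, hKLM, ← IsScalarTower.algebraMap_apply (𝓞 E) E L] }
  have hj : ∀ a, j a = dIncl σ ρ I a := fun _ => rfl
  have hLM : Function.Injective (algebraMap L M) := (algebraMap L M).injective
  refine exists_model_of_local (dGr σ ρ I) ℳ (RingOfIntegers.not_isField E) hquad j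
    (p2_dIncl_injective σ ρ I) (fun k a => ?_) τ hτ hτgr (fun m hm => ?_) (fun a => ?_) hS.τO
    ι hι τF hτFι hτF2 (fun k => pM (X k)) (fun k => hS.pgr 1 _ (isHomogeneous_X _ k)) hS.star ?_
    (fun p hp B D i β hD => hS.local_unram p.asIdeal hD) (fun p hp => ?_)
  · exact p2_mem_dGr σ ρ I
  · obtain ⟨f, rfl⟩ := hmk m
    rw [hτmk] at hm
    exact ⟨⟨_, f, (AlgHom.mem_equalizer _ _ _).mpr hm.symm, rfl⟩, rfl⟩
  · obtain ⟨P, hP, hPa⟩ := a.2
    have h1 : j a = Ideal.Quotient.mk (genIdeal L I) P := hPa.symm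
    rw [h1, hτmk]
    exact ((AlgHom.mem_equalizer _ _ _).mp hP).symm
  · rw [eq_top_iff]
    rintro m -
    obtain ⟨f, rfl⟩ := hmk m
    induction f using MvPolynomial.induction_on with
    | C c => exact Subalgebra.algebraMap_mem _ c
    | add f g hf hg =>
      rw [map_add]
      exact Subalgebra.add_mem _ hf hg
    | mul_X f k hf =>
      rw [map_mul]
      refine Subalgebra.mul_mem _ hf (Algebra.subset_adjoin ⟨k, ?_⟩)
      change pM (X k) = _
      rw [hpM, map_X]
  · have := p.isMaximal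
    exact hS.exists_cent hfin p.asIdeal p.ne_bot hp fun 𝔓 h𝔓 => hw 𝔓 h𝔓

end Pool.Agent.Lib.MP_6a3dac_ag.QD
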