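import Pool.Agent.Lib.MP_6a3dac_ag.QD.Pt

/-!
# The fixed points at which the fibre is regular
-/

set_option autoImplicit false
set_option linter.unusedSectionVars false

namespace Pool.Agent.Lib.MP_6a3dac_ag.QD

open MvPolynomial CategoryTheory Limits AlgebraicGeometry IsLocalRing
open Pool.Agent.Lib.MP_6a3dac_ag Pool.Agent.Lib.MP_6a3dac_ag.DNF Pool.Agent.Lib.MP_6a3dac_ag.Bert

section Use

variable {O : Type} [CommRing O] {n : ℕ} {I : HomIdeal O (n + 1)}
  {F : Type} [Field F] {κ : MvPolynomial (Fin (n + 1)) O →+* F}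
  {ρ : Equiv.Perm (Fin (n + 1))} {𝔓 : Ideal O}

-- BEGIN U2
theorem u2_isUnit_mk {A : Type} [CommRing A] [IsLocalRing A] {p : A}
    (hp : p ∈ maximalIdeal A) (a : A) :
    IsUnit (Ideal.Quotient.mk (Ideal.span {p}) a) ↔ IsUnit a := by
  constructor
  · intro h
    obtain ⟨b, hb⟩ := h.exists_right_inv
    obtain ⟨b, rfl⟩ := Ideal.Quotient.mk_surjective b
    rw [← map_mul, ← map_one (Ideal.Quotient.mk (Ideal.span {p})),
      Ideal.Quotient.mk_eq_mk_iff_sub_mem] at hb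
    have h1 : a * b - 1 ∈ maximalIdeal A :=
      ((Ideal.span_singleton_le_iff_mem _).mpr hp) hb
    by_contra hc
    have h2 : a ∈ maximalIdeal A := by
      rw [IsLocalRing.mem_maximalIdeal, mem_nonunits_iff]
      exact hc
    have h3 : (1 : A) ∈ maximalIdeal A := by
      have := (maximalIdeal A).sub_mem ((maximalIdeal A).mul_mem_right b h2) h1
      rwa [sub_sub_cancel] at this
    exact (Ideal.ne_top_iff_one _).mp (Ideal.IsPrime.ne_top inferInstance) h3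
  · intro h
    exact h.map _

/-- TASK U2. `exists_atPt I y` gives `i`, `𝔮`; `f` = the map of `exists_isLocAt_locY`, `A = locY I κ y`.
`dId (fibIdeal I 𝔓) i = dId I i ⊔ 𝔓.map C` (`Ideal.map_sup`, `dehom_C`) is contained in `𝔮`
(`hy`: `C c ∈ ptIdeal I y` and `AtPt` with `k = 0`), so by `exists_pt` there is
`y' : hProj (fibIdeal I 𝔓)` with `AtPt (fibIdeal I 𝔓) y' i 𝔮`. `X k X (ρ l) - X l X (ρ k)` (homogeneous of
degree `2`) is in `ptIdeal (fibIdeal I 𝔓) y'` by `AtPt` for `y` and `y'`, so the stalk at `y'` is regular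
(`ptIdeal` is the comap of the homogeneous ideal). It is `IsLocAt (dId (fibIdeal I 𝔓) i) 𝔮` by
`AtPt.exists_isLocAt`. Also `A → A ⧸ span {p}` composed with `f` is
`IsLocAt (dId (fibIdeal I 𝔓) i) 𝔮`: units: `p` is in the maximal ideal (`C ϖ ∈ ptIdeal I y`); kernel: `f x ∈ (p)`:
`f x * f s = f (C ϖ * a)`, `x s - C ϖ a ∈ ker f` ..., and `f (C c) ∈ (p)` for `c ∈ 𝔓` by `hunif`
(`C t ∉ ptIdeal I y`). By `exists_equiv_of_isLocAt`, `A ⧸ span {p}` is regular
(`IsRegularLocalRing.of_ringEquiv`) and `notMem_sq_of_quotient` (QWStruct.lean; see the end of the proof of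
`notMem_sq_of_smooth`) applies: `p ≠ 0` is not a zero divisor. -/
theorem notMem_sq_of_regularFix (hκ : ∀ G, κ G = 0 ↔ G ∈ I.ideal) (hI : I.ideal.IsPrime)
    (hreg𝔓 : RegularFix ρ I 𝔓) {ϖ : O} (hϖ : C ϖ ∉ I.ideal) (hϖ𝔓 : ϖ ∈ 𝔓)
    (hunif : ∀ c ∈ 𝔓, ∃ t, t ∉ 𝔓 ∧ ∃ d, t * c = d * ϖ) {y : hProj I}
    (hfix : ∀ k l : Fin (n + 1), X k * X (ρ l) - X l * X (ρ k) ∈ ptIdeal I y)
    (hy : ∀ c, c ∈ 𝔓 ↔ C c ∈ ptIdeal I y)
    (hreg : IsRegularLocalRing (locY I κ y)) (p : locY I κ y) (hp : (p : F) = κ (C ϖ)) :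
    p ∉ maximalIdeal (locY I κ y) ^ 2 := by
  obtain ⟨i, 𝔮, h⟩ := exists_atPt I y
  obtain ⟨f, hf1, hf⟩ := exists_isLocAt_locY hκ hI h
  have hpr := h.1
  have h1𝔮 : (1 : MvPolynomial {l : Fin (n + 1) // l ≠ i} O) ∉ 𝔮 :=
    fun h2 => hpr.ne_top ((Ideal.eq_top_iff_one _).mpr h2)
  have hdC : ∀ c, dehF κ i (C c) = κ (C c) := by
    intro c
    rw [dehF, coe_eval₂Hom, eval₂_C]
    rfl
  have hCq : ∀ c : O, C c ∈ 𝔮 ↔ c ∈ 𝔓 := by
    intro c
    rw [hy, ← h.2.2 0 (C c) (isHomogeneous_C _ _), dehom_C]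
  have hpf : f (C ϖ) = p := by
    apply Subtype.ext
    rw [hf1, hdC, hp]
  have hpm : p ∈ maximalIdeal (locY I κ y) := by
    rw [← hpf, hf.mem_maximalIdeal, hCq]
    exact hϖ𝔓
  have hle : dId (fibIdeal I 𝔓) i ≤ 𝔮 := by
    have h2 : I.ideal ≤ 𝔮.comap (dehom i) := Ideal.map_le_iff_le_comap.mp h.2.1
    refine Ideal.map_le_iff_le_comap.mpr (sup_le h2 (Ideal.map_le_iff_le_comap.mpr ?_))
    intro c hc
    change dehom i (C c) ∈ 𝔮
    rw [dehom_C, hCq]
    exact hc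
  have hmono : dId I i ≤ dId (fibIdeal I 𝔓) i := Ideal.map_mono le_sup_left
  have hCmem : ∀ c ∈ 𝔓, C c ∈ dId (fibIdeal I 𝔓) i := by
    intro c hc
    have h2 : (C c : MvPolynomial (Fin (n + 1)) O) ∈ (fibIdeal I 𝔓).ideal :=
      Ideal.mem_sup_right (Ideal.mem_map_of_mem C hc)
    have h3 := Ideal.mem_map_of_mem (dehom i) h2
    rwa [dehom_C] at h3
  have hfC : ∀ c ∈ 𝔓, f (C c) ∈ Ideal.span {p} := by
    intro c hc
    obtain ⟨t, ht, d, htd⟩ := hunif c hc
    have hu : IsUnit (f (C t)) := by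
      rw [hf.unit, hCq]
      exact ht
    obtain ⟨u, hu1⟩ := hu.exists_right_inv
    have h2 : f (C t) * f (C c) = f (C d) * p := by
      have h3 : (C t * C c : MvPolynomial {l : Fin (n + 1) // l ≠ i} O) = C d * C ϖ := by
        rw [← C_mul, ← C_mul, htd]
      rw [← hpf, ← map_mul, h3, map_mul]
    rw [Ideal.mem_span_singleton']
    refine ⟨u * f (C d), ?_⟩
    calc u * f (C d) * p = u * (f (C d) * p) := by ring
      _ = (f (C t) * u) * f (C c) := by rw [← h2]; ring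
      _ = f (C c) := by rw [hu1, one_mul]
  have hfd : ∀ x ∈ dId (fibIdeal I 𝔓) i, f x ∈ Ideal.span {p} := by
    have h2 : dId (fibIdeal I 𝔓) i ≤ (Ideal.span {p}).comap f := by
      refine Ideal.map_le_iff_le_comap.mpr (sup_le ?_ (Ideal.map_le_iff_le_comap.mpr ?_))
      · intro g hg
        change f (dehom i g) ∈ Ideal.span {p}
        have h3 : f (dehom i g) = 0 :=
          (hf.ker _).mpr ⟨1, h1𝔮, by rw [one_mul]; exact Ideal.mem_map_of_mem _ hg⟩
        rw [h3]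
        exact Ideal.zero_mem _
      · intro c hc
        change f (dehom i (C c)) ∈ Ideal.span {p}
        rw [dehom_C]
        exact hfC c hc
    exact fun x hx => h2 hx
  have hf' : IsLocAt (dId (fibIdeal I 𝔓) i) 𝔮 ((Ideal.Quotient.mk (Ideal.span {p})).comp f) := by
    refine ⟨fun x => ?_, fun z => ?_, fun x => ?_⟩
    · rw [RingHom.comp_apply, u2_isUnit_mk hpm, hf.unit]
    · obtain ⟨w, rfl⟩ := Ideal.Quotient.mk_surjective z
      obtain ⟨a, s, hs, hw⟩ := hf.surj w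
      refine ⟨a, s, hs, ?_⟩
      rw [RingHom.comp_apply, RingHom.comp_apply, ← map_mul, hw]
    · rw [RingHom.comp_apply, Ideal.Quotient.eq_zero_iff_mem]
      constructor
      · intro hx
        obtain ⟨w, hw⟩ := Ideal.mem_span_singleton'.mp hx
        obtain ⟨a, s, hs, hws⟩ := hf.surj w
        have h2 : f (s * x - a * C ϖ) = 0 := by
          rw [map_sub, map_mul, map_mul, hpf, ← hw, ← hws]
          ring
        obtain ⟨z, hz, hzx⟩ := (hf.ker _).mp h2
        refine ⟨z * s, hpr.mul_notMem hz hs, ?_⟩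
        have h3 : z * s * x = z * (s * x - a * C ϖ) + z * a * C ϖ := by ring
        rw [h3]
        exact Ideal.add_mem _ (hmono hzx) (Ideal.mul_mem_left _ _ (hCmem ϖ hϖ𝔓))
      · rintro ⟨z, hz, hzx⟩
        have h2 := hfd _ hzx
        rw [map_mul] at h2
        obtain ⟨u, hu⟩ := ((hf.unit z).mpr hz).exists_right_inv
        have h3 : f x = u * (f z * f x) := by
          rw [← mul_assoc, mul_comm u, hu, one_mul]
        rw [h3]
        exact Ideal.mul_mem_left _ _ h2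
  obtain ⟨y', hy'⟩ := exists_pt (fibIdeal I 𝔓) i hpr hle
  have hhom : ∀ k l : Fin (n + 1), (X k * X (ρ l) - X l * X (ρ k) :
      MvPolynomial (Fin (n + 1)) O).IsHomogeneous 2 := fun k l =>
    ((isHomogeneous_X O k).mul (isHomogeneous_X O (ρ l))).sub
      ((isHomogeneous_X O l).mul (isHomogeneous_X O (ρ k)))
  have hstalk : IsRegularLocalRing ((hProj (fibIdeal I 𝔓)).presheaf.stalk y') := hreg𝔓 y' (fun k l =>
    (hy'.2.2 2 _ (hhom k l)).mp ((h.2.2 2 _ (hhom k l)).mpr (hfix k l)))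
  obtain ⟨g, hg⟩ := hy'.exists_isLocAt
  obtain ⟨e, -⟩ := exists_equiv_of_isLocAt hpr hg hf'
  have hreg2 : IsRegularLocalRing (locY I κ y ⧸ Ideal.span {p}) :=
    IsRegularLocalRing.of_ringEquiv e
  refine notMem_sq_of_quotient hpm ?_ hreg2
  apply mem_nonZeroDivisors_of_ne_zero
  intro h0
  rw [h0] at hp
  exact hϖ ((hκ _).mp hp.symm)
-- END U2

end Use

end Pool.Agent.Lib.MP_6a3dac_ag.QD
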