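import Pool.Agent.Lib.MP_6a3dac_ag.Mg.G005

/-!
# The weighted filtration of a regular local ring

`ϖ` has weight two, the other elements of the maximal ideal have weight one.
-/

set_option autoImplicit false
set_option linter.unusedSectionVars false

namespace Pool.Agent.Lib.MP_6a3dac_ag.QD

open IsLocalRing MvPolynomial

section Mon

-- BEGIN N1
/-- The ideal generated by powers. -/
def n1_J {D : Type} [CommRing D] {κ : Type} (y : κ → D) (S : Finset κ) (γ : κ → ℕ) : Ideal D :=
  Ideal.span ((fun k => y k ^ γ k) '' (S : Set κ))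

theorem n1_J_congr {D : Type} [CommRing D] {κ : Type} (y : κ → D) {S : Finset κ} {γ δ : κ → ℕ}
    (h : ∀ k ∈ S, γ k = δ k) : n1_J y S γ = n1_J y S δ := by
  unfold n1_J
  congr 1
  refine Set.image_congr fun k hk => ?_
  rw [h k hk]

open Classical in
theorem n1_J_erase {D : Type} [CommRing D] {κ : Type} (y : κ → D) {S : Finset κ} {l : κ}
    (hl : l ∈ S) (γ : κ → ℕ) :
    n1_J y S γ = Ideal.span {y l ^ γ l} ⊔ n1_J y (S.erase l) γ := by
  unfold n1_J
  conv_lhs => rw [← Finset.insert_erase hl, Finset.coe_insert, Set.image_insert_eq,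
    Ideal.span_insert]

open Classical in
theorem n1_mem {D : Type} [CommRing D] {κ : Type} (y : κ → D) {S : Finset κ} {l : κ}
    (hl : l ∈ S) (γ : κ → ℕ) (x : D) :
    x ∈ n1_J y S γ ↔ ∃ c, x - y l ^ γ l * c ∈ n1_J y (S.erase l) γ := by
  rw [n1_J_erase y hl]
  constructor
  · intro hx
    obtain ⟨a, ha, b, hb, rfl⟩ := Submodule.mem_sup.1 hx
    obtain ⟨c, rfl⟩ := Ideal.mem_span_singleton'.1 ha
    refine ⟨c, ?_⟩
    have e : c * y l ^ γ l + b - y l ^ γ l * c = b := by ring
    rw [e]; exact hb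
  · rintro ⟨c, hc⟩
    refine Submodule.mem_sup.2 ⟨y l ^ γ l * c, ?_, _, hc, by ring⟩
    exact Ideal.mem_span_singleton'.2 ⟨c, by ring⟩

theorem n1_prime {D : Type} [CommRing D] [IsRegularLocalRing D] {κ : Type}
    [Fintype κ] (y : κ → D) (hy : maximalIdeal D = Ideal.span (Set.range y))
    (hd : ((Fintype.card κ : ℕ) : WithBot ℕ∞) ≤ ringKrullDim D) (S : Finset κ) :
    (n1_J y S 1).IsPrime := by
  classical
  have hym : ∀ k, y k ∈ maximalIdeal D := fun k => by
    rw [hy]; exact Ideal.subset_span ⟨k, rfl⟩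
  set J := n1_J y S 1 with hJ
  have hJ' : J = Ideal.span ((S.image y : Finset D) : Set D) := by
    rw [hJ]; unfold n1_J
    congr 1
    ext x; simp
  have hJle : J ≤ maximalIdeal D := by
    rw [hJ', Ideal.span_le]
    intro x hx
    simp only [Finset.coe_image, Set.mem_image, Finset.mem_coe] at hx
    obtain ⟨k, -, rfl⟩ := hx
    exact hym k
  have hnt : Nontrivial (D ⧸ J) := Ideal.Quotient.nontrivial_iff.2
    (fun h => (maximalIdeal.isMaximal D).ne_top (top_le_iff.1 (h ▸ hJle)))
  have hloc : IsLocalRing (D ⧸ J) :=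
    IsLocalRing.of_surjective' (Ideal.Quotient.mk _) Ideal.Quotient.mk_surjective
  have hmap : maximalIdeal (D ⧸ J) =
      Ideal.span (((Finset.univ \ S).image fun k => Ideal.Quotient.mk J (y k) : Finset (D ⧸ J)) :
        Set (D ⧸ J)) := by
    have h1 : (maximalIdeal D).map (Ideal.Quotient.mk J) = maximalIdeal (D ⧸ J) := by
      apply IsLocalRing.eq_maximalIdeal
      refine (Ideal.map_eq_top_or_isMaximal_of_surjective _
        Ideal.Quotient.mk_surjective (maximalIdeal.isMaximal D)).resolve_left ?_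
      intro htop
      have := congrArg (Ideal.comap (Ideal.Quotient.mk J)) htop
      rw [Ideal.comap_map_of_surjective' _ Ideal.Quotient.mk_surjective, Ideal.comap_top,
        Ideal.mk_ker, sup_eq_left.mpr hJle] at this
      exact (maximalIdeal.isMaximal D).ne_top this
    rw [← h1, hy, Ideal.map_span]
    apply le_antisymm
    · rw [Ideal.span_le]
      rintro _ ⟨_, ⟨k, rfl⟩, rfl⟩
      by_cases hk : k ∈ S
      · have : Ideal.Quotient.mk J (y k) = 0 := by
          rw [Ideal.Quotient.eq_zero_iff_mem, hJ']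
          exact Ideal.subset_span (by simpa using ⟨k, hk, rfl⟩)
        rw [this]
        exact Submodule.zero_mem _
      · refine Ideal.subset_span ?_
        simp only [Finset.coe_image, Set.mem_image, Finset.mem_coe, Finset.mem_sdiff,
          Finset.mem_univ, true_and]
        exact ⟨k, hk, rfl⟩
    · refine Ideal.span_mono ?_
      intro x hx
      simp only [Finset.coe_image, Set.mem_image, Finset.mem_coe] at hx
      obtain ⟨k, -, rfl⟩ := hx
      exact ⟨y k, ⟨k, rfl⟩, rfl⟩
  have hfin : (maximalIdeal (D ⧸ J)).spanFinrank ≤ Fintype.card κ - S.card := by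
    rw [hmap]
    refine (Submodule.spanFinrank_span_le_ncard_of_finite (Finset.finite_toSet _)).trans ?_
    rw [Set.ncard_coe_finset]
    refine Finset.card_image_le.trans ?_
    rw [Finset.card_sdiff_of_subset (Finset.subset_univ _), Finset.card_univ]
  have hdim : ringKrullDim D ≤ ringKrullDim (D ⧸ J) + S.card := by
    have h1 := ringKrullDim_le_ringKrullDim_quotient_add_card (R := D) (S.image y) (by
      rw [IsLocalRing.ringJacobson_eq_maximalIdeal]
      intro x hx
      simp only [Finset.coe_image, Set.mem_image, Finset.mem_coe] at hx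
      obtain ⟨k, -, rfl⟩ := hx
      exact hym k)
    rw [← hJ'] at h1
    refine h1.trans ?_
    gcongr
    exact Finset.card_image_le
  have hreg : IsRegularLocalRing (D ⧸ J) := by
    apply IsRegularLocalRing.of_spanFinrank_maximalIdeal_le
    have h2 := hd.trans hdim
    obtain ⟨m, hm⟩ : ∃ m, Fintype.card κ = m + S.card :=
      ⟨_, (Nat.sub_add_cancel (Finset.card_le_univ S)).symm⟩
    rw [hm, Nat.add_sub_cancel] at hfin
    rw [hm] at h2
    have h3 : (((maximalIdeal (D ⧸ J)).spanFinrank : ℕ) : WithBot ℕ∞) ≤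
      ((m : ℕ) : WithBot ℕ∞) := by exact_mod_cast hfin
    refine h3.trans ?_
    generalize hr : ringKrullDim (D ⧸ J) = r at h2
    induction r using WithBot.recBotCoe with
    | bot =>
      have : (⊥ : WithBot ℕ∞) + (S.card : WithBot ℕ∞) = ⊥ := WithBot.bot_add _
      rw [this] at h2
      simp at h2
    | coe b =>
      have h4 : (m : ℕ∞) + (S.card : ℕ∞) ≤ b + (S.card : ℕ∞) := by exact_mod_cast h2
      have h5 : (m : ℕ∞) ≤ b := (ENat.add_le_add_iff_right (by simp)).mp h4
      exact_mod_cast h5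
  have hdom : IsDomain (D ⧸ J) := isDomain_aux _ _ le_rfl
  exact (Ideal.Quotient.isDomain_iff_prime _).mp hdom

theorem n1_notMem {D : Type} [CommRing D] [IsRegularLocalRing D] {κ : Type}
    [Fintype κ] (y : κ → D) (hy : maximalIdeal D = Ideal.span (Set.range y))
    (hd : ((Fintype.card κ : ℕ) : WithBot ℕ∞) ≤ ringKrullDim D) (S : Finset κ) {j : κ}
    (hj : j ∉ S) : y j ∉ n1_J y S 1 := by
  classical
  intro hmem
  have hJ' : n1_J y S 1 = Ideal.span ((S.image y : Finset D) : Set D) := by
    unfold n1_J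
    congr 1
    ext x; simp
  have hle : maximalIdeal D = Ideal.span (((Finset.univ.erase j).image y : Finset D) : Set D) := by
    apply le_antisymm
    · rw [hy, Ideal.span_le]
      rintro _ ⟨k, rfl⟩
      by_cases hk : k = j
      · subst hk
        rw [hJ'] at hmem
        refine Ideal.span_mono ?_ hmem
        intro x hx
        simp only [Finset.coe_image, Set.mem_image, Finset.mem_coe] at hx ⊢
        obtain ⟨l, hl, rfl⟩ := hx
        refine ⟨l, ?_, rfl⟩
        simp only [Finset.mem_erase, Finset.mem_univ, and_true]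
        rintro rfl
        exact hj hl
      · refine Ideal.subset_span ?_
        simp only [Finset.coe_image, Set.mem_image, Finset.mem_coe]
        exact ⟨k, by simp [hk], rfl⟩
    · rw [hy, ]
      refine Ideal.span_mono ?_
      intro x hx
      simp only [Finset.coe_image, Set.mem_image, Finset.mem_coe] at hx
      obtain ⟨l, hl, rfl⟩ := hx
      exact ⟨l, rfl⟩
  have h1 : (maximalIdeal D).spanFinrank ≤ Fintype.card κ - 1 := by
    rw [hle]
    refine (Submodule.spanFinrank_span_le_ncard_of_finite (Finset.finite_toSet _)).trans ?_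
    rw [Set.ncard_coe_finset]
    refine Finset.card_image_le.trans ?_
    rw [Finset.card_erase_of_mem (Finset.mem_univ j), Finset.card_univ]
  have h2 := hd.trans (ringKrullDim_le_spanFinrank_maximalIdeal D)
  have h3 : Fintype.card κ ≤ (maximalIdeal D).spanFinrank := by exact_mod_cast h2
  have h4 : 0 < Fintype.card κ := Fintype.card_pos_iff.2 ⟨j⟩
  omega

theorem n1_base {D : Type} [CommRing D] [IsRegularLocalRing D] {κ : Type}
    [Fintype κ] (y : κ → D) (hy : maximalIdeal D = Ideal.span (Set.range y))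
    (hd : ((Fintype.card κ : ℕ) : WithBot ℕ∞) ≤ ringKrullDim D) (S : Finset κ) {j : κ}
    (hj : j ∉ S) (b : D) (hb : y j * b ∈ n1_J y S 1) : b ∈ n1_J y S 1 :=
  ((n1_prime y hy hd S).mem_or_mem hb).resolve_left (n1_notMem y hy hd S hj)

theorem n1_pow_mul {D : Type} [CommRing D] {I : Ideal D} {x : D}
    (h : ∀ b, x * b ∈ I → b ∈ I) (n : ℕ) (b : D) (hb : x ^ n * b ∈ I) : b ∈ I := by
  induction n with
  | zero => simpa using hb
  | succ n ih =>
    apply ih
    apply h
    rw [← mul_assoc, ← pow_succ']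
    exact hb

theorem n1_step {D : Type} [CommRing D] [IsRegularLocalRing D] {κ : Type}
    [Fintype κ] (y : κ → D) (hy : maximalIdeal D = Ideal.span (Set.range y))
    (hd : ((Fintype.card κ : ℕ) : WithBot ℕ∞) ≤ ringKrullDim D) (n : ℕ) :
    ∀ (S : Finset κ) (γ : κ → ℕ), (∀ k ∈ S, 1 ≤ γ k) → ∑ k ∈ S, γ k ≤ n →
      ∀ j ∉ S, ∀ b, y j * b ∈ n1_J y S γ → b ∈ n1_J y S γ := by
  classical
  induction n with
  | zero =>
    intro S γ hγ hsum j hj b hb
    have hS : ∀ k ∈ S, γ k = (1 : κ → ℕ) k := by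
      intro k hk
      have h1 := hγ k hk
      have h2 : γ k ≤ ∑ k ∈ S, γ k := Finset.single_le_sum (f := γ) (fun _ _ => Nat.zero_le _) hk
      omega
    rw [n1_J_congr y hS] at hb ⊢
    exact n1_base y hy hd S hj b hb
  | succ n ih =>
    intro S γ hγ hsum j hj b hb
    by_cases hall : ∀ k ∈ S, γ k = 1
    · have hS : ∀ k ∈ S, γ k = (1 : κ → ℕ) k := hall
      rw [n1_J_congr y hS] at hb ⊢
      exact n1_base y hy hd S hj b hb
    push Not at hall
    obtain ⟨l, hl, hl1⟩ := hall
    have hl2 : 2 ≤ γ l := by have := hγ l hl; omega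
    have hjl : j ≠ l := by rintro rfl; exact hj hl
    -- sums
    have hsl : γ l + ∑ k ∈ S.erase l, γ k = ∑ k ∈ S, γ k := Finset.add_sum_erase S γ hl
    have hupd : ∀ m : ℕ, ∑ k ∈ S, Function.update γ l m k = m + ∑ k ∈ S.erase l, γ k := by
      intro m
      rw [← Finset.add_sum_erase S _ hl, Function.update_self]
      congr 1
      refine Finset.sum_congr rfl fun k hk => ?_
      rw [Function.update_of_ne (Finset.ne_of_mem_erase hk)]
    have herase : ∀ m : ℕ, n1_J y (S.erase l) (Function.update γ l m) = n1_J y (S.erase l) γ := by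
      intro m
      refine n1_J_congr y fun k hk => ?_
      rw [Function.update_of_ne (Finset.ne_of_mem_erase hk)]
    -- cancellation for the ideal `J₀`
    have hc0 : ∀ i ∉ S.erase l, ∀ b, y i * b ∈ n1_J y (S.erase l) γ →
        b ∈ n1_J y (S.erase l) γ :=
      ih (S.erase l) γ (fun k hk => hγ k (Finset.mem_of_mem_erase hk)) (by omega)
    obtain ⟨d, hd1⟩ := (n1_mem y hl γ _).1 hb
    -- b ∈ J S γ'
    have hb' : y j * b ∈ n1_J y S (Function.update γ l (γ l - 1)) := by
      rw [n1_mem y hl, herase, Function.update_self]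
      refine ⟨y l * d, ?_⟩
      have e : y l ^ (γ l - 1) * (y l * d) = y l ^ γ l * d := by
        rw [← mul_assoc, ← pow_succ]
        congr 2
        omega
      rw [e]
      exact hd1
    have hb'' := ih S (Function.update γ l (γ l - 1)) (by
      intro k hk
      by_cases hkl : k = l
      · subst hkl; rw [Function.update_self]; omega
      · rw [Function.update_of_ne hkl]; exact hγ k hk) (by rw [hupd]; omega) j hj b hb'
    rw [n1_mem y hl, herase, Function.update_self] at hb''
    obtain ⟨c, hc⟩ := hb''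
    -- y l ^ (γ l - 1) * (y j * c - y l * d) ∈ J₀
    have h3 : y l ^ (γ l - 1) * (y j * c - y l * d) ∈ n1_J y (S.erase l) γ := by
      have e : y l ^ (γ l - 1) * (y j * c - y l * d) =
          (y j * b - y l ^ γ l * d) - y j * (b - y l ^ (γ l - 1) * c) := by
        have e2 : y l ^ γ l = y l ^ (γ l - 1) * y l := by
          rw [← pow_succ]
          congr 1
          omega
        rw [e2]; ring
      rw [e]
      exact Ideal.sub_mem _ hd1 (Ideal.mul_mem_left _ _ hc)
    have h4 : y j * c - y l * d ∈ n1_J y (S.erase l) γ :=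
      n1_pow_mul (hc0 l (Finset.notMem_erase l S)) _ _ h3
    have h5 : y j * c ∈ n1_J y S (Function.update γ l 1) := by
      rw [n1_mem y hl, herase, Function.update_self, ]
      exact ⟨d, by rwa [pow_one]⟩
    have h6 := ih S (Function.update γ l 1) (by
      intro k hk
      by_cases hkl : k = l
      · subst hkl; rw [Function.update_self]
      · rw [Function.update_of_ne hkl]; exact hγ k hk) (by rw [hupd]; omega) j hj c h5
    rw [n1_mem y hl, herase, Function.update_self] at h6
    obtain ⟨f, hf⟩ := h6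
    rw [pow_one] at hf
    rw [n1_mem y hl]
    refine ⟨f, ?_⟩
    have e : b - y l ^ γ l * f = (b - y l ^ (γ l - 1) * c) + y l ^ (γ l - 1) * (c - y l * f) := by
      have e2 : y l ^ γ l = y l ^ (γ l - 1) * y l := by
        rw [← pow_succ]
        congr 1
        omega
      rw [e2]; ring
    rw [e]
    exact Ideal.add_mem _ hc (Ideal.mul_mem_left _ _ hf)

theorem n1_main {D : Type} [CommRing D] [IsRegularLocalRing D] {κ : Type}
    [Fintype κ] (y : κ → D) (hy : maximalIdeal D = Ideal.span (Set.range y))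
    (hd : ((Fintype.card κ : ℕ) : WithBot ℕ∞) ≤ ringKrullDim D) (n : ℕ) :
    ∀ (β : κ → ℕ) (a : D), ∑ k, β k ≤ n →
      a * ∏ k, y k ^ β k ∈ n1_J y Finset.univ (fun k => β k + 1) → a ∈ maximalIdeal D := by
  classical
  have hbase : ∀ (β : κ → ℕ) (a : D), (∀ k, β k = 0) →
      a * ∏ k, y k ^ β k ∈ n1_J y Finset.univ (fun k => β k + 1) → a ∈ maximalIdeal D := by
    intro β a hβ h
    have e1 : a * ∏ k, y k ^ β k = a := by simp [hβ]
    have e2 : n1_J y Finset.univ (fun k => β k + 1) = maximalIdeal D := by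
      rw [hy]; unfold n1_J
      congr 1
      ext x
      simp [hβ]
    rwa [e1, e2] at h
  induction n with
  | zero =>
    intro β a hsum h
    refine hbase β a (fun k => ?_) h
    have h2 : β k ≤ ∑ k, β k :=
      Finset.single_le_sum (f := β) (fun _ _ => Nat.zero_le _) (Finset.mem_univ k)
    omega
  | succ n ih =>
    intro β a hsum h
    by_cases hall : ∀ k, β k = 0
    · exact hbase β a hall h
    push Not at hall
    obtain ⟨j, hj⟩ := hall
    set δ : κ → ℕ := Function.update β j (β j - 1) with hδ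
    have hprod : ∏ k, y k ^ β k = y j * ∏ k, y k ^ δ k := by
      rw [← Finset.mul_prod_erase Finset.univ (fun k => y k ^ β k) (Finset.mem_univ j),
        ← Finset.mul_prod_erase Finset.univ (fun k => y k ^ δ k) (Finset.mem_univ j), ← mul_assoc]
      congr 1
      · rw [hδ, Function.update_self, ← pow_succ']
        congr 1
        omega
      · refine Finset.prod_congr rfl fun k hk => ?_
        rw [hδ, Function.update_of_ne (Finset.ne_of_mem_erase hk)]
    have hsumδ : ∑ k, δ k ≤ n := by
      have e1 := Finset.add_sum_erase Finset.univ β (Finset.mem_univ j)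
      have e2 := Finset.add_sum_erase Finset.univ δ (Finset.mem_univ j)
      have e3 : ∑ k ∈ Finset.univ.erase j, δ k = ∑ k ∈ Finset.univ.erase j, β k := by
        refine Finset.sum_congr rfl fun k hk => ?_
        rw [hδ, Function.update_of_ne (Finset.ne_of_mem_erase hk)]
      have e4 : δ j = β j - 1 := by rw [hδ, Function.update_self]
      omega
    refine ih δ a hsumδ ?_
    rw [n1_mem y (Finset.mem_univ j)] at h
    obtain ⟨c, hc⟩ := h
    have h1 : y j * (a * ∏ k, y k ^ δ k - y j ^ β j * c) ∈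
        n1_J y (Finset.univ.erase j) (fun k => β k + 1) := by
      have e : y j * (a * ∏ k, y k ^ δ k - y j ^ β j * c) =
          a * ∏ k, y k ^ β k - y j ^ (β j + 1) * c := by
        rw [hprod, pow_succ]; ring
      rw [e]
      exact hc
    have h2 := n1_step y hy hd _ (Finset.univ.erase j) (fun k => β k + 1)
      (fun k _ => Nat.le_add_left _ _) le_rfl j (Finset.notMem_erase j _) _ h1
    rw [n1_mem y (Finset.mem_univ j)]
    refine ⟨c, ?_⟩
    have e1 : δ j + 1 = β j := by rw [hδ, Function.update_self]; omega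
    have e2 : n1_J y (Finset.univ.erase j) (fun k => δ k + 1) =
        n1_J y (Finset.univ.erase j) (fun k => β k + 1) := by
      refine n1_J_congr y fun k hk => ?_
      rw [hδ, Function.update_of_ne (Finset.ne_of_mem_erase hk)]
    rw [e1, e2]
    exact h2

/-- TASK N1. `D` regular local, `y` a regular system of parameters. For a finite set `S` of indices
and `γ ≥ 1` write `J S γ = span ((fun k => y k ^ γ k) '' S)`.
Claim (induction on `S.card`, then on `∑ k ∈ S, γ k`): for `j ∉ S`, `y j * b ∈ J S γ → b ∈ J S γ`.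
* `γ = 1` on `S`: `D ⧸ (y k, k ∈ S)` is regular local (its maximal ideal is generated by the
  `card κ - card S` other `y k`, its dimension is at least that, see
  `ringKrullDim_le_ringKrullDim_quotient_add_card`), hence a domain, and `y j` is not in
  `(y k, k ∈ S)` (otherwise the maximal ideal of `D` has `card κ - 1 < dim D` generators;
  `exists_par`/RegLocal.lean/RegDomain.lean/`notMem_sq_of_quotient` of this library may help).
* some `γ l ≥ 2`: let `γ'` be `γ` with `γ l - 1` at `l` and `J₀ = J (S \ {l}) γ`. From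
  `y j b ∈ J S γ ≤ J S γ'` get `b ∈ J S γ'`: `b = y l ^ (γ l - 1) * c + e`, `e ∈ J₀`. Then
  `y l ^ (γ l - 1) (y j c - y l d) ∈ J₀` for some `d`, so `y j c - y l d ∈ J₀` (smaller `S`), so
  `y j c ∈ (y l) + J₀`, so `c ∈ (y l) + J₀` (smaller sum), so `b ∈ J S γ`.
Then prove the theorem by induction on `∑ β`: `β = 0` is the hypothesis `hy`. If `β j ≥ 1`:
`y j * (a * ∏ y ^ (β - e_j)) = y j ^ (β j + 1) * c + (element of J (univ \ {j}) (β + 1))`, so
`a * ∏ y ^ (β - e_j) - y j ^ β j * c ∈ J (univ \ {j}) (β + 1)`, and induction applies to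
`β - e_j`. -/
theorem mon_mem {D : Type} [CommRing D] [IsRegularLocalRing D] {κ : Type}
    [Fintype κ] (y : κ → D) (hy : maximalIdeal D = Ideal.span (Set.range y))
    (hd : ((Fintype.card κ : ℕ) : WithBot ℕ∞) ≤ ringKrullDim D) (β : κ → ℕ) (a : D)
    (h : a * ∏ k, y k ^ β k ∈ Ideal.span (Set.range fun k => y k ^ (β k + 1))) :
    a ∈ maximalIdeal D := by
  refine n1_main y hy hd _ β a le_rfl ?_
  unfold n1_J
  rw [Finset.coe_univ, Set.image_univ]
  exact h
-- END N1

end Mon

section Fil

variable {D : Type} [CommRing D] [IsLocalRing D] {ϖ : D}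

/-- The filtration: `ϖ` has weight two, the elements of the maximal ideal have weight one. -/
def Fil (ϖ : D) (r : ℕ) : Ideal D := ⨆ i : ℕ, Ideal.span {ϖ ^ i} * maximalIdeal D ^ (r - 2 * i)

-- BEGIN N2
/-- TASK N2. -/
theorem fil_anti {r s : ℕ} (h : r ≤ s) : Fil ϖ s ≤ Fil ϖ r := by
  unfold Fil
  refine iSup_mono fun i => ?_
  exact Ideal.mul_mono_right (Ideal.pow_le_pow_right (by omega))

/-- TASK N2. -/
theorem fil_zero : Fil ϖ 0 = ⊤ := by
  rw [eq_top_iff]
  unfold Fil
  refine le_trans ?_ (le_iSup (fun i : ℕ => Ideal.span {ϖ ^ i} * maximalIdeal D ^ (0 - 2 * i)) 0)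
  simp

/-- TASK N2. -/
theorem fil_one (hϖ : ϖ ∈ maximalIdeal D) : Fil ϖ 1 = maximalIdeal D := by
  apply le_antisymm
  · unfold Fil
    refine iSup_le fun i => ?_
    rcases Nat.eq_zero_or_pos i with rfl | hi
    · simp
    · refine le_trans Ideal.mul_le_left ?_
      rw [Ideal.span_singleton_le_iff_mem]
      exact Ideal.pow_mem_of_mem _ hϖ _ hi
  · unfold Fil
    refine le_trans ?_ (le_iSup (fun i : ℕ => Ideal.span {ϖ ^ i} * maximalIdeal D ^ (1 - 2 * i)) 0)
    simp

/-- TASK N2. -/
theorem fil_two : Fil ϖ 2 = Ideal.span {ϖ} ⊔ maximalIdeal D ^ 2 := by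
  apply le_antisymm
  · unfold Fil
    refine iSup_le fun i => ?_
    rcases Nat.eq_zero_or_pos i with rfl | hi
    · simp
    · refine le_trans Ideal.mul_le_left (le_trans ?_ le_sup_left)
      rw [Ideal.span_singleton_le_iff_mem]
      exact Ideal.pow_mem_of_mem _ (Ideal.mem_span_singleton_self _) _ hi
  · unfold Fil
    refine sup_le ?_ ?_
    · refine le_trans ?_ (le_iSup (fun i : ℕ => Ideal.span {ϖ ^ i} * maximalIdeal D ^ (2 - 2 * i)) 1)
      simp
    · refine le_trans ?_ (le_iSup (fun i : ℕ => Ideal.span {ϖ ^ i} * maximalIdeal D ^ (2 - 2 * i)) 0)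
      simp
-- END N2

-- BEGIN N3
theorem n3_mem {r i k : ℕ} {y : D} (h : r ≤ 2 * i + k) (hy : y ∈ maximalIdeal D ^ k) :
    ϖ ^ i * y ∈ Fil ϖ r := by
  unfold Fil
  refine (le_iSup (fun i : ℕ => Ideal.span {ϖ ^ i} * maximalIdeal D ^ (r - 2 * i)) i) ?_
  exact Ideal.mul_mem_mul (Ideal.mem_span_singleton_self _)
    (Ideal.pow_le_pow_right (by omega) hy)

theorem n3_ind {r : ℕ} {p : D → Prop} (h0 : p 0) (hadd : ∀ a b, p a → p b → p (a + b))
    (h : ∀ i k y, r ≤ 2 * i + k → y ∈ maximalIdeal D ^ k → p (ϖ ^ i * y)) {f : D}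
    (hf : f ∈ Fil ϖ r) : p f := by
  unfold Fil at hf
  refine Submodule.iSup_induction (fun i : ℕ => Ideal.span {ϖ ^ i} * maximalIdeal D ^ (r - 2 * i))
    (motive := p) hf ?_ h0 hadd
  intro i x hx
  obtain ⟨z, hz, rfl⟩ := Ideal.mem_span_singleton_mul.1 hx
  exact h i (r - 2 * i) z (by omega) hz

/-- TASK N3. `(ϖ ^ i) m ^ (r - 2 i) (ϖ ^ j) m ^ (s - 2 j) ≤ (ϖ ^ (i + j)) m ^ (r + s - 2 (i + j))`
when `2 i ≤ r` and `2 j ≤ s`; in the other cases also, since the exponent only gets smaller:
`(r - 2 i) + (s - 2 j) ≥ r + s - 2 (i + j)` (truncated subtraction). -/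
theorem mul_mem_fil {r s : ℕ} {a b : D} (ha : a ∈ Fil ϖ r) (hb : b ∈ Fil ϖ s) :
    a * b ∈ Fil ϖ (r + s) := by
  refine n3_ind (ϖ := ϖ) (r := r) (p := fun a => a * b ∈ Fil ϖ (r + s)) (by simp)
    (fun a a' h h' => by simpa [add_mul] using Ideal.add_mem _ h h') ?_ ha
  intro i k y hik hy
  refine n3_ind (ϖ := ϖ) (r := s) (p := fun b => ϖ ^ i * y * b ∈ Fil ϖ (r + s)) (by simp)
    (fun a a' h h' => by simpa [mul_add] using Ideal.add_mem _ h h') ?_ hb
  intro j l z hjl hz
  have e : ϖ ^ i * y * (ϖ ^ j * z) = ϖ ^ (i + j) * (y * z) := by ring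
  change ϖ ^ i * y * (ϖ ^ j * z) ∈ Fil ϖ (r + s)
  rw [e]
  refine n3_mem (k := k + l) (by omega) ?_
  rw [pow_add]
  exact Ideal.mul_mem_mul hy hz

/-- TASK N3. -/
theorem pow_mem_fil (i : ℕ) : ϖ ^ i ∈ Fil ϖ (2 * i) := by
  have h := n3_mem (ϖ := ϖ) (r := 2 * i) (i := i) (k := 0) (y := (1 : D)) (by omega) (by simp)
  simpa using h

/-- TASK N3. -/
theorem pow_le_fil (r : ℕ) : maximalIdeal D ^ r ≤ Fil ϖ r := by
  intro y hy
  have h := n3_mem (ϖ := ϖ) (r := r) (i := 0) (k := r) (y := y) (by omega) hy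
  simpa using h

/-- TASK N3. -/
theorem fil_le_pow (hϖ : ϖ ∈ maximalIdeal D) (r : ℕ) : Fil ϖ (2 * r) ≤ maximalIdeal D ^ r := by
  intro f hf
  refine n3_ind (ϖ := ϖ) (r := 2 * r) (p := fun f => f ∈ maximalIdeal D ^ r) (by simp)
    (fun a a' h h' => Ideal.add_mem _ h h') ?_ hf
  intro i k y hik hy
  have h1 : ϖ ^ i * y ∈ maximalIdeal D ^ i * maximalIdeal D ^ k :=
    Ideal.mul_mem_mul (Ideal.pow_mem_pow hϖ i) hy
  rw [← pow_add] at h1
  exact Ideal.pow_le_pow_right (by omega) h1

/-- TASK N3. Induction principle: a predicate closed under addition and under multiplication by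
arbitrary elements which holds for all products `ϖ ^ i * y`, `y ∈ m ^ k`, `r ≤ 2 i + k`, holds on
`Fil ϖ r`. (`Submodule.iSup_induction`, `Ideal.mem_span_singleton_mul`.) -/
theorem fil_induction {r : ℕ} {p : D → Prop} (h0 : p 0) (hadd : ∀ a b, p a → p b → p (a + b))
    (h : ∀ i k y, r ≤ 2 * i + k → y ∈ maximalIdeal D ^ k → p (ϖ ^ i * y)) {f : D}
    (hf : f ∈ Fil ϖ r) : p f :=
  n3_ind h0 hadd h hf
-- END N3

end Fil

end Pool.Agent.Lib.MP_6a3dac_ag.QD
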