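import Pool.Agent.Lib.MP_6a3dac_ag.QD.Nf
import Pool.Agent.Lib.MP_6a3dac_ag.Mg.G005

/-!
# The interface between the normal form and the charts
-/

set_option autoImplicit false
set_option linter.unusedSectionVars false

namespace Pool.Agent.Lib.MP_6a3dac_ag.QD

open IsLocalRing

section Ideals

variable {A : Type} [CommRing A] {ι : Type} (ϖ ε : A) (n : ℕ) (x z : ι → A)

/-- The ideal `(ϖ ^ k, x_i)`. -/
def aId (k : ℕ) : Ideal A := Ideal.span (insert (ϖ ^ k) (Set.range x))

/-- The ideal which resolves the point at the stage `k - 1`. -/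
def kId (k : ℕ) : Ideal A :=
  aId ϖ x k ^ 4 ⊔ Ideal.span {ϖ ^ (2 * k - 1)} * aId ϖ x k ^ 2 ⊔
    Ideal.span {ϖ ^ (k - 1)} * Ideal.span (Set.range fun p : ι × ι =>
      x p.1 * z p.2 - x p.2 * z p.1)

/-- The ideal of the last stage. -/
def lId : Ideal A := Ideal.span (insert (ϖ ^ (2 * n + 1))
  (Set.range fun i => z i - ((1 + ε * ϖ ^ n) ^ n - 1) * x i))

/-- The ideals which are blown up, for `j ≤ 2 n`. -/
def cen (j : ℕ) : Ideal A :=
  if j < n then aId ϖ x (j + 1) else if j < 2 * n then kId ϖ x z (j - n + 1) else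
    lId ϖ ε n x z

end Ideals

/-- The regular local ring `A` in normal form, as a dominated subring of a local domain `D`. The
`z i` are the differences `τ (x i) - x i`. -/
structure NFHyp {D : Type} [CommRing D] [IsDomain D] [IsLocalRing D] (A : Subring D)
    [IsRegularLocalRing A] {ι : Type} [Fintype ι] [DecidableEq ι] (ϖ ε : A) (n : ℕ)
    (x z : ι → A) (M : ι → ι → A) (α e : ι → A) : Prop where
  dom : Dom A
  par : Par ϖ x
  pos : 1 ≤ n
  unit : IsUnit ε
  two : ∃ u, (2 : A) = u * ϖ ^ n ∧ u - (n + 1) * ε ∈ maximalIdeal A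
  perf : ∀ a : A, ∃ c, a - c ^ 2 ∈ maximalIdeal A
  det : IsUnit (Matrix.of M).det
  err : ∀ i, e i ∈ Err ϖ n x
  eq : ∀ i, z i = ∑ l, M i l * x l ^ 2 - 2 * x i + α i * ϖ ^ (2 * n) + e i

end Pool.Agent.Lib.MP_6a3dac_ag.QD
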