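import Pool.Agent.Lib.MP_6a3dac_ag.QD.Nf

/-!
# Ordinary fixed points
-/

set_option autoImplicit false
set_option linter.unusedSectionVars false

namespace Pool.Agent.Lib.MP_6a3dac_ag.QD

open IsLocalRing MvPolynomial

variable {D : Type} [CommRing D] [IsRegularLocalRing D] {τ : D →+* D} {ϖ ε : D} {n : ℕ}

/-- The ideal generated by the differences. -/
def augIdeal (τ : D →+* D) : Ideal D := Ideal.span (Set.range fun a => τ a - a)

-- BEGIN N32
/-- TASK N32. An `m`-primary ideal needs `dim D` generators: if every `f ∈ m` has `f ^ 2` in the ideal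
generated by the finite set `s` then `dim D ≤ s.card` (`m` is minimal over `span s`,
`Ideal.height_le_spanRank`/`Ideal.height_le_spanFinrank`, `height m = dim D`). -/
theorem dim_le_of_sq_mem {D : Type} [CommRing D] [IsRegularLocalRing D] (s : Finset D)
    (hs : (s : Set D) ⊆ maximalIdeal D)
    (h : ∀ f ∈ maximalIdeal D, f ^ 2 ∈ Ideal.span (s : Set D)) :
    ringKrullDim D ≤ (s.card : ℕ) := by
  have hmin : maximalIdeal D ∈ (Ideal.span (s : Set D)).minimalPrimes := by
    refine ⟨⟨(maximalIdeal.isMaximal D).isPrime, Ideal.span_le.2 hs⟩, ?_⟩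
    rintro P ⟨hP, hsP⟩ -
    intro f hf
    exact hP.mem_of_pow_mem 2 (hsP (h f hf))
  have h1 := Ideal.height_le_card_of_mem_minimalPrimes_span_finset hmin
  rw [← IsLocalRing.maximalIdeal_height_eq_ringKrullDim]
  exact_mod_cast h1

/-- TASK N32. Elements of the maximal ideal which are linearly independent modulo its square are
part of a regular system of parameters. (`y : Fin k → D`; independence: a combination in `m ^ 2` has
all its coefficients in `m`.) Extend the classes to a basis of the cotangent space, or argue by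
`exists_par` (QWPar.lean). -/
theorem exists_rsp_extend {D : Type} [CommRing D] [IsRegularLocalRing D] {k : ℕ} (y : Fin k → D)
    (hy : ∀ i, y i ∈ maximalIdeal D)
    (hi : ∀ c : Fin k → D, ∑ i, c i * y i ∈ maximalIdeal D ^ 2 → ∀ i, c i ∈ maximalIdeal D) :
    ∃ (m : ℕ) (t : Fin m → D), maximalIdeal D = Ideal.span (Set.range y ∪ Set.range t) ∧
      ((k + m : ℕ) : WithBot ℕ∞) = ringKrullDim D := by
  classical
  let v : Fin k → CotangentSpace D := fun i => (maximalIdeal D).toCotangent ⟨y i, hy i⟩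
  have hv : LinearIndependent (ResidueField D) v := by
    rw [Fintype.linearIndependent_iff]
    intro g hg i
    choose c hc using fun i => residue_surjective (g i)
    have h1 : ∑ i, c i • v i = 0 := by
      rw [← hg]
      refine Finset.sum_congr rfl fun i _ => ?_
      rw [← hc i]
      exact (algebraMap_smul (ResidueField D) (c i) (v i)).symm
    have h2 : (maximalIdeal D).toCotangent (∑ i, c i • (⟨y i, hy i⟩ : maximalIdeal D)) = 0 := by
      rw [map_sum, ← h1]
      exact Finset.sum_congr rfl fun i _ => map_smul _ _ _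
    rw [Ideal.toCotangent_eq_zero] at h2
    have h3 : ∑ i, c i * y i ∈ maximalIdeal D ^ 2 := by
      have h4 : ((∑ i, c i • (⟨y i, hy i⟩ : maximalIdeal D) : maximalIdeal D) : D) =
          ∑ i, c i * y i := by
        simp
      rw [← h4]
      exact h2
    rw [← hc i]
    exact (residue_eq_zero_iff _).2 (hi c h3 i)
  have hs : LinearIndepOn (ResidueField D) id (Set.range v) := hv.linearIndepOn_id
  have hspan : Submodule.span (ResidueField D) (hs.extend (Set.subset_univ _)) = ⊤ := by
    rw [hs.span_extend_eq_span (Set.subset_univ _), Submodule.span_univ]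
  have hsub : Set.range v ⊆ hs.extend (Set.subset_univ _) := hs.subset_extend _
  have hfin : Finite (hs.extend (Set.subset_univ _)) :=
    Module.Finite.finite_basis (Module.Basis.extend hs)
  have hcard : (hs.extend (Set.subset_univ _)).ncard =
      Module.finrank (ResidueField D) (CotangentSpace D) := by
    rw [Module.finrank_eq_nat_card_basis (Module.Basis.extend hs)]
    rfl
  obtain ⟨T, hT⟩ : ∃ T, T = hs.extend (Set.subset_univ _) \ Set.range v := ⟨_, rfl⟩
  have hTfin : Finite T := by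
    rw [hT]
    exact Set.Finite.to_subtype ((Set.toFinite _).sdiff)
  have hTcard : T.ncard + k = Module.finrank (ResidueField D) (CotangentSpace D) := by
    have h1 := Set.ncard_sdiff_add_ncard_of_subset hsub (Set.toFinite _)
    have h2 : (Set.range v).ncard = k := by
      rw [← Set.image_univ, Set.ncard_image_of_injective _ hv.injective, Set.ncard_univ]
      simp
    rw [h2, hcard, ← hT] at h1
    exact h1
  have hun : Set.range v ∪ T = hs.extend (Set.subset_univ _) := by
    rw [hT]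
    exact Set.union_sdiff_cancel hsub
  obtain ⟨lft, hlft⟩ : ∃ lft : CotangentSpace D → maximalIdeal D,
      ∀ z, (maximalIdeal D).toCotangent (lft z) = z :=
    ⟨fun z => ((maximalIdeal D).toCotangent_surjective z).choose,
      fun z => ((maximalIdeal D).toCotangent_surjective z).choose_spec⟩
  let e : T ≃ Fin T.ncard := Finite.equivFinOfCardEq rfl
  refine ⟨T.ncard, fun j => (lft (e.symm j).1 : D), ?_, ?_⟩
  · have h1 : Submodule.span (ResidueField D) ((maximalIdeal D).toCotangent ''
        (Set.range (fun i => (⟨y i, hy i⟩ : maximalIdeal D)) ∪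
          Set.range (fun j => lft (e.symm j).1))) = ⊤ := by
      rw [Set.image_union, ← Set.range_comp, ← Set.range_comp]
      have h2 : Set.range ((maximalIdeal D).toCotangent ∘ fun j => lft (e.symm j).1) = T := by
        ext z
        constructor
        · rintro ⟨j, rfl⟩
          simp only [Function.comp, hlft]
          exact (e.symm j).2
        · intro hz
          exact ⟨e ⟨z, hz⟩, by simp [hlft]⟩
      rw [h2]
      have h3 : Set.range ((maximalIdeal D).toCotangent ∘
          fun i => (⟨y i, hy i⟩ : maximalIdeal D)) = Set.range v := rfl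
      rw [h3, hun]
      exact hspan
    rw [CotangentSpace.span_image_eq_top_iff] at h1
    have h2 := congrArg (Submodule.map (maximalIdeal D).subtype) h1
    rw [Submodule.map_span, Submodule.map_subtype_top, Set.image_union, ← Set.range_comp,
      ← Set.range_comp] at h2
    exact h2.symm
  · have h1 := (IsRegularLocalRing.iff_finrank_cotangentSpace D).1 inferInstance
    rw [← h1, ← hTcard, add_comm]
-- END N32

-- BEGIN N33
theorem n33_lam_sq (h : Inv τ ϖ ε n) {f : D} (hf : f ∈ maximalIdeal D ^ 2) :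
    τ f - f ∈ maximalIdeal D ^ 2 := by
  rw [pow_two] at hf ⊢
  refine Submodule.mul_induction_on hf ?_ ?_
  · intro a ha b hb
    have e : τ (a * b) - a * b = (τ a - a) * (τ b - b) + a * (τ b - b) + (τ a - a) * b := by
      rw [map_mul]; ring
    rw [e]
    exact add_mem (add_mem (Ideal.mul_mem_mul (h.triv a) (h.triv b))
      (Ideal.mul_mem_mul ha (h.triv b))) (Ideal.mul_mem_mul (h.triv a) hb)
  · intro a b ha hb
    have e : τ (a + b) - (a + b) = (τ a - a) + (τ b - b) := by
      rw [map_add]; ring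
    rw [e]
    exact add_mem ha hb

theorem n33_lam_mul (h : Inv τ ϖ ε n) (c : D) {f : D} (hf : f ∈ maximalIdeal D) :
    τ (c * f) - c * f - c * (τ f - f) ∈ maximalIdeal D ^ 2 := by
  have e : τ (c * f) - c * f - c * (τ f - f) = (τ c - c) * (τ f - f) + (τ c - c) * f := by
    rw [map_mul]; ring
  rw [e, pow_two]
  exact add_mem (Ideal.mul_mem_mul (h.triv c) (h.triv f)) (Ideal.mul_mem_mul (h.triv c) hf)

theorem n33_unit {I : Ideal D} {c y : D} (hy : y ∉ I) (hc : c * y ∈ I) :
    c ∈ maximalIdeal D := by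
  by_contra hcu
  have hu : IsUnit c := by
    by_contra hn
    exact hcu ((mem_maximalIdeal c).mpr hn)
  obtain ⟨u, rfl⟩ := hu
  apply hy
  have := I.mul_mem_left (↑u⁻¹ : D) hc
  rwa [← mul_assoc, Units.inv_mul, one_mul] at this

/-- TASK N33. The linear part of `τ - 1` vanishes at an ordinary fixed point. Suppose
`y = τ a - a ∉ (ϖ) + m ^ 2`. `τ y - y = τ (τ a) - 2 τ a + a = - 2 y ∈ (ϖ)`.
`ϖ, a, y` are linearly independent modulo `m ^ 2`: `λ = τ - 1` induces on `m` an additive map with
`λ (c f) ≡ c λ f` modulo `m ^ 2` (`λ (c f) = τ c λ f + f λ c`, `λ c ∈ m`) and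
`λ ϖ = ε ϖ ^ (n + 1) ∈ m ^ 2`; if `c₀ ϖ + c₁ a + c₂ y ∈ m ^ 2`, apply `λ`: `c₁ y ∈ (ϖ) + m ^ 2`, so
`c₁ ∈ m` (a unit would give `y ∈ (ϖ) + m ^ 2`); then `c₂ y ∈ (ϖ) + m ^ 2`, so `c₂ ∈ m`, then
`c₀ ϖ ∈ m ^ 2`, `c₀ ∈ m`. By `exists_rsp_extend` there are `t` such that `ϖ, a, y, t` is a regular
system of parameters; `sub_mem_span` with `x = (a, y, t)`:
`augIdeal τ ≤ span {ϖ ^ (n + 1), λ a = y, λ y = - 2 y, λ (t k)}`, so by `hA` all `f ^ 2`, `f ∈ m`, are in
`span {ϖ, y, λ (t k)}`, with `dim D - 1` elements; contradiction with `dim_le_of_sq_mem`. -/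
theorem sub_mem_of_ordinary (h : Inv τ ϖ ε n) (hϖ : ϖ ∈ maximalIdeal D)
    (hϖ2 : ϖ ∉ maximalIdeal D ^ 2)
    (hA : ∀ f ∈ maximalIdeal D, f ^ 2 ∈ Ideal.span {ϖ} ⊔ augIdeal τ) {a : D}
    (ha : a ∈ maximalIdeal D) : τ a - a ∈ Ideal.span {ϖ} ⊔ maximalIdeal D ^ 2 := by
  by_contra hy
  set y : D := τ a - a with hydef
  have hpm : (0 : ℕ) < n := h.pos
  obtain ⟨u, hu⟩ := h.two
  have h2m : (2 : D) ∈ maximalIdeal D := by
    rw [hu]
    exact Ideal.mul_mem_left _ _ (Ideal.pow_mem_of_mem _ hϖ _ hpm)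
  have hym : y ∈ maximalIdeal D := h.triv a
  have hty : τ y - y = -2 * y := by
    rw [hydef, map_sub, h.invol]; ring
  have hy2 : y ∉ maximalIdeal D ^ 2 := fun hc => hy (Ideal.mem_sup_right hc)
  have hϖn : ϖ ^ (n + 1) ∈ maximalIdeal D ^ 2 := by
    have h1 : ϖ ^ (n + 1) ∈ maximalIdeal D ^ (n + 1) := Ideal.pow_mem_pow hϖ _
    exact Ideal.pow_le_pow_right (by omega) h1
  have hind : ∀ c : Fin 3 → D, ∑ i, c i * (![ϖ, a, y] : Fin 3 → D) i ∈ maximalIdeal D ^ 2 →
      ∀ i, c i ∈ maximalIdeal D := by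
    intro c hc
    simp only [Fin.sum_univ_three, Matrix.cons_val_zero, Matrix.cons_val_one,
      Matrix.cons_val_two, Matrix.cons_val, Matrix.head_cons, Matrix.tail_cons] at hc
    have e1 := n33_lam_sq h hc
    have f0 := n33_lam_mul h (c 0) hϖ
    have f1 := n33_lam_mul h (c 1) ha
    have f2 := n33_lam_mul h (c 2) hym
    have hc1y : c 1 * y ∈ maximalIdeal D ^ 2 := by
      have e : c 1 * y = (τ (c 0 * ϖ + c 1 * a + c 2 * y) - (c 0 * ϖ + c 1 * a + c 2 * y)) -
          (τ (c 0 * ϖ) - c 0 * ϖ - c 0 * (τ ϖ - ϖ)) - (τ (c 1 * a) - c 1 * a - c 1 * (τ a - a)) -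
          (τ (c 2 * y) - c 2 * y - c 2 * (τ y - y)) - c 0 * (τ ϖ - ϖ) - c 2 * (τ y - y) := by
        rw [map_add, map_add]
        simp only [hydef]
        ring
      rw [e]
      refine sub_mem (sub_mem (sub_mem (sub_mem (sub_mem e1 f0) f1) f2) ?_) ?_
      · have : τ ϖ - ϖ = ε * ϖ ^ (n + 1) := by rw [h.unif]; ring
        rw [this]
        exact Ideal.mul_mem_left _ _ (Ideal.mul_mem_left _ _ hϖn)
      · rw [hty, pow_two]
        have : -2 * y = 2 * (-y) := by ring
        rw [this]
        exact Ideal.mul_mem_left _ _ (Ideal.mul_mem_mul h2m (neg_mem hym))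
    have hc1 : c 1 ∈ maximalIdeal D := n33_unit hy2 hc1y
    have hc2 : c 2 ∈ maximalIdeal D := by
      refine n33_unit hy ?_
      have e : c 2 * y = (-(c 0)) * ϖ + ((c 0 * ϖ + c 1 * a + c 2 * y) - c 1 * a) := by ring
      rw [e]
      refine add_mem (Ideal.mem_sup_left (Ideal.mul_mem_left _ _
        (Ideal.mem_span_singleton_self _))) (Ideal.mem_sup_right (sub_mem hc ?_))
      rw [pow_two]
      exact Ideal.mul_mem_mul hc1 ha
    have hc0 : c 0 ∈ maximalIdeal D := by
      refine n33_unit hϖ2 ?_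
      have e : c 0 * ϖ = (c 0 * ϖ + c 1 * a + c 2 * y) - c 1 * a - c 2 * y := by ring
      rw [e]
      refine sub_mem (sub_mem hc ?_) ?_
      · rw [pow_two]
        exact Ideal.mul_mem_mul hc1 ha
      · rw [pow_two]
        exact Ideal.mul_mem_mul hc2 hym
    intro i
    fin_cases i
    · exact hc0
    · exact hc1
    · exact hc2
  have hmem : ∀ i, (![ϖ, a, y] : Fin 3 → D) i ∈ maximalIdeal D := by
    intro i
    fin_cases i
    · exact hϖ
    · exact ha
    · exact hym
  obtain ⟨m, t, hmt, hdim⟩ := exists_rsp_extend ![ϖ, a, y] hmem hind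
  have hp : Par ϖ (Fin.cons a (Fin.cons y t) : Fin (m + 2) → D) := by
    refine ⟨?_, ?_⟩
    · rw [hmt]
      congr 1
      rw [Fin.range_cons, Fin.range_cons]
      ext z
      simp only [Set.mem_union, Set.mem_range, Set.mem_insert_iff]
      constructor
      · rintro (⟨i, rfl⟩ | ⟨k, rfl⟩)
        · fin_cases i
          · left; rfl
          · right; left; rfl
          · right; right; left; rfl
        · right; right; right; exact ⟨k, rfl⟩
      · rintro (rfl | rfl | rfl | ⟨k, rfl⟩)
        · left; exact ⟨0, rfl⟩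
        · left; exact ⟨1, rfl⟩
        · left; exact ⟨2, rfl⟩
        · right; exact ⟨k, rfl⟩
    · rw [← hdim, Fintype.card_fin]
      exact_mod_cast (by omega : m + 2 + 1 ≤ 3 + m)
  classical
  let s : Finset D := insert ϖ (insert y (Finset.univ.image fun k => τ (t k) - t k))
  have hs : ((s : Finset D) : Set D) = insert ϖ (insert y (Set.range fun k => τ (t k) - t k)) := by
    simp [s]
  have hle : Ideal.span {ϖ} ⊔ augIdeal τ ≤ Ideal.span (s : Set D) := by
    rw [hs]
    refine sup_le ?_ ?_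
    · exact Ideal.span_mono (by intro z hz; left; exact hz)
    · refine Ideal.span_le.mpr ?_
      rintro _ ⟨f, rfl⟩
      have h1 := sub_mem_span h hp f
      refine (Ideal.span_le.mpr ?_ :
        _ ≤ Ideal.span (insert ϖ (insert y (Set.range fun k => τ (t k) - t k)))) h1
      rintro z (rfl | ⟨i, rfl⟩)
      · exact Ideal.pow_mem_of_mem _ (Ideal.subset_span (Set.mem_insert _ _)) _ (by omega)
      · refine Fin.cases ?_ (fun i => ?_) i
        · exact Ideal.subset_span (Set.mem_insert_of_mem _ (Set.mem_insert _ _))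
        · refine Fin.cases ?_ (fun i => ?_) i
          · show τ y - y ∈ _
            rw [hty]
            exact Ideal.mul_mem_left _ _
              (Ideal.subset_span (Set.mem_insert_of_mem _ (Set.mem_insert _ _)))
          · exact Ideal.subset_span
              (Set.mem_insert_of_mem _ (Set.mem_insert_of_mem _ ⟨i, rfl⟩))
  have hsm : (s : Set D) ⊆ maximalIdeal D := by
    rw [hs]
    rintro z (rfl | rfl | ⟨k, rfl⟩)
    · exact hϖ
    · exact hym
    · exact h.triv _
  have hcard : s.card ≤ m + 2 := by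
    refine (Finset.card_insert_le _ _).trans ?_
    have h1 := Finset.card_insert_le y (Finset.univ.image fun k => τ (t k) - t k)
    have h2 : (Finset.univ.image fun k => τ (t k) - t k).card ≤ m := by
      refine Finset.card_image_le.trans ?_
      simp
    omega
  have hfin := dim_le_of_sq_mem s hsm (fun f hf => hle (hA f hf))
  rw [← hdim] at hfin
  have : 3 + m ≤ s.card := by exact_mod_cast hfin
  omega
-- END N33

-- BEGIN N34
theorem n34_mul {A B J : Ideal D} : (A ⊔ J) * (B ⊔ J) ≤ A * B ⊔ J := by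
  rw [Ideal.sup_mul, Ideal.mul_sup]
  have h1 : A * J ≤ J := Ideal.mul_le.mpr fun a _ b hb => J.mul_mem_left a hb
  have h2 : J * (B ⊔ J) ≤ J := Ideal.mul_le.mpr fun a ha b _ => J.mul_mem_right b ha
  exact sup_le (sup_le le_sup_left (h1.trans le_sup_right)) (h2.trans le_sup_right)

theorem n34_pow_three {I J : Ideal D} : (I ⊔ J) ^ 3 ≤ I ^ 3 ⊔ J := by
  have e : (I ⊔ J) ^ 3 = (I ⊔ J) * ((I ⊔ J) * (I ⊔ J)) := by ring
  have e' : I ^ 3 = I * (I * I) := by ring
  rw [e, e']
  exact (Ideal.mul_mono_right n34_mul).trans n34_mul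

/-- If `∑ l, c l * x l ^ 2 ∈ (ϖ) + m ^ 3` then all `c l` are in `m`. -/
theorem n34_sq {ι : Type} [Fintype ι] [DecidableEq ι] {ϖ : D} {x : ι → D} (hp : Par ϖ x)
    (c : ι → D) (hc : ∑ l, c l * x l ^ 2 ∈ Ideal.span {ϖ} ⊔ maximalIdeal D ^ 3) (l : ι) :
    c l ∈ maximalIdeal D := by
  set β : Option ι → ℕ := fun o => if o = some l then 2 else 0 with hβ
  set J : Ideal D := Ideal.span (Set.range fun k => par ϖ x k ^ (β k + 1)) with hJ
  have hβl : β (some l) = 2 := by simp [hβ]
  have hβn : β none = 0 := by simp [hβ]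
  have hβk : ∀ k, k ≠ l → β (some k) = 0 := by
    intro k hk
    simp [hβ, hk]
  have hϖJ : ϖ ∈ J := by
    refine Ideal.subset_span ⟨none, ?_⟩
    simp [hβn, par]
  have hxJ : ∀ k, k ≠ l → x k ∈ J := by
    intro k hk
    refine Ideal.subset_span ⟨some k, ?_⟩
    simp [hβk k hk, par]
  have hlJ : x l ^ 3 ∈ J := by
    refine Ideal.subset_span ⟨some l, ?_⟩
    simp [hβl, par]
  have hm : maximalIdeal D ≤ Ideal.span {x l} ⊔ J := by
    rw [hp.span, Ideal.span_le]
    rintro z (rfl | ⟨k, rfl⟩)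
    · exact Ideal.mem_sup_right hϖJ
    · by_cases hk : k = l
      · subst hk
        exact Ideal.mem_sup_left (Ideal.mem_span_singleton_self _)
      · exact Ideal.mem_sup_right (hxJ k hk)
  have hm3 : maximalIdeal D ^ 3 ≤ J := by
    refine (Ideal.pow_right_mono hm 3).trans (n34_pow_three.trans (sup_le ?_ le_rfl))
    rw [Ideal.span_singleton_pow, Ideal.span_singleton_le_iff_mem]
    exact hlJ
  have hle : Ideal.span {ϖ} ⊔ maximalIdeal D ^ 3 ≤ J :=
    sup_le ((Ideal.span_singleton_le_iff_mem _).mpr hϖJ) hm3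
  have h1 := hle hc
  have h2 : c l * x l ^ 2 ∈ J := by
    rw [← Finset.add_sum_erase _ _ (Finset.mem_univ l)] at h1
    refine (Ideal.add_mem_iff_left _ ?_).mp h1
    refine Ideal.sum_mem _ (fun k hk => ?_)
    exact Ideal.mul_mem_left _ _ (Ideal.pow_mem_of_mem _ (hxJ k (Finset.ne_of_mem_erase hk)) _
      (by norm_num))
  refine mon_mem (κ := Option ι) (par ϖ x) ?_ ?_ β (c l) ?_
  · rw [hp.span]
    congr 1
    ext z
    simp only [Set.mem_insert_iff, Set.mem_range]
    constructor
    · rintro (rfl | ⟨k, rfl⟩)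
      · exact ⟨none, rfl⟩
      · exact ⟨some k, rfl⟩
    · rintro ⟨o, rfl⟩
      cases o with
      | none => left; rfl
      | some k => right; exact ⟨k, rfl⟩
  · rw [Fintype.card_option]
    exact hp.dim
  · have e : ∏ k, par ϖ x k ^ β k = x l ^ 2 := by
      rw [Fintype.prod_option, hβn, Finset.prod_eq_single l]
      · simp [par, hβl]
      · intro k _ hk
        rw [hβk k hk, pow_zero]
      · intro hl
        exact absurd (Finset.mem_univ l) hl
    rw [e]
    exact h2

/-- TASK N34. **Adapted parameters at an ordinary fixed point.** `exists_rsp_extend` for `y = ![ϖ]`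
gives `Par ϖ x`, `x : Fin g → D`. Put `z i = τ (x i) - x i ∈ (ϖ) + m ^ 2` (`sub_mem_of_ordinary`). By
`hA` and `sub_mem_span`: `x l ^ 2 = a₀ l ϖ + ∑ i, A l i * z i`. Claim: `det A` is a unit. Otherwise there
are `c l`, not all in `m`, with `∑ l, c l * A l i ∈ m` for all `i` (linear algebra over the residue
field, `Matrix.exists_vecMul_eq_zero_iff`), so `∑ l, c l * x l ^ 2 ∈ (ϖ) + m ((ϖ) + m ^ 2) ≤ (ϖ) + m ^ 3`,
so for each `l`, `c l * x l ^ 2 ∈ span (ϖ, x l ^ 3, x k (k ≠ l))` (`m ^ 3` is spanned by the monomials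
of degree `3` in the parameters), and `mon_mem` (`κ = Option (Fin g)`, `β = 2` at `some l`, else `0`)
gives `c l ∈ m`. With `M = A⁻¹` (nonsingular inverse): `z i = ∑ l, M i l (x l ^ 2 - a₀ l ϖ)`, so
`b i = - ∑ l, M i l * a₀ l` and the error is `0`. -/
theorem exists_adapted (h : Inv τ ϖ ε n) (hϖ : ϖ ∈ maximalIdeal D)
    (hϖ2 : ϖ ∉ maximalIdeal D ^ 2)
    (hA : ∀ f ∈ maximalIdeal D, f ^ 2 ∈ Ideal.span {ϖ} ⊔ augIdeal τ) :
    ∃ (g : ℕ) (x : Fin g → D) (M : Fin g → Fin g → D) (b : Fin g → D), Adapted τ ϖ x M b := by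
  obtain ⟨g, x, hmx, hdim⟩ := exists_rsp_extend ![ϖ]
    (by intro i; fin_cases i; exact hϖ)
    (by
      intro c hc i
      fin_cases i
      simp only [Fin.sum_univ_one, Matrix.cons_val_zero] at hc
      exact n33_unit hϖ2 hc)
  have hp : Par ϖ x := by
    refine ⟨?_, ?_⟩
    · rw [hmx]
      congr 1
      ext z
      simp only [Set.mem_union, Set.mem_range, Set.mem_insert_iff]
      constructor
      · rintro (⟨i, rfl⟩ | ⟨k, rfl⟩)
        · fin_cases i
          left; rfl
        · right; exact ⟨k, rfl⟩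
      · rintro (rfl | ⟨k, rfl⟩)
        · left; exact ⟨0, rfl⟩
        · right; exact ⟨k, rfl⟩
    · rw [← hdim, Fintype.card_fin]
      exact_mod_cast (by omega : g + 1 ≤ 1 + g)
  have hle : Ideal.span {ϖ} ⊔ augIdeal τ ≤
      Ideal.span {ϖ} ⊔ Ideal.span (Set.range fun i => τ (x i) - x i) := by
    refine sup_le le_sup_left ?_
    refine Ideal.span_le.mpr ?_
    rintro _ ⟨f, rfl⟩
    refine (Ideal.span_le.mpr ?_ : Ideal.span (insert (ϖ ^ (n + 1))
      (Set.range fun i => τ (x i) - x i)) ≤ _) (sub_mem_span h hp f)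
    rintro z (rfl | ⟨i, rfl⟩)
    · exact Ideal.mem_sup_left (Ideal.pow_mem_of_mem _ (Ideal.mem_span_singleton_self _) _
        (by omega))
    · exact Ideal.mem_sup_right (Ideal.subset_span ⟨i, rfl⟩)
  have hex : ∀ l, ∃ (a₀ : D) (A : Fin g → D),
      x l ^ 2 = a₀ * ϖ + ∑ i, A i * (τ (x i) - x i) := by
    intro l
    obtain ⟨p, hp1, q, hq1, hpq⟩ := Submodule.mem_sup.mp (hle (hA _ (hp.mem_x l)))
    obtain ⟨a₀, rfl⟩ := Ideal.mem_span_singleton'.mp hp1
    obtain ⟨A, hAq⟩ := (Ideal.mem_span_range_iff_exists_fun).mp hq1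
    exact ⟨a₀, A, by rw [← hpq, ← hAq]⟩
  choose a₀ A hAe using hex
  have hz : ∀ i, τ (x i) - x i ∈ Ideal.span {ϖ} ⊔ maximalIdeal D ^ 2 := fun i =>
    sub_mem_of_ordinary h hϖ hϖ2 hA (hp.mem_x i)
  have hdet : IsUnit (Matrix.of A).det := by
    by_contra hnu
    have hdm : (Matrix.of A).det ∈ maximalIdeal D := (mem_maximalIdeal _).mpr hnu
    have hd0 : ((Matrix.of A).map (residue D)).det = 0 := by
      have := (residue D).map_det (Matrix.of A)
      rw [RingHom.mapMatrix_apply] at this
      rw [← this]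
      exact (residue_eq_zero_iff _).mpr hdm
    obtain ⟨v, hv0, hv⟩ := Matrix.exists_vecMul_eq_zero_iff.mpr hd0
    choose c hc using fun l => residue_surjective (v l)
    have hcA : ∀ i, ∑ l, c l * A l i ∈ maximalIdeal D := by
      intro i
      rw [← residue_eq_zero_iff, map_sum]
      have h1 := congrFun hv i
      simp only [Matrix.vecMul, dotProduct, Matrix.map_apply, Matrix.of_apply,
        Pi.zero_apply] at h1
      rw [← h1]
      refine Finset.sum_congr rfl (fun l _ => ?_)
      rw [map_mul, hc]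
    have hsum : ∑ l, c l * x l ^ 2 ∈ Ideal.span {ϖ} ⊔ maximalIdeal D ^ 3 := by
      have e : ∑ l, c l * x l ^ 2 = (∑ l, c l * a₀ l) * ϖ +
          ∑ i, (∑ l, c l * A l i) * (τ (x i) - x i) := by
        simp_rw [hAe, mul_add, Finset.sum_add_distrib, Finset.mul_sum, Finset.sum_mul]
        congr 1
        · exact Finset.sum_congr rfl (fun l _ => by ring)
        · rw [Finset.sum_comm]
          exact Finset.sum_congr rfl (fun i _ => Finset.sum_congr rfl (fun l _ => by ring))
      rw [e]
      refine add_mem (Ideal.mem_sup_left (Ideal.mul_mem_left _ _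
        (Ideal.mem_span_singleton_self _))) (Ideal.sum_mem _ (fun i _ => ?_))
      have h1 := Ideal.mul_mem_mul (hcA i) (hz i)
      rw [Ideal.mul_sup] at h1
      have h2 : maximalIdeal D * Ideal.span {ϖ} ⊔ maximalIdeal D * maximalIdeal D ^ 2 ≤
          Ideal.span {ϖ} ⊔ maximalIdeal D ^ 3 :=
        sup_le ((Ideal.mul_le.mpr fun a _ b hb => Ideal.mul_mem_left _ a hb).trans le_sup_left)
          (le_of_eq_of_le (by ring) le_sup_right)
      exact h2 h1
    apply hv0
    funext l
    rw [← hc l]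
    exact (residue_eq_zero_iff _).mpr (n34_sq hp c hsum l)
  refine ⟨g, x, fun i l => (Matrix.of A)⁻¹ i l, fun i => -∑ l, (Matrix.of A)⁻¹ i l * a₀ l, hp,
    ?_, ?_⟩
  · intro i
    have h1 : ∑ l, (Matrix.of A)⁻¹ i l * (x l ^ 2 - a₀ l * ϖ) = τ (x i) - x i := by
      have h2 : ∀ l, x l ^ 2 - a₀ l * ϖ = ((Matrix.of A).mulVec fun i => τ (x i) - x i) l := by
        intro l
        rw [hAe l]
        simp [Matrix.mulVec, dotProduct]
      have h3 : ((Matrix.of A)⁻¹.mulVec fun l => x l ^ 2 - a₀ l * ϖ) i = τ (x i) - x i := by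
        have : (fun l => x l ^ 2 - a₀ l * ϖ) = (Matrix.of A).mulVec fun i => τ (x i) - x i :=
          funext h2
        rw [this, Matrix.mulVec_mulVec, Matrix.nonsing_inv_mul _ hdet, Matrix.one_mulVec]
      exact h3
    have h4 : τ (x i) - x i - (∑ l, (Matrix.of A)⁻¹ i l * x l ^ 2 +
        (-∑ l, (Matrix.of A)⁻¹ i l * a₀ l) * ϖ) = 0 := by
      rw [← h1]
      simp_rw [mul_sub, Finset.sum_sub_distrib, neg_mul, Finset.sum_mul]
      rw [sub_eq_zero, sub_eq_add_neg]
      congr 2
      exact Finset.sum_congr rfl (fun l _ => by ring)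
    rw [h4]
    exact Ideal.zero_mem _
  · have : (Matrix.of fun i l => (Matrix.of A)⁻¹ i l) = (Matrix.of A)⁻¹ := rfl
    rw [this]
    exact (Matrix.isUnit_nonsing_inv_det_iff).mpr hdet
-- END N34

end Pool.Agent.Lib.MP_6a3dac_ag.QD
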