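import Pool.Agent.Lib.MP_6a3dac_ag.QD.Kos
import Pool.Agent.Lib.MP_6a3dac_ag.Mg.G006

/-!
# Involutions of a regular local ring over a wildly ramified quadratic extension
-/

set_option autoImplicit false
set_option linter.unusedSectionVars false

namespace Pool.Agent.Lib.MP_6a3dac_ag.QD

open IsLocalRing MvPolynomial

section Two

-- BEGIN N13
private theorem n13_pow {D : Type} [CommRing D] (t : D) (k : ℕ) :
    ∃ c, (1 + t) ^ k = 1 + k * t + c * t ^ 2 := by
  induction k with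
  | zero => exact ⟨0, by simp⟩
  | succ k ih =>
    obtain ⟨c, hc⟩ := ih
    refine ⟨c + k + c * t, ?_⟩
    rw [pow_succ, hc]
    push_cast
    ring

/-- TASK N13. With `η = 1 + ε ϖ ^ n`: `τ ϖ = ϖ η`, so `ϖ = τ (ϖ η) = ϖ η τ η`, `η * τ η = 1`, and
`τ η = 1 + τ ε * (ϖ η) ^ n`. Expanding and cancelling `ϖ ^ n`:
`ε + τ ε η ^ n + ε τ ε ϖ ^ n η ^ n = 0`. Modulo `ϖ ^ (n + 1)`: `τ ε ≡ ε`,
`η ^ n ≡ 1 + n ε ϖ ^ n` (`2 n ≥ n + 1`), so `2 ε + (n + 1) ε ^ 2 ϖ ^ n ∈ (ϖ ^ (n + 1))`, so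
`2 = - (n + 1) ε ϖ ^ n + b ϖ ^ (n + 1)`, `u = - (n + 1) ε + b ϖ`, and
`u - (n + 1) ε = - 2 (n + 1) ε + b ϖ` is in the maximal ideal. -/
theorem exists_two {D : Type} [CommRing D] [IsDomain D] [IsLocalRing D] {τ : D →+* D} {ϖ ε : D}
    {n : ℕ} (hτ : ∀ z, τ (τ z) = z) (hn : 1 ≤ n) (hϖ : τ ϖ = ϖ + ε * ϖ ^ (n + 1))
    (hε : IsUnit ε) (hd : ∃ a, τ ε - ε = a * ϖ ^ (n + 1)) (h0 : ϖ ≠ 0)
    (hm : ϖ ∈ maximalIdeal D) : ∃ u, (2 : D) = u * ϖ ^ n ∧ u - (n + 1) * ε ∈ maximalIdeal D := by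
  obtain ⟨a, ha⟩ := hd
  obtain ⟨η, hη⟩ : ∃ η, η = 1 + ε * ϖ ^ n := ⟨_, rfl⟩
  have h1 : τ ϖ = ϖ * η := by
    rw [hϖ, hη]
    ring
  have h2 : η * τ η = 1 := by
    have : ϖ * (η * τ η) = ϖ * 1 := by
      calc ϖ * (η * τ η) = ϖ * η * τ η := by ring
        _ = τ ϖ * τ η := by rw [h1]
        _ = τ (ϖ * η) := by rw [map_mul]
        _ = τ (τ ϖ) := by rw [h1]
        _ = ϖ * 1 := by rw [hτ, mul_one]
    exact mul_left_cancel₀ h0 this
  have h3 : τ η = 1 + τ ε * (ϖ * η) ^ n := by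
    rw [← h1, hη, map_add, map_one, map_mul, map_pow]
  rw [h3] at h2
  have h4 : ε + τ ε * η ^ (n + 1) = 0 := by
    have h5 : ϖ ^ n * (ε + τ ε * η ^ (n + 1)) = ϖ ^ n * 0 := by
      rw [mul_pow] at h2
      linear_combination h2 - hη
    exact mul_left_cancel₀ (pow_ne_zero n h0) h5
  obtain ⟨c, hc⟩ := n13_pow (ε * ϖ ^ n) (n + 1)
  obtain ⟨e, he⟩ := hε.exists_right_inv
  obtain ⟨k, rfl⟩ : ∃ k, n = k + 1 := ⟨n - 1, by omega⟩
  have hτε : τ ε = ε + a * ϖ ^ (k + 1 + 1) := by rw [← ha]; ring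
  rw [hτε] at h4
  have hη' : η ^ (k + 1 + 1) = 1 + ((k + 1 + 1 : ℕ) : D) * (ε * ϖ ^ (k + 1)) +
      c * (ε * ϖ ^ (k + 1)) ^ 2 := by
    rw [hη]
    exact hc
  obtain ⟨u, hu⟩ : ∃ u, u = -(((k + 1 + 1 : ℕ) : D) * ε) - c * ε ^ 2 * ϖ ^ (k + 1) -
    e * a * ϖ * η ^ (k + 1 + 1) := ⟨_, rfl⟩
  have h5 : (2 : D) = u * ϖ ^ (k + 1) := by
    have h6 : ε * (2 - u * ϖ ^ (k + 1)) = 0 := by
      have h7 : ε + ε * (1 + ((k + 1 + 1 : ℕ) : D) * (ε * ϖ ^ (k + 1)) +
          c * (ε * ϖ ^ (k + 1)) ^ 2) + a * ϖ ^ (k + 1 + 1) * η ^ (k + 1 + 1) = 0 := by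
        rw [← hη']
        linear_combination h4
      rw [hu]
      linear_combination h7 + (a * ϖ ^ (k + 1 + 1) * η ^ (k + 1 + 1)) * he
    have h8 : e * (ε * (2 - u * ϖ ^ (k + 1))) = 0 := by rw [h6, mul_zero]
    linear_combination h8 - (2 - u * ϖ ^ (k + 1)) * he
  refine ⟨u, h5, ?_⟩
  have hpm : ϖ ^ (k + 1) ∈ maximalIdeal D := by
    rw [pow_succ]
    exact Ideal.mul_mem_left _ _ hm
  have h2m : (2 : D) ∈ maximalIdeal D := by
    rw [h5]
    exact Ideal.mul_mem_left _ _ hpm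
  have e1 : u - (((k + 1 : ℕ) : D) + 1) * ε = 2 * (-(((k + 1 + 1 : ℕ) : D) * ε)) +
      (-(c * ε ^ 2)) * ϖ ^ (k + 1) + (-(e * a * η ^ (k + 1 + 1))) * ϖ := by
    rw [hu]
    push_cast
    ring
  rw [e1]
  exact Ideal.add_mem _ (Ideal.add_mem _ (Ideal.mul_mem_right _ _ h2m)
    (Ideal.mul_mem_left _ _ hpm)) (Ideal.mul_mem_left _ _ hm)
-- END N13

end Two

variable {D : Type} [CommRing D] [IsRegularLocalRing D]

/-- The hypotheses on the involution `τ` and the uniformizer `ϖ`. -/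
structure Inv (τ : D →+* D) (ϖ ε : D) (n : ℕ) : Prop where
  invol : ∀ z, τ (τ z) = z
  pos : 1 ≤ n
  unif : τ ϖ = ϖ + ε * ϖ ^ (n + 1)
  unit : IsUnit ε
  deps : ∃ a, τ ε - ε = a * ϖ ^ (n + 1)
  two : ∃ u, (2 : D) = u * ϖ ^ n
  perf : ∀ a : D, ∃ c, a - c ^ 2 ∈ maximalIdeal D
  triv : ∀ a, τ a - a ∈ maximalIdeal D

/-- Parameters in which the involution is of Koszul type to first order. -/
structure Adapted (τ : D →+* D) (ϖ : D) {ι : Type} [Fintype ι] [DecidableEq ι] (x : ι → D)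
    (M : ι → ι → D) (b : ι → D) : Prop where
  par : Par ϖ x
  eq : ∀ i, τ (x i) - x i - (∑ l, M i l * x l ^ 2 + b i * ϖ) ∈ Fil ϖ 3
  det : IsUnit (Matrix.of M).det

variable {τ : D →+* D} {ϖ ε : D} {n : ℕ} {ι : Type} [Fintype ι] [DecidableEq ι] {x : ι → D}
  {M : ι → ι → D} {b : ι → D}

-- BEGIN N14
/-- the ideal of all differences -/
theorem n14_main (h : Inv τ ϖ ε n) (hp : Par ϖ x) :
    Ideal.span (Set.range fun a => τ a - a) ≤
      Ideal.span (insert (ϖ ^ (n + 1)) (Set.range fun i => τ (x i) - x i)) := by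
  set I : Ideal D := Ideal.span (Set.range fun a => τ a - a) with hI
  set J : Ideal D := Ideal.span (insert (ϖ ^ (n + 1)) (Set.range fun i => τ (x i) - x i)) with hJ
  have hmem : ∀ a, τ a - a ∈ I := fun a => Ideal.subset_span ⟨a, rfl⟩
  -- elements of the maximal ideal
  have hm : ∀ a ∈ maximalIdeal D, τ a - a ∈ J ⊔ maximalIdeal D • I := by
    intro a ha
    rw [hp.span] at ha
    induction ha using Submodule.span_induction with
    | mem y hy =>
      rcases hy with rfl | ⟨i, rfl⟩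
      · refine Submodule.mem_sup_left ?_
        rw [h.unif, add_sub_cancel_left]
        exact J.mul_mem_left _ (Ideal.subset_span (Set.mem_insert _ _))
      · exact Submodule.mem_sup_left (Ideal.subset_span (Set.mem_insert_of_mem _ ⟨i, rfl⟩))
    | zero =>
      rw [map_zero, sub_zero]
      exact Submodule.zero_mem _
    | add y z _ _ hy hz =>
      rw [map_add, add_sub_add_comm]
      exact Submodule.add_mem _ hy hz
    | smul c y hy' hy =>
      have hy2 : y ∈ maximalIdeal D := by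
        rw [hp.span]
        exact hy'
      have e : τ (c • y) - c • y = τ c * (τ y - y) + y • (τ c - c) := by
        rw [smul_eq_mul, smul_eq_mul, map_mul]
        ring
      rw [e]
      exact Submodule.add_mem _ (Ideal.mul_mem_left _ _ hy)
        (Submodule.mem_sup_right (Submodule.smul_mem_smul hy2 (hmem c)))
  refine Submodule.le_of_le_smul_of_le_jacobson_bot (I := maximalIdeal D)
    (IsNoetherian.noetherian I) (IsLocalRing.maximalIdeal_le_jacobson ⊥) ?_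
  rw [hI, Ideal.span_le]
  rintro _ ⟨a, rfl⟩
  change τ a - a ∈ J ⊔ maximalIdeal D • I
  obtain ⟨c, hc⟩ := h.perf a
  obtain ⟨u, hu⟩ := h.two
  have h2 : (2 : D) ∈ maximalIdeal D := by
    rw [hu]
    exact Ideal.mul_mem_left _ _ (Ideal.pow_mem_of_mem _ hp.mem _ h.pos)
  have e : τ a - a = (τ (a - c ^ 2) - (a - c ^ 2)) + (τ c - c) • (τ c - c) +
      (2 : D) • (c * (τ c - c)) := by
    rw [smul_eq_mul, smul_eq_mul, map_sub, map_pow]
    ring
  rw [e]
  refine Submodule.add_mem _ (Submodule.add_mem _ (hm _ hc) ?_) ?_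
  · exact Submodule.mem_sup_right (Submodule.smul_mem_smul (h.triv c) (hmem c))
  · exact Submodule.mem_sup_right (Submodule.smul_mem_smul h2 (I.mul_mem_left c (hmem c)))

/-- TASK N14. The ideal generated by all differences `τ a - a` is generated by those of the
parameters. Let `J` be the right-hand side, `I` the ideal generated by all `τ a - a`.
`τ (a b) - a b = τ a (τ b - b) + b (τ a - a)`. For `a ∈ m` write `a` as a combination of `ϖ, x i`
(`Par.span`): `τ a - a ∈ J + m I` (`τ ϖ - ϖ = ε ϖ ^ (n + 1)`). For any `a`: `a = c ^ 2 + m'`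
(`perf`), `τ (c ^ 2) - c ^ 2 = (τ c - c) ^ 2 + 2 c (τ c - c) ∈ m I` since `τ c - c ∈ m` and
`2 = u ϖ ^ n ∈ m`. So `I ≤ J ⊔ m I`; Nakayama. -/
theorem sub_mem_span (h : Inv τ ϖ ε n) (hp : Par ϖ x) (a : D) :
    τ a - a ∈ Ideal.span (insert (ϖ ^ (n + 1)) (Set.range fun i => τ (x i) - x i)) :=
  n14_main h hp (Ideal.subset_span ⟨a, rfl⟩)
-- END N14

-- BEGIN N15
/-- TASK N15. `c = c₀ τ c₀` with `a - c₀ ^ 2 ∈ m`. -/
theorem Inv.exists_fixed (h : Inv τ ϖ ε n) (a : D) : ∃ c, τ c = c ∧ a - c ∈ maximalIdeal D := by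
  obtain ⟨c, hc⟩ := h.perf a
  refine ⟨c * τ c, ?_, ?_⟩
  · rw [map_mul, h.invol, mul_comm]
  · have e : a - c * τ c = (a - c ^ 2) - c * (τ c - c) := by ring
    rw [e]
    exact Ideal.sub_mem _ hc (Ideal.mul_mem_left _ _ (h.triv c))

/-- TASK N15. -/
theorem Inv.charP (h : Inv τ ϖ ε n) (hϖ : ϖ ∈ maximalIdeal D) : CharP (ResidueField D) 2 := by
  obtain ⟨u, hu⟩ := h.two
  have h2 : (2 : D) ∈ maximalIdeal D := by
    rw [hu]
    exact Ideal.mul_mem_left _ _ (Ideal.pow_mem_of_mem _ hϖ _ h.pos)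
  have h3 : (2 : ResidueField D) = 0 := by
    have h4 : residue D 2 = 0 := (residue_eq_zero_iff _).2 h2
    rwa [map_ofNat] at h4
  exact CharTwo.of_one_ne_zero_of_two_eq_zero one_ne_zero h3

/-- TASK N15. -/
theorem two_mul_mem_fil (h : Inv τ ϖ ε n) {r : ℕ} {f : D} (hf : f ∈ Fil ϖ r) :
    2 * f ∈ Fil ϖ (r + 2) := by
  obtain ⟨u, hu⟩ := h.two
  have hn := h.pos
  have h1 : f * ϖ ^ n ∈ Fil ϖ (r + 2) := fil_anti (by omega) (mul_mem_fil hf (pow_mem_fil n))
  have e : 2 * f = u * (f * ϖ ^ n) := by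
    rw [hu]
    ring
  rw [e]
  exact Ideal.mul_mem_left _ _ h1

/-- TASK N15. `sub_mem_span` and `Adapted.eq`. -/
theorem sub_mem_fil_two (h : Inv τ ϖ ε n) (ha : Adapted τ ϖ x M b) (a : D) :
    τ a - a ∈ Fil ϖ 2 := by
  have h1 := sub_mem_span h ha.par a
  have h2 : Ideal.span (insert (ϖ ^ (n + 1)) (Set.range fun i => τ (x i) - x i)) ≤ Fil ϖ 2 := by
    rw [Ideal.span_le]
    rintro _ (rfl | ⟨i, rfl⟩)
    · exact fil_anti (by omega) (pow_mem_fil (n + 1))
    · change τ (x i) - x i ∈ Fil ϖ 2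
      have e : τ (x i) - x i = (τ (x i) - x i - (∑ l, M i l * x l ^ 2 + b i * ϖ)) +
          (∑ l, M i l * x l ^ 2 + b i * ϖ) := by ring
      rw [e]
      refine Ideal.add_mem _ (fil_anti (by omega) (ha.eq i)) (Ideal.add_mem _ ?_ ?_)
      · refine Ideal.sum_mem _ fun l _ => Ideal.mul_mem_left _ _ ?_
        refine pow_le_fil 2 (Ideal.pow_mem_pow ?_ 2)
        rw [ha.par.span]
        exact Ideal.subset_span (Set.mem_insert_of_mem _ ⟨l, rfl⟩)
      · have h3 := pow_mem_fil (ϖ := ϖ) 1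
        rw [pow_one] at h3
        exact Ideal.mul_mem_left _ _ h3
  exact h2 h1
-- END N15

-- BEGIN N16
/-- good pairs -/
def n16_G (τ : D →+* D) (ϖ : D) (s : ℕ) (f : D) : Prop := f ∈ Fil ϖ s ∧ τ f - f ∈ Fil ϖ (s + 1)

theorem n16_add {s : ℕ} {f g : D} (hf : n16_G τ ϖ s f) (hg : n16_G τ ϖ s g) :
    n16_G τ ϖ s (f + g) := by
  refine ⟨Ideal.add_mem _ hf.1 hg.1, ?_⟩
  rw [map_add, add_sub_add_comm]
  exact Ideal.add_mem _ hf.2 hg.2

theorem n16_mul {s t : ℕ} {f g : D} (hf : n16_G τ ϖ s f) (hg : n16_G τ ϖ t g) :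
    n16_G τ ϖ (s + t) (f * g) := by
  refine ⟨mul_mem_fil hf.1 hg.1, ?_⟩
  have h1 : τ f ∈ Fil ϖ s := by
    have e : τ f = (τ f - f) + f := by ring
    rw [e]
    exact Ideal.add_mem _ (fil_anti (by omega) hf.2) hf.1
  have e : τ (f * g) - f * g = τ f * (τ g - g) + (τ f - f) * g := by
    rw [map_mul]
    ring
  rw [e]
  refine Ideal.add_mem _ (fil_anti (by omega) (mul_mem_fil h1 hg.2)) ?_
  exact fil_anti (by omega) (mul_mem_fil hf.2 hg.1)

theorem n16_zero (h : Inv τ ϖ ε n) (ha : Adapted τ ϖ x M b) (f : D) : n16_G τ ϖ 0 f := by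
  refine ⟨?_, fil_anti (by omega) (sub_mem_fil_two h ha f)⟩
  rw [fil_zero]
  exact Submodule.mem_top

theorem n16_one (h : Inv τ ϖ ε n) (ha : Adapted τ ϖ x M b) {f : D} (hf : f ∈ maximalIdeal D) :
    n16_G τ ϖ 1 f := by
  refine ⟨?_, sub_mem_fil_two h ha f⟩
  rw [fil_one ha.par.mem]
  exact hf

theorem n16_unif (h : Inv τ ϖ ε n) : n16_G τ ϖ 2 ϖ := by
  have hn := h.pos
  refine ⟨?_, ?_⟩
  · have h3 := pow_mem_fil (ϖ := ϖ) 1
    rwa [pow_one] at h3
  · rw [h.unif, add_sub_cancel_left]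
    exact Ideal.mul_mem_left _ _ (fil_anti (by omega) (pow_mem_fil (n + 1)))

theorem n16_pow (h : Inv τ ϖ ε n) (ha : Adapted τ ϖ x M b) (i : ℕ) :
    n16_G τ ϖ (2 * i) (ϖ ^ i) := by
  induction i with
  | zero => exact n16_zero h ha _
  | succ i ih =>
    rw [pow_succ]
    exact n16_mul ih (n16_unif h)

theorem n16_mpow (h : Inv τ ϖ ε n) (ha : Adapted τ ϖ x M b) (k : ℕ) :
    ∀ y ∈ maximalIdeal D ^ k, n16_G τ ϖ k y := by
  induction k with
  | zero => exact fun y _ => n16_zero h ha y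
  | succ k ih =>
    intro y hy
    rw [pow_succ] at hy
    refine Submodule.mul_induction_on hy ?_ ?_
    · intro a ha' c hc
      exact n16_mul (ih a ha') (n16_one h ha hc)
    · intro a c ha' hc
      exact n16_add ha' hc

/-- TASK N16. Call `(r, f)` good if `f ∈ Fil ϖ r` and `τ f - f ∈ Fil ϖ (r + 1)`. Products of good
pairs are good (`τ (f g) - f g = τ f (τ g - g) + g (τ f - f)`, `τ f = f + (τ f - f) ∈ Fil ϖ r`),
`(0, a)`, `(1, y)` for `y ∈ m`, `(2, ϖ)` are good (`sub_mem_fil_two`,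
`ε ϖ ^ (n + 1) ∈ Fil ϖ 4`). Then `fil_induction`, and induction for `y ∈ m ^ k`
(`Submodule.pow_induction_on_left'`). -/
theorem sub_mem_fil (h : Inv τ ϖ ε n) (ha : Adapted τ ϖ x M b) {r : ℕ} {f : D}
    (hf : f ∈ Fil ϖ r) : τ f - f ∈ Fil ϖ (r + 1) := by
  refine fil_induction (p := fun f => τ f - f ∈ Fil ϖ (r + 1)) ?_ ?_ ?_ hf
  · rw [map_zero, sub_zero]
    exact Ideal.zero_mem _
  · intro a c ha' hc
    rw [map_add, add_sub_add_comm]
    exact Ideal.add_mem _ ha' hc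
  · intro i k y hr hy
    exact fil_anti (by omega) (n16_mul (n16_pow h ha i) (n16_mpow h ha k y hy)).2

/-- TASK N16. -/
theorem map_mem_fil (h : Inv τ ϖ ε n) (ha : Adapted τ ϖ x M b) {r : ℕ} {f : D}
    (hf : f ∈ Fil ϖ r) : τ f ∈ Fil ϖ r := by
  have e : τ f = (τ f - f) + f := by ring
  rw [e]
  exact Ideal.add_mem _ (fil_anti (by omega) (sub_mem_fil h ha hf)) hf
-- END N16

-- BEGIN N17
theorem n17_mul (hp : Par ϖ x) {T : Derivation (ResidueField D)
    (MvPolynomial (Option ι) (ResidueField D)) (MvPolynomial (Option ι) (ResidueField D))}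
    {r s : ℕ} {f g : D} {P P' : MvPolynomial (Option ι) (ResidueField D)}
    (hf : Sym ϖ x r f P) (hg : Sym ϖ x s g P')
    (hf' : Sym ϖ x (r + 1) (τ f - f) (T P)) (hg' : Sym ϖ x (s + 1) (τ g - g) (T P')) :
    Sym ϖ x (r + s + 1) (τ (f * g) - f * g) (T (P * P')) := by
  have h1 := hf.mul hp hg'
  have h2 := hg.mul hp hf'
  have h3 : (τ f - f) * (τ g - g) ∈ Fil ϖ (r + s + 1 + 1) := by
    have := mul_mem_fil (Sym.mem hp hf') (Sym.mem hp hg')
    rwa [show r + 1 + (s + 1) = r + s + 1 + 1 by omega] at this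
  rw [show r + (s + 1) = r + s + 1 by omega] at h1
  rw [show s + (r + 1) = r + s + 1 by omega] at h2
  have h4 := (h1.add h2).add (sym_zero h3)
  rw [add_zero] at h4
  have e1 : f * (τ g - g) + g * (τ f - f) + (τ f - f) * (τ g - g) = τ (f * g) - f * g := by
    rw [map_mul]; ring
  rw [e1] at h4
  rw [Derivation.leibniz]
  exact h4

theorem n17_self {r : ℕ} {Q : MvPolynomial (Option ι) D} (hQ : IsWeightedHomogeneous wt Q r) :
    Sym ϖ x r (eval (par ϖ x) Q) (map (residue D) Q) :=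
  ⟨Q, hQ, rfl, by rw [sub_self]; exact Ideal.zero_mem _⟩

theorem n17_x (ha : Adapted τ ϖ x M b) (i : ι) :
    Sym ϖ x (1 + 1) (τ (x i) - x i)
      (Tder (fun i l => residue D (M i l)) (fun i => residue D (b i)) (X (some i))) := by
  refine ⟨∑ l, C (M i l) * X (some l) ^ 2 + C (b i) * X none, ?_, ?_, ?_⟩
  · refine IsWeightedHomogeneous.add ?_ ?_
    · refine IsWeightedHomogeneous.sum _ _ _ fun l _ => ?_
      have h1 := (isWeightedHomogeneous_C (R := D) (wt (ι := ι)) (M i l)).mul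
        ((isWeightedHomogeneous_X D (wt (ι := ι)) (some l)).pow 2)
      simpa [wt] using h1
    · have h1 := (isWeightedHomogeneous_C (R := D) (wt (ι := ι)) (b i)).mul
        (isWeightedHomogeneous_X D (wt (ι := ι)) none)
      simpa [wt] using h1
  · rw [Tder, mkDerivation_X]
    simp
  · have h1 := ha.eq i
    have e : eval (par ϖ x) (∑ l, C (M i l) * X (some l) ^ 2 + C (b i) * X none) =
        ∑ l, M i l * x l ^ 2 + b i * ϖ := by
      simp [par]
    rw [e]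
    exact h1

theorem n17_unif (h : Inv τ ϖ ε n) (ha : Adapted τ ϖ x M b) :
    Sym ϖ x (2 + 1) (τ ϖ - ϖ)
      (Tder (fun i l => residue D (M i l)) (fun i => residue D (b i)) (X none)) := by
  rw [Tder, mkDerivation_X]
  refine sym_zero ?_
  have e : τ ϖ - ϖ = ε * ϖ ^ (n + 1) := by rw [h.unif]; ring
  rw [e]
  have hn := h.pos
  exact fil_anti (by omega) (Ideal.mul_mem_left _ ε (pow_mem_fil (n + 1)))

theorem n17_C (h : Inv τ ϖ ε n) (ha : Adapted τ ϖ x M b) (a : D) :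
    Sym ϖ x (0 + 1) (τ a - a)
      (Tder (fun i l => residue D (M i l)) (fun i => residue D (b i)) (C (residue D a))) := by
  rw [derivation_C]
  exact sym_zero (sub_mem_fil_two h ha a)

theorem n17_X (h : Inv τ ϖ ε n) (ha : Adapted τ ϖ x M b) (o : Option ι) :
    Sym ϖ x (wt o + 1) (τ (eval (par ϖ x) (X o)) - eval (par ϖ x) (X o))
      (Tder (fun i l => residue D (M i l)) (fun i => residue D (b i))
        (map (residue D) (X o))) := by
  rw [eval_X, map_X]
  cases o with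
  | none => exact n17_unif h ha
  | some i => exact n17_x ha i

theorem n17_prod (h : Inv τ ϖ ε n) (ha : Adapted τ ϖ x M b) {r s : ℕ}
    {Q R : MvPolynomial (Option ι) D}
    (hQ : IsWeightedHomogeneous wt Q r) (hR : IsWeightedHomogeneous wt R s)
    (hQ' : Sym ϖ x (r + 1) (τ (eval (par ϖ x) Q) - eval (par ϖ x) Q)
      (Tder (fun i l => residue D (M i l)) (fun i => residue D (b i))
        (map (residue D) Q)))
    (hR' : Sym ϖ x (s + 1) (τ (eval (par ϖ x) R) - eval (par ϖ x) R)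
      (Tder (fun i l => residue D (M i l)) (fun i => residue D (b i))
        (map (residue D) R))) :
    IsWeightedHomogeneous wt (Q * R) (r + s) ∧
    Sym ϖ x (r + s + 1) (τ (eval (par ϖ x) (Q * R)) - eval (par ϖ x) (Q * R))
      (Tder (fun i l => residue D (M i l)) (fun i => residue D (b i))
        (map (residue D) (Q * R))) := by
  refine ⟨hQ.mul hR, ?_⟩
  rw [map_mul (eval (par ϖ x)), map_mul (map (residue D))]
  exact n17_mul ha.par (n17_self hQ) (n17_self hR) hQ' hR'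

theorem n17_mon (h : Inv τ ϖ ε n) (ha : Adapted τ ϖ x M b) (d : Option ι →₀ ℕ) :
    IsWeightedHomogeneous wt (monomial d (1 : D)) (Finsupp.weight wt d) ∧
    Sym ϖ x (Finsupp.weight wt d + 1) (τ (eval (par ϖ x) (monomial d (1 : D))) -
        eval (par ϖ x) (monomial d (1 : D)))
      (Tder (fun i l => residue D (M i l)) (fun i => residue D (b i))
        (map (residue D) (monomial d (1 : D)))) := by
  induction d using Finsupp.induction_linear with
  | zero =>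
    rw [map_zero]
    refine ⟨isWeightedHomogeneous_C (R := D) wt 1, ?_⟩
    have h1 := n17_C h ha 1
    have e1 : (monomial (0 : Option ι →₀ ℕ) (1 : D)) = C 1 := rfl
    rw [e1, eval_C, map_C]
    exact h1
  | add f g hf hg =>
    have e1 : monomial (f + g) (1 : D) = monomial f (1 : D) * monomial g (1 : D) := by
      rw [monomial_mul, one_mul]
    rw [e1, map_add]
    exact n17_prod h ha hf.1 hg.1 hf.2 hg.2
  | single a k =>
    rw [show monomial (Finsupp.single a k) (1 : D) = X a ^ k from X_pow_eq_monomial.symm]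
    have e1 : Finsupp.weight (wt (ι := ι)) (Finsupp.single a k) = k * wt a := by
      simp [Finsupp.weight_apply]
    rw [e1]
    induction k with
    | zero =>
      rw [zero_mul, pow_zero]
      refine ⟨isWeightedHomogeneous_C (R := D) wt 1, ?_⟩
      have h1 := n17_C h ha 1
      have e1 : (1 : MvPolynomial (Option ι) D) = C 1 := rfl
      rw [e1, eval_C, map_C]
      exact h1
    | succ k ih =>
      have ih' := ih (by simp [Finsupp.weight_apply])
      rw [pow_succ, add_mul, one_mul]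
      exact n17_prod h ha ih'.1 (isWeightedHomogeneous_X D wt a) ih'.2 (n17_X h ha a)

theorem n17_sum (h : Inv τ ϖ ε n) (ha : Adapted τ ϖ x M b) {r : ℕ}
    (s : Finset (Option ι →₀ ℕ)) (c : (Option ι →₀ ℕ) → D)
    (hs : ∀ d ∈ s, Finsupp.weight wt d = r) :
    Sym ϖ x (r + 1) (τ (eval (par ϖ x) (∑ d ∈ s, monomial d (c d))) -
        eval (par ϖ x) (∑ d ∈ s, monomial d (c d)))
      (Tder (fun i l => residue D (M i l)) (fun i => residue D (b i))
        (map (residue D) (∑ d ∈ s, monomial d (c d)))) := by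
  classical
  induction s using Finset.induction_on with
  | empty =>
    rw [Finset.sum_empty, map_zero, map_zero, map_zero, map_zero, sub_zero]
    exact sym_zero (Ideal.zero_mem _)
  | insert d s hd ih =>
    rw [Finset.sum_insert hd]
    have h1 := ih fun e he => hs e (Finset.mem_insert_of_mem he)
    have h2 := n17_mon h ha d
    rw [hs d (Finset.mem_insert_self _ _)] at h2
    have h3 := n17_prod h ha (isWeightedHomogeneous_C (R := D) wt (c d)) h2.1
      (by rw [eval_C, map_C]; exact n17_C h ha (c d)) h2.2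
    rw [zero_add] at h3
    have e1 : C (c d) * monomial d (1 : D) = monomial d (c d) := by
      rw [C_mul_monomial, mul_one]
    rw [e1] at h3
    have h4 := h3.2.add h1
    have e2 : τ (eval (par ϖ x) (monomial d (c d) + ∑ d ∈ s, monomial d (c d))) -
        eval (par ϖ x) (monomial d (c d) + ∑ d ∈ s, monomial d (c d)) =
        (τ (eval (par ϖ x) (monomial d (c d))) - eval (par ϖ x) (monomial d (c d))) +
        (τ (eval (par ϖ x) (∑ d ∈ s, monomial d (c d))) -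
          eval (par ϖ x) (∑ d ∈ s, monomial d (c d))) := by
      rw [map_add (eval (par ϖ x)), map_add τ]; ring
    rw [e2, map_add (map (residue D)), map_add]
    exact h4

/-- TASK N17. The symbol of `τ f - f`. First for products: if it holds for `(r, f, P)` and
`(s, g, P')` it holds for `(r + s, f g, P P')`, since
`τ (f g) - f g = f (τ g - g) + g (τ f - f) + (τ f - f) (τ g - g)`, the last term is in
`Fil ϖ (r + s + 2)`, and `Tder` is a derivation. It holds for `(0, a, C a)` (`sub_mem_fil_two`,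
`Tder (C a) = 0`), `(2, ϖ, X none)`, `(1, x i, X (some i))` (`Adapted.eq`), hence for
`(r, c * monomial, ..)`, for sums, so for `eval (par ϖ x) Q`, and `f - eval Q ∈ Fil ϖ (r + 1)` has
difference in `Fil ϖ (r + 2)`. -/
theorem Sym.sub (h : Inv τ ϖ ε n) (ha : Adapted τ ϖ x M b) {r : ℕ} {f : D}
    {P : MvPolynomial (Option ι) (ResidueField D)} (hf : Sym ϖ x r f P) :
    Sym ϖ x (r + 1) (τ f - f)
      (Tder (fun i l => residue D (M i l)) (fun i => residue D (b i)) P) := by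
  obtain ⟨Q, hQ, hP, he⟩ := hf
  have h1 := sub_mem_fil h ha he
  have h2 := n17_sum h ha Q.support (fun d => coeff d Q) (r := r) fun d hd =>
    hQ (mem_support_iff.mp hd)
  rw [← Q.as_sum, hP] at h2
  have h3 := h2.add (sym_zero h1)
  rw [add_zero] at h3
  have e : τ (eval (par ϖ x) Q) - eval (par ϖ x) Q +
      (τ (f - eval (par ϖ x) Q) - (f - eval (par ϖ x) Q)) = τ f - f := by
    rw [map_sub]; ring
  rwa [e] at h3
-- END N17

-- BEGIN N18
/-- TASK N18. `f + τ f = (τ f - f) + 2 f`. -/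
theorem Sym.tr (h : Inv τ ϖ ε n) (ha : Adapted τ ϖ x M b) {r : ℕ} {f : D}
    {P : MvPolynomial (Option ι) (ResidueField D)} (hf : Sym ϖ x r f P) :
    Sym ϖ x (r + 1) (f + τ f)
      (Tder (fun i l => residue D (M i l)) (fun i => residue D (b i)) P) := by
  have h1 := (Sym.sub h ha hf).add (sym_zero (two_mul_mem_fil h (Sym.mem ha.par hf)))
  rw [add_zero] at h1
  have e : τ f - f + 2 * f = f + τ f := by ring
  rwa [e] at h1

/-- TASK N18. -/
theorem tr_mem_fil (h : Inv τ ϖ ε n) (ha : Adapted τ ϖ x M b) {r : ℕ} {f : D}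
    (hf : f ∈ Fil ϖ r) : f + τ f ∈ Fil ϖ (r + 1) := by
  have e : f + τ f = τ f - f + 2 * f := by ring
  rw [e]
  exact Ideal.add_mem _ (sub_mem_fil h ha hf) (fil_anti (by omega) (two_mul_mem_fil h hf))

theorem n18_pow (ϖ ε : D) (n s : ℕ) :
    ∃ c, (1 + ε * ϖ ^ n) ^ s = 1 + (s * ε + c * ϖ ^ n) * ϖ ^ n := by
  induction s with
  | zero => exact ⟨0, by simp⟩
  | succ s ih =>
    obtain ⟨c, hc⟩ := ih
    refine ⟨c + (s * ε + c * ϖ ^ n) * ε, ?_⟩
    rw [pow_succ, hc]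
    push_cast
    ring

/-- TASK N18. The norm of `ϖ` is `ϖ ^ 2` to first order:
`(ϖ τ ϖ) ^ s = ϖ ^ (2 s) (1 + ε ϖ ^ n) ^ s`. -/
theorem norm_pow_sub (h : Inv τ ϖ ε n) (s : ℕ) :
    (ϖ * τ ϖ) ^ s - ϖ ^ (2 * s) ∈ Fil ϖ (4 * s + 1) := by
  obtain ⟨c, hc⟩ := n18_pow ϖ ε n s
  have hn := h.pos
  have e : (ϖ * τ ϖ) ^ s - ϖ ^ (2 * s) = (s * ε + c * ϖ ^ n) * ϖ ^ (2 * s + n) := by
    have e1 : ϖ * τ ϖ = ϖ ^ 2 * (1 + ε * ϖ ^ n) := by rw [h.unif]; ring
    rw [e1, mul_pow, hc, ← pow_mul, pow_add]; ring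
  rw [e]
  exact fil_anti (by omega) (Ideal.mul_mem_left _ _ (pow_mem_fil (2 * s + n)))

/-- TASK N18. `τ (ϖ ^ s) = ϖ ^ s (1 + ε ϖ ^ n) ^ s`. -/
theorem pow_sub_mem (h : Inv τ ϖ ε n) (s : ℕ) :
    ∃ a, τ (ϖ ^ s) - ϖ ^ s = (s * ε + a * ϖ ^ n) * ϖ ^ (s + n) := by
  obtain ⟨c, hc⟩ := n18_pow ϖ ε n s
  refine ⟨c, ?_⟩
  have e1 : τ ϖ = ϖ * (1 + ε * ϖ ^ n) := by rw [h.unif]; ring
  rw [map_pow, e1, mul_pow, hc, pow_add]; ring
-- END N18

-- BEGIN N19
theorem n19_det (hM : IsUnit (Matrix.of M).det) :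
    IsUnit (Matrix.of fun i l => residue D (M i l)).det := by
  have e : (Matrix.of fun i l => residue D (M i l)) = (residue D).mapMatrix (Matrix.of M) := by
    ext i l
    rfl
  rw [e, ← RingHom.map_det]
  exact hM.map (residue D)

/-- TASK N19. No differences with constant symbol. Induction on `2 t - m`.
* `2 t ≤ m`: `τ f - f ∈ Fil ϖ (m + 1) ≤ Fil ϖ (2 t + 1)`; `mem_of_mul_pow_mem`.
* `m + 1 = 2 t`: let `P` be the symbol of `f` in degree `m`; `Tder P` and `C c w ^ t` are symbols of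
`τ f - f` in degree `2 t` (`Sym.pow_unif`, `sym_zero`, `Sym.add`), so `Tder P = C c w ^ t`
(`Sym.unique`) and `tder_im_pow`.
* `m + 2 ≤ 2 t`: `τ f - f ∈ Fil ϖ (m + 2)`, so `Tder P = 0` by `Sym.eq_zero`. If `m ≥ 1`:
`P = Tder H + C a w ^ (m / 2)` by `tder_ker_homog` (`a = 0` if `m` is odd); take `g` with symbol `H`
in degree `m - 1` (`sym_lift`) and `c₀` with `τ c₀ = c₀` and residue `a` (`Inv.exists_fixed`), and
`f' = f - (g + τ g) - c₀ ϖ ^ (m / 2)` (last term only for `m` even). If `m = 0`: `f' = f - c₀`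
(`P` is a constant). Then `f' ∈ Fil ϖ (m + 1)` (`Sym.mem_succ`), `τ (g + τ g) = g + τ g`, and
`τ (c₀ ϖ ^ s) - c₀ ϖ ^ s ∈ (ϖ ^ (s + n)) ≤ Fil ϖ (2 s + 2 n) ≤ Fil ϖ (2 t + 1)` for `m = 2 s`
(`pow_sub_mem`). So the induction hypothesis applies to `f'`, `m + 1`. -/
theorem const_mem (h : Inv τ ϖ ε n) (ha : Adapted τ ϖ x M b) {m t : ℕ} {f c : D}
    (hf : f ∈ Fil ϖ m) (hm : 2 * t < m + 2 * n)
    (hc : τ f - f - c * ϖ ^ t ∈ Fil ϖ (2 * t + 1)) : c ∈ maximalIdeal D := by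
  have hp := ha.par
  haveI := h.charP hp.mem
  have hdet := n19_det ha.det
  obtain ⟨k, hk⟩ : ∃ k, k = 2 * t - m := ⟨_, rfl⟩
  induction k generalizing m f with
  | zero =>
    have h1 := fil_anti (ϖ := ϖ) (show 2 * t + 1 ≤ m + 1 by omega) (sub_mem_fil h ha hf)
    have h2 := Ideal.sub_mem _ h1 hc
    rw [sub_sub_cancel] at h2
    exact mem_of_mul_pow_mem hp h2
  | succ k ih =>
    obtain ⟨P, hP⟩ := sym_exists hp hf
    have h1 := Sym.sub h ha hP
    by_cases hmt : m + 1 = 2 * t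
    · rw [hmt] at h1
      have h2 := (Sym.pow_unif hp c t).add (sym_zero hc)
      rw [add_zero] at h2
      have e : c * ϖ ^ t + (τ f - f - c * ϖ ^ t) = τ f - f := by ring
      rw [e] at h2
      have h3 := h1.unique hp h2
      have h4 := tder_im_pow hdet h3
      exact (residue_eq_zero_iff c).mp h4
    · have hct : c * ϖ ^ t ∈ Fil ϖ (m + 2) :=
        Ideal.mul_mem_left _ c (fil_anti (by omega) (pow_mem_fil t))
      have h2 : τ f - f ∈ Fil ϖ (m + 1 + 1) := by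
        have := Ideal.add_mem _ (fil_anti (ϖ := ϖ) (show m + 2 ≤ 2 * t + 1 by omega) hc) hct
        rwa [sub_add_cancel] at this
      have hT := h1.eq_zero hp h2
      -- it suffices to find a correction
      have key : ∀ f₀ : D, f - f₀ ∈ Fil ϖ (m + 1) → τ f₀ - f₀ ∈ Fil ϖ (2 * t + 1) →
          c ∈ maximalIdeal D := by
        intro f₀ hf1 hf2
        refine ih hf1 (by omega) ?_ (by omega)
        have e : τ (f - f₀) - (f - f₀) - c * ϖ ^ t = τ f - f - c * ϖ ^ t - (τ f₀ - f₀) := by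
          rw [map_sub]; ring
        rw [e]
        exact Ideal.sub_mem _ hc hf2
      rcases Nat.eq_zero_or_pos m with hm0 | hm0
      · obtain ⟨c₀, hc1, hc2⟩ := h.exists_fixed f
        refine key c₀ ?_ ?_
        · rw [hm0, zero_add, fil_one hp.mem]
          exact hc2
        · rw [hc1, sub_self]
          exact Ideal.zero_mem _
      · obtain ⟨H, a, hH, hPH, hodd⟩ := tder_ker_homog hdet hm0 hP.homog hT
        obtain ⟨g, hg⟩ := sym_lift (ϖ := ϖ) (x := x) hH
        have hg2 := Sym.tr h ha hg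
        rw [Nat.sub_add_cancel hm0] at hg2
        have hτg : τ (g + τ g) - (g + τ g) = 0 := by
          rw [map_add, h.invol]; ring
        rcases Nat.even_or_odd m with hev | hod
        · obtain ⟨s, hs⟩ := hev
          obtain ⟨a', rfl⟩ := residue_surjective a
          obtain ⟨c₀, hc1, hc2⟩ := h.exists_fixed a'
          have hres : residue D a' = residue D c₀ := by
            rw [← sub_eq_zero, ← map_sub, residue_eq_zero_iff]
            exact hc2
          rw [hres] at hPH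
          have hs2 : m / 2 = s := by omega
          rw [hs2] at hPH
          have h3 := Sym.pow_unif hp c₀ s
          rw [show 2 * s = m by omega] at h3
          refine key (g + τ g + c₀ * ϖ ^ s) ?_ ?_
          · have h4 := hP.add (hg2.add h3).neg
            rw [← hPH, add_neg_cancel] at h4
            have h5 := Sym.mem_succ hp h4
            rwa [← sub_eq_add_neg] at h5
          · obtain ⟨d, hd⟩ := pow_sub_mem h s
            have e : τ (g + τ g + c₀ * ϖ ^ s) - (g + τ g + c₀ * ϖ ^ s) =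
                c₀ * (s * ε + d * ϖ ^ n) * ϖ ^ (s + n) := by
              have : τ (g + τ g + c₀ * ϖ ^ s) - (g + τ g + c₀ * ϖ ^ s) =
                (τ (g + τ g) - (g + τ g)) + c₀ * (τ (ϖ ^ s) - ϖ ^ s) := by
                rw [map_add τ (g + τ g), map_mul τ c₀, hc1]; ring
              rw [this, hτg, hd]; ring
            rw [e]
            exact Ideal.mul_mem_left _ _ (fil_anti (by omega) (pow_mem_fil (s + n)))
        · have ha0 := hodd hod
          rw [ha0, C_0, zero_mul, add_zero] at hPH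
          refine key (g + τ g) ?_ ?_
          · have h4 := hP.add hg2.neg
            rw [← hPH, add_neg_cancel] at h4
            have h5 := Sym.mem_succ hp h4
            rwa [← sub_eq_add_neg] at h5
          · rw [hτg]
            exact Ideal.zero_mem _
-- END N19

-- BEGIN N20
/-- TASK N20. The symbol of an invariant is not an odd power of `ϖ`. Take `ĉ` with `τ ĉ = ĉ`,
`c - ĉ ∈ m`; `f = ĉ ϖ ^ s + h`, `h ∈ Fil ϖ (2 s + 1)`. `τ f = f` gives
`τ h - h = - ĉ (τ (ϖ ^ s) - ϖ ^ s) = - ĉ (s ε + a ϖ ^ n) ϖ ^ (s + n)` (`pow_sub_mem`), so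
`const_mem` with `m = 2 s + 1`, `t = s + n` shows `- ĉ s ε ∈ m`; `s` is odd and `2 ∈ m`. -/
theorem odd_mem (h : Inv τ ϖ ε n) (ha : Adapted τ ϖ x M b) {s : ℕ} (hs : Odd s) {f c : D}
    (hf : τ f = f) (hc : f - c * ϖ ^ s ∈ Fil ϖ (2 * s + 1)) : c ∈ maximalIdeal D := by
  have hp := ha.par
  have hϖ := hp.mem
  have hn := h.pos
  obtain ⟨c₀, hc1, hc2⟩ := h.exists_fixed c
  obtain ⟨a, hd⟩ := pow_sub_mem h s
  have h1 : f - c₀ * ϖ ^ s ∈ Fil ϖ (2 * s + 1) := by
    have h2 : (c - c₀) * ϖ ^ s ∈ Fil ϖ (1 + 2 * s) := by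
      refine mul_mem_fil ?_ (pow_mem_fil s)
      rw [fil_one hϖ]
      exact hc2
    rw [add_comm 1] at h2
    have h3 := Ideal.add_mem _ hc h2
    have e : f - c * ϖ ^ s + (c - c₀) * ϖ ^ s = f - c₀ * ϖ ^ s := by ring
    rwa [e] at h3
  have h2 : τ (f - c₀ * ϖ ^ s) - (f - c₀ * ϖ ^ s) -
      (-(c₀ * (s * ε + a * ϖ ^ n))) * ϖ ^ (s + n) ∈ Fil ϖ (2 * (s + n) + 1) := by
    have e : τ (f - c₀ * ϖ ^ s) - (f - c₀ * ϖ ^ s) -
      (-(c₀ * (s * ε + a * ϖ ^ n))) * ϖ ^ (s + n) = 0 := by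
      rw [map_sub, map_mul, hf, hc1]
      linear_combination (-c₀) * hd
    rw [e]
    exact Ideal.zero_mem _
  have h3 := const_mem h ha h1 (by omega) h2
  have h2m : (2 : D) ∈ maximalIdeal D := by
    obtain ⟨u, hu⟩ := h.two
    rw [hu]
    exact Ideal.mul_mem_left _ _ (Ideal.pow_mem_of_mem _ hϖ n hn)
  have hcm : c₀ ∈ maximalIdeal D := by
    obtain ⟨k, hk⟩ := hs
    have h4 : c₀ * ε ∈ maximalIdeal D := by
      have e : c₀ * ε = -(-(c₀ * (s * ε + a * ϖ ^ n))) - 2 * (c₀ * k * ε) -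
          ϖ ^ n * (c₀ * a) := by
        rw [hk]; push_cast; ring
      rw [e]
      exact Ideal.sub_mem _ (Ideal.sub_mem _ (neg_mem h3) (Ideal.mul_mem_right _ _ h2m))
        (Ideal.mul_mem_right _ _ (Ideal.pow_mem_of_mem _ hϖ n hn))
    obtain ⟨v, hv⟩ := h.unit
    have e : c₀ = c₀ * ε * ↑v⁻¹ := by
      rw [← hv, mul_assoc, Units.mul_inv, mul_one]
    rw [e]
    exact Ideal.mul_mem_right _ _ h4
  have e : c = c - c₀ + c₀ := by ring
  rw [e]
  exact Ideal.add_mem _ hc2 hcm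
-- END N20

-- BEGIN N21
/-- TASK N21. **Invariants are constants plus traces.** `P` symbol of `f` in degree `r`; `τ f - f = 0`
gives `Tder P = 0` (`Sym.sub`, `Sym.eq_zero`), `P = Tder H + C a w ^ (r / 2)` (`tder_ker_homog`), `g`
with symbol `H` in degree `r - 1`, `f₁ = f - (g + τ g)` is invariant with symbol `C a w ^ (r / 2)`.
`r` odd: `a = 0`, `w = 0`. `r = 2 s`, `s` odd: `odd_mem` for `f₁` gives `a = 0`, `w = 0`.
`r = 4 k`: `w ∈ W` with residue `a`; `norm_pow_sub`. -/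
theorem exists_trace (h : Inv τ ϖ ε n) (ha : Adapted τ ϖ x M b) (W : Subring D)
    (hW : ∀ w ∈ W, τ w = w) (hWs : ∀ a, ∃ w ∈ W, a - w ∈ maximalIdeal D) {r : ℕ} (hr : 1 ≤ r)
    {f : D} (hf : τ f = f) (hfr : f ∈ Fil ϖ r) :
    ∃ g ∈ Fil ϖ (r - 1), ∃ w ∈ W, (4 ∣ r ∨ w = 0) ∧
      f - (g + τ g) - w * (ϖ * τ ϖ) ^ (r / 4) ∈ Fil ϖ (r + 1) := by
  have hp := ha.par
  haveI := h.charP hp.mem
  have hdet := n19_det ha.det
  obtain ⟨P, hP⟩ := sym_exists hp hfr
  have hT := (Sym.sub h ha hP).eq_zero hp (by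
    rw [hf, sub_self]; exact Ideal.zero_mem _)
  obtain ⟨H, a, hH, hPH, hodd⟩ := tder_ker_homog hdet hr hP.homog hT
  obtain ⟨g, hg⟩ := sym_lift (ϖ := ϖ) (x := x) hH
  have hg2 := Sym.tr h ha hg
  rw [Nat.sub_add_cancel hr] at hg2
  have h1 : Sym ϖ x r (f - (g + τ g)) (C a * X none ^ (r / 2)) := by
    have h2 := hP.add hg2.neg
    rw [hPH] at h2
    rw [sub_eq_add_neg]
    have e : Tder (fun i l => residue D (M i l)) (fun i => residue D (b i)) H +
        C a * X none ^ (r / 2) +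
        -Tder (fun i l => residue D (M i l)) (fun i => residue D (b i)) H =
        C a * X none ^ (r / 2) := by ring
    rwa [e] at h2
  have hinv : τ (f - (g + τ g)) = f - (g + τ g) := by
    rw [map_sub, map_add, hf, h.invol, add_comm]
  -- if the constant vanishes
  have hzero : a = 0 → ∃ g ∈ Fil ϖ (r - 1), ∃ w ∈ W, (4 ∣ r ∨ w = 0) ∧
      f - (g + τ g) - w * (ϖ * τ ϖ) ^ (r / 4) ∈ Fil ϖ (r + 1) := by
    intro ha0
    refine ⟨g, Sym.mem hp hg, 0, W.zero_mem, Or.inr rfl, ?_⟩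
    rw [ha0, C_0, zero_mul] at h1
    rw [zero_mul, sub_zero]
    exact Sym.mem_succ hp h1
  rcases Nat.even_or_odd r with hev | hod
  · obtain ⟨s, hs⟩ := hev
    have hrs : r = 2 * s := by omega
    obtain ⟨c, rfl⟩ := residue_surjective a
    have hs2 : r / 2 = s := by omega
    rw [hs2] at h1
    have h3 : ∀ w : D, residue D w = residue D c →
        f - (g + τ g) - w * ϖ ^ s ∈ Fil ϖ (r + 1) := by
      intro w hw
      have h4 := Sym.pow_unif hp w s
      rw [hw, ← hrs] at h4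
      have h5 := h1.add h4.neg
      rw [add_neg_cancel] at h5
      rw [sub_eq_add_neg]
      exact Sym.mem_succ hp h5
    rcases Nat.even_or_odd s with hev' | hod'
    · obtain ⟨k, hk⟩ := hev'
      obtain ⟨w, hwW, hw⟩ := hWs c
      refine ⟨g, Sym.mem hp hg, w, hwW, Or.inl ⟨k, by omega⟩, ?_⟩
      have h4 := h3 w (by
        rw [eq_comm, ← sub_eq_zero, ← map_sub, residue_eq_zero_iff]
        exact hw)
      have h5 := norm_pow_sub h k
      have hk4 : r / 4 = k := by omega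
      rw [hk4]
      have e : f - (g + τ g) - w * (ϖ * τ ϖ) ^ k =
          f - (g + τ g) - w * ϖ ^ s - w * ((ϖ * τ ϖ) ^ k - ϖ ^ (2 * k)) := by
        rw [show s = 2 * k by omega]; ring
      rw [e]
      rw [show 4 * k + 1 = r + 1 by omega] at h5
      exact Ideal.sub_mem _ h4 (Ideal.mul_mem_left _ w h5)
    · have h4 := h3 c rfl
      rw [hrs] at h4
      have h5 := odd_mem h ha hod' hinv h4
      exact hzero ((residue_eq_zero_iff c).mpr h5)
  · exact hzero (hodd hod)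
-- END N21

-- BEGIN N22
/-- TASK N22. Changing the parameters. `Par ϖ x'` by Nakayama (`Fil ϖ 2 = (ϖ) + m ^ 2`).
`x' = x + d`, `d i ∈ Fil ϖ 2`: `τ d - d ∈ Fil ϖ 3`, `x' ^ 2 - x ^ 2 = 2 x d + d ^ 2 ∈ Fil ϖ 3`,
`(M' - M) x ^ 2 ∈ m ^ 3`. The determinants are congruent modulo `m`. -/
theorem Adapted.change (h : Inv τ ϖ ε n) (ha : Adapted τ ϖ x M b) {x' : ι → D}
    {M' : ι → ι → D} (hx : ∀ i, x' i - x i ∈ Fil ϖ 2)
    (hM : ∀ i l, M' i l - M i l ∈ maximalIdeal D) : Adapted τ ϖ x' M' b := by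
  have hp := ha.par
  have hϖ := hp.mem
  have hdm : ∀ i, x' i - x i ∈ maximalIdeal D := fun i => by
    rw [← fil_one hϖ]
    exact fil_anti (by omega) (hx i)
  have hx'm : ∀ i, x' i ∈ maximalIdeal D := fun i => by
    have := Ideal.add_mem _ (hdm i) (hp.mem_x i)
    rwa [sub_add_cancel] at this
  refine ⟨⟨?_, hp.dim⟩, ?_, ?_⟩
  · refine le_antisymm ?_ ?_
    · refine Submodule.le_of_le_smul_of_le_jacobson_bot (I := maximalIdeal D)
        (IsNoetherian.noetherian _) (IsLocalRing.maximalIdeal_le_jacobson _) ?_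
      conv_lhs => rw [hp.span]
      rw [Ideal.span_le]
      rintro y (rfl | ⟨i, rfl⟩)
      · exact Ideal.mem_sup_left (Ideal.subset_span (Set.mem_insert _ _))
      · change x i ∈ (Ideal.span (insert ϖ (Set.range x')) ⊔
          maximalIdeal D • maximalIdeal D : Ideal D)
        have h1 := hx i
        rw [fil_two] at h1
        have h2 : (Ideal.span {ϖ} ⊔ maximalIdeal D ^ 2 : Ideal D) ≤
            Ideal.span (insert ϖ (Set.range x')) ⊔ maximalIdeal D • maximalIdeal D := by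
          refine sup_le_sup ?_ ?_
          · rw [Ideal.span_singleton_le_iff_mem]
            exact Ideal.subset_span (Set.mem_insert _ _)
          · rw [pow_two, smul_eq_mul]
        have h3 := h2 h1
        have h4 : x' i ∈ (Ideal.span (insert ϖ (Set.range x')) ⊔
            maximalIdeal D • maximalIdeal D : Ideal D) :=
          Ideal.mem_sup_left (Ideal.subset_span (Set.mem_insert_of_mem _ ⟨i, rfl⟩))
        have h5 := Ideal.sub_mem _ h4 h3
        rwa [sub_sub_cancel] at h5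
    · rw [Ideal.span_le]
      rintro y (rfl | ⟨i, rfl⟩)
      · exact hϖ
      · exact hx'm i
  · intro i
    have h1 := ha.eq i
    have h2 := sub_mem_fil h ha (hx i)
    have h3 : ∑ l, (M' i l * x' l ^ 2 - M i l * x l ^ 2) ∈ Fil ϖ 3 := by
      refine Ideal.sum_mem _ fun l _ => ?_
      have e : M' i l * x' l ^ 2 - M i l * x l ^ 2 = (M' i l - M i l) * (x' l * x' l) +
          M i l * ((x' l - x l) * (x' l + x l)) := by ring
      rw [e]
      refine Ideal.add_mem _ ?_ (Ideal.mul_mem_left _ _ ?_)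
      · refine mul_mem_fil (r := 1) (s := 2) ?_ (mul_mem_fil (r := 1) (s := 1) ?_ ?_)
        · rw [fil_one hϖ]; exact hM i l
        · rw [fil_one hϖ]; exact hx'm l
        · rw [fil_one hϖ]; exact hx'm l
      · refine mul_mem_fil (r := 2) (s := 1) (hx l) ?_
        rw [fil_one hϖ]
        exact Ideal.add_mem _ (hx'm l) (hp.mem_x l)
    rw [Finset.sum_sub_distrib] at h3
    have e : τ (x' i) - x' i - (∑ l, M' i l * x' l ^ 2 + b i * ϖ) =
        τ (x i) - x i - (∑ l, M i l * x l ^ 2 + b i * ϖ) +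
          (τ (x' i - x i) - (x' i - x i)) -
          (∑ l, M' i l * x' l ^ 2 - ∑ l, M i l * x l ^ 2) := by
      rw [map_sub]; ring
    rw [e]
    exact Ideal.sub_mem _ (Ideal.add_mem _ h1 h2) h3
  · have h1 := n19_det ha.det
    have e : (Matrix.of fun i l => residue D (M i l)) =
        (residue D).mapMatrix (Matrix.of M') := by
      ext i l
      change residue D (M i l) = residue D (M' i l)
      rw [eq_comm, ← sub_eq_zero, ← map_sub, residue_eq_zero_iff]
      exact hM i l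
    rw [e, ← RingHom.map_det] at h1
    rw [← residue_ne_zero_iff_isUnit]
    exact h1.ne_zero
-- END N22

-- BEGIN N23
theorem n23_invariant (h : Inv τ ϖ ε n) {c : D} (hc : τ c = c) (i : ι)
    (hM : ∀ i l, τ (M i l) = M i l) :
    τ (x i + τ (x i) - ∑ l, M i l * (x l * τ (x l)) - ϖ * τ ϖ * c) =
      x i + τ (x i) - ∑ l, M i l * (x l * τ (x l)) - ϖ * τ ϖ * c := by
  have e : τ (∑ l, M i l * (x l * τ (x l))) = ∑ l, M i l * (x l * τ (x l)) := by
    rw [map_sum]
    refine Finset.sum_congr rfl fun l _ => ?_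
    rw [map_mul, map_mul, hM, h.invol, mul_comm (τ (x l))]
  rw [map_sub, map_sub, e, map_add, h.invol, map_mul, map_mul, h.invol, hc]
  ring

theorem n23_expr (h : Inv τ ϖ ε n) (ha : Adapted τ ϖ x M b) (i : ι) :
    x i + τ (x i) - ∑ l, M i l * (x l * τ (x l)) - b i * ϖ ∈ Fil ϖ 3 := by
  have hϖ := ha.par.mem
  have h1 := ha.eq i
  have hx1 : ∀ l, x l ∈ Fil ϖ 1 := fun l => by
    rw [fil_one hϖ]
    exact ha.par.mem_x l
  have h2 : 2 * x i ∈ Fil ϖ 3 := two_mul_mem_fil h (hx1 i)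
  have h3 : ∑ l, (M i l * (x l * τ (x l)) - M i l * x l ^ 2) ∈ Fil ϖ 3 := by
    refine Ideal.sum_mem _ fun l _ => ?_
    have e : M i l * (x l * τ (x l)) - M i l * x l ^ 2 = M i l * (x l * (τ (x l) - x l)) := by
      ring
    rw [e]
    exact Ideal.mul_mem_left _ _ (mul_mem_fil (r := 1) (s := 2) (hx1 l)
      (sub_mem_fil_two h ha _))
  rw [Finset.sum_sub_distrib] at h3
  have e : x i + τ (x i) - ∑ l, M i l * (x l * τ (x l)) - b i * ϖ =
      τ (x i) - x i - (∑ l, M i l * x l ^ 2 + b i * ϖ) + 2 * x i -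
        (∑ l, M i l * (x l * τ (x l)) - ∑ l, M i l * x l ^ 2) := by ring
  rw [e]
  exact Ideal.sub_mem _ (Ideal.add_mem _ h1 h2) h3

/-- TASK N23. The constants `b` are not units. `f = x i + τ (x i) - ∑ l, M i l * (x l * τ (x l))` is
invariant and `f - b i * ϖ ∈ Fil ϖ 3` (`x l (τ (x l) - x l) ∈ Fil ϖ 3`, `2 x i ∈ Fil ϖ 3`);
`odd_mem` with `s = 1`. -/
theorem Adapted.b_mem (h : Inv τ ϖ ε n) (ha : Adapted τ ϖ x M b)
    (hM : ∀ i l, τ (M i l) = M i l) (i : ι) : b i ∈ maximalIdeal D := by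
  have h1 := n23_invariant (x := x) h (map_zero τ) i hM
  rw [mul_zero, sub_zero] at h1
  have h2 := n23_expr h ha i
  refine odd_mem h ha odd_one h1 ?_
  rw [pow_one]
  exact h2

/-- TASK N23. One step of the normalization. `F i` := the expression in `hx`, invariant.
`exists_trace` gives `g i ∈ Fil ϖ (r - 1)`, `w i`. `x' = x - g`, `c' i = c i + w i (ϖ τ ϖ) ^ (r / 4 - 1)`
if `4 ∣ r`, else `c i`. The new expression minus `F i - (g i + τ (g i)) - w i (ϖ τ ϖ) ^ (r / 4)` is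
`∑ l, M i l ((x l τ (g l)) + τ (x l τ (g l)) - g l τ (g l))`, where `x l τ (g l) ∈ Fil ϖ r` has trace
in `Fil ϖ (r + 1)` (`tr_mem_fil`) and `g τ g ∈ Fil ϖ (2 r - 2) ≤ Fil ϖ (r + 1)` as `r ≥ 3`. -/
theorem exists_iter_step (h : Inv τ ϖ ε n) (ha : Adapted τ ϖ x M b) (W : Subring D)
    (hW : ∀ w ∈ W, τ w = w) (hWs : ∀ a, ∃ w ∈ W, a - w ∈ maximalIdeal D)
    (hWn : ϖ * τ ϖ ∈ W) (hM : ∀ i l, M i l ∈ W) {r : ℕ} (hr : 3 ≤ r) {c : ι → D}
    (hc : ∀ i, c i ∈ W)
    (hx : ∀ i, x i + τ (x i) - ∑ l, M i l * (x l * τ (x l)) - ϖ * τ ϖ * c i ∈ Fil ϖ r) :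
    ∃ x' c' : ι → D, (∀ i, x' i - x i ∈ Fil ϖ 2) ∧ (∀ i, c' i ∈ W) ∧
      ∀ i, x' i + τ (x' i) - ∑ l, M i l * (x' l * τ (x' l)) - ϖ * τ ϖ * c' i ∈
        Fil ϖ (r + 1) := by
  have hϖ := ha.par.mem
  have hx1 : ∀ l, x l ∈ Fil ϖ 1 := fun l => by
    rw [fil_one hϖ]
    exact ha.par.mem_x l
  have h1 : ∀ i, ∃ g ∈ Fil ϖ (r - 1), ∃ w ∈ W, (4 ∣ r ∨ w = 0) ∧
      x i + τ (x i) - ∑ l, M i l * (x l * τ (x l)) - ϖ * τ ϖ * c i - (g + τ g) -
        w * (ϖ * τ ϖ) ^ (r / 4) ∈ Fil ϖ (r + 1) := fun i =>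
    exists_trace h ha W hW hWs (by omega)
      (n23_invariant h (hW _ (hc i)) i fun i l => hW _ (hM i l)) (hx i)
  choose g hg w hwW hw4 hgw using h1
  refine ⟨fun i => x i - g i, fun i => c i + w i * (ϖ * τ ϖ) ^ (r / 4 - 1), ?_, ?_, ?_⟩
  · intro i
    have e : x i - g i - x i = -g i := by ring
    rw [e]
    exact neg_mem (fil_anti (by omega) (hg i))
  · intro i
    exact W.add_mem (hc i) (W.mul_mem (hwW i) (W.pow_mem hWn _))
  · intro i
    have hpow : w i * (ϖ * τ ϖ) ^ (r / 4) = ϖ * τ ϖ * (w i * (ϖ * τ ϖ) ^ (r / 4 - 1)) := by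
      rcases hw4 i with h4 | h4
      · obtain ⟨k, hk⟩ := h4
        have e : r / 4 = (r / 4 - 1) + 1 := by omega
        conv_lhs => rw [e, pow_succ]
        ring
      · rw [h4]; ring
    have h2 : ∑ l, M i l * ((x l * τ (g l)) + τ (x l * τ (g l)) - g l * τ (g l)) ∈
        Fil ϖ (r + 1) := by
      refine Ideal.sum_mem _ fun l _ => Ideal.mul_mem_left _ _ ?_
      have hτg := map_mem_fil h ha (hg l)
      have h3 := mul_mem_fil (hx1 l) hτg
      rw [show 1 + (r - 1) = r by omega] at h3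
      refine Ideal.sub_mem _ (tr_mem_fil h ha h3) ?_
      exact fil_anti (by omega) (mul_mem_fil (hg l) hτg)
    have h3 := Ideal.add_mem _ (hgw i) h2
    have e : ∑ l, M i l * ((x l * τ (g l)) + τ (x l * τ (g l)) - g l * τ (g l)) =
        ∑ l, M i l * (x l * τ (x l)) - ∑ l, M i l * ((x l - g l) * τ (x l - g l)) := by
      rw [← Finset.sum_sub_distrib]
      refine Finset.sum_congr rfl fun l _ => ?_
      rw [map_mul, h.invol, map_sub]
      ring
    rw [e, hpow] at h3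
    have e2 : x i - g i + τ (x i - g i) - ∑ l, M i l * ((x l - g l) * τ (x l - g l)) -
        ϖ * τ ϖ * (c i + w i * (ϖ * τ ϖ) ^ (r / 4 - 1)) =
        x i + τ (x i) - ∑ l, M i l * (x l * τ (x l)) - ϖ * τ ϖ * c i - (g i + τ (g i)) -
        ϖ * τ ϖ * (w i * (ϖ * τ ϖ) ^ (r / 4 - 1)) +
        (∑ l, M i l * (x l * τ (x l)) - ∑ l, M i l * ((x l - g l) * τ (x l - g l))) := by
      rw [map_sub τ (x i)]; ring
    rw [e2]
    exact h3
-- END N23

-- BEGIN N24
/-- TASK N24. The normalization up to high order: induction on `r`. `r = 0`: `x' = x`, `c' = 0`, the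
expression is `b i ϖ` modulo `Fil ϖ 3` (as in `Adapted.b_mem`) and `b i ∈ m`. Step:
`exists_iter_step` for `x'`, and `Adapted.change` with `M' = M`. -/
theorem exists_iter (h : Inv τ ϖ ε n) (ha : Adapted τ ϖ x M b) (W : Subring D)
    (hW : ∀ w ∈ W, τ w = w) (hWs : ∀ a, ∃ w ∈ W, a - w ∈ maximalIdeal D)
    (hWn : ϖ * τ ϖ ∈ W) (hM : ∀ i l, M i l ∈ W) (r : ℕ) :
    ∃ x' c' : ι → D, Adapted τ ϖ x' M b ∧ (∀ i, c' i ∈ W) ∧
      ∀ i, x' i + τ (x' i) - ∑ l, M i l * (x' l * τ (x' l)) - ϖ * τ ϖ * c' i ∈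
        Fil ϖ (r + 3) := by
  induction r with
  | zero =>
    refine ⟨x, fun _ => 0, ha, fun _ => W.zero_mem, fun i => ?_⟩
    have h1 := n23_expr h ha i
    have h2 := ha.b_mem h (fun i l => hW _ (hM i l)) i
    have h3 : b i * ϖ ∈ Fil ϖ 3 := by
      have hb : b i ∈ Fil ϖ 1 := by
        rw [fil_one ha.par.mem]
        exact h2
      have := mul_mem_fil hb (pow_mem_fil (ϖ := ϖ) 1)
      rwa [pow_one] at this
    have h4 := Ideal.add_mem _ h1 h3
    rw [sub_add_cancel] at h4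
    rw [mul_zero, sub_zero]
    exact h4
  | succ r ih =>
    obtain ⟨x₁, c₁, h1, h2, h3⟩ := ih
    obtain ⟨x₂, c₂, h4, h5, h6⟩ := exists_iter_step h h1 W hW hWs hWn hM (by omega) h2 h3
    refine ⟨x₂, c₂, h1.change h h4 fun i l => ?_, h5, ?_⟩
    · rw [sub_self]
      exact Ideal.zero_mem _
    · intro i
      have h7 := h6 i
      rwa [show r + 3 + 1 = r + 1 + 3 by omega] at h7
-- END N24

end Pool.Agent.Lib.MP_6a3dac_ag.QD
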