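import Pool.Agent.Lib.MP_6a3dac_ag.QD.Sym

/-!
# The Koszul differential
-/

set_option autoImplicit false
set_option linter.unusedSectionVars false

namespace Pool.Agent.Lib.MP_6a3dac_ag.QD

open MvPolynomial

section Abs

variable {B ι : Type} [CommRing B] [Fintype ι] [DecidableEq ι]

/-- The Koszul differential (without signs) on the functions of the subsets of `ι`. -/
def kosD (q : ι → B) (F : Finset ι → B) (S : Finset ι) : B :=
  ∑ j ∈ Sᶜ, q j * F (insert j S)

-- BEGIN N7
omit [Fintype ι] [DecidableEq ι] in
theorem n7_neg (h2 : (2 : B) = 0) (x : B) : -x = x := by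
  have h : x + x = 0 := by rw [← two_mul, h2, zero_mul]
  exact neg_eq_of_add_eq_zero_left h

theorem n7_split (q : ι → B) (F : Finset ι → B) {j : ι} {S : Finset ι} (hj : j ∉ S) :
    kosD q F S = q j * F (insert j S) + ∑ l ∈ (insert j S)ᶜ, q l * F (insert l S) := by
  unfold kosD
  rw [Finset.compl_insert]
  exact (Finset.add_sum_erase Sᶜ (fun l => q l * F (insert l S)) (Finset.mem_compl.2 hj)).symm

theorem n7_add (q : ι → B) (F G : Finset ι → B) (S : Finset ι) :
    kosD q (fun S => F S + G S) S = kosD q F S + kosD q G S := by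
  unfold kosD
  rw [← Finset.sum_add_distrib]
  exact Finset.sum_congr rfl fun l _ => mul_add _ _ _

theorem n7_smul (q : ι → B) (a : B) (F : Finset ι → B) (S : Finset ι) :
    kosD q (fun S => a * F S) S = a * kosD q F S := by
  unfold kosD
  rw [Finset.mul_sum]
  exact Finset.sum_congr rfl fun l _ => mul_left_comm _ _ _

/-- the boundary of the functions supported on the singletons -/
theorem n7_single (q c : ι → B) (T : Finset ι) (S : Finset ι) :
    kosD q (fun S => ∑ l ∈ T, if S = {l} then c l else 0) S =
      if S = ∅ then ∑ l ∈ T, q l * c l else 0 := by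
  unfold kosD
  split_ifs with h
  · subst h
    simp only [Finset.compl_empty, Finset.mul_sum]
    rw [Finset.sum_comm]
    refine Finset.sum_congr rfl fun l _ => ?_
    rw [Finset.sum_eq_single l]
    · simp
    · intro m _ hm
      rw [if_neg, mul_zero]
      intro h
      rw [insert_empty_eq] at h
      exact hm (Finset.singleton_injective h)
    · intro h
      exact absurd (Finset.mem_univ l) h
  · refine Finset.sum_eq_zero fun m hm => ?_
    change q m * (∑ l ∈ T, if insert m S = {l} then c l else 0) = 0
    rw [Finset.sum_eq_zero, mul_zero]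
    intro l _
    rw [if_neg]
    intro h'
    apply h
    have h1 : (insert m S).card = S.card + 1 :=
      Finset.card_insert_of_notMem (Finset.mem_compl.1 hm)
    rw [h', Finset.card_singleton] at h1
    exact Finset.card_eq_zero.1 (by omega)

theorem n7_main (h2 : (2 : B) = 0) {q : ι → B}
    (hq : ∀ (T : Finset ι) (j : ι) (c : B), j ∉ T → q j * c ∈ Ideal.span (q '' T) →
      c ∈ Ideal.span (q '' T)) (T : Finset ι) : ∀ F : Finset ι → B, (∀ S, ¬ S ⊆ T → F S = 0) →
    (∀ S, kosD q F S = 0) → ∃ (H : Finset ι → B) (c : B), (∀ S, ¬ S ⊆ T → H S = 0) ∧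
      ∀ S, F S = kosD q H S + if S = ∅ then c else 0 := by
  have hneg := n7_neg h2
  have hself : ∀ x : B, x + x = 0 := fun x => by rw [← two_mul, h2, zero_mul]
  induction T using Finset.induction_on with
  | empty =>
    intro F hF _
    refine ⟨fun _ => 0, F ∅, fun _ _ => rfl, ?_⟩
    intro S
    have h0 : kosD q (fun _ => (0 : B)) S = 0 := by
      unfold kosD
      simp
    rw [h0, zero_add]
    split_ifs with h
    · rw [h]
    · exact hF S fun h' => h (Finset.subset_empty.1 h')
  | insert j T' hj ih =>
    intro F hF hD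
    -- the two parts
    set F₀ : Finset ι → B := fun S => if j ∈ S then 0 else F S with hF₀
    set F₁ : Finset ι → B := fun S => if j ∈ S then 0 else F (insert j S) with hF₁
    have s₀ : ∀ S, ¬ S ⊆ T' → F₀ S = 0 := by
      intro S hS
      simp only [hF₀]
      split_ifs with h
      · rfl
      · apply hF
        intro h'
        apply hS
        rwa [Finset.subset_insert_iff_of_notMem h] at h'
    have s₁ : ∀ S, ¬ S ⊆ T' → F₁ S = 0 := by
      intro S hS
      simp only [hF₁]
      split_ifs with h
      · rfl
      · apply hF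
        intro h'
        apply hS
        intro x hx
        have h3 := h' (Finset.mem_insert_of_mem hx)
        rw [Finset.mem_insert] at h3
        rcases h3 with rfl | h3
        · exact absurd hx h
        · exact h3
    have hins : ∀ S : Finset ι, j ∈ S → ¬ S ⊆ T' := fun S h h' => hj (h' h)
    -- the differential in terms of the parts
    have hD₁ : ∀ S, kosD q F₁ S = 0 := by
      intro S
      by_cases h : j ∈ S
      · unfold kosD
        refine Finset.sum_eq_zero fun l _ => ?_
        rw [s₁ _ (hins _ (Finset.mem_insert_of_mem h)), mul_zero]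
      · rw [n7_split q F₁ h, s₁ _ (hins _ (Finset.mem_insert_self _ _)), mul_zero, zero_add,
          ← hD (insert j S)]
        unfold kosD
        refine Finset.sum_congr rfl fun l hl => ?_
        rw [Finset.mem_compl, Finset.mem_insert, not_or] at hl
        simp only [hF₁]
        rw [if_neg (by
          rw [Finset.mem_insert, not_or]
          exact ⟨fun h => hl.1 h.symm, h⟩), Finset.insert_comm]
    have hD₀ : ∀ S, kosD q F₀ S = q j * F₁ S := by
      intro S
      by_cases h : j ∈ S
      · rw [s₁ S (hins S h), mul_zero]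
        unfold kosD
        refine Finset.sum_eq_zero fun l _ => ?_
        rw [s₀ _ (hins _ (Finset.mem_insert_of_mem h)), mul_zero]
      · have h1 := hD S
        rw [n7_split q F h] at h1
        rw [n7_split q F₀ h, s₀ _ (hins _ (Finset.mem_insert_self _ _)), mul_zero, zero_add]
        have h3 : ∑ l ∈ (insert j S)ᶜ, q l * F₀ (insert l S) =
            ∑ l ∈ (insert j S)ᶜ, q l * F (insert l S) := by
          refine Finset.sum_congr rfl fun l hl => ?_
          rw [Finset.mem_compl, Finset.mem_insert, not_or] at hl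
          simp only [hF₀]
          rw [if_neg (by
            rw [Finset.mem_insert, not_or]
            exact ⟨fun h => hl.1 h.symm, h⟩)]
        rw [h3]
        simp only [hF₁]
        rw [if_neg h]
        have h4 := eq_neg_of_add_eq_zero_right h1
        rw [h4, hneg]
    obtain ⟨H₁, c, sH₁, hH₁⟩ := ih F₁ s₁ hD₁
    -- the constant
    have hmem : q j * c ∈ Ideal.span (q '' T') := by
      have h1 : kosD q (fun S => F₀ S + q j * H₁ S) ∅ = q j * c := by
        rw [n7_add, n7_smul, hD₀, hH₁ ∅, if_pos rfl, mul_add, add_right_comm, hself, zero_add]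
      rw [← h1]
      unfold kosD
      refine Ideal.sum_mem _ fun l _ => ?_
      rw [insert_empty_eq]
      by_cases hl : l ∈ T'
      · exact Ideal.mul_mem_right _ _ (Ideal.subset_span ⟨l, hl, rfl⟩)
      · have h3 : ¬ ({l} : Finset ι) ⊆ T' := fun h' => hl (h' (Finset.mem_singleton_self l))
        change q l * (F₀ {l} + q j * H₁ {l}) ∈ _
        rw [s₀ _ h3, sH₁ _ h3, mul_zero, add_zero, mul_zero]
        exact Ideal.zero_mem _
    have hc := hq T' j c hj hmem
    obtain ⟨d, hd⟩ := (Submodule.mem_span_image_finset_iff_exists_fun' B).1 hc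
    have hd' : ∑ l ∈ T', q l * d l = c := by
      rw [← hd]
      refine Finset.sum_congr rfl fun l _ => ?_
      rw [smul_eq_mul, mul_comm]
    set H₁' : Finset ι → B := fun S => H₁ S + ∑ l ∈ T', if S = {l} then d l else 0 with hH₁'
    have sH₁' : ∀ S, ¬ S ⊆ T' → H₁' S = 0 := by
      intro S hS
      simp only [hH₁']
      rw [sH₁ S hS, zero_add]
      refine Finset.sum_eq_zero fun l hl => ?_
      rw [if_neg]
      intro h
      apply hS
      rw [h, Finset.singleton_subset_iff]
      exact hl
    have e₁ : ∀ S, F₁ S = kosD q H₁' S := by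
      intro S
      simp only [hH₁']
      rw [n7_add, n7_single, hd']
      exact hH₁ S
    have hG : ∀ S, kosD q (fun S => F₀ S + q j * H₁' S) S = 0 := by
      intro S
      rw [n7_add, n7_smul, hD₀, e₁, hself]
    obtain ⟨H₀, c', sH₀, hH₀⟩ := ih (fun S => F₀ S + q j * H₁' S) (by
      intro S hS
      rw [s₀ S hS, sH₁' S hS, mul_zero, add_zero]) hG
    refine ⟨fun S => if j ∈ S then H₁' (S.erase j) else H₀ S, c', ?_, ?_⟩
    · intro S hS
      change (if j ∈ S then H₁' (S.erase j) else H₀ S) = 0
      split_ifs with h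
      · apply sH₁'
        intro h'
        apply hS
        rwa [Finset.subset_insert_iff]
      · apply sH₀
        intro h'
        exact hS (h'.trans (Finset.subset_insert _ _))
    · intro S
      by_cases h : j ∈ S
      · rw [if_neg (fun h' => by rw [h'] at h; exact absurd h (Finset.notMem_empty j)), add_zero]
        have hSj : insert j (S.erase j) = S := Finset.insert_erase h
        have hn : j ∉ S.erase j := Finset.notMem_erase j S
        have h1 : F S = F₁ (S.erase j) := by
          simp only [hF₁]
          rw [if_neg hn, hSj]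
        rw [h1, e₁, n7_split q H₁' hn, sH₁' _ (hins _ (Finset.mem_insert_self _ _)), mul_zero,
          zero_add, hSj]
        unfold kosD
        refine Finset.sum_congr rfl fun l hl => ?_
        rw [Finset.mem_compl] at hl
        change _ = q l * (if j ∈ insert l S then H₁' ((insert l S).erase j) else H₀ (insert l S))
        rw [if_pos (Finset.mem_insert_of_mem h), Finset.erase_insert_of_ne]
        rintro rfl
        exact hl h
      · have h1 : F S = F₀ S := by
          simp only [hF₀]
          rw [if_neg h]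
        have h3 : F₀ S = (kosD q H₀ S + if S = ∅ then c' else 0) + q j * H₁' S := by
          rw [← hH₀ S, add_assoc, hself, add_zero]
        rw [h1, h3, n7_split q H₀ h, sH₀ _ (hins _ (Finset.mem_insert_self _ _)), mul_zero,
          zero_add, n7_split q _ h]
        have h4 : ∑ l ∈ (insert j S)ᶜ, q l *
            (if j ∈ insert l S then H₁' ((insert l S).erase j) else H₀ (insert l S)) =
            ∑ l ∈ (insert j S)ᶜ, q l * H₀ (insert l S) := by
          refine Finset.sum_congr rfl fun l hl => ?_
          rw [Finset.mem_compl, Finset.mem_insert, not_or] at hl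
          rw [if_neg (by
            rw [Finset.mem_insert, not_or]
            exact ⟨fun h => hl.1 h.symm, h⟩)]
        rw [h4, if_pos (Finset.mem_insert_self _ _), Finset.erase_insert h]
        ring

/-- TASK N7. Exactness of the Koszul complex of a regular sequence, `2 = 0`. Prove by induction on
`T : Finset ι` the same statement for `F` with `F S = 0` unless `S ⊆ T` (then `H` can be chosen
with the same property), with `T = insert j T'`: write `F₀` = restriction of `F` to subsets of
`T'`, `F₁ S = F (insert j S)` for `S ⊆ T'`, `d'` the differential for `T'`. `dF = 0` means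
`d'F₁ = 0` and `d'F₀ = q_j F₁` (sign: `2 = 0`). By induction `F₁ = d'H₁ + c δ` (`δ` = indicator of
`∅`). `d'(F₀ + q_j H₁) = q_j c δ`, at `∅`: `q_j c ∈ span (q '' T')`, so `c = ∑ l ∈ T', q_l c_l` by
`hq`, so `c δ = d'C`, `C {l} = c_l`. Replace `H₁` by `H₁ + C`: `F₁ = d'H₁`, `d'(F₀ + q_j H₁) = 0`,
`F₀ + q_j H₁ = d'H₀ + c' δ`, and `H = (H₀, H₁)` works with the constant `c'`. -/
theorem kosD_exact (h2 : (2 : B) = 0) {q : ι → B}
    (hq : ∀ (T : Finset ι) (j : ι) (c : B), j ∉ T → q j * c ∈ Ideal.span (q '' T) →
      c ∈ Ideal.span (q '' T)) {F : Finset ι → B} (hF : ∀ S, kosD q F S = 0) :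
    ∃ (H : Finset ι → B) (c : B), ∀ S, F S = kosD q H S + if S = ∅ then c else 0 := by
  obtain ⟨H, c, -, h⟩ := n7_main h2 hq Finset.univ F
    (fun S hS => absurd (Finset.subset_univ S) hS) hF
  exact ⟨H, c, h⟩
-- END N7

end Abs

section Lin

variable {κ ι : Type} [Field κ] [Fintype ι] [DecidableEq ι]

/-- The linear forms `∑ M_jl Y_l + b_j w`. -/
noncomputable def linF (M : ι → ι → κ) (b : ι → κ) (j : ι) : MvPolynomial (Option ι) κ :=
  ∑ l, C (M j l) * X (some l) + C (b j) * X none

-- BEGIN N8
/-- the substitution `Y_j ↦ linF M b j` -/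
noncomputable def n8_phi (M : ι → ι → κ) (b : ι → κ) :
    MvPolynomial (Option ι) κ →ₐ[κ] MvPolynomial (Option ι) κ :=
  aeval fun o => o.elim (X none) (linF M b)

/-- the inverse substitution -/
noncomputable def n8_psi (M : ι → ι → κ) (b : ι → κ) :
    MvPolynomial (Option ι) κ →ₐ[κ] MvPolynomial (Option ι) κ :=
  aeval fun o => o.elim (X none) fun l =>
    ∑ j, C ((Matrix.of M)⁻¹ l j) * (X (some j) - C (b j) * X none)

theorem n8_phi_none (M : ι → ι → κ) (b : ι → κ) : n8_phi M b (X none) = X none := by
  rw [n8_phi, aeval_X]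
  rfl

theorem n8_phi_some (M : ι → ι → κ) (b : ι → κ) (j : ι) :
    n8_phi M b (X (some j)) = linF M b j := by
  rw [n8_phi, aeval_X]
  rfl

theorem n8_psi_none (M : ι → ι → κ) (b : ι → κ) : n8_psi M b (X none) = X none := by
  rw [n8_psi, aeval_X]
  rfl

theorem n8_psi_some (M : ι → ι → κ) (b : ι → κ) (l : ι) : n8_psi M b (X (some l)) =
    ∑ j, C ((Matrix.of M)⁻¹ l j) * (X (some j) - C (b j) * X none) := by
  rw [n8_psi, aeval_X]
  rfl

theorem n8_phi_C (M : ι → ι → κ) (b : ι → κ) (a : κ) : n8_phi M b (C a) = C a := by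
  rw [n8_phi, aeval_C]
  rfl

theorem n8_psi_C (M : ι → ι → κ) (b : ι → κ) (a : κ) : n8_psi M b (C a) = C a := by
  rw [n8_psi, aeval_C]
  rfl

/-- sums with a matrix and its inverse -/
theorem n8_sum {A A' : Matrix ι ι κ} (h : A * A' = 1) (Y : ι → MvPolynomial (Option ι) κ)
    (l : ι) : ∑ j, C (A l j) * ∑ m, C (A' j m) * Y m = Y l := by
  simp only [Finset.mul_sum, ← mul_assoc, ← C_mul]
  rw [Finset.sum_comm]
  have h1 : ∀ m, ∑ j, C (A l j * A' j m) * Y m = C ((A * A') l m) * Y m := by
    intro m
    rw [Matrix.mul_apply, map_sum, Finset.sum_mul]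
  rw [Finset.sum_congr rfl fun m _ => h1 m, h, Finset.sum_eq_single l]
  · rw [Matrix.one_apply_eq, C_1, one_mul]
  · intro m _ hm
    rw [Matrix.one_apply_ne hm.symm, C_0, zero_mul]
  · intro hl
    exact absurd (Finset.mem_univ l) hl

theorem n8_phi_psi {M : ι → ι → κ} (b : ι → κ) (hM : IsUnit (Matrix.of M).det)
    (c : MvPolynomial (Option ι) κ) : n8_phi M b (n8_psi M b c) = c := by
  have h : (n8_phi M b).comp (n8_psi M b) = AlgHom.id κ _ := by
    apply MvPolynomial.algHom_ext
    intro o
    rw [AlgHom.comp_apply, AlgHom.id_apply]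
    cases o with
    | none => rw [n8_psi_none, n8_phi_none]
    | some l =>
      rw [n8_psi_some, map_sum]
      have h1 : ∀ j, n8_phi M b (C ((Matrix.of M)⁻¹ l j) * (X (some j) - C (b j) * X none)) =
          C ((Matrix.of M)⁻¹ l j) * ∑ m, C (Matrix.of M j m) * X (some m) := by
        intro j
        rw [map_mul, map_sub, map_mul, n8_phi_C, n8_phi_C, n8_phi_none, n8_phi_some, linF,
          add_sub_cancel_right]
        rfl
      rw [Finset.sum_congr rfl fun j _ => h1 j]
      exact n8_sum (Matrix.nonsing_inv_mul _ hM) (fun m => X (some m)) l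
  exact AlgHom.congr_fun h c

theorem n8_psi_phi {M : ι → ι → κ} (b : ι → κ) (hM : IsUnit (Matrix.of M).det)
    (c : MvPolynomial (Option ι) κ) : n8_psi M b (n8_phi M b c) = c := by
  have h : (n8_psi M b).comp (n8_phi M b) = AlgHom.id κ _ := by
    apply MvPolynomial.algHom_ext
    intro o
    rw [AlgHom.comp_apply, AlgHom.id_apply]
    cases o with
    | none => rw [n8_phi_none, n8_psi_none]
    | some l =>
      rw [n8_phi_some, linF, map_add, map_sum, map_mul, n8_psi_C, n8_psi_none]
      have h1 : ∀ j, n8_psi M b (C (M l j) * X (some j)) =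
          C (Matrix.of M l j) * ∑ m, C ((Matrix.of M)⁻¹ j m) * (X (some m) - C (b m) * X none) := by
        intro j
        rw [map_mul, n8_psi_C, n8_psi_some]
        rfl
      rw [Finset.sum_congr rfl fun j _ => h1 j,
        n8_sum (Matrix.mul_nonsing_inv _ hM) (fun m => X (some m) - C (b m) * X none) l,
        sub_add_cancel]
  exact AlgHom.congr_fun h c

theorem n8_psi_linF {M : ι → ι → κ} (b : ι → κ) (hM : IsUnit (Matrix.of M).det) (j : ι) :
    n8_psi M b (linF M b j) = X (some j) := by
  rw [← n8_phi_some, n8_psi_phi b hM]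

/-- transport of membership -/
theorem n8_map {f : MvPolynomial (Option ι) κ →ₐ[κ] MvPolynomial (Option ι) κ}
    {u v : ι → MvPolynomial (Option ι) κ} (hf : ∀ j, f (u j) = v j) {T : Finset ι}
    {c : MvPolynomial (Option ι) κ} (h : c ∈ Ideal.span (u '' T)) :
    f c ∈ Ideal.span (v '' T) := by
  have h1 := Ideal.mem_map_of_mem f h
  rw [Ideal.map_span, ← Set.image_comp] at h1
  have h2 : (f ∘ u) = v := funext hf
  rwa [h2] at h1

/-- TASK N8. The linear forms `linF M b j` form a regular sequence in any order. There is an algebra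
automorphism `Φ` of `κ[w, Y]` with `Φ (X none) = X none`, `Φ (Y_j) = linF M b j` (inverse:
`Y_l ↦ ∑ j, M⁻¹ l j * (Y_j - b_j w)`). So it is enough to show: `j ∉ T`,
`X (some j) * c ∈ span (X '' (some '' T))` implies `c ∈ span (..)`: `MvPolynomial.mem_ideal_span_X_image`. -/
theorem linF_regular {M : ι → ι → κ} {b : ι → κ} (hM : IsUnit (Matrix.of M).det) (T : Finset ι)
    (j : ι) (c : MvPolynomial (Option ι) κ) (hj : j ∉ T)
    (h : linF M b j * c ∈ Ideal.span (linF M b '' T)) : c ∈ Ideal.span (linF M b '' T) := by
  have h1 := n8_map (f := n8_psi M b) (v := fun j => X (some j)) (n8_psi_linF b hM) h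
  rw [map_mul, n8_psi_linF b hM] at h1
  have himg : (fun j : ι => (X (some j) : MvPolynomial (Option ι) κ)) '' T =
      X '' (some '' (T : Set ι)) := by
    rw [← Set.image_comp]
    rfl
  rw [himg, mem_ideal_span_X_image] at h1
  have h2 : n8_psi M b c ∈ Ideal.span ((fun j : ι => (X (some j) : MvPolynomial (Option ι) κ)) '' T) := by
    rw [himg, mem_ideal_span_X_image]
    intro m hm
    have h3 : Finsupp.single (some j) 1 + m ∈ (X (some j) * n8_psi M b c).support := by
      rw [support_X_mul, Finset.mem_map]
      exact ⟨m, hm, rfl⟩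
    obtain ⟨i, hi, hmi⟩ := h1 _ h3
    refine ⟨i, hi, ?_⟩
    obtain ⟨t, ht, rfl⟩ := hi
    have htj : (some j : Option ι) ≠ some t := by
      intro h'
      rw [Option.some.injEq] at h'
      subst h'
      exact hj ht
    rwa [Finsupp.add_apply, Finsupp.single_eq_of_ne' htj, zero_add] at hmi
  have h4 := n8_map (f := n8_phi M b) (v := linF M b) (n8_phi_some M b) h2
  rwa [n8_phi_psi b hM] at h4

theorem n8_quot (d : MvPolynomial (Option ι) κ) :
    ∃ (q : Polynomial κ) (a : ι → MvPolynomial (Option ι) κ),
      d = Polynomial.aeval (X none) q + ∑ j, X (some j) * a j := by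
  induction d using MvPolynomial.induction_on with
  | C a =>
    refine ⟨Polynomial.C a, fun _ => 0, ?_⟩
    rw [Polynomial.aeval_C]
    simp
  | add p p' hp hp' =>
    obtain ⟨q, a, rfl⟩ := hp
    obtain ⟨q', a', rfl⟩ := hp'
    refine ⟨q + q', fun j => a j + a' j, ?_⟩
    rw [map_add]
    simp only [mul_add, Finset.sum_add_distrib]
    ring
  | mul_X p o hp =>
    obtain ⟨q, a, rfl⟩ := hp
    cases o with
    | none =>
      refine ⟨q * Polynomial.X, fun j => a j * X none, ?_⟩
      rw [map_mul, Polynomial.aeval_X, add_mul, Finset.sum_mul]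
      congr 1
      exact Finset.sum_congr rfl fun j _ => mul_assoc _ _ _
    | some l =>
      refine ⟨0, fun j => if j = l then (Polynomial.aeval (X none) q + ∑ j, X (some j) * a j)
        else 0, ?_⟩
      rw [map_zero, zero_add]
      simp only [mul_ite, mul_zero, Finset.sum_ite_eq', Finset.mem_univ, if_true]
      exact mul_comm _ _

/-- TASK N8. Modulo the linear forms everything is a polynomial in `w` (by induction on `c`, since
`Y_l ≡ - ∑ j, M⁻¹ l j b_j w`). -/
theorem linF_quot {M : ι → ι → κ} {b : ι → κ} (hM : IsUnit (Matrix.of M).det)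
    (c : MvPolynomial (Option ι) κ) : ∃ (q : Polynomial κ) (a : ι → MvPolynomial (Option ι) κ),
      c = Polynomial.aeval (X none) q + ∑ j, linF M b j * a j := by
  obtain ⟨q, a, h⟩ := n8_quot (n8_psi M b c)
  refine ⟨q, fun j => n8_phi M b (a j), ?_⟩
  have h1 := congrArg (n8_phi M b) h
  rw [n8_phi_psi b hM, map_add, map_sum, ← Polynomial.aeval_algHom_apply, n8_phi_none] at h1
  rw [h1]
  congr 1
  refine Finset.sum_congr rfl fun j _ => ?_
  rw [map_mul, n8_phi_some]

/-- TASK N8. Apply the algebra map `κ[w, Y] → κ[w]` which kills all `linF M b j`. -/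
theorem linF_zero {M : ι → ι → κ} {b : ι → κ} (hM : IsUnit (Matrix.of M).det) {q : Polynomial κ}
    {a : ι → MvPolynomial (Option ι) κ}
    (h : Polynomial.aeval (X none : MvPolynomial (Option ι) κ) q = ∑ j, linF M b j * a j) :
    q = 0 := by
  have h1 := congrArg (n8_psi M b) h
  rw [map_sum, ← Polynomial.aeval_algHom_apply, n8_psi_none] at h1
  set θ : MvPolynomial (Option ι) κ →ₐ[κ] Polynomial κ :=
    aeval fun o => o.elim Polynomial.X fun _ => 0 with hθ
  have h2 := congrArg θ h1
  have hn : θ (X none) = Polynomial.X := by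
    rw [hθ, aeval_X]
    rfl
  have hs : ∀ j : ι, θ (X (some j)) = 0 := by
    intro j
    rw [hθ, aeval_X]
    rfl
  rw [map_sum, ← Polynomial.aeval_algHom_apply, hn, Polynomial.aeval_X_left_apply] at h2
  rw [h2]
  refine Finset.sum_eq_zero fun j _ => ?_
  rw [map_mul, n8_psi_linF b hM, map_mul, hs, zero_mul]
-- END N8

end Lin

/-- The derivation of `κ[w, X_i]` with `w ↦ 0` and `X_j ↦ ∑ M_jl X_l ^ 2 + b_j w`. -/
noncomputable def Tder {κ ι : Type} [CommRing κ] [Fintype ι] (M : ι → ι → κ) (b : ι → κ) :
    Derivation κ (MvPolynomial (Option ι) κ) (MvPolynomial (Option ι) κ) :=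
  mkDerivation κ fun o => o.elim 0 fun j =>
    ∑ l, C (M j l) * X (some l) ^ 2 + C (b j) * X none

/-- The map `w ↦ w`, `Y_l ↦ X_l ^ 2`. -/
noncomputable def sqMap (κ ι : Type) [CommRing κ] :
    MvPolynomial (Option ι) κ →ₐ[κ] MvPolynomial (Option ι) κ :=
  aeval fun o => o.elim (X none) fun l => X (some l) ^ 2

/-- The polynomial with the coefficients `F` with respect to the squarefree monomials. -/
noncomputable def psi {κ ι : Type} [CommRing κ] [Fintype ι] [DecidableEq ι]
    (F : Finset ι → MvPolynomial (Option ι) κ) : MvPolynomial (Option ι) κ :=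
  ∑ S : Finset ι, sqMap κ ι (F S) * ∏ l ∈ S, X (some l)

section

variable {κ ι : Type} [Field κ] [CharP κ 2] [Fintype ι] {M : ι → ι → κ} {b : ι → κ}

theorem tder_none : Tder M b (X none) = 0 := by
  rw [Tder, mkDerivation_X]
  rfl

theorem tder_some (j : ι) : Tder M b (X (some j)) =
    ∑ l, C (M j l) * X (some l) ^ 2 + C (b j) * X none := by
  rw [Tder, mkDerivation_X]
  rfl

-- BEGIN N9
/-- add or remove the element `j` -/
def n9_tog {ι : Type} [DecidableEq ι] (j : ι) (S : Finset ι) : Finset ι :=
  if j ∈ S then S.erase j else insert j S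

theorem n9_tog_tog {ι : Type} [DecidableEq ι] (j : ι) (S : Finset ι) :
    n9_tog j (n9_tog j S) = S := by
  unfold n9_tog
  by_cases h : j ∈ S
  · rw [if_pos h, if_neg (Finset.notMem_erase j S), Finset.insert_erase h]
  · rw [if_neg h, if_pos (Finset.mem_insert_self j S), Finset.erase_insert h]

theorem n9_sum_tog {ι A : Type} [Fintype ι] [DecidableEq ι] [AddCommMonoid A] (j : ι)
    (f : Finset ι → A) : ∑ S, f (n9_tog j S) = ∑ S, f S :=
  Equiv.sum_comp (Function.Involutive.toPerm (n9_tog j) (n9_tog_tog j)) f

omit [CharP κ 2] [Fintype ι] in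
theorem n9_sq_none : sqMap κ ι (X none) = X none := by
  rw [sqMap, aeval_X]
  rfl

omit [CharP κ 2] [Fintype ι] in
theorem n9_sq_some (j : ι) : sqMap κ ι (X (some j)) = X (some j) ^ 2 := by
  rw [sqMap, aeval_X]
  rfl

/-- TASK N9. Write each monomial as (square part) times (squarefree part). -/
theorem psi_surjective [DecidableEq ι] (P : MvPolynomial (Option ι) κ) : ∃ F, psi F = P := by
  induction P using MvPolynomial.induction_on with
  | C a =>
    refine ⟨fun S => if S = ∅ then C a else 0, ?_⟩
    unfold psi
    rw [Finset.sum_eq_single ∅]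
    · beta_reduce
      rw [if_pos rfl, Finset.prod_empty, mul_one, sqMap, aeval_C]
      rfl
    · intro S _ hS
      beta_reduce
      rw [if_neg hS, map_zero, zero_mul]
    · intro h
      exact absurd (Finset.mem_univ _) h
  | add p p' hp hp' =>
    obtain ⟨F, rfl⟩ := hp
    obtain ⟨F', rfl⟩ := hp'
    refine ⟨fun S => F S + F' S, ?_⟩
    unfold psi
    rw [← Finset.sum_add_distrib]
    exact Finset.sum_congr rfl fun S _ => by rw [map_add, add_mul]
  | mul_X p o hp =>
    obtain ⟨F, rfl⟩ := hp
    cases o with
    | none =>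
      refine ⟨fun S => F S * X none, ?_⟩
      unfold psi
      rw [Finset.sum_mul]
      exact Finset.sum_congr rfl fun S _ => by rw [map_mul, n9_sq_none]; ring
    | some j =>
      refine ⟨fun S => if j ∈ S then F (S.erase j) else X (some j) * F (insert j S), ?_⟩
      unfold psi
      rw [← n9_sum_tog j, Finset.sum_mul]
      refine Finset.sum_congr rfl fun S _ => ?_
      unfold n9_tog
      beta_reduce
      by_cases h : j ∈ S
      · rw [if_pos h, if_neg (Finset.notMem_erase j S), Finset.insert_erase h, map_mul,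
          n9_sq_some, ← Finset.mul_prod_erase S (fun l => (X (some l) : MvPolynomial (Option ι) κ)) h]
        ring
      · rw [if_neg h, if_pos (Finset.mem_insert_self j S), Finset.erase_insert h,
          Finset.prod_insert h]
        ring

/-- double the exponents of the `X_l` -/
noncomputable def n9_dbl {ι : Type} [Fintype ι] (d : Option ι →₀ ℕ) : Option ι →₀ ℕ :=
  Finsupp.equivFunOnFinite.symm fun o => o.elim (d none) fun l => 2 * d (some l)

/-- halve the exponents of the `X_l` -/
noncomputable def n9_half {ι : Type} [Fintype ι] (d : Option ι →₀ ℕ) : Option ι →₀ ℕ :=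
  Finsupp.equivFunOnFinite.symm fun o => o.elim (d none) fun l => d (some l) / 2

/-- the exponent of a squarefree monomial -/
noncomputable def n9_ind {ι : Type} [Fintype ι] [DecidableEq ι] (S : Finset ι) :
    Option ι →₀ ℕ :=
  Finsupp.equivFunOnFinite.symm fun o => o.elim 0 fun l => if l ∈ S then 1 else 0

theorem n9_dbl_none {ι : Type} [Fintype ι] (d : Option ι →₀ ℕ) : n9_dbl d none = d none := rfl

theorem n9_dbl_some {ι : Type} [Fintype ι] (d : Option ι →₀ ℕ) (l : ι) :
    n9_dbl d (some l) = 2 * d (some l) := rfl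

theorem n9_half_none {ι : Type} [Fintype ι] (d : Option ι →₀ ℕ) : n9_half d none = d none := rfl

theorem n9_half_some {ι : Type} [Fintype ι] (d : Option ι →₀ ℕ) (l : ι) :
    n9_half d (some l) = d (some l) / 2 := rfl

theorem n9_ind_none {ι : Type} [Fintype ι] [DecidableEq ι] (S : Finset ι) :
    n9_ind S none = 0 := rfl

theorem n9_ind_some {ι : Type} [Fintype ι] [DecidableEq ι] (S : Finset ι) (l : ι) :
    n9_ind S (some l) = if l ∈ S then 1 else 0 := rfl

theorem n9_half_dbl {ι : Type} [Fintype ι] (d : Option ι →₀ ℕ) : n9_half (n9_dbl d) = d := by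
  ext o
  cases o with
  | none => rfl
  | some l => rw [n9_half_some, n9_dbl_some]; omega

omit [CharP κ 2] in
theorem n9_sq_monomial (u : Option ι →₀ ℕ) (a : κ) :
    sqMap κ ι (monomial u a) = monomial (n9_dbl u) a := by
  rw [sqMap, aeval_monomial, monomial_eq (s := n9_dbl u), Finsupp.prod_fintype _ _ (by simp),
    Finsupp.prod_fintype _ _ (by simp), Fintype.prod_option, Fintype.prod_option, n9_dbl_none]
  have h : ∀ l : ι, (X (some l) ^ 2 : MvPolynomial (Option ι) κ) ^ u (some l) =
      X (some l) ^ n9_dbl u (some l) := by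
    intro l
    rw [n9_dbl_some, pow_mul]
  congr 2
  exact Finset.prod_congr rfl fun l _ => h l

omit [CharP κ 2] in
theorem n9_prod [DecidableEq ι] (S : Finset ι) :
    ∏ l ∈ S, (X (some l) : MvPolynomial (Option ι) κ) = monomial (n9_ind S) 1 := by
  rw [monomial_eq, Finsupp.prod_fintype _ _ (by simp), Fintype.prod_option, n9_ind_none, C_1,
    pow_zero, one_mul, one_mul]
  simp only [n9_ind_some, pow_ite, pow_one, pow_zero, Finset.prod_ite_mem, Finset.univ_inter]

open Classical in
omit [CharP κ 2] in
theorem n9_coeff_sq (P : MvPolynomial (Option ι) κ) (e : Option ι →₀ ℕ) :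
    coeff e (sqMap κ ι P) = if ∀ l : ι, e (some l) % 2 = 0 then coeff (n9_half e) P else 0 := by
  induction P using MvPolynomial.induction_on' with
  | monomial u a =>
    rw [n9_sq_monomial, coeff_monomial, coeff_monomial]
    by_cases h : ∀ l : ι, e (some l) % 2 = 0
    · rw [if_pos h]
      have h1 : n9_dbl u = e ↔ u = n9_half e := by
        constructor
        · rintro rfl
          rw [n9_half_dbl]
        · rintro rfl
          ext o
          cases o with
          | none => rfl
          | some l =>
            rw [n9_dbl_some, n9_half_some]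
            have := h l
            omega
      simp only [h1]
    · rw [if_neg h, if_neg]
      rintro rfl
      apply h
      intro l
      rw [n9_dbl_some]
      omega
  | add p q hp hq =>
    rw [map_add, coeff_add, coeff_add, hp, hq]
    split_ifs
    · rfl
    · rw [add_zero]

omit [CharP κ 2] in
theorem n9_coeff_psi [DecidableEq ι] (F : Finset ι → MvPolynomial (Option ι) κ) (S : Finset ι)
    (d : Option ι →₀ ℕ) : coeff (n9_dbl d + n9_ind S) (psi F) = coeff d (F S) := by
  unfold psi
  rw [coeff_sum, Finset.sum_eq_single S]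
  · rw [n9_prod, coeff_mul_monomial, mul_one, n9_coeff_sq, if_pos, n9_half_dbl]
    intro l
    rw [n9_dbl_some]
    omega
  · intro S' _ hS'
    rw [n9_prod, coeff_mul_monomial']
    split_ifs with h
    · rw [mul_one, n9_coeff_sq, if_neg]
      intro hall
      apply hS'
      ext l
      have h1 := hall l
      have h2 := h (some l)
      rw [Finsupp.tsub_apply, Finsupp.add_apply, n9_dbl_some, n9_ind_some, n9_ind_some] at h1
      rw [Finsupp.add_apply, n9_dbl_some, n9_ind_some, n9_ind_some] at h2
      by_cases e1 : l ∈ S' <;> by_cases e2 : l ∈ S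
      · exact ⟨fun _ => e2, fun _ => e1⟩
      · rw [if_pos e1, if_neg e2] at h1 h2
        omega
      · rw [if_neg e1, if_pos e2] at h1 h2
        omega
      · exact ⟨fun h => absurd h e1, fun h => absurd h e2⟩
    · rfl
  · intro h
    exact absurd (Finset.mem_univ _) h

/-- TASK N9. The coefficient of `psi F` at `w ^ a X ^ (2 β + 1_S)` is the coefficient of `F S` at
`w ^ a Y ^ β`. -/
theorem psi_injective [DecidableEq ι] : Function.Injective (psi (κ := κ) (ι := ι)) := by
  intro F G h
  funext S
  ext d
  rw [← n9_coeff_psi F S d, ← n9_coeff_psi G S d, h]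
-- END N9

-- BEGIN N10
/-- add or remove the element `j` -/
def n10_tog {ι : Type} [DecidableEq ι] (j : ι) (S : Finset ι) : Finset ι :=
  if j ∈ S then S.erase j else insert j S

theorem n10_tog_tog {ι : Type} [DecidableEq ι] (j : ι) (S : Finset ι) :
    n10_tog j (n10_tog j S) = S := by
  unfold n10_tog
  by_cases h : j ∈ S
  · rw [if_pos h, if_neg (Finset.notMem_erase j S), Finset.insert_erase h]
  · rw [if_neg h, if_pos (Finset.mem_insert_self j S), Finset.erase_insert h]

theorem n10_sum_tog {ι A : Type} [Fintype ι] [DecidableEq ι] [AddCommMonoid A] (j : ι)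
    (f : Finset ι → A) : ∑ S, f (n10_tog j S) = ∑ S, f S :=
  Equiv.sum_comp (Function.Involutive.toPerm (n10_tog j) (n10_tog_tog j)) f

theorem n10_two (x : MvPolynomial (Option ι) κ) : x + x = 0 := by
  have h : (2 : κ) = 0 := by
    have := CharP.cast_eq_zero κ 2
    exact_mod_cast this
  have h1 : x + x = C (2 : κ) * x := by
    rw [show (2 : κ) = 1 + 1 by norm_num, C_add, C_1]
    ring
  rw [h1, h, C_0, zero_mul]

theorem n10_tder_sq (P : MvPolynomial (Option ι) κ) : Tder M b (sqMap κ ι P) = 0 := by
  induction P using MvPolynomial.induction_on with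
  | C a =>
    rw [sqMap, aeval_C]
    exact Derivation.map_algebraMap _ a
  | add p q hp hq => rw [map_add, map_add, hp, hq, add_zero]
  | mul_X p o hp =>
    rw [map_mul, Derivation.leibniz, hp, smul_zero, add_zero]
    cases o with
    | none =>
      have h : sqMap κ ι (X none) = X none := by
        rw [sqMap, aeval_X]
        rfl
      rw [h, tder_none, smul_zero]
    | some j =>
      have h : sqMap κ ι (X (some j)) = X (some j) ^ 2 := by
        rw [sqMap, aeval_X]
        rfl
      rw [h, sq, Derivation.leibniz, n10_two, smul_zero]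

theorem n10_sq_linF (j : ι) : sqMap κ ι (linF M b j) = Tder M b (X (some j)) := by
  rw [tder_some, linF, map_add, map_sum, map_mul]
  have h0 : ∀ a : κ, sqMap κ ι (C a) = C a := by
    intro a
    rw [sqMap, aeval_C]
    rfl
  have h1 : sqMap κ ι (X none) = X none := by
    rw [sqMap, aeval_X]
    rfl
  rw [h0, h1]
  congr 1
  refine Finset.sum_congr rfl fun l _ => ?_
  have h2 : sqMap κ ι (X (some l)) = X (some l) ^ 2 := by
    rw [sqMap, aeval_X]
    rfl
  rw [map_mul, h0, h2]

theorem n10_tder_prod [DecidableEq ι] (S : Finset ι) :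
    Tder M b (∏ l ∈ S, (X (some l) : MvPolynomial (Option ι) κ)) =
      ∑ j ∈ S, sqMap κ ι (linF M b j) * ∏ l ∈ S.erase j, X (some l) := by
  induction S using Finset.induction_on with
  | empty =>
    rw [Finset.prod_empty, Finset.sum_empty, Derivation.map_one_eq_zero]
  | insert a S ha ih =>
    rw [Finset.prod_insert ha, Derivation.leibniz, ih, Finset.sum_insert ha,
      Finset.erase_insert ha, ← n10_sq_linF, smul_eq_mul, smul_eq_mul, Finset.mul_sum,
      add_comm, mul_comm (∏ l ∈ S, (X (some l) : MvPolynomial (Option ι) κ))]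
    congr 1
    refine Finset.sum_congr rfl fun j hj => ?_
    have hja : j ≠ a := by
      rintro rfl
      exact ha hj
    rw [Finset.erase_insert_of_ne hja.symm, Finset.prod_insert (by
      rw [Finset.mem_erase, not_and]
      exact fun _ => ha)]
    ring

/-- TASK N10. `Tder` kills the image of `sqMap` (`Tder (X_l ^ 2) = 2 .. = 0`) and
`Tder (∏ l ∈ S, X_l) = ∑ j ∈ S, (∏ l ∈ S.erase j, X_l) * sqMap (linF M b j)`; reindex
`(S, j ∈ S) ↔ (S.erase j, j ∉ ..)`. -/
theorem tder_psi [DecidableEq ι] (F : Finset ι → MvPolynomial (Option ι) κ) :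
    Tder M b (psi F) = psi (kosD (linF M b) F) := by
  classical
  have h1 : Tder M b (psi F) = ∑ S : Finset ι, ∑ j : ι, if j ∈ S then
      sqMap κ ι (linF M b j * F S) * ∏ l ∈ S.erase j, X (some l) else 0 := by
    unfold psi
    rw [map_sum]
    refine Finset.sum_congr rfl fun S _ => ?_
    rw [Derivation.leibniz, n10_tder_sq, smul_zero, add_zero, n10_tder_prod, smul_eq_mul,
      Finset.mul_sum, Finset.sum_ite_mem, Finset.univ_inter]
    refine Finset.sum_congr rfl fun j _ => ?_
    rw [map_mul]
    ring
  have h2 : psi (kosD (linF M b) F) = ∑ S : Finset ι, ∑ j : ι, if j ∈ S then 0 else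
      sqMap κ ι (linF M b j * F (insert j S)) * ∏ l ∈ S, X (some l) := by
    unfold psi kosD
    refine Finset.sum_congr rfl fun S _ => ?_
    rw [map_sum, Finset.sum_mul]
    have h3 : ∀ j, (if j ∈ S then 0 else
        sqMap κ ι (linF M b j * F (insert j S)) * ∏ l ∈ S, X (some l)) =
        (if j ∈ Sᶜ then sqMap κ ι (linF M b j * F (insert j S)) * ∏ l ∈ S, X (some l)
          else 0) := by
      intro j
      by_cases h : j ∈ S
      · rw [if_pos h, if_neg (by rw [Finset.mem_compl]; exact fun h' => h' h)]
      · rw [if_neg h, if_pos (Finset.mem_compl.2 h)]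
    rw [Finset.sum_congr rfl fun j _ => h3 j, Finset.sum_ite_mem, Finset.univ_inter]
  rw [h1, h2, Finset.sum_comm, Finset.sum_comm (s := (Finset.univ : Finset (Finset ι)))]
  refine Finset.sum_congr rfl fun j _ => ?_
  rw [← n10_sum_tog j]
  refine Finset.sum_congr rfl fun S _ => ?_
  unfold n10_tog
  by_cases h : j ∈ S
  · rw [if_pos h, if_pos h, if_neg (Finset.notMem_erase j S)]
  · rw [if_neg h, if_neg h, if_pos (Finset.mem_insert_self j S), Finset.erase_insert h]

/-- TASK N10. -/
theorem psi_add [DecidableEq ι] (F G : Finset ι → MvPolynomial (Option ι) κ) :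
    psi (F + G) = psi F + psi G := by
  unfold psi
  rw [← Finset.sum_add_distrib]
  exact Finset.sum_congr rfl fun S _ => by rw [Pi.add_apply, map_add, add_mul]

/-- TASK N10. -/
theorem psi_ite [DecidableEq ι] (c : MvPolynomial (Option ι) κ) :
    psi (fun S : Finset ι => if S = ∅ then c else 0) = sqMap κ ι c := by
  unfold psi
  rw [Finset.sum_eq_single ∅]
  · beta_reduce
    rw [if_pos rfl, Finset.prod_empty, mul_one]
  · intro S _ hS
    beta_reduce
    rw [if_neg hS, map_zero, zero_mul]
  · intro h
    exact absurd (Finset.mem_univ _) h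
-- END N10

-- BEGIN N11
private theorem n11_sq_none : sqMap κ ι (X none) = X none := by
  rw [sqMap, aeval_X]
  rfl

private theorem n11_sq_some (l : ι) : sqMap κ ι (X (some l)) = X (some l) ^ 2 := by
  rw [sqMap, aeval_X]
  rfl

private theorem n11_sq_lin (j : ι) : sqMap κ ι (linF M b j) = Tder M b (X (some j)) := by
  rw [tder_some, linF, map_add, map_sum, map_mul, n11_sq_none, algHom_C]
  congr 1
  refine Finset.sum_congr rfl fun l _ => ?_
  rw [map_mul, n11_sq_some, algHom_C]
  rfl

private theorem n11_sq_poly (q : Polynomial κ) :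
    sqMap κ ι (Polynomial.aeval (X none) q) = Polynomial.aeval (X none) q := by
  rw [← Polynomial.aeval_algHom_apply, n11_sq_none]

private theorem n11_tder_sq [DecidableEq ι] (c : MvPolynomial (Option ι) κ) :
    Tder M b (sqMap κ ι c) = 0 := by
  rw [← psi_ite c, tder_psi]
  have h : kosD (linF M b) (fun S : Finset ι => if S = ∅ then c else 0) = fun _ => 0 := by
    funext S
    unfold kosD
    refine Finset.sum_eq_zero fun j _ => ?_
    show linF M b j * (if insert j S = ∅ then c else 0) = 0
    rw [if_neg (Finset.insert_ne_empty j S), mul_zero]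
  rw [h]
  unfold psi
  refine Finset.sum_eq_zero fun S _ => ?_
  rw [map_zero, zero_mul]

private theorem n11_two : (2 : MvPolynomial (Option ι) κ) = 0 := by
  have h : (2 : κ) = 0 := CharTwo.two_eq_zero
  have h1 : (2 : MvPolynomial (Option ι) κ) = C (2 : κ) := by
    rw [map_ofNat]
  rw [h1, h, C_0]

/-- TASK N11. The kernel of the Koszul differential. `P = psi F` (N9), `kosD (linF M b) F = 0`
(N10, `psi_injective`), so `F = kosD H + c δ` (N7 with N8), `P = Tder (psi H) + sqMap c`; by
`linF_quot` `c = q(w) + ∑ linF_j a_j` and `sqMap (linF_j a_j) = Tder (X_j * sqMap a_j)`. -/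
theorem tder_ker [DecidableEq ι] (hM : IsUnit (Matrix.of M).det) {P : MvPolynomial (Option ι) κ}
    (hP : Tder M b P = 0) : ∃ (H : MvPolynomial (Option ι) κ) (q : Polynomial κ),
      P = Tder M b H + Polynomial.aeval (X none) q := by
  obtain ⟨F, rfl⟩ := psi_surjective P
  rw [tder_psi] at hP
  have h0 : psi (fun _ : Finset ι => (0 : MvPolynomial (Option ι) κ)) = 0 := by
    unfold psi
    refine Finset.sum_eq_zero fun S _ => ?_
    rw [map_zero, zero_mul]
  have hk : kosD (linF M b) F = fun _ => 0 := psi_injective (hP.trans h0.symm)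
  obtain ⟨H, c, hH⟩ := kosD_exact n11_two (q := linF M b)
    (fun T j c hj h => linF_regular hM T j c hj h) (F := F) (fun S => congrFun hk S)
  obtain ⟨q, a, hc⟩ := linF_quot (M := M) (b := b) hM c
  refine ⟨psi H + ∑ j, X (some j) * sqMap κ ι (a j), q, ?_⟩
  have e1 : F = kosD (linF M b) H + fun S : Finset ι => if S = ∅ then c else 0 := funext hH
  have e2 : sqMap κ ι c = Polynomial.aeval (X none) q +
      ∑ j, Tder M b (X (some j) * sqMap κ ι (a j)) := by
    rw [hc, map_add, n11_sq_poly, map_sum]
    congr 1
    refine Finset.sum_congr rfl fun j _ => ?_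
    rw [map_mul, n11_sq_lin, Derivation.leibniz, n11_tder_sq, smul_zero, zero_add, smul_eq_mul,
      mul_comm]
  rw [e1, psi_add, psi_ite, ← tder_psi, e2, map_add, map_sum]
  ring

/-- TASK N11. The image of the Koszul differential. `H = psi F`, `q(w) = sqMap (q(w))`, so
`kosD F = q(w) δ` (`psi_injective`, `psi_ite`), at `∅`: `q(w) = ∑ j, linF_j * F {j}`; `linF_zero`. -/
theorem tder_im [DecidableEq ι] (hM : IsUnit (Matrix.of M).det) {H : MvPolynomial (Option ι) κ}
    {q : Polynomial κ} (hH : Tder M b H = Polynomial.aeval (X none) q) : q = 0 := by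
  obtain ⟨F, rfl⟩ := psi_surjective H
  rw [tder_psi, ← n11_sq_poly, ← psi_ite] at hH
  have h1 := congrFun (psi_injective hH) ∅
  simp only [if_true] at h1
  unfold kosD at h1
  rw [Finset.compl_empty] at h1
  exact linF_zero hM (a := fun j => F (insert j ∅)) h1.symm
-- END N11

-- BEGIN N12
/-- TASK N12. On monomials: `mkDerivation_monomial` or induction with the Leibniz rule. -/
theorem tder_homog {P : MvPolynomial (Option ι) κ} {r : ℕ} (hP : IsWeightedHomogeneous wt P r) :
    IsWeightedHomogeneous wt (Tder M b P) (r + 1) := by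
  classical
  rw [P.as_sum, map_sum]
  refine IsWeightedHomogeneous.sum _ _ _ fun d hd => ?_
  have hw : Finsupp.weight wt d = r := hP (mem_support_iff.mp hd)
  rw [Tder, mkDerivation_monomial, Finsupp.sum, Finset.smul_sum]
  refine IsWeightedHomogeneous.sum _ _ _ fun o ho => ?_
  rw [smul_eq_C_mul]
  refine IsWeightedHomogeneous.C_mul ?_ _
  rw [smul_eq_mul]
  rcases o with _ | j
  · show IsWeightedHomogeneous wt (_ * (0 : MvPolynomial (Option ι) κ)) (r + 1)
    rw [mul_zero]
    exact isWeightedHomogeneous_zero κ wt (r + 1)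
  · have hj : 1 ≤ d (some j) := Nat.one_le_iff_ne_zero.mpr (Finsupp.mem_support_iff.mp ho)
    have hle : Finsupp.single (some j) 1 ≤ d := by
      rw [Finsupp.single_le_iff]
      exact hj
    have hadd : d = (d - Finsupp.single (some j) 1) + Finsupp.single (some j) 1 :=
      (tsub_add_cancel_of_le hle).symm
    have hw1 : Finsupp.weight wt (Finsupp.single (some j) 1 : Option ι →₀ ℕ) = 1 := by
      rw [Finsupp.weight_apply, Finsupp.sum_single_index]
      · rfl
      · simp
    have hw2 : Finsupp.weight wt (d - Finsupp.single (some j) 1) + 1 = r := by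
      have h1 := congrArg (Finsupp.weight (wt (ι := ι))) hadd
      rw [map_add, hw1, hw] at h1
      exact h1.symm
    obtain ⟨r', rfl⟩ : ∃ r', r = r' + 1 := ⟨_, hw2.symm⟩
    have hm : IsWeightedHomogeneous wt
        (monomial (d - Finsupp.single (some j) 1) ((d (some j) : ℕ) : κ)) r' :=
      isWeightedHomogeneous_monomial _ _ _ (by omega)
    have hq : IsWeightedHomogeneous wt
        (∑ l, C (M j l) * X (some l) ^ 2 + C (b j) * X none : MvPolynomial (Option ι) κ) 2 := by
      refine IsWeightedHomogeneous.add (IsWeightedHomogeneous.sum _ _ _ fun l _ => ?_) ?_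
      · have h1 : IsWeightedHomogeneous wt (X (some l) : MvPolynomial (Option ι) κ) 1 :=
          isWeightedHomogeneous_X κ wt (some l)
        exact (h1.pow 2).C_mul _
      · have h1 : IsWeightedHomogeneous wt (X none : MvPolynomial (Option ι) κ) 2 :=
          isWeightedHomogeneous_X κ wt none
        exact h1.C_mul _
    exact hm.mul hq

private theorem n12_comp [DecidableEq ι] (H : MvPolynomial (Option ι) κ) (s : ℕ) :
    weightedHomogeneousComponent wt (s + 1) (Tder M b H) =
      Tder M b (weightedHomogeneousComponent wt s H) := by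
  classical
  induction H using MvPolynomial.induction_on' with
  | monomial d c =>
    have h1 : IsWeightedHomogeneous wt (monomial d c) (Finsupp.weight wt d) :=
      isWeightedHomogeneous_monomial _ _ _ rfl
    have h2 := tder_homog (M := M) (b := b) h1
    rw [weightedHomogeneousComponent_of_mem (n := Finsupp.weight wt d) h1,
      weightedHomogeneousComponent_of_mem (n := Finsupp.weight wt d + 1) h2]
    by_cases hs : s = Finsupp.weight wt d
    · rw [if_pos hs, if_pos (by rw [hs])]
    · rw [if_neg hs, if_neg (by omega), map_zero]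
  | add p q hp hq => rw [map_add, map_add, map_add, map_add, hp, hq]

private theorem n12_pow (a : κ) (k : ℕ) :
    IsWeightedHomogeneous wt (C a * X none ^ k : MvPolynomial (Option ι) κ) (2 * k) := by
  have h1 : IsWeightedHomogeneous wt (X none : MvPolynomial (Option ι) κ) 2 :=
    isWeightedHomogeneous_X κ wt none
  have h2 := (h1.pow k).C_mul a
  have e : k • 2 = 2 * k := by rw [smul_eq_mul, mul_comm]
  rw [e] at h2
  exact h2

private theorem n12_poly (q : Polynomial κ) (r : ℕ) : ∃ a : κ, (Odd r → a = 0) ∧
    weightedHomogeneousComponent wt r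
      (Polynomial.aeval (X none : MvPolynomial (Option ι) κ) q) = C a * X none ^ (r / 2) := by
  classical
  induction q using Polynomial.induction_on' with
  | add p q hp hq =>
    obtain ⟨a, ha, hp⟩ := hp
    obtain ⟨a', ha', hq⟩ := hq
    refine ⟨a + a', fun h => by rw [ha h, ha' h, add_zero], ?_⟩
    rw [map_add, map_add, hp, hq, map_add, add_mul]
  | monomial k c =>
    have h1 : Polynomial.aeval (X none : MvPolynomial (Option ι) κ) (Polynomial.monomial k c) =
        C c * X none ^ k := by
      rw [Polynomial.aeval_monomial]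
      rfl
    rw [h1, weightedHomogeneousComponent_of_mem (n := 2 * k) (n12_pow c k)]
    by_cases hr : r = 2 * k
    · refine ⟨c, fun h => ?_, ?_⟩
      · exfalso
        rw [hr] at h
        exact (Nat.not_odd_iff_even.mpr (even_two_mul k)) h
      · rw [if_pos hr, hr, Nat.mul_div_cancel_left k two_pos]
    · exact ⟨0, fun _ => rfl, by rw [if_neg hr, map_zero, zero_mul]⟩

/-- TASK N12. The kernel in a fixed degree: take the weighted homogeneous component of degree `r` in
`tder_ker`; by `tder_homog` the component of `Tder H` is `Tder` of the component of `H` of degree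
`r - 1`, the component of `q(w)` is `a w ^ (r / 2)` if `r` is even, else `0`. -/
theorem tder_ker_homog [DecidableEq ι] (hM : IsUnit (Matrix.of M).det)
    {P : MvPolynomial (Option ι) κ} {r : ℕ} (hr : 1 ≤ r) (hh : IsWeightedHomogeneous wt P r)
    (hP : Tder M b P = 0) : ∃ (H : MvPolynomial (Option ι) κ) (a : κ),
      IsWeightedHomogeneous wt H (r - 1) ∧ P = Tder M b H + C a * X none ^ (r / 2) ∧
      (Odd r → a = 0) := by
  classical
  obtain ⟨H, q, hPq⟩ := tder_ker hM hP
  obtain ⟨s, rfl⟩ : ∃ s, r = s + 1 := ⟨r - 1, by omega⟩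
  obtain ⟨a, ha, hq⟩ := n12_poly (ι := ι) q (s + 1)
  refine ⟨weightedHomogeneousComponent wt s H, a,
    weightedHomogeneousComponent_isWeightedHomogeneous _ _, ?_, ha⟩
  have h1 : weightedHomogeneousComponent wt (s + 1) P = P := by
    rw [weightedHomogeneousComponent_of_mem (n := s + 1) hh, if_pos rfl]
  rw [← n12_comp, ← hq, ← map_add, ← hPq, h1]

/-- TASK N12. -/
theorem tder_im_pow [DecidableEq ι] (hM : IsUnit (Matrix.of M).det)
    {H : MvPolynomial (Option ι) κ} {a : κ} {s : ℕ} (hH : Tder M b H = C a * X none ^ s) :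
    a = 0 := by
  have h1 : Tder M b H = Polynomial.aeval (X none) (Polynomial.monomial s a) := by
    rw [hH, Polynomial.aeval_monomial]
    rfl
  have h2 := tder_im hM h1
  exact (Polynomial.monomial_eq_zero_iff a s).mp h2
-- END N12

end

end Pool.Agent.Lib.MP_6a3dac_ag.QD
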