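import Pool.Agent.Lib.MP_6a3dac_ag.QD.ChMain
import Pool.Agent.Lib.MP_6a3dac_ag.QD.Init
import Pool.Agent.Lib.MP_6a3dac_ag.Mg.G003

/-!
# The local theorem over a fixed local ring, from the normal form
-/

set_option autoImplicit false
set_option linter.unusedSectionVars false
set_option linter.unusedVariables false

namespace Pool.Agent.Lib.MP_6a3dac_ag.QD

open IsLocalRing

/-- The normal form of an involution of a regular local ring; `z i` is `τ (x i) - x i`. -/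
structure NFData (A : Type) [CommRing A] [IsRegularLocalRing A] {ι : Type} [Fintype ι]
    [DecidableEq ι] (ϖ ε : A) (n : ℕ) (x z : ι → A) (M : ι → ι → A) (α e : ι → A) : Prop where
  par : Par ϖ x
  pos : 1 ≤ n
  unit : IsUnit ε
  two : ∃ u, (2 : A) = u * ϖ ^ n ∧ u - (n + 1) * ε ∈ maximalIdeal A
  perf : ∀ a : A, ∃ c, a - c ^ 2 ∈ maximalIdeal A
  det : IsUnit (Matrix.of M).det
  err : ∀ i, e i ∈ Err ϖ n x
  eq : ∀ i, z i = ∑ l, M i l * x l ^ 2 - 2 * x i + α i * ϖ ^ (2 * n) + e i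

theorem NFHyp.of_data {D : Type} [CommRing D] [IsDomain D] [IsLocalRing D] {A : Subring D}
    [IsRegularLocalRing A] {ι : Type} [Fintype ι] [DecidableEq ι] {ϖ ε : A} {n : ℕ}
    {x z : ι → A} {M : ι → ι → A} {α e : ι → A} (hdom : Dom A)
    (h : NFData A ϖ ε n x z M α e) : NFHyp A ϖ ε n x z M α e :=
  ⟨hdom, h.par, h.pos, h.unit, h.two, h.perf, h.det, h.err, h.eq⟩

section Map

variable {A A' : Type} [CommRing A] [IsRegularLocalRing A] [CommRing A'] [IsRegularLocalRing A']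
  (f : A ≃+* A') {ι : Type} [Fintype ι] [DecidableEq ι] {ϖ ε : A} {n : ℕ} {x z : ι → A}
  {M : ι → ι → A} {α e : ι → A}

-- BEGIN K1
theorem k1_span_insert {R S : Type} [CommRing R] [CommRing S] (g : R →+* S) {κ : Type} (a : R)
    (y : κ → R) : (Ideal.span (insert a (Set.range y))).map g =
      Ideal.span (insert (g a) (Set.range fun i => g (y i))) := by
  rw [Ideal.map_span, Set.image_insert_eq, ← Set.range_comp]
  rfl

theorem k1_span_range {R S : Type} [CommRing R] [CommRing S] (g : R →+* S) {κ : Type}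
    (y : κ → R) : (Ideal.span (Set.range y)).map g = Ideal.span (Set.range fun i => g (y i)) := by
  rw [Ideal.map_span, ← Set.range_comp]
  rfl

theorem k1_span_singleton {R S : Type} [CommRing R] [CommRing S] (g : R →+* S) (a : R) :
    (Ideal.span {a}).map g = Ideal.span {g a} := by
  rw [Ideal.map_span, Set.image_singleton]

theorem k1_aId (k : ℕ) : aId (f ϖ) (fun i => f (x i)) k = (aId ϖ x k).map (f : A →+* A') := by
  unfold aId
  rw [k1_span_insert, map_pow]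
  rfl

theorem k1_mem_max {a : A} (ha : a ∈ maximalIdeal A) : f a ∈ maximalIdeal A' := by
  rw [← map_ringEquiv_maximalIdeal f]
  exact Ideal.mem_map_of_mem (f : A →+* A') ha

theorem k1_err (n : ℕ) : (Err ϖ n x).map (f : A →+* A') = Err (f ϖ) n (fun i => f (x i)) := by
  unfold Err
  rw [Ideal.map_sup, Ideal.map_sup, Ideal.map_mul, Ideal.map_mul, Ideal.map_pow, Ideal.map_pow,
    k1_span_range, k1_span_singleton, k1_span_singleton, map_pow]
  rfl

/-- TASK K1 (two statements). Transport of the data along an isomorphism of rings. -/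
theorem NFData.map (h : NFData A ϖ ε n x z M α e) :
    NFData A' (f ϖ) (f ε) n (fun i => f (x i)) (fun i => f (z i)) (fun i l => f (M i l))
      (fun i => f (α i)) (fun i => f (e i)) := by
  constructor
  · constructor
    · rw [← map_ringEquiv_maximalIdeal f, h.par.span]
      exact k1_span_insert (f : A →+* A') ϖ x
    · rw [← ringKrullDim_eq_of_ringEquiv f]
      exact h.par.dim
  · exact h.pos
  · exact h.unit.map f
  · obtain ⟨u, h1, h2⟩ := h.two
    refine ⟨f u, ?_, ?_⟩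
    · rw [← map_pow, ← map_mul, ← h1, map_ofNat]
    · have h3 := k1_mem_max f h2
      rw [map_sub, map_mul, map_add, map_natCast, map_one] at h3
      exact h3
  · intro a
    obtain ⟨c, hc⟩ := h.perf (f.symm a)
    refine ⟨f c, ?_⟩
    have h3 := k1_mem_max f hc
    rw [map_sub, map_pow, RingEquiv.apply_symm_apply] at h3
    exact h3
  · have h3 := h.det.map (f : A →+* A')
    rw [RingHom.map_det] at h3
    exact h3
  · intro i
    rw [← k1_err]
    exact Ideal.mem_map_of_mem (f : A →+* A') (h.err i)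
  · intro i
    have h3 := congrArg f (h.eq i)
    simp only [map_add, map_sub, map_sum, map_mul, map_pow, map_ofNat] at h3
    exact h3

theorem map_cen (j : ℕ) : cen (f ϖ) (f ε) n (fun i => f (x i)) (fun i => f (z i)) j =
    (cen ϖ ε n x z j).map (f : A →+* A') := by
  unfold cen
  split_ifs with h1 h2
  · exact k1_aId f _
  · unfold kId
    rw [Ideal.map_sup, Ideal.map_sup, Ideal.map_mul, Ideal.map_mul, Ideal.map_pow, Ideal.map_pow,
      k1_aId, k1_span_range, k1_span_singleton, k1_span_singleton]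
    simp only [map_sub, map_mul, map_pow, RingHom.coe_coe]
  · unfold lId
    rw [k1_span_insert]
    simp only [map_sub, map_mul, map_pow, map_add, map_one, RingHom.coe_coe]
-- END K1

end Map

section Two

variable {D : Type} [CommRing D] [IsRegularLocalRing D] {τ : D →+* D} {ϖ ε : D} {n : ℕ}

/-- The congruence for `2 / ϖ ^ n`. -/
theorem two_congr (h : Inv τ ϖ ε n) (hϖ : ϖ ∈ maximalIdeal D) (hϖ0 : ϖ ≠ 0) :
    ∃ u, (2 : D) = u * ϖ ^ n ∧ u - (n + 1) * ε ∈ maximalIdeal D :=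
  haveI : IsDomain D := isDomain_aux _ D le_rfl
  exists_two h.invol h.pos h.unif h.unit h.deps hϖ0 hϖ

/-- **The data of the charts from the normal form.** -/
theorem exists_nfData (h : Inv τ ϖ ε n) (hϖ : ϖ ∈ maximalIdeal D) (hϖ0 : ϖ ≠ 0)
    (hϖ2 : ϖ ∉ maximalIdeal D ^ 2)
    (hA : ∀ f ∈ maximalIdeal D, f ^ 2 ∈ Ideal.span {ϖ} ⊔ augIdeal τ)
    (hW : ∀ N, ∃ W, Coef τ ϖ n N W) :
    ∃ (g : ℕ) (x : Fin g → D) (M : Fin g → Fin g → D) (α e : Fin g → D),
      NFData D ϖ ε n x (fun i => τ (x i) - x i) M α e := by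
  obtain ⟨g, x, M, b, hb⟩ := exists_adapted h hϖ hϖ2 hA
  obtain ⟨x', M', α, e, h1, h2, h3, h4⟩ := exists_nf h hb hW
  exact ⟨g, x', M', α, e, ⟨h1, h.pos, h.unit, two_congr h hϖ hϖ0, h.perf, h2, h3, h4⟩⟩

end Two

section Stable

variable {D : Type} [CommRing D] [IsRegularLocalRing D] {τ : D →+* D} {ϖ ε : D} {n : ℕ}
  {ι : Type} [Fintype ι] [DecidableEq ι] {x : ι → D} {M : ι → ι → D} {α e : ι → D}

-- BEGIN K3
theorem k3_pow_mem {k r : ℕ} (hk : k ≤ r) : ϖ ^ r ∈ aId ϖ x k := by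
  obtain ⟨s, rfl⟩ := Nat.exists_eq_add_of_le hk
  rw [pow_add]
  exact Ideal.mul_mem_right _ _ (Ideal.subset_span (Set.mem_insert _ _))

theorem k3_x_mem (k : ℕ) (i : ι) : x i ∈ aId ϖ x k :=
  Ideal.subset_span (Set.mem_insert_of_mem _ ⟨i, rfl⟩)

theorem k3_err_le (k : ℕ) : Err ϖ n x ≤ aId ϖ x k := by
  have h1 : Ideal.span (Set.range x) ≤ aId ϖ x k := Ideal.span_mono (Set.subset_insert _ _)
  unfold Err
  refine sup_le (sup_le ?_ ?_) ?_
  · refine Ideal.mul_le_right.trans ?_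
    exact (Ideal.pow_le_self two_ne_zero).trans h1
  · exact (Ideal.pow_le_self three_ne_zero).trans h1
  · exact Ideal.mul_le_right.trans h1

theorem k3_z_mem (hN : NFData D ϖ ε n x (fun i => τ (x i) - x i) M α e) {k : ℕ} (hk : k ≤ 2 * n)
    (i : ι) : τ (x i) - x i ∈ aId ϖ x k := by
  have h1 : τ (x i) - x i = ∑ l, M i l * x l ^ 2 - 2 * x i + α i * ϖ ^ (2 * n) + e i := hN.eq i
  rw [h1]
  refine Ideal.add_mem _ (Ideal.add_mem _ (Ideal.sub_mem _ ?_ ?_) ?_) ?_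
  · refine Ideal.sum_mem _ fun l _ => Ideal.mul_mem_left _ _ ?_
    rw [pow_two]
    exact Ideal.mul_mem_left _ _ (k3_x_mem k l)
  · exact Ideal.mul_mem_left _ _ (k3_x_mem k i)
  · exact Ideal.mul_mem_left _ _ (k3_pow_mem hk)
  · exact k3_err_le k (hN.err i)

theorem k3_unif (h : Inv τ ϖ ε n) : τ ϖ = ϖ * (1 + ε * ϖ ^ n) := by
  rw [h.unif, pow_succ]
  ring

theorem k3_pow (h : Inv τ ϖ ε n) (r : ℕ) : τ (ϖ ^ r) = (1 + ε * ϖ ^ n) ^ r * ϖ ^ r := by
  rw [map_pow, k3_unif h, mul_pow, mul_comm]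

theorem k3_aId (h : Inv τ ϖ ε n) (hN : NFData D ϖ ε n x (fun i => τ (x i) - x i) M α e)
    {k : ℕ} (hk : k ≤ 2 * n) : (aId ϖ x k).map τ ≤ aId ϖ x k := by
  rw [Ideal.map_le_iff_le_comap]
  change Ideal.span (insert (ϖ ^ k) (Set.range x)) ≤ (aId ϖ x k).comap τ
  rw [Ideal.span_le]
  rintro y (rfl | ⟨i, rfl⟩)
  · change τ (ϖ ^ k) ∈ aId ϖ x k
    rw [k3_pow h]
    exact Ideal.mul_mem_left _ _ (k3_pow_mem le_rfl)
  · change τ (x i) ∈ aId ϖ x k
    have h1 : τ (x i) = (τ (x i) - x i) + x i := by ring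
    rw [h1]
    exact Ideal.add_mem _ (k3_z_mem hN hk i) (k3_x_mem k i)

theorem k3_span_pow (h : Inv τ ϖ ε n) (r : ℕ) :
    (Ideal.span {ϖ ^ r}).map τ ≤ Ideal.span {ϖ ^ r} := by
  rw [Ideal.map_span, Set.image_singleton, Ideal.span_singleton_le_iff_mem, k3_pow h]
  exact Ideal.mul_mem_left _ _ (Ideal.mem_span_singleton_self _)

theorem k3_kId (h : Inv τ ϖ ε n) (hN : NFData D ϖ ε n x (fun i => τ (x i) - x i) M α e)
    {k : ℕ} (hk : k ≤ 2 * n) : (kId ϖ x (fun i => τ (x i) - x i) k).map τ ≤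
      kId ϖ x (fun i => τ (x i) - x i) k := by
  have hz : ∀ l, τ (τ (x l)) = x l := fun l => h.invol _
  unfold kId
  rw [Ideal.map_sup, Ideal.map_sup, Ideal.map_mul, Ideal.map_mul, Ideal.map_pow, Ideal.map_pow]
  refine sup_le_sup (sup_le_sup (Ideal.pow_right_mono (k3_aId h hN hk) _) ?_) ?_
  · exact Ideal.mul_mono (k3_span_pow h _) (Ideal.pow_right_mono (k3_aId h hN hk) _)
  · refine Ideal.mul_mono (k3_span_pow h _) ?_
    rw [Ideal.map_span, Ideal.span_le]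
    rintro _ ⟨_, ⟨q, rfl⟩, rfl⟩
    have h1 : τ (x q.1 * (τ (x q.2) - x q.2) - x q.2 * (τ (x q.1) - x q.1)) =
        -(x q.1 * (τ (x q.2) - x q.2) - x q.2 * (τ (x q.1) - x q.1)) := by
      simp only [map_sub, map_mul, hz]
      ring
    change τ (x q.1 * (τ (x q.2) - x q.2) - x q.2 * (τ (x q.1) - x q.1)) ∈
      Ideal.span (Set.range fun p : ι × ι => x p.1 * (τ (x p.2) - x p.2) - x p.2 * (τ (x p.1) - x p.1))
    rw [h1]
    exact (Ideal.neg_mem_iff _).2 (Ideal.subset_span ⟨q, rfl⟩)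

theorem k3_lId (h : Inv τ ϖ ε n) (hϖ0 : ϖ ≠ 0) :
    (lId ϖ ε n x (fun i => τ (x i) - x i)).map τ ≤ lId ϖ ε n x (fun i => τ (x i) - x i) := by
  have : IsDomain D := isDomain_aux _ D le_rfl
  have hη : (1 + ε * ϖ ^ n) * τ (1 + ε * ϖ ^ n) = 1 := by
    have h1 : ϖ * ((1 + ε * ϖ ^ n) * τ (1 + ε * ϖ ^ n)) = ϖ * 1 := by
      have h2 : τ (τ ϖ) = ϖ := h.invol _
      rw [k3_unif h, map_mul, k3_unif h] at h2
      rw [mul_one, ← mul_assoc]
      exact h2
    exact mul_left_cancel₀ hϖ0 h1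
  rw [Ideal.map_le_iff_le_comap]
  change Ideal.span (insert (ϖ ^ (2 * n + 1)) (Set.range fun i =>
    (τ (x i) - x i) - ((1 + ε * ϖ ^ n) ^ n - 1) * x i)) ≤
      (lId ϖ ε n x (fun i => τ (x i) - x i)).comap τ
  rw [Ideal.span_le]
  rintro y (rfl | ⟨i, rfl⟩)
  · change τ (ϖ ^ (2 * n + 1)) ∈ lId ϖ ε n x (fun i => τ (x i) - x i)
    rw [k3_pow h]
    exact Ideal.mul_mem_left _ _ (Ideal.subset_span (Set.mem_insert _ _))
  · change τ (τ (x i) - x i - ((1 + ε * ϖ ^ n) ^ n - 1) * x i) ∈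
      lId ϖ ε n x (fun i => τ (x i) - x i)
    have h2 : τ (τ (x i) - x i - ((1 + ε * ϖ ^ n) ^ n - 1) * x i) =
        (-τ (1 + ε * ϖ ^ n) ^ n) * (τ (x i) - x i - ((1 + ε * ϖ ^ n) ^ n - 1) * x i) := by
      have h3 : (1 + ε * ϖ ^ n) ^ n * τ (1 + ε * ϖ ^ n) ^ n = 1 := by
        rw [← mul_pow, hη, one_pow]
      have h4 : τ (τ (x i)) = x i := h.invol _
      rw [map_sub, map_sub, map_mul, map_sub, map_one, map_pow, h4]
      linear_combination (-x i) * h3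
    rw [h2]
    exact Ideal.mul_mem_left _ _ (Ideal.subset_span (Set.mem_insert_of_mem _ ⟨i, rfl⟩))

/-- TASK K3. The ideals `cen j` are stable under `τ`. With `z = τ x - x`: `aId k` (`k ≤ n`) contains
the `z i` (normal form); `x i z l - x l z i = x i τ (x l) - x l τ (x i)` changes sign; and for
`ρ = z - (η ^ n - 1) x = τ x - η ^ n x` with `η = 1 + ε ϖ ^ n` one has `τ η * η = 1` (`τ ϖ = η ϖ`,
`ϖ ≠ 0`), so `τ ρ = x - τ(η) ^ n τ x = - τ(η) ^ n ρ`. -/
theorem map_mem_cen (h : Inv τ ϖ ε n) (hϖ0 : ϖ ≠ 0)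
    (hN : NFData D ϖ ε n x (fun i => τ (x i) - x i) M α e) {j : ℕ} (hj : j ≤ 2 * n) {y : D}
    (hy : y ∈ cen ϖ ε n x (fun i => τ (x i) - x i) j) :
    τ y ∈ cen ϖ ε n x (fun i => τ (x i) - x i) j := by
  have key : (cen ϖ ε n x (fun i => τ (x i) - x i) j).map τ ≤
      cen ϖ ε n x (fun i => τ (x i) - x i) j := by
    unfold cen
    split_ifs with h1 h2
    · exact k3_aId h hN (by omega)
    · exact k3_kId h hN (by omega)
    · exact k3_lId h hϖ0
  exact key (Ideal.mem_map_of_mem τ hy)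
-- END K3

-- BEGIN K4
theorem k4_sup_pow (I J : Ideal D) (k : ℕ) : (I ⊔ J) ^ k ≤ I ^ k ⊔ J := by
  induction k with
  | zero =>
    rw [pow_zero, pow_zero]
    exact le_sup_left
  | succ k ih =>
    rw [pow_succ, pow_succ]
    calc (I ⊔ J) ^ k * (I ⊔ J) ≤ (I ^ k ⊔ J) * (I ⊔ J) := Ideal.mul_mono_left ih
      _ ≤ I ^ k * I ⊔ J := by
        rw [Ideal.sup_mul, Ideal.mul_sup]
        exact sup_le (sup_le le_sup_left (Ideal.mul_le_right.trans le_sup_right))
          (Ideal.mul_le_left.trans le_sup_right)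

theorem k4_max (hN : NFData D ϖ ε n x (fun i => τ (x i) - x i) M α e) (k : ℕ) :
    maximalIdeal D ^ k ≤ aId ϖ x k := by
  have h1 : maximalIdeal D = Ideal.span {ϖ} ⊔ Ideal.span (Set.range x) := by
    rw [hN.par.span, Ideal.span_insert]
  rw [h1]
  refine (k4_sup_pow _ _ k).trans ?_
  unfold aId
  rw [Ideal.span_insert, Ideal.span_singleton_pow]

theorem k4_lId (h : Inv τ ϖ ε n)
    (hA : ∀ f ∈ maximalIdeal D, f ^ 2 ∈ Ideal.span {ϖ} ⊔ augIdeal τ)
    (hN : NFData D ϖ ε n x (fun i => τ (x i) - x i) M α e) :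
    ∃ N, maximalIdeal D ^ N ≤ lId ϖ ε n x (fun i => τ (x i) - x i) := by
  set L := lId ϖ ε n x (fun i => τ (x i) - x i) with hL
  have hρ : ∀ i, τ (x i) - x i ∈ Ideal.span {ϖ} ⊔ L := by
    intro i
    have h1 : τ (x i) - x i = ((1 + ε * ϖ ^ n) ^ n - 1) * x i +
        (τ (x i) - x i - ((1 + ε * ϖ ^ n) ^ n - 1) * x i) := by ring
    rw [h1]
    refine Ideal.add_mem _ ?_ ?_
    · refine Ideal.mul_mem_right _ _ (Ideal.mem_sup_left ?_)
      have h2 : (1 + ε * ϖ ^ n) - 1 ∣ (1 + ε * ϖ ^ n) ^ n - 1 := by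
        simpa using sub_dvd_pow_sub_pow (1 + ε * ϖ ^ n) 1 n
      rw [Ideal.mem_span_singleton]
      refine Dvd.dvd.trans ?_ h2
      rw [add_sub_cancel_left]
      exact Dvd.dvd.mul_left (dvd_pow_self ϖ (by have := h.pos; omega)) _
    · exact Ideal.mem_sup_right (Ideal.subset_span (Set.mem_insert_of_mem _ ⟨i, rfl⟩))
  have haug : augIdeal τ ≤ Ideal.span {ϖ} ⊔ L := by
    unfold augIdeal
    rw [Ideal.span_le]
    rintro _ ⟨a, rfl⟩
    have h1 := sub_mem_span h hN.par a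
    have h2 : Ideal.span (insert (ϖ ^ (n + 1)) (Set.range fun i => τ (x i) - x i)) ≤
        Ideal.span {ϖ} ⊔ L := by
      rw [Ideal.span_le]
      rintro y (rfl | ⟨i, rfl⟩)
      · refine Ideal.mem_sup_left ?_
        rw [Ideal.mem_span_singleton]
        exact dvd_pow_self ϖ (Nat.succ_ne_zero n)
      · exact hρ i
    exact h2 h1
  have hrad : maximalIdeal D ≤ (Ideal.span {ϖ} ⊔ L).radical := by
    intro f hf
    refine ⟨2, ?_⟩
    exact (sup_le le_sup_left haug : Ideal.span {ϖ} ⊔ augIdeal τ ≤ Ideal.span {ϖ} ⊔ L) (hA f hf)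
  obtain ⟨N, hN'⟩ := Ideal.exists_pow_le_of_le_radical_of_fg hrad
    (IsNoetherian.noetherian (maximalIdeal D))
  refine ⟨N * (2 * n + 1), ?_⟩
  rw [pow_mul]
  refine (Ideal.pow_right_mono hN' _).trans ((k4_sup_pow _ _ _).trans ?_)
  rw [Ideal.span_singleton_pow]
  refine sup_le ?_ le_rfl
  rw [Ideal.span_singleton_le_iff_mem, hL]
  exact Ideal.subset_span (Set.mem_insert _ _)

/-- TASK K4. The ideals `cen j` contain a power of the maximal ideal. `aId k ⊇ 𝔪 ^ k`,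
`kId k ⊇ aId k ^ 4`; `lId + (ϖ)` contains `ϖ` and the `z i`, hence all `f ^ 2` (`hA` and
`sub_mem_span`), hence a power of `𝔪` (the maximal ideal is finitely generated), and
`ϖ ^ (2 n + 1) ∈ lId`. -/
theorem exists_pow_le_cen (h : Inv τ ϖ ε n)
    (hA : ∀ f ∈ maximalIdeal D, f ^ 2 ∈ Ideal.span {ϖ} ⊔ augIdeal τ)
    (hN : NFData D ϖ ε n x (fun i => τ (x i) - x i) M α e) :
    ∃ N, ∀ j, j ≤ 2 * n →
      maximalIdeal D ^ N ≤ cen ϖ ε n x (fun i => τ (x i) - x i) j := by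
  obtain ⟨N, hL⟩ := k4_lId h hA hN
  refine ⟨4 * n + N, fun j hj => ?_⟩
  unfold cen
  split_ifs with h1 h2
  · exact (Ideal.pow_le_pow_right (by omega)).trans (k4_max hN (j + 1))
  · unfold kId
    refine le_trans ?_ (le_sup_of_le_left le_sup_left)
    refine (Ideal.pow_le_pow_right (n := 4 * n + N) (m := (j - n + 1) * 4) (by omega)).trans ?_
    rw [pow_mul]
    exact Ideal.pow_right_mono (k4_max hN (j - n + 1)) 4
  · exact (Ideal.pow_le_pow_right (by omega)).trans hL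
-- END K4

end Stable

section Sit

variable {F : Type} [Field F] {A : Subring F} [IsRegularLocalRing A] {ι : Type} [Fintype ι]
  [DecidableEq ι] {ϖ ε : A} {n : ℕ} {x z : ι → A} {M : ι → ι → A} {α e : ι → A}

-- BEGIN K5
theorem k5_span_insert {R S : Type} [CommRing R] [CommRing S] (g : R →+* S) {κ : Type} (a : R)
    (y : κ → R) : (Ideal.span (insert a (Set.range y))).map g =
      Ideal.span (insert (g a) (Set.range fun i => g (y i))) := by
  rw [Ideal.map_span, Set.image_insert_eq, ← Set.range_comp]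
  rfl

/-- The isomorphism with the subring of the larger ring. -/
def k5_equiv (A D : Subring F) (hle : A ≤ D) : A ≃+* A.comap D.subtype where
  toFun a := ⟨⟨a, hle a.2⟩, a.2⟩
  invFun a := ⟨((a : D) : F), a.2⟩
  left_inv _ := rfl
  right_inv _ := rfl
  map_mul' _ _ := rfl
  map_add' _ _ := rfl

/-- TASK K5. **The local theorem over a fixed local ring inside a field.** Apply `wild_local_main` to
the local domain `D` and its subring `A' = A.comap D.subtype`, with the data transported along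
the isomorphism `A ≃+* A'` (`NFData.map`, `map_cen`; `IsRegularLocalRing.of_ringEquiv`); a subring
`R'` of `D` gives the subring `R'.map D.subtype` of `F` in `hgen`. -/
theorem wild_sit (h : NFData A ϖ ε n x z M α e) (τF : F →+* F) (hτF2 : ∀ y, τF (τF y) = y)
    (hϖ : τF ϖ = ϖ + ε * ϖ ^ (n + 1)) (hx : ∀ i, τF (x i) = x i + z i)
    (hA : ∀ a : A, ∃ b ∈ Ideal.span (insert (ϖ ^ (n + 1)) (Set.range z)), τF a - a = b)
    (D : Subring F) (hD : IsLocalRing D) (hle : A ≤ D)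
    (hdom : ∀ a ∈ A, ∀ b ∈ D, a * b = 1 → b ∈ A) (b : ℕ → A)
    (hb0 : ∀ j ≤ 2 * n, (b j : F) ≠ 0) (hbm : ∀ j ≤ 2 * n, b j ∈ cen ϖ ε n x z j)
    (hbd : ∀ j ≤ 2 * n, ∀ y ∈ cen ϖ ε n x z j, (y : F) / b j ∈ D)
    (hgen : ∀ R' : Subring F, R' ≤ D → (∀ a ∈ R', ∀ b ∈ D, a * b = 1 → b ∈ R') → A ≤ R' →
      (∀ j ≤ 2 * n, ∀ y ∈ cen ϖ ε n x z j, (y : F) / b j ∈ R') → D ≤ R') :
    IsRegularLocalRing D ∧ ((∀ y ∈ D, τF y ∈ D) → Principal τF D) := by
  obtain ⟨f, hf⟩ : ∃ f : A ≃+* A.comap D.subtype, f = k5_equiv A D hle := ⟨_, rfl⟩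
  have hf1 : ∀ a : A, ((f a : D) : F) = a := by
    rw [hf]
    exact fun a => rfl
  have hf2 : ∀ a : A.comap D.subtype, ((f.symm a : A) : F) = ((a : D) : F) := by
    rw [hf]
    exact fun a => rfl
  have hR : IsRegularLocalRing (A.comap D.subtype) := IsRegularLocalRing.of_ringEquiv f
  have hdom' : Dom (A.comap D.subtype) := by
    intro a ha c hac
    exact hdom a ha c c.2 (congrArg Subtype.val hac)
  have hh : NFHyp (A.comap D.subtype) (f ϖ) (f ε) n (fun i => f (x i)) (fun i => f (z i))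
      (fun i l => f (M i l)) (fun i => f (α i)) (fun i => f (e i)) :=
    NFHyp.of_data hdom' (h.map f)
  have hcen : ∀ j, ∀ y ∈ cen (f ϖ) (f ε) n (fun i => f (x i)) (fun i => f (z i)) j,
      ∃ y' ∈ cen ϖ ε n x z j, y = f y' := by
    intro j y hy
    rw [map_cen] at hy
    obtain ⟨y', h1, h2⟩ := (Ideal.mem_map_iff_of_surjective
      (f : A →+* A.comap D.subtype) f.surjective).1 hy
    exact ⟨y', h1, h2.symm⟩
  have h12 := wild_local_main hh (fun j => f (b j)) ?_ ?_ ?_ ?_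
  · refine ⟨h12.1, fun hstab => ?_⟩
    have h3 := h12.2 (τF.restrict D D hstab) (fun d => Subtype.ext (hτF2 d)) ?_ ?_ ?_
    · obtain ⟨y, hy0, hy⟩ := h3
      refine ⟨y, y.2, fun h0 => hy0 (Subtype.ext h0), fun w hw => ?_⟩
      obtain ⟨c, hc⟩ := hy ⟨w, hw⟩
      exact ⟨c, c.2, congrArg Subtype.val hc⟩
    · apply Subtype.ext
      change τF ((f ϖ : D) : F) = ((f ϖ : D) : F) + ((f ε : D) : F) * ((f ϖ : D) : F) ^ (n + 1)
      rw [hf1, hf1]
      exact hϖ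
    · intro i
      apply Subtype.ext
      change τF ((f (x i) : D) : F) = ((f (x i) : D) : F) + ((f (z i) : D) : F)
      rw [hf1, hf1]
      exact hx i
    · intro a
      obtain ⟨c, hc, hac⟩ := hA (f.symm a)
      have h3 : (τF.restrict D D hstab) (a : D) - (a : D) = (A.comap D.subtype).subtype (f c) := by
        apply Subtype.ext
        change τF ((a : D) : F) - ((a : D) : F) = ((f c : D) : F)
        rw [hf1, ← hac, hf2]
      rw [h3]
      refine Ideal.mem_map_of_mem _ ?_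
      have h4 := Ideal.mem_map_of_mem (f : A →+* A.comap D.subtype) hc
      rw [k5_span_insert, map_pow] at h4
      exact h4
  · intro j hj h0
    refine hb0 j hj ?_
    rw [← hf1]
    exact congrArg Subtype.val h0
  · intro j hj
    rw [map_cen]
    exact Ideal.mem_map_of_mem _ (hbm j hj)
  · intro j hj y hy
    obtain ⟨y', hy', rfl⟩ := hcen j y hy
    refine ⟨⟨(y' : F) / b j, hbd j hj y' hy'⟩, Subtype.ext ?_⟩
    change ((f y' : D) : F) = ((f (b j) : D) : F) * ((y' : F) / b j)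
    rw [hf1, hf1, mul_div_cancel₀ _ (hb0 j hj)]
  · intro R' hdR hAR hR'
    rw [eq_top_iff]
    rintro ⟨w, hw⟩ -
    have h3 := hgen (R'.map D.subtype) ?_ ?_ ?_ ?_ hw
    · obtain ⟨w', hw', h4⟩ := h3
      have h5 : w' = ⟨w, hw⟩ := Subtype.ext h4
      rwa [← h5]
    · rintro _ ⟨w', -, rfl⟩
      exact w'.2
    · rintro _ ⟨a, ha, rfl⟩ c hc hac
      exact ⟨⟨c, hc⟩, hdR a ha ⟨c, hc⟩ (Subtype.ext hac), rfl⟩
    · intro a ha
      exact ⟨⟨a, hle ha⟩, hAR ha, rfl⟩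
    · intro j hj y hy
      refine ⟨⟨(y : F) / b j, hbd j hj y hy⟩, hR' j hj (f y) ?_ _ ?_, rfl⟩
      · rw [map_cen]
        exact Ideal.mem_map_of_mem _ hy
      · apply Subtype.ext
        change ((f (b j) : D) : F) * ((y : F) / b j) = ((f y : D) : F)
        rw [hf1, hf1, mul_div_cancel₀ _ (hb0 j hj)]
-- END K5

end Sit

/-- **The local theorem at an ordinary fixed point**: there are ideals whose product resolves the
point. -/
theorem exists_ideals_of_ordinary {F : Type} [Field F] {A : Subring F} [IsRegularLocalRing A]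
    {ϖ ε : A} {n : ℕ} (τF : F →+* F) (hτF2 : ∀ y, τF (τF y) = y) (τA : A →+* A)
    (hτA : ∀ a, (τA a : F) = τF a) (h : Inv τA ϖ ε n) (hϖ : ϖ ∈ maximalIdeal A)
    (hϖ2 : ϖ ∉ maximalIdeal A ^ 2)
    (hA : ∀ f ∈ maximalIdeal A, f ^ 2 ∈ Ideal.span {ϖ} ⊔ augIdeal τA)
    (hW : ∀ N, ∃ W, Coef τA ϖ n N W) :
    ∃ I : ℕ → Ideal A, (∀ j ≤ 2 * n, ∀ y ∈ I j, τA y ∈ I j) ∧
      (∃ N, ∀ j ≤ 2 * n, maximalIdeal A ^ N ≤ I j) ∧
      ∀ (D : Subring F), IsLocalRing D → A ≤ D → (∀ a ∈ A, ∀ b ∈ D, a * b = 1 → b ∈ A) →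
        ∀ b : ℕ → A, (∀ j ≤ 2 * n, (b j : F) ≠ 0) → (∀ j ≤ 2 * n, b j ∈ I j) →
        (∀ j ≤ 2 * n, ∀ y ∈ I j, (y : F) / b j ∈ D) →
        (∀ R' : Subring F, R' ≤ D → (∀ a ∈ R', ∀ b ∈ D, a * b = 1 → b ∈ R') → A ≤ R' →
          (∀ j ≤ 2 * n, ∀ y ∈ I j, (y : F) / b j ∈ R') → D ≤ R') →
        IsRegularLocalRing D ∧ ((∀ y ∈ D, τF y ∈ D) → Principal τF D) := by
  have hϖ0 : ϖ ≠ 0 := by
    rintro rfl
    exact hϖ2 (Ideal.zero_mem _)
  obtain ⟨g, x, M, α, e, hN⟩ := exists_nfData h hϖ hϖ0 hϖ2 hA hW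
  refine ⟨cen ϖ ε n x fun i => τA (x i) - x i, fun j hj y hy => map_mem_cen h hϖ0 hN hj hy,
    exists_pow_le_cen h hA hN, fun D hD hle hdom b hb0 hbm hbd hgen => ?_⟩
  refine wild_sit hN τF hτF2 ?_ ?_ ?_ D hD hle hdom b hb0 hbm hbd hgen
  · rw [← hτA, h.unif]
    rfl
  · intro i
    rw [← hτA]
    have : τA (x i) = x i + (τA (x i) - x i) := by ring
    exact congrArg Subtype.val this
  · intro a
    refine ⟨τA a - a, sub_mem_span h hN.par a, ?_⟩
    rw [← hτA]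
    rfl

theorem prime_of_notMem_sq {A : Type} [CommRing A] [IsRegularLocalRing A] {ϖ : A}
    (hϖ : ϖ ∈ maximalIdeal A) (hϖ2 : ϖ ∉ maximalIdeal A ^ 2) : Prime ϖ := by
  have h0 : ϖ ≠ 0 := by
    rintro rfl
    exact hϖ2 (Ideal.zero_mem _)
  have := isRegularLocalRing_quotient (inferInstance : IsRegularLocalRing A) hϖ hϖ2
  have hdom : IsDomain (A ⧸ Ideal.span {ϖ}) := isDomain_aux _ _ le_rfl
  exact (Ideal.span_singleton_prime h0).mp ((Ideal.Quotient.isDomain_iff_prime _).mp hdom)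

/-- The ideals `c j`, `1 ≤ j ≤ R`, of the local ring `A` resolve the fixed point of the
involution. -/
structure GoodCen {F : Type} [Field F] (τF : F →+* F) (A : Subring F) [IsLocalRing A] (R : ℕ)
    (c : ℕ → Ideal A) : Prop where
  stable : ∀ j ∈ Finset.Icc 1 R, ∀ a ∈ c j, ∃ b ∈ c j, (b : F) = τF a
  pow : ∃ N, ∀ j ∈ Finset.Icc 1 R, maximalIdeal A ^ N ≤ c j
  good : ∀ D : Subring F, IsLocalRing D → A ≤ D → (∀ a ∈ A, ∀ b ∈ D, a * b = 1 → b ∈ A) →
    ∀ b : ℕ → F, (∀ j ∈ Finset.Icc 1 R, b j ≠ 0 ∧ (∃ a ∈ c j, (a : F) = b j) ∧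
      ∀ a ∈ c j, (a : F) / b j ∈ D) →
    (∀ R' : Subring F, R' ≤ D → (∀ a ∈ R', ∀ b ∈ D, a * b = 1 → b ∈ R') → A ≤ R' →
      (∀ j ∈ Finset.Icc 1 R, ∀ a ∈ c j, (a : F) / b j ∈ R') → D ≤ R') →
    IsRegularLocalRing D ∧ ((∀ z ∈ D, τF z ∈ D) → Principal τF D)

/-- **The local theorem at a wild ordinary fixed point over a number ring.** -/
theorem exists_goodCen {F : Type} [Field F] {A : Subring F} [IsRegularLocalRing A]
    [Finite (ResidueField A)] {ϖ ε : A} {n : ℕ} (τF : F →+* F) (hτF2 : ∀ y, τF (τF y) = y)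
    (τA : A →+* A) (hτA : ∀ a, (τA a : F) = τF a) (h : Inv τA ϖ ε n)
    (hϖ : ϖ ∈ maximalIdeal A) (hϖ2 : ϖ ∉ maximalIdeal A ^ 2)
    (hA : ∀ f ∈ maximalIdeal A, f ^ 2 ∈ Ideal.span {ϖ} ⊔ augIdeal τA)
    {R : Type} [CommRing R] (ρ : R →+* A) (hρ : ∀ r, τA (ρ r) = ρ r)
    (h0 : ∃ r, ρ r = ϖ * τA ϖ) (ht : ∃ r, ρ r = ϖ + τA ϖ)
    (h1 : ∀ r, ρ r ∈ maximalIdeal A → ∃ r', ρ r = ϖ * τA ϖ * ρ r') :
    ∃ c, GoodCen τF A (2 * n + 1) c := by
  obtain ⟨I, hI1, ⟨N, hI2⟩, hI3⟩ := exists_ideals_of_ordinary τF hτF2 τA hτA h hϖ hϖ2 hA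
    fun N => exists_coef ρ h (prime_of_notMem_sq hϖ hϖ2) hϖ hρ h0 ht h1 N
  have hle : ∀ j ∈ Finset.Icc 1 (2 * n + 1), j - 1 ≤ 2 * n := fun j hj => by
    have := (Finset.mem_Icc.mp hj).2
    omega
  have hmem : ∀ j ≤ 2 * n, j + 1 ∈ Finset.Icc 1 (2 * n + 1) := fun j hj =>
    Finset.mem_Icc.mpr ⟨by omega, by omega⟩
  refine ⟨fun j => I (j - 1), ?_, ⟨N, fun j hj => hI2 _ (hle j hj)⟩, ?_⟩
  · intro j hj a ha
    exact ⟨τA a, hI1 _ (hle j hj) a ha, hτA a⟩
  · intro D hD hAD hdom b hb hgen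
    have hb2 : ∀ j ≤ 2 * n, ∃ a ∈ I j, (a : F) = b (j + 1) := fun j hj => by
      have := (hb (j + 1) (hmem j hj)).2.1
      simpa using this
    choose! a ha1 ha2 using hb2
    refine hI3 D hD hAD hdom a (fun j hj => ?_) (fun j hj => ha1 j hj) (fun j hj y hy => ?_) ?_
    · rw [ha2 j hj]
      exact (hb _ (hmem j hj)).1
    · rw [ha2 j hj]
      refine (hb _ (hmem j hj)).2.2 y ?_
      simpa using hy
    · intro R' h1 h2 h3 h4
      refine hgen R' h1 h2 h3 fun j hj y hy => ?_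
      have h5 := h4 (j - 1) (hle j hj) y hy
      rw [ha2 _ (hle j hj)] at h5
      have h6 : j - 1 + 1 = j := by
        have := (Finset.mem_Icc.mp hj).1
        omega
      rwa [h6] at h5

end Pool.Agent.Lib.MP_6a3dac_ag.QD
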