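import Pool.Agent.Lib.MP_6a3dac_ag.QD.Wild

/-!
# The local theorem at all primes
-/

set_option autoImplicit false
set_option linter.unusedSectionVars false
set_option linter.unusedVariables false

namespace Pool.Agent.Lib.MP_6a3dac_ag.QD

open MvPolynomial CategoryTheory Limits AlgebraicGeometry IsLocalRing
open Pool.Agent.Lib.MP_6a3dac_ag Pool.Agent.Lib.MP_6a3dac_ag.DNF Pool.Agent.Lib.MP_6a3dac_ag.Bert

variable {R O L M F : Type} [CommRing R] [CommRing O] [Algebra R O] [Field L] [Algebra R L]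
  [Algebra O L] [IsScalarTower R O L] [CommRing M] [Algebra L M] [Algebra R M]
  [IsScalarTower R L M] [Field F]
  {n : ℕ} {I : HomIdeal O (n + 1)} {ρ : Equiv.Perm (Fin (n + 1))} {σ : O →+* O}
  {ℳ : ℕ → Submodule L M} {τ : M →+* M} {ι : M →+* F} {τF : F →+* F}
  {pM : MvPolynomial (Fin (n + 1)) O →+* M}

theorem Setting.exists_cent_dyadic (S : Setting R I ρ σ ℳ τ ι τF pM) [IsDomain M]
    [IsDedekindDomain O] [IsJacobsonRing O] [GradedAlgebra ℳ]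
    (hfin : ∀ y : hProj I, y ∈ closedPoints (hProj I) → ∀ [IsLocalRing (locY I (ι.comp pM) y)],
      Finite (ResidueField (locY I (ι.comp pM) y)))
    {p : Ideal R} [hp : p.IsPrime] {𝔓 : Ideal O} [h𝔓 : 𝔓.IsPrime]
    (hp𝔓 : 𝔓.comap (algebraMap R O) = p) {ϖ : O} {s : ℕ}
    (hirr : Irreducible (algebraMap O (Localization.AtPrime 𝔓) ϖ))
    (hσ : ∀ c, σ c - c ∈ 𝔓) (hram : Ram O L M τ p ϖ s)
    (h2 : ∀ c ∈ lamP O L M p, (2 : M) * c ≠ 1) (hsm : RegularFix ρ I 𝔓)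
    (hord : OrdinaryFix ρ I 𝔓) :
    ∃ (ϖ' : O) (δ r : ℕ) (B : ℕ → Set M), Cent ℳ (fun k => pM (X k)) τ p ϖ' δ r B ∧
      ∀ (D : Subring F) (i : Fin (n + 1)) (β : ℕ → M),
        LocSit ι (fun k => pM (X k)) B (lamP O L M p) r D i β → IsRegularLocalRing D ∧
          ((∀ z ∈ D, τF z ∈ D) → Principal τF D) := by
  classical
  have hreg : ∀ y : hProj I, IsRegularLocalRing (locY I (ι.comp pM) y) := S.regY
  have hloc : ∀ y : hProj I, IsLocalRing (locY I (ι.comp pM) y) := fun y => inferInstance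
  obtain ⟨hSfin, hScl⟩ := finite_fixPt (I := I) hord
  obtain ⟨r, hr⟩ : ∃ r, r = 2 * (s - 1) + 1 := ⟨_, rfl⟩
  -- the ideals
  have h1 : ∀ y : hProj I, ∃ c : ℕ → Ideal (locY I (ι.comp pM) y), FixPt ρ 𝔓 y →
      (∃ ϖA ∈ maximalIdeal (locY I (ι.comp pM) y), (ϖA : F) = ι (oM O L M ϖ)) ∧
      GoodCen τF (locY I (ι.comp pM) y) r c := by
    intro y
    by_cases hy : FixPt ρ 𝔓 y
    · have : Finite (ResidueField (locY I (ι.comp pM) y)) := hfin y (hScl y hy)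
      obtain ⟨h1, c, hc⟩ := S.exists_good_at hp𝔓 hirr hσ hram h2 hy hsm hord
      exact ⟨c, fun _ => ⟨h1, hr ▸ hc⟩⟩
    · exact ⟨fun _ => ⊤, fun h => absurd h hy⟩
  choose c hc using h1
  -- a common exponent
  obtain ⟨N, hN⟩ : ∃ N, ∀ y, FixPt ρ 𝔓 y → ∀ j ∈ Finset.Icc 1 r,
      maximalIdeal (locY I (ι.comp pM) y) ^ N ≤ c y j := by
    have h2 : ∀ y : hProj I, ∃ N, FixPt ρ 𝔓 y → ∀ j ∈ Finset.Icc 1 r,
        maximalIdeal (locY I (ι.comp pM) y) ^ N ≤ c y j := by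
      intro y
      by_cases hy : FixPt ρ 𝔓 y
      · obtain ⟨N, hN⟩ := (hc y hy).2.pow
        exact ⟨N, fun _ => hN⟩
      · exact ⟨0, fun h => absurd h hy⟩
    choose N hN using h2
    refine ⟨∑ y ∈ hSfin.toFinset, N y, fun y hy j hj => le_trans (Ideal.pow_le_pow_right ?_)
      (hN y hy j hj)⟩
    exact Finset.single_le_sum (f := N) (fun _ _ => Nat.zero_le _)
      (hSfin.mem_toFinset.mpr hy)
  obtain ⟨δ, G, hδ, hG, hG1, hG2⟩ := exists_centre3 (κ := ι.comp pM) S.hκ hSfin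
    (fun y hy => hScl y hy) (r := r) (N := N) (fun j y => c y j)
    (fun j hj y hy => hN y hy j hj)
  have hη : ∃ η ∈ lamP O L M p, τ (oM O L M (ϖ ^ N)) = η * oM O L M (ϖ ^ N) := by
    obtain ⟨ε, hε, ε', -, h3, -⟩ := hram.eps
    refine ⟨(1 + ε * oM O L M ϖ ^ (s - 1)) ^ N, Subring.pow_mem _ (Subring.add_mem _
      (Subring.one_mem _) (Subring.mul_mem _ hε (Subring.pow_mem _ (oM_mem_lamP p ϖ) _))) _, ?_⟩
    have h4 : τ (oM O L M ϖ) = (1 + ε * oM O L M ϖ ^ (s - 1)) * oM O L M ϖ := by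
      obtain ⟨s', rfl⟩ : ∃ s', s = s' + 1 := ⟨s - 1, by have := hram.pos; omega⟩
      rw [Nat.add_sub_cancel]
      rw [pow_succ] at h3
      linear_combination h3
    rw [map_pow, map_pow, h4, mul_pow]
  refine ⟨ϖ ^ N, δ, r, fun j => cB τ pM δ (oM O L M (ϖ ^ N) ^ j) (G j),
    S.cent_cB p hδ hG (pow_ne_zero _ hram.ϖ0) hη, fun D i β hD => ?_⟩
  obtain ⟨y, hi, hA, hpt⟩ := S.exists_around p hD
  by_cases hy : FixPt ρ 𝔓 y
  · -- a fixed point
    have hst := (hc y hy).2.stable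
    have he : ∀ j ∈ Finset.Icc 1 r, ∃ a ∈ c y j, (a : F) = ι (oM O L M (ϖ ^ N) ^ j) := by
      intro j hj
      obtain ⟨⟨ϖA, h5, h6⟩, -⟩ := hc y hy
      refine ⟨ϖA ^ (N * j), hN y hy j hj (Ideal.pow_le_pow_right (Nat.le_mul_of_pos_right N
        (Finset.mem_Icc.mp hj).1) (Ideal.pow_mem_pow h5 _)), ?_⟩
      rw [Subring.coe_pow, h6, map_pow, map_pow, map_pow, pow_mul]
    have hcB : ∀ j ∈ Finset.Icc 1 r, c y j = Ideal.span {a : locY I (ι.comp pM) y |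
        ∃ b ∈ cB τ pM δ (oM O L M (ϖ ^ N) ^ j) (G j), (a : F) = ι b / ι (pM (X i)) ^ δ} :=
      fun j hj => S.span_cB hi (hst j hj) (hG1 j hj y hy i hi) (he j hj)
    refine (hc y hy).2.apply hD hA (fun j hj b hb => ?_) hcB
    have hb' : b ∈ cB τ pM δ (oM O L M ((ϖ ^ N) ^ j)) (G j) := by
      rw [map_pow]
      exact hb
    obtain ⟨g, hg, rfl⟩ := S.cB_homog (hG j) hb'
    have hX : (X i ^ δ : MvPolynomial (Fin (n + 1)) O).IsHomogeneous δ := by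
      simpa using (isHomogeneous_X O i).pow δ
    have := div_mem_locY (κ := ι.comp pM) S.hκ hg hX
      (fun h => hi ((ptIdeal_spec I y).1.mem_of_pow_mem _ h)) (I := I) (y := y)
    rwa [map_pow] at this
  · have hD' : LocSit ι (fun k => pM (X k))
        (fun j => cB τ pM δ (oM O L M ((ϖ ^ N) ^ j)) (G j)) (lamP O L M p) r D i β := by
      have h7 : (fun j => cB τ pM δ (oM O L M ((ϖ ^ N) ^ j)) (G j)) =
          fun j => cB τ pM δ (oM O L M (ϖ ^ N) ^ j) (G j) := by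
        funext j
        rw [map_pow (oM O L M) (ϖ ^ N) j]
      rw [h7]
      exact hD
    exact S.local_not_fixed hp𝔓 hram hG hD' hi hA hpt hy fun j hj => hG2 j hj y hy

/-- **The local theorem at the ramified primes.** -/
theorem Setting.exists_cent (S : Setting R I ρ σ ℳ τ ι τF pM) [IsDomain M]
    [IsDedekindDomain O] [IsJacobsonRing O] [GradedAlgebra ℳ]
    (hfin : ∀ y : hProj I, y ∈ closedPoints (hProj I) → ∀ [IsLocalRing (locY I (ι.comp pM) y)],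
      Finite (ResidueField (locY I (ι.comp pM) y)))
    (p : Ideal R) [hpm : p.IsMaximal] [Finite (R ⧸ p)] (hp0 : p ≠ ⊥) (hU : ¬ UnramAt σ p)
    (hw : ∀ (𝔓 : Ideal O) [𝔓.IsPrime], (2 : O) ∈ 𝔓 → (∀ c, σ c - c ∈ 𝔓) →
      RegularFix ρ I 𝔓 ∧ OrdinaryFix ρ I 𝔓) :
    ∃ (ϖ' : O) (δ r : ℕ) (B : ℕ → Set M), Cent ℳ (fun k => pM (X k)) τ p ϖ' δ r B ∧
      ∀ (D : Subring F) (i : Fin (n + 1)) (β : ℕ → M),
        LocSit ι (fun k => pM (X k)) B (lamP O L M p) r D i β → IsRegularLocalRing D ∧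
          ((∀ z ∈ D, τF z ∈ D) → Principal τF D) := by
  obtain ⟨𝔓, h𝔓, hp𝔓⟩ := S.quad.exists_prime_over p
  have hσ := S.quad.sub_mem_of_not_unram hU hp𝔓
  obtain ⟨ϖ, s, hram, hirr⟩ := exists_ram (L := L) (M := M) S.quad S.RL S.τO p S.OL hp0 hU hp𝔓
  by_cases h2 : ∃ c ∈ lamP O L M p, (2 : M) * c = 1
  · obtain ⟨δ, r, B, h1⟩ := S.exists_cent_odd p hram h2
    exact ⟨ϖ, δ, r, B, h1⟩
  · push Not at h2
    have h2𝔓 : (2 : O) ∈ 𝔓 := by
      by_contra h3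
      obtain ⟨m, hm, hm2⟩ := S.quad.exists_dvd hp𝔓 hσ h3
      obtain ⟨v, hv, hv1, -⟩ := exists_inv_lamP' (M := M) S.quad S.RL S.τO p hm
      refine h2 (oM O L M (σ 2) * v) (Subring.mul_mem _ (oM_mem_lamP p _) hv) ?_
      rw [← mul_assoc, ← hv1, ← oM_algebraMap (O := O) (L := L), hm2, map_mul (oM O L M)]
      simp only [map_ofNat]
    obtain ⟨hsm, hord⟩ := hw 𝔓 h2𝔓 hσ
    exact S.exists_cent_dyadic hfin hp𝔓 hirr hσ hram h2 hsm hord

end Pool.Agent.Lib.MP_6a3dac_ag.QD
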