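import Pool.Agent.Lib.MP_6a3dac_ag.QD.Coef

/-!
# The normal form
-/

set_option autoImplicit false
set_option linter.unusedSectionVars false

namespace Pool.Agent.Lib.MP_6a3dac_ag.QD

open IsLocalRing MvPolynomial

section Err

variable {D : Type} [CommRing D] {ι : Type}

/-- The ideal of the error terms of the normal form. -/
def Err (ϖ : D) (n : ℕ) (x : ι → D) : Ideal D :=
  Ideal.span {ϖ} * Ideal.span (Set.range x) ^ 2 ⊔ Ideal.span (Set.range x) ^ 3 ⊔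
    Ideal.span {ϖ ^ (n + 1)} * Ideal.span (Set.range x)

/-- A larger ideal. -/
def Err' (ϖ : D) (n : ℕ) (x : ι → D) : Ideal D :=
  Ideal.span (Set.range x) ^ 2 ⊔ Ideal.span {ϖ ^ n} * Ideal.span (Set.range x) ⊔
    Ideal.span {ϖ ^ (2 * n)}

end Err

variable {D : Type} [CommRing D] [IsRegularLocalRing D] {τ : D →+* D} {ϖ ε : D} {n : ℕ}
  {ι : Type} [Fintype ι] [DecidableEq ι] {x : ι → D} {M : ι → ι → D} {b : ι → D}

-- BEGIN N28
theorem n28_main (hp : Par ϖ x) (k : ℕ) : ∀ i j : ℕ, 4 * n + 3 ≤ 2 * i + j + k →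
    ∀ z ∈ Ideal.span (Set.range x) ^ j, ∀ y ∈ maximalIdeal D ^ k,
      ϖ ^ i * z * y ∈ Err ϖ n x ⊔ Ideal.span {ϖ ^ (2 * n)} := by
  induction k with
  | zero =>
    intro i j hij z hz y _
    by_cases hi : 2 * n ≤ i
    · refine Ideal.mem_sup_right (Ideal.mem_span_singleton.2 ?_)
      exact Dvd.dvd.mul_right (Dvd.dvd.mul_right (pow_dvd_pow ϖ hi) z) y
    · have h3 : 3 ≤ j := by omega
      have h1 : z ∈ Ideal.span (Set.range x) ^ 3 := Ideal.pow_le_pow_right h3 hz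
      have h2 : z ∈ Err ϖ n x := Ideal.mem_sup_left (Ideal.mem_sup_right h1)
      exact Ideal.mem_sup_left (Ideal.mul_mem_right _ _ (Ideal.mul_mem_left _ _ h2))
  | succ k ih =>
    intro i j hij z hz y hy
    rw [pow_succ'] at hy
    refine Submodule.mul_induction_on hy ?_ ?_
    · intro a ha b hb
      rw [hp.span, Ideal.span_insert, Submodule.mem_sup] at ha
      obtain ⟨a₁, ha₁, a₂, ha₂, rfl⟩ := ha
      obtain ⟨c, rfl⟩ := Ideal.mem_span_singleton.1 ha₁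
      have h1 := ih (i + 1) j (by omega) z hz (c * b) (Ideal.mul_mem_left _ _ hb)
      have h2 := ih i (j + 1) (by omega) (z * a₂)
        (by rw [pow_succ]; exact Ideal.mul_mem_mul hz ha₂) b hb
      have h3 : ϖ ^ i * z * ((ϖ * c + a₂) * b) =
          ϖ ^ (i + 1) * z * (c * b) + ϖ ^ i * (z * a₂) * b := by ring
      rw [h3]
      exact Ideal.add_mem _ h1 h2
    · intro a b ha hb
      rw [mul_add]
      exact Ideal.add_mem _ ha hb

/-- TASK N28. By `fil_induction`, or termwise: for `ϖ ^ i m ^ k`, `2 i + k ≥ 4 n + 3`: `i ≥ 2 n` clear;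
otherwise `m ^ k = ((ϖ) + X) ^ k`, `X = span (range x)`, is the sum of the `ϖ ^ a X ^ (k - a)`; either
`i + a ≥ 2 n` or `k - a ≥ 4 n + 3 - 2 (i + a) + a ≥ 3`. -/
theorem fil_le_err (hp : Par ϖ x) (hn : 1 ≤ n) :
    Fil ϖ (4 * n + 3) ≤ Err ϖ n x ⊔ Ideal.span {ϖ ^ (2 * n)} := by
  intro f hf
  refine fil_induction (p := fun f => f ∈ Err ϖ n x ⊔ Ideal.span {ϖ ^ (2 * n)})
    (Ideal.zero_mem _) (fun a b ha hb => Ideal.add_mem _ ha hb) ?_ hf
  intro i k y hik hy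
  have h := n28_main hp k i 0 (by omega) 1 (by rw [pow_zero, Ideal.one_eq_top]; exact Submodule.mem_top) y hy
  rwa [mul_one] at h

/-- TASK N28. -/
theorem err_le_err' (hn : 1 ≤ n) : Err ϖ n x ≤ Err' ϖ n x := by
  unfold Err Err'
  refine sup_le (sup_le ?_ ?_) ?_
  · intro a ha
    have h1 : Ideal.span {ϖ} * Ideal.span (Set.range x) ^ 2 ≤ Ideal.span (Set.range x) ^ 2 :=
      Ideal.mul_le_right
    exact Ideal.mem_sup_left (Ideal.mem_sup_left (h1 ha))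
  · intro a ha
    have h1 : Ideal.span (Set.range x) ^ 3 ≤ Ideal.span (Set.range x) ^ 2 :=
      Ideal.pow_le_pow_right (by norm_num)
    exact Ideal.mem_sup_left (Ideal.mem_sup_left (h1 ha))
  · intro a ha
    refine Ideal.mem_sup_left (Ideal.mem_sup_right ?_)
    have h1 : Ideal.span {ϖ ^ (n + 1)} ≤ Ideal.span {ϖ ^ n} := by
      rw [Ideal.span_singleton_le_span_singleton]
      exact pow_dvd_pow ϖ (Nat.le_succ n)
    exact Ideal.mul_mono_left h1 ha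

/-- TASK N28. Shifting the parameters by multiples of `ϖ`. -/
theorem Par.shift (hp : Par ϖ x) {x' : ι → D} (hx : ∀ i, ϖ ∣ x' i - x i) : Par ϖ x' := by
  refine ⟨?_, hp.dim⟩
  rw [hp.span]
  refine le_antisymm (Ideal.span_le.2 ?_) (Ideal.span_le.2 ?_)
  · rintro _ (rfl | ⟨i, rfl⟩)
    · exact Ideal.subset_span (Set.mem_insert _ _)
    · obtain ⟨c, hc⟩ := hx i
      have h1 : x i = x' i - ϖ * c := by rw [← hc]; ring
      rw [SetLike.mem_coe, h1]
      exact Ideal.sub_mem _ (Ideal.subset_span (Set.mem_insert_of_mem _ ⟨i, rfl⟩))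
        (Ideal.mul_mem_right _ _ (Ideal.subset_span (Set.mem_insert _ _)))
  · rintro _ (rfl | ⟨i, rfl⟩)
    · exact Ideal.subset_span (Set.mem_insert _ _)
    · obtain ⟨c, hc⟩ := hx i
      have h1 : x' i = x i + ϖ * c := by rw [← hc]; ring
      rw [SetLike.mem_coe, h1]
      exact Ideal.add_mem _ (Ideal.subset_span (Set.mem_insert_of_mem _ ⟨i, rfl⟩))
        (Ideal.mul_mem_right _ _ (Ideal.subset_span (Set.mem_insert _ _)))
-- END N28

-- BEGIN N29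
/-- TASK N29. The first approximation: the differences lie in `Err'`. Put `z i = τ (x i) - x i`. Then
`x τ x = x ^ 2 + x z`, `x τ d + τ x d = x (d + τ d) + z d`, so
`z i = - 2 x i + ∑ l, M i l (x l ^ 2 + x l z l + x l (d l + τ (d l)) + z l d l) + π ^ n w i + g i`,
`π = ϖ τ ϖ`. Here `d l ∈ (ϖ)`, `d l + τ (d l) = 2 π u l + v l (2 ϖ + ε ϖ ^ (n + 1)) ∈ (ϖ ^ (n + 1))`,
`2 ∈ (ϖ ^ n)`, `π ^ n ∈ (ϖ ^ (2 n))`. So with `Z = span (range z)`: `Z ≤ Err' ⊔ m Z`; Nakayama. -/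
theorem sub_mem_err' (h : Inv τ ϖ ε n) (hp : Par ϖ x) {d g w : ι → D} {u v : ι → D}
    (hd : ∀ i, d i = ϖ * τ ϖ * u i + v i * ϖ) (hu : ∀ i, τ (u i) = u i)
    (hv : ∀ i, τ (v i) = v i) (hg : ∀ i, g i ∈ Err ϖ n x ⊔ Ideal.span {ϖ ^ (2 * n)})
    (he : ∀ i, x i + τ (x i) = ∑ l, M i l * (x l * τ (x l) + x l * τ (d l) + τ (x l) * d l) +
      (ϖ * τ ϖ) ^ n * w i + g i) (i : ι) : τ (x i) - x i ∈ Err' ϖ n x := by
  obtain ⟨t, ht⟩ := h.two
  have hxm : ∀ l, x l ∈ maximalIdeal D := fun l => by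
    rw [hp.span]; exact Ideal.subset_span (Set.mem_insert_of_mem _ ⟨l, rfl⟩)
  have hϖm : ϖ ∈ maximalIdeal D := by
    rw [hp.span]; exact Ideal.subset_span (Set.mem_insert _ _)
  have hxX : ∀ l, x l ∈ Ideal.span (Set.range x) := fun l => Ideal.subset_span ⟨l, rfl⟩
  set z : ι → D := fun l => τ (x l) - x l with hz
  have hzZ : ∀ l, z l ∈ Ideal.span (Set.range z) := fun l => Ideal.subset_span ⟨l, rfl⟩
  have hdm : ∀ l, d l ∈ maximalIdeal D := fun l => by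
    rw [hd l]
    exact Ideal.add_mem _ (Ideal.mul_mem_right _ _ (Ideal.mul_mem_right _ _ hϖm))
      (Ideal.mul_mem_left _ _ hϖm)
  have e1 : ∀ a : D, a ∈ Ideal.span (Set.range x) ^ 2 → a ∈ Err' ϖ n x := fun a ha =>
    Ideal.mem_sup_left (Ideal.mem_sup_left ha)
  have e2 : ∀ a c : D, a ∈ Ideal.span (Set.range x) → ϖ ^ n * c * a ∈ Err' ϖ n x := by
    intro a c ha
    refine Ideal.mem_sup_left (Ideal.mem_sup_right ?_)
    exact Ideal.mul_mem_mul (Ideal.mul_mem_right _ _ (Ideal.mem_span_singleton_self _)) ha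
  have e3 : ∀ c : D, ϖ ^ (2 * n) * c ∈ Err' ϖ n x := fun c =>
    Ideal.mem_sup_right (Ideal.mul_mem_right _ _ (Ideal.mem_span_singleton_self _))
  have hττ : τ (ϖ * τ ϖ) = ϖ * τ ϖ := by rw [map_mul, h.invol, mul_comm]
  have hdd : ∀ l, ∃ c, d l + τ (d l) = ϖ ^ n * c := by
    intro l
    refine ⟨t * (ϖ * τ ϖ) * u l + v l * (t * ϖ + ε * ϖ), ?_⟩
    have h1 : τ (d l) = ϖ * τ ϖ * u l + v l * (ϖ + ε * ϖ ^ (n + 1)) := by
      rw [hd l, map_add, map_mul, hττ, hu, map_mul, hv, h.unif]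
    rw [h1, hd l]
    have h2 : ϖ * τ ϖ * u l + v l * ϖ + (ϖ * τ ϖ * u l + v l * (ϖ + ε * ϖ ^ (n + 1))) =
        2 * (ϖ * τ ϖ * u l + v l * ϖ) + v l * ε * (ϖ ^ n * ϖ) := by
      rw [pow_succ]; ring
    rw [h2, ht]
    ring
  have hmain : ∀ i, z i ∈ Err' ϖ n x ⊔ maximalIdeal D • Ideal.span (Set.range z) := by
    intro i
    have h1 : z i = ∑ l, M i l * (x l * τ (x l) + x l * τ (d l) + τ (x l) * d l) +
        (ϖ * τ ϖ) ^ n * w i + g i - 2 * x i := by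
      rw [← he i, hz]; ring
    have h2 : ∀ l, M i l * (x l * τ (x l) + x l * τ (d l) + τ (x l) * d l) =
        (M i l * (x l ^ 2) + M i l * (x l * (d l + τ (d l)))) +
          (M i l * (x l * z l) + M i l * (d l * z l)) := by
      intro l
      have h3 : τ (x l) = x l + z l := by rw [hz]; ring
      rw [h3]; ring
    rw [h1]
    refine Ideal.sub_mem _ (Ideal.add_mem _ (Ideal.add_mem _ (Ideal.sum_mem _ fun l _ => ?_) ?_)
      ?_) ?_
    · rw [h2 l]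
      refine Ideal.add_mem _ (Ideal.mem_sup_left ?_) (Ideal.mem_sup_right ?_)
      · refine Ideal.add_mem _ (Ideal.mul_mem_left _ _ (e1 _ (Ideal.pow_mem_pow (hxX l) 2))) ?_
        obtain ⟨c, hc⟩ := hdd l
        rw [hc]
        have h4 : M i l * (x l * (ϖ ^ n * c)) = ϖ ^ n * (M i l * c) * x l := by ring
        rw [h4]
        exact e2 _ _ (hxX l)
      · rw [smul_eq_mul]
        exact Ideal.add_mem _ (Ideal.mul_mem_left _ _ (Ideal.mul_mem_mul (hxm l) (hzZ l)))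
          (Ideal.mul_mem_left _ _ (Ideal.mul_mem_mul (hdm l) (hzZ l)))
    · refine Ideal.mem_sup_left ?_
      have h3 : (ϖ * τ ϖ) ^ n * w i = ϖ ^ (2 * n) * ((1 + ε * ϖ ^ n) ^ n * w i) := by
        rw [h.unif]
        have h4 : ϖ * (ϖ + ε * ϖ ^ (n + 1)) = ϖ ^ 2 * (1 + ε * ϖ ^ n) := by ring
        rw [h4, mul_pow, ← pow_mul]
        ring
      rw [h3]
      exact e3 _
    · refine Ideal.mem_sup_left ?_
      have h3 := hg i
      rw [Submodule.mem_sup] at h3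
      obtain ⟨a, ha, b, hb, hab⟩ := h3
      rw [← hab]
      obtain ⟨c, rfl⟩ := Ideal.mem_span_singleton.1 hb
      exact Ideal.add_mem _ (err_le_err' h.pos ha) (e3 c)
    · refine Ideal.mem_sup_left ?_
      have h3 : 2 * x i = ϖ ^ n * t * x i := by rw [ht]; ring
      rw [h3]
      exact e2 _ _ (hxX i)
  have hle : Ideal.span (Set.range z) ≤
      Err' ϖ n x ⊔ maximalIdeal D • Ideal.span (Set.range z) := by
    rw [Ideal.span_le]
    rintro _ ⟨l, rfl⟩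
    exact hmain l
  have hfg : (Ideal.span (Set.range z)).FG := Submodule.fg_span (Set.finite_range z)
  have hnak := Submodule.le_of_le_smul_of_le_jacobson_bot hfg
    (IsLocalRing.maximalIdeal_le_jacobson ⊥) hle
  exact hnak (hzZ i)
-- END N29

-- BEGIN N30
/-- The traces of `d` are divisible by `ϖ ^ (n + 1)`. -/
theorem n30_tr (h : Inv τ ϖ ε n) {d u v : D} (hd : d = ϖ * τ ϖ * u + v * ϖ) (hu : τ u = u)
    (hv : τ v = v) : ∃ a, d + τ d = a * ϖ ^ (n + 1) := by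
  obtain ⟨b, hb⟩ := h.two
  have hpi : τ (ϖ * τ ϖ) = ϖ * τ ϖ := by rw [map_mul, h.invol, mul_comm]
  have h1 : τ d = ϖ * τ ϖ * u + v * τ ϖ := by
    rw [hd, map_add, map_mul τ (ϖ * τ ϖ) u, map_mul τ v ϖ, hpi, hu, hv]
  refine ⟨b * τ ϖ * u + v * (b + ε), ?_⟩
  rw [h1, hd]
  have h2 : ϖ * τ ϖ * u + v * ϖ + (ϖ * τ ϖ * u + v * τ ϖ)
      = 2 * (ϖ * τ ϖ * u) + v * (ϖ + τ ϖ) := by ring
  have h3 : ϖ + τ ϖ = 2 * ϖ + ε * ϖ ^ (n + 1) := by rw [h.unif]; ring
  rw [h2, h3, hb, pow_succ]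
  ring

/-- The ideal generated by `ϖ` is contained in a shifted one. -/
theorem n30_span_pow {a b : ℕ} (hab : a ≤ b) : Ideal.span {ϖ ^ b} ≤ Ideal.span {ϖ ^ a} :=
  Ideal.span_singleton_le_span_singleton.2 (pow_dvd_pow ϖ hab)

theorem n30_mul_x (h : Inv τ ϖ ε n) (l : ι) {z : D} (hz : z ∈ Err' ϖ n x) :
    x l * z ∈ Err ϖ n x := by
  have hpos := h.pos
  have hx : x l ∈ Ideal.span (Set.range x) := Ideal.subset_span ⟨l, rfl⟩
  have h1 : x l * z ∈ Ideal.span (Set.range x) * Err' ϖ n x := Ideal.mul_mem_mul hx hz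
  have h2 : Ideal.span (Set.range x) * Err' ϖ n x ≤ Err ϖ n x := by
    unfold Err' Err
    rw [Ideal.mul_sup, Ideal.mul_sup]
    refine sup_le (sup_le ?_ ?_) ?_
    · rw [← pow_succ']
      exact le_sup_of_le_left le_sup_right
    · refine le_sup_of_le_left (le_sup_of_le_left ?_)
      rw [mul_left_comm, ← pow_two]
      exact Ideal.mul_mono_left (by
        have := n30_span_pow (ϖ := ϖ) hpos
        rwa [pow_one] at this)
    · refine le_sup_of_le_right ?_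
      rw [mul_comm]
      exact Ideal.mul_mono_left (n30_span_pow (by omega))
  exact h2 h1

theorem n30_mul_unif {z a : D} (hz : z ∈ Err' ϖ n x) :
    z * (a * ϖ) ∈ Err ϖ n x ⊔ Ideal.span {ϖ ^ (2 * n)} := by
  have h1 : z * (a * ϖ) ∈ Ideal.span {ϖ} * Err' ϖ n x := by
    rw [mul_comm z, mul_comm a, mul_assoc]
    exact Ideal.mul_mem_mul (Ideal.mem_span_singleton_self ϖ) (Ideal.mul_mem_left _ _ hz)
  have h2 : Ideal.span {ϖ} * Err' ϖ n x ≤ Err ϖ n x ⊔ Ideal.span {ϖ ^ (2 * n)} := by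
    unfold Err' Err
    rw [Ideal.mul_sup, Ideal.mul_sup]
    refine sup_le (sup_le ?_ ?_) ?_
    · exact le_sup_of_le_left (le_sup_of_le_left le_sup_left)
    · refine le_sup_of_le_left (le_sup_of_le_right ?_)
      rw [← mul_assoc, Ideal.span_singleton_mul_span_singleton, ← pow_succ']
    · refine le_sup_of_le_right ?_
      rw [Ideal.span_singleton_mul_span_singleton, ← pow_succ']
      exact n30_span_pow (by omega)
  exact h2 h1

/-- TASK N30. The normal form from the trace relation. As in `sub_mem_err'`,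
`z i = ∑ l, M i l * x l ^ 2 - 2 x i + (∑ l, M i l (x l z l + x l (d l + τ (d l)) + z l d l) + π ^ n w i + g i)`
and by `sub_mem_err'` the bracket is in `Err ⊔ (ϖ ^ (2 n))`: `X Err' ≤ Err` (`X = span (range x)`,
`n ≥ 1`), `ϖ ^ (n + 1) X ≤ Err`, `ϖ Err' ≤ Err ⊔ (ϖ ^ (2 n))`. -/
theorem nf_of_trace (h : Inv τ ϖ ε n) (hp : Par ϖ x) {d g w u v : ι → D}
    (hd : ∀ i, d i = ϖ * τ ϖ * u i + v i * ϖ) (hu : ∀ i, τ (u i) = u i)
    (hv : ∀ i, τ (v i) = v i) (hg : ∀ i, g i ∈ Err ϖ n x ⊔ Ideal.span {ϖ ^ (2 * n)})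
    (he : ∀ i, x i + τ (x i) = ∑ l, M i l * (x l * τ (x l) + x l * τ (d l) + τ (x l) * d l) +
      (ϖ * τ ϖ) ^ n * w i + g i) (i : ι) : ∃ α, ∃ e ∈ Err ϖ n x,
      τ (x i) - x i = ∑ l, M i l * x l ^ 2 - 2 * x i + α * ϖ ^ (2 * n) + e := by
  have hz : ∀ l, τ (x l) - x l ∈ Err' ϖ n x := fun l => sub_mem_err' h hp hd hu hv hg he l
  obtain ⟨I, hI⟩ : ∃ I : Ideal D, I = Err ϖ n x ⊔ Ideal.span {ϖ ^ (2 * n)} := ⟨_, rfl⟩
  have t1 : ∀ l, x l * (τ (x l) - x l) ∈ I := fun l =>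
    hI ▸ Ideal.mem_sup_left (n30_mul_x h l (hz l))
  have t2 : ∀ l, x l * (d l + τ (d l)) ∈ I := by
    intro l
    obtain ⟨a, ha⟩ := n30_tr h (hd l) (hu l) (hv l)
    have e1 : x l * (d l + τ (d l)) = (a * ϖ ^ (n + 1)) * x l := by rw [ha, mul_comm]
    have e2 : (a * ϖ ^ (n + 1)) * x l ∈ Ideal.span {ϖ ^ (n + 1)} * Ideal.span (Set.range x) :=
      Ideal.mul_mem_mul (Ideal.mul_mem_left _ _ (Ideal.mem_span_singleton_self _))
        (Ideal.subset_span ⟨l, rfl⟩)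
    rw [hI, e1]
    exact Ideal.mem_sup_left (Ideal.mem_sup_right e2)
  have t3 : ∀ l, (τ (x l) - x l) * d l ∈ I := by
    intro l
    have e : d l = (τ ϖ * u l + v l) * ϖ := by rw [hd]; ring
    rw [hI, e]
    exact n30_mul_unif (hz l)
  have t4 : (ϖ * τ ϖ) ^ n * w i ∈ I := by
    have e1 : ϖ * τ ϖ = ϖ ^ 2 * (1 + ε * ϖ ^ n) := by
      rw [h.unif, pow_succ]
      ring
    have e : (ϖ * τ ϖ) ^ n * w i = ((1 + ε * ϖ ^ n) ^ n * w i) * ϖ ^ (2 * n) := by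
      rw [e1, mul_pow, ← pow_mul]
      ring
    rw [hI, e]
    exact Ideal.mem_sup_right (Ideal.mul_mem_left _ _ (Ideal.mem_span_singleton_self _))
  have hbr : (∑ l, M i l * (x l * (τ (x l) - x l) + x l * (d l + τ (d l))
      + (τ (x l) - x l) * d l)) + (ϖ * τ ϖ) ^ n * w i + g i ∈ I :=
    I.add_mem (I.add_mem (I.sum_mem fun l _ => I.mul_mem_left _
      (I.add_mem (I.add_mem (t1 l) (t2 l)) (t3 l))) t4) (hI ▸ hg i)
  rw [hI] at hbr
  obtain ⟨e, he1, f, hf, hef⟩ := Submodule.mem_sup.1 hbr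
  obtain ⟨α, rfl⟩ := Ideal.mem_span_singleton'.1 hf
  refine ⟨α, e, he1, ?_⟩
  have h1 := he i
  have h2 : ∑ l, M i l * (x l * τ (x l) + x l * τ (d l) + τ (x l) * d l)
      = ∑ l, M i l * x l ^ 2 + ∑ l, M i l * (x l * (τ (x l) - x l) + x l * (d l + τ (d l))
      + (τ (x l) - x l) * d l) := by
    rw [← Finset.sum_add_distrib]
    refine Finset.sum_congr rfl fun l _ => ?_
    ring
  rw [h2] at h1
  linear_combination h1 - hef
-- END N30

-- BEGIN N31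
/-- TASK N31. **The normal form.** `N = 4 n + 3`, `W` from `hW N`, `M'` in `W` congruent to `M` modulo
`m` (`Coef.surj`), `Adapted.change` (same `x`), `exists_iter` with `r = 4 n`: `y`, `c` with
`F i = y i + τ (y i) - ∑ l, M' i l (y l τ (y l)) - π c i ∈ Fil ϖ (4 n + 3)`, `π = ϖ τ ϖ`.
`exists_shift`: `d, u, v, w` with `G i = π c i + ∑ M' i l (d l τ (d l)) - (d i + τ (d i)) - π ^ n w i` in
`m ^ N ≤ Fil ϖ N` (`pow_le_fil`). Put `x' = y - d`, so `ϖ ∣ x' i - y i`, `Par.shift`. Substituting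
`y = x' + d`:
`x' i + τ (x' i) = ∑ l, M' i l (x' l τ (x' l) + x' l τ (d l) + τ (x' l) d l) + π ^ n w i + (F i + G i)`;
`F i + G i ∈ Fil ϖ (4 n + 3) ≤ Err ϖ n x' ⊔ (ϖ ^ (2 n))` (`fil_le_err`). Then `nf_of_trace`. -/
theorem exists_nf (h : Inv τ ϖ ε n) (ha : Adapted τ ϖ x M b)
    (hW : ∀ N, ∃ W, Coef τ ϖ n N W) :
    ∃ (x' : ι → D) (M' : ι → ι → D) (α e : ι → D), Par ϖ x' ∧ IsUnit (Matrix.of M').det ∧
      (∀ i, e i ∈ Err ϖ n x') ∧
      ∀ i, τ (x' i) - x' i = ∑ l, M' i l * x' l ^ 2 - 2 * x' i + α i * ϖ ^ (2 * n) + e i := by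
  obtain ⟨W, hW⟩ := hW (4 * n + 3)
  choose M' hM'W hM'm using fun i l => hW.surj (M i l)
  have ha1 : Adapted τ ϖ x M' b := Adapted.change h ha (fun i => by simp) (fun i l => by
    rw [← neg_sub]
    exact neg_mem (hM'm i l))
  obtain ⟨y, c, hay, hcW, hF⟩ := exists_iter h ha1 W hW.fix hW.surj hW.norm hM'W (4 * n)
  obtain ⟨d, u, v, w, hu, hv, hw, hd, hG⟩ := exists_shift h ha.par.mem hW hM'W ha1.det hcW
  have hpx : Par ϖ (fun i => y i - d i) := hay.par.shift (fun i => by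
    refine ⟨-(τ ϖ * u i + v i), ?_⟩
    rw [hd i]
    ring)
  have hN : maximalIdeal D ^ (4 * n + 3) ≤ Fil ϖ (4 * n + 3) := pow_le_fil _
  choose α e he1 he2 using nf_of_trace (M := M') h hpx hd (fun i => hW.fix _ (hu i))
    (fun i => hW.fix _ (hv i))
    (g := fun i => (y i + τ (y i) - ∑ l, M' i l * (y l * τ (y l)) - ϖ * τ ϖ * c i) +
      (ϖ * τ ϖ * c i + ∑ l, M' i l * (d l * τ (d l)) - (d i + τ (d i)) -
        (ϖ * τ ϖ) ^ n * w i)) (w := w)
    (fun i => fil_le_err hpx h.pos (add_mem (hF i) (hN (hG i))))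
    (fun i => by
      have h1 : ∑ l, M' i l * ((y l - d l) * τ (y l - d l) + (y l - d l) * τ (d l) +
          τ (y l - d l) * d l) = ∑ l, M' i l * (y l * τ (y l)) -
          ∑ l, M' i l * (d l * τ (d l)) := by
        rw [← Finset.sum_sub_distrib]
        refine Finset.sum_congr rfl fun l _ => ?_
        rw [map_sub]
        ring
      rw [h1, map_sub]
      ring)
  exact ⟨fun i => y i - d i, M', α, e, hpx, ha1.det, he1, he2⟩
-- END N31

end Pool.Agent.Lib.MP_6a3dac_ag.QD
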