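import Pool.Agent.Lib.MP_6a3dac_ag.QWPresSch
import Pool.Agent.Lib.MP_6a3dac_ag.DNF.Hyper

/-!
# Descent of projective schemes along quadratic extensions: the rings

The definitions used in the statement of the theorem on quadratic descent, first part.
-/

set_option autoImplicit false

namespace Pool.Agent.Lib.MP_6a3dac_ag.QD

open MvPolynomial CategoryTheory Limits AlgebraicGeometry
open Pool.Agent.Lib.MP_6a3dac_ag

/-- All local rings of the scheme are regular. -/
def RegularScheme (X : Scheme.{0}) : Prop := ∀ x : X, IsRegularLocalRing (X.presheaf.stalk x)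

/-- The local ring of the scheme at the point is regular. -/
def RegularPt {X : Scheme.{0}} (x : X) : Prop := IsRegularLocalRing (X.presheaf.stalk x)

/-- The squares of the elements of the maximal ideal are zero. -/
def SqZero (A : Type) [CommRing A] [IsLocalRing A] : Prop :=
  ∀ f ∈ IsLocalRing.maximalIdeal A, f ^ 2 = 0

/-- The squares of the elements of the maximal ideal of the local ring at the point are zero. -/
def OrdinaryPt {X : Scheme.{0}} (x : X) : Prop := SqZero (X.presheaf.stalk x)

/-- The graded algebra structure of a ring with a grading (its decomposition map is determined by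
the grading). -/
@[reducible] noncomputable def gradedAlgebraOf {K A : Type} [CommRing K] [CommRing A]
    [Algebra K A] (𝒜 : ℕ → Submodule K A) (h1 : DirectSum.IsInternal 𝒜)
    (h2 : SetLike.GradedMonoid 𝒜) : GradedAlgebra 𝒜 :=
  { h1.chooseDecomposition, h2 with }

section Fixed

variable {O : Type} [CommRing O] {n : ℕ}

/-- The map `f ↦ f^σ(x_ρ(1), ..., x_ρ(n))` of the polynomial ring `O[x_1, ..., x_n]`, where `f^σ` is
obtained from `f` by applying `σ` to the coefficients. -/
noncomputable def twHom (σ : O →+* O) (ρ : Equiv.Perm (Fin n)) :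
    MvPolynomial (Fin n) O →+* MvPolynomial (Fin n) O :=
  eval₂Hom (C.comp σ) fun i => X (ρ i)

/-- The homogeneous ideal `I` is prime and contains no nonzero constants. -/
def PrimeFlat (I : HomIdeal O n) : Prop := I.ideal.IsPrime ∧ ∀ c, C c ∈ I.ideal → c = 0

/-- The map `f ↦ f^σ(x_ρ(1), ..., x_ρ(n))` is an involution of the coordinates and preserves `I`. -/
def Invariant (σ : O →+* O) (ρ : Equiv.Perm (Fin n)) (I : HomIdeal O n) : Prop :=
  (∀ k, ρ (ρ k) = k) ∧ ∀ f ∈ I.ideal, twHom σ ρ f ∈ I.ideal

/-- The ideal of `O[x_1, ..., x_n]` generated by `I` and the ideal `𝔓` of `O`. -/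
noncomputable def fibSpan (I : HomIdeal O n) (𝔓 : Ideal O) : Ideal (MvPolynomial (Fin n) O) :=
  I.ideal ⊔ 𝔓.map C

/-- The ideal of `O[x_1, ..., x_n]` generated by `I`, the ideal `𝔓` of `O` and the polynomials
`x_k x_ρ(l) - x_l x_ρ(k)`. -/
noncomputable def fixSpan (ρ : Equiv.Perm (Fin n)) (I : HomIdeal O n) (𝔓 : Ideal O) :
    Ideal (MvPolynomial (Fin n) O) :=
  fibSpan I 𝔓 ⊔
    Ideal.span (Set.range fun kl : Fin n × Fin n => X kl.1 * X (ρ kl.2) - X kl.2 * X (ρ kl.1))

end Fixed

section Desc

variable {K O L : Type} [Field K] [Field L] [Algebra K L] [CommRing O] [Algebra O L] {n : ℕ}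

variable (L) in
/-- The ideal of `L[x_1, ..., x_n]` generated by `I`. -/
noncomputable def genIdeal (I : HomIdeal O n) : Ideal (MvPolynomial (Fin n) L) :=
  I.ideal.map (MvPolynomial.map (algebraMap O L))

variable (L) in
/-- The homogeneous coordinate ring `L[x_1, ..., x_n] / I L[x_1, ..., x_n]`. -/
def GCoord (I : HomIdeal O n) : Type := MvPolynomial (Fin n) L ⧸ genIdeal L I

noncomputable instance gCommRing (I : HomIdeal O n) : CommRing (GCoord L I) :=
  Ideal.Quotient.commRing (genIdeal L I)

noncomputable instance gAlgebra (I : HomIdeal O n) : Algebra K (GCoord L I) :=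
  Ideal.instAlgebraQuotient K (genIdeal L I)

variable (K L) in
/-- The class of a polynomial in the homogeneous coordinate ring, as a `K`-linear map. -/
noncomputable def gMk (I : HomIdeal O n) : MvPolynomial (Fin n) L →ₐ[K] GCoord L I :=
  Ideal.Quotient.mkₐ K (genIdeal L I)

/-- The map `f ↦ f^σ(x_ρ(1), ..., x_ρ(n))` of `L[x_1, ..., x_n]`. -/
noncomputable def twAlg (σ : L ≃ₐ[K] L) (ρ : Equiv.Perm (Fin n)) :
    MvPolynomial (Fin n) L →ₐ[K] MvPolynomial (Fin n) L :=
  aevalTower ((Algebra.algHom K L (MvPolynomial (Fin n) L)).comp (σ : L →ₐ[K] L))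
    fun i => X (ρ i)

variable (σ : L ≃ₐ[K] L) (ρ : Equiv.Perm (Fin n)) (I : HomIdeal O n)

/-- The ring of invariants of the semilinear map of the homogeneous coordinate ring: the classes of
the polynomials `f` which have the same class as `f^σ(x_ρ(1), ..., x_ρ(n))`. -/
noncomputable def descSub : Subalgebra K (GCoord L I) :=
  (AlgHom.equalizer (gMk K L I) ((gMk K L I).comp (twAlg σ ρ))).map (gMk K L I)

/-- The homogeneous coordinate ring of the descended scheme. -/
def DCoord : Type := descSub σ ρ I

noncomputable instance dCommRing : CommRing (DCoord σ ρ I) := (descSub σ ρ I).toCommRing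

noncomputable instance dAlgebra : Algebra K (DCoord σ ρ I) := (descSub σ ρ I).algebra

/-- The inclusion in the homogeneous coordinate ring over `L`. -/
noncomputable def dIncl : DCoord σ ρ I →ₐ[K] GCoord L I := (descSub σ ρ I).val

/-- The degree-`k` part: the elements represented by homogeneous polynomials of degree `k`. -/
noncomputable def dGr (k : ℕ) : Submodule K (DCoord σ ρ I) :=
  (((homogeneousSubmodule (Fin n) L k).restrictScalars K).map
    (gMk K L I).toLinearMap).comap (dIncl σ ρ I).toLinearMap

end Desc

end Pool.Agent.Lib.MP_6a3dac_ag.QD
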