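import Pool.Agent.Lib.MP_6a3dac_ag.QD.PresA

/-!
# The gradings
-/

set_option autoImplicit false

namespace Pool.Agent.Lib.MP_6a3dac_ag.QD

open MvPolynomial CategoryTheory Limits AlgebraicGeometry
open Pool.Agent.Lib.MP_6a3dac_ag

section Fixed

variable {O : Type} [CommRing O] {n : ℕ}

-- BEGIN P1
theorem p1_span_ideal (I : HomIdeal O n) :
    I.ideal = Ideal.span {g | g ∈ I.ideal ∧ ∃ j, g.IsHomogeneous j} := by
  apply le_antisymm
  · intro g hg
    rw [← sum_homogeneousComponent g]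
    exact Ideal.sum_mem _ fun j _ => Ideal.subset_span
      ⟨I.homog g hg j, j, homogeneousComponent_isHomogeneous j g⟩
  · rw [Ideal.span_le]
    rintro g ⟨hg, _⟩
    exact hg

/-- TASK P1. The ideal `fixSpan ρ I 𝔓` is homogeneous (see `secSpan_homog` in Bert/Defs.lean). -/
theorem fixSpan_homog (ρ : Equiv.Perm (Fin n)) (I : HomIdeal O n) (𝔓 : Ideal O) :
    ∀ f ∈ fixSpan ρ I 𝔓, ∀ i : ℕ, homogeneousComponent i f ∈ fixSpan ρ I 𝔓 := by
  intro f hf i
  let _ := MvPolynomial.gradedAlgebra (σ := Fin n) (R := O)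
  have h1 : (fixSpan ρ I 𝔓).IsHomogeneous (homogeneousSubmodule (Fin n) O) := by
    rw [fixSpan, fibSpan, p1_span_ideal I, Ideal.map, ← Ideal.span_union, ← Ideal.span_union]
    apply Ideal.homogeneous_span
    rintro x ((⟨_, j, hj⟩ | ⟨c, _, rfl⟩) | ⟨kl, rfl⟩)
    · exact ⟨j, hj⟩
    · exact ⟨0, isHomogeneous_C _ _⟩
    · exact ⟨2, ((isHomogeneous_X O kl.1).mul (isHomogeneous_X O (ρ kl.2))).sub
        ((isHomogeneous_X O kl.2).mul (isHomogeneous_X O (ρ kl.1)))⟩
  have h2 := h1 i hf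
  rwa [show DirectSum.decompose (homogeneousSubmodule (Fin n) O) f i =
    MvPolynomial.decomposition.decompose' f i from rfl,
    MvPolynomial.decomposition.decompose'_apply] at h2
-- END P1

-- BEGIN U1
/-- TASK U1. As `fixSpan_homog`. -/
theorem fibSpan_homog (I : HomIdeal O n) (𝔓 : Ideal O) :
    ∀ f ∈ fibSpan I 𝔓, ∀ i : ℕ, homogeneousComponent i f ∈ fibSpan I 𝔓 := by
  intro f hf i
  let _ := MvPolynomial.gradedAlgebra (σ := Fin n) (R := O)
  have h1 : (fibSpan I 𝔓).IsHomogeneous (homogeneousSubmodule (Fin n) O) := by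
    rw [fibSpan, p1_span_ideal I, Ideal.map, ← Ideal.span_union]
    apply Ideal.homogeneous_span
    rintro x (⟨_, j, hj⟩ | ⟨c, _, rfl⟩)
    · exact ⟨j, hj⟩
    · exact ⟨0, isHomogeneous_C _ _⟩
  have h2 := h1 i hf
  rwa [show DirectSum.decompose (homogeneousSubmodule (Fin n) O) f i =
    MvPolynomial.decomposition.decompose' f i from rfl,
    MvPolynomial.decomposition.decompose'_apply] at h2
-- END U1

end Fixed

section Desc

variable {K O L : Type} [Field K] [Field L] [Algebra K L] [CommRing O] [Algebra O L] {n : ℕ}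
  (σ : L ≃ₐ[K] L) (ρ : Equiv.Perm (Fin n)) (I : HomIdeal O n)

-- BEGIN P2
omit [Field K] [Algebra K L] in
theorem p2_homog (I : HomIdeal O n) (f : MvPolynomial (Fin n) L) (hf : f ∈ genIdeal L I) (i : ℕ) :
    homogeneousComponent i f ∈ genIdeal L I := by
  let _ := MvPolynomial.gradedAlgebra (σ := Fin n) (R := L)
  have h1 : (genIdeal L I).IsHomogeneous (homogeneousSubmodule (Fin n) L) := by
    rw [genIdeal, p1_span_ideal I, Ideal.map_span]
    apply Ideal.homogeneous_span
    rintro x ⟨g, ⟨_, j, hj⟩, rfl⟩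
    exact ⟨j, hj.map _⟩
  have h2 := h1 i hf
  rwa [show DirectSum.decompose (homogeneousSubmodule (Fin n) L) f i =
    MvPolynomial.decomposition.decompose' f i from rfl,
    MvPolynomial.decomposition.decompose'_apply] at h2

theorem p2_isHomogeneous {P : MvPolynomial (Fin n) L} {k : ℕ} (hP : P.IsHomogeneous k) :
    (twAlg σ ρ P).IsHomogeneous k := by
  have h1 : twAlg σ ρ P = eval₂ (C.comp (σ : L →+* L)) (fun i => X (ρ i)) P := rfl
  rw [h1]
  have h2 := hP.eval₂ (C.comp (σ : L →+* L)) (fun i => (X (ρ i) : MvPolynomial (Fin n) L))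
    (fun r => isHomogeneous_C _ _) (fun i => isHomogeneous_X _ _)
  simpa using h2

theorem p2_component (P : MvPolynomial (Fin n) L) (k : ℕ) :
    homogeneousComponent k (twAlg σ ρ P) = twAlg σ ρ (homogeneousComponent k P) := by
  have h1 : ∀ j, homogeneousComponent k (twAlg σ ρ (homogeneousComponent j P)) =
      if k = j then twAlg σ ρ (homogeneousComponent j P) else 0 := fun j =>
    homogeneousComponent_of_mem (p2_isHomogeneous σ ρ (homogeneousComponent_isHomogeneous j P))
  conv_lhs => rw [← sum_homogeneousComponent P, map_sum, map_sum]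
  rw [Finset.sum_congr rfl fun j _ => h1 j, Finset.sum_ite_eq]
  split_ifs with h
  · rfl
  · rw [Finset.mem_range, not_lt] at h
    rw [homogeneousComponent_eq_zero _ _ (by omega), map_zero]

theorem p2_mem_equalizer {P : MvPolynomial (Fin n) L} :
    P ∈ AlgHom.equalizer (gMk K L I) ((gMk K L I).comp (twAlg σ ρ)) ↔
      P - twAlg σ ρ P ∈ genIdeal L I := by
  rw [AlgHom.mem_equalizer]
  exact Ideal.Quotient.mk_eq_mk_iff_sub_mem _ _

theorem p2_mem_component {P : MvPolynomial (Fin n) L}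
    (hP : P ∈ AlgHom.equalizer (gMk K L I) ((gMk K L I).comp (twAlg σ ρ))) (k : ℕ) :
    homogeneousComponent k P ∈
      AlgHom.equalizer (gMk K L I) ((gMk K L I).comp (twAlg σ ρ)) := by
  rw [p2_mem_equalizer] at hP ⊢
  have h1 := p2_homog I _ hP k
  rwa [map_sub, p2_component] at h1

theorem p2_mem_dGr {k : ℕ} {z : DCoord σ ρ I} :
    z ∈ dGr σ ρ I k ↔ ∃ Q : MvPolynomial (Fin n) L, Q.IsHomogeneous k ∧
      gMk K L I Q = dIncl σ ρ I z := Iff.rfl

theorem p2_dIncl_injective : Function.Injective (dIncl σ ρ I) := Subtype.val_injective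

theorem p2_gMk_eq_zero {P : MvPolynomial (Fin n) L} : gMk K L I P = 0 ↔ P ∈ genIdeal L I :=
  Ideal.Quotient.eq_zero_iff_mem

theorem p2_injective : Function.Injective (DirectSum.coeAddMonoidHom (dGr σ ρ I)) := by
  classical
  intro x y hxy
  have h1 : ∀ z : DirectSum ℕ fun k => dGr σ ρ I k, ∀ k, ∃ Q : MvPolynomial (Fin n) L,
      Q.IsHomogeneous k ∧ gMk K L I Q = dIncl σ ρ I (z k : DCoord σ ρ I) :=
    fun z k => (p2_mem_dGr σ ρ I).mp (z k).2
  choose Q hQ hQx using h1
  have hsum : ∀ (z : DirectSum ℕ fun k => dGr σ ρ I k) (s : Finset ℕ), DFinsupp.support z ⊆ s →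
      DirectSum.coeAddMonoidHom (dGr σ ρ I) z = ∑ k ∈ s, (z k : DCoord σ ρ I) := by
    intro z s hs
    rw [DirectSum.coeAddMonoidHom_eq_dfinsuppSum, DFinsupp.sum]
    refine Finset.sum_subset hs (fun k _ hk => ?_)
    rw [DFinsupp.notMem_support_iff] at hk
    rw [hk]
    rfl
  set s := DFinsupp.support x ∪ DFinsupp.support y with hs
  rw [hsum x s Finset.subset_union_left, hsum y s Finset.subset_union_right] at hxy
  have h2 : ∑ k ∈ s, (Q x k - Q y k) ∈ genIdeal L I := by
    rw [← p2_gMk_eq_zero (K := K), Finset.sum_sub_distrib, map_sub, map_sum, map_sum,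
      Finset.sum_congr rfl fun k _ => hQx x k, Finset.sum_congr rfl fun k _ => hQx y k,
      ← map_sum, ← map_sum, hxy, sub_self]
  refine DFinsupp.ext (fun k => ?_)
  by_cases hk : k ∈ s
  · have h3 := p2_homog I _ h2 k
    have h4 : ∀ j, homogeneousComponent k (Q x j - Q y j) = if k = j then Q x j - Q y j else 0 :=
      fun j => homogeneousComponent_of_mem ((hQ x j).sub (hQ y j))
    rw [map_sum, Finset.sum_congr rfl fun j _ => h4 j, Finset.sum_ite_eq, if_pos hk,
      ← p2_gMk_eq_zero (K := K), map_sub, hQx, hQx, sub_eq_zero] at h3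
    exact Subtype.ext (p2_dIncl_injective σ ρ I h3)
  · have h5 : k ∉ DFinsupp.support x := fun h => hk (Finset.mem_union_left _ h)
    have h6 : k ∉ DFinsupp.support y := fun h => hk (Finset.mem_union_right _ h)
    rw [DFinsupp.notMem_support_iff] at h5 h6
    exact h5.trans h6.symm

theorem p2_surjective : Function.Surjective (DirectSum.coeAddMonoidHom (dGr σ ρ I)) := by
  classical
  intro z
  obtain ⟨P, hP, hPz⟩ := z.2
  have hmem : ∀ k, gMk K L I (homogeneousComponent k P) ∈ descSub σ ρ I := fun k =>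
    ⟨_, p2_mem_component σ ρ I hP k, rfl⟩
  let w : ∀ k, DCoord σ ρ I := fun k => (⟨_, hmem k⟩ : descSub σ ρ I)
  have hw : ∀ k, w k ∈ dGr σ ρ I k := fun k =>
    (p2_mem_dGr σ ρ I).mpr ⟨_, homogeneousComponent_isHomogeneous k P, rfl⟩
  refine ⟨∑ k ∈ Finset.range (P.totalDegree + 1),
    DirectSum.of (fun k => dGr σ ρ I k) k ⟨w k, hw k⟩, ?_⟩
  rw [map_sum]
  simp only [DirectSum.coeAddMonoidHom_of]
  apply p2_dIncl_injective σ ρ I
  rw [map_sum]
  have h1 : ∀ k, dIncl σ ρ I (w k) = gMk K L I (homogeneousComponent k P) := fun k => rfl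
  rw [Finset.sum_congr rfl fun k _ => h1 k, ← map_sum, sum_homogeneousComponent]
  exact hPz

/-- TASK P2. With `P` a representative with equal classes of `P` and `twAlg P`, its homogeneous
components have the same property (`twAlg` preserves homogeneity, `genIdeal` is homogeneous), so the
components of the elements of `descSub` lie in `descSub`. Compare `isInternal_rGr` in QWPresGr.lean and
`isInternal_of_isHomog`, SubGraded.lean. -/
theorem isInternal_dGr : DirectSum.IsInternal (dGr σ ρ I) := by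
  exact ⟨p2_injective σ ρ I, p2_surjective σ ρ I⟩

/-- TASK P2. -/
theorem gradedMonoid_dGr : SetLike.GradedMonoid (dGr σ ρ I) := by
  exact
  { one_mem := (p2_mem_dGr σ ρ I).mpr ⟨1, isHomogeneous_one _ _, by rw [map_one, map_one]⟩
    mul_mem := by
      intro i j a b ha hb
      obtain ⟨P, hP, hPa⟩ := (p2_mem_dGr σ ρ I).mp ha
      obtain ⟨Q, hQ, hQb⟩ := (p2_mem_dGr σ ρ I).mp hb
      exact (p2_mem_dGr σ ρ I).mpr ⟨P * Q, hP.mul hQ, by rw [map_mul, map_mul, hPa, hQb]⟩ }
-- END P2

end Desc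

end Pool.Agent.Lib.MP_6a3dac_ag.QD
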