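import Pool.Agent.Lib.MP_6a3dac_ag.QD.Pres
import Pool.Agent.Lib.MP_6a3dac_ag.QD.Init
import Pool.Agent.Lib.MP_6a3dac_ag.Mg.G045
import Pool.Agent.Lib.MP_6a3dac_ag.Mg.G015
import Pool.Agent.Lib.MP_6a3dac_ag.Mg.G029

/-!
# The local rings of a projective scheme inside a field
-/

set_option autoImplicit false
set_option linter.unusedSectionVars false

namespace Pool.Agent.Lib.MP_6a3dac_ag.QD

open MvPolynomial CategoryTheory Limits AlgebraicGeometry IsLocalRing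
open Pool.Agent.Lib.MP_6a3dac_ag Pool.Agent.Lib.MP_6a3dac_ag.DNF Pool.Agent.Lib.MP_6a3dac_ag.Bert

section LocY

variable {O : Type} [CommRing O] {n : ℕ} (I : HomIdeal O (n + 1)) {F : Type} [Field F]
  (κ : MvPolynomial (Fin (n + 1)) O →+* F)

/-- The local ring of the scheme at `y`, as a subring of the field `F`. -/
def locY (y : hProj I) : Subring F where
  carrier := {z | ∃ (k : ℕ) (G H : MvPolynomial (Fin (n + 1)) O), G.IsHomogeneous k ∧
    H.IsHomogeneous k ∧ H ∉ ptIdeal I y ∧ z * κ H = κ G}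
  mul_mem' := by
    rintro z w ⟨k, G, H, hG, hH, hHy, h1⟩ ⟨l, G', H', hG', hH', hHy', h2⟩
    refine ⟨k + l, G * G', H * H', hG.mul hG', hH.mul hH',
      (ptIdeal_spec I y).1.mul_notMem hHy hHy', ?_⟩
    rw [map_mul, map_mul, ← h1, ← h2]
    ring
  one_mem' := ⟨0, 1, 1, isHomogeneous_one _ _, isHomogeneous_one _ _,
    fun h => (ptIdeal_spec I y).1.ne_top ((Ideal.eq_top_iff_one _).mpr h), by rw [one_mul]⟩
  add_mem' := by
    rintro z w ⟨k, G, H, hG, hH, hHy, h1⟩ ⟨l, G', H', hG', hH', hHy', h2⟩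
    refine ⟨k + l, G * H' + H * G', H * H', (hG.mul hH').add (hH.mul hG'), hH.mul hH',
      (ptIdeal_spec I y).1.mul_notMem hHy hHy', ?_⟩
    rw [map_mul, map_add, map_mul, map_mul, ← h1, ← h2]
    ring
  zero_mem' := ⟨0, 0, 1, isHomogeneous_zero _ _ _, isHomogeneous_one _ _,
    fun h => (ptIdeal_spec I y).1.ne_top ((Ideal.eq_top_iff_one _).mpr h), by
      rw [zero_mul, map_zero]⟩
  neg_mem' := by
    rintro z ⟨k, G, H, hG, hH, hHy, h1⟩
    exact ⟨k, -G, H, hG.neg, hH, hHy, by rw [map_neg, ← h1]; ring⟩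

theorem mem_locY {y : hProj I} {z : F} : z ∈ locY I κ y ↔
    ∃ (k : ℕ) (G H : MvPolynomial (Fin (n + 1)) O), G.IsHomogeneous k ∧ H.IsHomogeneous k ∧
      H ∉ ptIdeal I y ∧ z * κ H = κ G := Iff.rfl

/-- The map of the dehomogenized polynomials to the field. -/
noncomputable def dehF (i : Fin (n + 1)) : MvPolynomial {l : Fin (n + 1) // l ≠ i} O →+* F :=
  eval₂Hom (κ.comp C) fun l => κ (X l.1) / κ (X i)

-- BEGIN P3
theorem p3_dehF_dehom (i : Fin (n + 1)) (hi : κ (X i) ≠ 0)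
    (G : MvPolynomial (Fin (n + 1)) O) :
    dehF κ i (dehom i G) = eval₂ (κ.comp C) (fun l => κ (X l) / κ (X i)) G := by
  have h1 : (dehF κ i).comp (dehom i).toRingHom =
      eval₂Hom (κ.comp C) (fun l => κ (X l) / κ (X i)) := by
    apply MvPolynomial.ringHom_ext
    · intro r
      change dehF κ i (dehom i (C r)) = _
      rw [dehom_C, dehF, coe_eval₂Hom, coe_eval₂Hom, eval₂_C, eval₂_C]
    · intro l
      change dehF κ i (dehom i (X l)) = _
      rw [coe_eval₂Hom, eval₂_X]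
      by_cases h : l = i
      · subst h
        rw [dehom_X_self, map_one, div_self hi]
      · have h2 := dehom_X (O := O) i ⟨l, h⟩
        simp only at h2
        rw [h2, dehF, coe_eval₂Hom, eval₂_X]
  exact RingHom.congr_fun h1 G

/-- TASK P3. Compare `hψhom`, `hφψ` in the proof of `mainO` (Maj/MainO.lean). -/
theorem kap_eq {i : Fin (n + 1)} (hi : κ (X i) ≠ 0) {k : ℕ} {G : MvPolynomial (Fin (n + 1)) O}
    (hG : G.IsHomogeneous k) : κ G = κ (X i) ^ k * dehF κ i (dehom i G) := by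
  rw [p3_dehF_dehom κ i hi, ← g3_eval₂_smul _ _ _ hG]
  have h2 : (fun l => κ (X i) * (κ (X l) / κ (X i))) = fun l => κ (X l) := by
    funext l
    rw [mul_div_cancel₀ _ hi]
  rw [h2]
  have h3 : (eval₂Hom (κ.comp C) fun l => κ (X l)) = κ := by
    apply MvPolynomial.ringHom_ext
    · intro r
      rw [coe_eval₂Hom, eval₂_C]
      rfl
    · intro l
      rw [coe_eval₂Hom, eval₂_X]
  exact (RingHom.congr_fun h3 G).symm

variable {I κ} in
/-- TASK P3. `X i ∉ ptIdeal I y` since `dehom i (X i) = 1`, and `I.ideal ≤ ptIdeal I y`. -/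
theorem atPt_ne_zero (hκ : ∀ G, κ G = 0 ↔ G ∈ I.ideal) {y : hProj I} {i : Fin (n + 1)}
    {𝔮 : Ideal (MvPolynomial {l : Fin (n + 1) // l ≠ i} O)} (h : AtPt I y i 𝔮) :
    κ (X i) ≠ 0 ∧ X i ∉ ptIdeal I y := by
  have h1 : X i ∉ ptIdeal I y := by
    rw [← h.2.2 1 _ (isHomogeneous_X O i), dehom_X_self]
    exact fun h2 => h.1.ne_top ((Ideal.eq_top_iff_one _).mpr h2)
  exact ⟨fun h2 => h1 ((ptIdeal_spec I y).2.1 ((hκ _).mp h2)), h1⟩

variable {I κ} in
/-- TASK P3. `exists_homog` (DNF/Dehom.lean) and `kap_eq`; `I.ideal` contains the homogeneous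
components of its elements (`I.homog`) and is prime. -/
theorem dehF_eq_zero_iff (hκ : ∀ G, κ G = 0 ↔ G ∈ I.ideal) (hI : I.ideal.IsPrime)
    {i : Fin (n + 1)} (hi : κ (X i) ≠ 0) (q : MvPolynomial {l : Fin (n + 1) // l ≠ i} O) :
    dehF κ i q = 0 ↔ q ∈ dId I i := by
  constructor
  · intro hq
    obtain ⟨N, G, hG, rfl⟩ := exists_homog i q
    have h1 := kap_eq κ hi hG
    rw [hq, mul_zero, hκ] at h1
    exact Ideal.mem_map_of_mem _ h1
  · intro hq
    have h1 : dId I i ≤ RingHom.ker (dehF κ i) := by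
      rw [dId, Ideal.map_le_iff_le_comap]
      intro G hG
      rw [Ideal.mem_comap, RingHom.mem_ker, ← sum_homogeneousComponent G, map_sum, map_sum]
      refine Finset.sum_eq_zero (fun j _ => ?_)
      have h2 := kap_eq κ hi (homogeneousComponent_isHomogeneous j G)
      rw [(hκ _).mpr (I.homog G hG j)] at h2
      exact (mul_eq_zero.mp h2.symm).resolve_left (pow_ne_zero _ hi)
    exact h1 hq
-- END P3

variable {I κ}

-- BEGIN P4
theorem p4_mem (hκ : ∀ G, κ G = 0 ↔ G ∈ I.ideal)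
    {y : hProj I} {i : Fin (n + 1)} {𝔮 : Ideal (MvPolynomial {l : Fin (n + 1) // l ≠ i} O)}
    (h : AtPt I y i 𝔮) (q : MvPolynomial {l : Fin (n + 1) // l ≠ i} O) :
    dehF κ i q ∈ locY I κ y := by
  obtain ⟨hi, hiy⟩ := atPt_ne_zero hκ h
  obtain ⟨k, G, hG, rfl⟩ := exists_homog i q
  refine ⟨k, G, X i ^ k, hG, ?_, fun hc => hiy ((ptIdeal_spec I y).1.mem_of_pow_mem _ hc), ?_⟩
  · simpa using (isHomogeneous_X O i).pow k
  · rw [kap_eq κ hi hG, map_pow, mul_comm]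

/-- TASK P4. By `exists_homog` and `kap_eq` the elements of `locY I κ y` are the quotients
`dehF a / dehF s`, `s ∉ 𝔮` (make the degrees of numerator and denominator equal by multiplying with
powers of `X i ∉ ptIdeal I y`). The kernel is `dehF_eq_zero_iff` (`s x ∈ dId` with `s ∉ 𝔮` implies
`dehF x = 0`, as `dehF s ≠ 0`). -/
theorem exists_isLocAt_locY (hκ : ∀ G, κ G = 0 ↔ G ∈ I.ideal) (hI : I.ideal.IsPrime)
    {y : hProj I} {i : Fin (n + 1)} {𝔮 : Ideal (MvPolynomial {l : Fin (n + 1) // l ≠ i} O)}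
    (h : AtPt I y i 𝔮) : ∃ f : MvPolynomial {l : Fin (n + 1) // l ≠ i} O →+* locY I κ y,
      (∀ q, (f q : F) = dehF κ i q) ∧ IsLocAt (dId I i) 𝔮 f := by
  obtain ⟨hi, hiy⟩ := atPt_ne_zero hκ h
  have hpr := (ptIdeal_spec I y).1
  have hle := (ptIdeal_spec I y).2.1
  have h1𝔮 : (1 : MvPolynomial {l : Fin (n + 1) // l ≠ i} O) ∉ 𝔮 :=
    fun h2 => h.1.ne_top ((Ideal.eq_top_iff_one _).mpr h2)
  refine ⟨(dehF κ i).codRestrict (locY I κ y) (p4_mem hκ h), fun q => rfl, ?_⟩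
  refine ⟨fun x => ?_, fun z => ?_, fun x => ?_⟩
  · obtain ⟨k, G, hG, rfl⟩ := exists_homog i x
    have hXk : (X i ^ k : MvPolynomial (Fin (n + 1)) O).IsHomogeneous k := by
      simpa using (isHomogeneous_X O i).pow k
    rw [h.2.2 k G hG]
    constructor
    · intro hu hGy
      obtain ⟨w, hw⟩ := hu.exists_right_inv
      have hw1 : dehF κ i (dehom i G) * (w : F) = 1 := congrArg Subtype.val hw
      obtain ⟨l, G', H, hG', hH, hHy, hwH⟩ := w.2
      have h3 : κ (X i ^ k * H - G * G') = 0 := by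
        rw [map_sub, map_mul, map_mul, map_pow, kap_eq κ hi hG, ← hwH]
        linear_combination (-(κ (X i)) ^ k * κ H) * hw1
      have h4 := hle ((hκ _).mp h3)
      have h5 : X i ^ k * H ∈ ptIdeal I y := by
        have := (ptIdeal I y).add_mem h4 ((ptIdeal I y).mul_mem_right G' hGy)
        rwa [sub_add_cancel] at this
      rcases hpr.mem_or_mem h5 with h6 | h6
      · exact hiy (hpr.mem_of_pow_mem _ h6)
      · exact hHy h6
    · intro hGy
      have hκG : κ G ≠ 0 := fun h2 => hGy (hle ((hκ _).mp h2))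
      have hw : κ (X i ^ k) / κ G ∈ locY I κ y :=
        ⟨k, X i ^ k, G, hXk, hG, hGy, div_mul_cancel₀ _ hκG⟩
      refine IsUnit.of_mul_eq_one ⟨_, hw⟩ (Subtype.ext ?_)
      change dehF κ i (dehom i G) * (κ (X i ^ k) / κ G) = 1
      rw [← mul_div_assoc, map_pow, mul_comm, ← kap_eq κ hi hG, div_self hκG]
  · obtain ⟨k, G, H, hG, hH, hHy, hz⟩ := z.2
    refine ⟨dehom i G, dehom i H, ?_, Subtype.ext ?_⟩
    · rwa [h.2.2 k H hH]
    · change (z : F) * dehF κ i (dehom i H) = dehF κ i (dehom i G)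
      rw [kap_eq κ hi hG, kap_eq κ hi hH] at hz
      apply mul_left_cancel₀ (pow_ne_zero k hi)
      rw [← hz]
      ring
  · constructor
    · intro hx
      have hx1 : dehF κ i x = 0 := congrArg Subtype.val hx
      exact ⟨1, h1𝔮, by rw [one_mul]; exact (dehF_eq_zero_iff hκ hI hi x).mp hx1⟩
    · rintro ⟨z, hz, hzx⟩
      have h2 := (dehF_eq_zero_iff hκ hI hi _).mpr hzx
      rw [map_mul] at h2
      have h3 : dehF κ i z ≠ 0 := fun h4 => hz (h.2.1 ((dehF_eq_zero_iff hκ hI hi z).mp h4))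
      exact Subtype.ext ((mul_eq_zero.mp h2).resolve_left h3)
-- END P4

-- BEGIN P5
theorem p5_uniq {A B B' : Type} [CommRing A] [CommRing B] [CommRing B']
    {J 𝔮 : Ideal A} {f : A →+* B} {f' : A →+* B'} (h : IsLocAt J 𝔮 f)
    (h' : IsLocAt J 𝔮 f') {y : B} {y' : B'} {a z a' z' : A} (hz : z ∉ 𝔮)
    (e1 : y * f z = f a) (e2 : y * f z' = f a') (e3 : y' * f' z = f' a) :
    y' * f' z' = f' a' := by
  have h1 : f (a * z' - a' * z) = 0 := by
    rw [map_sub, map_mul, map_mul, ← e1, ← e2]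
    ring
  have h2 : f' (a * z' - a' * z) = 0 := (h'.ker _).2 ((h.ker _).1 h1)
  rw [map_sub, map_mul, map_mul, ← e3, sub_eq_zero] at h2
  refine ((h'.unit z).2 hz).mul_right_cancel ?_
  rw [← h2]
  ring

theorem p5_exists {A B B' : Type} [CommRing A] [CommRing B] [CommRing B']
    {J 𝔮 : Ideal A} {f : A →+* B} {f' : A →+* B'} (h : IsLocAt J 𝔮 f)
    (h' : IsLocAt J 𝔮 f') : ∃ g : B → B', ∀ y a z, z ∉ 𝔮 → y * f z = f a → g y * f' z = f' a := by
  have key : ∀ y, ∃ y', ∀ a z, z ∉ 𝔮 → y * f z = f a → y' * f' z = f' a := by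
    intro y
    obtain ⟨a, z, hz, e⟩ := h.surj y
    obtain ⟨u, hu⟩ := (h'.unit z).2 hz
    refine ⟨f' a * ↑u⁻¹, fun a' z' _ e' => p5_uniq h h' hz e e' ?_⟩
    rw [← hu, mul_assoc, Units.inv_mul, mul_one]
  choose g hg using key
  exact ⟨g, hg⟩

/-- TASK P5. Two local rings of the same point are isomorphic: `B` and `B'` are localizations of
`A ⧸ J` (or define the map by `f a / f z ↦ f' a / f' z`; e.g. `IsLocalization.algEquiv` for
`A ⧸ J`, or a direct construction). -/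
theorem exists_equiv_of_isLocAt {A B B' : Type} [CommRing A] [CommRing B] [CommRing B']
    {J 𝔮 : Ideal A} (h𝔮 : 𝔮.IsPrime) {f : A →+* B} {f' : A →+* B'} (h : IsLocAt J 𝔮 f)
    (h' : IsLocAt J 𝔮 f') : ∃ e : B ≃+* B', ∀ x, e (f x) = f' x := by
  have h1 : (1 : A) ∉ 𝔮 := fun hh => h𝔮.ne_top ((Ideal.eq_top_iff_one _).mpr hh)
  obtain ⟨g, hg⟩ := p5_exists h h'
  obtain ⟨g', hg'⟩ := p5_exists h' h
  have left : ∀ y, g' (g y) = y := by
    intro y
    obtain ⟨a, z, hz, e⟩ := h.surj y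
    refine ((h.unit z).2 hz).mul_right_cancel ?_
    rw [hg' _ a z hz (hg y a z hz e), e]
  have right : ∀ y, g (g' y) = y := by
    intro y
    obtain ⟨a, z, hz, e⟩ := h'.surj y
    refine ((h'.unit z).2 hz).mul_right_cancel ?_
    rw [hg _ a z hz (hg' y a z hz e), e]
  have hmul : ∀ y₁ y₂, g (y₁ * y₂) = g y₁ * g y₂ := by
    intro y₁ y₂
    obtain ⟨a₁, z₁, hz₁, e₁⟩ := h.surj y₁
    obtain ⟨a₂, z₂, hz₂, e₂⟩ := h.surj y₂
    have hz : z₁ * z₂ ∉ 𝔮 := h𝔮.mul_notMem hz₁ hz₂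
    refine ((h'.unit _).2 hz).mul_right_cancel ?_
    rw [hg (y₁ * y₂) (a₁ * a₂) (z₁ * z₂) hz (by rw [map_mul, map_mul, ← e₁, ← e₂]; ring), map_mul,
      map_mul, ← hg y₁ a₁ z₁ hz₁ e₁, ← hg y₂ a₂ z₂ hz₂ e₂]
    ring
  have hadd : ∀ y₁ y₂, g (y₁ + y₂) = g y₁ + g y₂ := by
    intro y₁ y₂
    obtain ⟨a₁, z₁, hz₁, e₁⟩ := h.surj y₁
    obtain ⟨a₂, z₂, hz₂, e₂⟩ := h.surj y₂
    have hz : z₁ * z₂ ∉ 𝔮 := h𝔮.mul_notMem hz₁ hz₂
    refine ((h'.unit _).2 hz).mul_right_cancel ?_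
    rw [hg (y₁ + y₂) (a₁ * z₂ + a₂ * z₁) (z₁ * z₂) hz
      (by rw [map_mul, map_add, map_mul, map_mul, ← e₁, ← e₂]; ring), map_mul, map_add,
      map_mul, map_mul, ← hg y₁ a₁ z₁ hz₁ e₁, ← hg y₂ a₂ z₂ hz₂ e₂]
    ring
  refine ⟨{ toFun := g, invFun := g', left_inv := left, right_inv := right,
            map_mul' := hmul, map_add' := hadd }, fun x => ?_⟩
  have h2 := hg (f x) x 1 h1 (by rw [map_one, mul_one])
  rw [map_one, mul_one] at h2
  exact h2

/-- TASK P5. `exists_atPt`, `AtPt.exists_isLocAt`, `exists_isLocAt_locY`,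
`IsRegularLocalRing.of_ringEquiv`. -/
theorem isRegularLocalRing_locY (hκ : ∀ G, κ G = 0 ↔ G ∈ I.ideal) (hI : I.ideal.IsPrime)
    {y : hProj I} (hreg : IsRegularLocalRing ((hProj I).presheaf.stalk y)) :
    IsRegularLocalRing (locY I κ y) := by
  obtain ⟨i, 𝔮, h⟩ := exists_atPt I y
  obtain ⟨f, hf⟩ := h.exists_isLocAt
  obtain ⟨f', -, hf'⟩ := exists_isLocAt_locY hκ hI h
  obtain ⟨e, -⟩ := exists_equiv_of_isLocAt h.1 hf hf'
  exact IsRegularLocalRing.of_ringEquiv e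

/-- TASK P5. -/
theorem isUnit_locY_iff (hκ : ∀ G, κ G = 0 ↔ G ∈ I.ideal) {y : hProj I} {k : ℕ}
    {G H : MvPolynomial (Fin (n + 1)) O} (hG : G.IsHomogeneous k) (hH : H.IsHomogeneous k)
    (hHy : H ∉ ptIdeal I y) {z : F} (hz : z * κ H = κ G) :
    (∃ w ∈ locY I κ y, z * w = 1) ↔ G ∉ ptIdeal I y := by
  obtain ⟨hpr, hle, -⟩ := ptIdeal_spec I y
  constructor
  · rintro ⟨w, ⟨l, G', H', hG', hH', hHy', hw⟩, hzw⟩ hGy
    have h1 : κ (G * G' - H * H') = 0 := by
      rw [map_sub, map_mul, map_mul, ← hz, ← hw]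
      linear_combination (κ H * κ H') * hzw
    have h2 : G * G' - H * H' ∈ ptIdeal I y := hle ((hκ _).1 h1)
    have h3 : H * H' ∈ ptIdeal I y := by
      have h4 := (ptIdeal I y).sub_mem ((ptIdeal I y).mul_mem_right G' hGy) h2
      rwa [sub_sub_cancel] at h4
    exact hpr.mul_notMem hHy hHy' h3
  · intro hGy
    have hG0 : κ G ≠ 0 := fun h0 => hGy (hle ((hκ G).1 h0))
    refine ⟨κ H / κ G, ⟨k, H, G, hH, hG, hGy, div_mul_cancel₀ _ hG0⟩, ?_⟩
    rw [← mul_div_assoc, hz, div_self hG0]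
-- END P5

-- BEGIN P6
theorem p6_dehF_mem {D : Subring F} (hC : ∀ c, κ (C c) ∈ D) {i : Fin (n + 1)}
    (hX : ∀ k, κ (X k) / κ (X i) ∈ D) (q : MvPolynomial {l : Fin (n + 1) // l ≠ i} O) :
    dehF κ i q ∈ D := by
  induction q using MvPolynomial.induction_on with
  | C a =>
    rw [dehF, coe_eval₂Hom, eval₂_C]
    exact hC a
  | add a b ha hb =>
    rw [map_add]
    exact add_mem ha hb
  | mul_X a k ha =>
    rw [map_mul]
    refine mul_mem ha ?_
    rw [dehF, coe_eval₂Hom, eval₂_X]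
    exact hX k.1

theorem p6_prime (hκ : ∀ G, κ G = 0 ↔ G ∈ I.ideal) : I.ideal.IsPrime := by
  have h1 : I.ideal = RingHom.ker κ := by
    ext G
    rw [RingHom.mem_ker, hκ]
  rw [h1]
  exact RingHom.ker_isPrime κ

theorem p6_div {i : Fin (n + 1)} (hi : κ (X i) ≠ 0) {k : ℕ}
    {G : MvPolynomial (Fin (n + 1)) O} (hG : G.IsHomogeneous k) :
    κ G / κ (X i) ^ k = dehF κ i (dehom i G) := by
  rw [kap_eq κ hi hG, mul_div_cancel_left₀ _ (pow_ne_zero _ hi)]

theorem p6_mul {i : Fin (n + 1)} (hi : κ (X i) ≠ 0) {k : ℕ} {z : F}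
    {G H : MvPolynomial (Fin (n + 1)) O} (hG : G.IsHomogeneous k) (hH : H.IsHomogeneous k)
    (hz : z * κ H = κ G) : z * dehF κ i (dehom i H) = dehF κ i (dehom i G) := by
  rw [kap_eq κ hi hG, kap_eq κ hi hH] at hz
  apply mul_left_cancel₀ (pow_ne_zero k hi)
  rw [← hz]
  ring

/-- TASK P6. The point of the scheme below a local ring `D` of the field. Take the ring homomorphism
`φ : O[x_l, l ≠ i] → D` with `φ q = dehF κ i q`, `𝔮` = inverse image of the maximal ideal of `D`;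
`dId I i ≤ 𝔮` since `dehF` vanishes there; `exists_pt`. For `G` homogeneous of degree `k`:
`G ∈ ptIdeal I y ↔ dehom i G ∈ 𝔮` (`AtPt`) and `κ G / κ (X i) ^ k = dehF κ i (dehom i G)`. -/
theorem exists_pt_of_local (hκ : ∀ G, κ G = 0 ↔ G ∈ I.ideal) {D : Subring F}
    (hD : IsLocalRing D) (hC : ∀ c, κ (C c) ∈ D) {i : Fin (n + 1)} (hi : κ (X i) ≠ 0)
    (hX : ∀ k, κ (X k) / κ (X i) ∈ D) :
    ∃ y : hProj I, X i ∉ ptIdeal I y ∧ locY I κ y ≤ D ∧
      (∀ a ∈ locY I κ y, ∀ b ∈ D, a * b = 1 → b ∈ locY I κ y) ∧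
      ∀ (k : ℕ) (G : MvPolynomial (Fin (n + 1)) O), G.IsHomogeneous k →
        (G ∈ ptIdeal I y ↔ ∀ w ∈ D, κ G / κ (X i) ^ k * w ≠ 1) := by
  have hI := p6_prime hκ
  let φ : MvPolynomial {l : Fin (n + 1) // l ≠ i} O →+* D :=
    (dehF κ i).codRestrict D (p6_dehF_mem hC hX)
  have hφ : ∀ q, ((φ q : D) : F) = dehF κ i q := fun q => rfl
  have hφ0 : ∀ q, φ q = 0 ↔ dehF κ i q = 0 := fun q =>
    ⟨fun h => by rw [← hφ, h]; rfl, fun h => Subtype.ext h⟩
  set 𝔮 := (maximalIdeal D).comap φ with h𝔮d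
  have h𝔮 : 𝔮.IsPrime := Ideal.IsPrime.comap φ
  have hle : dId I i ≤ 𝔮 := by
    intro q hq
    have h1 := (hφ0 q).mpr ((dehF_eq_zero_iff hκ hI hi q).mpr hq)
    change φ q ∈ maximalIdeal D
    rw [h1]
    exact Ideal.zero_mem _
  obtain ⟨y, hy⟩ := exists_pt I i h𝔮 hle
  have hiy := (atPt_ne_zero hκ hy).2
  have hunit : ∀ q, q ∉ 𝔮 ↔ ∃ w ∈ D, dehF κ i q * w = 1 := by
    intro q
    have h1 : q ∈ 𝔮 ↔ φ q ∈ maximalIdeal D := Iff.rfl
    rw [h1, IsLocalRing.mem_maximalIdeal, mem_nonunits_iff, not_not]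
    constructor
    · intro hu
      obtain ⟨w, hw⟩ := hu.exists_right_inv
      exact ⟨w, w.2, congrArg Subtype.val hw⟩
    · rintro ⟨w, hw, hw1⟩
      exact IsUnit.of_mul_eq_one ⟨w, hw⟩ (Subtype.ext hw1)
  refine ⟨y, hiy, ?_, ?_, ?_⟩
  · rintro z ⟨k, G, H, hG, hH, hHy, hz⟩
    obtain ⟨w, hw, hw1⟩ := (hunit (dehom i H)).mp (by rwa [hy.2.2 k H hH])
    have h1 := p6_mul hi hG hH hz
    have h2 : z = dehF κ i (dehom i G) * w := by
      rw [← h1, mul_assoc, hw1, mul_one]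
    rw [h2]
    exact mul_mem (p6_dehF_mem hC hX _) hw
  · rintro a ⟨k, G, H, hG, hH, hHy, hz⟩ b hb hab
    obtain ⟨w, hw, hw1⟩ := (hunit (dehom i H)).mp (by rwa [hy.2.2 k H hH])
    have h1 := p6_mul hi hG hH hz
    have hGy : G ∉ ptIdeal I y := by
      rw [← hy.2.2 k G hG, hunit]
      refine ⟨b * w, mul_mem hb hw, ?_⟩
      rw [← h1]
      linear_combination (dehF κ i (dehom i H) * w) * hab + hw1
    refine ⟨k, H, G, hH, hG, hGy, ?_⟩
    rw [← hz]
    linear_combination κ H * hab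
  · intro k G hG
    rw [p6_div hi hG, ← hy.2.2 k G hG]
    constructor
    · intro h1 w hw hw1
      exact (hunit _).mpr ⟨w, hw, hw1⟩ h1
    · intro h1
      by_contra h2
      obtain ⟨w, hw, hw1⟩ := (hunit _).mp h2
      exact h1 w hw hw1
-- END P6

-- BEGIN P7
theorem p7_ne_zero (hκ : ∀ G, κ G = 0 ↔ G ∈ I.ideal) {y : hProj I}
    {H : MvPolynomial (Fin (n + 1)) O} (hH : H ∉ ptIdeal I y) : κ H ≠ 0 :=
  fun h => hH ((ptIdeal_spec I y).2.1 ((hκ _).mp h))

/-- TASK P7. `locY I κ y` is generated, up to inverses, by the constants and the coordinates. -/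
theorem locY_le (hκ : ∀ G, κ G = 0 ↔ G ∈ I.ideal) {y : hProj I} {i : Fin (n + 1)}
    (hi : X i ∉ ptIdeal I y) {N : Subring F} (hN : N ≤ locY I κ y)
    (hdom : ∀ a ∈ N, ∀ b ∈ locY I κ y, a * b = 1 → b ∈ N) (hC : ∀ c, κ (C c) ∈ N)
    (hX : ∀ k, κ (X k) / κ (X i) ∈ N) : locY I κ y ≤ N := by
  have hi0 := p7_ne_zero hκ hi
  rintro z ⟨k, G, H, hG, hH, hHy, hz⟩
  have hH0 := p7_ne_zero hκ hHy
  have h1 := p6_mul hi0 hG hH hz
  have hXk : (X i ^ k : MvPolynomial (Fin (n + 1)) O).IsHomogeneous k := by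
    simpa using (isHomogeneous_X O i).pow k
  have h2 : κ (X i ^ k) / κ H ∈ locY I κ y :=
    ⟨k, X i ^ k, H, hXk, hH, hHy, div_mul_cancel₀ _ hH0⟩
  have h3 : dehF κ i (dehom i H) * (κ (X i ^ k) / κ H) = 1 := by
    rw [← mul_div_assoc, map_pow, mul_comm, ← kap_eq κ hi0 hH, div_self hH0]
  have h4 := hdom _ (p6_dehF_mem hC hX (dehom i H)) _ h2 h3
  have h5 : z = dehF κ i (dehom i G) * (κ (X i ^ k) / κ H) := by
    rw [← h1, mul_assoc, h3, mul_one]
  rw [h5]
  exact mul_mem (p6_dehF_mem hC hX _) h4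

/-- TASK P7. -/
theorem C_mem_locY (y : hProj I) (c : O) : κ (C c) ∈ locY I κ y := by
  exact ⟨0, C c, 1, isHomogeneous_C _ _, isHomogeneous_one _ _,
    fun h => (ptIdeal_spec I y).1.ne_top ((Ideal.eq_top_iff_one _).mpr h), by
      rw [map_one, mul_one]⟩

/-- TASK P7. -/
theorem div_mem_locY (hκ : ∀ G, κ G = 0 ↔ G ∈ I.ideal) {y : hProj I} {k : ℕ}
    {G H : MvPolynomial (Fin (n + 1)) O} (hG : G.IsHomogeneous k) (hH : H.IsHomogeneous k)
    (hHy : H ∉ ptIdeal I y) : κ G / κ H ∈ locY I κ y := by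
  exact ⟨k, G, H, hG, hH, hHy, div_mul_cancel₀ _ (p7_ne_zero hκ hHy)⟩
-- END P7

end LocY

section Smooth

variable {O : Type} [CommRing O] [IsDedekindDomain O] {n : ℕ} {I : HomIdeal O (n + 1)}
  {F : Type} [Field F] {κ : MvPolynomial (Fin (n + 1)) O →+* F}

-- BEGIN P8
/-- Clearing denominators in a base change to a localization. -/
theorem p8_clear {O R : Type} [CommRing O] [CommRing R] [Algebra O R] (𝔓 : Ideal O) [𝔓.IsPrime]
    (t : TensorProduct O (Localization.AtPrime 𝔓) R) : ∃ c, c ∉ 𝔓 ∧ ∃ r : R,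
      c • t = TensorProduct.tmul O (1 : Localization.AtPrime 𝔓) r := by
  induction t using TensorProduct.induction_on with
  | zero => exact ⟨1, fun h => Ideal.IsPrime.ne_top' ((Ideal.eq_top_iff_one 𝔓).mpr h), 0, by
      rw [smul_zero, TensorProduct.tmul_zero]⟩
  | tmul x r =>
    obtain ⟨⟨a, c⟩, hx⟩ := IsLocalization.surj 𝔓.primeCompl x
    refine ⟨c.1, c.2, a • r, ?_⟩
    have h1 : c.1 • x = algebraMap O (Localization.AtPrime 𝔓) a := by
      rw [Algebra.smul_def, mul_comm]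
      exact hx
    rw [TensorProduct.smul_tmul', h1, Algebra.algebraMap_eq_smul_one, TensorProduct.smul_tmul]
  | add s t hs ht =>
    obtain ⟨c, hc, r, h1⟩ := hs
    obtain ⟨d, hd, r', h2⟩ := ht
    have hp : 𝔓.IsPrime := inferInstance
    refine ⟨c * d, fun h => (hp.mem_or_mem h).elim hc hd, d • r + c • r', ?_⟩
    rw [smul_add, TensorProduct.tmul_add, TensorProduct.tmul_smul, TensorProduct.tmul_smul,
      ← h1, ← h2, smul_smul, smul_smul, mul_comm d c]

/-- TASK P8. With `O' = Localization.AtPrime 𝔓` (a discrete valuation ring with uniformizer `ϖ`):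
`Algebra.Smooth O' (O' ⊗[O] ChartRing I.toHom i)` by `smooth_chartRing` (QWProjChart.lean), so this
ring and its quotient by `ϖ` are regular (`isRegularRing_quotient_of_smooth`, QWRam.lean,
`isRegularRing_of_smooth`); the local ring of the quotient at the point is `locY ⧸ (ϖ)` (the point
lies over `𝔓`, so `locY` is a localization of `O' ⊗ ChartRing`; `chi`, `chi_surjective`,
`chi_eq_zero_iff` in Bert/Chi.lean; `isRegularLocalRing_quotient_atPrime` QWLoc.lean), so it is a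
regular local ring and `notMem_sq_of_quotient` (used in QWStruct.lean) applies: `ϖ` is not a zero
divisor in the domain `locY`. -/
theorem notMem_sq_of_smooth (hκ : ∀ G, κ G = 0 ↔ G ∈ I.ideal) (hI : I.ideal.IsPrime)
    (hc : ∀ c : O, C c ∈ I.ideal → c = 0) {𝔓 : Ideal O} [h𝔓 : 𝔓.IsPrime] (hsm : SmoothOver I 𝔓)
    {ϖ : O} (hϖ : Irreducible (algebraMap O (Localization.AtPrime 𝔓) ϖ)) {y : hProj I}
    (hy : ∀ c, c ∈ 𝔓 ↔ C c ∈ ptIdeal I y)
    (hreg : IsRegularLocalRing (locY I κ y)) (p : locY I κ y) (hp : (p : F) = κ (C ϖ)) :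
    p ∉ maximalIdeal (locY I κ y) ^ 2 := by
  obtain ⟨i, 𝔮, hyi⟩ := exists_atPt I y
  obtain ⟨f, hf1, hf⟩ := exists_isLocAt_locY hκ hI hyi
  have hT : Algebra.Smooth (Localization.AtPrime 𝔓)
      (TensorProduct O (Localization.AtPrime 𝔓) (ChartRing I.toHom i)) :=
    smooth_chartRing I.toHom (Localization.AtPrime 𝔓) i hsm
  -- the maximal ideal of the base
  have hmax : (Ideal.span {algebraMap O (Localization.AtPrime 𝔓) ϖ}).IsMaximal := by
    have h0 : 𝔓 ≠ ⊥ := by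
      intro h0
      have hnz : algebraMap O (Localization.AtPrime 𝔓) ϖ ≠ 0 := hϖ.ne_zero
      have h1 : ϖ ∉ 𝔓 := by
        intro h1
        rw [h0, Ideal.mem_bot] at h1
        rw [h1, map_zero] at hnz
        exact hnz rfl
      exact hϖ.not_isUnit (IsLocalization.map_units (Localization.AtPrime 𝔓)
        (⟨ϖ, h1⟩ : 𝔓.primeCompl))
    have hd : IsDiscreteValuationRing (Localization.AtPrime 𝔓) :=
      IsLocalization.AtPrime.isDiscreteValuationRing_of_dedekind_domain O h0 _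
    rw [← hϖ.maximalIdeal_eq]
    infer_instance
  have hQuot := isRegularRing_quotient_of_smooth
    (X := TensorProduct O (Localization.AtPrime 𝔓) (ChartRing I.toHom i)) _ hmax
  -- the maps to the local ring
  have hdC : ∀ c, dehF κ i (C c) = κ (C c) := by
    intro c
    rw [dehF, coe_eval₂Hom, eval₂_C]
    rfl
  have hCq : ∀ c : O, C c ∈ 𝔮 ↔ c ∈ 𝔓 := by
    intro c
    rw [hy, ← hyi.2.2 0 (C c) (isHomogeneous_C _ _), dehom_C]
  have hunit : ∀ c : 𝔓.primeCompl, IsUnit ((f.comp C) c.1) := by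
    intro c
    rw [RingHom.comp_apply, hf.unit, hCq]
    exact c.2
  let algY : Algebra O (locY I κ y) := (f.comp C).toAlgebra
  have halg : ∀ c : O, algebraMap O (locY I κ y) c = f (C c) := fun c => rfl
  let φ₁ : Localization.AtPrime 𝔓 →ₐ[O] locY I κ y :=
    IsLocalization.liftAlgHom (M := 𝔓.primeCompl) (f := Algebra.ofId O (locY I κ y)) hunit
  have hdI : ∀ q, chi I i q = 0 → f q = 0 := by
    intro q hq
    rw [hf.ker]
    exact ⟨1, fun h => hyi.1.ne_top ((Ideal.eq_top_iff_one _).mpr h), by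
      rw [one_mul]; exact (chi_eq_zero_iff I i q).mp hq⟩
  let φ₂ : ChartRing I.toHom i →ₐ[O] locY I κ y :=
    { RingHom.liftOfSurjective (chi I i).toRingHom (chi_surjective I i)
        ⟨f, fun q hq => hdI q hq⟩ with
      commutes' := by
        intro c
        have h1 : (algebraMap O (ChartRing I.toHom i)) c = (chi I i).toRingHom (C c) :=
          ((chi I i).commutes c).symm
        change RingHom.liftOfSurjective (chi I i).toRingHom (chi_surjective I i)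
          ⟨f, fun q hq => hdI q hq⟩ _ = _
        rw [h1]
        exact RingHom.liftOfRightInverse_comp_apply _ _ _ _ _ }
  have hφ₂ : ∀ q, φ₂ (chi I i q) = f q := fun q =>
    RingHom.liftOfRightInverse_comp_apply _ _ _ _ _
  let h := Algebra.TensorProduct.productMap φ₁ φ₂
  have hh : ∀ q, h (TensorProduct.tmul O 1 (chi I i q)) = f q := by
    intro q
    rw [Algebra.TensorProduct.productMap_apply_tmul, map_one, one_mul, hφ₂]
  let algT : Algebra (TensorProduct O (Localization.AtPrime 𝔓) (ChartRing I.toHom i))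
    (locY I κ y) := h.toRingHom.toAlgebra
  have halgT : ∀ t, algebraMap (TensorProduct O (Localization.AtPrime 𝔓) (ChartRing I.toHom i))
    (locY I κ y) t = h t := fun t => rfl
  let Q : Ideal (TensorProduct O (Localization.AtPrime 𝔓) (ChartRing I.toHom i)) :=
    (maximalIdeal (locY I κ y)).comap h.toRingHom
  have hQp : Q.IsPrime := Ideal.IsPrime.comap h.toRingHom
  have hQmem : ∀ t, t ∈ Q ↔ ¬ IsUnit (h t) := by
    intro t
    change h t ∈ maximalIdeal (locY I κ y) ↔ _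
    rw [IsLocalRing.mem_maximalIdeal, mem_nonunits_iff]
  have hloc : IsLocalization.AtPrime (locY I κ y) Q := by
    refine ⟨⟨?_, ?_, ?_⟩⟩
    · rintro ⟨t, ht⟩
      have h1 : t ∉ Q := ht
      rw [hQmem, not_not] at h1
      exact h1
    · intro z
      obtain ⟨a, s, hs, h1⟩ := hf.surj z
      refine ⟨⟨TensorProduct.tmul O 1 (chi I i a), ⟨TensorProduct.tmul O 1 (chi I i s), ?_⟩⟩, ?_⟩
      · rw [Ideal.mem_primeCompl_iff, hQmem, not_not, hh, hf.unit]
        exact hs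
      · change z * h (TensorProduct.tmul O 1 (chi I i s)) =
          h (TensorProduct.tmul O 1 (chi I i a))
        rw [hh, hh, h1]
    · intro s t hst
      have hst' : h (s - t) = 0 := by
        rw [map_sub, sub_eq_zero]
        exact hst
      obtain ⟨c, hcP, r, h1⟩ := p8_clear 𝔓 (s - t)
      obtain ⟨q, rfl⟩ := chi_surjective I i r
      have h2 : f q = 0 := by
        rw [← hh, ← h1, map_smul, hst', smul_zero]
      obtain ⟨z, hz, hzq⟩ := (hf.ker q).mp h2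
      have h3 : (TensorProduct.tmul O 1 (chi I i z) :
          TensorProduct O (Localization.AtPrime 𝔓) (ChartRing I.toHom i)) *
          (TensorProduct.tmul O 1 (chi I i q)) = 0 := by
        rw [Algebra.TensorProduct.tmul_mul_tmul, ← map_mul, (chi_eq_zero_iff I i _).mpr hzq,
          TensorProduct.tmul_zero]
      refine ⟨⟨algebraMap O _ c * TensorProduct.tmul O 1 (chi I i z), ?_⟩, ?_⟩
      · rw [Ideal.mem_primeCompl_iff, hQmem, not_not, map_mul, hh]
        refine IsUnit.mul ?_ ((hf.unit z).mpr hz)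
        rw [AlgHom.commutes]
        exact hunit ⟨c, hcP⟩
      · rw [← sub_eq_zero, ← mul_sub]
        change (algebraMap O _ c * TensorProduct.tmul O 1 (chi I i z)) * (s - t) = 0
        rw [mul_right_comm, ← Algebra.smul_def, h1, mul_comm]
        exact h3
  have hP0 : ϖ ∈ 𝔓 := by
    by_contra h1
    exact hϖ.not_isUnit (IsLocalization.map_units (Localization.AtPrime 𝔓)
      (⟨ϖ, h1⟩ : 𝔓.primeCompl))
  have hpf : h (algebraMap (Localization.AtPrime 𝔓) _ (algebraMap O _ ϖ)) = p := by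
    rw [← IsScalarTower.algebraMap_apply, AlgHom.commutes, halg]
    apply Subtype.ext
    rw [hf1, hdC, hp]
  have hpm : p ∈ maximalIdeal (locY I κ y) := by
    rw [← hpf, ← IsScalarTower.algebraMap_apply, AlgHom.commutes, halg, hf.mem_maximalIdeal, hCq]
    exact hP0
  have hle : Ideal.span {algebraMap (Localization.AtPrime 𝔓)
      (TensorProduct O (Localization.AtPrime 𝔓) (ChartRing I.toHom i))
        (algebraMap O (Localization.AtPrime 𝔓) ϖ)} ≤ Q := by
    rw [Ideal.span_singleton_le_iff_mem]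
    change h _ ∈ maximalIdeal (locY I κ y)
    rw [hpf]
    exact hpm
  have hreg2 := isRegularLocalRing_quotient_atPrime (B := locY I κ y) Q _ hle hQuot
  rw [Ideal.map_span, Set.image_singleton, halgT, hpf] at hreg2
  refine notMem_sq_of_quotient hpm ?_ hreg2
  apply mem_nonZeroDivisors_of_ne_zero
  intro h0
  rw [h0] at hp
  have h1 : κ (C ϖ) = 0 := hp.symm
  have h2 := hc ϖ ((hκ _).mp h1)
  exact hϖ.ne_zero (by rw [h2, map_zero])
-- END P8

end Smooth

section Fix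

variable {O : Type} [CommRing O] {n : ℕ} {I : HomIdeal O (n + 1)}
  {ρ : Equiv.Perm (Fin (n + 1))} {𝔓 : Ideal O}

/-- The point `y` is a fixed point in the fibre over `𝔓`. -/
def FixPt (ρ : Equiv.Perm (Fin (n + 1))) (𝔓 : Ideal O) (y : hProj I) : Prop :=
  (∀ c ∈ 𝔓, C c ∈ ptIdeal I y) ∧
    ∀ k l : Fin (n + 1), X k * X (ρ l) - X l * X (ρ k) ∈ ptIdeal I y

-- BEGIN P9
/-- TASK P9. The generators of `fixSpan` are in `ptIdeal I y`, so `dId (fixIdeal ρ I 𝔓) i ≤ 𝔮` (for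
homogeneous generators `G`: `dehom i G ∈ 𝔮 ↔ G ∈ ptIdeal I y`). Conversely a prime ideal `𝔮`
of the chart containing `dId (fixIdeal ρ I 𝔓) i` belongs to a fixed point. -/
theorem fixPt_iff {y : hProj I} {i : Fin (n + 1)}
    {𝔮 : Ideal (MvPolynomial {l : Fin (n + 1) // l ≠ i} O)} (h : AtPt I y i 𝔮) :
    FixPt ρ 𝔓 y ↔ dId (fixIdeal ρ I 𝔓) i ≤ 𝔮 := by
  have h1 : dId (fixIdeal ρ I 𝔓) i ≤ 𝔮 ↔ fixSpan ρ I 𝔓 ≤ 𝔮.comap (dehom i) :=
    Ideal.map_le_iff_le_comap
  rw [h1, fixSpan, fibSpan, sup_le_iff, sup_le_iff, Ideal.map_le_iff_le_comap, Ideal.span_le]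
  have h2 : I.ideal ≤ 𝔮.comap (dehom i) := Ideal.map_le_iff_le_comap.mp h.2.1
  have h3 : 𝔓 ≤ (𝔮.comap (dehom i)).comap C ↔ ∀ c ∈ 𝔓, C c ∈ ptIdeal I y := by
    constructor
    · intro h4 c hc
      exact (h.2.2 0 (C c) (isHomogeneous_C _ _)).mp (h4 hc)
    · intro h4 c hc
      exact (h.2.2 0 (C c) (isHomogeneous_C _ _)).mpr (h4 c hc)
  have hhom : ∀ k l : Fin (n + 1), (X k * X (ρ l) - X l * X (ρ k) :
      MvPolynomial (Fin (n + 1)) O).IsHomogeneous 2 := fun k l =>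
    ((isHomogeneous_X O k).mul (isHomogeneous_X O (ρ l))).sub
      ((isHomogeneous_X O l).mul (isHomogeneous_X O (ρ k)))
  have h5 : (Set.range fun kl : Fin (n + 1) × Fin (n + 1) => (X kl.1 * X (ρ kl.2) -
      X kl.2 * X (ρ kl.1) : MvPolynomial (Fin (n + 1)) O)) ⊆ (𝔮.comap (dehom i)) ↔
      ∀ k l : Fin (n + 1), X k * X (ρ l) - X l * X (ρ k) ∈ ptIdeal I y := by
    constructor
    · intro h4 k l
      exact (h.2.2 2 _ (hhom k l)).mp (h4 ⟨(k, l), rfl⟩)
    · rintro h4 _ ⟨kl, rfl⟩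
      exact (h.2.2 2 _ (hhom kl.1 kl.2)).mpr (h4 kl.1 kl.2)
  rw [h3, h5]
  exact ⟨fun h6 => ⟨⟨h2, h6.1⟩, h6.2⟩, fun h6 => ⟨h6.1.2, h6.2⟩⟩

/-- TASK P9. `exists_pt` for `fixIdeal ρ I 𝔓` and `𝔮`, `AtPt.exists_isLocAt`: `f a` is in the maximal
ideal of the stalk (`IsLocAt.mem_maximalIdeal`), so `f (a ^ 2) = 0`, `IsLocAt.ker`. -/
theorem FixPt.exists_mul_sq_mem (hord : OrdinaryFix ρ I 𝔓) {y : hProj I} (hy : FixPt ρ 𝔓 y)
    {i : Fin (n + 1)} {𝔮 : Ideal (MvPolynomial {l : Fin (n + 1) // l ≠ i} O)}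
    (h : AtPt I y i 𝔮) {a : MvPolynomial {l : Fin (n + 1) // l ≠ i} O} (ha : a ∈ 𝔮) :
    ∃ s, s ∉ 𝔮 ∧ s * a ^ 2 ∈ dId (fixIdeal ρ I 𝔓) i := by
  obtain ⟨y', hy'⟩ := exists_pt (fixIdeal ρ I 𝔓) i h.1 ((fixPt_iff h).mp hy)
  obtain ⟨f, hf⟩ := hy'.exists_isLocAt
  have h1 := (hf.mem_maximalIdeal a).mpr ha
  have h2 := hord y' _ h1
  rw [← map_pow] at h2
  exact (hf.ker _).mp h2
-- END P9

-- BEGIN P10
theorem p10_le (hord : OrdinaryFix ρ I 𝔓) {i : Fin (n + 1)}
    {𝔮 𝔮' : Ideal (MvPolynomial {l : Fin (n + 1) // l ≠ i} O)} {y : hProj I} (hy : FixPt ρ 𝔓 y)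
    (h : AtPt I y i 𝔮) (h𝔮' : 𝔮'.IsPrime) (hle : 𝔮' ≤ 𝔮) (hd : dId (fixIdeal ρ I 𝔓) i ≤ 𝔮') :
    𝔮 ≤ 𝔮' := by
  intro a ha
  obtain ⟨s, hs, hsa⟩ := hy.exists_mul_sq_mem hord h ha
  rcases h𝔮'.mem_or_mem (hd hsa) with h1 | h1
  · exact absurd (hle h1) hs
  · exact h𝔮'.mem_of_pow_mem _ h1

theorem p10_dId_le (ρ : Equiv.Perm (Fin (n + 1))) (I : HomIdeal O (n + 1)) (𝔓 : Ideal O)
    (i : Fin (n + 1)) : dId I i ≤ dId (fixIdeal ρ I 𝔓) i :=
  Ideal.map_mono (le_sup_of_le_left le_sup_left)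

theorem p10_max (hord : OrdinaryFix ρ I 𝔓) {i : Fin (n + 1)}
    {𝔮 : Ideal (MvPolynomial {l : Fin (n + 1) // l ≠ i} O)} {y : hProj I} (hy : FixPt ρ 𝔓 y)
    (h : AtPt I y i 𝔮) : 𝔮.IsMaximal := by
  obtain ⟨𝔪, h𝔪, hle⟩ := Ideal.exists_le_maximal 𝔮 h.1.ne_top
  have hd := (fixPt_iff h).mp hy
  obtain ⟨y', hy'⟩ := exists_pt I i h𝔪.isPrime (((p10_dId_le ρ I 𝔓 i).trans hd).trans hle)
  have hf' : FixPt ρ 𝔓 y' := (fixPt_iff hy').mpr (hd.trans hle)
  have h1 : 𝔪 ≤ 𝔮 := p10_le hord hf' hy' h.1 hle hd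
  rwa [le_antisymm hle h1]

/-- TASK P10. If `𝔮' ≤ 𝔮` are primes of a chart containing `dId (fixIdeal ρ I 𝔓) i` then `𝔮 = 𝔮'`
(`FixPt.exists_mul_sq_mem` for the point of `𝔮`: `s a ^ 2 ∈ dId ≤ 𝔮'`, `s ∉ 𝔮`). So every such prime is
minimal over `dId` (finitely many, noetherian: `Ideal.finite_minimalPrimes_of_isNoetherianRing`) and
maximal, so the points are closed (`AtPt.mem_closedPoints_iff`), and finitely many
(`exists_atPt`, `AtPt.pt_unique`). -/
theorem finite_fixPt [IsNoetherianRing O] [IsJacobsonRing O] (hord : OrdinaryFix ρ I 𝔓) :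
    {y : hProj I | FixPt ρ 𝔓 y}.Finite ∧
      ∀ y : hProj I, FixPt ρ 𝔓 y → y ∈ closedPoints (hProj I) := by
  constructor
  · have hsub : {y : hProj I | FixPt ρ 𝔓 y} ⊆ ⋃ i : Fin (n + 1),
        ⋃ 𝔮 ∈ (dId (fixIdeal ρ I 𝔓) i).minimalPrimes, {y : hProj I | AtPt I y i 𝔮} := by
      intro y hy
      obtain ⟨i, 𝔮, h⟩ := exists_atPt I y
      refine Set.mem_iUnion.mpr ⟨i, Set.mem_iUnion₂.mpr ⟨𝔮, ?_, h⟩⟩
      refine ⟨⟨h.1, (fixPt_iff h).mp hy⟩, ?_⟩
      rintro 𝔮' ⟨h1, h2⟩ h3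
      exact p10_le hord hy h h1 h3 h2
    refine Set.Finite.subset (Set.finite_iUnion fun i => ?_) hsub
    refine Set.Finite.biUnion (Ideal.finite_minimalPrimes_of_isNoetherianRing _ _) fun 𝔮 _ => ?_
    exact Set.Subsingleton.finite fun y hy y' hy' => AtPt.pt_unique I hy hy'
  · intro y hy
    obtain ⟨i, 𝔮, h⟩ := exists_atPt I y
    exact h.mem_closedPoints_iff.mpr (p10_max hord hy h)
-- END P10

variable {σ : O →+* O} (hσ : ∀ c, σ (σ c) = c) (hρ : ∀ k, ρ (ρ k) = k)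

-- BEGIN P11
/-- TASK P11. -/
theorem twHom_isHomogeneous (σ : O →+* O) (ρ : Equiv.Perm (Fin (n + 1))) {k : ℕ}
    {G : MvPolynomial (Fin (n + 1)) O} (hG : G.IsHomogeneous k) :
    (twHom σ ρ G).IsHomogeneous k := by
  have h := hG.eval₂ (C.comp σ : O →+* MvPolynomial (Fin (n + 1)) O) (fun i => X (ρ i))
    (fun r => isHomogeneous_C _ _) (fun i => isHomogeneous_X O (ρ i))
  rwa [one_mul] at h

include hσ hρ in
/-- TASK P11. -/
theorem twHom_twHom (G : MvPolynomial (Fin (n + 1)) O) : twHom σ ρ (twHom σ ρ G) = G := by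
  have hC : ∀ c : O, twHom σ ρ (C c) = C (σ c) := fun c => by
    rw [twHom, coe_eval₂Hom, eval₂_C]
    rfl
  have hX : ∀ k, twHom σ ρ (X k) = X (ρ k) := fun k => by
    rw [twHom, coe_eval₂Hom, eval₂_X]
  induction G using MvPolynomial.induction_on with
  | C a => rw [hC, hC, hσ]
  | add a b ha hb => rw [map_add, map_add, ha, hb]
  | mul_X a k ha => rw [map_mul, map_mul, ha, hX, hX, hρ]

private theorem p11_eval {R : Type} [CommRing R] (f : O →+* R) (g : Fin (n + 1) → R) (a : R)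
    {k : ℕ} {G : MvPolynomial (Fin (n + 1)) O} (hG : G.IsHomogeneous k) :
    eval₂ f (fun l => a * g l) G = a ^ k * eval₂ f g G := by
  rw [eval₂_eq', eval₂_eq', Finset.mul_sum]
  refine Finset.sum_congr rfl fun d hd => ?_
  have h1 : ∑ l, d l = k := by
    have h2 := hG (mem_support_iff.1 hd)
    rw [Finsupp.weight_apply, Finsupp.sum_fintype _ _ (fun _ => by simp)] at h2
    simpa using h2
  rw [← h1, ← Finset.prod_pow_eq_pow_sum]
  have h3 : ∏ l, (a * g l) ^ d l = (∏ l, a ^ d l) * ∏ l, g l ^ d l := by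
    rw [← Finset.prod_mul_distrib]
    exact Finset.prod_congr rfl fun l _ => mul_pow _ _ _
  rw [h3]
  ring

/-- TASK P11. Modulo `ptIdeal I y`: `σ c ≡ c`, `X i * X (ρ l) ≡ X l * X (ρ i)`, so
`X i ^ k * G^σ(x_ρ) ≡ G(X i * X (ρ l)) ≡ G (X l * X (ρ i)) = X (ρ i) ^ k * G`. By linearity for
monomials. -/
theorem FixPt.pow_mul_twHom (hσ𝔓 : ∀ c, σ c - c ∈ 𝔓) {y : hProj I} (hy : FixPt ρ 𝔓 y)
    (i : Fin (n + 1)) {k : ℕ} {G : MvPolynomial (Fin (n + 1)) O} (hG : G.IsHomogeneous k) :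
    X i ^ k * twHom σ ρ G - X (ρ i) ^ k * G ∈ ptIdeal I y := by
  let π := Ideal.Quotient.mk (ptIdeal I y)
  have e1 : π.comp (C.comp σ) = π.comp C := by
    ext c
    have h1 : C (σ c) - C c ∈ ptIdeal I y := by
      rw [← map_sub]
      exact hy.1 _ (hσ𝔓 c)
    exact Ideal.Quotient.eq.2 h1
  have e2 : π (twHom σ ρ G) = eval₂ (π.comp C) (fun l => π (X (ρ l))) G := by
    rw [twHom, coe_eval₂Hom, ← e1]
    exact hom_eval₂ G _ π _
  have e3 : π G = eval₂ (π.comp C) (fun l => π (X l)) G := by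
    conv_lhs => rw [← eval₂_eta G]
    exact hom_eval₂ G _ π _
  have e4 : ∀ l, π (X i) * π (X (ρ l)) = π (X (ρ i)) * π (X l) := by
    intro l
    rw [← map_mul, ← map_mul]
    have h1 := hy.2 i l
    rw [mul_comm (X l) (X (ρ i))] at h1
    exact Ideal.Quotient.eq.2 h1
  rw [← Ideal.Quotient.eq]
  change π (X i ^ k * twHom σ ρ G) = π (X (ρ i) ^ k * G)
  rw [map_mul, map_mul, map_pow, map_pow, e2, e3, ← p11_eval _ _ _ hG, ← p11_eval _ _ _ hG]
  simp only [e4]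

include hρ in
/-- TASK P11. `k = i`, `l = ρ i` in the definition: `X i ^ 2 - X (ρ i) ^ 2` is in the prime
ideal. -/
theorem FixPt.rho_notMem {y : hProj I} (hy : FixPt ρ 𝔓 y) {i : Fin (n + 1)}
    (hi : X i ∉ ptIdeal I y) : X (ρ i) ∉ ptIdeal I y := by
  intro h
  have h1 := hy.2 i (ρ i)
  rw [hρ] at h1
  have h2 : X i * X i ∈ ptIdeal I y := by
    have h3 : (X i * X i : MvPolynomial (Fin (n + 1)) O) =
      (X i * X i - X (ρ i) * X (ρ i)) + X (ρ i) * X (ρ i) := by ring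
    rw [h3]
    exact Ideal.add_mem _ h1 (Ideal.mul_mem_left _ _ h)
  rcases (ptIdeal_spec I y).1.mem_or_mem h2 with h3 | h3 <;> exact hi h3

include hρ in
/-- TASK P11. -/
theorem FixPt.twHom_mem_iff (hσ𝔓 : ∀ c, σ c - c ∈ 𝔓) {y : hProj I} (hy : FixPt ρ 𝔓 y) {k : ℕ}
    {G : MvPolynomial (Fin (n + 1)) O} (hG : G.IsHomogeneous k) :
    twHom σ ρ G ∈ ptIdeal I y ↔ G ∈ ptIdeal I y := by
  obtain ⟨i, hi⟩ := (ptIdeal_spec I y).2.2.2
  have hi' := hy.rho_notMem hρ hi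
  have h1 := hy.pow_mul_twHom hσ𝔓 i hG
  have hp := (ptIdeal_spec I y).1
  constructor
  · intro h
    have h2 : X (ρ i) ^ k * G ∈ ptIdeal I y := by
      have h3 : X (ρ i) ^ k * G = X i ^ k * twHom σ ρ G -
        (X i ^ k * twHom σ ρ G - X (ρ i) ^ k * G) := by ring
      rw [h3]
      exact Ideal.sub_mem _ (Ideal.mul_mem_left _ _ h) h1
    rcases hp.mem_or_mem h2 with h3 | h3
    · exact absurd (hp.mem_of_pow_mem _ h3) hi'
    · exact h3
  · intro h
    have h2 : X i ^ k * twHom σ ρ G ∈ ptIdeal I y := by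
      have h3 : X i ^ k * twHom σ ρ G = X (ρ i) ^ k * G +
        (X i ^ k * twHom σ ρ G - X (ρ i) ^ k * G) := by ring
      rw [h3]
      exact Ideal.add_mem _ (Ideal.mul_mem_left _ _ h) h1
    rcases hp.mem_or_mem h2 with h3 | h3
    · exact absurd (hp.mem_of_pow_mem _ h3) hi
    · exact h3
-- END P11

variable {F : Type} [Field F] {κ : MvPolynomial (Fin (n + 1)) O →+* F} {τF : F →+* F}

-- BEGIN P12
include hρ in
/-- TASK P12. -/
theorem FixPt.map_mem_locY (hκ : ∀ G, κ G = 0 ↔ G ∈ I.ideal)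
    (hτ : ∀ G, τF (κ G) = κ (twHom σ ρ G)) (hσ𝔓 : ∀ c, σ c - c ∈ 𝔓) {y : hProj I}
    (hy : FixPt ρ 𝔓 y) {z : F} (hz : z ∈ locY I κ y) : τF z ∈ locY I κ y := by
  obtain ⟨k, G, H, hG, hH, hHy, h1⟩ := hz
  refine ⟨k, twHom σ ρ G, twHom σ ρ H, twHom_isHomogeneous σ ρ hG, twHom_isHomogeneous σ ρ hH,
    fun h => hHy ((hy.twHom_mem_iff hρ hσ𝔓 hH).1 h), ?_⟩
  rw [← hτ, ← hτ, ← map_mul, h1]

include hρ in
/-- TASK P12. With `z = κ G / κ H`, `τF z - z = κ (tw G H - G tw H) / κ (H tw H)` and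
`X i ^ k (tw G H - G tw H) ∈ ptIdeal I y` by `FixPt.pow_mul_twHom` for `G` and `H`. -/
theorem FixPt.sub_mul_ne_one (hκ : ∀ G, κ G = 0 ↔ G ∈ I.ideal)
    (hτ : ∀ G, τF (κ G) = κ (twHom σ ρ G)) (hσ𝔓 : ∀ c, σ c - c ∈ 𝔓) {y : hProj I}
    (hy : FixPt ρ 𝔓 y) {z w : F} (hz : z ∈ locY I κ y) (hw : w ∈ locY I κ y) :
    (τF z - z) * w ≠ 1 := by
  obtain ⟨k, G, H, hG, hH, hHy, h1⟩ := hz
  obtain ⟨l, G', H', hG', hH', hHy', h2⟩ := hw
  intro hcon
  have hp := (ptIdeal_spec I y).1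
  obtain ⟨i, hi⟩ := (ptIdeal_spec I y).2.2.2
  have h3 : τF z * κ (twHom σ ρ H) = κ (twHom σ ρ G) := by
    rw [← hτ, ← hτ, ← map_mul, h1]
  have h4 : (H * twHom σ ρ G - G * twHom σ ρ H) * G' - H * twHom σ ρ H * H' ∈ I.ideal := by
    rw [← hκ, map_sub, map_mul, map_sub, map_mul, map_mul, map_mul, map_mul, ← h1, ← h2, ← h3]
    linear_combination κ H * κ (twHom σ ρ H) * κ H' * hcon
  have h5 : H * twHom σ ρ G - G * twHom σ ρ H ∈ ptIdeal I y := by
    have h6 : X i ^ k * (H * twHom σ ρ G - G * twHom σ ρ H) ∈ ptIdeal I y := by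
      have h7 : X i ^ k * (H * twHom σ ρ G - G * twHom σ ρ H) =
          H * (X i ^ k * twHom σ ρ G - X (ρ i) ^ k * G) -
          G * (X i ^ k * twHom σ ρ H - X (ρ i) ^ k * H) := by ring
      rw [h7]
      exact Ideal.sub_mem _ (Ideal.mul_mem_left _ _ (hy.pow_mul_twHom hσ𝔓 i hG))
        (Ideal.mul_mem_left _ _ (hy.pow_mul_twHom hσ𝔓 i hH))
    rcases hp.mem_or_mem h6 with h | h
    · exact absurd (hp.mem_of_pow_mem _ h) hi
    · exact h
  have h8 : H * twHom σ ρ H * H' ∈ ptIdeal I y := by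
    have h9 : H * twHom σ ρ H * H' = (H * twHom σ ρ G - G * twHom σ ρ H) * G' -
      ((H * twHom σ ρ G - G * twHom σ ρ H) * G' - H * twHom σ ρ H * H') := by ring
    rw [h9]
    exact Ideal.sub_mem _ (Ideal.mul_mem_right _ _ h5) ((ptIdeal_spec I y).2.1 h4)
  rcases hp.mem_or_mem h8 with h | h
  · rcases hp.mem_or_mem h with h | h
    · exact hHy h
    · exact hHy ((hy.twHom_mem_iff hρ hσ𝔓 hH).1 h)
  · exact hHy' h
-- END P12

-- BEGIN P13
theorem p13_dehF_C (i : Fin (n + 1)) (c : O) : dehF κ i (C c) = κ (C c) := by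
  unfold dehF
  rw [coe_eval₂Hom, eval₂_C]
  rfl

theorem p13_dehF_X {i : Fin (n + 1)} (hi : κ (X i) ≠ 0) (k : Fin (n + 1)) :
    dehF κ i (dehom i (X k)) = κ (X k) / κ (X i) := by
  have h1 := kap_eq κ hi (isHomogeneous_X O k)
  rw [h1, pow_one, mul_div_cancel_left₀ _ hi]

include hρ in
/-- TASK P13. **The squares lie in the augmentation ideal.** Choose `i` with `X i ∉ ptIdeal I y`
(`ptIdeal_spec`), `𝔮` with `AtPt I y i 𝔮`, `f` = the map of `exists_isLocAt_locY`. For `g` in the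
maximal ideal: `g * f s = f a`, `a ∈ 𝔮`, `s ∉ 𝔮` (so `f s` is a unit), and by
`FixPt.exists_mul_sq_mem` it is enough that `f` maps `dId (fixIdeal ρ I 𝔓) i` into
`J = span {p} ⊔ augIdeal τD`. This ideal is generated by the `dehom i G`, `G` one of: `G ∈ I.ideal`
(`f (dehom i G) = 0`); `C c`, `c ∈ 𝔓`: `h𝔓` and `C s` is a unit of `locY`; the
`u_kl = X k X (ρ l) - X l X (ρ k)`: with `ξ k = κ (X k) / κ (X i)` and
`r = κ (X (ρ i)) / κ (X i)` (in `locY`), `κ u_kl / κ (X i) ^ 2 = r (ξ k (τ ξ l - ξ l) - ξ l (τ ξ k - ξ k))`,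
in `augIdeal τD`. -/
theorem FixPt.sq_mem (hκ : ∀ G, κ G = 0 ↔ G ∈ I.ideal) (hI : I.ideal.IsPrime)
    (hτ : ∀ G, τF (κ G) = κ (twHom σ ρ G)) (hσ𝔓 : ∀ c, σ c - c ∈ 𝔓)
    (hord : OrdinaryFix ρ I 𝔓) {y : hProj I} (hy : FixPt ρ 𝔓 y) {ϖ : O}
    (h𝔓 : ∀ c ∈ 𝔓, ∃ s, C s ∉ ptIdeal I y ∧ ∃ d, s * c = d * ϖ) [IsLocalRing (locY I κ y)]
    (τD : locY I κ y →+* locY I κ y) (hτD : ∀ z, ((τD z : locY I κ y) : F) = τF z)
    (p : locY I κ y) (hp : (p : F) = κ (C ϖ)) {g : locY I κ y}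
    (hg : g ∈ maximalIdeal (locY I κ y)) : g ^ 2 ∈ Ideal.span {p} ⊔ augIdeal τD := by
  obtain ⟨i, 𝔮, h⟩ := exists_atPt I y
  obtain ⟨hi, hiy⟩ := atPt_ne_zero hκ h
  obtain ⟨f, hf, hloc⟩ := exists_isLocAt_locY hκ hI h
  obtain ⟨a, s, hs, hgs⟩ := hloc.surj g
  have ha : a ∈ 𝔮 := by
    by_contra hcon
    exact (mem_maximalIdeal g).1 hg ((hloc.e1_isUnit_iff hs hgs).2 hcon)
  obtain ⟨t, ht, hta⟩ := hy.exists_mul_sq_mem hord h ha
  have hri : κ (X (ρ i)) ≠ 0 := by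
    intro h0
    exact hy.rho_notMem hρ hiy ((ptIdeal_spec I y).2.1 ((hκ _).1 h0))
  -- the coordinates
  have hΞ : ∀ k, (f (dehom i (X k)) : F) = κ (X k) / κ (X i) := by
    intro k
    rw [hf, p13_dehF_X hi]
  have hτX : ∀ l, τF (κ (X l)) = κ (X (ρ l)) := by
    intro l
    rw [hτ]
    unfold twHom
    rw [eval₂Hom_X']
  have hΞρ : ∀ l, f (dehom i (X (ρ l))) = f (dehom i (X (ρ i))) * τD (f (dehom i (X l))) := by
    intro l
    apply Subtype.ext
    rw [Subring.coe_mul, hτD, hΞ, hΞ, hΞ, map_div₀, hτX, hτX]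
    field_simp
  -- the key fact
  have key : ∀ q ∈ dId (fixIdeal ρ I 𝔓) i,
      f q ∈ (Ideal.span {p} ⊔ augIdeal τD : Ideal (locY I κ y)) := by
    have hle : dId (fixIdeal ρ I 𝔓) i ≤
        (Ideal.span {p} ⊔ augIdeal τD : Ideal (locY I κ y)).comap f := by
      unfold dId
      rw [Ideal.map_le_iff_le_comap]
      change fixSpan ρ I 𝔓 ≤ _
      unfold fixSpan fibSpan
      refine sup_le (sup_le ?_ ?_) ?_
      · intro G hG
        rw [Ideal.mem_comap, Ideal.mem_comap]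
        have h0 : f (dehom i G) = 0 := by
          apply Subtype.ext
          rw [hf, Subring.coe_zero]
          exact (dehF_eq_zero_iff hκ hI hi _).2 (Ideal.mem_map_of_mem _ hG)
        rw [h0]
        exact Ideal.zero_mem _
      · rw [Ideal.map_le_iff_le_comap]
        intro c hc
        rw [Ideal.mem_comap, Ideal.mem_comap, Ideal.mem_comap, dehom_C]
        obtain ⟨s', hs', d, hsc⟩ := h𝔓 c hc
        have hu : IsUnit (f (C s')) := by
          rw [hloc.unit]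
          intro hmem
          apply hs'
          rw [← h.2.2 0 (C s') (isHomogeneous_C _ _), dehom_C]
          exact hmem
        have e1 : f (C ϖ) = p := by
          apply Subtype.ext
          rw [hf, hp, p13_dehF_C]
        have e2 : f (C s') * f (C c) = f (C d) * p := by
          rw [← e1, ← map_mul, ← map_mul, ← map_mul, ← map_mul, hsc]
        refine Ideal.mem_sup_left ?_
        rw [← Ideal.unit_mul_mem_iff_mem _ hu, e2]
        exact Ideal.mul_mem_left _ _ (Ideal.mem_span_singleton_self p)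
      · rw [Ideal.span_le]
        rintro _ ⟨⟨k, l⟩, rfl⟩
        change f (dehom i (X k * X (ρ l) - X l * X (ρ k))) ∈
          (Ideal.span {p} ⊔ augIdeal τD : Ideal (locY I κ y))
        rw [map_sub, map_mul, map_mul, map_sub, map_mul, map_mul, hΞρ l, hΞρ k]
        refine Ideal.mem_sup_right ?_
        have hm : ∀ b, τD b - b ∈ augIdeal τD := fun b => Ideal.subset_span ⟨b, rfl⟩
        have e3 : f (dehom i (X k)) * (f (dehom i (X (ρ i))) * τD (f (dehom i (X l)))) -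
            f (dehom i (X l)) * (f (dehom i (X (ρ i))) * τD (f (dehom i (X k)))) =
            f (dehom i (X (ρ i))) * f (dehom i (X k)) *
              (τD (f (dehom i (X l))) - f (dehom i (X l))) -
            f (dehom i (X (ρ i))) * f (dehom i (X l)) *
              (τD (f (dehom i (X k))) - f (dehom i (X k))) := by ring
        rw [e3]
        exact Ideal.sub_mem _ (Ideal.mul_mem_left _ _ (hm _)) (Ideal.mul_mem_left _ _ (hm _))
    intro q hq
    exact hle hq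
  have h1 := key _ hta
  have e4 : f (t * a ^ 2) = (f t * f s ^ 2) * g ^ 2 := by
    rw [map_mul, map_pow, ← hgs]
    ring
  rw [e4, Ideal.unit_mul_mem_iff_mem _
    (((hloc.unit t).2 ht).mul (((hloc.unit s).2 hs).pow 2))] at h1
  exact h1
-- END P13

end Fix

section Fin

variable {L : Type} [Field L] [NumberField L] {n : ℕ} {I : HomIdeal (NumberField.RingOfIntegers L) (n + 1)}
  {F : Type} [Field F] {κ : MvPolynomial (Fin (n + 1)) (NumberField.RingOfIntegers L) →+* F}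

-- BEGIN P14
theorem p14_finite {σ : Type} [Finite σ] {𝔮 : Ideal (MvPolynomial σ (NumberField.RingOfIntegers L))}
    (hmax : 𝔮.IsMaximal) : Finite (MvPolynomial σ (NumberField.RingOfIntegers L) ⧸ 𝔮) := by
  let := Ideal.Quotient.field 𝔮
  have hint : ((Ideal.Quotient.mk 𝔮).comp C).IsIntegral :=
    MvPolynomial.comp_C_integral_of_surjective_of_isJacobsonRing (Ideal.Quotient.mk 𝔮)
      Ideal.Quotient.mk_surjective
  have hpr : (𝔮.comap (C : NumberField.RingOfIntegers L →+* _)).IsPrime := Ideal.IsPrime.comap _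
  have hne : 𝔮.comap (C : NumberField.RingOfIntegers L →+* MvPolynomial σ _) ≠ ⊥ := by
    intro h0
    have hinj : Function.Injective ((Ideal.Quotient.mk 𝔮).comp
        (C : NumberField.RingOfIntegers L →+* MvPolynomial σ _)) := by
      rw [injective_iff_map_eq_zero]
      intro a ha
      rw [RingHom.comp_apply, Ideal.Quotient.eq_zero_iff_mem] at ha
      have : a ∈ 𝔮.comap (C : NumberField.RingOfIntegers L →+* MvPolynomial σ _) := ha
      rw [h0] at this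
      exact this
    let _ : Algebra (NumberField.RingOfIntegers L)
        (MvPolynomial σ (NumberField.RingOfIntegers L) ⧸ 𝔮) :=
      ((Ideal.Quotient.mk 𝔮).comp C).toAlgebra
    have _ : Algebra.IsIntegral (NumberField.RingOfIntegers L)
        (MvPolynomial σ (NumberField.RingOfIntegers L) ⧸ 𝔮) := ⟨hint⟩
    exact NumberField.RingOfIntegers.not_isField L
      (isField_of_isIntegral_of_isField hinj (Field.toIsField _))
  have hPmax : (𝔮.comap (C : NumberField.RingOfIntegers L →+* MvPolynomial σ _)).IsMaximal :=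
    hpr.isMaximal hne
  have hfinP : Finite (NumberField.RingOfIntegers L ⧸
      𝔮.comap (C : NumberField.RingOfIntegers L →+* MvPolynomial σ _)) :=
    Ideal.finiteQuotientOfFreeOfNeBot _ hne
  let := Ideal.Quotient.field (𝔮.comap (C : NumberField.RingOfIntegers L →+* MvPolynomial σ _))
  let alg : Algebra (NumberField.RingOfIntegers L ⧸
      𝔮.comap (C : NumberField.RingOfIntegers L →+* MvPolynomial σ _))
      (MvPolynomial σ (NumberField.RingOfIntegers L) ⧸ 𝔮) :=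
    (Ideal.Quotient.lift _ ((Ideal.Quotient.mk 𝔮).comp C) (fun a ha => by
      rw [RingHom.comp_apply, Ideal.Quotient.eq_zero_iff_mem]; exact ha)).toAlgebra
  have hft : Algebra.FiniteType (NumberField.RingOfIntegers L ⧸
      𝔮.comap (C : NumberField.RingOfIntegers L →+* MvPolynomial σ _))
      (MvPolynomial σ (NumberField.RingOfIntegers L) ⧸ 𝔮) := by
    let f : MvPolynomial σ (NumberField.RingOfIntegers L ⧸
        𝔮.comap (C : NumberField.RingOfIntegers L →+* MvPolynomial σ _)) →ₐ[_]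
        (MvPolynomial σ (NumberField.RingOfIntegers L) ⧸ 𝔮) :=
      aeval fun j => Ideal.Quotient.mk 𝔮 (X j)
    have hf : (f.toRingHom).comp (MvPolynomial.map (Ideal.Quotient.mk _)) =
        Ideal.Quotient.mk 𝔮 := by
      apply MvPolynomial.ringHom_ext
      · intro a
        simp only [f, RingHom.comp_apply, map_C, AlgHom.toRingHom_eq_coe, RingHom.coe_coe]
        rw [aeval_C]
        rfl
      · intro j
        simp [f]
    refine Algebra.FiniteType.of_surjective f fun y => ?_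
    obtain ⟨p, rfl⟩ := Ideal.Quotient.mk_surjective y
    exact ⟨MvPolynomial.map (Ideal.Quotient.mk _) p, by
      have := congrArg (fun g => g p) hf
      simpa using this⟩
  have hmf : Module.Finite (NumberField.RingOfIntegers L ⧸
      𝔮.comap (C : NumberField.RingOfIntegers L →+* MvPolynomial σ _))
      (MvPolynomial σ (NumberField.RingOfIntegers L) ⧸ 𝔮) :=
    finite_of_finite_type_of_isJacobsonRing _ _
  exact Module.finite_of_finite (NumberField.RingOfIntegers L ⧸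
      𝔮.comap (C : NumberField.RingOfIntegers L →+* MvPolynomial σ _))

/-- TASK P14. The residue fields at the closed points are finite: `AtPt.mem_closedPoints_iff`,
`IsLocAt.card_residue` and the finiteness of `O[x_l] ⧸ 𝔮` for `𝔮` maximal (a finitely generated
`ℤ`-algebra which is a field is finite; see the proofs in Bert/Pts.lean, Bert/Prob2.lean,
`finite_of_finite_type_of_isJacobsonRing`). -/
theorem finite_residueField_locY (hκ : ∀ G, κ G = 0 ↔ G ∈ I.ideal) (hI : I.ideal.IsPrime)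
    {y : hProj I} (hy : y ∈ closedPoints (hProj I)) [IsLocalRing (locY I κ y)] :
    Finite (ResidueField (locY I κ y)) := by
  obtain ⟨i, 𝔮, h⟩ := exists_atPt I y
  have hmax : 𝔮.IsMaximal := (AtPt.mem_closedPoints_iff I h).mp hy
  obtain ⟨f, -, hf⟩ := exists_isLocAt_locY (κ := κ) hκ hI h
  have hcard := hf.card_residue hmax
  have hfin := p14_finite hmax
  have hne : Nat.card (ResidueField (locY I κ y)) ≠ 0 := by
    rw [hcard]
    exact Nat.card_ne_zero.mpr ⟨⟨0⟩, hfin⟩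
  exact Nat.finite_of_card_ne_zero hne
-- END P14

end Fin

end Pool.Agent.Lib.MP_6a3dac_ag.QD
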