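import Pool.Agent.Lib.MP_6a3dac_ag.QD.Arith
import Pool.Agent.Lib.MP_6a3dac_ag.QD.Around
import Pool.Agent.Lib.MP_6a3dac_ag.QD.Pt

/-!
# The setting of the descent theorem
-/

set_option autoImplicit false
set_option linter.unusedSectionVars false

namespace Pool.Agent.Lib.MP_6a3dac_ag.QD

open MvPolynomial CategoryTheory Limits AlgebraicGeometry IsLocalRing
open Pool.Agent.Lib.MP_6a3dac_ag Pool.Agent.Lib.MP_6a3dac_ag.DNF Pool.Agent.Lib.MP_6a3dac_ag.Bert

variable {R O L M F : Type} [CommRing R] [CommRing O] [Algebra R O] [Field L] [Algebra R L]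
  [Algebra O L] [IsScalarTower R O L] [CommRing M] [Algebra L M] [Algebra R M]
  [IsScalarTower R L M] [Field F]

/-- The data of the theorem: `M` is the homogeneous coordinate ring over `L` of the projective scheme
defined by `I`, `pM` the map from `O[x_0, ..., x_n]`, `τ` the semilinear involution, `ι : M → F` the
embedding in a field. -/
structure Setting (R : Type) [CommRing R] [Algebra R O] [Algebra R L] [IsScalarTower R O L]
    [Algebra R M] [IsScalarTower R L M] {n : ℕ} (I : HomIdeal O (n + 1))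
    (ρ : Equiv.Perm (Fin (n + 1))) (σ : O →+* O) (ℳ : ℕ → Submodule L M) (τ : M →+* M)
    (ι : M →+* F) (τF : F →+* F) (pM : MvPolynomial (Fin (n + 1)) O →+* M) : Prop where
  quad : QuadExt R O σ
  RL : Function.Injective (algebraMap R L)
  OL : Function.Injective (algebraMap O L)
  τO : ∀ c, τ (oM O L M c) = oM O L M (σ c)
  τ2 : ∀ m, τ (τ m) = m
  τgr : ∀ k m, m ∈ ℳ k → τ m ∈ ℳ k
  inj : Function.Injective ι
  τFι : ∀ m, τF (ι m) = ι (τ m)
  τFτF : ∀ z, τF (τF z) = z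
  ρρ : ∀ k, ρ (ρ k) = k
  pC : ∀ c, pM (C c) = oM O L M c
  pgr : ∀ (k : ℕ) (G : MvPolynomial (Fin (n + 1)) O), G.IsHomogeneous k → pM G ∈ ℳ k
  pτ : ∀ G, τ (pM G) = pM (twHom σ ρ G)
  pker : ∀ G, pM G = 0 ↔ G ∈ I.ideal
  reg : ∀ y : hProj I, IsRegularLocalRing ((hProj I).presheaf.stalk y)

variable {n : ℕ} {I : HomIdeal O (n + 1)} {ρ : Equiv.Perm (Fin (n + 1))} {σ : O →+* O}
  {ℳ : ℕ → Submodule L M} {τ : M →+* M} {ι : M →+* F} {τF : F →+* F}
  {pM : MvPolynomial (Fin (n + 1)) O →+* M}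

section Basic

variable (S : Setting R I ρ σ ℳ τ ι τF pM)
include S

theorem Setting.hκ (G : MvPolynomial (Fin (n + 1)) O) : (ι.comp pM) G = 0 ↔ G ∈ I.ideal := by
  rw [← S.pker, RingHom.comp_apply, map_eq_zero_iff ι S.inj]

theorem Setting.prime [IsDomain M] : I.ideal.IsPrime := by
  have h1 : I.ideal = RingHom.ker pM := by
    ext G
    rw [RingHom.mem_ker, S.pker]
  rw [h1]
  exact RingHom.ker_isPrime pM

theorem Setting.hτκ (G : MvPolynomial (Fin (n + 1)) O) :
    τF ((ι.comp pM) G) = (ι.comp pM) (twHom σ ρ G) := by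
  rw [RingHom.comp_apply, RingHom.comp_apply, S.τFι, S.pτ]

theorem Setting.star (l : Fin (n + 1)) : ∃ l', τ (pM (X l)) = pM (X l') := by
  refine ⟨ρ l, ?_⟩
  rw [S.pτ, twHom, eval₂Hom_X']

theorem Setting.hκC (c : O) : (ι.comp pM) (C c) = ι (oM O L M c) := by
  rw [RingHom.comp_apply, S.pC]

theorem Setting.oM_inj [Nontrivial M] : Function.Injective (oM O L M) :=
  (algebraMap L M).injective.comp S.OL

theorem Setting.C_mem [Nontrivial M] (c : O) (hc : C c ∈ I.ideal) : c = 0 := by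
  rw [← S.pker, S.pC] at hc
  exact S.oM_inj (hc.trans (map_zero _).symm)

theorem Setting.regY [IsDomain M] (y : hProj I) : IsRegularLocalRing (locY I (ι.comp pM) y) :=
  isRegularLocalRing_locY S.hκ S.prime (S.reg y)

end Basic

variable (S : Setting R I ρ σ ℳ τ ι τF pM) (p : Ideal R) [hp : p.IsPrime]
include S

-- BEGIN W1
/-- TASK W1. If the contraction of the prime of `y` to `O` does not meet `R ∖ p`, the elements of
`lamP` are in the local ring: `n c = oM c'`, `n ∉ p`, so `ι c * κ (C (algebraMap R O n)) = κ (C c')`,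
`κ = ι.comp pM`, both homogeneous of degree `0` (`mem_locY`, `S.pC`, `oM_algebraMap`). -/
theorem Setting.lam_mem_locY {y : hProj I}
    (hy : ∀ a : R, C (algebraMap R O a) ∈ ptIdeal I y → a ∈ p) {c : M}
    (hc : c ∈ lamP O L M p) : ι c ∈ locY I (ι.comp pM) y := by
  obtain ⟨m, hm, c', hc', -⟩ := hc
  refine (mem_locY I (ι.comp pM)).2 ⟨0, C c', C (algebraMap R O m), isHomogeneous_C _ _, isHomogeneous_C _ _,
    fun h => hm (hy m h), ?_⟩
  rw [S.hκC, S.hκC, oM_algebraMap, ← map_mul, mul_comm, hc']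

/-- TASK W1. The local ring of the scheme below a local ring `D` of the model.
`exists_pt_of_local` (`κ = ι.comp pM`, `S.hκ`) gives `y`. `lam`: for `c` in `lamP`, `n c = oM c'`, the inverse of
`n` is in `lamP` (`exists_inv_lamP'`) so `ι n` is a unit of `D`, so `C n ∉ ptIdeal I y` by the last
statement of `exists_pt_of_local` (`k = 0`) and `Setting.lam_mem_locY`. `coord`: `div_mem_locY`.
`min`: `locY_le` (`κ (C c) = ι (oM c)`, `oM_mem_lamP`). `reg`: `S.regY`. -/
theorem Setting.exists_around [IsDomain M] {B : ℕ → Set M} {r : ℕ} {D : Subring F}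
    {i : Fin (n + 1)} {β : ℕ → M}
    (hD : LocSit ι (fun k => pM (X k)) B (lamP O L M p) r D i β) :
    ∃ y : hProj I, X i ∉ ptIdeal I y ∧
      Around ι (fun k => pM (X k)) (lamP O L M p) D i (locY I (ι.comp pM) y) ∧
      ∀ (k : ℕ) (G : MvPolynomial (Fin (n + 1)) O), G.IsHomogeneous k →
        (G ∈ ptIdeal I y ↔ ∀ w ∈ D, ι (pM G) / ι (pM (X i)) ^ k * w ≠ 1) := by
  have hC : ∀ c, (ι.comp pM) (C c) ∈ D := fun c => by
    rw [S.hκC]
    exact hD.lam _ (oM_mem_lamP p c)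
  obtain ⟨y, hyi, hle, hdom, hiff⟩ := exists_pt_of_local (I := I) (κ := ι.comp pM) S.hκ hD.loc hC
    (i := i) hD.ne hD.coord
  refine ⟨y, hyi, ⟨hle, hdom, S.regY y, ?_, ?_, ?_⟩, hiff⟩
  · intro c hc
    refine S.lam_mem_locY p (fun a ha => ?_) hc
    by_contra hap
    obtain ⟨u, hu, hu1, -⟩ := exists_inv_lamP' S.quad S.RL S.τO p hap
    refine (hiff 0 _ (isHomogeneous_C _ _)).1 ha (ι u) (hD.lam u hu) ?_
    rw [S.hκC, pow_zero, div_one, oM_algebraMap, ← map_mul, hu1, map_one]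
  · intro k
    exact div_mem_locY S.hκ (isHomogeneous_X _ _) (isHomogeneous_X _ _) hyi
  · intro N hN hN2 hN3 hN4
    refine locY_le S.hκ hyi hN hN2 (fun c => ?_) hN4
    rw [S.hκC]
    exact hN3 _ (oM_mem_lamP p c)
-- END W1

-- BEGIN W2
/-- TASK W2. The unramified case: `D` is the local ring of the scheme (`hD.gen` with
`R' = locY I (ι.comp pM) y`, the condition on the ratios is empty), `Around.reg`. -/
theorem Setting.local_unram [IsDomain M] {B : ℕ → Set M} {D : Subring F}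
    {i : Fin (n + 1)} {β : ℕ → M}
    (hD : LocSit ι (fun k => pM (X k)) B (lamP O L M p) 0 D i β) : IsRegularLocalRing D := by
  obtain ⟨y, -, hA, -⟩ := S.exists_around p hD
  have h1 : D ≤ locY I (ι.comp pM) y :=
    hD.gen _ hA.le hA.dom hA.lam hA.coord (by intro j hj; simp at hj)
  have h2 : D = locY I (ι.comp pM) y := le_antisymm h1 hA.le
  rw [h2]
  exact hA.reg
-- END W2

-- BEGIN W3
/-- TASK W3. The case of odd residue characteristic: `δ = 2`, `r = 1`, `B = BSet x τ (oM O L M ϖ)`.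
`hram.eq_one`: `s = 1`. `Cent`: `fin`: `finite_BSet` (QWOrder.lean); `deg`, `pow`: direct (see
`orderGens_homog` in QWGens.lean); `η = 1 + ε` from `hram.eps`; `star`: `map_BSet` (QWGens.lean). The local
statement is `local_tame` (Around.lean) with `Setting.exists_around`. -/
theorem Setting.exists_cent_odd [IsDomain M] [GradedAlgebra ℳ] {ϖ : O} {s : ℕ}
    (hram : Ram O L M τ p ϖ s) (h2 : ∃ c ∈ lamP O L M p, (2 : M) * c = 1) :
    ∃ (δ r : ℕ) (B : ℕ → Set M), Cent ℳ (fun k => pM (X k)) τ p ϖ δ r B ∧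
      ∀ (D : Subring F) (i : Fin (n + 1)) (β : ℕ → M),
        LocSit ι (fun k => pM (X k)) B (lamP O L M p) r D i β → IsRegularLocalRing D ∧
          ((∀ z ∈ D, τF z ∈ D) → Principal τF D) := by
  have hϖ : oM O L M ϖ ≠ 0 := fun h0 => hram.ϖ0 (S.oM_inj (h0.trans (map_zero _).symm))
  have hs : s = 1 := hram.eq_one S.τ2 hϖ h2
  subst hs
  obtain ⟨ε, hε, ε', hε', hϖτ, hεε⟩ := hram.eps
  rw [pow_one] at hϖτ
  have hxdeg : ∀ k : Fin (n + 1), pM (X k) ∈ ℳ 1 := fun k => S.pgr 1 _ (isHomogeneous_X O k)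
  have hη : ∃ η ∈ lamP O L M p, τ (oM O L M ϖ) = η * oM O L M ϖ :=
    ⟨1 + ε, Subring.add_mem _ (Subring.one_mem _) hε, by linear_combination hϖτ⟩
  refine ⟨2, 1, BSet (fun k => pM (X k)) τ (oM O L M ϖ), ?_, ?_⟩
  · refine ⟨hram.ϖ0, by norm_num, fun j => finite_BSet j, ?_, ?_, hη, ?_⟩
    · rintro j b ⟨k, l, hb | hb⟩
      · rw [hb]
        have := SetLike.mul_mem_graded (SetLike.pow_mem_graded j (oM_deg (M := M) ℳ ϖ))
          (SetLike.mul_mem_graded (hxdeg k) (hxdeg l))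
        simpa using this
      · rw [hb]
        exact (ℳ 2).sub_mem (SetLike.mul_mem_graded (hxdeg k) (S.τgr _ _ (hxdeg l)))
          (SetLike.mul_mem_graded (hxdeg l) (S.τgr _ _ (hxdeg k)))
    · intro j i
      exact ⟨i, i, Or.inl (by rw [pow_two])⟩
    · intro j b hb
      exact map_BSet S.τO S.τ2 S.star p hη hb
  · intro D i β hD
    obtain ⟨y, -, hA, -⟩ := S.exists_around p hD
    exact local_tame S.inj S.τ2 S.τFι S.τFτF S.star hD hA (oM_mem_lamP p ϖ)
      (fun c hc => by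
        obtain ⟨d, hd, h3⟩ := hram.diff c hc
        exact ⟨d, hd, by rw [h3, pow_one]⟩) hε hε' hϖτ hεε h2
-- END W3

end Pool.Agent.Lib.MP_6a3dac_ag.QD
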