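import Pool.Agent.Lib.MP_6a3dac_ag.QD.Fil

/-!
# Symbols
-/

set_option autoImplicit false
set_option linter.unusedSectionVars false

namespace Pool.Agent.Lib.MP_6a3dac_ag.QD

open IsLocalRing MvPolynomial

/-- The weights of the variables. -/
def wt {ι : Type} (o : Option ι) : ℕ := o.elim 2 fun _ => 1

section Sym

variable {D : Type} [CommRing D] [IsRegularLocalRing D] {ι : Type} [Fintype ι]

/-- `ϖ` and the `x i` form a regular system of parameters. -/
structure Par (ϖ : D) (x : ι → D) : Prop where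
  span : maximalIdeal D = Ideal.span (insert ϖ (Set.range x))
  dim : ((Fintype.card ι + 1 : ℕ) : WithBot ℕ∞) ≤ ringKrullDim D

/-- The parameters as a family indexed by `Option ι`. -/
def par (ϖ : D) (x : ι → D) (o : Option ι) : D := o.elim ϖ x

/-- `f` has the symbol `P` in degree `r`. -/
def Sym (ϖ : D) (x : ι → D) (r : ℕ) (f : D) (P : MvPolynomial (Option ι) (ResidueField D)) :
    Prop :=
  ∃ Q : MvPolynomial (Option ι) D, IsWeightedHomogeneous wt Q r ∧ map (residue D) Q = P ∧
    f - eval (par ϖ x) Q ∈ Fil ϖ (r + 1)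

variable {ϖ : D} {x : ι → D} {r s : ℕ} {f g : D}
  {P P' : MvPolynomial (Option ι) (ResidueField D)}

theorem Par.mem (hp : Par ϖ x) : ϖ ∈ maximalIdeal D := by
  rw [hp.span]
  exact Ideal.subset_span (Set.mem_insert _ _)

theorem Par.mem_x (hp : Par ϖ x) (i : ι) : x i ∈ maximalIdeal D := by
  rw [hp.span]
  exact Ideal.subset_span (Set.mem_insert_of_mem _ ⟨i, rfl⟩)

-- BEGIN N4
/-- TASK N4. -/
theorem Sym.homog (h : Sym ϖ x r f P) : IsWeightedHomogeneous wt P r := by
  obtain ⟨Q, hQ, rfl, -⟩ := h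
  intro d hd
  apply hQ
  intro h0
  apply hd
  rw [coeff_map, h0, map_zero]

/-- TASK N4. Lift the coefficients of `P` (`residue` is surjective), zero to zero:
`Q = ∑ d ∈ P.support, monomial d (lift (coeff d P))`; `f = eval (par ϖ x) Q`. -/
theorem sym_lift (hP : IsWeightedHomogeneous wt P r) : ∃ f, Sym ϖ x r f P := by
  obtain ⟨Q', hQ'⟩ := map_surjective (σ := Option ι) (residue D) residue_surjective P
  refine ⟨eval (par ϖ x) (weightedHomogeneousComponent wt r Q'),
    weightedHomogeneousComponent wt r Q',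
    weightedHomogeneousComponent_isWeightedHomogeneous r Q', ?_, ?_⟩
  · ext d
    rw [coeff_map, coeff_weightedHomogeneousComponent]
    split_ifs with hd
    · rw [← hQ', coeff_map]
    · rw [map_zero]
      by_contra h0
      exact hd (hP (Ne.symm h0))
  · rw [sub_self]
    exact Ideal.zero_mem _

/-- The value of the monomial with exponents `d`. -/
def n4_mon (ϖ : D) (x : ι → D) (d : Option ι →₀ ℕ) : D := d.prod fun o n => par ϖ x o ^ n

theorem n4_mon_add (d e : Option ι →₀ ℕ) :
    n4_mon ϖ x (d + e) = n4_mon ϖ x d * n4_mon ϖ x e := by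
  classical
  unfold n4_mon
  rw [Finsupp.prod_add_index']
  · intro a
    exact pow_zero _
  · intro a b c
    exact pow_add _ _ _

theorem n4_mon_single (o : Option ι) (n : ℕ) :
    n4_mon ϖ x (Finsupp.single o n) = par ϖ x o ^ n := by
  unfold n4_mon
  rw [Finsupp.prod_single_index]
  exact pow_zero _

theorem n4_mon_zero : n4_mon ϖ x 0 = 1 := by
  unfold n4_mon
  rw [Finsupp.prod_zero_index]

theorem n4_weight_single (o : Option ι) (n : ℕ) :
    Finsupp.weight wt (Finsupp.single o n) = n * wt o := by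
  rw [Finsupp.weight_single, smul_eq_mul]

/-- The ideal of the monomials of weight at least `s`. -/
def n4_J (ϖ : D) (x : ι → D) (s : ℕ) : Ideal D :=
  Ideal.span {z | ∃ d : Option ι →₀ ℕ, s ≤ Finsupp.weight wt d ∧ z = n4_mon ϖ x d}

theorem n4_mon_mem {d : Option ι →₀ ℕ} {s : ℕ} (h : s ≤ Finsupp.weight wt d) :
    n4_mon ϖ x d ∈ n4_J ϖ x s := Ideal.subset_span ⟨d, h, rfl⟩

theorem n4_mon_mul_mem {d : Option ι →₀ ℕ} {s t : ℕ} (h : t ≤ s + Finsupp.weight wt d) {z : D}
    (hz : z ∈ n4_J ϖ x s) : n4_mon ϖ x d * z ∈ n4_J ϖ x t := by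
  induction hz using Submodule.span_induction with
  | mem z hz =>
    obtain ⟨e, he, rfl⟩ := hz
    rw [← n4_mon_add]
    apply n4_mon_mem
    rw [map_add]
    omega
  | zero => rw [mul_zero]; exact Ideal.zero_mem _
  | add a b _ _ ha hb => rw [mul_add]; exact Ideal.add_mem _ ha hb
  | smul a b _ hb =>
    rw [smul_eq_mul, mul_left_comm]
    exact Ideal.mul_mem_left _ _ hb

theorem n4_span_range (hp : Par ϖ x) : maximalIdeal D = Ideal.span (Set.range (par ϖ x)) := by
  rw [hp.span]
  congr 1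
  ext z
  constructor
  · rintro (rfl | ⟨i, rfl⟩)
    · exact ⟨none, rfl⟩
    · exact ⟨some i, rfl⟩
  · rintro ⟨o, rfl⟩
    cases o with
    | none => exact Set.mem_insert _ _
    | some i => exact Set.mem_insert_of_mem _ ⟨i, rfl⟩

theorem n4_pow_le (hp : Par ϖ x) (k : ℕ) : maximalIdeal D ^ k ≤ n4_J ϖ x k := by
  induction k with
  | zero =>
    rw [pow_zero, Ideal.one_eq_top]
    have h1 : (1 : D) ∈ n4_J ϖ x 0 := by
      rw [← n4_mon_zero (ϖ := ϖ) (x := x)]
      exact n4_mon_mem (Nat.zero_le _)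
    rw [(Ideal.eq_top_iff_one _).2 h1]
  | succ k ih =>
    rw [pow_succ']
    rw [Ideal.mul_le]
    intro a ha z hz
    have hz' := ih hz
    rw [n4_span_range hp] at ha
    induction ha using Submodule.span_induction with
    | mem a ha =>
      obtain ⟨o, rfl⟩ := ha
      have h1 : par ϖ x o = n4_mon ϖ x (Finsupp.single o 1) := by
        rw [n4_mon_single, pow_one]
      rw [h1]
      apply n4_mon_mul_mem _ hz'
      rw [n4_weight_single]
      cases o with
      | none => simp [wt]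
      | some i => simp [wt]
    | zero => rw [zero_mul]; exact Ideal.zero_mem _
    | add a b _ _ ha hb => rw [add_mul]; exact Ideal.add_mem _ ha hb
    | smul a b _ hb =>
      rw [smul_eq_mul, mul_assoc]
      exact Ideal.mul_mem_left _ _ hb

theorem n4_fil_le (hp : Par ϖ x) (s : ℕ) : Fil ϖ s ≤ n4_J ϖ x s := by
  intro f hf
  refine fil_induction (p := fun f => f ∈ n4_J ϖ x s) (Ideal.zero_mem _)
    (fun a b ha hb => Ideal.add_mem _ ha hb) (fun i k y hk hy => ?_) hf
  have h1 : ϖ ^ i = n4_mon ϖ x (Finsupp.single none i) := by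
    rw [n4_mon_single]
    rfl
  rw [h1]
  apply n4_mon_mul_mem _ (n4_pow_le hp k hy)
  rw [n4_weight_single]
  simp only [wt, Option.elim_none]
  omega

theorem n4_mon_mem_fil (hp : Par ϖ x) (d : Option ι →₀ ℕ) :
    n4_mon ϖ x d ∈ Fil ϖ (Finsupp.weight wt d) := by
  induction d using Finsupp.induction_linear with
  | zero =>
    rw [map_zero, fil_zero]
    exact Submodule.mem_top
  | add d e hd he =>
    rw [n4_mon_add, map_add]
    exact mul_mem_fil hd he
  | single o n =>
    rw [n4_mon_single, n4_weight_single]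
    cases o with
    | none =>
      rw [show n * wt (none : Option ι) = 2 * n by simp [wt, mul_comm]]
      exact pow_mem_fil n
    | some i =>
      rw [show n * wt (some i) = n by simp [wt]]
      exact pow_le_fil n (Ideal.pow_mem_pow (hp.mem_x i) n)

theorem n4_J_le (hp : Par ϖ x) (s : ℕ) : n4_J ϖ x s ≤ Fil ϖ s := by
  unfold n4_J
  rw [Ideal.span_le]
  rintro _ ⟨d, hd, rfl⟩
  exact fil_anti hd (n4_mon_mem_fil hp d)

theorem n4_eval (Q : MvPolynomial (Option ι) D) :
    eval (par ϖ x) Q = ∑ d ∈ Q.support, coeff d Q * n4_mon ϖ x d := by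
  rw [eval_eq']
  refine Finset.sum_congr rfl fun d _ => ?_
  unfold n4_mon
  rw [Finsupp.prod_fintype]
  intro o
  exact pow_zero _

/-- TASK N4. By `fil_induction`: the set of `f` with a symbol in degree `r` is closed under
addition and multiplication by elements of `D` (`C a * Q`) and contains `Fil ϖ (r + 1)`. For
`ϖ ^ i * y`, `y ∈ m ^ k`, `r ≤ 2 i + k`: `m ^ k` is spanned by the products of `k` elements of
`insert ϖ (range x)` (`Ideal.span_pow_eq_...`/`Submodule.pow_induction_on_left'`), so one may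
assume that `y` is a product of `a` times `ϖ` and `k - a` of the `x`, and `ϖ ^ i * y` is the value
of a monomial of weight `2 i + 2 a + (k - a) ≥ r`. Weight `r`: this monomial. Weight `> r`: the
element is in `Fil ϖ (r + 1)`. -/
theorem sym_exists (hp : Par ϖ x) (hf : f ∈ Fil ϖ r) : ∃ P, Sym ϖ x r f P := by
  suffices h : ∃ Q : MvPolynomial (Option ι) D, IsWeightedHomogeneous wt Q r ∧
      f - eval (par ϖ x) Q ∈ Fil ϖ (r + 1) by
    obtain ⟨Q, hQ, hf'⟩ := h
    exact ⟨_, Q, hQ, rfl, hf'⟩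
  have hf1 := n4_fil_le hp r hf
  clear hf
  induction hf1 using Submodule.span_induction with
  | mem z hz =>
    obtain ⟨d, hd, rfl⟩ := hz
    rcases eq_or_lt_of_le hd with h | h
    · refine ⟨monomial d 1, isWeightedHomogeneous_monomial wt d 1 h.symm, ?_⟩
      have h1 : eval (par ϖ x) (monomial d (1 : D)) = n4_mon ϖ x d := by
        rw [eval_monomial, one_mul]
        rfl
      rw [h1, sub_self]
      exact Ideal.zero_mem _
    · refine ⟨0, isWeightedHomogeneous_zero _ _ _, ?_⟩
      rw [map_zero, sub_zero]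
      exact fil_anti h (n4_mon_mem_fil hp d)
  | zero =>
    refine ⟨0, isWeightedHomogeneous_zero _ _ _, ?_⟩
    rw [map_zero, sub_zero]
    exact Ideal.zero_mem _
  | add a b _ _ ha hb =>
    obtain ⟨Q, hQ, h1⟩ := ha
    obtain ⟨Q', hQ', h2⟩ := hb
    refine ⟨Q + Q', hQ.add hQ', ?_⟩
    rw [map_add, add_sub_add_comm]
    exact Ideal.add_mem _ h1 h2
  | smul a b _ hb =>
    obtain ⟨Q, hQ, h1⟩ := hb
    refine ⟨C a * Q, ?_, ?_⟩
    · have := (isWeightedHomogeneous_C wt a).mul hQ
      rwa [zero_add] at this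
    · rw [map_mul, eval_C, smul_eq_mul, ← mul_sub]
      exact Ideal.mul_mem_left _ _ h1

/-- TASK N4. `eval Q` is a sum of `c * ϖ ^ a * ∏ x ^ β` with `2 a + |β| = r`. -/
theorem Sym.mem (hp : Par ϖ x) (h : Sym ϖ x r f P) : f ∈ Fil ϖ r := by
  obtain ⟨Q, hQ, -, hf⟩ := h
  have h1 : eval (par ϖ x) Q ∈ Fil ϖ r := by
    rw [n4_eval]
    refine Ideal.sum_mem _ fun d hd => Ideal.mul_mem_left _ _ ?_
    have h2 := hQ (mem_support_iff.1 hd)
    rw [← h2]
    exact n4_mon_mem_fil hp d
  have h3 := Ideal.add_mem _ (fil_anti (Nat.le_succ r) hf) h1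
  rwa [sub_add_cancel] at h3
-- END N4

-- BEGIN N5
/-- TASK N5. With `h = ⟨Q, ..⟩`: `eval (par ϖ x) Q ∈ Fil ϖ (r + 1)`. Show that all coefficients of
`Q` are in the maximal ideal. Let `d ∈ Q.support`, weight of `d` = `r`. Every exponent `d'` with
`d' ≠ d` and weight `r`, or of weight `> r`, has some `k` with `d' k > d k` (else `d' ≤ d`, and the
weights are positive), so `y ^ d' ∈ J = span (range fun k => y k ^ (d k + 1))`, `y = par ϖ x`. By
`fil_induction` and expansion of `m ^ k` into products of `y`'s also `Fil ϖ (r + 1) ≤ J`. So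
`coeff d Q * ∏ y ^ d ∈ J` and `mon_mem` (with `κ = Option ι`, `Par.span`, `Par.dim`) applies. -/
theorem Sym.eq_zero (hp : Par ϖ x) (h : Sym ϖ x r f P) (hf : f ∈ Fil ϖ (r + 1)) : P = 0 := by
  classical
  obtain ⟨Q, hQ, rfl, hfQ⟩ := h
  have hev : eval (par ϖ x) Q ∈ Fil ϖ (r + 1) := by
    have h1 := Ideal.sub_mem _ hf hfQ
    rwa [sub_sub_cancel] at h1
  have key : ∀ d ∈ Q.support, coeff d Q ∈ maximalIdeal D := by
    intro d hd
    have hdr : Finsupp.weight wt d = r := hQ (mem_support_iff.1 hd)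
    set J : Ideal D := Ideal.span (Set.range fun k => par ϖ x k ^ (d k + 1)) with hJ
    -- monomials different from `d`, of weight at least `r`
    have hmon : ∀ d' : Option ι →₀ ℕ, d' ≠ d → r ≤ Finsupp.weight wt d' →
        n4_mon ϖ x d' ∈ J := by
      intro d' hne hw
      have h1 : ∃ k, d k < d' k := by
        by_contra hcon
        push Not at hcon
        apply hne
        have h2 : Finsupp.weight wt d' = Finsupp.weight wt d := by
          apply le_antisymm
          · rw [Finsupp.weight_eq_sum, Finsupp.weight_eq_sum]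
            exact Finset.sum_le_sum fun k _ => Nat.mul_le_mul_right _ (hcon k)
          · rw [hdr]
            exact hw
        rw [Finsupp.weight_eq_sum, Finsupp.weight_eq_sum] at h2
        have h3 := (Finset.sum_eq_sum_iff_of_le fun k _ =>
          Nat.mul_le_mul_right (wt k) (hcon k)).1 h2
        ext k
        have h4 := h3 k (Finset.mem_univ k)
        have h5 : 0 < wt k := by
          cases k with
          | none => simp [wt]
          | some i => simp [wt]
        exact Nat.eq_of_mul_eq_mul_right h5 h4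
      obtain ⟨k, hk⟩ := h1
      have h2 : d' = Finsupp.single k (d k + 1) + (d' - Finsupp.single k (d k + 1)) := by
        rw [add_tsub_cancel_of_le]
        rw [Finsupp.single_le_iff]
        omega
      rw [h2, n4_mon_add, n4_mon_single]
      exact Ideal.mul_mem_right _ _ (Ideal.subset_span ⟨k, rfl⟩)
    have hJle : Fil ϖ (r + 1) ≤ J := by
      refine (n4_fil_le hp (r + 1)).trans ?_
      unfold n4_J
      rw [Ideal.span_le]
      rintro _ ⟨d', hd', rfl⟩
      refine hmon d' ?_ (by omega)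
      rintro rfl
      omega
    have h1 : coeff d Q * n4_mon ϖ x d ∈ J := by
      have h2 := hJle hev
      rw [n4_eval, ← Finset.add_sum_erase _ _ hd] at h2
      refine (Ideal.add_mem_iff_left _ ?_).1 h2
      refine Ideal.sum_mem _ fun d' hd' => Ideal.mul_mem_left _ _ ?_
      exact hmon d' (Finset.ne_of_mem_erase hd')
        (hQ (mem_support_iff.1 (Finset.mem_of_mem_erase hd'))).ge
    refine mon_mem (κ := Option ι) (par ϖ x) (n4_span_range hp) ?_ d (coeff d Q) ?_
    · rw [Fintype.card_option]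
      exact hp.dim
    · have h3 : n4_mon ϖ x d = ∏ k, par ϖ x k ^ d k := by
        unfold n4_mon
        rw [Finsupp.prod_fintype]
        intro o
        exact pow_zero _
      rw [← h3]
      exact h1
  ext d
  rw [coeff_map, coeff_zero]
  by_cases hd : d ∈ Q.support
  · exact (residue_eq_zero_iff _).2 (key d hd)
  · rw [notMem_support_iff.1 hd, map_zero]
-- END N5

-- BEGIN N6
theorem n6_par_pow (ϖ : D) (x : ι → D) (hp : Par ϖ x) (o : Option ι) (k : ℕ) :
    par ϖ x o ^ k ∈ Fil ϖ (k * wt o) := by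
  cases o with
  | none =>
    have h := pow_mem_fil (ϖ := ϖ) k
    rw [mul_comm] at h
    exact h
  | some i =>
    have h := pow_le_fil (ϖ := ϖ) k (Ideal.pow_mem_pow (hp.mem_x i) k)
    have e : k * wt (some i) = k := mul_one k
    rw [e]
    exact h

theorem n6_prod (hp : Par ϖ x) (d : Option ι →₀ ℕ) (s : Finset (Option ι)) :
    ∏ o ∈ s, par ϖ x o ^ d o ∈ Fil ϖ (∑ o ∈ s, d o * wt o) := by
  classical
  induction s using Finset.induction_on with
  | empty =>
    rw [Finset.prod_empty, Finset.sum_empty, fil_zero]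
    exact Submodule.mem_top
  | insert a s ha ih =>
    rw [Finset.prod_insert ha, Finset.sum_insert ha]
    exact mul_mem_fil (n6_par_pow ϖ x hp a (d a)) ih

theorem n6_eval (hp : Par ϖ x) {Q : MvPolynomial (Option ι) D}
    (hQ : IsWeightedHomogeneous wt Q r) (h0 : map (residue D) Q = 0) :
    eval (par ϖ x) Q ∈ Fil ϖ (r + 1) := by
  classical
  rw [eval_eq]
  refine Ideal.sum_mem _ fun d hd => ?_
  have h1 : coeff d Q ∈ maximalIdeal D := by
    rw [← residue_eq_zero_iff, ← coeff_map, h0, coeff_zero]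
  rw [← fil_one hp.mem] at h1
  have h2 := n6_prod hp d d.support
  have h3 : ∑ o ∈ d.support, d o * wt o = r := by
    have h4 := hQ (mem_support_iff.1 hd)
    rw [Finsupp.weight_apply, Finsupp.sum] at h4
    simpa [smul_eq_mul] using h4
  rw [h3] at h2
  have h5 := mul_mem_fil h1 h2
  rwa [add_comm 1 r] at h5

/-- TASK N6. All coefficients of `Q` are in `m = Fil ϖ 1`, the monomials in `Fil ϖ r`. -/
theorem Sym.mem_succ (hp : Par ϖ x) (h : Sym ϖ x r f 0) : f ∈ Fil ϖ (r + 1) := by
  obtain ⟨Q, hQ, h0, h1⟩ := h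
  have h2 := Ideal.add_mem _ h1 (n6_eval hp hQ h0)
  rwa [sub_add_cancel] at h2

/-- TASK N6. -/
theorem sym_zero (hf : f ∈ Fil ϖ (r + 1)) : Sym ϖ x r f 0 := by
  refine ⟨0, isWeightedHomogeneous_zero _ _ _, map_zero _, ?_⟩
  rw [map_zero, sub_zero]
  exact hf

/-- TASK N6. -/
theorem Sym.add (h : Sym ϖ x r f P) (h' : Sym ϖ x r g P') : Sym ϖ x r (f + g) (P + P') := by
  obtain ⟨Q, hQ, rfl, h1⟩ := h
  obtain ⟨Q', hQ', rfl, h1'⟩ := h'
  refine ⟨Q + Q', hQ.add hQ', map_add _ _ _, ?_⟩
  have h2 := Ideal.add_mem _ h1 h1'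
  have e : f - eval (par ϖ x) Q + (g - eval (par ϖ x) Q') = f + g - eval (par ϖ x) (Q + Q') := by
    rw [map_add]
    ring
  rwa [e] at h2

/-- TASK N6. -/
theorem Sym.neg (h : Sym ϖ x r f P) : Sym ϖ x r (-f) (-P) := by
  obtain ⟨Q, hQ, rfl, h1⟩ := h
  refine ⟨-Q, hQ.neg, map_neg _ _, ?_⟩
  have h2 := neg_mem h1
  have e : -(f - eval (par ϖ x) Q) = -f - eval (par ϖ x) (-Q) := by
    rw [map_neg]
    ring
  rwa [e] at h2

/-- TASK N6. `f g - eval (Q Q') = f (g - eval Q') + (f - eval Q) eval Q'`, with `Sym.mem`. -/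
theorem Sym.mul (hp : Par ϖ x) (h : Sym ϖ x r f P) (h' : Sym ϖ x s g P') :
    Sym ϖ x (r + s) (f * g) (P * P') := by
  have hf := h.mem hp
  obtain ⟨Q, hQ, rfl, h1⟩ := h
  obtain ⟨Q', hQ', rfl, h1'⟩ := h'
  refine ⟨Q * Q', hQ.mul hQ', map_mul _ _ _, ?_⟩
  have h2 : eval (par ϖ x) Q' ∈ Fil ϖ s := by
    refine Sym.mem (P := map (residue D) Q') hp ⟨Q', hQ', rfl, ?_⟩
    rw [sub_self]
    exact Ideal.zero_mem _
  have h3 := mul_mem_fil hf h1'
  have h4 := mul_mem_fil h1 h2
  have e1 : r + (s + 1) = r + s + 1 := by ring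
  have e2 : r + 1 + s = r + s + 1 := by ring
  rw [e1] at h3
  rw [e2] at h4
  have h5 := Ideal.add_mem _ h3 h4
  have e : f * (g - eval (par ϖ x) Q') + (f - eval (par ϖ x) Q) * eval (par ϖ x) Q' =
      f * g - eval (par ϖ x) (Q * Q') := by
    rw [map_mul]
    ring
  rwa [e] at h5

/-- TASK N6. -/
theorem sym_C (hp : Par ϖ x) (a : D) : Sym ϖ x 0 a (C (residue D a)) := by
  refine ⟨C a, isWeightedHomogeneous_C _ _, map_C _ _, ?_⟩
  rw [eval_C, sub_self]
  exact Ideal.zero_mem _

/-- TASK N6. -/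
theorem sym_unif : Sym ϖ x 2 ϖ (X none) := by
  refine ⟨X none, isWeightedHomogeneous_X D wt none, map_X _ _, ?_⟩
  rw [eval_X]
  change ϖ - ϖ ∈ _
  rw [sub_self]
  exact Ideal.zero_mem _

/-- TASK N6. -/
theorem sym_param (i : ι) : Sym ϖ x 1 (x i) (X (some i)) := by
  refine ⟨X (some i), isWeightedHomogeneous_X D wt (some i), map_X _ _, ?_⟩
  rw [eval_X]
  change x i - x i ∈ _
  rw [sub_self]
  exact Ideal.zero_mem _

/-- TASK N6. -/
theorem Sym.pow_unif (hp : Par ϖ x) (a : D) (k : ℕ) :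
    Sym ϖ x (2 * k) (a * ϖ ^ k) (C (residue D a) * X none ^ k) := by
  refine ⟨C a * X none ^ k, ?_, ?_, ?_⟩
  · refine IsWeightedHomogeneous.C_mul ?_ a
    have h := (isWeightedHomogeneous_X D wt (none : Option ι)).pow k
    have e : k • wt (none : Option ι) = 2 * k := by
      rw [smul_eq_mul, mul_comm]
      rfl
    rwa [e] at h
  · rw [map_mul, map_C, map_pow, map_X]
  · have e : a * ϖ ^ k - eval (par ϖ x) (C a * X none ^ k) = 0 := by
      rw [map_mul, eval_C, map_pow, eval_X]
      exact sub_self _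
    rw [e]
    exact Ideal.zero_mem _
-- END N6

theorem Sym.unique (hp : Par ϖ x) (h : Sym ϖ x r f P) (h' : Sym ϖ x r f P') : P = P' := by
  have h1 := (h.add h'.neg).eq_zero hp (by
    rw [add_neg_cancel]
    exact Ideal.zero_mem _)
  rwa [← sub_eq_add_neg, sub_eq_zero] at h1

/-- If `c ϖ ^ k` is of higher order, then `c` is in the maximal ideal. -/
theorem mem_of_mul_pow_mem (hp : Par ϖ x) {c : D} {k : ℕ} (h : c * ϖ ^ k ∈ Fil ϖ (2 * k + 1)) :
    c ∈ maximalIdeal D := by
  have h1 := (Sym.pow_unif hp c k).eq_zero hp h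
  rw [mul_eq_zero] at h1
  rcases h1 with h1 | h1
  · rw [← residue_eq_zero_iff]
    exact (C_eq_zero (R := ResidueField D) (σ := Option ι)).mp h1
  · exact absurd h1 (pow_ne_zero _ (X_ne_zero _))

end Sym

end Pool.Agent.Lib.MP_6a3dac_ag.QD
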