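import Pool.Agent.Lib.MP_6a3dac_ag.QD.Setting
import Pool.Agent.Lib.MP_6a3dac_ag.QD.Centre
import Pool.Agent.Lib.MP_6a3dac_ag.QD.Link
import Pool.Agent.Lib.MP_6a3dac_ag.QD.Fib

/-!
# The centres over the dyadic ramified primes
-/

set_option autoImplicit false
set_option linter.unusedSectionVars false
set_option linter.unusedVariables false

namespace Pool.Agent.Lib.MP_6a3dac_ag.QD

open MvPolynomial CategoryTheory Limits AlgebraicGeometry IsLocalRing
open Pool.Agent.Lib.MP_6a3dac_ag Pool.Agent.Lib.MP_6a3dac_ag.DNF Pool.Agent.Lib.MP_6a3dac_ag.Bert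

variable {R O L M F : Type} [CommRing R] [CommRing O] [Algebra R O] [Field L] [Algebra R L]
  [Algebra O L] [IsScalarTower R O L] [CommRing M] [Algebra L M] [Algebra R M]
  [IsScalarTower R L M] [Field F]
  {n : ℕ} {I : HomIdeal O (n + 1)} {ρ : Equiv.Perm (Fin (n + 1))} {σ : O →+* O}
  {ℳ : ℕ → Submodule L M} {τ : M →+* M} {ι : M →+* F} {τF : F →+* F}
  {pM : MvPolynomial (Fin (n + 1)) O →+* M}

section Base

variable {p : Ideal R} [hp : p.IsPrime] {𝔓 : Ideal O} [h𝔓 : 𝔓.IsPrime]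
  (hp𝔓 : 𝔓.comap (algebraMap R O) = p) {ϖ : O} {s : ℕ}
  (hirr : Irreducible (algebraMap O (Localization.AtPrime 𝔓) ϖ))

-- BEGIN T1
omit hp in
include hirr in
theorem t1_ne_bot [IsDomain O] : 𝔓 ≠ ⊥ := by
  rintro rfl
  have h1 : ¬ IsUnit (algebraMap O (Localization.AtPrime (⊥ : Ideal O)) ϖ) := hirr.not_isUnit
  rw [IsLocalization.AtPrime.isUnit_to_map_iff (Localization.AtPrime (⊥ : Ideal O)) ⊥ ϖ] at h1
  have h2 : ϖ ∈ (⊥ : Ideal O) := not_not.1 h1
  rw [Ideal.mem_bot] at h2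
  rw [h2, map_zero] at hirr
  exact hirr.ne_zero rfl

include hirr in
/-- TASK T1. `𝔓 ≠ ⊥` since `ϖ ∈ 𝔓` (its image is a nonzero nonunit of the localization), so `𝔓` is
maximal, and the contraction of `ptIdeal I y` to `O` is a proper ideal containing `𝔓`. -/
theorem FixPt.mem_iff [IsDedekindDomain O] {y : hProj I} (hy : FixPt ρ 𝔓 y) (c : O) :
    c ∈ 𝔓 ↔ C c ∈ ptIdeal I y := by
  have hne := t1_ne_bot hirr
  have hmax : 𝔓.IsMaximal := h𝔓.isMaximal hne
  have hprime : (ptIdeal I y).IsPrime := (ptIdeal_spec I y).1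
  have h1 : 𝔓 ≤ (ptIdeal I y).comap (C : O →+* MvPolynomial (Fin (n + 1)) O) :=
    fun c hc => hy.1 c hc
  have h2 : (ptIdeal I y).comap (C : O →+* MvPolynomial (Fin (n + 1)) O) ≠ ⊤ :=
    (Ideal.IsPrime.comap (C : O →+* MvPolynomial (Fin (n + 1)) O)).ne_top
  have h3 := hmax.eq_of_le h2 h1
  constructor
  · exact fun hc => hy.1 c hc
  · intro hc
    rw [h3]
    exact hc

include hirr in
/-- TASK T1. The image of `c` is in the maximal ideal of the discrete valuation ring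
`Localization.AtPrime 𝔓`, so it is divisible by the image of `ϖ`; clear denominators (in a domain). -/
theorem exists_unif_mul [IsDedekindDomain O] {c : O} (hc : c ∈ 𝔓) :
    ∃ t, t ∉ 𝔓 ∧ ∃ d, t * c = d * ϖ := by
  have hne := t1_ne_bot hirr
  have hdvr : IsDiscreteValuationRing (Localization.AtPrime 𝔓) :=
    IsLocalization.AtPrime.isDiscreteValuationRing_of_dedekind_domain O hne _
  have h1 : algebraMap O (Localization.AtPrime 𝔓) c ∈ maximalIdeal (Localization.AtPrime 𝔓) :=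
    (IsLocalization.AtPrime.to_map_mem_maximal_iff (Localization.AtPrime 𝔓) 𝔓 c).2 hc
  rw [hirr.maximalIdeal_eq, Ideal.mem_span_singleton'] at h1
  obtain ⟨q, hq⟩ := h1
  obtain ⟨⟨d, t⟩, hdt⟩ := IsLocalization.surj 𝔓.primeCompl q
  have hinj : Function.Injective (algebraMap O (Localization.AtPrime 𝔓)) :=
    IsLocalization.injective _ 𝔓.primeCompl_le_nonZeroDivisors
  refine ⟨t, t.2, d, hinj ?_⟩
  rw [map_mul, map_mul, ← hq]
  simp only at hdt
  rw [← hdt]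
  ring
-- END T1

variable (S : Setting R I ρ σ ℳ τ ι τF pM) (hσ : ∀ c, σ c - c ∈ 𝔓)
  (hram : Ram O L M τ p ϖ s) (h2 : ∀ c ∈ lamP O L M p, (2 : M) * c ≠ 1)

-- BEGIN T2
include hp𝔓 hirr S hσ hram h2 in
/-- TASK T2. **The involution at a fixed point.** `κ = ι.comp pM`; `S.hκ`, `S.hτκ`, `S.prime`, `S.ρρ`,
`S.lam_mem_locY` (its hypothesis from `FixPt.mem_iff` and `hp𝔓`). `τA` = restriction of `τF`
(`FixPt.map_mem_locY`), `ϖA = ⟨ι (oM ϖ), _⟩`, `ε = ⟨ι ε₀, _⟩` with `hram.eps`. `Inv`: `invol`: `S.τFτF`; `pos`: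
`hram.two_le S.τ2`; `unif`, `deps` (`hram.diff`; exponent `s - 1 + 1 = s`); `unit`: `ε ε' = 1`; `two`:
`exists_two` (Inv.lean; `locY` is a domain, a subring of a field); `perf`: the residue field is finite of
characteristic `2` (`2 = u ϖ ^ n` is in the maximal ideal), so Frobenius is surjective; `triv`:
`FixPt.sub_mul_ne_one`. `ϖA ∈ m`: `C ϖ ∈ ptIdeal I y`, `isUnit_locY_iff` (`k = 0`). `ϖA ∉ m ^ 2`:
`notMem_sq_of_regularFix` (`S.C_mem`). The last statement: `FixPt.sq_mem` with `exists_unif_mul`. -/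
theorem Setting.exists_inv_at [IsDomain M] [IsDedekindDomain O] {y : hProj I}
    (hy : FixPt ρ 𝔓 y) [IsRegularLocalRing (locY I (ι.comp pM) y)]
    [Finite (ResidueField (locY I (ι.comp pM) y))] (hsm : RegularFix ρ I 𝔓)
    (hord : OrdinaryFix ρ I 𝔓) :
    ∃ (τA : locY I (ι.comp pM) y →+* locY I (ι.comp pM) y) (ϖA ε : locY I (ι.comp pM) y),
      (∀ a, (τA a : F) = τF a) ∧ (ϖA : F) = ι (oM O L M ϖ) ∧ Inv τA ϖA ε (s - 1) ∧
      ϖA ∈ maximalIdeal (locY I (ι.comp pM) y) ∧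
      ϖA ∉ maximalIdeal (locY I (ι.comp pM) y) ^ 2 ∧
      ∀ f ∈ maximalIdeal (locY I (ι.comp pM) y), f ^ 2 ∈ Ideal.span {ϖA} ⊔ augIdeal τA := by
  have hmem := hy.mem_iff hirr
  have hcon : ∀ a : R, C (algebraMap R O a) ∈ ptIdeal I y → a ∈ p := by
    intro a ha
    rw [← hp𝔓, Ideal.mem_comap]
    exact (hmem _).2 ha
  have hlam : ∀ c ∈ lamP O L M p, ι c ∈ locY I (ι.comp pM) y :=
    fun c hc => S.lam_mem_locY p hcon hc
  have hϖne : oM O L M ϖ ≠ 0 := fun h0 => hram.ϖ0 (S.oM_inj (h0.trans (map_zero _).symm))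
  have hs : 2 ≤ s := hram.two_le S.τ2 hϖne h2
  have hs1 : s - 1 + 1 = s := by omega
  have hστ : ∀ a : locY I (ι.comp pM) y, τF a ∈ locY I (ι.comp pM) y := fun a =>
    hy.map_mem_locY S.ρρ S.hκ S.hτκ hσ a.2
  let τA : locY I (ι.comp pM) y →+* locY I (ι.comp pM) y :=
    (τF.comp (locY I (ι.comp pM) y).subtype).codRestrict _ hστ
  have hτA : ∀ a, (τA a : F) = τF a := fun a => rfl
  obtain ⟨ε₀, hε₀, ε₀', hε₀', h3, h4⟩ := hram.eps
  let ϖA : locY I (ι.comp pM) y := ⟨ι (oM O L M ϖ), hlam _ (oM_mem_lamP p ϖ)⟩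
  let ε : locY I (ι.comp pM) y := ⟨ι ε₀, hlam _ hε₀⟩
  have hϖA : (ϖA : F) = ι (oM O L M ϖ) := rfl
  have hunif : τA ϖA = ϖA + ε * ϖA ^ (s - 1 + 1) := by
    apply Subtype.ext
    rw [hs1]
    change τF (ι (oM O L M ϖ)) = ι (oM O L M ϖ) + ι ε₀ * ι (oM O L M ϖ) ^ s
    rw [S.τFι, ← map_pow, ← map_mul, ← map_add]
    congr 1
    linear_combination h3
  have hunit : IsUnit ε := by
    refine IsUnit.of_mul_eq_one ⟨ι ε₀', hlam _ hε₀'⟩ ?_
    apply Subtype.ext
    change ι ε₀ * ι ε₀' = 1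
    rw [← map_mul, h4, map_one]
  have hdeps : ∃ a, τA ε - ε = a * ϖA ^ (s - 1 + 1) := by
    obtain ⟨d, hd, h5⟩ := hram.diff ε₀ hε₀
    refine ⟨⟨ι d, hlam _ hd⟩, ?_⟩
    apply Subtype.ext
    rw [hs1]
    change τF (ι ε₀) - ι ε₀ = ι d * ι (oM O L M ϖ) ^ s
    rw [S.τFι, ← map_pow, ← map_mul, ← map_sub, h5]
  have hϖ0 : ϖA ≠ 0 := by
    intro h0
    have h5 : ι (oM O L M ϖ) = 0 := congrArg Subtype.val h0
    exact hϖne (S.inj (h5.trans (map_zero _).symm))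
  have hϖ𝔓 : ϖ ∈ 𝔓 := by
    have h5 : ¬ IsUnit (algebraMap O (Localization.AtPrime 𝔓) ϖ) := hirr.not_isUnit
    rw [IsLocalization.AtPrime.isUnit_to_map_iff (Localization.AtPrime 𝔓) 𝔓 ϖ] at h5
    exact not_not.1 h5
  have hϖm : ϖA ∈ maximalIdeal (locY I (ι.comp pM) y) := by
    rw [mem_maximalIdeal, mem_nonunits_iff]
    intro hu
    have hone : (1 : MvPolynomial (Fin (n + 1)) O) ∉ ptIdeal I y := fun h =>
      (ptIdeal_spec I y).1.ne_top ((Ideal.eq_top_iff_one _).mpr h)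
    have h5 := (isUnit_locY_iff (κ := ι.comp pM) S.hκ (isHomogeneous_C _ ϖ)
      (isHomogeneous_one _ _) hone
      (z := (ϖA : F)) (by rw [map_one, mul_one, S.hκC])).1 (by
        obtain ⟨w, hw⟩ := hu.exists_right_inv
        exact ⟨w, w.2, congrArg Subtype.val hw⟩)
    exact h5 ((hmem ϖ).1 hϖ𝔓)
  have hinvol : ∀ z, τA (τA z) = z := fun z => Subtype.ext (S.τFτF z)
  have htwo := exists_two hinvol (by omega : 1 ≤ s - 1) hunif hunit hdeps hϖ0 hϖm
  refine ⟨τA, ϖA, ε, hτA, hϖA, ⟨hinvol, by omega, hunif, hunit, hdeps, ?_, ?_, ?_⟩, hϖm, ?_, ?_⟩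
  · obtain ⟨u, hu, -⟩ := htwo
    exact ⟨u, hu⟩
  · obtain ⟨u, hu, -⟩ := htwo
    have h2m : (2 : locY I (ι.comp pM) y) ∈ maximalIdeal (locY I (ι.comp pM) y) := by
      rw [hu]
      exact Ideal.mul_mem_left _ _ (Ideal.pow_mem_of_mem _ hϖm _ (by omega))
    have h20 : (2 : ResidueField (locY I (ι.comp pM) y)) = 0 := by
      have h5 := (residue_eq_zero_iff (2 : locY I (ι.comp pM) y)).2 h2m
      rwa [map_ofNat] at h5
    have hchar : CharP (ResidueField (locY I (ι.comp pM) y)) 2 :=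
      CharTwo.of_one_ne_zero_of_two_eq_zero one_ne_zero h20
    have hfact : Fact (Nat.Prime 2) := ⟨Nat.prime_two⟩
    have hsurj : Function.Surjective (frobenius (ResidueField (locY I (ι.comp pM) y)) 2) :=
      Finite.surjective_of_injective (frobenius_inj _ 2)
    intro a
    obtain ⟨c', hc'⟩ := hsurj (residue _ a)
    obtain ⟨c, rfl⟩ := residue_surjective c'
    refine ⟨c, ?_⟩
    rw [← residue_eq_zero_iff, map_sub, map_pow, ← hc', frobenius_def, sub_self]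
  · intro a
    rw [mem_maximalIdeal, mem_nonunits_iff]
    intro hu
    obtain ⟨w, hw⟩ := hu.exists_right_inv
    exact hy.sub_mul_ne_one S.ρρ S.hκ S.hτκ hσ a.2 w.2 (congrArg Subtype.val hw)
  · exact notMem_sq_of_regularFix S.hκ S.prime hsm (fun h => hram.ϖ0 (S.C_mem _ h)) hϖ𝔓
      (fun c hc => exists_unif_mul hirr hc) hy.2 hmem inferInstance ϖA (by rw [hϖA, S.hκC])
  · intro f hf
    refine hy.sq_mem S.ρρ S.hκ S.prime S.hτκ hσ hord (fun c hc => ?_) τA hτA ϖA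
      (by rw [hϖA, S.hκC]) hf
    obtain ⟨t, ht, d, htd⟩ := exists_unif_mul hirr hc
    exact ⟨t, fun h5 => ht ((hmem t).2 h5), d, htd⟩
-- END T2

-- BEGIN T3
include hp𝔓 hirr S hσ hram in
/-- TASK T3. The ring `A₀` of the elements of `A = locY` which are images of the `c ∈ lamP` with
`τ c = c` (a subring of `A`; e.g. `Subring` with carrier
`{a | ∃ c ∈ lamP O L M p, τ c = c ∧ (a : F) = ι c}`). `h0`, `ht`: `ϖA τA ϖA`, `ϖA + τA ϖA`
(`Ram.map_mem`). `h1`: `a = ι c` in the maximal ideal of `A`, so `c c' ≠ 1` for `c' ∈ lamP`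
(`S.lam_mem_locY`), and `hram.fixed_dvd` (`oM ϖ ≠ 0`: `S.oM_inj`, `hram.ϖ0`). -/
theorem Setting.exists_base_at [IsDomain M] [IsDedekindDomain O] {y : hProj I}
    (hy : FixPt ρ 𝔓 y) [IsLocalRing (locY I (ι.comp pM) y)]
    {τA : locY I (ι.comp pM) y →+* locY I (ι.comp pM) y} {ϖA : locY I (ι.comp pM) y}
    (hτA : ∀ a, (τA a : F) = τF a) (hϖA : (ϖA : F) = ι (oM O L M ϖ)) :
    ∃ A₀ : Subring (locY I (ι.comp pM) y), (∀ a ∈ A₀, τA a = a) ∧ ϖA * τA ϖA ∈ A₀ ∧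
      ϖA + τA ϖA ∈ A₀ ∧
      ∀ a ∈ A₀, a ∈ maximalIdeal (locY I (ι.comp pM) y) → ∃ b ∈ A₀, a = ϖA * τA ϖA * b := by
  have hmem := hy.mem_iff hirr
  have hcon : ∀ a : R, C (algebraMap R O a) ∈ ptIdeal I y → a ∈ p := by
    intro a ha
    rw [← hp𝔓, Ideal.mem_comap]
    exact (hmem _).2 ha
  have hlam : ∀ c ∈ lamP O L M p, ι c ∈ locY I (ι.comp pM) y :=
    fun c hc => S.lam_mem_locY p hcon hc
  have hϖne : oM O L M ϖ ≠ 0 := fun h0 => hram.ϖ0 (S.oM_inj (h0.trans (map_zero _).symm))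
  let A₀ : Subring (locY I (ι.comp pM) y) :=
    { carrier := {a | ∃ c ∈ lamP O L M p, τ c = c ∧ (a : F) = ι c}
      mul_mem' := by
        rintro a b ⟨c, hc, h1, h2⟩ ⟨c', hc', h1', h2'⟩
        refine ⟨c * c', Subring.mul_mem _ hc hc', by rw [map_mul, h1, h1'], ?_⟩
        rw [map_mul, ← h2, ← h2']
        rfl
      one_mem' := ⟨1, Subring.one_mem _, map_one _, by rw [map_one]; rfl⟩
      add_mem' := by
        rintro a b ⟨c, hc, h1, h2⟩ ⟨c', hc', h1', h2'⟩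
        refine ⟨c + c', Subring.add_mem _ hc hc', by rw [map_add, h1, h1'], ?_⟩
        rw [map_add, ← h2, ← h2']
        rfl
      zero_mem' := ⟨0, Subring.zero_mem _, map_zero _, by rw [map_zero]; rfl⟩
      neg_mem' := by
        rintro a ⟨c, hc, h1, h2⟩
        refine ⟨-c, Subring.neg_mem _ hc, by rw [map_neg, h1], ?_⟩
        rw [map_neg, ← h2]
        rfl }
  have hτϖ : τ (oM O L M ϖ) ∈ lamP O L M p := hram.map_mem (oM_mem_lamP p ϖ)
  have hτAϖ : ((τA ϖA : locY I (ι.comp pM) y) : F) = ι (τ (oM O L M ϖ)) := by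
    rw [hτA, hϖA, S.τFι]
  refine ⟨A₀, ?_, ?_, ?_, ?_⟩
  · rintro a ⟨c, hc, h1, h2⟩
    apply Subtype.ext
    rw [hτA, h2, S.τFι, h1]
  · refine ⟨oM O L M ϖ * τ (oM O L M ϖ), Subring.mul_mem _ (oM_mem_lamP p ϖ) hτϖ, ?_, ?_⟩
    · rw [map_mul, S.τ2, mul_comm]
    · rw [map_mul, ← hϖA, ← hτAϖ]
      rfl
  · refine ⟨oM O L M ϖ + τ (oM O L M ϖ), Subring.add_mem _ (oM_mem_lamP p ϖ) hτϖ, ?_, ?_⟩
    · rw [map_add, S.τ2, add_comm]
    · rw [map_add, ← hϖA, ← hτAϖ]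
      rfl
  · rintro a ⟨c, hc, h1, h2⟩ ha
    rw [mem_maximalIdeal, mem_nonunits_iff] at ha
    have hcn : ∀ c' ∈ lamP O L M p, c * c' ≠ 1 := by
      intro c' hc' h3
      apply ha
      refine IsUnit.of_mul_eq_one ⟨ι c', hlam _ hc'⟩ ?_
      apply Subtype.ext
      change (a : F) * ι c' = 1
      rw [h2, ← map_mul, h3, map_one]
    obtain ⟨c', hc', h3, h4⟩ := hram.fixed_dvd S.τ2 hϖne hc h1 hcn
    refine ⟨⟨ι c', hlam _ hc'⟩, ⟨c', hc', h3, rfl⟩, ?_⟩
    apply Subtype.ext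
    change (a : F) = (ϖA : F) * (τA ϖA : F) * ι c'
    rw [hτAϖ, hϖA, h2, ← map_mul, ← map_mul, ← h4]
-- END T3

include hp𝔓 hirr S hσ hram h2 in
/-- **The centres at a fixed point.** -/
theorem Setting.exists_good_at [IsDomain M] [IsDedekindDomain O] {y : hProj I}
    (hy : FixPt ρ 𝔓 y) [IsRegularLocalRing (locY I (ι.comp pM) y)]
    [Finite (ResidueField (locY I (ι.comp pM) y))] (hsm : RegularFix ρ I 𝔓)
    (hord : OrdinaryFix ρ I 𝔓) :
    (∃ ϖA ∈ maximalIdeal (locY I (ι.comp pM) y), (ϖA : F) = ι (oM O L M ϖ)) ∧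
    ∃ c : ℕ → Ideal (locY I (ι.comp pM) y),
      GoodCen τF (locY I (ι.comp pM) y) (2 * (s - 1) + 1) c := by
  obtain ⟨τA, ϖA, ε, h1, h3, h4, h5, h6, h7⟩ :=
    S.exists_inv_at hp𝔓 hirr hσ hram h2 hy hsm hord
  obtain ⟨A₀, g1, g2, g3, g4⟩ := S.exists_base_at hp𝔓 hirr hσ hram hy h1 h3
  refine ⟨⟨ϖA, h5, h3⟩, ?_⟩
  exact exists_goodCen τF S.τFτF τA h1 h4 h5 h6 h7 A₀.subtype (fun r => g1 _ r.2)
    ⟨⟨_, g2⟩, rfl⟩ ⟨⟨_, g3⟩, rfl⟩ fun r hr => by
      obtain ⟨b, hb, hb2⟩ := g4 _ r.2 hr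
      exact ⟨⟨b, hb⟩, hb2⟩

end Base

section CB

/-- The generators of the ideals. -/
def cB (τ : M →+* M) (pM : MvPolynomial (Fin (n + 1)) O →+* M) (δ : ℕ) (e : M)
    (G : Finset (MvPolynomial (Fin (n + 1)) O)) : Set M :=
  {b | ∃ k, b = e * pM (X k) ^ δ} ∪ (pM '' (G : Set (MvPolynomial (Fin (n + 1)) O)) ∪
    τ '' (pM '' (G : Set (MvPolynomial (Fin (n + 1)) O))))

variable (S : Setting R I ρ σ ℳ τ ι τF pM)

-- BEGIN T4
include S in
/-- TASK T4. All elements are classes of homogeneous polynomials of degree `δ`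
(`twHom_isHomogeneous`, `S.pτ`, `S.pC`). -/
theorem Setting.cB_homog {δ : ℕ} {e : O} {G : Finset (MvPolynomial (Fin (n + 1)) O)}
    (hG : ∀ g ∈ G, g.IsHomogeneous δ) {b : M} (hb : b ∈ cB τ pM δ (oM O L M e) G) :
    ∃ g : MvPolynomial (Fin (n + 1)) O, g.IsHomogeneous δ ∧ pM g = b := by
  rcases hb with ⟨k, rfl⟩ | ⟨g, hg, rfl⟩ | ⟨_, ⟨g, hg, rfl⟩, rfl⟩
  · refine ⟨C e * X k ^ δ, ?_, ?_⟩
    · have h1 := (isHomogeneous_C (Fin (n + 1)) e).mul ((isHomogeneous_X O k).pow δ)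
      simpa using h1
    · rw [map_mul, map_pow, S.pC]
  · exact ⟨g, hG g hg, rfl⟩
  · exact ⟨twHom σ ρ g, twHom_isHomogeneous σ ρ (hG g hg), (S.pτ g).symm⟩

include S in
/-- TASK T4. -/
theorem Setting.cent_cB (p : Ideal R) [p.IsPrime] [GradedAlgebra ℳ] {δ r : ℕ} (hδ : 1 ≤ δ)
    {G : ℕ → Finset (MvPolynomial (Fin (n + 1)) O)} (hG : ∀ j, ∀ g ∈ G j, g.IsHomogeneous δ)
    {ϖ' : O} (hϖ' : ϖ' ≠ 0)
    (hη : ∃ η ∈ lamP O L M p, τ (oM O L M ϖ') = η * oM O L M ϖ') :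
    Cent ℳ (fun k => pM (X k)) τ p ϖ' δ r fun j => cB τ pM δ (oM O L M ϖ' ^ j) (G j) := by
  refine ⟨hϖ', hδ, ?_, ?_, ?_, hη, ?_⟩
  · intro j
    have h1 : (pM '' ((G j : Finset (MvPolynomial (Fin (n + 1)) O)) :
        Set (MvPolynomial (Fin (n + 1)) O))).Finite := (G j).finite_toSet.image _
    refine Set.Finite.union ?_ (h1.union (h1.image _))
    refine (Set.finite_range fun k : Fin (n + 1) => oM O L M ϖ' ^ j * pM (X k) ^ δ).subset ?_
    rintro b ⟨k, rfl⟩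
    exact ⟨k, rfl⟩
  · intro j b hb
    rw [← map_pow] at hb
    obtain ⟨g, hg, rfl⟩ := S.cB_homog (hG j) hb
    exact S.pgr δ g hg
  · intro j i
    exact Or.inl ⟨i, rfl⟩
  · rintro j b (⟨k, rfl⟩ | ⟨g, hg, rfl⟩ | ⟨_, ⟨g, hg, rfl⟩, rfl⟩)
    · obtain ⟨η, hη1, hη2⟩ := hη
      obtain ⟨k', hk'⟩ := S.star k
      refine ⟨η ^ j, Subring.pow_mem _ hη1 j, _, Or.inl ⟨k', rfl⟩, ?_⟩
      rw [map_mul, map_pow, map_pow, hη2, hk', mul_pow]
      ring
    · exact ⟨1, Subring.one_mem _, _, Or.inr (Or.inr ⟨_, ⟨g, hg, rfl⟩, rfl⟩), by rw [one_mul]⟩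
    · exact ⟨1, Subring.one_mem _, _, Or.inr (Or.inl ⟨g, hg, rfl⟩), by rw [one_mul, S.τ2]⟩
-- END T4

-- BEGIN T5
theorem t5_comp_mul {m : ℕ} {O : Type} [CommRing O] {k : ℕ} {H : MvPolynomial (Fin m) O}
    (hH : H.IsHomogeneous k) (f : MvPolynomial (Fin m) O) (l : ℕ) :
    homogeneousComponent (l + k) (f * H) = homogeneousComponent l f * H := by
  have h1 : f * H = ∑ j ∈ Finset.range (f.totalDegree + 1), homogeneousComponent j f * H := by
    rw [← Finset.sum_mul, sum_homogeneousComponent]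
  have h2 : ∀ j, homogeneousComponent (l + k) (homogeneousComponent j f * H) =
      if j = l then homogeneousComponent j f * H else 0 := by
    intro j
    rw [homogeneousComponent_of_mem (m := l + k) (n := j + k)
      ((homogeneousComponent_isHomogeneous j f).mul hH)]
    by_cases h : j = l
    · rw [if_pos (by rw [h]), if_pos h]
    · rw [if_neg (by omega), if_neg h]
  rw [h1, map_sum, Finset.sum_congr rfl fun j _ => h2 j, Finset.sum_ite_eq']
  by_cases h : l ∈ Finset.range (f.totalDegree + 1)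
  · rw [if_pos h]
  · rw [if_neg h, homogeneousComponent_eq_zero l f (by
      rw [Finset.mem_range] at h
      omega), zero_mul]

theorem t5_comp_tw {m : ℕ} {O : Type} [CommRing O] (σ : O →+* O) (ρ : Equiv.Perm (Fin (m + 1)))
    (f : MvPolynomial (Fin (m + 1)) O) (l : ℕ) :
    homogeneousComponent l (twHom σ ρ f) = twHom σ ρ (homogeneousComponent l f) := by
  have h1 : twHom σ ρ f = ∑ j ∈ Finset.range (f.totalDegree + 1),
      twHom σ ρ (homogeneousComponent j f) := by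
    rw [← map_sum, sum_homogeneousComponent]
  have h2 : ∀ j, homogeneousComponent l (twHom σ ρ (homogeneousComponent j f)) =
      if j = l then twHom σ ρ (homogeneousComponent j f) else 0 := by
    intro j
    rw [homogeneousComponent_of_mem (m := l) (n := j)
      (twHom_isHomogeneous σ ρ (homogeneousComponent_isHomogeneous j f))]
    by_cases h : j = l
    · rw [if_pos h.symm, if_pos h]
    · rw [if_neg (fun h' => h h'.symm), if_neg h]
  rw [h1, map_sum, Finset.sum_congr rfl fun j _ => h2 j, Finset.sum_ite_eq']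
  by_cases h : l ∈ Finset.range (f.totalDegree + 1)
  · rw [if_pos h]
  · rw [if_neg h, homogeneousComponent_eq_zero l f (by
      rw [Finset.mem_range] at h
      omega), map_zero]

include S in
theorem t5_mem [IsDomain M] {y : hProj I} {i : Fin (n + 1)} (hi : X i ∉ ptIdeal I y)
    {δ : ℕ} {g : MvPolynomial (Fin (n + 1)) O}
    (h : ι (τ (pM g)) / ι (pM (X i)) ^ δ ∈ locY I (ι.comp pM) y) :
    ι (pM g) / ι (pM (X i)) ^ δ ∈ locY I (ι.comp pM) y := by
  obtain ⟨k, G', H, hG', hH, hHy, hz⟩ := h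
  obtain ⟨hpt1, hpt2, -, -⟩ := ptIdeal_spec I y
  have hX : ι (pM (X i)) ≠ 0 := by
    intro h0
    exact hi (hpt2 ((S.hκ (X i)).mp h0))
  have hP : twHom σ ρ g * H - G' * X i ^ δ ∈ I.ideal := by
    rw [← S.hκ, map_sub, map_mul, map_mul, map_pow, ← hz, ← S.hτκ g, sub_eq_zero]
    change τF (ι (pM g)) * (ι.comp pM) H =
      ι (τ (pM g)) / ι (pM (X i)) ^ δ * (ι.comp pM) H * ι (pM (X i)) ^ δ
    rw [S.τFι]
    field_simp
  have hcomp : ∀ l, l ≠ δ → pM (homogeneousComponent l g) = 0 := by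
    intro l hl
    have h1 := I.homog _ hP (l + k)
    have h2 : homogeneousComponent (l + k) (G' * X i ^ δ) = 0 := by
      rw [homogeneousComponent_of_mem (m := l + k) (n := k + δ)
        (hG'.mul (by simpa using (isHomogeneous_X O i).pow δ)), if_neg (by omega)]
    rw [map_sub, h2, sub_zero, t5_comp_mul hH, t5_comp_tw] at h1
    have h3 := (S.prime).mem_or_mem h1
    rcases h3 with h3 | h3
    · rw [← S.pker, ← S.pτ] at h3
      rw [← S.τ2 (pM (homogeneousComponent l g)), h3, map_zero]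
    · exact absurd (hpt2 h3) hHy
  have hg : pM g = pM (homogeneousComponent δ g) := by
    conv_lhs => rw [← sum_homogeneousComponent g]
    rw [map_sum]
    by_cases hδ : δ ∈ Finset.range (g.totalDegree + 1)
    · exact Finset.sum_eq_single_of_mem δ hδ fun l _ hl => hcomp l hl
    · rw [homogeneousComponent_eq_zero δ g (by
        rw [Finset.mem_range] at hδ
        omega), map_zero]
      exact Finset.sum_eq_zero fun l hl => hcomp l (fun h => hδ (h ▸ hl))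
  have h5 := div_mem_locY (κ := ι.comp pM) S.hκ (y := y)
    (homogeneousComponent_isHomogeneous δ g)
    (show (X i ^ δ : MvPolynomial (Fin (n + 1)) O).IsHomogeneous δ by
      simpa using (isHomogeneous_X O i).pow δ)
    (fun h => hi (hpt1.mem_of_pow_mem _ h))
  rw [map_pow] at h5
  rw [hg]
  exact h5

include S in
/-- TASK T5. The fractions of the elements of `cB` generate the same ideal: the additional generators
are in `c`. For `b = e * pM (X k) ^ δ`: the fraction is `(ι e) (κ (X k) / κ (X i)) ^ δ`. For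
`b = τ (pM g)`: `ι b / ι (pM (X i)) ^ δ = τF (κ g / κ (X i) ^ δ) * (κ (X (ρ i)) / κ (X i)) ^ δ`
(`S.τFι`, `S.hτκ`, `τF (κ (X i)) = κ (X (ρ i))`), `hst` and `div_mem_locY`. -/
theorem Setting.span_cB [IsDomain M] {y : hProj I} {i : Fin (n + 1)} (hi : X i ∉ ptIdeal I y)
    {δ : ℕ} {e : M} {G : Finset (MvPolynomial (Fin (n + 1)) O)}
    {c : Ideal (locY I (ι.comp pM) y)} (hst : ∀ a ∈ c, ∃ b ∈ c, (b : F) = τF a)
    (hc : c = Ideal.span {a : locY I (ι.comp pM) y |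
      ∃ g ∈ G, (a : F) = (ι.comp pM) g / (ι.comp pM) (X i) ^ δ})
    (he : ∃ a ∈ c, (a : F) = ι e) :
    c = Ideal.span {a : locY I (ι.comp pM) y |
      ∃ b ∈ cB τ pM δ e G, (a : F) = ι b / ι (pM (X i)) ^ δ} := by
  obtain ⟨hpt1, hpt2, -, -⟩ := ptIdeal_spec I y
  have hX : ι (pM (X i)) ≠ 0 := by
    intro h0
    exact hi (hpt2 ((S.hκ (X i)).mp h0))
  have hcoord : ∀ k, ι (pM (X k)) / ι (pM (X i)) ∈ locY I (ι.comp pM) y := by
    intro k
    exact div_mem_locY (κ := ι.comp pM) S.hκ (isHomogeneous_X O k) (isHomogeneous_X O i) hi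
  apply le_antisymm
  · rw [hc, Ideal.span_le]
    rintro a ⟨g, hg, ha⟩
    exact Ideal.subset_span ⟨pM g, Or.inr (Or.inl ⟨g, hg, rfl⟩), ha⟩
  · rw [Ideal.span_le]
    rintro a ⟨b, hb, ha⟩
    change a ∈ c
    rcases hb with ⟨k, rfl⟩ | ⟨g, hg, rfl⟩ | ⟨_, ⟨g, hg, rfl⟩, rfl⟩
    · obtain ⟨a₀, ha₀, hea⟩ := he
      have h1 : a = a₀ * ⟨_, hcoord k⟩ ^ δ := by
        apply Subtype.ext
        rw [ha, map_mul, map_pow]
        change ι e * ι (pM (X k)) ^ δ / ι (pM (X i)) ^ δ =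
          (a₀ : F) * (ι (pM (X k)) / ι (pM (X i))) ^ δ
        rw [hea, div_pow, mul_div_assoc]
      rw [h1]
      exact c.mul_mem_right _ ha₀
    · rw [hc]
      exact Ideal.subset_span ⟨g, hg, ha⟩
    · have h1 : ι (pM g) / ι (pM (X i)) ^ δ ∈ locY I (ι.comp pM) y := by
        apply t5_mem S hi
        rw [← ha]
        exact a.2
      have h2 : (⟨_, h1⟩ : locY I (ι.comp pM) y) ∈ c := by
        rw [hc]
        exact Ideal.subset_span ⟨g, hg, rfl⟩
      obtain ⟨b, hb, hbF⟩ := hst _ h2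
      obtain ⟨i', hi'⟩ := S.star i
      have hX' : ι (pM (X i')) ≠ 0 := by
        intro h0
        apply hX
        have h3 : pM (X i') = 0 := (map_eq_zero_iff ι S.inj).mp h0
        rw [← S.τ2 (pM (X i)), hi', h3, map_zero, map_zero]
      have h4 : a = b * ⟨_, hcoord i'⟩ ^ δ := by
        apply Subtype.ext
        rw [ha]
        change ι (τ (pM g)) / ι (pM (X i)) ^ δ =
          (b : F) * (ι (pM (X i')) / ι (pM (X i))) ^ δ
        rw [hbF]
        change ι (τ (pM g)) / ι (pM (X i)) ^ δ =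
          τF (ι (pM g) / ι (pM (X i)) ^ δ) * (ι (pM (X i')) / ι (pM (X i))) ^ δ
        rw [map_div₀, map_pow, S.τFι, S.τFι, hi', div_pow]
        field_simp
      rw [h4]
      exact c.mul_mem_right _ hb
-- END T5

-- BEGIN T6
/-- TASK T6. **The local rings above a fixed point.** `hg.good` with `b j = ι (β j) / ι (x i) ^ δ`, which is in
`c j` by `hBA` and `hc`; for `y ∈ c j`: `y / b j ∈ D` by `Submodule.span_induction` from `hD.ratio`. The
last hypothesis of `good`: `hD.gen` (`hA.lam`, `hA.coord`, `ι b / ι (β j) = (ι b / ι (x i) ^ δ) / b j`). -/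
theorem GoodCen.apply {Ix : Type} {x : Ix → M} {B : ℕ → Set M} {Λ : Subring M} {r : ℕ}
    {A D : Subring F} [IsLocalRing A] {i : Ix} {β : ℕ → M} {c : ℕ → Ideal A}
    (hg : GoodCen τF A r c) (hD : LocSit ι x B Λ r D i β) (hA : Around ι x Λ D i A) {δ : ℕ}
    (hBA : ∀ j ∈ Finset.Icc 1 r, ∀ b ∈ B j, ι b / ι (x i) ^ δ ∈ A)
    (hc : ∀ j ∈ Finset.Icc 1 r, c j = Ideal.span {a : A | ∃ b ∈ B j, (a : F) = ι b / ι (x i) ^ δ}) :
    IsRegularLocalRing D ∧ ((∀ z ∈ D, τF z ∈ D) → Principal τF D) := by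
  have hx : ι (x i) ^ δ ≠ 0 := pow_ne_zero _ hD.ne
  have hq : ∀ j ∈ Finset.Icc 1 r, ∀ b : M,
      (ι b / ι (x i) ^ δ) / (ι (β j) / ι (x i) ^ δ) = ι b / ι (β j) := by
    intro j hj b
    have h1 := hD.β_ne j hj
    field_simp
  refine hg.good D hD.loc hA.le hA.dom (fun j => ι (β j) / ι (x i) ^ δ) ?_ ?_
  · intro j hj
    refine ⟨div_ne_zero (hD.β_ne j hj) hx,
      ⟨⟨_, hBA j hj _ (hD.β_mem j hj)⟩, ?_, rfl⟩, ?_⟩
    · rw [hc j hj]
      exact Ideal.subset_span ⟨β j, hD.β_mem j hj, rfl⟩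
    · intro a ha
      rw [hc j hj] at ha
      change (a : F) / (ι (β j) / ι (x i) ^ δ) ∈ D
      induction ha using Submodule.span_induction with
      | mem a ha =>
        obtain ⟨b, hb, hab⟩ := ha
        rw [hab, hq j hj b]
        exact hD.ratio j hj b hb
      | zero =>
        rw [ZeroMemClass.coe_zero, zero_div]
        exact D.zero_mem
      | add a b _ _ ha hb =>
        rw [Subring.coe_add, add_div]
        exact D.add_mem ha hb
      | smul a b _ hb =>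
        rw [smul_eq_mul, Subring.coe_mul, mul_div_assoc]
        exact D.mul_mem (hA.le a.2) hb
  · intro R' h1 h2 h3 h4
    refine hD.gen R' h1 h2 (fun d hd => h3 (hA.lam d hd)) (fun k => h3 (hA.coord k)) ?_
    intro j hj b hb
    have h5 := h4 j hj ⟨_, hBA j hj b hb⟩ (by
      rw [hc j hj]
      exact Ideal.subset_span ⟨b, hb, rfl⟩)
    change (ι b / ι (x i) ^ δ) / (ι (β j) / ι (x i) ^ δ) ∈ R' at h5
    rwa [hq j hj b] at h5
-- END T6

-- BEGIN T7
include S in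
/-- TASK T7. **The local rings above the other points.** `eq_of_units`: the fractions are in `locY`
(`Setting.cB_homog`, `div_mem_locY`), and `pM g ∈ cB`, `g ∉ ptIdeal I y` gives a unit by
`isUnit_locY_iff` (and `hA.le`). So `D = locY` is regular. `principal_of_not_fixed` with `hram.eps`:
`hfix` from `hyS`: either `C c ∉ ptIdeal I y` for some `c ∈ 𝔓`; then `ι (oM c) w = 1`, `w ∈ D` (`hpt`, `k = 0`);
by `hram.dvr`, `oM c = ϖ c'` and `ι ϖ (ι c' w) = 1` (`hD.lam`), or `oM c * c' = 1` with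
`n c' = oM c''`, `n ∉ p`, so `c c'' = n` in `O` (`S.oM_inj`, `oM_algebraMap`), contradiction to `c ∈ 𝔓`; or
`X k X (ρ l) - X l X (ρ k) ∉ ptIdeal I y`, of degree `2` (`hpt`, `k = 2`), and its image is
`uEl x τ k l` (`S.pτ`). -/
theorem Setting.local_not_fixed [IsDomain M] {p : Ideal R} [hp : p.IsPrime] {𝔓 : Ideal O}
    [h𝔓 : 𝔓.IsPrime] (hp𝔓 : 𝔓.comap (algebraMap R O) = p) {ϖ : O} {s : ℕ}
    (hram : Ram O L M τ p ϖ s) {δ r : ℕ} {e : ℕ → O}
    {G : ℕ → Finset (MvPolynomial (Fin (n + 1)) O)} (hG : ∀ j, ∀ g ∈ G j, g.IsHomogeneous δ)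
    {D : Subring F} {i : Fin (n + 1)} {β : ℕ → M}
    (hD : LocSit ι (fun k => pM (X k)) (fun j => cB τ pM δ (oM O L M (e j)) (G j))
      (lamP O L M p) r D i β) {y : hProj I} (hi : X i ∉ ptIdeal I y)
    (hA : Around ι (fun k => pM (X k)) (lamP O L M p) D i (locY I (ι.comp pM) y))
    (hpt : ∀ (k : ℕ) (G : MvPolynomial (Fin (n + 1)) O), G.IsHomogeneous k →
      (G ∈ ptIdeal I y ↔ ∀ w ∈ D, ι (pM G) / ι (pM (X i)) ^ k * w ≠ 1))
    (hyS : ¬ FixPt ρ 𝔓 y) (hGy : ∀ j ∈ Finset.Icc 1 r, ∃ g ∈ G j, g ∉ ptIdeal I y) :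
    IsRegularLocalRing D ∧ ((∀ z ∈ D, τF z ∈ D) → Principal τF D) := by
  have hXδ : (X i ^ δ : MvPolynomial (Fin (n + 1)) O) ∉ ptIdeal I y := fun h =>
    hi ((ptIdeal_spec I y).1.mem_of_pow_mem _ h)
  have hXhom : (X i ^ δ : MvPolynomial (Fin (n + 1)) O).IsHomogeneous δ :=
    isHomogeneous_X_pow i δ
  have hXi0 : ι (pM (X i)) ≠ 0 := hD.ne
  have hDA : D = locY I (ι.comp pM) y := by
    refine eq_of_units (δ := δ) hD hA ?_ ?_
    · intro j _ b hb
      obtain ⟨g, hg1, hg2⟩ := S.cB_homog (hG j) hb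
      have h1 := div_mem_locY (I := I) (κ := ι.comp pM) S.hκ (y := y) hg1 hXhom hXδ
      rw [RingHom.comp_apply, RingHom.comp_apply, hg2, map_pow, map_pow] at h1
      exact h1
    · intro j hj
      obtain ⟨g, hg1, hg2⟩ := hGy j hj
      refine ⟨pM g, Or.inr (Or.inl ⟨g, hg1, rfl⟩), ?_⟩
      have hz : ι (pM g) / ι (pM (X i)) ^ δ * (ι.comp pM) (X i ^ δ) = (ι.comp pM) g := by
        rw [RingHom.comp_apply, RingHom.comp_apply, map_pow, map_pow]
        exact div_mul_cancel₀ _ (pow_ne_zero _ hXi0)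
      obtain ⟨w, hw1, hw2⟩ := (isUnit_locY_iff S.hκ (hG j g hg1) hXhom hXδ hz).mpr hg2
      exact ⟨w, hA.le hw1, hw2⟩
  refine ⟨?_, fun hDτ => ?_⟩
  · rw [hDA]
    exact hA.reg
  · obtain ⟨ε, -, ε', hε', hϖτ, hεε⟩ := hram.eps
    refine principal_of_not_fixed S.inj S.τ2 S.τFι S.τFτF S.star hD (oM_mem_lamP p ϖ) hε' hϖτ
      hεε ?_ hDτ
    unfold FixPt at hyS
    rw [not_and_or] at hyS
    rcases hyS with hyS | hyS
    · left
      push Not at hyS
      obtain ⟨c, hc, hcy⟩ := hyS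
      rw [hpt 0 (C c) (isHomogeneous_C _ _)] at hcy
      push Not at hcy
      obtain ⟨w, hw1, hw2⟩ := hcy
      rw [pow_zero, div_one, S.pC] at hw2
      rcases hram.dvr (oM O L M c) (oM_mem_lamP p c) with ⟨c', hc', h1⟩ | ⟨c', hc', h1⟩
      · exfalso
        obtain ⟨m, hm, c'', h2, -⟩ := hc'
        have h3 : c * c'' = algebraMap R O m := by
          apply S.oM_inj
          rw [map_mul, ← h2, oM_algebraMap]
          calc oM O L M c * (algebraMap R M m * c') = algebraMap R M m * (oM O L M c * c') := by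
                ring
            _ = algebraMap R M m := by rw [h1, mul_one]
        apply hm
        rw [← hp𝔓, Ideal.mem_comap, ← h3]
        exact Ideal.mul_mem_right _ _ hc
      · refine ⟨ι c' * w, D.mul_mem (hD.lam c' hc') hw1, ?_⟩
        rw [← mul_assoc, ← map_mul, ← h1]
        exact hw2
    · right
      push Not at hyS
      obtain ⟨k, l, hkl⟩ := hyS
      have hhom : (X k * X (ρ l) - X l * X (ρ k) :
          MvPolynomial (Fin (n + 1)) O).IsHomogeneous 2 :=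
        ((isHomogeneous_X _ _).mul (isHomogeneous_X _ _)).sub
          ((isHomogeneous_X _ _).mul (isHomogeneous_X _ _))
      rw [hpt 2 _ hhom] at hkl
      push Not at hkl
      obtain ⟨w, hw1, hw2⟩ := hkl
      refine ⟨k, l, w, hw1, ?_⟩
      have h1 : ∀ l : Fin (n + 1), τ (pM (X l)) = pM (X (ρ l)) := fun l => by
        rw [S.pτ, twHom, eval₂Hom_X']
      have h2 : pM (X k * X (ρ l) - X l * X (ρ k)) = uEl (fun k => pM (X k)) τ k l := by
        rw [map_sub, map_mul, map_mul]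
        unfold uEl
        rw [h1, h1]
      rw [h2, sq] at hw2
      exact hw2
-- END T7

end CB

end Pool.Agent.Lib.MP_6a3dac_ag.QD
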